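import Mathlib

/-!
# MP_a9ba8c (Larman, t = 1): asymptotic helper lemmas
-/

set_option autoImplicit false

open Filter

namespace Pool.Larman

theorem ev_ge (C : ℝ) : ∀ᶠ (g : ℕ) in atTop, C ≤ (g : ℝ) :=
  tendsto_natCast_atTop_atTop.eventually_ge_atTop C

/-- C g^k <= exp(c g^j) for large g -/
theorem ev_poly_exp (C : ℝ) (k j : ℕ) (hj : 0 < j) (c : ℝ) (hc : 0 < c) :
    ∀ᶠ (g : ℕ) in atTop, C * (g : ℝ) ^ k ≤ Real.exp (c * (g : ℝ) ^ j) := by
  have h1 : Tendsto (fun x : ℝ => x ^ k * Real.exp (-c * x)) atTop (nhds 0) := by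
    have := Real.tendsto_pow_mul_exp_neg_atTop_nhds_zero k
    have h2 := (this.comp (tendsto_id.const_mul_atTop hc)).const_mul ((1 / c) ^ k)
    rw [mul_zero] at h2
    refine h2.congr (fun x => ?_)
    simp only [Function.comp, id]
    rw [mul_pow, ← mul_assoc, ← mul_assoc, ← mul_pow, one_div, inv_mul_cancel₀ hc.ne', one_pow,
      one_mul, neg_mul]
  have h3 : ∀ᶠ (g : ℕ) in atTop, (g : ℝ) ^ k * Real.exp (-c * g) < 1 / (|C| + 1) :=
    (h1.comp tendsto_natCast_atTop_atTop).eventually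
      (gt_mem_nhds (by positivity))
  filter_upwards [h3, ev_ge 1] with g hg hg1
  have hx : (g : ℝ) ≤ (g : ℝ) ^ j := by
    calc (g : ℝ) = (g : ℝ) ^ 1 := (pow_one _).symm
      _ ≤ (g : ℝ) ^ j := pow_le_pow_right₀ hg1 hj
  have h4 : Real.exp (c * g) ≤ Real.exp (c * (g : ℝ) ^ j) :=
    Real.exp_le_exp.2 (mul_le_mul_of_nonneg_left hx hc.le)
  refine le_trans ?_ h4
  have h5 : (g : ℝ) ^ k * Real.exp (-c * g) * (|C| + 1) < 1 := by
    rwa [lt_div_iff₀ (by positivity)] at hg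
  have h6 : Real.exp (-c * g) * Real.exp (c * g) = 1 := by
    rw [← Real.exp_add]; simp
  have h7 : 0 < Real.exp (c * g) := Real.exp_pos _
  have h8 : 0 ≤ (g : ℝ) ^ k := by positivity
  have h9 : (g : ℝ) ^ k * (|C| + 1) < Real.exp (c * g) := by
    have : (g : ℝ) ^ k * (|C| + 1) =
        ((g : ℝ) ^ k * Real.exp (-c * g) * (|C| + 1)) * Real.exp (c * g) := by
      calc (g : ℝ) ^ k * (|C| + 1) =
          (g : ℝ) ^ k * (|C| + 1) * (Real.exp (-c * g) * Real.exp (c * g)) := by rw [h6, mul_one]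
        _ = _ := by ring
    rw [this]
    calc _ < 1 * Real.exp (c * g) := mul_lt_mul_of_pos_right h5 h7
      _ = _ := one_mul _
  have h10 : C ≤ |C| + 1 := by linarith [le_abs_self C]
  nlinarith [mul_le_mul_of_nonneg_right h10 h8]

/-- C g^a <= g^b if C <= g and a < b -/
theorem pow_slack {g C : ℝ} (h1 : 1 ≤ g) (hC : C ≤ g) {a b : ℕ} (hab : a < b) :
    C * g ^ a ≤ g ^ b := by
  calc C * g ^ a ≤ g * g ^ a := mul_le_mul_of_nonneg_right hC (by positivity)
    _ = g ^ (a + 1) := by rw [pow_succ]; ring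
    _ ≤ g ^ b := pow_le_pow_right₀ h1 hab

end Pool.Larman
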