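import Pool.Agent.Larman.Points

/-!
# MP_a9ba8c (Larman, t = 1): averages over choices of twins (helper1)
-/

set_option autoImplicit false

open scoped BigOperators Classical

noncomputable section

namespace Pool.Larman

theorem avg_mono {g : ℕ} {F G : (Un g → Bool) → ℝ} (h : ∀ t, F t ≤ G t) : avg F ≤ avg G := by
  unfold avg
  exact div_le_div_of_nonneg_right (Finset.sum_le_sum fun t _ => h t) (by positivity)

theorem avg_nonneg {g : ℕ} {F : (Un g → Bool) → ℝ} (h : ∀ t, 0 ≤ F t) : 0 ≤ avg F := by
  unfold avg
  exact div_nonneg (Finset.sum_nonneg fun t _ => h t) (by positivity)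

theorem avg_add {g : ℕ} (F G : (Un g → Bool) → ℝ) : avg (fun t => F t + G t) = avg F + avg G := by
  unfold avg
  rw [Finset.sum_add_distrib, add_div]

/-- complementing all twins -/
theorem avg_not {g : ℕ} (F : (Un g → Bool) → ℝ) : avg (fun t => F (fun y => !t y)) = avg F := by
  unfold avg
  congr 1
  let e : (Un g → Bool) ≃ (Un g → Bool) :=
    { toFun := fun t y => !t y
      invFun := fun t y => !t y
      left_inv := fun t => by funext y; simp
      right_inv := fun t => by funext y; simp }
  exact Equiv.sum_comp e F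

/-- fixing one twin costs at most a factor two -/
theorem sum_update_le {g : ℕ} (F : (Un g → Bool) → ℝ) (hF : ∀ t, 0 ≤ F t) (y : Un g) (b : Bool) :
    ∑ t : Un g → Bool, F (Function.update t y b) ≤ 2 * ∑ t, F t := by
  let e : (Un g → Bool) ≃ (Un g → Bool) :=
    { toFun := fun t => Function.update t y (!t y)
      invFun := fun t => Function.update t y (!t y)
      left_inv := fun t => by simp
      right_inv := fun t => by simp }
  have h1 : ∀ t : Un g → Bool, F (Function.update t y b) ≤ F t + F (e t) := by
    intro t
    by_cases h : t y = b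
    · have : Function.update t y b = t := by rw [← h]; simp
      rw [this]
      linarith [hF (e t)]
    · have : Function.update t y b = e t := by
        show _ = Function.update t y (!t y)
        congr 1
        cases b <;> simp_all
      rw [this]
      linarith [hF t]
  calc ∑ t, F (Function.update t y b) ≤ ∑ t, (F t + F (e t)) := Finset.sum_le_sum fun t _ => h1 t
    _ = ∑ t, F t + ∑ t, F (e t) := Finset.sum_add_distrib
    _ = 2 * ∑ t, F t := by rw [Equiv.sum_comp e F]; ring

/-- fixing the twins on a finite set of units -/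
theorem sum_fix_le {g : ℕ} (Y : Finset (Un g)) (c : Un g → Bool) :
    ∀ (F : (Un g → Bool) → ℝ), (∀ t, 0 ≤ F t) →
    ∑ t : Un g → Bool, F (fun y => if y ∈ Y then c y else t y) ≤ 2 ^ Y.card * ∑ t, F t := by
  induction Y using Finset.induction_on with
  | empty => intro F _; simp
  | insert a Y ha ih =>
    intro F hF
    rw [Finset.card_insert_of_notMem ha, pow_succ]
    have h1 : ∀ t : Un g → Bool, (fun y => if y ∈ insert a Y then c y else t y) =
        Function.update (fun y => if y ∈ Y then c y else t y) a (c a) := by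
      intro t
      funext y
      by_cases hy : y = a
      · subst hy; simp
      · rw [Function.update_of_ne hy]
        simp [hy]
    simp_rw [h1]
    have h2 := ih (fun t => F (Function.update t a (c a))) (fun t => hF _)
    refine h2.trans ?_
    have h3 := sum_update_le F hF a (c a)
    calc (2 : ℝ) ^ Y.card * ∑ t, F (Function.update t a (c a))
        ≤ 2 ^ Y.card * (2 * ∑ t, F t) := mul_le_mul_of_nonneg_left h3 (by positivity)
      _ = _ := by ring

/-- extending a pattern by units with a definite twin -/
theorem avg_ext_le {g : ℕ} (s s' : Pat g) (F : Tr g → ℝ) (hF : ∀ T, 0 ≤ F T)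
    (hdom : s.dom ⊆ s'.dom) (hst : ∀ y ∈ s.dom, s'.st y = s.st y)
    (c : Un g → Bool) (hnew : ∀ y ∈ s'.dom, y ∉ s.dom → s'.st y = some (c y)) {m : ℕ}
    (hm : (s'.dom \ s.dom).card ≤ m) :
    avg (fun t => F (ext s' t)) ≤ 2 ^ m * avg (fun t => F (ext s t)) := by
  have h1 : ∀ t : Un g → Bool, ext s' t = ext s (fun y => if y ∈ s'.dom \ s.dom then c y else t y) := by
    intro t
    funext y
    unfold ext
    by_cases hy : y ∈ s.dom
    · rw [if_pos (hdom hy), if_pos hy, hst y hy]
    · rw [if_neg hy]
      by_cases hy' : y ∈ s'.dom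
      · rw [if_pos hy', hnew y hy' hy]
        beta_reduce
        rw [if_pos (Finset.mem_sdiff.mpr ⟨hy', hy⟩)]
      · rw [if_neg hy']
        beta_reduce
        rw [if_neg (fun h => hy' (Finset.mem_sdiff.mp h).1)]
  simp_rw [h1]
  have h2 := sum_fix_le (s'.dom \ s.dom) c (fun t => F (ext s t)) (fun t => hF _)
  have h3 : 0 ≤ ∑ t, F (ext s t) := Finset.sum_nonneg fun t _ => hF _
  have h4 : (2 : ℝ) ^ (s'.dom \ s.dom).card ≤ 2 ^ m := pow_le_pow_right₀ (by norm_num) hm
  unfold avg
  rw [← mul_div_assoc]
  apply div_le_div_of_nonneg_right _ (by positivity)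
  exact h2.trans (mul_le_mul_of_nonneg_right h4 h3)

theorem ind_nonneg (p : Prop) : 0 ≤ ind p := by unfold ind; split_ifs <;> norm_num

theorem ind_le_add {p q r : Prop} (h : p → q ∨ r) : ind p ≤ ind q + ind r := by
  unfold ind
  by_cases hp : p
  · rcases h hp with hq | hr
    · rw [if_pos hp, if_pos hq]; split_ifs <;> norm_num
    · rw [if_pos hp, if_pos hr]; split_ifs <;> norm_num
  · rw [if_neg hp]; split_ifs <;> norm_num

theorem ind_congr {p q : Prop} (h : p ↔ q) : ind p = ind q := by
  unfold ind; simp only [h]

end Pool.Larman
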