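import Pool.Agent.Larman.SlotTail

/-! # P(BB): the bound b1 (centred counts at a unit) -/

set_option autoImplicit false

open scoped BigOperators Classical

noncomputable section

namespace Pool.Larman

open Filter
open Pool.LarProb (Ex Pr IsP PW unifOn)

/-- Proof. Let g be large. For `y ∈ Mu` and `j ≤ E.M` apply `tail_mem0` with
`s = {k | k.val < j}`, `Y k w = E.inc D k w y`, `b = 1` (`Env.inc_abs_le`), mean 0 (`Env.Ex_inc`),
`V = 48 g^83` (each second moment is at most `24/g^950` by `Env.OK.Ex_inc_sq_le`, at most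
`E.M ≤ 2 g^1033` terms), `t = g^43/20`: the probability that `t ≤ |Dp D B y j|` is at most
`2 exp (- g^86/400/(192 g^83)) = 2 exp (- g^3/76800)`.
Union bound (`Pr_union`) over `(y, j)` in `Mu ×ˢ range (E.M + 1)`, which has at most
`g^1050 (2 g^1033 + 1) ≤ 3 g^2083` elements (`Geo.g1` with b = 0, `Mu ⊆ kind 0 (D.S u)`):
`6 g^2083 exp (- g^3/76800) ≤ 1/24` for large g by `ev_exp`. -/
theorem BB1 : ∀ᶠ g : ℕ in atTop, ∀ D : Dat g, Geo D.S →
    ∀ (u : Pl g) (X : Finset (Un g)) (E : Env g), E.OK D u X →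
    Pr (sP E) (fun B => ¬ ∀ y ∈ D.Mu u X, ∀ j : ℕ, j ≤ E.M → |E.Dp D B y j| ≤ (g : ℝ) ^ 43 / 20)
      ≤ 1 / 24 := by
  filter_upwards [ev_exp 6 (c := 1 / 76800) (ε := 1 / 24) 2083 3 (by norm_num) (by norm_num)
    (by norm_num), eventually_ge_atTop 1] with g h1 hg D hD u X E hE
  have hg0 : 0 < g := hg
  have hg1 : (1 : ℝ) ≤ g := by exact_mod_cast hg
  have hgp : (0 : ℝ) < g := by linarith
  have hW : (k : Fin E.M) → (E.W k).Nonempty := hE.W_nonempty hg0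
  have htail : ∀ p ∈ (D.Mu u X) ×ˢ Finset.range (E.M + 1),
      Pr (sP E) (fun B => (g : ℝ) ^ 43 / 20 ≤ |E.Dp D B p.1 p.2|) ≤
        2 * Real.exp (-(1 / 76800 * (g : ℝ) ^ 3)) := by
    intro p hp
    have hy : p.1 ∈ D.Mu u X := (Finset.mem_product.1 hp).1
    set s : Finset (Fin E.M) := Finset.univ.filter (fun k => k.val < p.2) with hs
    have hDp : ∀ B : Fin E.M → Pl g, E.Dp D B p.1 p.2 = ∑ k ∈ s, E.inc D k (B k) p.1 := by
      intro B
      rw [Env.Dp, hs, Finset.sum_filter]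
    have hV : ∑ k ∈ s, Ex (unifOn (E.W k)) (fun w => E.inc D k w p.1 ^ 2) ≤
        48 * (g : ℝ) ^ 83 := by
      have h2 : ∑ k ∈ s, Ex (unifOn (E.W k)) (fun w => E.inc D k w p.1 ^ 2) ≤
          ∑ _k ∈ s, 24 / (g : ℝ) ^ 950 :=
        Finset.sum_le_sum fun k _ => hE.Ex_inc_sq_le hg0 k p.1 hy
      rw [Finset.sum_const, nsmul_eq_mul] at h2
      have h3 : ((s.card : ℕ) : ℝ) ≤ 2 * (g : ℝ) ^ 1033 := by
        have h4 : s.card ≤ E.M := by
          have := Finset.card_le_univ s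
          rwa [Fintype.card_fin] at this
        have h5 : ((s.card : ℕ) : ℝ) ≤ (E.M : ℝ) := by exact_mod_cast h4
        exact h5.trans hE.M_le
      have h6 : ((s.card : ℕ) : ℝ) * (24 / (g : ℝ) ^ 950) ≤
          2 * (g : ℝ) ^ 1033 * (24 / (g : ℝ) ^ 950) :=
        mul_le_mul_of_nonneg_right h3 (by positivity)
      have h7 : 2 * (g : ℝ) ^ 1033 * (24 / (g : ℝ) ^ 950) = 48 * (g : ℝ) ^ 83 := by
        have h8 : (g : ℝ) ^ 1033 = (g : ℝ) ^ 83 * (g : ℝ) ^ 950 := by rw [← pow_add]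
        have h9 : (g : ℝ) ^ 950 ≠ 0 := by positivity
        rw [h8]
        field_simp
        ring
      linarith
    have hbt : 1 * ((g : ℝ) ^ 43 / 20) ≤ 48 * (g : ℝ) ^ 83 := by
      have h2 : (g : ℝ) ^ 43 ≤ (g : ℝ) ^ 83 := pow_le_pow_right₀ hg1 (by norm_num)
      have h3 : 0 ≤ (g : ℝ) ^ 43 := by positivity
      linarith
    have h := tail_mem0 hW s (fun k w => E.inc D k w p.1) (b := 1) (V := 48 * (g : ℝ) ^ 83)
      (t := (g : ℝ) ^ 43 / 20) (fun k _ w _ => E.inc_abs_le k w p.1)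
      (fun k _ => E.Ex_inc hW k p.1) hV (by positivity) (by positivity) hbt
    have he : ((g : ℝ) ^ 43 / 20) ^ 2 / (4 * (48 * (g : ℝ) ^ 83)) = 1 / 76800 * (g : ℝ) ^ 3 := by
      have h8 : ((g : ℝ) ^ 43 / 20) ^ 2 = (g : ℝ) ^ 3 * (g : ℝ) ^ 83 / 400 := by
        rw [div_pow, ← pow_mul, ← pow_add]
        norm_num
      have h9 : (g : ℝ) ^ 83 ≠ 0 := by positivity
      rw [h8]
      field_simp
      norm_num
    rw [he] at h
    simpa only [hDp] using h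
  have hun := Pr_union hW ((D.Mu u X) ×ˢ Finset.range (E.M + 1))
    (fun B => ¬ ∀ y ∈ D.Mu u X, ∀ j : ℕ, j ≤ E.M → |E.Dp D B y j| ≤ (g : ℝ) ^ 43 / 20)
    (fun p B => (g : ℝ) ^ 43 / 20 ≤ |E.Dp D B p.1 p.2|) (fun B _ hB => ?_) htail
  · refine hun.trans ?_
    have hc : ((((D.Mu u X) ×ˢ Finset.range (E.M + 1)).card : ℕ) : ℝ) ≤ 3 * (g : ℝ) ^ 2083 := by
      rw [Finset.card_product, Finset.card_range]
      push_cast
      have h2 : (((D.Mu u X).card : ℕ) : ℝ) ≤ (g : ℝ) ^ 1050 := by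
        rw [← hD.g1 u 0]
        exact_mod_cast Finset.card_le_card Finset.sdiff_subset
      have h3 : (E.M : ℝ) + 1 ≤ 3 * (g : ℝ) ^ 1033 := by
        have h4 := hE.M_le
        have h5 : (1 : ℝ) ≤ (g : ℝ) ^ 1033 := one_le_pow₀ hg1
        linarith
      calc (((D.Mu u X).card : ℕ) : ℝ) * ((E.M : ℝ) + 1)
          ≤ (g : ℝ) ^ 1050 * (3 * (g : ℝ) ^ 1033) :=
            mul_le_mul h2 h3 (by positivity) (by positivity)
        _ = 3 * (g : ℝ) ^ 2083 := by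
            rw [mul_left_comm, ← pow_add]
    calc ((((D.Mu u X) ×ˢ Finset.range (E.M + 1)).card : ℕ) : ℝ) *
          (2 * Real.exp (-(1 / 76800 * (g : ℝ) ^ 3)))
        ≤ 3 * (g : ℝ) ^ 2083 * (2 * Real.exp (-(1 / 76800 * (g : ℝ) ^ 3))) :=
          mul_le_mul_of_nonneg_right hc (by positivity)
      _ = 6 * (g : ℝ) ^ 2083 * Real.exp (-(1 / 76800 * (g : ℝ) ^ 3)) := by ring
      _ ≤ 1 / 24 := h1
  · push Not at hB
    obtain ⟨y, hy, j, hj, hlt⟩ := hB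
    exact ⟨(y, j), Finset.mem_product.2 ⟨hy, Finset.mem_range.2 (by omega)⟩, hlt.le⟩

end Pool.Larman
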