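import Pool.Agent.Larman.SlotTail

/-! # P(BB): the bound b2 (centred counts along a player w) -/

set_option autoImplicit false

open scoped BigOperators Classical

noncomputable section

namespace Pool.Larman

open Filter
open Pool.LarProb (Ex Pr IsP PW unifOn)

/-- the counting units of the pair `u, w` among the free tilted units -/
private def AA {g : ℕ} (D : Dat g) (u : Pl g) (X : Finset (Un g)) (w : Pl g) : Finset (Un g) :=
  (D.Mu u X).filter (fun y => (y, true) ∈ D.Q u w)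

private theorem AA_sub {g : ℕ} {D : Dat g} {u : Pl g} {X : Finset (Un g)} {w : Pl g} :
    AA D u X w ⊆ kind 0 (D.S u ∩ D.S w) := by
  intro y hy
  simp only [AA, Dat.Mu, Dat.Q, Dat.Z, kind, Finset.mem_filter, Finset.mem_sdiff,
    Finset.mem_inter, Finset.mem_univ, true_and] at hy ⊢
  tauto

private theorem AA_card {g : ℕ} (hg : 1 ≤ g) {D : Dat g} (hS : Geo D.S) {u : Pl g}
    {X : Finset (Un g)} {w : Pl g} (hw : u ≠ w) :
    ((AA D u X w).card : ℝ) ≤ 2 * (g : ℝ) ^ 100 := by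
  have h1 := (abs_le.1 (hS.g1z u w hw 0)).2
  have h2 : ((AA D u X w).card : ℝ) ≤ ((kind 0 (D.S u ∩ D.S w)).card : ℝ) := by
    exact_mod_cast Finset.card_le_card AA_sub
  have h3 : (1 : ℝ) ≤ g := by exact_mod_cast hg
  have h4 : (g : ℝ) ^ 51 ≤ (g : ℝ) ^ 100 := pow_le_pow_right₀ h3 (by norm_num)
  linarith

private theorem sum_incA {g : ℕ} (D : Dat g) (E : Env g) (A : Finset (Un g))
    (k : Fin E.M) (v : Pl g) :
    ∑ y ∈ A, E.inc D k v y = (((A \ E.H k) ∩ D.S v).card : ℝ) -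
      ∑ y ∈ A, (if y ∈ E.H k then 0 else E.qq D k y) := by
  have h1 : (((A \ E.H k) ∩ D.S v).card : ℝ) =
      ∑ y ∈ A, (if y ∈ E.H k then 0 else ind (y ∈ D.S v)) := by
    have h2 : (A \ E.H k) ∩ D.S v = A.filter (fun y => y ∉ E.H k ∧ y ∈ D.S v) := by
      ext y
      simp only [Finset.mem_inter, Finset.mem_sdiff, Finset.mem_filter]
      tauto
    rw [h2, Finset.card_filter]
    push_cast
    refine Finset.sum_congr rfl fun y _ => ?_
    by_cases hH : y ∈ E.H k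
    · rw [if_pos hH, if_neg (fun h => h.1 hH)]
    · rw [if_neg hH]
      by_cases hS : y ∈ D.S v
      · rw [if_pos ⟨hH, hS⟩, ind_of hS]
      · rw [if_neg (fun h => hS h.2), ind_of_not hS]
  rw [h1, ← Finset.sum_sub_distrib]
  refine Finset.sum_congr rfl fun y _ => ?_
  unfold Env.inc
  by_cases hH : y ∈ E.H k
  · rw [if_pos hH, if_pos hH, if_pos hH, sub_zero]
  · rw [if_neg hH, if_neg hH, if_neg hH]

/-- the bound (i) -/
private theorem abs_le_51 {g : ℕ} (hg : 1 ≤ g) (hg2 : 48 * (g : ℝ) ^ 100 ≤ (g : ℝ) ^ 950)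
    {D : Dat g} (hS : Geo D.S) {u : Pl g} {X : Finset (Un g)} {E : Env g} (hE : E.OK D u X)
    {w : Pl g} (hw : u ≠ w) (k : Fin E.M) {v : Pl g} (hv : v ∈ E.W k) (hvw : v ≠ w) :
    |∑ y ∈ AA D u X w, E.inc D k v y| ≤ 51 := by
  have hr1 : (1 : ℝ) ≤ g := by exact_mod_cast hg
  have h950 : (0 : ℝ) < (g : ℝ) ^ 950 := by positivity
  have h1 : (((AA D u X w \ E.H k) ∩ D.S v).card : ℝ) ≤ 50 := by
    have h2 := hS.g2 u v w (hE.W_ne k v hv).symm hw hvw
    have h3 : (AA D u X w \ E.H k) ∩ D.S v ⊆ D.S u ∩ D.S v ∩ D.S w := by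
      intro y hy
      rw [Finset.mem_inter, Finset.mem_sdiff] at hy
      have h4 := AA_sub hy.1.1
      simp only [kind, Finset.mem_filter, Finset.mem_inter] at h4
      simp only [Finset.mem_inter]
      exact ⟨⟨h4.1.1, hy.2⟩, h4.1.2⟩
    exact_mod_cast (Finset.card_le_card h3).trans h2
  have h5 : 0 ≤ ∑ y ∈ AA D u X w, (if y ∈ E.H k then 0 else E.qq D k y) := by
    refine Finset.sum_nonneg fun y _ => ?_
    split_ifs
    · exact le_refl _
    · exact E.qq_nonneg k y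
  have h6 : ∑ y ∈ AA D u X w, (if y ∈ E.H k then 0 else E.qq D k y) ≤ 1 := by
    have h7 : ∀ y ∈ AA D u X w, (if y ∈ E.H k then 0 else E.qq D k y) ≤ 24 / (g : ℝ) ^ 950 := by
      intro y hy
      split_ifs with hH
      · positivity
      · exact hE.q1 k y (Finset.mem_of_mem_filter y hy) hH
    refine (Finset.sum_le_sum h7).trans ?_
    rw [Finset.sum_const, nsmul_eq_mul]
    have h8 := AA_card hg hS (X := X) hw
    calc ((AA D u X w).card : ℝ) * (24 / (g : ℝ) ^ 950)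
        ≤ (2 * (g : ℝ) ^ 100) * (24 / (g : ℝ) ^ 950) :=
          mul_le_mul_of_nonneg_right h8 (by positivity)
      _ = (48 * (g : ℝ) ^ 100) / (g : ℝ) ^ 950 := by ring
      _ ≤ 1 := (div_le_one h950).2 hg2
  rw [sum_incA, abs_le]
  have h9 : (0 : ℝ) ≤ (((AA D u X w \ E.H k) ∩ D.S v).card : ℝ) := Nat.cast_nonneg _
  constructor <;> linarith

private def YY {g : ℕ} (D : Dat g) (E : Env g) (u : Pl g) (X : Finset (Un g)) (w : Pl g)
    (k : Fin E.M) (v : Pl g) : ℝ := if v = w then 0 else ∑ y ∈ AA D u X w, E.inc D k v y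

private theorem YY_abs {g : ℕ} (hg : 1 ≤ g) (hg2 : 48 * (g : ℝ) ^ 100 ≤ (g : ℝ) ^ 950)
    {D : Dat g} (hS : Geo D.S) {u : Pl g} {X : Finset (Un g)} {E : Env g} (hE : E.OK D u X)
    {w : Pl g} (hw : u ≠ w) (k : Fin E.M) {v : Pl g} (hv : v ∈ E.W k) :
    |YY D E u X w k v| ≤ 51 := by
  unfold YY
  by_cases hvw : v = w
  · rw [if_pos hvw, abs_zero]
    norm_num
  · rw [if_neg hvw]
    exact abs_le_51 hg hg2 hS hE hw k hv hvw

/-- the bound (ii) for one slot -/
private theorem YY_mean {g : ℕ} (hg : 1 ≤ g) {D : Dat g} (hS : Geo D.S) {u : Pl g}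
    {X : Finset (Un g)} {E : Env g} (hE : E.OK D u X) {w : Pl g} (hw : u ≠ w) (k : Fin E.M) :
    |Ex (unifOn (E.W k)) (YY D E u X w k)| ≤ 2 * (g : ℝ) ^ 100 / (g : ℝ) ^ 9900 := by
  have hW := hE.W_nonempty (show 0 < g from hg)
  have hr1 : (1 : ℝ) ≤ g := by exact_mod_cast hg
  have hc : (0 : ℝ) < ((E.W k).card : ℝ) := by exact_mod_cast Finset.card_pos.2 (hW k)
  have hA := AA_card hg hS (X := X) hw
  have h0 : Ex (unifOn (E.W k)) (fun v => ∑ y ∈ AA D u X w, E.inc D k v y) = 0 := by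
    rw [Pool.LarProb.Ex_sum]
    exact Finset.sum_eq_zero fun y _ => Env.Ex_inc hW k y
  rw [Pool.LarProb.Ex_unifOn, div_eq_zero_iff] at h0
  have h1 : ∑ v ∈ E.W k, ∑ y ∈ AA D u X w, E.inc D k v y = 0 := by
    rcases h0 with h | h
    · exact h
    · exact absurd h hc.ne'
  have h2 : ∑ v ∈ E.W k, YY D E u X w k v =
      - ∑ v ∈ E.W k, (if v = w then ∑ y ∈ AA D u X w, E.inc D k v y else 0) := by
    have h3 : ∀ v ∈ E.W k, YY D E u X w k v = (∑ y ∈ AA D u X w, E.inc D k v y) -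
        (if v = w then ∑ y ∈ AA D u X w, E.inc D k v y else 0) := by
      intro v _
      unfold YY
      by_cases hvw : v = w
      · rw [if_pos hvw, if_pos hvw, sub_self]
      · rw [if_neg hvw, if_neg hvw, sub_zero]
    rw [Finset.sum_congr rfl h3, Finset.sum_sub_distrib, h1, zero_sub]
  have h4 : |∑ v ∈ E.W k, (if v = w then ∑ y ∈ AA D u X w, E.inc D k v y else 0)| ≤
      2 * (g : ℝ) ^ 100 := by
    rw [Finset.sum_ite_eq' (E.W k) w (fun v => ∑ y ∈ AA D u X w, E.inc D k v y)]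
    split_ifs
    · refine (Finset.abs_sum_le_sum_abs _ _).trans ?_
      refine (Finset.sum_le_sum fun y _ => E.inc_abs_le k w y).trans ?_
      rw [Finset.sum_const, nsmul_eq_mul, mul_one]
      exact hA
    · rw [abs_zero]
      positivity
  rw [Pool.LarProb.Ex_unifOn, h2, abs_div, abs_neg, Nat.abs_cast]
  exact div_le_div₀ (by positivity) h4 (by positivity) (hE.W_card k)

/-- the bound (iii) for one slot -/
private theorem YY_sq {g : ℕ} (hg : 1 ≤ g) (hg2 : 48 * (g : ℝ) ^ 100 ≤ (g : ℝ) ^ 950)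
    {D : Dat g} (hS : Geo D.S) {u : Pl g} {X : Finset (Un g)} {E : Env g} (hE : E.OK D u X)
    {w : Pl g} (hw : u ≠ w) (k : Fin E.M) :
    Ex (unifOn (E.W k)) (fun v => YY D E u X w k v ^ 2) ≤
      4896 * ((g : ℝ) ^ 100 / (g : ℝ) ^ 950) := by
  have hW := hE.W_nonempty (show 0 < g from hg)
  have hr1 : (1 : ℝ) ≤ g := by exact_mod_cast hg
  have hc : (0 : ℝ) < ((E.W k).card : ℝ) := by exact_mod_cast Finset.card_pos.2 (hW k)
  have hA := AA_card hg hS (X := X) hw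
  have h1 : Ex (unifOn (E.W k)) (fun v => YY D E u X w k v ^ 2) ≤
      Ex (unifOn (E.W k)) (fun v => 51 * ∑ y ∈ AA D u X w \ E.H k, |E.inc D k v y|) := by
    rw [Pool.LarProb.Ex_unifOn, Pool.LarProb.Ex_unifOn]
    refine div_le_div_of_nonneg_right (Finset.sum_le_sum fun v hv => ?_) hc.le
    have h2 := YY_abs hg hg2 hS hE hw k hv
    have h3 : |YY D E u X w k v| ≤ ∑ y ∈ AA D u X w \ E.H k, |E.inc D k v y| := by
      unfold YY
      split_ifs
      · rw [abs_zero]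
        exact Finset.sum_nonneg fun y _ => abs_nonneg _
      · have h4 : ∑ y ∈ AA D u X w, E.inc D k v y =
            ∑ y ∈ AA D u X w \ E.H k, E.inc D k v y := by
          refine (Finset.sum_subset Finset.sdiff_subset fun y hy hy2 => ?_).symm
          rw [Finset.mem_sdiff, not_and_not_right] at hy2
          unfold Env.inc
          rw [if_pos (hy2 hy)]
        rw [h4]
        exact Finset.abs_sum_le_sum_abs _ _
    calc YY D E u X w k v ^ 2 = |YY D E u X w k v| * |YY D E u X w k v| := by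
          rw [← sq, sq_abs]
      _ ≤ 51 * ∑ y ∈ AA D u X w \ E.H k, |E.inc D k v y| :=
          mul_le_mul h2 h3 (abs_nonneg _) (by norm_num)
  refine h1.trans ?_
  rw [Pool.LarProb.Ex_mul_left, Pool.LarProb.Ex_sum]
  have h5 : ∀ y ∈ AA D u X w \ E.H k, Ex (unifOn (E.W k)) (fun v => |E.inc D k v y|) ≤
      48 / (g : ℝ) ^ 950 := by
    intro y hy
    rw [Finset.mem_sdiff] at hy
    have h6 := Env.Ex_abs_inc (D := D) hW k y hy.2
    have h7 := hE.q1 k y (Finset.mem_of_mem_filter y hy.1) hy.2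
    have h8 : 48 / (g : ℝ) ^ 950 = 2 * (24 / (g : ℝ) ^ 950) := by ring
    rw [h8]
    linarith
  have h9 : ∑ y ∈ AA D u X w \ E.H k, Ex (unifOn (E.W k)) (fun v => |E.inc D k v y|) ≤
      (2 * (g : ℝ) ^ 100) * (48 / (g : ℝ) ^ 950) := by
    refine (Finset.sum_le_sum h5).trans ?_
    rw [Finset.sum_const, nsmul_eq_mul]
    refine mul_le_mul_of_nonneg_right ?_ (by positivity)
    refine le_trans ?_ hA
    exact_mod_cast Finset.card_le_card Finset.sdiff_subset
  calc 51 * ∑ y ∈ AA D u X w \ E.H k, Ex (unifOn (E.W k)) (fun v => |E.inc D k v y|)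
      ≤ 51 * ((2 * (g : ℝ) ^ 100) * (48 / (g : ℝ) ^ 950)) :=
        mul_le_mul_of_nonneg_left h9 (by norm_num)
    _ = 4896 * ((g : ℝ) ^ 100 / (g : ℝ) ^ 950) := by ring

/-- Proof. Fix `w ≠ u`, `A = (D.Mu u X).filter (fun y => (y, true) ∈ D.Q u w)`. Every `y ∈ A` is a
unit of kind 0 in `D.S u ∩ D.S w` (definition of `Dat.Q`, `Dat.Z`), so `|A| ≤ g^100 + g^51 ≤ 2 g^100`
(`Geo.g1z`, b = 0). Let `Y k v = if v = w then 0 else ∑ y ∈ A, E.inc D k v y`.
(i) For `v ∈ E.W k` (so `v ≠ u`), `v ≠ w`: `∑ y ∈ A, inc k v y = #{y ∈ A \ H k | y ∈ S v} -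
∑ y ∈ A \ H k, qq k y`; the first number is in `[0, 50]` (`Geo.g2` for u, w, v), the second in `[0, 1]`
(`Env.OK.q1`: `2 g^100 * 24/g^950 ≤ 1`). So `|Y k v| ≤ 51 = b`.
(ii) Mean: `Ex (unifOn (W k)) (Y k) = Ex (fun v => ∑ y ∈ A, inc k v y) - [w ∈ W k] (∑ y ∈ A, inc k w y)/
|W k|`; the first is 0 (`Env.Ex_inc`, `Ex_sum`), the second at most `|A|/|W k| ≤ 2 g^100/g^9900` in
absolute value (`Env.inc_abs_le`). So the sum over k is at most `2 g^1033 * 2 g^100/g^9900 ≤ 1 = m`.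
(iii) Second moment: `Y k v ^ 2 ≤ 51 |Y k v| ≤ 51 ∑ y ∈ A \ H k, |inc k v y|` on `W k`, and
`Ex |inc k · y| ≤ 2 qq k y ≤ 48/g^950` (`Env.Ex_abs_inc`, `Env.OK.q1`), so the second moment is at most
`51 * 2 g^100 * 48/g^950` and the sum over k at most `V = 10000 g^183`.
`tail_mem` with `t = g^95/128`, `m = 1`, `t + m ≤ g^95/64`: probability at most
`2 exp (- g^190/16384/(40000 g^183)) = 2 exp (- g^7/655360000)`. Union bound (`Pr_union`) over the players
(`Fintype.card (Pl g) = mP g`, `mP_cast`: `g^12000`): `2 g^12000 exp (- g^7/655360000) ≤ 1/24` for large g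
by `ev_exp`. -/
theorem BB2 : ∀ᶠ g : ℕ in atTop, ∀ D : Dat g, Geo D.S →
    ∀ (u : Pl g) (X : Finset (Un g)) (E : Env g), E.OK D u X →
    Pr (sP E) (fun B => ¬ ∀ w, w ≠ u →
      |∑ k, if B k = w then 0 else ∑ y ∈ (D.Mu u X).filter (fun y => (y, true) ∈ D.Q u w), E.inc D k (B k) y| ≤
        (g : ℝ) ^ 95 / 64)
      ≤ 1 / 24 := by
  filter_upwards [eventually_ge_atTop 1, ev_pow 48 (a := 100) (b := 950) (by norm_num),
    ev_pow 4 (a := 1133) (b := 9900) (by norm_num),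
    ev_pow 128 (a := 0) (b := 95) (by norm_num),
    ev_exp 2 (c := 1 / 655360000) (ε := 1 / 24) 12000 7 (by norm_num) (by norm_num)
      (by norm_num)] with g hg1 hg2 hg3 hg4 hg5 D hS u X E hE
  have hg0 : 0 < g := hg1
  have hr1 : (1 : ℝ) ≤ g := by exact_mod_cast hg1
  have hr0 : (0 : ℝ) < g := by linarith
  have hW := hE.W_nonempty hg0
  rw [pow_zero, mul_one] at hg4
  have hV0 : (0 : ℝ) < 10000 * (g : ℝ) ^ 183 := by positivity
  have key : ∀ w : Pl g, w ≠ u → Pr (sP E) (fun B => w ≠ u ∧ ¬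
      |∑ k, YY D E u X w k (B k)| ≤ (g : ℝ) ^ 95 / 64) ≤
        2 * Real.exp (- (1 / 655360000 * (g : ℝ) ^ 7)) := by
    intro w hwu
    have hw : u ≠ w := hwu.symm
    have h1 := tail_mem hW Finset.univ (YY D E u X w) (b := 51) (V := 10000 * (g : ℝ) ^ 183)
      (t := (g : ℝ) ^ 95 / 128) (m := 1)
      (fun k _ v hv => YY_abs hg1 hg2 hS hE hw k hv) ?_ ?_ hV0 (by positivity) ?_
    · refine (Pool.LarProb.Pr_mono (sP_isP hW) fun B hB => ?_).trans
        (h1.trans (le_of_eq ?_))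
      · have h2 := not_le.1 hB.2
        refine le_trans ?_ h2.le
        linarith
      · congr 3
        have e1 : ((g : ℝ) ^ 95 / 128) ^ 2 = (g : ℝ) ^ 7 * (g : ℝ) ^ 183 / 16384 := by
          rw [div_pow, ← pow_mul, ← pow_add]
          norm_num
        have e2 : (g : ℝ) ^ 183 ≠ 0 := by positivity
        rw [e1]
        generalize (g : ℝ) ^ 183 = a at e2
        generalize (g : ℝ) ^ 7 = b
        field_simp
        ring
    · refine (Finset.abs_sum_le_sum_abs _ _).trans ?_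
      refine (Finset.sum_le_sum fun k _ => YY_mean hg1 hS hE hw k).trans ?_
      rw [Finset.sum_const, nsmul_eq_mul, Finset.card_univ, Fintype.card_fin]
      have h3 : (0 : ℝ) < (g : ℝ) ^ 9900 := by positivity
      have h4 := mul_le_mul_of_nonneg_right hE.M_le
        (show 0 ≤ 2 * (g : ℝ) ^ 100 / (g : ℝ) ^ 9900 by positivity)
      refine h4.trans ?_
      have e3 : (g : ℝ) ^ 1133 = (g : ℝ) ^ 1033 * (g : ℝ) ^ 100 := by rw [← pow_add]
      have e4 : 2 * (g : ℝ) ^ 1033 * (2 * (g : ℝ) ^ 100 / (g : ℝ) ^ 9900) =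
          4 * (g : ℝ) ^ 1133 / (g : ℝ) ^ 9900 := by
        rw [e3]
        ring
      rw [e4, div_le_one h3]
      exact hg3
    · refine (Finset.sum_le_sum fun k _ => YY_sq hg1 hg2 hS hE hw k).trans ?_
      rw [Finset.sum_const, nsmul_eq_mul, Finset.card_univ, Fintype.card_fin]
      have h4 := mul_le_mul_of_nonneg_right hE.M_le
        (show 0 ≤ 4896 * ((g : ℝ) ^ 100 / (g : ℝ) ^ 950) by positivity)
      refine h4.trans ?_
      have e5 : (g : ℝ) ^ 1033 * (g : ℝ) ^ 100 = (g : ℝ) ^ 183 * (g : ℝ) ^ 950 := by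
        rw [← pow_add, ← pow_add]
      have e6 : (g : ℝ) ^ 950 ≠ 0 := by positivity
      have e7 : 2 * (g : ℝ) ^ 1033 * (4896 * ((g : ℝ) ^ 100 / (g : ℝ) ^ 950)) =
          9792 * (g : ℝ) ^ 183 := by
        calc 2 * (g : ℝ) ^ 1033 * (4896 * ((g : ℝ) ^ 100 / (g : ℝ) ^ 950))
            = 9792 * (((g : ℝ) ^ 1033 * (g : ℝ) ^ 100) / (g : ℝ) ^ 950) := by ring
          _ = 9792 * (g : ℝ) ^ 183 := by rw [e5, mul_div_cancel_right₀ _ e6]
      rw [e7]
      have : 0 ≤ (g : ℝ) ^ 183 := by positivity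
      linarith
    · have e8 : (g : ℝ) ^ 95 ≤ (g : ℝ) ^ 183 := pow_le_pow_right₀ hr1 (by norm_num)
      have e9 : 0 ≤ (g : ℝ) ^ 95 := by positivity
      linarith
  have hunion := Pr_union hW (Finset.univ : Finset (Pl g))
    (fun B => ¬ ∀ w, w ≠ u → |∑ k, YY D E u X w k (B k)| ≤ (g : ℝ) ^ 95 / 64)
    (fun w B => w ≠ u ∧ ¬ |∑ k, YY D E u X w k (B k)| ≤ (g : ℝ) ^ 95 / 64)
    (q := 2 * Real.exp (- (1 / 655360000 * (g : ℝ) ^ 7)))
    (fun B _ hB => by
      push Not at hB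
      obtain ⟨w, h1, h2⟩ := hB
      exact ⟨w, Finset.mem_univ _, h1, not_le.2 h2⟩)
    (fun w _ => by
      by_cases hwu : w ≠ u
      · exact key w hwu
      · rw [Pool.LarProb.Pr_false (fun B hB => hwu hB.1)]
        positivity)
  refine le_trans (le_of_eq ?_) (hunion.trans ?_)
  · rfl
  · rw [Finset.card_univ, Fintype.card_fin, mP_cast]
    refine le_trans (le_of_eq ?_) hg5
    ring

end Pool.Larman
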