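import Pool.Agent.Larman.SlotTail

/-! # P(BB): the bound b3 (total centred count) -/

set_option autoImplicit false

open scoped BigOperators Classical

noncomputable section

namespace Pool.Larman

open Filter
open Pool.LarProb (Ex Pr IsP PW unifOn)

/-- the number of units of `Mu`, outside the heavy zone, in the support of `v` -/
private def nv {g : ℕ} (D : Dat g) (E : Env g) (u : Pl g) (X : Finset (Un g)) (k : Fin E.M)
    (v : Pl g) : ℝ := ((((D.Mu u X) \ E.H k) ∩ D.S v).card : ℝ)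

private theorem sum_inc {g : ℕ} (D : Dat g) (E : Env g) (u : Pl g) (X : Finset (Un g))
    (k : Fin E.M) (v : Pl g) :
    ∑ y ∈ D.Mu u X, E.inc D k v y = nv D E u X k v -
      ∑ y ∈ D.Mu u X, (if y ∈ E.H k then 0 else E.qq D k y) := by
  have h1 : nv D E u X k v = ∑ y ∈ D.Mu u X, (if y ∈ E.H k then 0 else ind (y ∈ D.S v)) := by
    unfold nv
    have h2 : ((D.Mu u X) \ E.H k) ∩ D.S v =
        (D.Mu u X).filter (fun y => y ∉ E.H k ∧ y ∈ D.S v) := by
      ext y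
      simp only [Finset.mem_inter, Finset.mem_sdiff, Finset.mem_filter]
      tauto
    rw [h2, Finset.card_filter]
    push_cast
    refine Finset.sum_congr rfl fun y _ => ?_
    by_cases hH : y ∈ E.H k
    · rw [if_pos hH, if_neg (fun h => h.1 hH)]
    · rw [if_neg hH]
      by_cases hS : y ∈ D.S v
      · rw [if_pos ⟨hH, hS⟩, ind_of hS]
      · rw [if_neg (fun h => hS h.2), ind_of_not hS]
  rw [h1, ← Finset.sum_sub_distrib]
  refine Finset.sum_congr rfl fun y _ => ?_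
  unfold Env.inc
  by_cases hH : y ∈ E.H k
  · rw [if_pos hH, if_pos hH, if_pos hH, sub_zero]
  · rw [if_neg hH, if_neg hH, if_neg hH]

private theorem nv_le {g : ℕ} {D : Dat g} (hS : Geo D.S) {u : Pl g} {X : Finset (Un g)}
    {E : Env g} (hE : E.OK D u X) (k : Fin E.M) {v : Pl g} (hv : v ∈ E.W k) :
    nv D E u X k v ≤ (g : ℝ) ^ 100 + (g : ℝ) ^ 51 := by
  have h1 := (abs_le.1 (hS.g1z u v (hE.W_ne k v hv).symm 0)).2
  have h2 : ((D.Mu u X) \ E.H k) ∩ D.S v ⊆ kind 0 (D.S u ∩ D.S v) := by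
    intro y hy
    simp only [Dat.Mu, kind, Finset.mem_inter, Finset.mem_sdiff, Finset.mem_filter] at hy ⊢
    tauto
  have h3 : nv D E u X k v ≤ ((kind 0 (D.S u ∩ D.S v)).card : ℝ) := by
    unfold nv
    exact_mod_cast Finset.card_le_card h2
  linarith

private theorem le_nv {g : ℕ} {D : Dat g} (hS : Geo D.S) {u : Pl g} {X : Finset (Un g)}
    {E : Env g} (hE : E.OK D u X) (k : Fin E.M) {v : Pl g} (hv : v ∈ E.W k) :
    (g : ℝ) ^ 100 - (g : ℝ) ^ 51 - (6 * g + 1) ≤ nv D E u X k v := by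
  have h1 := (abs_le.1 (hS.g1z u v (hE.W_ne k v hv).symm 0)).1
  have h2 : kind 0 (D.S u ∩ D.S v) ⊆
      ((((D.Mu u X) \ E.H k) ∩ D.S v) ∪ (D.Z u v ∩ X)) ∪ (D.Z u v ∩ E.H k) := by
    intro y hy
    simp only [Dat.Mu, Dat.Z, kind, Finset.mem_inter, Finset.mem_sdiff, Finset.mem_filter,
      Finset.mem_union] at hy ⊢
    tauto
  have h3 : (kind 0 (D.S u ∩ D.S v)).card ≤
      ((((D.Mu u X) \ E.H k) ∩ D.S v).card + (D.Z u v ∩ X).card) + (D.Z u v ∩ E.H k).card :=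
    ((Finset.card_le_card h2).trans (Finset.card_union_le _ _)).trans
      (Nat.add_le_add_right (Finset.card_union_le _ _) _)
  have h4 : ((kind 0 (D.S u ∩ D.S v)).card : ℝ) ≤
      (nv D E u X k v + ((D.Z u v ∩ X).card : ℝ)) + ((D.Z u v ∩ E.H k).card : ℝ) := by
    unfold nv
    exact_mod_cast h3
  have h5 := hE.W_X k v hv
  have h6 := hE.H1 k k v hv
  linarith

private theorem mean_zero {g : ℕ} (D : Dat g) {E : Env g} (u : Pl g) (X : Finset (Un g))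
    (hW : (k : Fin E.M) → (E.W k).Nonempty) (k : Fin E.M) :
    Ex (unifOn (E.W k)) (fun v => ∑ y ∈ D.Mu u X, E.inc D k v y) = 0 := by
  rw [Pool.LarProb.Ex_sum]
  exact Finset.sum_eq_zero fun y _ => Env.Ex_inc hW k y

private theorem abs_le_width {g : ℕ} {D : Dat g} (hS : Geo D.S) {u : Pl g} {X : Finset (Un g)}
    {E : Env g} (hE : E.OK D u X) (hW : (k : Fin E.M) → (E.W k).Nonempty) (k : Fin E.M)
    {v : Pl g} (hv : v ∈ E.W k) :
    |∑ y ∈ D.Mu u X, E.inc D k v y| ≤ 2 * (g : ℝ) ^ 51 + (6 * g + 1) := by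
  have h0 := mean_zero D u X hW k
  set q : ℝ := ∑ y ∈ D.Mu u X, (if y ∈ E.H k then 0 else E.qq D k y) with hq
  have hc : (0 : ℝ) < ((E.W k).card : ℝ) := by exact_mod_cast Finset.card_pos.2 (hW k)
  rw [Pool.LarProb.Ex_unifOn, div_eq_zero_iff] at h0
  have h1 : ∑ v ∈ E.W k, ∑ y ∈ D.Mu u X, E.inc D k v y = 0 := by
    rcases h0 with h | h
    · exact h
    · exact absurd h hc.ne'
  have h2 : ∑ v ∈ E.W k, (nv D E u X k v - q) = 0 := by
    rw [← h1]
    exact Finset.sum_congr rfl fun v _ => (sum_inc D E u X k v).symm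
  rw [Finset.sum_sub_distrib, Finset.sum_const, nsmul_eq_mul] at h2
  have h3 : ∑ v ∈ E.W k, nv D E u X k v ≤ ((E.W k).card : ℝ) * ((g : ℝ) ^ 100 + (g : ℝ) ^ 51) := by
    refine (Finset.sum_le_sum fun v hv => nv_le hS hE k hv).trans (le_of_eq ?_)
    rw [Finset.sum_const, nsmul_eq_mul]
  have h4 : ((E.W k).card : ℝ) * ((g : ℝ) ^ 100 - (g : ℝ) ^ 51 - (6 * g + 1)) ≤
      ∑ v ∈ E.W k, nv D E u X k v := by
    refine (le_of_eq ?_).trans (Finset.sum_le_sum fun v hv => le_nv hS hE k hv)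
    rw [Finset.sum_const, nsmul_eq_mul]
  have h5 : q ≤ (g : ℝ) ^ 100 + (g : ℝ) ^ 51 := by
    refine le_of_mul_le_mul_left ?_ hc
    linarith
  have h6 : (g : ℝ) ^ 100 - (g : ℝ) ^ 51 - (6 * g + 1) ≤ q := by
    refine le_of_mul_le_mul_left ?_ hc
    linarith
  have h7 := nv_le hS hE k hv
  have h8 := le_nv hS hE k hv
  rw [sum_inc, ← hq, abs_le]
  constructor <;> linarith

/-- Proof. Let `Y k v = ∑ y ∈ D.Mu u X, E.inc D k v y` and, for `v ∈ E.W k`,
`N v = #{y ∈ Mu \ H k | y ∈ S v}`. Since `Mu = kind 0 (S u) \ X`, `N v` lies between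
`|kind 0 (S u ∩ S v)| - |Z u v ∩ X| - |Z u v ∩ H k|` and `|kind 0 (S u ∩ S v)|`, that is in
`[g^100 - g^51 - (g + 1) - 5 g, g^100 + g^51]` (`Geo.g1z`, `Env.OK.W_X`, `Env.OK.H1`).
`Y k v = N v - (average of N over W k)` (by definition of `qq`: `∑ y ∈ Mu \ H k, qq k y = (∑ v ∈ W k, N v)/
|W k|`), hence `|Y k v| ≤ 2 g^51 + 6 g + 1 ≤ 4 g^51 = b` on `W k`. Mean 0 (`Env.Ex_inc`, `Ex_sum`).
Second moments at most `16 g^102`, sum at most `V = 32 g^1135` (`E.M ≤ 2 g^1033`).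
`tail_mem0` with `t = g^569` (`b t = 4 g^620 ≤ V`): probability of `g^569 ≤ |∑ k, Y k (B k)|` at most
`2 exp (- g^1138/(128 g^1135)) = 2 exp (- g^3/128) ≤ 1/24` for large g by `ev_exp`. -/
theorem BB3 : ∀ᶠ g : ℕ in atTop, ∀ D : Dat g, Geo D.S →
    ∀ (u : Pl g) (X : Finset (Un g)) (E : Env g), E.OK D u X →
    Pr (sP E) (fun B => ¬ |∑ k, ∑ y ∈ D.Mu u X, E.inc D k (B k) y| ≤ (g : ℝ) ^ 569)
      ≤ 1 / 24 := by
  filter_upwards [eventually_ge_atTop 1, ev_pow 7 (a := 1) (b := 51) (by norm_num),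
    ev_exp 2 (c := 1 / 128) (ε := 1 / 24) 0 3 (by norm_num) (by norm_num) (by norm_num)]
    with g hg1 hg2 hg3 D hS u X E hE
  have hg0 : 0 < g := hg1
  have hr1 : (1 : ℝ) ≤ g := by exact_mod_cast hg1
  have hr0 : (0 : ℝ) < g := by linarith
  have hW := hE.W_nonempty hg0
  have hb : ∀ k, ∀ v ∈ E.W k, |∑ y ∈ D.Mu u X, E.inc D k v y| ≤ 4 * (g : ℝ) ^ 51 := by
    intro k v hv
    have h1 := abs_le_width hS hE hW k hv
    rw [pow_one] at hg2
    have h2 : 0 ≤ (g : ℝ) ^ 51 := by positivity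
    linarith
  have key := tail_mem0 hW Finset.univ (fun k v => ∑ y ∈ D.Mu u X, E.inc D k v y)
    (b := 4 * (g : ℝ) ^ 51) (V := 32 * (g : ℝ) ^ 1135) (t := (g : ℝ) ^ 569)
    (fun k _ v hv => hb k v hv) (fun k _ => mean_zero D u X hW k) ?_ (by positivity)
    (by positivity) ?_
  · refine (Pool.LarProb.Pr_mono (sP_isP hW) fun B hB => (not_le.1 hB).le).trans
      (key.trans (le_trans (le_of_eq ?_) hg3))
    rw [pow_zero, mul_one]
    congr 3
    have e1 : ((g : ℝ) ^ 569) ^ 2 = (g : ℝ) ^ 3 * (g : ℝ) ^ 1135 := by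
      rw [← pow_mul, ← pow_add]
    have e2 : (g : ℝ) ^ 1135 ≠ 0 := by positivity
    rw [e1]
    generalize (g : ℝ) ^ 1135 = a at e2
    generalize (g : ℝ) ^ 3 = b
    field_simp
    ring
  · have h1 : ∀ k ∈ (Finset.univ : Finset (Fin E.M)),
        Ex (unifOn (E.W k)) (fun v => (∑ y ∈ D.Mu u X, E.inc D k v y) ^ 2) ≤
          16 * (g : ℝ) ^ 102 := by
      intro k _
      have hc : (0 : ℝ) < ((E.W k).card : ℝ) := by exact_mod_cast Finset.card_pos.2 (hW k)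
      rw [Pool.LarProb.Ex_unifOn, div_le_iff₀ hc]
      have h4 : ∀ v ∈ E.W k, (∑ y ∈ D.Mu u X, E.inc D k v y) ^ 2 ≤ 16 * (g : ℝ) ^ 102 := by
        intro v hv
        have h2 := pow_le_pow_left₀ (abs_nonneg _) (hb k v hv) 2
        rw [sq_abs] at h2
        refine h2.trans (le_of_eq ?_)
        rw [mul_pow, ← pow_mul]
        norm_num
      refine (Finset.sum_le_sum h4).trans (le_of_eq ?_)
      rw [Finset.sum_const, nsmul_eq_mul, mul_comm]
    refine (Finset.sum_le_sum h1).trans ?_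
    rw [Finset.sum_const, nsmul_eq_mul, Finset.card_univ, Fintype.card_fin]
    have h3 := mul_le_mul_of_nonneg_right hE.M_le (show 0 ≤ 16 * (g : ℝ) ^ 102 by positivity)
    refine h3.trans (le_of_eq ?_)
    have e3 : (g : ℝ) ^ 1135 = (g : ℝ) ^ 1033 * (g : ℝ) ^ 102 := by rw [← pow_add]
    rw [e3]
    ring
  · have e4 : (4 : ℝ) * (g : ℝ) ^ 51 * (g : ℝ) ^ 569 = 4 * (g : ℝ) ^ 620 := by
      rw [mul_assoc, ← pow_add]
    have e5 : (g : ℝ) ^ 620 ≤ (g : ℝ) ^ 1135 := pow_le_pow_right₀ hr1 (by norm_num)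
    have e6 : 0 ≤ (g : ℝ) ^ 620 := by positivity
    show (4 : ℝ) * (g : ℝ) ^ 51 * (g : ℝ) ^ 569 ≤ 32 * (g : ℝ) ^ 1135
    rw [e4]
    linarith

end Pool.Larman
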