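import Pool.Agent.Larman.SlotTail

/-! # P(BB): injectivity and the bound b4 (pair weights) -/

set_option autoImplicit false

open scoped BigOperators Classical

noncomputable section

namespace Pool.Larman

open Filter
open Pool.LarProb (Ex Pr IsP PW unifOn)

/-- A relation between two slots which, for each value `w ∈ W k` of the first, holds for at most `N`
players of the second population, has small probability.
Proof. `Pr` of `R (B k) (B l)` = average over `w ∈ W k` of `#{w' ∈ W l | R w w'}/|W l|` : freeze the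
coordinate k (`Pool.LarProb.Pr_le_of_freeze` with s = {k}; for a frozen value outside `W k` use first
`Pr_le_mem` to replace the event by `B k ∈ W k ∧ R (B k) (B l)`), then `Pool.LarProb.Pr_coord`,
`Pool.LarProb.Pr_unifOn`. -/
theorem Pr_pair_le {g : ℕ} {E : Env g} (hW : (k : Fin E.M) → (E.W k).Nonempty) {k l : Fin E.M}
    (hkl : k ≠ l) (R : Pl g → Pl g → Prop) {N : ℝ}
    (hR : ∀ w ∈ E.W k, (((E.W l).filter (fun w' => R w w')).card : ℝ) ≤ N) :
    Pr (sP E) (fun B => R (B k) (B l)) ≤ N / ((E.W l).card : ℝ) := by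
  have hP : ∀ k, IsP (unifOn (E.W k)) := fun k => Pool.LarProb.unifOn_isP (hW k)
  have hN : 0 ≤ N := by
    obtain ⟨w, hw⟩ := hW k
    exact (Nat.cast_nonneg _).trans (hR w hw)
  have hl : (0 : ℝ) < ((E.W l).card : ℝ) := by exact_mod_cast Finset.card_pos.2 (hW l)
  refine (Pr_le_mem hW (P' := fun B => B k ∈ E.W k ∧ R (B k) (B l))
    (fun B hB h => ⟨hB k, h⟩)).trans ?_
  refine Pool.LarProb.Pr_le_of_freeze (A := fun _ : Fin E.M => Pl g) hP {k} (fun a => ?_)
  have hlk : l ∉ ({k} : Finset (Fin E.M)) := by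
    rw [Finset.mem_singleton]
    exact fun h => hkl h.symm
  have h1 : ∀ b : Fin E.M → Pl g, ((({k} : Finset (Fin E.M)).piecewise a b) k ∈ E.W k ∧
      R ((({k} : Finset (Fin E.M)).piecewise a b) k) ((({k} : Finset (Fin E.M)).piecewise a b) l)) ↔
      (a k ∈ E.W k ∧ R (a k) (b l)) := by
    intro b
    rw [Finset.piecewise_eq_of_notMem _ _ _ hlk,
      Finset.piecewise_eq_of_mem _ _ _ (Finset.mem_singleton_self k)]
  rw [Pool.LarProb.Pr_congr h1]
  by_cases ha : a k ∈ E.W k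
  · have h2 := Pool.LarProb.Pr_coord (A := fun _ : Fin E.M => Pl g) hP l
      (fun w' => a k ∈ E.W k ∧ R (a k) w')
    have h3 := Pool.LarProb.Pr_unifOn (E.W l) (fun w' => a k ∈ E.W k ∧ R (a k) w')
    rw [h2, h3]
    refine div_le_div_of_nonneg_right (le_trans ?_ (hR _ ha)) hl.le
    refine Nat.cast_le.2 (Finset.card_le_card (fun w hw => ?_))
    simp only [Finset.mem_filter] at hw ⊢
    exact ⟨hw.1, hw.2.2⟩
  · rw [Pool.LarProb.Pr_false (fun b h => ha h.1)]
    positivity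

/-- union bound over the ordered pairs of different slots -/
private theorem pair_union {g : ℕ} {E : Env g} (hg : (1 : ℝ) ≤ g)
    (hW : (k : Fin E.M) → (E.W k).Nonempty)
    (hM : (E.M : ℝ) ≤ 2 * (g : ℝ) ^ 1033) (hc : ∀ k, (g : ℝ) ^ 9900 ≤ ((E.W k).card : ℝ))
    (R : Pl g → Pl g → Prop) {N : ℝ} (hN : 0 ≤ N) (hsm : 96 * (g : ℝ) ^ 2066 * N ≤ (g : ℝ) ^ 9900)
    (hR : ∀ k l, k ≠ l → ∀ w ∈ E.W k, (((E.W l).filter (fun w' => R w w')).card : ℝ) ≤ N)
    (P : (Fin E.M → Pl g) → Prop)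
    (hP : ∀ B, (∀ k, B k ∈ E.W k) → P B → ∃ k l, k ≠ l ∧ R (B k) (B l)) :
    Pr (sP E) P ≤ 1 / 24 := by
  have hg0 : (0 : ℝ) < (g : ℝ) := lt_of_lt_of_le one_pos hg
  have h1 := Pr_union hW (Finset.univ : Finset (Fin E.M × Fin E.M)) P
    (fun j B => j.1 ≠ j.2 ∧ R (B j.1) (B j.2)) (q := N / (g : ℝ) ^ 9900)
    (fun B hB h => by
      obtain ⟨k, l, hkl, hr⟩ := hP B hB h
      exact ⟨(k, l), Finset.mem_univ _, hkl, hr⟩)
    (fun j _ => by
      by_cases hj : j.1 = j.2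
      · rw [Pool.LarProb.Pr_false (fun B h => h.1 hj)]
        positivity
      · refine (Pool.LarProb.Pr_mono (sP_isP hW) (fun B h => h.2)).trans ?_
        refine (Pr_pair_le hW hj R (hR j.1 j.2 hj)).trans ?_
        exact div_le_div_of_nonneg_left hN (by positivity) (hc j.2))
  refine h1.trans ?_
  rw [Finset.card_univ, Fintype.card_prod, Fintype.card_fin]
  push_cast
  have hM0 : (0 : ℝ) ≤ (E.M : ℝ) := Nat.cast_nonneg _
  have h2 : (E.M : ℝ) * E.M ≤ 4 * (g : ℝ) ^ 2066 := by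
    calc (E.M : ℝ) * E.M ≤ (2 * (g : ℝ) ^ 1033) * (2 * (g : ℝ) ^ 1033) :=
          mul_le_mul hM hM hM0 (by positivity)
      _ = 4 * (g : ℝ) ^ 2066 := by ring
  have h3 : 0 < (g : ℝ) ^ 9900 := by positivity
  calc (E.M : ℝ) * E.M * (N / (g : ℝ) ^ 9900)
      ≤ 4 * (g : ℝ) ^ 2066 * (N / (g : ℝ) ^ 9900) :=
        mul_le_mul_of_nonneg_right h2 (by positivity)
    _ = (96 * (g : ℝ) ^ 2066 * N) / (g : ℝ) ^ 9900 * (1 / 24) := by ring
    _ ≤ 1 * (1 / 24) := by
        refine mul_le_mul_of_nonneg_right ?_ (by norm_num)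
        rw [div_le_one h3]
        exact hsm
    _ = 1 / 24 := one_mul _

/-- Proof. `Pr_pair_le` with `R w w' := w = w'`, `N = 1`, `|W l| ≥ g^9900`; union bound (`Pr_union`) over
the at most `(E.M)^2 ≤ 4 g^2066` pairs: `4 g^2066/g^9900 ≤ 1/24` for large g. -/
theorem BBinj : ∀ᶠ g : ℕ in atTop, ∀ D : Dat g,
    ∀ (u : Pl g) (X : Finset (Un g)) (E : Env g), E.OK D u X →
    Pr (sP E) (fun B => ¬ Function.Injective B) ≤ 1 / 24 := by
  filter_upwards [ev_pow 96 (show 2066 < 9900 by norm_num), eventually_ge_atTop 1]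
    with g hg hg1 D u X E hE
  have hg1' : (1 : ℝ) ≤ g := by exact_mod_cast hg1
  refine pair_union hg1' (hE.W_nonempty hg1) hE.M_le hE.W_card (fun w w' => w = w') (N := 1)
    zero_le_one (by rw [mul_one]; exact hg) (fun k l _ w _ => ?_) _ (fun B _ h => ?_)
  · refine Nat.cast_le_one.2 ?_
    rw [Finset.card_le_one]
    intro a ha b hb
    simp only [Finset.mem_filter] at ha hb
    exact ha.2.symm.trans hb.2
  · unfold Function.Injective at h
    push Not at h
    obtain ⟨k, l, h1, h2⟩ := h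
    exact ⟨k, l, h2, h1⟩

/-- Proof. For k = l the bound holds on the populations by `Env.OK.G2`. For k ≠ l use `Pr_pair_le` with
`R w w' := g^67 < GG (Z u w) (Z u w')`, `N = g^4000` (`Env.OK.G3`). Union bound over the pairs:
`4 g^2066 g^4000/g^9900 ≤ 1/24` for large g. -/
theorem BB4 : ∀ᶠ g : ℕ in atTop, ∀ D : Dat g,
    ∀ (u : Pl g) (X : Finset (Un g)) (E : Env g), E.OK D u X →
    Pr (sP E) (fun B => ¬ ∀ k l, E.GG (D.Z u (B k)) (D.Z u (B l)) ≤ (g : ℝ) ^ 67) ≤ 1 / 24 := by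
  filter_upwards [ev_pow 96 (show 6066 < 9900 by norm_num), eventually_ge_atTop 1]
    with g hg hg1 D u X E hE
  have hg1' : (1 : ℝ) ≤ g := by exact_mod_cast hg1
  refine pair_union hg1' (hE.W_nonempty hg1) hE.M_le hE.W_card
    (fun w w' => (g : ℝ) ^ 67 < E.GG (D.Z u w) (D.Z u w')) (N := (g : ℝ) ^ 4000)
    (by positivity) (le_trans (le_of_eq (by ring)) hg) (fun k l _ w hw => hE.G3 k l w hw) _
    (fun B hB h => ?_)
  push Not at h
  obtain ⟨k, l, hkl⟩ := h
  refine ⟨k, l, ?_, hkl⟩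
  rintro rfl
  exact absurd (hE.G2 k (B k) (hB k)) (not_le.2 hkl)

end Pool.Larman
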