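import Pool.Agent.Larman.LDefs
import Pool.Agent.Larman.BB1
import Pool.Agent.Larman.BB2
import Pool.Agent.Larman.BB3
import Pool.Agent.Larman.BB4

/-!
# MP_a9ba8c (Larman, t = 1): probability of the good slot vectors (owner helper46)
-/

set_option autoImplicit false

open scoped BigOperators Classical

noncomputable section

namespace Pool.Larman

open Pool.LarProb (Pr Pr_or_le Pr_mono Pr_not)

variable {g : ℕ}

/-- PROBABILITY OF BB (owner helper46; Lemma 4 of the text) -/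
theorem BB_prob : ∀ᶠ (g : ℕ) in Filter.atTop, ∀ D : Dat g, Geo D.S → D.Lab →
    ∀ (u : Pl g) (X : Finset (Un g)) (E : Env g), E.OK D u X →
    3 / 4 ≤ ∑ B : Fin E.M → Pl g, E.slotWt B * ind (E.BB D u X B) := by
  filter_upwards [BB1, BB2, BB3, BBinj, BB4, Filter.eventually_gt_atTop 0]
    with g h1 h2 h3 h4 h5 hg D hG _ u X E hE
  have hW : (k : Fin E.M) → (E.W k).Nonempty := fun k => hE.W_nonempty hg k
  have hP := sP_isP hW
  rw [Pr_slot_eq E (fun B => E.BB D u X B)]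
  have e0 : Pr (sP E) (fun B => E.BB D u X B) = 1 - Pr (sP E) (fun B => ¬ E.BB D u X B) := by
    rw [Pr_not hP]; ring
  have a1 := h1 D hG u X E hE
  have a2 := h2 D hG u X E hE
  have a3 := h3 D hG u X E hE
  have a4 := h4 D u X E hE
  have a5 := h5 D u X E hE
  set P1 : (Fin E.M → Pl g) → Prop := fun B => ¬ ∀ y ∈ D.Mu u X, ∀ j : ℕ, j ≤ E.M →
    |E.Dp D B y j| ≤ (g : ℝ) ^ 43 / 20 with hP1
  set P2 : (Fin E.M → Pl g) → Prop := fun B => ¬ ∀ w, w ≠ u →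
      |∑ k, if B k = w then 0 else
        ∑ y ∈ (D.Mu u X).filter (fun y => (y, true) ∈ D.Q u w), E.inc D k (B k) y| ≤
        (g : ℝ) ^ 95 / 64 with hP2
  set P3 : (Fin E.M → Pl g) → Prop := fun B =>
    ¬ |∑ k, ∑ y ∈ D.Mu u X, E.inc D k (B k) y| ≤ (g : ℝ) ^ 569 with hP3
  set P4 : (Fin E.M → Pl g) → Prop := fun B => ¬ Function.Injective B with hP4
  set P5 : (Fin E.M → Pl g) → Prop := fun B =>
    ¬ ∀ k l, E.GG (D.Z u (B k)) (D.Z u (B l)) ≤ (g : ℝ) ^ 67 with hP5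
  have b1 : Pr (sP E) (fun B => ¬ E.BB D u X B)
      ≤ Pr (sP E) (fun B => P1 B ∨ (P2 B ∨ (P3 B ∨ (P4 B ∨ P5 B)))) := by
    refine Pr_le_mem hW (fun B hB hn => ?_)
    by_contra hc
    simp only [hP1, hP2, hP3, hP4, hP5] at hc
    push Not at hc
    obtain ⟨c1, c2, c3, c4, c5⟩ := hc
    exact hn ⟨hB, c4, c1, c2, c3, c5⟩
  have b2 := Pr_or_le hP P1 (fun B => P2 B ∨ (P3 B ∨ (P4 B ∨ P5 B)))
  have b3 := Pr_or_le hP P2 (fun B => P3 B ∨ (P4 B ∨ P5 B))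
  have b4 := Pr_or_le hP P3 (fun B => P4 B ∨ P5 B)
  have b5 := Pr_or_le hP P4 P5
  show 3 / 4 ≤ Pr (sP E) (fun B => E.BB D u X B)
  rw [e0]
  linarith

end Pool.Larman
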