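import Pool.Agent.Larman.Sym

/-!
# MP_a9ba8c (Larman, t = 1): points of a trace, the family is uniform and intersecting (helper1)
-/

set_option autoImplicit false

open scoped BigOperators Classical

noncomputable section

namespace Pool.Larman

/-- potential point of a point -/
def ptp {g : ℕ} (p : Pt g) : Pp g :=
  if p.1 = 0 then ((0, p.2), true) else if p.1 = 1 then ((1, p.2), false)
  else if p.1 = 2 then ((1, p.2), true) else ((2, p.2), true)

theorem ptp_injective {g : ℕ} : Function.Injective (ptp (g := g)) := by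
  rintro ⟨a, z⟩ ⟨b, w⟩ h
  unfold ptp at h
  fin_cases a <;> fin_cases b <;> simp at h ⊢ <;> exact h

theorem ptp_real {g : ℕ} (p : Pt g) : isReal (ptp p) := by
  rcases p with ⟨a, z⟩
  unfold ptp isReal
  fin_cases a <;> simp

theorem exists_ptp {g : ℕ} (p : Pp g) (h : isReal p) : ∃ x : Pt g, ptp x = p := by
  rcases p with ⟨⟨a, z⟩, i⟩
  unfold isReal at h
  fin_cases a
  · rcases h with h | h
    · simp at h
    · simp only at h; subst h
      exact ⟨(0, z), by unfold ptp; simp⟩
  · cases i
    · exact ⟨(1, z), by unfold ptp; simp⟩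
    · exact ⟨(2, z), by unfold ptp; simp⟩
  · rcases h with h | h
    · simp at h
    · simp only at h; subst h
      exact ⟨(3, z), by unfold ptp; simp⟩

theorem mem_real {g : ℕ} (f : Tr g) (p : Pt g) :
    p ∈ real f ↔ f (ptp p).1 = some (ptp p).2 := by
  rcases p with ⟨a, z⟩
  unfold real ptp
  fin_cases a <;> simp

/-- the real potential points of a trace -/
def pp {g : ℕ} (f : Tr g) : Finset (Pp g) :=
  Finset.univ.filter (fun p => isReal p ∧ f p.1 = some p.2)

theorem card_real_inter {g : ℕ} (f f' : Tr g) :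
    (real f ∩ real f').card = (pp f ∩ pp f').card := by
  apply Finset.card_bij (fun p _ => ptp p)
  · intro p hp
    rw [Finset.mem_inter, mem_real, mem_real] at hp
    simp only [pp, Finset.mem_inter, Finset.mem_filter, Finset.mem_univ, true_and]
    exact ⟨⟨ptp_real p, hp.1⟩, ptp_real p, hp.2⟩
  · intro p _ q _ h
    exact ptp_injective h
  · intro p hp
    simp only [pp, Finset.mem_inter, Finset.mem_filter, Finset.mem_univ, true_and] at hp
    obtain ⟨x, rfl⟩ := exists_ptp p hp.1.1
    refine ⟨x, ?_, rfl⟩
    rw [Finset.mem_inter, mem_real, mem_real]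
    exact ⟨hp.1.2, hp.2.2⟩

theorem card_real {g : ℕ} (f : Tr g) : (real f).card = (pp f).card := by
  have := card_real_inter f f
  rwa [Finset.inter_self, Finset.inter_self] at this

theorem isReal_of_mem_Q {g : ℕ} (D : Dat g) {u v : Pl g} {p : Pp g} (h : p ∈ D.Q u v) :
    isReal p := by
  unfold Dat.Q at h
  exact (Finset.mem_filter.mp h).2.2.2.1

theorem mem_Z_of_mem_Q {g : ℕ} (D : Dat g) {u v : Pl g} {p : Pp g} (h : p ∈ D.Q u v) :
    p.1 ∈ D.Z u v := by
  unfold Dat.Q at h
  exact (Finset.mem_filter.mp h).2.1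

theorem not_mem_C_of_mem_Q {g : ℕ} (D : Dat g) {u v : Pl g} {p : Pp g} (h : p ∈ D.Q u v) :
    p.1 ∉ D.C u v := by
  unfold Dat.Q at h
  exact (Finset.mem_filter.mp h).2.2.1

theorem kind_of_mem_C {g : ℕ} (D : Dat g) {u v : Pl g} {y : Un g} (h : y ∈ D.C u v) :
    y.1 = 1 := by
  unfold Dat.C at h
  exact (Finset.mem_filter.mp h).2.1

theorem mem_Z_of_mem_C {g : ℕ} (D : Dat g) {u v : Pl g} {y : Un g} (h : y ∈ D.C u v) :
    y ∈ D.Z u v := by
  unfold Dat.C at h
  exact (Finset.mem_filter.mp h).1

/-- the supports have exactly sN units of every kind -/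
theorem card_kind_supp {g : ℕ} (f : Fin 3 × Fin (sN g) → Fin (pN g)) (b : Fin 3) :
    (kind b (supp f)).card = sN g := by
  have : (kind b (supp f)).card = (Finset.univ : Finset (Fin (sN g))).card := by
    symm
    apply Finset.card_bij (fun i _ => (b, i, f (b, i)))
    · intro i _
      simp [kind, supp]
    · intro i _ j _ h
      simp only [Prod.mk.injEq, true_and] at h
      exact h.1
    · rintro ⟨c, i, z⟩ h
      simp only [kind, supp, Finset.mem_filter, Finset.mem_univ, true_and] at h
      refine ⟨i, Finset.mem_univ _, ?_⟩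
      rw [← h.2, h.1]
  rw [this, Finset.card_univ, Fintype.card_fin]

/-- number of real potential points over a support -/
theorem card_real_points_le {g : ℕ} (f : Fin 3 × Fin (sN g) → Fin (pN g)) :
    ((Finset.univ : Finset (Pp g)).filter (fun p => isReal p ∧ p.1 ∈ supp f)).card ≤ 4 * sN g := by
  have h1 : (Finset.univ : Finset (Pp g)).filter (fun p => isReal p ∧ p.1 ∈ supp f) ⊆
      ((kind 0 (supp f)) ×ˢ ({true} : Finset Bool)) ∪
      (((kind 1 (supp f)) ×ˢ (Finset.univ : Finset Bool)) ∪
       ((kind 2 (supp f)) ×ˢ ({true} : Finset Bool))) := by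
    rintro ⟨⟨a, z⟩, i⟩ h
    replace h := (Finset.mem_filter.mp h).2
    unfold isReal at h
    simp only [kind, Finset.mem_union, Finset.mem_product, Finset.mem_filter,
      Finset.mem_singleton, Finset.mem_univ, and_true]
    fin_cases a
    · left; refine ⟨⟨h.2, rfl⟩, ?_⟩
      rcases h.1 with h1 | h1
      · simp at h1
      · exact h1
    · right; left; exact ⟨h.2, rfl⟩
    · right; right; refine ⟨⟨h.2, rfl⟩, ?_⟩
      rcases h.1 with h1 | h1
      · simp at h1
      · exact h1
  refine (Finset.card_le_card h1).trans ((Finset.card_union_le _ _).trans ?_)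
  have h2 := Finset.card_union_le ((kind 1 (supp f)) ×ˢ (Finset.univ : Finset Bool))
       ((kind 2 (supp f)) ×ˢ ({true} : Finset Bool))
  rw [Finset.card_product, Finset.card_product, card_kind_supp, card_kind_supp] at h2
  rw [Finset.card_product, card_kind_supp]
  simp only [Finset.card_singleton, Finset.card_univ, Fintype.card_bool] at h2 ⊢
  omega

/-- counting points of Q: disjoint traces -/
theorem cnt_add_cnt_le {g : ℕ} (D : Dat g) (u v : Pl g) (f f' : Tr g)
    (h : ∀ p, isReal p → f p.1 = some p.2 → f' p.1 = some p.2 → False) :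
    (cnt (D.Q u v) f : ℤ) + (cnt (D.Q u v) f' : ℤ) ≤ D.q u v := by
  unfold cnt Dat.q
  have hd : Disjoint ((D.Q u v).filter (fun p => f p.1 = some p.2))
      ((D.Q u v).filter (fun p => f' p.1 = some p.2)) := by
    rw [Finset.disjoint_left]
    intro p hp hp'
    rw [Finset.mem_filter] at hp hp'
    exact h p (isReal_of_mem_Q D hp.1) hp.2 hp'.2
  have := Finset.card_union_of_disjoint hd
  have h2 : ((D.Q u v).filter (fun p => f p.1 = some p.2) ∪
      (D.Q u v).filter (fun p => f' p.1 = some p.2)).card ≤ (D.Q u v).card :=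
    Finset.card_le_card (Finset.union_subset (Finset.filter_subset _ _) (Finset.filter_subset _ _))
  omega

/-- Lemma 1: the family is intersecting. -/
theorem FF_inter {g : ℕ} (hg : 0 < g) (D : Dat g) (A B : Finset (Pt g)) (hA : A ∈ D.FF)
    (hB : B ∈ D.FF) : (A ∩ B).Nonempty := by
  unfold Dat.FF at hA hB
  obtain ⟨-, u, f, hf, rfl⟩ := Finset.mem_filter.mp hA
  obtain ⟨-, v, f', hf', rfl⟩ := Finset.mem_filter.mp hB
  obtain ⟨hf1, hf2, hf3⟩ := hf
  obtain ⟨hf1', hf2', hf3'⟩ := hf'
  by_contra hcon
  rw [Finset.not_nonempty_iff_eq_empty] at hcon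
  have hno : ∀ p, isReal p → f p.1 = some p.2 → f' p.1 = some p.2 → False := by
    intro p hp h1 h2
    obtain ⟨x, rfl⟩ := exists_ptp p hp
    have : x ∈ real f ∩ real f' := by
      rw [Finset.mem_inter, mem_real, mem_real]; exact ⟨h1, h2⟩
    rw [hcon] at this
    exact absurd this (Finset.notMem_empty _)
  by_cases huv : u = v
  · subst huv
    have hk := kk_gt g hg
    have h1 : (pp f).card = kk g := by rw [← card_real]; exact hf2
    have h2 : (pp f').card = kk g := by rw [← card_real]; exact hf2'
    have hd : Disjoint (pp f) (pp f') := by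
      rw [Finset.disjoint_left]
      intro p hp hp'
      simp only [pp, Finset.mem_filter, Finset.mem_univ, true_and] at hp hp'
      exact hno p hp.1 hp.2 hp'.2
    have h3 := Finset.card_union_of_disjoint hd
    have hmem : ∀ (e : Tr g), (∀ y, y ∉ D.S u → e y = none) → ∀ p ∈ pp e,
        p ∈ (Finset.univ : Finset (Pp g)).filter (fun p => isReal p ∧ p.1 ∈ supp (D.σ u)) := by
      intro e he p hp
      simp only [pp, Finset.mem_filter, Finset.mem_univ, true_and] at hp
      rw [Finset.mem_filter]
      refine ⟨Finset.mem_univ _, hp.1, ?_⟩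
      by_contra hn
      have := he p.1 hn
      rw [hp.2] at this
      exact absurd this (by simp)
    have h4 : (pp f ∪ pp f').card ≤ 4 * sN g := by
      refine le_trans (Finset.card_le_card ?_) (card_real_points_le (D.σ u))
      intro p hp
      rcases Finset.mem_union.mp hp with hp | hp
      · exact hmem f hf1 p hp
      · exact hmem f' hf1' p hp
    omega
  · have h1 := hf3 v (Ne.symm huv)
    have h2 := hf3' u huv
    have h3 := cnt_add_cnt_le D u v f f' hno
    rw [D.Q_comm (Ne.symm huv)] at h2
    have h4 := D.hi_add_lo huv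
    have h5 := D.hi_add_lo (Ne.symm huv)
    have h6 := D.q_comm huv
    by_cases hc : ∃ y ∈ D.C u v, f y = none
    · have h7 : D.need u v f = D.hi u v := by unfold Dat.need; rw [if_pos hc]
      have h8 := D.lo_le_need v u f'
      omega
    by_cases hc' : ∃ y ∈ D.C v u, f' y = none
    · have h7 : D.need v u f' = D.hi v u := by unfold Dat.need; rw [if_pos hc']
      have h8 := D.lo_le_need u v f
      omega
    have h7 : D.need u v f = D.tau u v f := by unfold Dat.need; rw [if_neg hc]
    have h8 : D.need v u f' = D.tau v u f' := by unfold Dat.need; rw [if_neg hc']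
    have h9 := D.tau_add_tau huv f f' (by
      intro y hy
      have hy' : y ∈ D.C v u := by rw [D.C_comm (Ne.symm huv)]; exact hy
      have hn1 : f y ≠ none := fun h => hc ⟨y, hy, h⟩
      have hn2 : f' y ≠ none := fun h => hc' ⟨y, hy', h⟩
      obtain ⟨i, hi⟩ := Option.ne_none_iff_exists'.mp hn1
      obtain ⟨j, hj⟩ := Option.ne_none_iff_exists'.mp hn2
      refine ⟨i, hi, ?_⟩
      rw [hj]
      congr 1
      by_contra hne
      have hij : j = i := by
        cases i <;> cases j <;> simp_all
      exact hno (y, i) (Or.inl (kind_of_mem_C D hy)) hi (by rw [hj, hij]))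
    omega

/-- the members have size kk -/
theorem FF_card {g : ℕ} (D : Dat g) (A : Finset (Pt g)) (hA : A ∈ D.FF) : A.card = kk g := by
  unfold Dat.FF at hA
  obtain ⟨-, u, f, hf, rfl⟩ := Finset.mem_filter.mp hA
  exact hf.2.1

end Pool.Larman
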