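import Pool.Agent.Larman.Props

/-!
# MP_a9ba8c (Larman, t = 1): symmetry of the data of an unordered pair (helper1)
-/

set_option autoImplicit false

open scoped BigOperators Classical

noncomputable section

namespace Pool.Larman

namespace Dat
variable {g : ℕ} (D : Dat g)

theorem L_comm {u v : Pl g} (h : u ≠ v) (y : Un g) : D.L u v y = D.L v u y := by
  unfold L
  rcases lt_or_gt_of_ne h with h1 | h1
  · rw [if_pos h1, if_neg (asymm h1)]
  · rw [if_neg (asymm h1), if_pos h1]

theorem Z_comm (u v : Pl g) : D.Z u v = D.Z v u := by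
  unfold Z; exact Finset.inter_comm _ _

theorem C_comm {u v : Pl g} (h : u ≠ v) : D.C u v = D.C v u := by
  unfold C
  rw [D.Z_comm u v]
  apply Finset.filter_congr
  intro y _
  rw [D.L_comm h]

theorem r_comm {u v : Pl g} (h : u ≠ v) (y : Un g) : D.r u v y = D.r v u y := by
  unfold r; rw [D.L_comm h]

theorem Q_comm {u v : Pl g} (h : u ≠ v) : D.Q u v = D.Q v u := by
  unfold Q
  apply Finset.filter_congr
  intro p _
  rw [D.Z_comm u v, D.C_comm h, D.L_comm h]

theorem q_comm {u v : Pl g} (h : u ≠ v) : D.q u v = D.q v u := by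
  unfold q; rw [D.Q_comm h]

theorem lo0_comm {u v : Pl g} (h : u ≠ v) : D.lo0 u v = D.lo0 v u := by
  unfold lo0; rw [D.q_comm h]

/-- the two windows are complementary -/
theorem hi_add_lo {u v : Pl g} (h : u ≠ v) : D.hi u v + D.lo v u = D.q u v + 1 := by
  unfold hi lo
  rcases lt_or_gt_of_ne h with h1 | h1
  · rw [if_pos h1, if_neg (asymm h1), D.q_comm h, D.lo0_comm h]; ring
  · rw [if_neg (asymm h1), if_pos h1, D.lo0_comm h]; ring

theorem val_hash_le (u v : Pl g) (f : Tr g) (b : Bool) :
    ((D.hash u v f b).val : ℤ) ≤ (hM g : ℤ) - 1 := by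
  have := ZMod.val_lt (D.hash u v f b)
  omega

theorem lo_le_tau (u v : Pl g) (f : Tr g) : D.lo u v ≤ D.tau u v f := by
  unfold lo tau
  have h1 := D.val_hash_le u v f false
  have h2 : (0 : ℤ) ≤ ((D.hash u v f true).val : ℤ) := by positivity
  split_ifs <;> omega

theorem tau_le_hi (u v : Pl g) (f : Tr g) : D.tau u v f ≤ D.hi u v := by
  unfold hi lo tau
  have h1 := D.val_hash_le u v f true
  have h2 : (0 : ℤ) ≤ ((D.hash u v f false).val : ℤ) := by positivity
  split_ifs <;> omega

theorem lo_le_hi (u v : Pl g) : D.lo u v ≤ D.hi u v := by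
  unfold hi
  have : 0 < hM g := Nat.pos_of_ne_zero (NeZero.ne _)
  omega

theorem lo_le_need (u v : Pl g) (f : Tr g) : D.lo u v ≤ D.need u v f := by
  unfold need
  split_ifs
  · exact D.lo_le_hi u v
  · exact D.lo_le_tau u v f

theorem need_le_hi (u v : Pl g) (f : Tr g) : D.need u v f ≤ D.hi u v := by
  unfold need
  split_ifs
  · exact le_rfl
  · exact D.tau_le_hi u v f

/-- complementary traces on C have complementary thresholds -/
theorem tau_add_tau {u v : Pl g} (h : u ≠ v) (f f' : Tr g)
    (hf : ∀ y ∈ D.C u v, ∃ b, f y = some b ∧ f' y = some (!b)) :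
    D.tau u v f + D.tau v u f' = D.q u v + 1 := by
  have hh : ∀ b, D.hash u v f b = D.hash v u f' (!b) := by
    intro b
    unfold hash
    rw [← D.C_comm h]
    apply Finset.sum_congr rfl
    intro y hy
    obtain ⟨c, h1, h2⟩ := hf y hy
    rw [h1, h2, D.r_comm h]
    by_cases hc : c = b
    · subst hc; simp
    · rw [if_neg (by simpa using hc), if_neg (by
        intro h3
        simp only [Option.some.injEq] at h3
        exact hc (Bool.not_inj h3))]
  unfold tau
  rcases lt_or_gt_of_ne h with h1 | h1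
  · rw [if_pos h1, if_neg (asymm h1), hh true, D.q_comm h, D.lo0_comm h]
    simp only [Bool.not_true]; ring
  · rw [if_neg (asymm h1), if_pos h1, hh false, D.lo0_comm h]
    simp only [Bool.not_false]; ring

end Dat

end Pool.Larman
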