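import Pool.Agent.Larman.Sel
import Pool.Agent.Larman.Sym
import Pool.Agent.Larman.Points

/-!
# MP_a9ba8c (Larman, t = 1): basic facts about the data, part 2 (windows, tightness, congruence of traces)

Sym.lean and Points.lean contain the symmetry lemmas and the lemmas on points.
-/

set_option autoImplicit false

open scoped BigOperators Classical

noncomputable section

namespace Pool.Larman

variable {g : ℕ}

namespace Dat

variable (D : Dat g)

/-- phantoms are not counting points -/
theorem phantom {u v : Pl g} {y : Un g} (h : y.1 ≠ 1) : (y, false) ∉ D.Q u v := by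
  intro hp
  rcases isReal_of_mem_Q D hp with h1 | h1
  · exact h h1
  · exact absurd h1 (by simp)

theorem C_sub (u v : Pl g) : D.C u v ⊆ D.Z u v := by
  unfold C
  exact Finset.filter_subset _ _

/-- the window is centred at q/2 and has length h. Integer division by 2 has an error of at most 1/2. -/
theorem window (u v : Pl g) :
    |(D.lo u v : ℝ) - (((D.Q u v).card : ℝ) / 2 - (hM g : ℝ) / 2)| ≤ 2 ∧
    |(D.hi u v : ℝ) - (((D.Q u v).card : ℝ) / 2 + (hM g : ℝ) / 2)| ≤ 2 := by
  have h1 : D.q u v - (hM g : ℤ) + 1 ≤ 2 * D.lo u v ∧ 2 * D.lo u v ≤ D.q u v - (hM g : ℤ) + 3 := by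
    unfold lo lo0
    split_ifs <;> omega
  have h2 : D.hi u v = D.lo u v + (hM g : ℤ) - 1 := rfl
  have h3 : (D.q u v : ℝ) = ((D.Q u v).card : ℝ) := by
    unfold q
    push_cast
    rfl
  have h4 : (D.q u v : ℝ) - (hM g : ℝ) + 1 ≤ 2 * (D.lo u v : ℝ) := by exact_mod_cast h1.1
  have h5 : 2 * (D.lo u v : ℝ) ≤ (D.q u v : ℝ) - (hM g : ℝ) + 3 := by exact_mod_cast h1.2
  have h6 : (D.hi u v : ℝ) = (D.lo u v : ℝ) + (hM g : ℝ) - 1 := by
    rw [h2]
    push_cast
    rfl
  rw [h3] at h4 h5
  constructor
  · rw [abs_le]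
    constructor <;> linarith
  · rw [abs_le, h6]
    constructor <;> linarith

/-- two traces which agree on the common units -/
theorem cnt_congr {u v : Pl g} {f f' : Tr g} (h : ∀ y ∈ D.Z u v, f y = f' y) :
    cnt (D.Q u v) f = cnt (D.Q u v) f' := by
  unfold cnt
  congr 1
  refine Finset.filter_congr fun p hp => ?_
  rw [h p.1 (mem_Z_of_mem_Q D hp)]

theorem hash_congr {u v : Pl g} {f f' : Tr g} (h : ∀ y ∈ D.Z u v, f y = f' y) (b : Bool) :
    D.hash u v f b = D.hash u v f' b := by
  unfold hash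
  refine Finset.sum_congr rfl fun y hy => ?_
  rw [h y (mem_Z_of_mem_C D hy)]

theorem tau_congr {u v : Pl g} {f f' : Tr g} (h : ∀ y ∈ D.Z u v, f y = f' y) :
    D.tau u v f = D.tau u v f' := by
  unfold tau
  rw [D.hash_congr h true, D.hash_congr h false]

theorem need_congr {u v : Pl g} {f f' : Tr g} (h : ∀ y ∈ D.Z u v, f y = f' y) :
    D.need u v f = D.need u v f' := by
  have h1 : (∃ y ∈ D.C u v, f y = none) ↔ ∃ y ∈ D.C u v, f' y = none := by
    constructor
    · rintro ⟨y, hy, h2⟩
      exact ⟨y, hy, by rw [← h y (mem_Z_of_mem_C D hy)]; exact h2⟩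
    · rintro ⟨y, hy, h2⟩
      exact ⟨y, hy, by rw [h y (mem_Z_of_mem_C D hy)]; exact h2⟩
  unfold need
  rw [D.tau_congr h]
  by_cases h2 : ∃ y ∈ D.C u v, f y = none
  · rw [if_pos h2, if_pos (h1.1 h2)]
  · rw [if_neg h2, if_neg (fun h3 => h2 (h1.2 h3))]

theorem Tight_congr {u v : Pl g} {f f' : Tr g} (h : ∀ y ∈ D.Z u v, f y = f' y) :
    D.Tight u v f ↔ D.Tight u v f' := by
  unfold Tight
  rw [D.tau_congr h, D.cnt_congr h]
  refine and_congr_left fun _ => ?_
  refine forall₂_congr fun y hy => ?_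
  rw [h y (mem_Z_of_mem_C D hy)]

theorem Srv_congr {G : Finset (Finset (Pt g))} {u v : Pl g} {f f' : Tr g}
    (h : ∀ y ∈ D.Z u v, f y = f' y) : D.Srv G u v f ↔ D.Srv G u v f' := by
  unfold Srv
  constructor
  · rintro ⟨e, he, hG, h1⟩
    exact ⟨e, he, hG, fun y hy => (h1 y hy).trans (h y hy)⟩
  · rintro ⟨e, he, hG, h1⟩
    exact ⟨e, he, hG, fun y hy => (h1 y hy).trans (h y hy).symm⟩

theorem cong_congr {u v : Pl g} {f f' : Tr g} (h : ∀ y ∈ D.Z u v, f y = f' y) :
    D.cong u v f ↔ D.cong u v f' := by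
  unfold cong
  rw [D.cnt_congr h, D.hash_congr h true]

theorem win_congr {u v : Pl g} {f f' : Tr g} (h : ∀ y ∈ D.Z u v, f y = f' y) :
    D.win u v f ↔ D.win u v f' := by
  unfold win
  rw [D.cnt_congr h]

theorem xi_congr {u v : Pl g} {f f' : Tr g} (h : ∀ y ∈ D.Z u v, f y = f' y) :
    D.xi u v f = D.xi u v f' := by
  unfold xi
  by_cases h1 : D.cong u v f
  · rw [if_pos h1, if_pos ((D.cong_congr h).1 h1)]
  · rw [if_neg h1, if_neg (fun h2 => h1 ((D.cong_congr h).2 h2))]

/-- for a trace which is proper on C, tightness = congruence and window. Proof: the window has exactly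
h values lo .. hi = lo + h - 1. Case u < v: cnt = lo0 + val(hash true) iff cnt - lo0 is in [0, h-1] and
is congruent to the hash. Case v < u: tau = q + 1 - lo0 - val(hash false), and hash true + hash false =
sum of r (T proper on C), so the congruence says q + 1 - lo0 - cnt = hash false mod h. -/
theorem tight_iff {u v : Pl g} (h : u ≠ v) {T : Tr g} (hT : ∀ y ∈ D.C u v, T y ≠ none) :
    D.Tight u v T ↔ D.cong u v T ∧ D.win u v T := by
  have hval : ∀ (x : ZMod (hM g)), 0 ≤ ((x.val : ℕ) : ℤ) ∧ ((x.val : ℕ) : ℤ) ≤ (hM g : ℤ) - 1 := by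
    intro x
    have := ZMod.val_lt x
    omega
  have hcast : ∀ (a : ℤ) (x : ZMod (hM g)), 0 ≤ a → a ≤ (hM g : ℤ) - 1 →
      ((a : ZMod (hM g)) = x ↔ a = ((x.val : ℕ) : ℤ)) := by
    intro a x ha0 ha1
    constructor
    · intro hx
      rw [← hx, ZMod.val_intCast, Int.emod_eq_of_lt ha0 (by omega)]
    · intro hx
      rw [hx]
      simp
  have hsum : D.hash u v T true + D.hash u v T false = ∑ y ∈ D.C u v, D.r u v y := by
    unfold hash
    rw [← Finset.sum_add_distrib]
    refine Finset.sum_congr rfl fun y hy => ?_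
    obtain ⟨b, hb⟩ := Option.ne_none_iff_exists'.mp (hT y hy)
    rw [hb]
    cases b <;> simp
  unfold Tight cong win tau hi lo
  rw [and_iff_right hT]
  rcases lt_or_gt_of_ne h with h1 | h1
  · rw [if_pos h1, if_pos h1, if_pos h1]
    constructor
    · intro h2
      have h3 := hval (D.hash u v T true)
      refine ⟨?_, by omega, by omega⟩
      have h4 : (((cnt (D.Q u v) T : ℕ) : ℤ) : ZMod (hM g)) =
          ((D.lo0 u v + ((D.hash u v T true).val : ℤ) : ℤ) : ZMod (hM g)) := by rw [h2]
      push_cast at h4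
      rw [h4, ZMod.natCast_zmod_val]
    · rintro ⟨h2, h3, h4⟩
      have h5 : (((cnt (D.Q u v) T : ℤ) - D.lo0 u v : ℤ) : ZMod (hM g)) = D.hash u v T true := by
        push_cast
        rw [h2]
        ring
      have h6 := (hcast _ _ (by omega) (by omega)).1 h5
      omega
  · have h1' : ¬ u < v := asymm h1
    rw [if_neg h1', if_neg h1', if_neg h1']
    constructor
    · intro h2
      have h3 := hval (D.hash u v T false)
      refine ⟨?_, by omega, by omega⟩
      have h4 : (((cnt (D.Q u v) T : ℕ) : ℤ) : ZMod (hM g)) =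
          ((D.q u v + 1 - (D.lo0 u v + ((D.hash u v T false).val : ℤ)) : ℤ) : ZMod (hM g)) := by
        rw [h2]
      push_cast at h4
      rw [ZMod.natCast_zmod_val] at h4
      rw [h4, ← hsum]
      push_cast
      ring
    · rintro ⟨h2, h3, h4⟩
      have h5 : ((D.q u v + 1 - D.lo0 u v - (cnt (D.Q u v) T : ℤ) : ℤ) : ZMod (hM g)) =
          D.hash u v T false := by
        push_cast
        rw [h2, ← hsum]
        push_cast
        ring
      have h6 := (hcast _ _ (by omega) (by omega)).1 h5
      omega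

/-- a tight trace has need = count -/
theorem need_of_tight {u v : Pl g} {T : Tr g} (h : D.Tight u v T) :
    D.need u v T = (cnt (D.Q u v) T : ℤ) := by
  unfold need
  rw [if_neg (fun ⟨y, hy, h1⟩ => h.1 y hy h1), h.2]

end Dat

/-- size of a set with trace f, by kinds -/
theorem card_real_kinds (f : Tr g) : (real f).card =
    (Finset.univ.filter (fun y : Un g => y.1 = 0 ∧ f y = some true)).card +
    (Finset.univ.filter (fun y : Un g => y.1 = 1 ∧ f y ≠ none)).card +
    (Finset.univ.filter (fun y : Un g => y.1 = 2 ∧ f y = some true)).card := by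
  have hblk : (∑ z : Fin (sN g) × Fin (pN g), if f (1, z) = some false then 1 else 0) +
      (∑ z : Fin (sN g) × Fin (pN g), if f (1, z) = some true then 1 else 0) =
      ∑ z : Fin (sN g) × Fin (pN g), if f (1, z) ≠ none then 1 else 0 := by
    rw [← Finset.sum_add_distrib]
    refine Finset.sum_congr rfl fun z _ => ?_
    rcases hz : f (1, z) with _ | b
    · simp
    · cases b <;> simp
  unfold real
  rw [Finset.card_filter, Finset.card_filter, Finset.card_filter, Finset.card_filter,
    Fintype.sum_prod_type, Fintype.sum_prod_type, Fintype.sum_prod_type, Fintype.sum_prod_type,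
    Fin.sum_univ_four, Fin.sum_univ_three, Fin.sum_univ_three, Fin.sum_univ_three]
  simp only [Fin.isValue, true_and, Fin.reduceEq, false_and, or_false, false_or, zero_ne_one,
    one_ne_zero, if_false, Finset.sum_const_zero, add_zero, zero_add]
  rw [← hblk]
  ring

end Pool.Larman
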