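import Mathlib

set_option autoImplicit false

namespace Pool.Agent.Larman

open Finset

variable {n : ℕ}

/-- a finite set of pairs such that each member of `F` contains one of them -/
def PairCover (F P : Finset (Finset (Fin n))) : Prop :=
  (∀ p ∈ P, 2 ≤ p.card) ∧ ∀ A ∈ F, ∃ p ∈ P, p ⊆ A

theorem two_int_of_pair {F : Finset (Finset (Fin n))} {p : Finset (Fin n)} (hp : 2 ≤ p.card)
    (A B : Finset (Fin n)) (hA : A ∈ F.filter (fun A => p ⊆ A))
    (hB : B ∈ F.filter (fun A => p ⊆ A)) : 2 ≤ (A ∩ B).card := by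
  rw [mem_filter] at hA hB
  exact hp.trans (card_le_card (subset_inter hA.2 hB.2))

/-- from a small collection of classes to a family of classes indexed by `Fin n` -/
theorem cover_of_classes {F : Finset (Finset (Fin n))}
    (C : Finset (Finset (Finset (Fin n)))) (hC : C.card ≤ n)
    (h1 : ∀ G ∈ C, G ⊆ F)
    (h2 : ∀ G ∈ C, ∀ A ∈ G, ∀ B ∈ G, A ≠ B → 2 ≤ (A ∩ B).card)
    (h3 : ∀ A ∈ F, ∃ G ∈ C, A ∈ G) :
    ∃ G : Fin n → Finset (Finset (Fin n)),
      (∀ i, G i ⊆ F) ∧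
      (∀ i, ∀ A ∈ G i, ∀ B ∈ G i, A ≠ B → 2 ≤ (A ∩ B).card) ∧
      (∀ A ∈ F, ∃ i, A ∈ G i) := by
  classical
  let e := C.equivFin
  refine ⟨fun i => if h : i.val < C.card then (e.symm ⟨i.val, h⟩).1 else ∅, ?_, ?_, ?_⟩
  · intro i
    by_cases h : i.val < C.card
    · simp only [h, dif_pos]
      exact h1 _ (e.symm ⟨i.val, h⟩).2
    · simp [h]
  · intro i
    by_cases h : i.val < C.card
    · simp only [h, dif_pos]
      exact h2 _ (e.symm ⟨i.val, h⟩).2
    · simp [h]
  · intro A hA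
    obtain ⟨G, hG, hAG⟩ := h3 A hA
    refine ⟨⟨(e ⟨G, hG⟩).val, lt_of_lt_of_le (e ⟨G, hG⟩).2 hC⟩, ?_⟩
    have h : (e ⟨G, hG⟩).val < C.card := (e ⟨G, hG⟩).2
    simp only [h, dif_pos]
    simpa using hAG

theorem cover_of_pairCover {F P : Finset (Finset (Fin n))} (h : PairCover F P)
    (hP : P.card ≤ n) :
    ∃ G : Fin n → Finset (Finset (Fin n)),
      (∀ i, G i ⊆ F) ∧
      (∀ i, ∀ A ∈ G i, ∀ B ∈ G i, A ≠ B → 2 ≤ (A ∩ B).card) ∧
      (∀ A ∈ F, ∃ i, A ∈ G i) := by
  classical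
  refine cover_of_classes (P.image (fun p => F.filter (fun A => p ⊆ A)))
    (card_image_le.trans hP) ?_ ?_ ?_
  · intro G hG
    obtain ⟨p, _, rfl⟩ := mem_image.1 hG
    exact filter_subset _ _
  · intro G hG A hA B hB _
    obtain ⟨p, hp, rfl⟩ := mem_image.1 hG
    exact two_int_of_pair (h.1 p hp) A B hA hB
  · intro A hA
    obtain ⟨p, hp, hpA⟩ := h.2 A hA
    exact ⟨_, mem_image_of_mem _ hp, mem_filter.2 ⟨hA, hpA⟩⟩

/-- star case: all members (of size at least two) contain `c` -/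
theorem pairCover_star {F : Finset (Finset (Fin n))} (h2 : ∀ A ∈ F, 2 ≤ A.card) (c : Fin n)
    (hc : ∀ A ∈ F, c ∈ A) : ∃ P : Finset (Finset (Fin n)), PairCover F P ∧ P.card + 1 ≤ n := by
  classical
  refine ⟨(univ.erase c).image (fun x => {c, x}), ⟨?_, ?_⟩, ?_⟩
  · intro p hp
    obtain ⟨x, hx, rfl⟩ := mem_image.1 hp
    have : c ≠ x := fun h => (mem_erase.1 hx).1 h.symm
    rw [card_pair this]
  · intro A hA
    obtain ⟨x, hx, hxc⟩ := exists_mem_ne (show 1 < A.card from h2 A hA) c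
    refine ⟨{c, x}, mem_image.2 ⟨x, mem_erase.2 ⟨hxc, mem_univ _⟩, rfl⟩, ?_⟩
    intro y hy
    rw [mem_insert, mem_singleton] at hy
    rcases hy with rfl | rfl
    · exact hc A hA
    · exact hx
  · have h1 : ((univ.erase c).image (fun x => ({c, x} : Finset (Fin n)))).card
        ≤ (univ.erase c : Finset (Fin n)).card := card_image_le
    rw [card_erase_of_mem (mem_univ c), card_univ, Fintype.card_fin] at h1
    have : 0 < n := c.pos
    omega

/-- one step of the greedy cover: adding the point `t` -/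
theorem step {F : Finset (Finset (Fin n))}
    (hF : ∀ A ∈ F, ∀ B ∈ F, (A ∩ B).Nonempty)
    {E : Finset (Fin n)} {P : Finset (Finset (Fin n))}
    (hP : PairCover (F.filter (fun A => (A ∩ E).Nonempty)) P)
    {t : Fin n} {C : Finset (Fin n)} (hC : C ∈ F) (htC : t ∉ C) :
    ∃ Q : Finset (Finset (Fin n)),
      PairCover (F.filter (fun A => (A ∩ insert t E).Nonempty)) Q ∧
      Q.card ≤ P.card + (C \ E).card := by
  classical
  refine ⟨P ∪ (C \ E).image (fun x => {t, x}), ⟨?_, ?_⟩, ?_⟩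
  · intro p hp
    rcases mem_union.1 hp with hp | hp
    · exact hP.1 p hp
    · obtain ⟨x, hx, rfl⟩ := mem_image.1 hp
      have : t ≠ x := by
        rintro rfl
        exact htC (mem_sdiff.1 hx).1
      rw [card_pair this]
  · intro A hA
    rw [mem_filter] at hA
    by_cases hAE : (A ∩ E).Nonempty
    · obtain ⟨p, hp, hpA⟩ := hP.2 A (mem_filter.2 ⟨hA.1, hAE⟩)
      exact ⟨p, mem_union_left _ hp, hpA⟩
    · have htA : t ∈ A := by
        obtain ⟨y, hy⟩ := hA.2
        rw [mem_inter, mem_insert] at hy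
        rcases hy with ⟨hyA, rfl | hyE⟩
        · exact hyA
        · exact absurd ⟨y, mem_inter.2 ⟨hyA, hyE⟩⟩ hAE
      obtain ⟨x, hx⟩ := hF A hA.1 C hC
      rw [mem_inter] at hx
      have hxE : x ∉ E := fun h => hAE ⟨x, mem_inter.2 ⟨hx.1, h⟩⟩
      refine ⟨{t, x}, mem_union_right _ (mem_image.2 ⟨x, mem_sdiff.2 ⟨hx.2, hxE⟩, rfl⟩), ?_⟩
      intro y hy
      rw [mem_insert, mem_singleton] at hy
      rcases hy with rfl | rfl
      · exact htA
      · exact hx.1
  · exact (card_union_le _ _).trans (Nat.add_le_add_left card_image_le _)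

end Pool.Agent.Larman
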