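import Pool.Agent.Larman.Props
import Pool.Agent.LarH.ProbPi

/-!
# Bridge between Defs/Props and the probability library (helper46)
-/

set_option autoImplicit false

open scoped BigOperators Classical

noncomputable section

namespace Pool.Larman

open Pool.LarProb (Ex Pr IsP PW unif unifOn)

theorem ind_eq (p : Prop) : ind p = Pool.LarProb.ind p := by
  unfold ind Pool.LarProb.ind
  rfl

/-- the fair coin -/
def fair : Bool → ℝ := fun _ => 1 / 2

theorem fair_isP : IsP fair where
  nonneg := fun _ => by unfold fair; norm_num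
  sum_one := by rw [Fintype.sum_bool]; unfold fair; norm_num

/-- the fair product weight -/
def fw {I : Type*} [Fintype I] : (I → Bool) → ℝ := PW (A := fun _ : I => Bool) (fun _ => fair)

theorem fw_isP {I : Type*} [Fintype I] [DecidableEq I] : IsP (fw (I := I)) :=
  Pool.LarProb.PW_isP (fun _ => fair_isP)

theorem fw_eq {I : Type*} [Fintype I] (t : I → Bool) :
    fw t = 1 / (Fintype.card (I → Bool) : ℝ) := by
  unfold fw PW fair
  rw [Finset.prod_const, Finset.card_univ, Fintype.card_fun, Fintype.card_bool]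
  push_cast
  rw [one_div, one_div, inv_pow]

/-- `avg` is the expectation under fair coins -/
theorem avg_eq {g : ℕ} (F : (Un g → Bool) → ℝ) : avg F = Ex fw F := by
  unfold avg Ex
  rw [Finset.sum_div]
  refine Finset.sum_congr rfl (fun t _ => ?_)
  rw [fw_eq]
  simp only [← Nat.card_eq_fintype_card]
  ring

/-- the coin of the unit `y` in the law `cw` -/
def coin {g : ℕ} (Ms : Finset (Un g)) (β : Un g → ℝ) (y : Un g) : Bool → ℝ := fun x =>
  1 / 2 + if y ∈ Ms then (if x = true then β y else - β y) else 0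

theorem coin_isP {g : ℕ} {Ms : Finset (Un g)} {β : Un g → ℝ} (hβ : ∀ y ∈ Ms, |β y| ≤ 1 / 2)
    (y : Un g) : IsP (coin Ms β y) where
  nonneg := fun x => by
    unfold coin
    by_cases hy : y ∈ Ms
    · have := abs_le.1 (hβ y hy)
      cases x <;> simp [hy] <;> linarith [this.1, this.2]
    · simp [hy]
  sum_one := by
    rw [Fintype.sum_bool]
    unfold coin
    by_cases hy : y ∈ Ms
    · simp [hy]; ring
    · simp [hy]; norm_num

/-- `cw` is a product weight -/
theorem cw_eq {g : ℕ} (Ms : Finset (Un g)) (β : Un g → ℝ) :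
    cw Ms β = PW (A := fun _ : Un g => Bool) (coin Ms β) := by
  funext t
  unfold cw PW coin
  rfl

theorem cw_isP {g : ℕ} {Ms : Finset (Un g)} {β : Un g → ℝ} (hβ : ∀ y ∈ Ms, |β y| ≤ 1 / 2) :
    IsP (cw Ms β) := by
  rw [cw_eq]
  exact Pool.LarProb.PW_isP (fun y => coin_isP hβ y)

theorem coin_fair {g : ℕ} {Ms : Finset (Un g)} {β : Un g → ℝ} {y : Un g} (hy : y ∉ Ms) (x : Bool) :
    coin Ms β y x = 1 / 2 := by
  unfold coin; simp [hy]

/-- `slotWt` is a product weight -/
theorem slotWt_eq {g : ℕ} (E : Env g) :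
    E.slotWt = PW (A := fun _ : Fin E.M => Pl g) (fun k => unifOn (E.W k)) := by
  funext B
  unfold Env.slotWt PW unifOn
  refine Finset.prod_congr rfl (fun k _ => ?_)
  show (if B k ∈ E.W k then 1 / ((E.W k).card : ℝ) else 0)
    = Pool.LarProb.ind (B k ∈ E.W k) / ((E.W k).card : ℝ)
  by_cases h : B k ∈ E.W k
  · rw [if_pos h, Pool.LarProb.ind_true h]
  · rw [if_neg h, Pool.LarProb.ind_false h, zero_div]

theorem slotWt_isP {g : ℕ} {E : Env g} (hW : ∀ k, (E.W k).Nonempty) : IsP E.slotWt := by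
  rw [slotWt_eq]
  exact Pool.LarProb.PW_isP (fun k => Pool.LarProb.unifOn_isP (hW k))

/-- expectation over one slot -/
theorem Ex_slot {g : ℕ} {E : Env g} (hW : ∀ k, (E.W k).Nonempty) (k : Fin E.M) (f : Pl g → ℝ) :
    Ex E.slotWt (fun B => f (B k)) = (∑ w ∈ E.W k, f w) / (E.W k).card := by
  rw [slotWt_eq, Pool.LarProb.Ex_coord (fun k => Pool.LarProb.unifOn_isP (hW k)) k f,
    Pool.LarProb.Ex_unifOn]

end Pool.Larman
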