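import Pool.Agent.Larman.Bridge

/-!
# The number of counting points in a random trace: decomposition, mean, tail (helper46)
-/

set_option autoImplicit false

open scoped BigOperators Classical

noncomputable section

namespace Pool.Larman

open Pool.LarProb (Ex Pr IsP PW Ex_mono Ex_add Ex_const Ex_coord tail_abs PW_isP)

variable {g : ℕ}

/-- the trace with the twins `t` on `F` and the states of `T0` elsewhere -/
def mixT (F : Finset (Un g)) (T0 : Tr g) (t : Un g → Bool) : Tr g := fun y =>
  if y ∈ F then some (t y) else T0 y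

/-- contribution of the unit `y` when its twin is `x` -/
def q1 (Q : Finset (Pp g)) (y : Un g) (x : Bool) : ℝ := if (y, x) ∈ Q then 1 else 0

theorem q1_nonneg (Q : Finset (Pp g)) (y : Un g) (x : Bool) : 0 ≤ q1 Q y x := by
  unfold q1; split_ifs <;> norm_num

theorem q1_le_one (Q : Finset (Pp g)) (y : Un g) (x : Bool) : q1 Q y x ≤ 1 := by
  unfold q1; split_ifs <;> norm_num

/-- contribution of the frozen units -/
def cnt0 (Q : Finset (Pp g)) (F : Finset (Un g)) (T0 : Tr g) : ℝ :=
  ((Q.filter (fun p => p.1 ∉ F ∧ T0 p.1 = some p.2)).card : ℝ)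

theorem cnt_mix (Q : Finset (Pp g)) (F : Finset (Un g)) (T0 : Tr g) (t : Un g → Bool) :
    (cnt Q (mixT F T0 t) : ℝ) = cnt0 Q F T0 + ∑ y ∈ F, q1 Q y (t y) := by
  have h1 : Q.filter (fun p => mixT F T0 t p.1 = some p.2)
      = (Q.filter (fun p => p.1 ∉ F ∧ T0 p.1 = some p.2)) ∪
        ((F.filter (fun y => (y, t y) ∈ Q)).image (fun y => (y, t y))) := by
    ext p
    simp only [Finset.mem_filter, Finset.mem_union, Finset.mem_image, mixT]
    constructor
    · rintro ⟨hp, h⟩
      by_cases hF : p.1 ∈ F
      · rw [if_pos hF] at h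
        right
        have h2 : t p.1 = p.2 := Option.some.inj h
        refine ⟨p.1, ⟨hF, ?_⟩, ?_⟩
        · rw [h2]; exact hp
        · rw [h2]
      · rw [if_neg hF] at h
        left
        exact ⟨hp, hF, h⟩
    · rintro (⟨hp, hF, h⟩ | ⟨y, ⟨hy, hyQ⟩, rfl⟩)
      · refine ⟨hp, ?_⟩
        rw [if_neg hF]; exact h
      · refine ⟨hyQ, ?_⟩
        rw [if_pos hy]
  unfold cnt cnt0
  rw [h1, Finset.card_union_of_disjoint, Finset.card_image_of_injective]
  · push_cast
    congr 1
    unfold q1
    rw [Finset.sum_ite]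
    simp
  · intro a b hab
    exact (Prod.mk.inj hab).1
  · rw [Finset.disjoint_left]
    intro p hp hp2
    rw [Finset.mem_filter] at hp
    rw [Finset.mem_image] at hp2
    obtain ⟨y, hy, rfl⟩ := hp2
    rw [Finset.mem_filter] at hy
    exact hp.2.1 hy.1

/-- the mean of the number of counting points -/
theorem Ex_cnt_mix {w : Un g → Bool → ℝ} (hw : ∀ y, IsP (w y)) (Q : Finset (Pp g))
    (F : Finset (Un g)) (T0 : Tr g) :
    Ex (PW (A := fun _ : Un g => Bool) w) (fun t => (cnt Q (mixT F T0 t) : ℝ))
      = cnt0 Q F T0 + ∑ y ∈ F, (w y true * q1 Q y true + w y false * q1 Q y false) := by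
  rw [Pool.LarProb.Ex_congr (fun t => cnt_mix Q F T0 t), Ex_add, Ex_const (PW_isP hw),
    Pool.LarProb.Ex_sum]
  congr 1
  refine Finset.sum_congr rfl (fun y _ => ?_)
  rw [Ex_coord (A := fun _ : Un g => Bool) hw y (fun x => q1 Q y x)]
  unfold Ex
  rw [Fintype.sum_bool]

/-- the sum of the contributions over `F` is at most the number of points of `Q` -/
theorem sum_q1_le (Q : Finset (Pp g)) (F : Finset (Un g)) :
    ∑ y ∈ F, (q1 Q y true + q1 Q y false) ≤ (Q.card : ℝ) := by
  have h1 : ∀ y : Un g, q1 Q y true + q1 Q y false = ((Q.filter (fun p => p.1 = y)).card : ℝ) := by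
    intro y
    have h2 : Q.filter (fun p => p.1 = y)
        = ((Finset.univ : Finset Bool).filter (fun x => (y, x) ∈ Q)).image (fun x => (y, x)) := by
      ext p
      simp only [Finset.mem_filter, Finset.mem_image, Finset.mem_univ, true_and]
      constructor
      · rintro ⟨hp, rfl⟩
        exact ⟨p.2, hp, rfl⟩
      · rintro ⟨x, hx, rfl⟩
        exact ⟨hx, rfl⟩
    rw [h2, Finset.card_image_of_injective _ (fun a b hab => (Prod.mk.inj hab).2)]
    unfold q1
    rw [Finset.card_filter]
    push_cast
    rw [Fintype.sum_bool]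
  rw [Finset.sum_congr rfl (fun y _ => h1 y)]
  have h3 : ∑ y ∈ F, (Q.filter (fun p => p.1 = y)).card ≤ Q.card := by
    rw [← Finset.card_biUnion]
    · exact Finset.card_le_card (Finset.biUnion_subset.2 (fun y _ => Finset.filter_subset _ _))
    · intro a _ b _ hab
      rw [Function.onFun, Finset.disjoint_left]
      intro p hp hp2
      exact hab ((Finset.mem_filter.1 hp).2.symm.trans (Finset.mem_filter.1 hp2).2)
  exact_mod_cast h3

/-- tail bound for the number of counting points, arbitrary independent coins -/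
theorem cnt_tail {w : Un g → Bool → ℝ} (hw : ∀ y, IsP (w y)) (Q : Finset (Pp g))
    (F : Finset (Un g)) (T0 : Tr g) {V τ m : ℝ} (hV : (Q.card : ℝ) ≤ V) (hV0 : 0 < V) (hτ : 0 ≤ τ)
    (hτV : τ ≤ 2 * V)
    (hm : m = cnt0 Q F T0 + ∑ y ∈ F, (w y true * q1 Q y true + w y false * q1 Q y false)) :
    Pr (PW (A := fun _ : Un g => Bool) w) (fun t => τ ≤ |(cnt Q (mixT F T0 t) : ℝ) - m|)
      ≤ 2 * Real.exp (- (τ ^ 2 / (4 * V))) := by
  set μ : Un g → ℝ := fun y => w y true * q1 Q y true + w y false * q1 Q y false with hμ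
  have hμ0 : ∀ y, 0 ≤ μ y := fun y => by
    simp only [hμ]
    have a1 := (hw y).nonneg true
    have a2 := (hw y).nonneg false
    have b1 := q1_nonneg Q y true
    have b2 := q1_nonneg Q y false
    positivity
  have hsum : ∀ y, w y true + w y false = 1 := fun y => by
    have := (hw y).sum_one
    rwa [Fintype.sum_bool] at this
  have hμ1 : ∀ y, μ y ≤ 1 := fun y => by
    simp only [hμ]
    have a1 := (hw y).nonneg true
    have a2 := (hw y).nonneg false
    nlinarith [q1_le_one Q y true, q1_le_one Q y false, hsum y, q1_nonneg Q y true,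
      q1_nonneg Q y false]
  have hEx : ∀ y (f : Bool → ℝ), Ex (w y) f = w y true * f true + w y false * f false := by
    intro y f
    unfold Ex
    rw [Fintype.sum_bool]
  have h := tail_abs (A := fun _ : Un g => Bool) hw F (fun y x => q1 Q y x - μ y) (b := 1) (V := V)
    (t := τ) ?_ ?_ ?_ hV0 hτ (by linarith)
  · refine le_trans (le_of_eq ?_) h
    refine Pool.LarProb.Pr_congr (fun t => ?_)
    rw [cnt_mix, hm, Finset.sum_sub_distrib]
    have : cnt0 Q F T0 + ∑ y ∈ F, q1 Q y (t y) - (cnt0 Q F T0 + ∑ y ∈ F, μ y)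
        = ∑ y ∈ F, q1 Q y (t y) - ∑ y ∈ F, μ y := by ring
    rw [this]
  · intro y _ x
    rw [abs_le]
    constructor
    · linarith [q1_nonneg Q y x, hμ1 y]
    · linarith [q1_le_one Q y x, hμ0 y]
  · intro y _
    rw [hEx]
    simp only [hμ]
    have := hsum y
    have h2 : w y false = 1 - w y true := by linarith
    rw [h2]; ring
  · refine le_trans (Finset.sum_le_sum (fun y _ => ?_)) ((sum_q1_le Q F).trans hV)
    rw [hEx]
    have a1 := (hw y).nonneg true
    have a2 := (hw y).nonneg false
    have hs := hsum y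
    have c1 : w y true ≤ 1 := by linarith
    have c2 : w y false ≤ 1 := by linarith
    -- second moment at most the mean of `q1`
    have key : w y true * (q1 Q y true - μ y) ^ 2 + w y false * (q1 Q y false - μ y) ^ 2
        = (w y true * q1 Q y true ^ 2 + w y false * q1 Q y false ^ 2) - μ y ^ 2 := by
      simp only [hμ]
      have h2 : w y false = 1 - w y true := by linarith
      rw [h2]; ring
    rw [key]
    have s1 : q1 Q y true ^ 2 = q1 Q y true := by unfold q1; split_ifs <;> norm_num
    have s2 : q1 Q y false ^ 2 = q1 Q y false := by unfold q1; split_ifs <;> norm_num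
    rw [s1, s2]
    nlinarith [sq_nonneg (μ y), q1_nonneg Q y true, q1_nonneg Q y false]

end Pool.Larman
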