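import Mathlib

/-!
# MP_a9ba8c (Larman, t = 1): definitions of the hash / twins model (version 2)

Text: team-store a9ba8c_hash.md. Everything depends on one large natural number g.
Units: kind 0 = tilted main unit (one point, coins with a small bias), kind 1 = block (two points, the
twins), kind 2 = neutral main unit (one point, fair coins).
-/

set_option autoImplicit false

open scoped BigOperators Classical

noncomputable section

namespace Pool.Larman

/-- number of units of a support, per kind -/
@[irreducible] def sN (g : ℕ) : ℕ := g ^ 1050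
/-- number of choices at each place: the inverse of the density of a support -/
@[irreducible] def pN (g : ℕ) : ℕ := g ^ 950
/-- number of players -/
@[irreducible] def mP (g : ℕ) : ℕ := g ^ 12000
/-- hash modulus -/
@[irreducible] def hM (g : ℕ) : ℕ := g ^ 52 + 1
/-- the size k of the members of the family -/
@[irreducible] def kk (g : ℕ) : ℕ := 2 * g ^ 1050 + g ^ 1007

theorem sN_cast (g : ℕ) : (sN g : ℝ) = (g : ℝ) ^ 1050 := by unfold sN; push_cast; rfl
theorem pN_cast (g : ℕ) : (pN g : ℝ) = (g : ℝ) ^ 950 := by unfold pN; push_cast; rfl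
theorem mP_cast (g : ℕ) : (mP g : ℝ) = (g : ℝ) ^ 12000 := by unfold mP; push_cast; rfl
theorem hM_cast (g : ℕ) : (hM g : ℝ) = (g : ℝ) ^ 52 + 1 := by unfold hM; push_cast; rfl
theorem kk_cast (g : ℕ) : (kk g : ℝ) = 2 * (g : ℝ) ^ 1050 + (g : ℝ) ^ 1007 := by
  unfold kk; push_cast; rfl
theorem kk_gt (g : ℕ) (hg : 0 < g) : 4 * sN g < 2 * kk g := by
  unfold kk sN
  have : 0 < g ^ 1007 := pow_pos hg _
  omega

instance hM_neZero (g : ℕ) : NeZero (hM g) := ⟨by unfold hM; exact Nat.succ_ne_zero _⟩

/-- players -/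
abbrev Pl (g : ℕ) := Fin (mP g)
/-- units -/
abbrev Un (g : ℕ) := Fin 3 × Fin (sN g) × Fin (pN g)
/-- points of the ground set: (0, z) the point of the tilted unit z, (1, z) and (2, z) the twins false
and true of the block z, (3, z) the point of the neutral unit z -/
abbrev Pt (g : ℕ) := Fin 4 × Fin (sN g) × Fin (pN g)
/-- potential points: (y, i) is the twin i of the unit y; for a main unit y only (y, true) is real -/
abbrev Pp (g : ℕ) := Un g × Bool
/-- traces: the state of a set at a unit. some i: the twin i is in the set and the other twin is not;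
none: no point of the unit is in the set. -/
abbrev Tr (g : ℕ) := Un g → Option Bool
/-- labels at (pair of players, unit): is it a C label, hash coefficient, is the twin i a Q point -/
abbrev Lb (g : ℕ) := Bool × ZMod (hM g) × (Bool → Bool)

/-- real points -/
def isReal {g : ℕ} (p : Pp g) : Prop := p.1.1 = 1 ∨ p.2 = true

/-- the set of points with trace f -/
def real {g : ℕ} (f : Tr g) : Finset (Pt g) :=
  Finset.univ.filter (fun p =>
    (p.1 = 0 ∧ f (0, p.2) = some true) ∨ (p.1 = 1 ∧ f (1, p.2) = some false) ∨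
    (p.1 = 2 ∧ f (1, p.2) = some true) ∨ (p.1 = 3 ∧ f (2, p.2) = some true))

/-- number of points of Q in the set with trace f -/
def cnt {g : ℕ} (Q : Finset (Pp g)) (f : Tr g) : ℕ := (Q.filter (fun p => f p.1 = some p.2)).card

/-- the random data: supports and labels -/
structure Dat (g : ℕ) where
  σ : Pl g → Fin 3 × Fin (sN g) → Fin (pN g)
  lab : Pl g → Pl g → Un g → Lb g

/-- support of the choice function f -/
def supp {g : ℕ} (f : Fin 3 × Fin (sN g) → Fin (pN g)) : Finset (Un g) :=
  Finset.univ.filter (fun y => f (y.1, y.2.1) = y.2.2)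

namespace Dat
variable {g : ℕ} (D : Dat g)

/-- support of the player u -/
def S (u : Pl g) : Finset (Un g) := supp (D.σ u)

/-- label of the unordered pair {u, v} at y -/
def L (u v : Pl g) (y : Un g) : Lb g := if u < v then D.lab u v y else D.lab v u y

/-- common units -/
def Z (u v : Pl g) : Finset (Un g) := D.S u ∩ D.S v

/-- common blocks carrying the hash -/
def C (u v : Pl g) : Finset (Un g) := (D.Z u v).filter (fun y => y.1 = 1 ∧ (D.L u v y).1 = true)

/-- hash coefficients -/
def r (u v : Pl g) (y : Un g) : ZMod (hM g) := (D.L u v y).2.1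

/-- the counting points of the pair -/
def Q (u v : Pl g) : Finset (Pp g) :=
  Finset.univ.filter (fun p => p.1 ∈ D.Z u v ∧ p.1 ∉ D.C u v ∧ isReal p ∧ (D.L u v p.1).2.2 p.2 = true)

/-- number of counting points -/
def q (u v : Pl g) : ℤ := ((D.Q u v).card : ℤ)

/-- lower end of the window, for the order u < v -/
def lo0 (u v : Pl g) : ℤ := (D.q u v - (hM g : ℤ)) / 2 + 1

/-- hash of the trace f, counting the twins b -/
def hash (u v : Pl g) (f : Tr g) (b : Bool) : ZMod (hM g) :=
  ∑ y ∈ D.C u v, if f y = some b then D.r u v y else 0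

/-- lower end of the window -/
def lo (u v : Pl g) : ℤ := if u < v then D.lo0 u v else D.q u v + 1 - (D.lo0 u v + (hM g : ℤ) - 1)

/-- upper end of the window -/
def hi (u v : Pl g) : ℤ := D.lo u v + (hM g : ℤ) - 1

/-- threshold of a trace which is proper on C -/
def tau (u v : Pl g) (f : Tr g) : ℤ :=
  if u < v then D.lo0 u v + ((D.hash u v f true).val : ℤ)
  else D.q u v + 1 - (D.lo0 u v + ((D.hash u v f false).val : ℤ))

/-- number of points of Q needed by a trace of u against v -/
def need (u v : Pl g) (f : Tr g) : ℤ := if ∃ y ∈ D.C u v, f y = none then D.hi u v else D.tau u v f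

/-- members of the player u (as traces) -/
def Fam (u : Pl g) : Set (Tr g) :=
  {f | (∀ y, y ∉ D.S u → f y = none) ∧ (real f).card = kk g ∧
    ∀ v, v ≠ u → D.need u v f ≤ (cnt (D.Q u v) f : ℤ)}

/-- the family -/
def FF : Finset (Finset (Pt g)) := Finset.univ.filter (fun A => ∃ u, ∃ f ∈ D.Fam u, real f = A)

end Dat

/-- patterns: prescribed states on a set of units -/
structure Pat (g : ℕ) where
  dom : Finset (Un g)
  st : Tr g

/-- the trace which has the states of s on its domain and the twins t elsewhere -/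
def ext {g : ℕ} (s : Pat g) (t : Un g → Bool) : Tr g := fun y => if y ∈ s.dom then s.st y else some (t y)

/-- p is a real point which is IN in the pattern s -/
def InP {g : ℕ} (s : Pat g) (p : Pp g) : Prop := p.1 ∈ s.dom ∧ s.st p.1 = some p.2 ∧ isReal p

/-- average over all choices of twins -/
def avg {g : ℕ} (F : (Un g → Bool) → ℝ) : ℝ := (∑ t, F t) / (Fintype.card (Un g → Bool) : ℝ)

/-- indicator -/
def ind (p : Prop) : ℝ := if p then 1 else 0

/-- G is 2-intersecting -/
def TwoInt {g : ℕ} (G : Finset (Finset (Pt g))) : Prop := ∀ A ∈ G, ∀ B ∈ G, A ≠ B → 2 ≤ (A ∩ B).card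

namespace Dat
variable {g : ℕ} (D : Dat g)

/-- tight traces -/
def Tight (u v : Pl g) (T : Tr g) : Prop :=
  (∀ y ∈ D.C u v, T y ≠ none) ∧ (cnt (D.Q u v) T : ℤ) = D.tau u v T

/-- served traces -/
def Srv (G : Finset (Finset (Pt g))) (u v : Pl g) (T : Tr g) : Prop :=
  ∃ f ∈ D.Fam u, real f ∈ G ∧ ∀ y ∈ D.Z u v, f y = T y

/-- killers of the pattern s of the player u -/
def K (G : Finset (Finset (Pt g))) (u : Pl g) (s : Pat g) : Finset (Pl g) :=
  Finset.univ.filter (fun v => v ≠ u ∧ (s.dom ∩ D.S v).card ≤ 2 ∧ Disjoint (D.C u v) s.dom ∧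
    avg (fun t => ind (D.Tight u v (ext s t))) ≤
      20 * avg (fun t => ind (D.Tight u v (ext s t) ∧ ¬ D.Srv G u v (ext s t))))

/-- geometric part of compatibility: small overlaps, at most one common IN point -/
def Elig (u v : Pl g) (s s' : Pat g) : Prop :=
  (s.dom ∩ D.S v).card ≤ 2 ∧ (s'.dom ∩ D.S u).card ≤ 2 ∧
  (Finset.univ.filter (fun p : Pp g => InP s p ∧ InP s' p)).card ≤ 1

/-- compatible patterns -/
def Compat (u v : Pl g) (s s' : Pat g) : Prop :=
  D.Elig u v s s' ∧ Disjoint (D.C u v) s.dom ∧ Disjoint (D.C u v) s'.dom ∧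
  (∀ y ∈ s.dom ∩ s'.dom, ∀ i, (s.st y = some i ∨ s.st y = none) → (s'.st y = some i ∨ s'.st y = none) →
    (y, !i) ∉ D.Q u v) ∧
  (∀ y ∈ s.dom ∩ s'.dom, ∀ i, s.st y = some i → s'.st y = some i → isReal (y, i) → (y, i) ∈ D.Q u v) ∧
  (∀ y ∈ s.dom ∩ D.S v, y ∉ s'.dom → s.st y = none → ∃ i, (y, i) ∉ D.Q u v) ∧
  (∀ y ∈ s'.dom ∩ D.S u, y ∉ s.dom → s'.st y = none → ∃ i, (y, i) ∉ D.Q u v)

end Dat

end Pool.Larman
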