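import Pool.Agent.Larman.EnvDefs

/-! # T4: the populations are large, the heavy zones are small -/

set_option autoImplicit false

open scoped BigOperators Classical

noncomputable section

namespace Pool.Larman

open Filter

/-- killers over X lie in `A0`. Proof: `v ∈ K` has `v ≠ u` and `Disjoint (C u v) s.dom`, and `X ⊆ s.dom`. -/
theorem K_sub_A0 {g : ℕ} {D : Dat g} {u : Pl g} {X : Finset (Un g)} {W : Fin (nC g) → Finset (Pl g)}
    (G : Finset (Finset (Pt g))) (i : Fin (nC g)) {s : Pat g} (hs : Over X s) :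
    D.K G u s ∩ W i ⊆ A0 D u X W i := by
  intro w hw
  rw [Finset.mem_inter] at hw
  obtain ⟨hK, hW⟩ := hw
  unfold Dat.K at hK
  rw [Finset.mem_filter] at hK
  unfold A0
  rw [Finset.mem_filter]
  exact ⟨hW, hK.2.1, Finset.disjoint_of_subset_right hs.1 hK.2.2.2.1⟩

/-- the pattern which is empty on X is admissible. Proof: `dom = X ⊆ S u`, `|X| ≤ 3 g^101 ≤ g^104`. -/
theorem PatOK_empty : ∀ᶠ g : ℕ in atTop, ∀ D : Dat g, ∀ (u : Pl g) (X : Finset (Un g)), X ⊆ D.S u →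
    (X.card : ℝ) ≤ 3 * (g : ℝ) ^ 101 →
    D.PatOK u ⟨X, fun _ => none⟩ ∧ Over X (⟨X, fun _ => none⟩ : Pat g) := by
  filter_upwards [ev_pow 3 (show 101 < 104 by norm_num)] with g hg
  intro D u X hX hc
  exact ⟨⟨hX, hc.trans hg, fun _ _ => rfl⟩, ⟨Finset.Subset.refl _, fun _ _ => rfl⟩⟩

/-- Proof. `|W i| ≥ g^9999` (`Sel.Wbig`), `|W i| ≤ g^6 |K (G i) u s ∩ W i|` for the pattern s which is
empty on X (`Sel.Wk`, `PatOK_empty`), and `K_sub_A0`. -/
theorem A0_large : ∀ᶠ g : ℕ in atTop, ∀ D : Dat g, Geo D.S → D.Lab →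
    ∀ (G : Fin (nC g) → Finset (Finset (Pt g))) (u : Pl g) (X : Finset (Un g))
      (W : Fin (nC g) → Finset (Pl g)), Sel D G u X W →
    ∀ i, (g : ℝ) ^ 9993 ≤ ((A0 D u X W i).card : ℝ) := by
  filter_upwards [PatOK_empty, eventually_ge_atTop 1] with g h1 h2
  intro D _ _ G u X W hS i
  have hg : (0 : ℝ) < (g : ℝ) := by exact_mod_cast h2
  obtain ⟨hp, ho⟩ := h1 D u X hS.XS hS.Xcard
  have h3 := hS.Wbig i
  have h4 := hS.Wk i _ hp ho
  have h5 : ((D.K (G i) u ⟨X, fun _ => none⟩ ∩ W i).card : ℝ) ≤ ((A0 D u X W i).card : ℝ) := by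
    exact_mod_cast Finset.card_le_card (K_sub_A0 (G i) i ho)
  have h6 : (g : ℝ) ^ 6 * (g : ℝ) ^ 9993 ≤ (g : ℝ) ^ 6 * ((A0 D u X W i).card : ℝ) := by
    rw [← pow_add]
    exact (h3.trans h4).trans (mul_le_mul_of_nonneg_left h5 (by positivity))
  exact le_of_mul_le_mul_left h6 (by positivity)

private theorem dc_EnvA {g : ℕ} (D : Dat g) (A : Finset (Pl g)) (H : Finset (Un g)) :
    ∑ w ∈ A, ((D.S w ∩ H).card : ℝ) =
      ∑ y ∈ H, ((A.filter (fun w => y ∈ D.S w)).card : ℝ) := by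
  have h1 : ∀ w, ((D.S w ∩ H).card : ℝ) = ∑ y ∈ H, (if y ∈ D.S w then (1 : ℝ) else 0) := by
    intro w
    rw [Finset.sum_boole, Finset.inter_comm, Finset.filter_mem_eq_inter]
  have h2 : ∀ y, ((A.filter (fun w => y ∈ D.S w)).card : ℝ) =
      ∑ w ∈ A, (if y ∈ D.S w then (1 : ℝ) else 0) := by
    intro y
    rw [Finset.sum_boole]
  simp only [h1, h2]
  exact Finset.sum_comm

/-- Proof. Let `H = HH i`, `A = A0 i`, `h = |H|`. Double counting: `∑ w ∈ A, |S w ∩ H| = |A| ∑ y ∈ H, q0 i y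
≥ 12 h/g^950 |A|`. Apply `Geo.g5` to the indicator `a` of `H` (`H ⊆ Mu ⊆ kind 0 (S u)`, so at most `g^1050`
units by `Geo.g1`): for all `w` except at most `g^4000` players, `|S w ∩ H| ≤ 4 h/g^950 + g`. For
every `w ∈ A` (`w ≠ u`): `|S w ∩ H| ≤ |kind 0 (S u ∩ S w)| ≤ 2 g^100` (`Geo.g1z`). Hence
`12 h/g^950 |A| ≤ |A| (4 h/g^950 + g) + g^4000 * 2 g^100`, and with `|A| ≥ g^9993` (`A0_large`)
`8 h/g^950 ≤ g + 1`, so `h ≤ g^951`. -/
theorem HH_card : ∀ᶠ g : ℕ in atTop, ∀ D : Dat g, Geo D.S → D.Lab →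
    ∀ (G : Fin (nC g) → Finset (Finset (Pt g))) (u : Pl g) (X : Finset (Un g))
      (W : Fin (nC g) → Finset (Pl g)), Sel D G u X W →
    ∀ i, ((HH D u X W i).card : ℝ) ≤ (g : ℝ) ^ 951 := by
  filter_upwards [A0_large, eventually_ge_atTop 2, ev_pow 2 (show 4100 < 9993 by norm_num)]
    with g hA h2 hpw
  intro D hgeo hlab G u X W hS i
  have hg2 : (2 : ℝ) ≤ (g : ℝ) := by exact_mod_cast h2
  have hg0 : (0 : ℝ) < (g : ℝ) := by linarith
  have hg1 : (1 : ℝ) ≤ (g : ℝ) := by linarith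
  have hAl := hA D hgeo hlab G u X W hS i
  set A := A0 D u X W i with hAdef
  set H := HH D u X W i with hHdef
  have hApos : (0 : ℝ) < (A.card : ℝ) := lt_of_lt_of_le (by positivity) hAl
  have hHM : H ⊆ kind 0 (D.S u) := by
    intro y hy
    rw [hHdef] at hy
    unfold HH at hy
    rw [Finset.mem_filter] at hy
    unfold Dat.Mu at hy
    exact (Finset.mem_sdiff.1 hy.1).1
  have hHc : (H.card : ℝ) ≤ (g : ℝ) ^ 1050 := by
    rw [← hgeo.g1 u 0]
    exact_mod_cast Finset.card_le_card hHM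
  -- lower bound
  have hlow : 12 / (g : ℝ) ^ 950 * (H.card : ℝ) * (A.card : ℝ) ≤
      ∑ w ∈ A, ((D.S w ∩ H).card : ℝ) := by
    rw [dc_EnvA]
    have h3 : ∀ y ∈ H, 12 / (g : ℝ) ^ 950 * (A.card : ℝ) ≤
        ((A.filter (fun w => y ∈ D.S w)).card : ℝ) := by
      intro y hy
      rw [hHdef] at hy
      unfold HH at hy
      rw [Finset.mem_filter] at hy
      have h4 := hy.2
      unfold q0 at h4
      rw [← hAdef, lt_div_iff₀ hApos] at h4
      exact h4.le
    have h5 := Finset.sum_le_sum h3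
    rw [Finset.sum_const, nsmul_eq_mul] at h5
    calc 12 / (g : ℝ) ^ 950 * (H.card : ℝ) * (A.card : ℝ)
        = (H.card : ℝ) * (12 / (g : ℝ) ^ 950 * (A.card : ℝ)) := by ring
      _ ≤ _ := h5
  -- the exceptional players
  set bad : Finset (Pl g) := Finset.univ.filter
    (fun w => 4 * (H.card : ℝ) / (g : ℝ) ^ 950 + g < ((D.S w ∩ H).card : ℝ)) with hbad
  have hbc : (bad.card : ℝ) ≤ (g : ℝ) ^ 4000 := by
    have h3 := hgeo.g5 (fun y => if y ∈ H then 1 else 0) (fun y => by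
      by_cases hy : y ∈ H
      · simp [hy]
      · simp [hy]) (by
      have h4 : num (fun y : Un g => (if y ∈ H then (1 : ℝ) else 0) ≠ 0) = (H.card : ℝ) := by
        unfold num
        congr 2
        ext y
        simp
      rw [h4]
      have h5 : (0 : ℝ) ≤ (g : ℝ) ^ 1050 := by positivity
      linarith)
    have h6 : ∑ y : Un g, (if y ∈ H then (1 : ℝ) else 0) = (H.card : ℝ) := by
      rw [Finset.sum_boole]
      congr 2
      ext y
      simp
    have h7 : ∀ w, ∑ y ∈ D.S w, (if y ∈ H then (1 : ℝ) else 0) = ((D.S w ∩ H).card : ℝ) := by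
      intro w
      rw [Finset.sum_boole, Finset.filter_mem_eq_inter]
    simp only [h6, h7] at h3
    unfold num at h3
    exact h3
  have hup : ∀ w ∈ A, ((D.S w ∩ H).card : ℝ) ≤ 4 * (H.card : ℝ) / (g : ℝ) ^ 950 + g +
      (if w ∈ bad then 2 * (g : ℝ) ^ 100 else 0) := by
    intro w hw
    by_cases hb : w ∈ bad
    · rw [if_pos hb]
      have hwu : w ≠ u := by
        rw [hAdef] at hw
        unfold A0 at hw
        rw [Finset.mem_filter] at hw
        exact hw.2.1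
      have h3 := abs_le.1 (hgeo.g1z u w (Ne.symm hwu) 0)
      have h4 : ((D.S w ∩ H).card : ℝ) ≤ ((kind 0 (D.S u ∩ D.S w)).card : ℝ) := by
        have h5 : D.S w ∩ H ⊆ kind 0 (D.S u ∩ D.S w) := by
          intro y hy
          rw [Finset.mem_inter] at hy
          have h6 := hHM hy.2
          unfold kind at h6 ⊢
          rw [Finset.mem_filter] at h6 ⊢
          exact ⟨Finset.mem_inter.2 ⟨h6.1, hy.1⟩, h6.2⟩
        exact_mod_cast Finset.card_le_card h5
      have h7 : (g : ℝ) ^ 51 ≤ (g : ℝ) ^ 100 := pow_le_pow_right₀ hg1 (by norm_num)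
      have h8 : (0 : ℝ) ≤ 4 * (H.card : ℝ) / (g : ℝ) ^ 950 := by positivity
      linarith [h3.2]
    · rw [if_neg hb, add_zero]
      by_contra hc
      exact hb (Finset.mem_filter.2 ⟨Finset.mem_univ _, not_le.1 hc⟩)
  have hsum := Finset.sum_le_sum hup
  rw [Finset.sum_add_distrib, Finset.sum_const, nsmul_eq_mul, ← Finset.sum_filter,
    Finset.sum_const, nsmul_eq_mul] at hsum
  have hfb : ((A.filter (fun w => w ∈ bad)).card : ℝ) ≤ (g : ℝ) ^ 4000 := by
    refine le_trans ?_ hbc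
    have h3 : A.filter (fun w => w ∈ bad) ⊆ bad := fun w hw => (Finset.mem_filter.1 hw).2
    exact_mod_cast Finset.card_le_card h3
  have hbad2 : ((A.filter (fun w => w ∈ bad)).card : ℝ) * (2 * (g : ℝ) ^ 100) ≤ (A.card : ℝ) := by
    calc ((A.filter (fun w => w ∈ bad)).card : ℝ) * (2 * (g : ℝ) ^ 100)
        ≤ (g : ℝ) ^ 4000 * (2 * (g : ℝ) ^ 100) :=
          mul_le_mul_of_nonneg_right hfb (by positivity)
      _ = 2 * (g : ℝ) ^ 4100 := by
          rw [show (4100 : ℕ) = 4000 + 100 from rfl, pow_add]; ring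
      _ ≤ (g : ℝ) ^ 9993 := hpw
      _ ≤ (A.card : ℝ) := hAl
  have hfin : (12 / (g : ℝ) ^ 950 * (H.card : ℝ)) * (A.card : ℝ) ≤
      (4 * (H.card : ℝ) / (g : ℝ) ^ 950 + g + 1) * (A.card : ℝ) := by
    have h3 := (hlow.trans hsum).trans (add_le_add_right hbad2 _)
    linarith
  have hfin2 := le_of_mul_le_mul_right hfin hApos
  have hP : (0 : ℝ) < (g : ℝ) ^ 950 := by positivity
  have h9 : 12 / (g : ℝ) ^ 950 * (H.card : ℝ) = 12 * ((H.card : ℝ) / (g : ℝ) ^ 950) := by ring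
  have h10 : 4 * (H.card : ℝ) / (g : ℝ) ^ 950 = 4 * ((H.card : ℝ) / (g : ℝ) ^ 950) := by ring
  rw [h9, h10] at hfin2
  have h11 : (H.card : ℝ) / (g : ℝ) ^ 950 ≤ g := by linarith
  rw [div_le_iff₀ hP] at h11
  calc (H.card : ℝ) ≤ (g : ℝ) * (g : ℝ) ^ 950 := h11
    _ = (g : ℝ) ^ 951 := by rw [show (951 : ℕ) = 950 + 1 from rfl, pow_succ]; ring

end Pool.Larman
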