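import Pool.Agent.Larman.EnvDefs

/-! # T4: heavy players and the support of the raise -/

set_option autoImplicit false

open scoped BigOperators Classical

noncomputable section

namespace Pool.Larman

open Filter

/-- Bonferroni inequality -/
theorem bonf {α β : Type} [DecidableEq α] [DecidableEq β] (H : Finset α) (X : Finset β)
    (S : α → Finset β) :
    ∑ w ∈ H, (X ∩ S w).card ≤ X.card + ∑ p ∈ H.offDiag, (X ∩ S p.1 ∩ S p.2).card := by
  have h1 : ∑ w ∈ H, (X ∩ S w).card = ∑ y ∈ X, (H.filter (fun w => y ∈ S w)).card := by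
    have := Finset.sum_card_bipartiteAbove_eq_sum_card_bipartiteBelow (s := H) (t := X)
      (fun w y => y ∈ S w)
    unfold Finset.bipartiteAbove Finset.bipartiteBelow at this
    rw [← this]
    refine Finset.sum_congr rfl (fun w _ => ?_)
    congr 1
  have h2 : ∑ p ∈ H.offDiag, (X ∩ S p.1 ∩ S p.2).card =
      ∑ y ∈ X, (H.offDiag.filter (fun p => y ∈ S p.1 ∧ y ∈ S p.2)).card := by
    have := Finset.sum_card_bipartiteAbove_eq_sum_card_bipartiteBelow (s := H.offDiag) (t := X)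
      (fun p y => y ∈ S p.1 ∧ y ∈ S p.2)
    unfold Finset.bipartiteAbove Finset.bipartiteBelow at this
    rw [← this]
    refine Finset.sum_congr rfl (fun w _ => ?_)
    congr 1
    ext y
    simp [Finset.mem_inter, Finset.mem_filter]
  rw [h1, h2, Finset.card_eq_sum_ones, ← Finset.sum_add_distrib]
  refine Finset.sum_le_sum (fun y _ => ?_)
  have h3 : H.offDiag.filter (fun p => y ∈ S p.1 ∧ y ∈ S p.2) =
      (H.filter (fun w => y ∈ S w)).offDiag := by
    ext p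
    simp only [Finset.mem_filter, Finset.mem_offDiag]
    tauto
  rw [h3, Finset.offDiag_card]
  generalize (H.filter (fun w => y ∈ S w)).card = c
  rcases Nat.eq_zero_or_pos c with h | h
  · omega
  · obtain ⟨m, rfl⟩ : ∃ m, c = m + 1 := ⟨c - 1, by omega⟩
    have : (m + 1) * (m + 1) - (m + 1) = m * (m + 1) := by
      rw [Nat.sub_eq_iff_eq_add (by nlinarith)]; ring
    rw [this]
    nlinarith

theorem qX_le {g : ℕ} (D : Dat g) (u w : Pl g) (X : Finset (Un g)) :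
    D.qX u w X ≤ 2 * ((X ∩ D.S w).card : ℝ) := by
  unfold Dat.qX
  have h : (D.Q u w).filter (fun p => p.1 ∈ X) ⊆ (X ∩ D.S w) ×ˢ (Finset.univ : Finset Bool) := by
    intro p hp
    rw [Finset.mem_filter] at hp
    have h1 : p.1 ∈ D.Z u w := by
      have := hp.1
      unfold Dat.Q at this
      rw [Finset.mem_filter] at this
      exact this.2.1
    rw [Finset.mem_product, Finset.mem_inter]
    unfold Dat.Z at h1
    rw [Finset.mem_inter] at h1
    exact ⟨⟨hp.2, h1.2⟩, Finset.mem_univ _⟩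
  have h2 := Finset.card_le_card h
  rw [Finset.card_product, Finset.card_univ, Fintype.card_bool] at h2
  have h3 : (((D.Q u w).filter (fun p => p.1 ∈ X)).card : ℝ) ≤ ((X ∩ D.S w).card * 2 : ℕ) := by
    exact_mod_cast h2
  refine h3.trans (le_of_eq ?_)
  push_cast
  ring

/-- Few heavy players. -/
theorem heavy_card : ∀ᶠ g : ℕ in atTop, ∀ D : Dat g, Geo D.S → D.Lab →
    ∀ (u : Pl g) (X : Finset (Un g)), X ⊆ D.S u → (X.card : ℝ) ≤ 3 * (g : ℝ) ^ 101 →
    num (fun w => heavy D u X w) ≤ (g : ℝ) ^ 50 := by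
  filter_upwards [eventually_ge_atTop 30] with g hg D hGeo hLab u X hX hXc
  have hg' : (30 : ℝ) ≤ g := by exact_mod_cast hg
  have hg0 : (0 : ℝ) < g := by linarith
  -- each heavy player meets X often
  have key : ∀ w, heavy D u X w → 3 / 32 * (g : ℝ) ^ 53 ≤ ((X ∩ D.S w).card : ℝ) := by
    intro w hw
    have h1 := (abs_le.1 (hLab.l1q u w (Ne.symm hw.1))).1
    have h2 := hw.2
    have h3 := qX_le D u w X
    have h4 : 3 * (g : ℝ) ^ 96 ≤ ((D.Q u w).card : ℝ) := by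
      have : (g : ℝ) ^ 95 ≤ (g : ℝ) ^ 96 := pow_le_pow_right₀ (by linarith) (by norm_num)
      linarith
    have h5 : 3 * (g : ℝ) ^ 96 ≤ 32 * (g : ℝ) ^ 43 * ((X ∩ D.S w).card : ℝ) := by
      have : 16 * (g : ℝ) ^ 43 * D.qX u w X ≤ 16 * (g : ℝ) ^ 43 * (2 * ((X ∩ D.S w).card : ℝ)) :=
        mul_le_mul_of_nonneg_left h3 (by positivity)
      nlinarith
    have h6 : (g : ℝ) ^ 43 * (3 * (g : ℝ) ^ 53) ≤ (g : ℝ) ^ 43 * (32 * ((X ∩ D.S w).card : ℝ)) := by
      have e : (g : ℝ) ^ 96 = (g : ℝ) ^ 43 * (g : ℝ) ^ 53 := by rw [← pow_add]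
      rw [e] at h5
      linarith
    have h7 := le_of_mul_le_mul_left h6 (by positivity)
    linarith
  by_contra hc
  push Not at hc
  have hc' : g ^ 50 ≤ (Finset.univ.filter (fun w => heavy D u X w)).card := by
    have : ((g ^ 50 : ℕ) : ℝ) < ((Finset.univ.filter (fun w => heavy D u X w)).card : ℝ) := by
      push_cast
      exact hc
    exact le_of_lt (by exact_mod_cast this)
  obtain ⟨H, hH, hHc⟩ := Finset.exists_subset_card_eq hc'
  have hHv : ∀ w ∈ H, heavy D u X w := fun w hw => (Finset.mem_filter.1 (hH hw)).2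
  have hb := bonf H X D.S
  have h1 : (3 / 32 * (g : ℝ) ^ 53) * (g : ℝ) ^ 50 ≤ ((∑ w ∈ H, (X ∩ D.S w).card : ℕ) : ℝ) := by
    push_cast
    calc (3 / 32 * (g : ℝ) ^ 53) * (g : ℝ) ^ 50 = ∑ w ∈ H, (3 / 32 * (g : ℝ) ^ 53) := by
          rw [Finset.sum_const, hHc, nsmul_eq_mul]
          push_cast
          ring
      _ ≤ _ := Finset.sum_le_sum (fun w hw => key w (hHv w hw))
  have h2 : ∑ p ∈ H.offDiag, (X ∩ D.S p.1 ∩ D.S p.2).card ≤ (g ^ 50 * g ^ 50) * 50 := by
    calc ∑ p ∈ H.offDiag, (X ∩ D.S p.1 ∩ D.S p.2).card ≤ ∑ p ∈ H.offDiag, 50 := by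
          refine Finset.sum_le_sum (fun p hp => ?_)
          rw [Finset.mem_offDiag] at hp
          have h3 := hGeo.g2 u p.1 p.2 (Ne.symm (hHv p.1 hp.1).1) (Ne.symm (hHv p.2 hp.2.1).1)
            hp.2.2
          refine le_trans (Finset.card_le_card ?_) h3
          intro y hy
          rw [Finset.mem_inter, Finset.mem_inter] at hy ⊢
          exact ⟨⟨hX hy.1.1, hy.1.2⟩, hy.2⟩
      _ = H.offDiag.card * 50 := by rw [Finset.sum_const, smul_eq_mul]
      _ ≤ (g ^ 50 * g ^ 50) * 50 := by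
          refine Nat.mul_le_mul_right _ ?_
          rw [Finset.offDiag_card, hHc]
          exact Nat.sub_le _ _
  have h3 : ((∑ w ∈ H, (X ∩ D.S w).card : ℕ) : ℝ) ≤ 3 * (g : ℝ) ^ 101 + 50 * (g : ℝ) ^ 100 := by
    have h4 : ((∑ w ∈ H, (X ∩ D.S w).card : ℕ) : ℝ) ≤
        ((X.card + (g ^ 50 * g ^ 50) * 50 : ℕ) : ℝ) := by exact_mod_cast hb.trans (Nat.add_le_add_left h2 _)
    refine h4.trans ?_
    push_cast
    have e : (g : ℝ) ^ 50 * (g : ℝ) ^ 50 = (g : ℝ) ^ 100 := by rw [← pow_add]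
    rw [e]
    linarith
  have h4 := h1.trans h3
  have e1 : (3 / 32 * (g : ℝ) ^ 53) * (g : ℝ) ^ 50 = (g : ℝ) ^ 100 * (3 / 32 * (g : ℝ) ^ 3) := by
    have : (g : ℝ) ^ 53 * (g : ℝ) ^ 50 = (g : ℝ) ^ 100 * (g : ℝ) ^ 3 := by
      rw [← pow_add, ← pow_add]
    linear_combination (3 / 32) * this
  have e2 : 3 * (g : ℝ) ^ 101 + 50 * (g : ℝ) ^ 100 = (g : ℝ) ^ 100 * (3 * g + 50) := by
    rw [pow_succ]; ring
  rw [e1, e2] at h4
  have h5 := le_of_mul_le_mul_left h4 (by positivity)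
  nlinarith [mul_pos hg0 hg0, mul_le_mul_of_nonneg_left hg' (mul_pos hg0 hg0).le]

/-- The raise has a small support. -/
theorem rs_supp : ∀ᶠ g : ℕ in atTop, ∀ D : Dat g, Geo D.S → D.Lab →
    ∀ (u : Pl g) (X : Finset (Un g)), X ⊆ D.S u → (X.card : ℝ) ≤ 3 * (g : ℝ) ^ 101 →
    num (fun y => rs D u X y ≠ 0) ≤ (g : ℝ) ^ 152 := by
  filter_upwards [heavy_card, eventually_ge_atTop 2] with g hv hg D hGeo hLab u X hX hXc
  have hg' : (2 : ℝ) ≤ g := by exact_mod_cast hg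
  have h0 := hv D hGeo hLab u X hX hXc
  unfold num at h0 ⊢
  set Hv := Finset.univ.filter (fun w => heavy D u X w) with hHv
  refine (Nat.cast_le.mpr (Finset.card_le_card
    (t := Hv.biUnion (fun w => kind 0 (D.S u ∩ D.S w))) ?_)).trans ?_
  · intro y hy
    have h1 : rs D u X y ≠ 0 := (@Finset.mem_filter _ (fun y => rs D u X y ≠ 0)
      (fun a => Classical.propDecidable _) _ _).1 hy |>.2
    unfold rs at h1
    by_cases h2 : y.1 = 0 ∧ ∃ w, heavy D u X w ∧ (y, true) ∈ D.Q u w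
    · obtain ⟨h3, w, h4, h5⟩ := h2
      rw [Finset.mem_biUnion]
      refine ⟨w, by rw [hHv, Finset.mem_filter]; exact ⟨Finset.mem_univ _, h4⟩, ?_⟩
      unfold kind
      rw [Finset.mem_filter]
      refine ⟨?_, h3⟩
      unfold Dat.Q at h5
      rw [Finset.mem_filter] at h5
      exact h5.2.1
    · rw [if_neg h2] at h1
      exact absurd rfl h1
  calc ((Hv.biUnion (fun w => kind 0 (D.S u ∩ D.S w))).card : ℝ)
      ≤ ((∑ w ∈ Hv, (kind 0 (D.S u ∩ D.S w)).card : ℕ) : ℝ) := by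
        exact_mod_cast Finset.card_biUnion_le
    _ = ∑ w ∈ Hv, ((kind 0 (D.S u ∩ D.S w)).card : ℝ) := by push_cast; rfl
    _ ≤ ∑ w ∈ Hv, (2 * (g : ℝ) ^ 100) := by
        refine Finset.sum_le_sum (fun w hw => ?_)
        have h1 : heavy D u X w := by
          rw [hHv, Finset.mem_filter] at hw
          exact hw.2
        have h2 := (abs_le.1 (hGeo.g1z u w (Ne.symm h1.1) 0)).2
        have h3 : (g : ℝ) ^ 51 ≤ (g : ℝ) ^ 100 := pow_le_pow_right₀ (by linarith) (by norm_num)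
        linarith
    _ = (Hv.card : ℝ) * (2 * (g : ℝ) ^ 100) := by rw [Finset.sum_const, nsmul_eq_mul]
    _ ≤ (g : ℝ) ^ 50 * (2 * (g : ℝ) ^ 100) := mul_le_mul_of_nonneg_right h0 (by positivity)
    _ ≤ (g : ℝ) ^ 50 * (g ^ 2 * (g : ℝ) ^ 100) := by
        have : (2 : ℝ) ≤ (g : ℝ) ^ 2 := by nlinarith
        gcongr
    _ = (g : ℝ) ^ 152 := by rw [← pow_add, ← pow_add]

end Pool.Larman
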