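import Pool.Agent.Larman.EnvDefs

/-! # T4: entries and row sums of the pair weight -/

set_option autoImplicit false

open scoped BigOperators Classical

noncomputable section

namespace Pool.Larman

open Filter

private theorem EnvRow_q0_le {g : ℕ} {D : Dat g} {u : Pl g} {X : Finset (Un g)}
    {W : Fin (nC g) → Finset (Pl g)} {i : Fin (nC g)} {y : Un g} (hy : y ∈ D.Mu u X)
    (h : y ∉ HH D u X W i) : q0 D u X W i y ≤ 12 / (g : ℝ) ^ 950 := by
  unfold HH at h
  rw [Finset.mem_filter, not_and, not_lt] at h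
  exact h hy

private theorem EnvRow_hard_card {g : ℕ} {D : Dat g} {G : Fin (nC g) → Finset (Finset (Pt g))}
    {u : Pl g} {X : Finset (Un g)} {W : Fin (nC g) → Finset (Pl g)} (hS : Sel D G u X W) :
    ((Finset.univ.filter (fun i => hard W i)).card : ℝ) ≤ (g : ℝ) ^ 977 := hS.few

private theorem EnvRow_sum_card {g : ℕ} {D : Dat g} (hG : Geo D.S) (u : Pl g) (X : Finset (Un g))
    (A : Finset (Pl g)) (hA : ∀ w ∈ A, w ≠ u) :
    ∑ y' ∈ D.Mu u X, ((A.filter (fun w => y' ∈ D.S w)).card : ℝ) ≤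
      A.card * ((g : ℝ) ^ 100 + (g : ℝ) ^ 51) := by
  have h1 : ∑ y' ∈ D.Mu u X, ((A.filter (fun w => y' ∈ D.S w)).card : ℝ) =
      ∑ w ∈ A, (((D.Mu u X).filter (fun y' => y' ∈ D.S w)).card : ℝ) := by
    simp only [Finset.card_filter]
    push_cast
    rw [Finset.sum_comm]
  rw [h1, ← nsmul_eq_mul]
  refine Finset.sum_le_card_nsmul _ _ _ (fun w hw => ?_)
  have h2 : (D.Mu u X).filter (fun y' => y' ∈ D.S w) ⊆ kind 0 (D.S u ∩ D.S w) := by
    intro y hy
    rw [Finset.mem_filter] at hy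
    have h3 := hy.1
    unfold Dat.Mu kind at h3
    rw [Finset.mem_sdiff, Finset.mem_filter] at h3
    unfold kind
    rw [Finset.mem_filter, Finset.mem_inter]
    exact ⟨⟨h3.1.1, hy.2⟩, h3.1.2⟩
  have h3 : (((D.Mu u X).filter (fun y' => y' ∈ D.S w)).card : ℝ) ≤
      ((kind 0 (D.S u ∩ D.S w)).card : ℝ) := by exact_mod_cast Finset.card_le_card h2
  have h4 := (abs_le.mp (hG.g1z u w (hA w hw).symm 0)).2
  linarith

private theorem EnvRow_sum_q0 {g : ℕ} {D : Dat g} (hG : Geo D.S) (u : Pl g) (X : Finset (Un g))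
    (W : Fin (nC g) → Finset (Pl g)) (i : Fin (nC g)) :
    ∑ y' ∈ D.Mu u X, q0 D u X W i y' ≤ (g : ℝ) ^ 100 + (g : ℝ) ^ 51 := by
  have h0 : (0 : ℝ) ≤ (g : ℝ) ^ 100 + (g : ℝ) ^ 51 := by positivity
  have hA : ∀ w ∈ A0 D u X W i, w ≠ u := fun w hw => by
    unfold A0 at hw
    exact (Finset.mem_filter.mp hw).2.1
  unfold q0
  rw [← Finset.sum_div]
  refine div_le_of_le_mul₀ (Nat.cast_nonneg _) h0 ?_
  rw [mul_comm]
  exact EnvRow_sum_card hG u X _ hA

private theorem EnvRow_sum_q02 {g : ℕ} {D : Dat g} (hG : Geo D.S) (u : Pl g) (X : Finset (Un g))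
    (W : Fin (nC g) → Finset (Pl g)) (i : Fin (nC g)) (y : Un g) :
    ∑ y' ∈ D.Mu u X, q02 D u X W i y y' ≤
      q0 D u X W i y * ((g : ℝ) ^ 100 + (g : ℝ) ^ 51) := by
  have hA : ∀ w ∈ (A0 D u X W i).filter (fun w => y ∈ D.S w), w ≠ u := fun w hw => by
    unfold A0 at hw
    exact (Finset.mem_filter.mp (Finset.mem_filter.mp hw).1).2.1
  have h1 := EnvRow_sum_card hG u X _ hA
  unfold q02 q0
  rw [← Finset.sum_div, div_mul_eq_mul_div]
  refine div_le_div_of_nonneg_right ?_ (Nat.cast_nonneg _)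
  refine le_trans (le_of_eq ?_) h1
  refine Finset.sum_congr rfl (fun y' _ => ?_)
  rw [Finset.filter_filter]

/-- Proof. Let `y, y' ∈ Mu`, `y ≠ y'` (otherwise `Gm = 0`). For a hard `i` with `y, y' ∉ HH i`:
`q0 i y ≤ 12/g^950` and `q0 i y' ≤ 12/g^950` (definition of `HH`), `q02 i y y' ≤ q0 i y` (`q02_le`), so
`q02 + 3 q0 q0' ≤ 12/g^950 + 432/g^1900 ≤ 13/g^950`. There are at most `g^977` hard classes (`Sel.few`):
`Gm y y' ≤ g^9 g^977 13/g^950 = 13 g^36`. -/
theorem Gm_le : ∀ᶠ g : ℕ in atTop, ∀ D : Dat g, Geo D.S → D.Lab →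
    ∀ (G : Fin (nC g) → Finset (Finset (Pt g))) (u : Pl g) (X : Finset (Un g))
      (W : Fin (nC g) → Finset (Pl g)), Sel D G u X W →
    ∀ y y', Gm D u X W y y' ≤ 13 * (g : ℝ) ^ 36 := by
  filter_upwards [eventually_ge_atTop 432] with g hg
  intro D hG hL G u X W hS y y'
  have hg0 : (432 : ℝ) ≤ g := by exact_mod_cast hg
  have hg1 : (1 : ℝ) ≤ g := by linarith
  have hgp : (0 : ℝ) < g := by linarith
  have hp : (432 : ℝ) ≤ (g : ℝ) ^ 950 := hg0.trans (le_self_pow₀ hg1 (by norm_num))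
  have hpp : (0 : ℝ) < (g : ℝ) ^ 950 := by positivity
  unfold Gm
  split_ifs with h
  · have h1 : ∑ i ∈ Finset.univ.filter (fun i => hard W i),
        (if y ∉ HH D u X W i ∧ y' ∉ HH D u X W i then
          q02 D u X W i y y' + 3 * q0 D u X W i y * q0 D u X W i y' else 0) ≤
        (Finset.univ.filter (fun i => hard W i)).card • (13 / (g : ℝ) ^ 950) := by
      refine Finset.sum_le_card_nsmul _ _ _ (fun i _ => ?_)
      split_ifs with h2
      · have e1 := EnvRow_q0_le h.1 h2.1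
        have e2 := EnvRow_q0_le h.2.1 h2.2
        have e3 := q02_le (D := D) (u := u) (X := X) (W := W) i y y'
        have e4 := q0_nonneg (D := D) (u := u) (X := X) (W := W) i y
        have e5 := q0_nonneg (D := D) (u := u) (X := X) (W := W) i y'
        have e6 : q0 D u X W i y * q0 D u X W i y' ≤
            12 / (g : ℝ) ^ 950 * (12 / (g : ℝ) ^ 950) :=
          mul_le_mul e1 e2 e5 (by positivity)
        have e7 : 3 * (12 / (g : ℝ) ^ 950 * (12 / (g : ℝ) ^ 950)) ≤ 1 / (g : ℝ) ^ 950 := by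
          rw [div_mul_div_comm, mul_div_assoc', div_le_div_iff₀ (by positivity) hpp]
          nlinarith
        have e8 : 13 / (g : ℝ) ^ 950 = 12 / (g : ℝ) ^ 950 + 1 / (g : ℝ) ^ 950 := by
          rw [← add_div]
          norm_num
        rw [e8]
        nlinarith
      · positivity
    rw [nsmul_eq_mul] at h1
    have h2 := EnvRow_hard_card hS
    calc (g : ℝ) ^ 9 * _ ≤ (g : ℝ) ^ 9 * ((g : ℝ) ^ 977 * (13 / (g : ℝ) ^ 950)) := by
          refine mul_le_mul_of_nonneg_left (h1.trans ?_) (by positivity)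
          exact mul_le_mul_of_nonneg_right h2 (by positivity)
      _ = 13 * (g : ℝ) ^ 36 := by
          have h3 : (g : ℝ) ^ 977 = (g : ℝ) ^ 27 * (g : ℝ) ^ 950 := by rw [← pow_add]
          rw [h3]
          field_simp
          try ring
  · positivity

/-- Proof. Let `y ∈ Mu` (otherwise the sum is 0). For every hard `i` with `y ∉ HH i`, `q0 i y ≤ 12/g^950`
and
`∑ y' ∈ Mu, q02 i y y' = (∑ w ∈ A0 i with y ∈ S w, |Mu ∩ S w|)/|A0 i| ≤ q0 i y (g^100 + g^51)`, since
`Mu ∩ S w ⊆ kind 0 (S u ∩ S w)` and `w ≠ u` (`Geo.g1z`); in the same way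
`∑ y' ∈ Mu, q0 i y' ≤ g^100 + g^51`. So `∑ y', Gm y y' ≤ g^9 g^977 * 4 * (12/g^950) (g^100 + g^51) =
48 g^36 (g^100 + g^51) ≤ 60 g^136` (`Sel.few`). -/
theorem Gm_row : ∀ᶠ g : ℕ in atTop, ∀ D : Dat g, Geo D.S → D.Lab →
    ∀ (G : Fin (nC g) → Finset (Finset (Pt g))) (u : Pl g) (X : Finset (Un g))
      (W : Fin (nC g) → Finset (Pl g)), Sel D G u X W →
    ∀ y, ∑ y', Gm D u X W y y' ≤ 60 * (g : ℝ) ^ 136 := by
  filter_upwards [eventually_ge_atTop 432] with g hg
  intro D hG hL G u X W hS y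
  have hg0 : (432 : ℝ) ≤ g := by exact_mod_cast hg
  have hg1 : (1 : ℝ) ≤ g := by linarith
  have hgp : (0 : ℝ) < g := by linarith
  have hpp : (0 : ℝ) < (g : ℝ) ^ 950 := by positivity
  by_cases hy : y ∈ D.Mu u X
  · set c : ℝ := (g : ℝ) ^ 100 + (g : ℝ) ^ 51 with hc
    have hc0 : 0 ≤ c := by positivity
    -- the terms
    have h1 : ∀ y', Gm D u X W y y' ≤ if y' ∈ D.Mu u X then
        (g : ℝ) ^ 9 * ∑ i ∈ Finset.univ.filter (fun i => hard W i),
          (if y ∉ HH D u X W i then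
            q02 D u X W i y y' + 3 * q0 D u X W i y * q0 D u X W i y' else 0) else 0 := by
      intro y'
      by_cases hy' : y' ∈ D.Mu u X
      · rw [if_pos hy']
        have hnn : ∀ i, 0 ≤ q02 D u X W i y y' + 3 * q0 D u X W i y * q0 D u X W i y' := by
          intro i
          have e1 := q02_nonneg (D := D) (u := u) (X := X) (W := W) i y y'
          have e4 := q0_nonneg (D := D) (u := u) (X := X) (W := W) i y
          have e5 := q0_nonneg (D := D) (u := u) (X := X) (W := W) i y'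
          positivity
        unfold Gm
        split_ifs with h2
        · refine mul_le_mul_of_nonneg_left (Finset.sum_le_sum (fun i _ => ?_)) (by positivity)
          by_cases h3 : y ∉ HH D u X W i ∧ y' ∉ HH D u X W i
          · rw [if_pos h3, if_pos h3.1]
          · rw [if_neg h3]
            split_ifs <;> first | exact hnn i | exact le_refl _
        · refine mul_nonneg (by positivity) (Finset.sum_nonneg (fun i _ => ?_))
          split_ifs <;> first | exact hnn i | exact le_refl _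
      · rw [if_neg hy']
        unfold Gm
        rw [if_neg (fun h => hy' h.2.1)]
    have h2 : ∑ y', (if y' ∈ D.Mu u X then
        (g : ℝ) ^ 9 * ∑ i ∈ Finset.univ.filter (fun i => hard W i),
          (if y ∉ HH D u X W i then
            q02 D u X W i y y' + 3 * q0 D u X W i y * q0 D u X W i y' else 0) else 0) =
        (g : ℝ) ^ 9 * ∑ i ∈ Finset.univ.filter (fun i => hard W i),
          ∑ y' ∈ D.Mu u X, (if y ∉ HH D u X W i then
            q02 D u X W i y y' + 3 * q0 D u X W i y * q0 D u X W i y' else 0) := by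
      rw [Finset.sum_ite_mem, Finset.univ_inter, ← Finset.mul_sum, Finset.sum_comm]
    have h3 : ∀ i, ∑ y' ∈ D.Mu u X, (if y ∉ HH D u X W i then
            q02 D u X W i y y' + 3 * q0 D u X W i y * q0 D u X W i y' else 0) ≤
            48 / (g : ℝ) ^ 950 * c := by
      intro i
      by_cases h4 : y ∉ HH D u X W i
      · simp only [if_pos h4]
        rw [Finset.sum_add_distrib, ← Finset.mul_sum]
        have e1 := EnvRow_q0_le hy h4
        have e2 := EnvRow_sum_q02 hG u X W i y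
        have e3 := EnvRow_sum_q0 hG u X W i
        have e4 := q0_nonneg (D := D) (u := u) (X := X) (W := W) i y
        have e5 : q0 D u X W i y * c ≤ 12 / (g : ℝ) ^ 950 * c :=
          mul_le_mul_of_nonneg_right e1 hc0
        have e6 : 3 * q0 D u X W i y * ∑ y' ∈ D.Mu u X, q0 D u X W i y' ≤
            3 * q0 D u X W i y * c := mul_le_mul_of_nonneg_left e3 (by positivity)
        have e7 : 48 / (g : ℝ) ^ 950 * c = 4 * (12 / (g : ℝ) ^ 950 * c) := by ring
        rw [e7]
        linarith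
      · simp only [if_neg h4, Finset.sum_const_zero]
        positivity
    have h5 : ∑ i ∈ Finset.univ.filter (fun i => hard W i),
          ∑ y' ∈ D.Mu u X, (if y ∉ HH D u X W i then
            q02 D u X W i y y' + 3 * q0 D u X W i y * q0 D u X W i y' else 0) ≤
          (Finset.univ.filter (fun i => hard W i)).card • (48 / (g : ℝ) ^ 950 * c) :=
      Finset.sum_le_card_nsmul _ _ _ (fun i _ => h3 i)
    rw [nsmul_eq_mul] at h5
    have h6 := EnvRow_hard_card hS
    have h7 : (g : ℝ) ^ 51 ≤ (g : ℝ) ^ 100 / 4 := by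
      have e1 : (g : ℝ) ^ 100 = (g : ℝ) ^ 51 * (g : ℝ) ^ 49 := by rw [← pow_add]
      have e2 : (4 : ℝ) ≤ (g : ℝ) ^ 49 :=
        (by linarith : (4 : ℝ) ≤ g).trans (le_self_pow₀ hg1 (by norm_num))
      have e3 : (0 : ℝ) < (g : ℝ) ^ 51 := by positivity
      rw [e1]
      nlinarith
    calc ∑ y', Gm D u X W y y' ≤ _ := Finset.sum_le_sum (fun y' _ => h1 y')
      _ = _ := h2
      _ ≤ (g : ℝ) ^ 9 * ((g : ℝ) ^ 977 * (48 / (g : ℝ) ^ 950 * c)) := by
          refine mul_le_mul_of_nonneg_left (h5.trans ?_) (by positivity)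
          exact mul_le_mul_of_nonneg_right h6 (by positivity)
      _ = 48 * (g : ℝ) ^ 36 * c := by
          have h3 : (g : ℝ) ^ 977 = (g : ℝ) ^ 27 * (g : ℝ) ^ 950 := by rw [← pow_add]
          rw [h3]
          field_simp
          try ring
      _ ≤ 48 * (g : ℝ) ^ 36 * (5 / 4 * (g : ℝ) ^ 100) := by
          refine mul_le_mul_of_nonneg_left ?_ (by positivity)
          rw [hc]
          linarith
      _ = 60 * (g : ℝ) ^ 136 := by
          have h3 : (g : ℝ) ^ 136 = (g : ℝ) ^ 36 * (g : ℝ) ^ 100 := by rw [← pow_add]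
          rw [h3]
          ring
  · have h1 : ∀ y', Gm D u X W y y' = 0 := by
      intro y'
      unfold Gm
      rw [if_neg (fun h => hy h.1)]
    rw [Finset.sum_congr rfl (fun y' _ => h1 y'), Finset.sum_const_zero]
    positivity

end Pool.Larman
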