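import Pool.Agent.Larman.EnvDefs
import Pool.Agent.Larman.EnvRow

/-! # T4: pair weights of players -/

set_option autoImplicit false

open scoped BigOperators Classical

noncomputable section

namespace Pool.Larman

open Filter

/-- Proof. `Geo.g6` for `G' y y' = Gm y y'/(13 g^36)`: values in [0, 1] (`Gm_nonneg`, `Gm_le`), zero on the
diagonal (`Gm_diag`), supported on `Mu` (`Gm_supp`), which has at most `g^1050` units (`Geo.g1`; `Mu ⊆
kind 0 (S u)`), row and column sums at most `60 g^136/(13 g^36) ≤ 5 g^100` (`Gm_row`, `Gm_symm`). So for all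
`w` except `g^4000` players `∑ y ∈ S w, ∑ y' ∈ S w, Gm y y' ≤ 13 g^36 g^30 ≤ g^67` (g ≥ 13), and
`GGm (Z u w) (Z u w)` is at most this sum (`Z u w ⊆ S w`, `Gm ≥ 0`). -/
theorem GG_self : ∀ᶠ g : ℕ in atTop, ∀ D : Dat g, Geo D.S → D.Lab →
    ∀ (G : Fin (nC g) → Finset (Finset (Pt g))) (u : Pl g) (X : Finset (Un g))
      (W : Fin (nC g) → Finset (Pl g)), Sel D G u X W →
    num (fun w => (g : ℝ) ^ 67 < GGm D u X W (D.Z u w) (D.Z u w)) ≤ (g : ℝ) ^ 4000 := by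
  filter_upwards [Gm_le, Gm_row, eventually_ge_atTop 13] with g hle hrow h13
  intro D hgeo hlab G u X W hS
  have hg13 : (13 : ℝ) ≤ (g : ℝ) := by exact_mod_cast h13
  have hg0 : (0 : ℝ) < (g : ℝ) := by linarith
  have hc0 : (0 : ℝ) < 13 * (g : ℝ) ^ 36 := by positivity
  have hle' := hle D hgeo hlab G u X W hS
  have hrow' := hrow D hgeo hlab G u X W hS
  have hkind : D.Mu u X ⊆ kind 0 (D.S u) := by
    unfold Dat.Mu
    exact Finset.sdiff_subset
  have hMc : ((D.Mu u X).card : ℝ) ≤ 3 * (g : ℝ) ^ 1050 := by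
    have h1 : ((D.Mu u X).card : ℝ) ≤ ((kind 0 (D.S u)).card : ℝ) := by
      exact_mod_cast Finset.card_le_card hkind
    rw [hgeo.g1 u 0] at h1
    have h2 : (0 : ℝ) ≤ (g : ℝ) ^ 1050 := by positivity
    linarith
  have hr : 60 * (g : ℝ) ^ 136 / (13 * (g : ℝ) ^ 36) ≤ 5 * (g : ℝ) ^ 100 := by
    rw [div_le_iff₀ hc0]
    have h1 : 5 * (g : ℝ) ^ 100 * (13 * (g : ℝ) ^ 36) = 65 * (g : ℝ) ^ 136 := by
      rw [show (136 : ℕ) = 100 + 36 from rfl, pow_add]
      ring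
    rw [h1]
    have h2 : (0 : ℝ) ≤ (g : ℝ) ^ 136 := by positivity
    linarith
  have hrow2 : ∀ y, ∑ y', Gm D u X W y y' / (13 * (g : ℝ) ^ 36) ≤ 5 * (g : ℝ) ^ 100 := by
    intro y
    rw [← Finset.sum_div]
    exact (div_le_div_of_nonneg_right (hrow' y) hc0.le).trans hr
  have hsupp : ∀ y y', Gm D u X W y y' / (13 * (g : ℝ) ^ 36) ≠ 0 →
      y ∈ D.Mu u X ∧ y' ∈ D.Mu u X := by
    intro y y' h
    refine Gm_supp (W := W) (fun h0 => h ?_)
    rw [h0, zero_div]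
  have h6 := hgeo.g6 (fun y y' => Gm D u X W y y' / (13 * (g : ℝ) ^ 36))
    (fun y y' => ⟨div_nonneg (Gm_nonneg y y') hc0.le, (div_le_one hc0).2 (hle' y y')⟩)
    (fun y => by simp only [Gm_diag, zero_div])
    ⟨D.Mu u X, hMc, hsupp⟩
    hrow2
    (fun y' => by
      have h7 : ∀ y, Gm D u X W y y' / (13 * (g : ℝ) ^ 36) =
          Gm D u X W y' y / (13 * (g : ℝ) ^ 36) := fun y => by rw [Gm_symm]
      simp only [h7]
      exact hrow2 y')
  refine le_trans ?_ h6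
  unfold num
  have hsub : (Finset.univ.filter (fun w => (g : ℝ) ^ 67 < GGm D u X W (D.Z u w) (D.Z u w))) ⊆
      Finset.univ.filter (fun w => (g : ℝ) ^ 30 <
        ∑ y ∈ D.S w, ∑ y' ∈ D.S w, Gm D u X W y y' / (13 * (g : ℝ) ^ 36)) := by
    intro w hw
    rw [Finset.mem_filter] at hw ⊢
    refine ⟨Finset.mem_univ _, ?_⟩
    have hZ : D.Z u w ⊆ D.S w := by
      unfold Dat.Z
      exact Finset.inter_subset_right
    have h8 : GGm D u X W (D.Z u w) (D.Z u w) ≤ ∑ y ∈ D.S w, ∑ y' ∈ D.S w, Gm D u X W y y' := by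
      unfold GGm
      calc ∑ y ∈ D.Z u w, ∑ y' ∈ D.Z u w, Gm D u X W y y'
          ≤ ∑ y ∈ D.Z u w, ∑ y' ∈ D.S w, Gm D u X W y y' :=
            Finset.sum_le_sum (fun y _ => Finset.sum_le_sum_of_subset_of_nonneg hZ
              (fun y' _ _ => Gm_nonneg y y'))
        _ ≤ _ := Finset.sum_le_sum_of_subset_of_nonneg hZ
              (fun y _ _ => Finset.sum_nonneg (fun y' _ => Gm_nonneg y y'))
    have h9 : ∑ y ∈ D.S w, ∑ y' ∈ D.S w, Gm D u X W y y' / (13 * (g : ℝ) ^ 36) =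
        (∑ y ∈ D.S w, ∑ y' ∈ D.S w, Gm D u X W y y') / (13 * (g : ℝ) ^ 36) := by
      rw [Finset.sum_div]
      exact Finset.sum_congr rfl (fun y _ => (Finset.sum_div _ _ _).symm)
    rw [h9, lt_div_iff₀ hc0]
    have h10 : (g : ℝ) ^ 30 * (13 * (g : ℝ) ^ 36) ≤ (g : ℝ) ^ 67 := by
      have h11 : (g : ℝ) ^ 30 * (13 * (g : ℝ) ^ 36) = 13 * (g : ℝ) ^ 66 := by
        rw [show (66 : ℕ) = 30 + 36 from rfl, pow_add]
        ring
      have h12 : (g : ℝ) ^ 67 = (g : ℝ) * (g : ℝ) ^ 66 := by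
        rw [show (67 : ℕ) = 66 + 1 from rfl, pow_succ]
        ring
      rw [h11, h12]
      exact mul_le_mul_of_nonneg_right hg13 (by positivity)
    exact (h10.trans_lt hw.2).trans_le h8
  exact_mod_cast Finset.card_le_card hsub


end Pool.Larman
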