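import Pool.Agent.Larman.EnvDefs
import Pool.Agent.Larman.EnvA
import Pool.Agent.Larman.EnvPair
import Pool.Agent.Larman.EnvHv

/-! # T4: few irregular players -/

set_option autoImplicit false

open scoped BigOperators Classical

noncomputable section

namespace Pool.Larman

open Filter

private theorem xm_num {α : Type} [Fintype α] (P : α → Prop) [DecidablePred P] :
    num P = ((Finset.univ.filter P).card : ℝ) := by
  unfold num
  congr!

private theorem xm_mono {α : Type} [Fintype α] {P Q : α → Prop} (h : ∀ x, P x → Q x) :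
    num P ≤ num Q := by
  unfold num
  have h1 : Finset.univ.filter P ⊆ Finset.univ.filter Q := fun x hx =>
    Finset.mem_filter.2 ⟨Finset.mem_univ _, h x (Finset.mem_filter.1 hx).2⟩
  exact_mod_cast Finset.card_le_card h1

private theorem xm_or {α : Type} [Fintype α] (P Q : α → Prop) :
    num (fun x => P x ∨ Q x) ≤ num P + num Q := by
  rw [xm_num P, xm_num Q, xm_num, Finset.filter_or]
  exact_mod_cast Finset.card_union_le _ _

private theorem xm_exists {α β : Type} [Fintype α] (I : Finset β) (P : β → α → Prop) {c : ℝ}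
    (h : ∀ i ∈ I, num (P i) ≤ c) : num (fun x => ∃ i ∈ I, P i x) ≤ (I.card : ℝ) * c := by
  have h1 : Finset.univ.filter (fun x => ∃ i ∈ I, P i x) ⊆
      I.biUnion (fun i => Finset.univ.filter (P i)) := by
    intro x hx
    obtain ⟨i, hi, hp⟩ := (Finset.mem_filter.1 hx).2
    exact Finset.mem_biUnion.2 ⟨i, hi, Finset.mem_filter.2 ⟨Finset.mem_univ _, hp⟩⟩
  have h2 : num (fun x => ∃ i ∈ I, P i x) ≤ ∑ i ∈ I, num (P i) := by
    have h3 := (Finset.card_le_card h1).trans Finset.card_biUnion_le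
    have h4 : ∑ i ∈ I, num (P i) = ((∑ i ∈ I, (Finset.univ.filter (P i)).card : ℕ) : ℝ) := by
      push_cast
      exact Finset.sum_congr rfl fun i _ => xm_num (P i)
    rw [h4, xm_num]
    exact_mod_cast h3
  refine h2.trans ?_
  calc ∑ i ∈ I, num (P i) ≤ ∑ _i ∈ I, c := Finset.sum_le_sum h
    _ = (I.card : ℝ) * c := by rw [Finset.sum_const, nsmul_eq_mul]

/-- `Geo.g5` for the indicator of a set of units. -/
private theorem xm_g5 {g : ℕ} {D : Dat g} (hgeo : Geo D.S) (u : Pl g) (H : Finset (Un g))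
    (hH : (H.card : ℝ) ≤ 3 * (g : ℝ) ^ 1050) (T : ℝ)
    (hT : 4 * (H.card : ℝ) / (g : ℝ) ^ 950 + g ≤ T) :
    num (fun w => T < ((D.Z u w ∩ H).card : ℝ)) ≤ (g : ℝ) ^ 4000 := by
  have h3 := hgeo.g5 (fun y => if y ∈ H then 1 else 0) (fun y => by
    by_cases hy : y ∈ H
    · simp [hy]
    · simp [hy]) (by
    have h4 : num (fun y : Un g => (if y ∈ H then (1 : ℝ) else 0) ≠ 0) = (H.card : ℝ) := by
      unfold num
      congr 2
      ext y
      simp
    rw [h4]
    exact hH)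
  have h6 : ∑ y : Un g, (if y ∈ H then (1 : ℝ) else 0) = (H.card : ℝ) := by
    rw [Finset.sum_boole]
    congr 2
    ext y
    simp
  have h7 : ∀ w, ∑ y ∈ D.S w, (if y ∈ H then (1 : ℝ) else 0) = ((D.S w ∩ H).card : ℝ) := by
    intro w
    rw [Finset.sum_boole, Finset.filter_mem_eq_inter]
  simp only [h6, h7] at h3
  refine le_trans (xm_mono fun w hw => ?_) h3
  have h8 : ((D.Z u w ∩ H).card : ℝ) ≤ ((D.S w ∩ H).card : ℝ) := by
    have h9 : D.Z u w ∩ H ⊆ D.S w ∩ H := by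
      refine Finset.inter_subset_inter_right ?_
      unfold Dat.Z
      exact Finset.inter_subset_right
    exact_mod_cast Finset.card_le_card h9
  linarith

/-- Proof. A player `w` with `w ≠ u`, `Disjoint (C u w) X`, `w ∉ REG` violates one of the four other
conditions of `REG`:
(a) `|Z u w ∩ X| > g + 1`: `Geo.g5` for the indicator of `X` (`|X| ≤ 3 g^101`, so `4 |X|/g^950 + g ≤ g + 1`
and `|X| ≤ 3 g^1050`; `Z u w ⊆ S w`): at most `g^4000` players.
(b) `|{y ∈ Z u w | rs y ≠ 0}| > g + 1`: `Geo.g5` for the indicator of `{y | rs y ≠ 0}` (`rs_supp`: at most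
`g^152`): at most `g^4000`.
(c) for a hard `i`, `|Z u w ∩ HH i| > 5 g`: `Geo.g5` for the indicator of `HH i` (`HH_card`: `4 g^951/g^950 + g
= 5 g`): at most `g^4000` for each i, at most `g^977` hard i (`Sel.few`): at most `g^4977`.
(d) `GG_self`: at most `g^4000`.
Total at most `g^4977 + 3 g^4000 ≤ g^5000`. -/
theorem exc_card : ∀ᶠ g : ℕ in atTop, ∀ D : Dat g, Geo D.S → D.Lab →
    ∀ (G : Fin (nC g) → Finset (Finset (Pt g))) (u : Pl g) (X : Finset (Un g))
      (W : Fin (nC g) → Finset (Pl g)), Sel D G u X W →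
    num (fun w => (w ≠ u ∧ Disjoint (D.C u w) X) ∧ w ∉ REG D u X W) ≤ (g : ℝ) ^ 5000 := by
  filter_upwards [HH_card, rs_supp, GG_self, eventually_ge_atTop 1,
    ev_pow 12 (show 101 < 950 by norm_num), ev_pow 4 (show 152 < 950 by norm_num),
    ev_pow 4 (show 4977 < 5000 by norm_num)] with g hHH hrs hGG hg1 e1 e2 e3
  intro D hgeo hlab G u X W hS
  have hg : (1 : ℝ) ≤ g := by exact_mod_cast hg1
  have hg0 : (0 : ℝ) < g := by linarith
  have hP : (0 : ℝ) < (g : ℝ) ^ 950 := by positivity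
  -- (a)
  have ha : num (fun w => (g : ℝ) + 1 < ((D.Z u w ∩ X).card : ℝ)) ≤ (g : ℝ) ^ 4000 := by
    have hX := hS.Xcard
    refine xm_g5 hgeo u X (hX.trans ?_) _ ?_
    · exact mul_le_mul_of_nonneg_left (pow_le_pow_right₀ hg (by norm_num)) (by norm_num)
    · have h1 : 4 * (X.card : ℝ) / (g : ℝ) ^ 950 ≤ 1 := by
        rw [div_le_one hP]
        linarith
      linarith
  -- (b)
  have hb : num (fun w => (g : ℝ) + 1 <
      (((D.Z u w).filter (fun y => rs D u X y ≠ 0)).card : ℝ)) ≤ (g : ℝ) ^ 4000 := by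
    have h1 : ((Finset.univ.filter (fun y => rs D u X y ≠ 0)).card : ℝ) ≤ (g : ℝ) ^ 152 := by
      rw [← xm_num]
      exact hrs D hgeo hlab u X hS.XS hS.Xcard
    have h2 := xm_g5 hgeo u (Finset.univ.filter (fun y => rs D u X y ≠ 0)) (h1.trans (by
        have h3 : (g : ℝ) ^ 152 ≤ (g : ℝ) ^ 1050 := pow_le_pow_right₀ hg (by norm_num)
        have h4 : (0 : ℝ) < (g : ℝ) ^ 1050 := by positivity
        linarith)) ((g : ℝ) + 1) (by
        have h3 : 4 * ((Finset.univ.filter (fun y => rs D u X y ≠ 0)).card : ℝ) /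
            (g : ℝ) ^ 950 ≤ 1 := by
          rw [div_le_one hP]
          linarith
        linarith)
    refine le_trans (xm_mono fun w hw => ?_) h2
    have h5 : (D.Z u w).filter (fun y => rs D u X y ≠ 0) =
        D.Z u w ∩ Finset.univ.filter (fun y => rs D u X y ≠ 0) := by
      ext y
      simp
    rwa [h5] at hw
  -- (c)
  have hc : num (fun w => ∃ i ∈ Finset.univ.filter (fun i => ((W i).card : ℝ) <
      (g : ℝ) ^ 10976), 5 * (g : ℝ) < ((D.Z u w ∩ HH D u X W i).card : ℝ)) ≤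
      (g : ℝ) ^ 4977 := by
    refine (xm_exists _ _ (c := (g : ℝ) ^ 4000) fun i _ => ?_).trans ?_
    · have h1 := hHH D hgeo hlab G u X W hS i
      refine xm_g5 hgeo u _ (h1.trans ?_) _ ?_
      · have h3 : (g : ℝ) ^ 951 ≤ (g : ℝ) ^ 1050 := pow_le_pow_right₀ hg (by norm_num)
        have h4 : (0 : ℝ) < (g : ℝ) ^ 1050 := by positivity
        linarith
      · have h3 : 4 * ((HH D u X W i).card : ℝ) / (g : ℝ) ^ 950 ≤ 4 * g := by
          rw [div_le_iff₀ hP]
          calc 4 * ((HH D u X W i).card : ℝ) ≤ 4 * (g : ℝ) ^ 951 := by linarith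
            _ = 4 * g * (g : ℝ) ^ 950 := by
              rw [show (951 : ℕ) = 950 + 1 from rfl, pow_succ]; ring
        linarith
    · have h1 : ((Finset.univ.filter (fun i => ((W i).card : ℝ) < (g : ℝ) ^ 10976)).card : ℝ) ≤
          (g : ℝ) ^ 977 := hS.few
      calc _ ≤ (g : ℝ) ^ 977 * (g : ℝ) ^ 4000 :=
            mul_le_mul_of_nonneg_right h1 (by positivity)
        _ = (g : ℝ) ^ 4977 := by rw [← pow_add]
  -- (d)
  have hd := hGG D hgeo hlab G u X W hS
  have hsum := (xm_or (fun w => (g : ℝ) + 1 < ((D.Z u w ∩ X).card : ℝ)) (fun w => (g : ℝ) + 1 <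
      (((D.Z u w).filter (fun y => rs D u X y ≠ 0)).card : ℝ)))
  have hsum2 := (xm_or (fun w => ∃ i ∈ Finset.univ.filter (fun i => ((W i).card : ℝ) <
      (g : ℝ) ^ 10976), 5 * (g : ℝ) < ((D.Z u w ∩ HH D u X W i).card : ℝ))
      (fun w => (g : ℝ) ^ 67 < GGm D u X W (D.Z u w) (D.Z u w)))
  have hsum3 := xm_or (fun w => (g : ℝ) + 1 < ((D.Z u w ∩ X).card : ℝ) ∨ (g : ℝ) + 1 <
      (((D.Z u w).filter (fun y => rs D u X y ≠ 0)).card : ℝ))
      (fun w => (∃ i ∈ Finset.univ.filter (fun i => ((W i).card : ℝ) <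
      (g : ℝ) ^ 10976), 5 * (g : ℝ) < ((D.Z u w ∩ HH D u X W i).card : ℝ)) ∨
      (g : ℝ) ^ 67 < GGm D u X W (D.Z u w) (D.Z u w))
  have hle : num (fun w => (w ≠ u ∧ Disjoint (D.C u w) X) ∧ w ∉ REG D u X W) ≤
      num (fun w => ((g : ℝ) + 1 < ((D.Z u w ∩ X).card : ℝ) ∨ (g : ℝ) + 1 <
      (((D.Z u w).filter (fun y => rs D u X y ≠ 0)).card : ℝ)) ∨
      ((∃ i ∈ Finset.univ.filter (fun i => ((W i).card : ℝ) <
      (g : ℝ) ^ 10976), 5 * (g : ℝ) < ((D.Z u w ∩ HH D u X W i).card : ℝ)) ∨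
      (g : ℝ) ^ 67 < GGm D u X W (D.Z u w) (D.Z u w))) := by
    refine xm_mono fun w hw => ?_
    obtain ⟨h1, h2⟩ := hw
    by_contra hcon
    rw [not_or, not_or, not_or] at hcon
    obtain ⟨⟨k1, k2⟩, k3, k4⟩ := hcon
    apply h2
    unfold REG
    refine Finset.mem_filter.2 ⟨Finset.mem_univ _, h1, not_lt.1 k1, not_lt.1 k2, ?_, not_lt.1 k4⟩
    intro i hi
    by_contra k5
    exact k3 ⟨i, Finset.mem_filter.2 ⟨Finset.mem_univ _, hi⟩, not_le.1 k5⟩
  have h4000 : (g : ℝ) ^ 4000 ≤ (g : ℝ) ^ 4977 := pow_le_pow_right₀ hg (by norm_num)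
  linarith

/-- Proof. `num (fun w => w ∉ REG) ≤ 1 + num (fun w => w ≠ u ∧ ¬ Disjoint (C u w) X) + g^5000`, and the middle
term is at most `∑ b ∈ X, num (fun w => w ≠ u ∧ b ∈ C u w) ≤ 3 g^101 g^10959` (`Lab.l3`). The number of players
is `mP g`, `mP_cast`: `g^12000`. -/
theorem REG_card : ∀ᶠ g : ℕ in atTop, ∀ D : Dat g, Geo D.S → D.Lab →
    ∀ (G : Fin (nC g) → Finset (Finset (Pt g))) (u : Pl g) (X : Finset (Un g))
      (W : Fin (nC g) → Finset (Pl g)), Sel D G u X W →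
    (g : ℝ) ^ 12000 / 2 ≤ ((REG D u X W).card : ℝ) := by
  filter_upwards [exc_card, eventually_ge_atTop 1,
    ev_pow 10 (show 11060 < 12000 by norm_num)] with g hex hg1 e1
  intro D hgeo hlab G u X W hS
  have hg : (1 : ℝ) ≤ g := by exact_mod_cast hg1
  have h1 := hex D hgeo hlab G u X W hS
  have h2 : num (fun w => ∃ b ∈ X, w ≠ u ∧ b ∈ D.C u w) ≤ (X.card : ℝ) * (g : ℝ) ^ 10959 :=
    xm_exists X _ fun b _ => hlab.l3 u b
  have h3 : num (fun w : Pl g => w = u) ≤ 1 := by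
    rw [xm_num]
    have : (Finset.univ.filter (fun w : Pl g => w = u)).card ≤ 1 := by
      refine Finset.card_le_one.2 fun a ha b hb => ?_
      rw [(Finset.mem_filter.1 ha).2, (Finset.mem_filter.1 hb).2]
    exact_mod_cast this
  have h4 := xm_or (fun w : Pl g => w = u) (fun w => ∃ b ∈ X, w ≠ u ∧ b ∈ D.C u w)
  have h5 := xm_or (fun w : Pl g => w = u ∨ ∃ b ∈ X, w ≠ u ∧ b ∈ D.C u w)
    (fun w => (w ≠ u ∧ Disjoint (D.C u w) X) ∧ w ∉ REG D u X W)
  have h6 : num (fun w => w ∉ REG D u X W) ≤ num (fun w : Pl g =>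
      (w = u ∨ ∃ b ∈ X, w ≠ u ∧ b ∈ D.C u w) ∨
      ((w ≠ u ∧ Disjoint (D.C u w) X) ∧ w ∉ REG D u X W)) := by
    refine xm_mono fun w hw => ?_
    by_cases k1 : w = u
    · exact Or.inl (Or.inl k1)
    · by_cases k2 : Disjoint (D.C u w) X
      · exact Or.inr ⟨⟨k1, k2⟩, hw⟩
      · obtain ⟨b, hb1, hb2⟩ := Finset.not_disjoint_iff.1 k2
        exact Or.inl (Or.inr ⟨b, hb2, k1, hb1⟩)
  have h7 : (g : ℝ) ^ 12000 = ((REG D u X W).card : ℝ) + num (fun w => w ∉ REG D u X W) := by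
    have h8 := Finset.card_filter_add_card_filter_not (s := (Finset.univ : Finset (Pl g)))
      (fun w => w ∈ REG D u X W)
    rw [Finset.card_univ, Fintype.card_fin, Finset.filter_univ_mem] at h8
    rw [xm_num, ← mP_cast]
    exact_mod_cast h8.symm
  have h9 : (X.card : ℝ) * (g : ℝ) ^ 10959 ≤ 3 * (g : ℝ) ^ 11060 := by
    calc (X.card : ℝ) * (g : ℝ) ^ 10959 ≤ 3 * (g : ℝ) ^ 101 * (g : ℝ) ^ 10959 :=
          mul_le_mul_of_nonneg_right hS.Xcard (by positivity)
      _ = 3 * (g : ℝ) ^ 11060 := by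
        rw [show (11060 : ℕ) = 101 + 10959 from rfl, pow_add]; ring
  have h10 : (1 : ℝ) ≤ (g : ℝ) ^ 11060 := one_le_pow₀ hg
  have h11 : (g : ℝ) ^ 5000 ≤ (g : ℝ) ^ 11060 := pow_le_pow_right₀ hg (by norm_num)
  linarith

end Pool.Larman
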