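import Pool.Agent.Larman.EnvDefs
import Pool.Agent.Larman.EnvExc
import Pool.Agent.Larman.EnvA

/-! # T4: killers in the regular players -/

set_option autoImplicit false

open scoped BigOperators Classical

noncomputable section

namespace Pool.Larman

open Filter

private theorem card_exc_EnvK {g : ℕ} {D : Dat g} {u : Pl g} {X : Finset (Un g)}
    {W : Fin (nC g) → Finset (Pl g)} {i : Fin (nC g)} {T : Finset (Pl g)}
    (hT : T ⊆ A0 D u X W i)
    (h : num (fun w => (w ≠ u ∧ Disjoint (D.C u w) X) ∧ w ∉ REG D u X W) ≤ (g : ℝ) ^ 5000) :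
    (T.card : ℝ) ≤ ((T ∩ REG D u X W).card : ℝ) + (g : ℝ) ^ 5000 := by
  have h1 : ((T \ REG D u X W).card : ℝ) ≤ (g : ℝ) ^ 5000 := by
    refine le_trans ?_ h
    unfold num
    have h2 : T \ REG D u X W ⊆ Finset.univ.filter
        (fun w => (w ≠ u ∧ Disjoint (D.C u w) X) ∧ w ∉ REG D u X W) := by
      intro w hw
      rw [Finset.mem_sdiff] at hw
      rw [Finset.mem_filter]
      have h3 := hT hw.1
      unfold A0 at h3
      rw [Finset.mem_filter] at h3
      exact ⟨Finset.mem_univ _, h3.2, hw.2⟩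
    exact_mod_cast Finset.card_le_card h2
  have h4 : T.card = (T ∩ REG D u X W).card + (T \ REG D u X W).card := by
    rw [← Finset.card_inter_add_card_sdiff T (REG D u X W)]
  have h5 : (T.card : ℝ) = ((T ∩ REG D u X W).card : ℝ) + ((T \ REG D u X W).card : ℝ) := by
    exact_mod_cast h4
  linarith

/-- Proof. `A0 i \ REG` is contained in the exceptional set of `exc_card` (definition of `A0`), so it has at
most `g^5000 ≤ |A0 i|/2` elements (`A0_large`). -/
theorem A0_REG : ∀ᶠ g : ℕ in atTop, ∀ D : Dat g, Geo D.S → D.Lab →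
    ∀ (G : Fin (nC g) → Finset (Finset (Pt g))) (u : Pl g) (X : Finset (Un g))
      (W : Fin (nC g) → Finset (Pl g)), Sel D G u X W →
    ∀ i, ((A0 D u X W i).card : ℝ) ≤ 2 * ((A0 D u X W i ∩ REG D u X W).card : ℝ) := by
  filter_upwards [exc_card, A0_large, ev_pow 2 (show 5000 < 9993 by norm_num)] with g he hA hp
  intro D hgeo hlab G u X W hS i
  have h1 := card_exc_EnvK (Finset.Subset.refl (A0 D u X W i)) (he D hgeo hlab G u X W hS)
  have h2 := hA D hgeo hlab G u X W hS i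
  linarith

/-- Proof. `K ∩ W i ⊆ A0 i` (`K_sub_A0`), so `K ∩ W i \ REG` has at most `g^5000` elements (`exc_card`), and
`|K ∩ W i| ≥ |W i|/g^6 ≥ g^9993` (`Sel.Wk`, `Sel.Wbig`), so at least half of `K ∩ W i` lies in `REG`. -/
theorem K_REG : ∀ᶠ g : ℕ in atTop, ∀ D : Dat g, Geo D.S → D.Lab →
    ∀ (G : Fin (nC g) → Finset (Finset (Pt g))) (u : Pl g) (X : Finset (Un g))
      (W : Fin (nC g) → Finset (Pl g)), Sel D G u X W →
    ∀ i s, D.PatOK u s → Over X s →
      ((W i).card : ℝ) ≤ 2 * (g : ℝ) ^ 6 * ((D.K (G i) u s ∩ (A0 D u X W i ∩ REG D u X W)).card : ℝ) := by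
  filter_upwards [exc_card, eventually_ge_atTop 1, ev_pow 2 (show 5000 < 9993 by norm_num)]
    with g he hg1 hp
  intro D hgeo hlab G u X W hS i s hps hov
  have hg : (0 : ℝ) < (g : ℝ) := by exact_mod_cast hg1
  have h1 := card_exc_EnvK (K_sub_A0 (D := D) (u := u) (W := W) (G i) i hov)
    (he D hgeo hlab G u X W hS)
  have h2 := hS.Wk i s hps hov
  have h3 := hS.Wbig i
  have h4 : (g : ℝ) ^ 9993 ≤ ((D.K (G i) u s ∩ W i).card : ℝ) := by
    have h5 : (g : ℝ) ^ 6 * (g : ℝ) ^ 9993 ≤ (g : ℝ) ^ 6 * ((D.K (G i) u s ∩ W i).card : ℝ) := by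
      rw [← pow_add]
      exact h3.trans h2
    exact le_of_mul_le_mul_left h5 (by positivity)
  have h6 : ((D.K (G i) u s ∩ W i ∩ REG D u X W).card : ℝ) ≤
      ((D.K (G i) u s ∩ (A0 D u X W i ∩ REG D u X W)).card : ℝ) := by
    have h7 : D.K (G i) u s ∩ W i ∩ REG D u X W ⊆
        D.K (G i) u s ∩ (A0 D u X W i ∩ REG D u X W) := by
      intro w hw
      rw [Finset.mem_inter] at hw
      rw [Finset.mem_inter, Finset.mem_inter]
      exact ⟨(Finset.mem_inter.1 hw.1).1, K_sub_A0 (G i) i hov hw.1, hw.2⟩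
    exact_mod_cast Finset.card_le_card h7
  have h8 : ((D.K (G i) u s ∩ W i).card : ℝ) ≤
      2 * ((D.K (G i) u s ∩ (A0 D u X W i ∩ REG D u X W)).card : ℝ) := by linarith
  calc ((W i).card : ℝ) ≤ (g : ℝ) ^ 6 * ((D.K (G i) u s ∩ W i).card : ℝ) := h2
    _ ≤ (g : ℝ) ^ 6 * (2 * ((D.K (G i) u s ∩ (A0 D u X W i ∩ REG D u X W)).card : ℝ)) :=
        mul_le_mul_of_nonneg_left h8 (by positivity)
    _ = _ := by ring

/-- Proof. `A0_large` and `A0_REG`: `g^9993/2 ≥ g^9900`. -/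
theorem A0_REG_card : ∀ᶠ g : ℕ in atTop, ∀ D : Dat g, Geo D.S → D.Lab →
    ∀ (G : Fin (nC g) → Finset (Finset (Pt g))) (u : Pl g) (X : Finset (Un g))
      (W : Fin (nC g) → Finset (Pl g)), Sel D G u X W →
    ∀ i, (g : ℝ) ^ 9900 ≤ ((A0 D u X W i ∩ REG D u X W).card : ℝ) := by
  filter_upwards [A0_REG, A0_large, ev_pow 2 (show 9900 < 9993 by norm_num)] with g hr hA hp
  intro D hgeo hlab G u X W hS i
  have h1 := hr D hgeo hlab G u X W hS i
  have h2 := hA D hgeo hlab G u X W hS i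
  linarith

end Pool.Larman
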