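import Pool.Agent.Larman.EnvDefs

/-!
# T4: the environment (definition; helper46)
-/

set_option autoImplicit false

open scoped BigOperators Classical

noncomputable section

namespace Pool.Larman

/-- number of regular slots -/
@[irreducible] def nR (g : ℕ) : ℕ := g ^ 1033
/-- number of slots of a hard class -/
@[irreducible] def nr (g : ℕ) : ℕ := g ^ 9

theorem nR_cast (g : ℕ) : (nR g : ℝ) = (g : ℝ) ^ 1033 := by unfold nR; push_cast; rfl
theorem nr_cast (g : ℕ) : (nr g : ℝ) = (g : ℝ) ^ 9 := by unfold nr; push_cast; rfl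

variable {g : ℕ}

/-- the slots: regular slots, and for every hard class its own slots -/
abbrev Slt (W : Fin (nC g) → Finset (Pl g)) : Type :=
  Fin (nR g) ⊕ ({i : Fin (nC g) // hard W i} × Fin (nr g))

section
variable (D : Dat g) (u : Pl g) (X : Finset (Un g)) (W : Fin (nC g) → Finset (Pl g))

/-- population of a slot -/
def pop (x : Slt W) : Finset (Pl g) :=
  Sum.elim (fun _ => REG D u X W) (fun p => A0 D u X W p.1.1 ∩ REG D u X W) x

/-- hard slots -/
def hds (x : Slt W) : Prop := Sum.elim (fun _ => False) (fun _ => True) x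

/-- heavy zone of a slot -/
def zon (x : Slt W) : Finset (Un g) := Sum.elim (fun _ => ∅) (fun p => HH D u X W p.1.1) x

/-- numbering of the slots -/
def slE : Slt W ≃ Fin (Fintype.card (Slt W)) := Fintype.equivFin _

/-- the environment -/
def mkE : Env g where
  M := Fintype.card (Slt W)
  W := fun k => pop D u X W ((slE W).symm k)
  hd := fun k => hds W ((slE W).symm k)
  H := fun k => zon D u X W ((slE W).symm k)
  raise := rs D u X
  G := Gm D u X W

end

variable {D : Dat g} {u : Pl g} {X : Finset (Un g)} {W : Fin (nC g) → Finset (Pl g)}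

/-- sums over the slots of the environment are sums over `Slt W` -/
theorem sum_slots (F : Slt W → ℝ) :
    ∑ k : Fin (mkE D u X W).M, F ((slE W).symm k) = ∑ x, F x :=
  Equiv.sum_comp (slE W).symm F

/-- every population consists of regular players -/
theorem pop_sub (x : Slt W) : pop D u X W x ⊆ REG D u X W := by
  rcases x with x | x
  · exact fun w hw => hw
  · exact Finset.inter_subset_right

theorem REG_iff {w : Pl g} : w ∈ REG D u X W ↔
    (w ≠ u ∧ Disjoint (D.C u w) X) ∧
    (((D.Z u w ∩ X).card : ℝ) ≤ g + 1 ∧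
    (((D.Z u w).filter (fun y => rs D u X y ≠ 0)).card : ℝ) ≤ g + 1 ∧
    (∀ i, hard W i → ((D.Z u w ∩ HH D u X W i).card : ℝ) ≤ 5 * g) ∧
    GGm D u X W (D.Z u w) (D.Z u w) ≤ (g : ℝ) ^ 67) := by
  unfold REG
  rw [Finset.mem_filter]
  simp only [Finset.mem_univ, true_and]

end Pool.Larman
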