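import Pool.Agent.Larman.EnvDefs
import Pool.Agent.Larman.EnvK
import Pool.Agent.Larman.EnvMk

/-! # T4: the environment: enough slots for every class -/

set_option autoImplicit false

open scoped BigOperators Classical

noncomputable section

namespace Pool.Larman

open Filter

/-- Killers in the regular slots, class which is not hard.
Proof. `|W i| ≥ g^10976`, `K_REG`: `|K ∩ REG| ≥ |K ∩ (A0 i ∩ REG)| ≥ g^10976/(2 g^6) = g^10970/2 =
(g^-1030/2) g^12000 ≥ (g^-1030/2) |REG|` (`mP_cast`: there are `g^12000` players). -/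
theorem class_reg : ∀ᶠ g : ℕ in atTop, ∀ D : Dat g, Geo D.S → D.Lab →
    ∀ (G : Fin (nC g) → Finset (Finset (Pt g))) (u : Pl g) (X : Finset (Un g))
      (W : Fin (nC g) → Finset (Pl g)), Sel D G u X W →
    ∀ i, ¬ hard W i → ∀ s, D.PatOK u s → Over X s →
      ((g : ℝ) ^ 1030)⁻¹ / 2 * ((REG D u X W).card : ℝ) ≤ ((D.K (G i) u s ∩ REG D u X W).card : ℝ) := by
  filter_upwards [K_REG, eventually_ge_atTop 1] with g hK hg D hGeo hLab G u X W hSel i hi s hs hX
  have h1 := hK D hGeo hLab G u X W hSel i s hs hX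
  have hg0 : (0 : ℝ) < g := by exact_mod_cast hg
  have h2 : (g : ℝ) ^ 10976 ≤ ((W i).card : ℝ) := by
    unfold hard at hi
    exact not_lt.1 hi
  have h3 : ((D.K (G i) u s ∩ (A0 D u X W i ∩ REG D u X W)).card : ℝ) ≤
      ((D.K (G i) u s ∩ REG D u X W).card : ℝ) := by
    exact_mod_cast Finset.card_le_card
      (Finset.inter_subset_inter_left Finset.inter_subset_right)
  have h4 : ((REG D u X W).card : ℝ) ≤ (g : ℝ) ^ 12000 := by
    rw [← mP_cast]
    have h := Finset.card_le_univ (REG D u X W)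
    rw [Fintype.card_fin] at h
    exact_mod_cast h
  have h5 : (g : ℝ) ^ 10976 = 2 * (g : ℝ) ^ 6 * ((g : ℝ) ^ 10970 / 2) := by ring
  have h6 : (g : ℝ) ^ 10970 / 2 ≤ ((D.K (G i) u s ∩ (A0 D u X W i ∩ REG D u X W)).card : ℝ) := by
    have h7 : 2 * (g : ℝ) ^ 6 * ((g : ℝ) ^ 10970 / 2) ≤
        2 * (g : ℝ) ^ 6 * ((D.K (G i) u s ∩ (A0 D u X W i ∩ REG D u X W)).card : ℝ) :=
      (h5.symm.le.trans h2).trans h1
    exact le_of_mul_le_mul_left h7 (by positivity)
  have h8 : ((g : ℝ) ^ 1030)⁻¹ / 2 * (g : ℝ) ^ 12000 = (g : ℝ) ^ 10970 / 2 := by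
    have h9 : (g : ℝ) ^ 12000 = (g : ℝ) ^ 1030 * (g : ℝ) ^ 10970 := by rw [← pow_add]
    rw [h9]
    have h10 : ((g : ℝ) ^ 1030) ≠ 0 := (pow_pos hg0 _).ne'
    field_simp
  calc ((g : ℝ) ^ 1030)⁻¹ / 2 * ((REG D u X W).card : ℝ)
      ≤ ((g : ℝ) ^ 1030)⁻¹ / 2 * (g : ℝ) ^ 12000 := by gcongr
    _ = (g : ℝ) ^ 10970 / 2 := h8
    _ ≤ _ := h6.trans h3

/-- Killers in the slots of a hard class. Proof. `K_REG` and `A0 i ∩ REG ⊆ W i`. -/
theorem class_hard : ∀ᶠ g : ℕ in atTop, ∀ D : Dat g, Geo D.S → D.Lab →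
    ∀ (G : Fin (nC g) → Finset (Finset (Pt g))) (u : Pl g) (X : Finset (Un g))
      (W : Fin (nC g) → Finset (Pl g)), Sel D G u X W →
    ∀ i, ∀ s, D.PatOK u s → Over X s →
      ((g : ℝ) ^ 6)⁻¹ / 2 * ((A0 D u X W i ∩ REG D u X W).card : ℝ) ≤
        ((D.K (G i) u s ∩ (A0 D u X W i ∩ REG D u X W)).card : ℝ) := by
  filter_upwards [K_REG, eventually_ge_atTop 1] with g hK hg D hGeo hLab G u X W hSel i s hs hX
  have h1 := hK D hGeo hLab G u X W hSel i s hs hX
  have hg0 : (0 : ℝ) < g := by exact_mod_cast hg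
  have h2 : ((A0 D u X W i ∩ REG D u X W).card : ℝ) ≤ ((W i).card : ℝ) := by
    have h : A0 D u X W i ∩ REG D u X W ⊆ W i := by
      intro w hw
      have hw1 := (Finset.mem_inter.1 hw).1
      unfold A0 at hw1
      exact (Finset.mem_filter.1 hw1).1
    exact_mod_cast Finset.card_le_card h
  have h3 : (g : ℝ) ^ 6 ≠ 0 := (pow_pos hg0 _).ne'
  calc ((g : ℝ) ^ 6)⁻¹ / 2 * ((A0 D u X W i ∩ REG D u X W).card : ℝ)
      ≤ ((g : ℝ) ^ 6)⁻¹ / 2 *
        (2 * (g : ℝ) ^ 6 * ((D.K (G i) u s ∩ (A0 D u X W i ∩ REG D u X W)).card : ℝ)) :=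
        mul_le_mul_of_nonneg_left (h2.trans h1) (by positivity)
    _ = ((D.K (G i) u s ∩ (A0 D u X W i ∩ REG D u X W)).card : ℝ) := by field_simp

/-- Proof. Not hard: `I` = all regular slots (the image of `Sum.inl` under `slE W`; `nR g = g^1033`
elements), `a = g^-1030/2`, `a |I| = g^3/2`. Hard: `I` = the slots `(i, j)`, `j < nr g = g^9`,
`a = g^-6/2`, `a |I| = g^3/2`. Use `class_reg`, `class_hard`. -/
theorem mkE_class : ∀ᶠ g : ℕ in atTop, ∀ D : Dat g, Geo D.S → D.Lab →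
    ∀ (G : Fin (nC g) → Finset (Finset (Pt g))) (u : Pl g) (X : Finset (Un g))
      (W : Fin (nC g) → Finset (Pl g)), Sel D G u X W →
    ∀ i, (mkE D u X W).ClassOK D u X (G i) := by
  filter_upwards [class_reg, class_hard, eventually_ge_atTop 1] with g hR hH hg D hGeo hLab G u X
    W hSel i
  have hg1 : (1 : ℝ) ≤ g := by exact_mod_cast hg
  have hg0 : (0 : ℝ) < g := lt_of_lt_of_le one_pos hg1
  by_cases hi : hard W i
  · let f : Fin (nr g) → Fin (mkE D u X W).M := fun j => slE W (Sum.inr (⟨i, hi⟩, j))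
    have hf : Function.Injective f := by
      intro j j' hj
      have h1 := (slE W).injective hj
      have h2 := Sum.inr.inj h1
      exact (Prod.mk.inj h2).2
    refine ⟨Finset.univ.image f, ((g : ℝ) ^ 6)⁻¹ / 2, by positivity, ?_, ?_, ?_⟩
    · have h1 : ((g : ℝ) ^ 6)⁻¹ ≤ 1 := inv_le_one_of_one_le₀ (one_le_pow₀ hg1)
      linarith
    · rw [Finset.card_image_of_injective _ hf, Finset.card_univ, Fintype.card_fin, nr_cast]
      have h1 : ((g : ℝ) ^ 6)⁻¹ / 2 * (g : ℝ) ^ 9 = (g : ℝ) ^ 3 / 2 := by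
        have h2 : (g : ℝ) ^ 9 = (g : ℝ) ^ 6 * (g : ℝ) ^ 3 := by rw [← pow_add]
        rw [h2]
        have h3 : ((g : ℝ) ^ 6) ≠ 0 := (pow_pos hg0 _).ne'
        field_simp
      rw [h1]
      have h4 : 0 < (g : ℝ) ^ 3 := pow_pos hg0 _
      linarith
    · intro k hk s hs hX
      obtain ⟨j, -, rfl⟩ := Finset.mem_image.1 hk
      have h1 : (mkE D u X W).W (f j) = A0 D u X W i ∩ REG D u X W := by
        change pop D u X W ((slE W).symm (slE W (Sum.inr (⟨i, hi⟩, j)))) = _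
        rw [Equiv.symm_apply_apply]
        rfl
      rw [h1]
      exact hH D hGeo hLab G u X W hSel i s hs hX
  · let f : Fin (nR g) → Fin (mkE D u X W).M := fun j => slE W (Sum.inl j)
    have hf : Function.Injective f := by
      intro j j' hj
      have h1 := (slE W).injective hj
      exact Sum.inl.inj h1
    refine ⟨Finset.univ.image f, ((g : ℝ) ^ 1030)⁻¹ / 2, by positivity, ?_, ?_, ?_⟩
    · have h1 : ((g : ℝ) ^ 1030)⁻¹ ≤ 1 := inv_le_one_of_one_le₀ (one_le_pow₀ hg1)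
      linarith
    · rw [Finset.card_image_of_injective _ hf, Finset.card_univ, Fintype.card_fin, nR_cast]
      have h1 : ((g : ℝ) ^ 1030)⁻¹ / 2 * (g : ℝ) ^ 1033 = (g : ℝ) ^ 3 / 2 := by
        have h2 : (g : ℝ) ^ 1033 = (g : ℝ) ^ 1030 * (g : ℝ) ^ 3 := by rw [← pow_add]
        rw [h2]
        have h3 : ((g : ℝ) ^ 1030) ≠ 0 := (pow_pos hg0 _).ne'
        field_simp
      rw [h1]
      have h4 : 0 < (g : ℝ) ^ 3 := pow_pos hg0 _
      linarith
    · intro k hk s hs hX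
      obtain ⟨j, -, rfl⟩ := Finset.mem_image.1 hk
      have h1 : (mkE D u X W).W (f j) = REG D u X W := by
        change pop D u X W ((slE W).symm (slE W (Sum.inl j))) = _
        rw [Equiv.symm_apply_apply]
        rfl
      rw [h1]
      exact hR D hGeo hLab G u X W hSel i hi s hs hX

end Pool.Larman
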