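import Mathlib

/-!
# Numerical tools: statements for all large g (helper46)
-/

set_option autoImplicit false

noncomputable section

namespace Pool.Larman

open Filter

/-- `C g^a ≤ g^b` for all large `g` if `a < b` -/
theorem ev_pow (C : ℝ) {a b : ℕ} (hab : a < b) :
    ∀ᶠ g : ℕ in atTop, C * (g : ℝ) ^ a ≤ (g : ℝ) ^ b := by
  filter_upwards [eventually_ge_atTop (max 1 ⌈C⌉₊)] with g hg
  have h1 : (1 : ℝ) ≤ g := by exact_mod_cast (le_max_left _ _).trans hg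
  have h2 : C ≤ g := (Nat.le_ceil C).trans (by exact_mod_cast (le_max_right _ _).trans hg)
  calc C * (g : ℝ) ^ a ≤ (g : ℝ) * (g : ℝ) ^ a := mul_le_mul_of_nonneg_right h2 (by positivity)
    _ = (g : ℝ) ^ (a + 1) := by ring
    _ ≤ (g : ℝ) ^ b := pow_le_pow_right₀ h1 hab

/-- `C g^a exp (- c g^k) ≤ ε` for all large `g` -/
theorem ev_exp (C : ℝ) {c ε : ℝ} (a k : ℕ) (hc : 0 < c) (hε : 0 < ε) (hk : 1 ≤ k) :
    ∀ᶠ g : ℕ in atTop, C * (g : ℝ) ^ a * Real.exp (- (c * (g : ℝ) ^ k)) ≤ ε := by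
  have h1 : Tendsto (fun x : ℝ => x ^ a * Real.exp (- x)) atTop (nhds 0) :=
    Real.tendsto_pow_mul_exp_neg_atTop_nhds_zero a
  have h2 : Tendsto (fun g : ℕ => c * (g : ℝ)) atTop atTop :=
    Tendsto.const_mul_atTop hc tendsto_natCast_atTop_atTop
  have h3 := h1.comp h2
  have h4 : Tendsto (fun g : ℕ => (|C| / c ^ a) * ((c * (g : ℝ)) ^ a * Real.exp (- (c * (g : ℝ)))))
      atTop (nhds ((|C| / c ^ a) * 0)) := h3.const_mul _
  rw [mul_zero] at h4
  have h5 := h4.eventually (gt_mem_nhds hε)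
  filter_upwards [h5, eventually_ge_atTop 1] with g hg hg1
  have hg1' : (1 : ℝ) ≤ g := by exact_mod_cast hg1
  have hpow : (g : ℝ) ≤ (g : ℝ) ^ k := le_self_pow₀ hg1' (by omega)
  have e1 : Real.exp (- (c * (g : ℝ) ^ k)) ≤ Real.exp (- (c * (g : ℝ))) :=
    Real.exp_le_exp.2 (by nlinarith)
  have e2 : C * (g : ℝ) ^ a ≤ |C| * (g : ℝ) ^ a :=
    mul_le_mul_of_nonneg_right (le_abs_self C) (by positivity)
  calc C * (g : ℝ) ^ a * Real.exp (- (c * (g : ℝ) ^ k))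
      ≤ |C| * (g : ℝ) ^ a * Real.exp (- (c * (g : ℝ) ^ k)) :=
        mul_le_mul_of_nonneg_right e2 (Real.exp_pos _).le
    _ ≤ |C| * (g : ℝ) ^ a * Real.exp (- (c * (g : ℝ))) :=
        mul_le_mul_of_nonneg_left e1 (by positivity)
    _ = (|C| / c ^ a) * ((c * (g : ℝ)) ^ a * Real.exp (- (c * (g : ℝ)))) := by
        have : c ^ a ≠ 0 := (pow_pos hc a).ne'
        rw [mul_pow]
        field_simp
    _ ≤ ε := hg.le

end Pool.Larman
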