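import Pool.Agent.Larman.Sel
import Pool.Agent.Larman.NumA

/-!
# T4: definition of the environment of the selected player (helper46)

`u` the selected player, `X` its cover, `W i` the large sets of the classes. `hard W i`: the set `W i` is
small (there are at most `g^977` such classes).
-/

set_option autoImplicit false

open scoped BigOperators Classical

noncomputable section

namespace Pool.Larman

variable {g : ℕ} (D : Dat g) (u : Pl g) (X : Finset (Un g)) (W : Fin (nC g) → Finset (Pl g))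

/-- the small classes -/
def hard (W : Fin (nC g) → Finset (Pl g)) (i : Fin (nC g)) : Prop :=
  ((W i).card : ℝ) < (g : ℝ) ^ 10976

/-- the players of `W i` which do not meet `X` in a C-block -/
def A0 (i : Fin (nC g)) : Finset (Pl g) := (W i).filter (fun w => w ≠ u ∧ Disjoint (D.C u w) X)

/-- density of the unit `y` in `A0 i` -/
def q0 (i : Fin (nC g)) (y : Un g) : ℝ :=
  (((A0 D u X W i).filter (fun w => y ∈ D.S w)).card : ℝ) / (A0 D u X W i).card

/-- density of a pair of units in `A0 i` -/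
def q02 (i : Fin (nC g)) (y y' : Un g) : ℝ :=
  (((A0 D u X W i).filter (fun w => y ∈ D.S w ∧ y' ∈ D.S w)).card : ℝ) / (A0 D u X W i).card

/-- heavy zone of the class `i` -/
def HH (i : Fin (nC g)) : Finset (Un g) :=
  (D.Mu u X).filter (fun y => 12 / (g : ℝ) ^ 950 < q0 D u X W i y)

/-- heavy players: a substantial part of `Q u w` lies in `X` -/
def heavy (w : Pl g) : Prop :=
  w ≠ u ∧ ((D.Q u w).card : ℝ) ≤ 16 * (g : ℝ) ^ 43 * D.qX u w X

/-- the raise of the bias -/
def rs (y : Un g) : ℝ :=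
  if y.1 = 0 ∧ ∃ w, heavy D u X w ∧ (y, true) ∈ D.Q u w then 8 / (g : ℝ) ^ 2 else 0

/-- pair weight -/
def Gm (y y' : Un g) : ℝ :=
  if y ∈ D.Mu u X ∧ y' ∈ D.Mu u X ∧ y ≠ y' then
    (g : ℝ) ^ 9 * ∑ i ∈ Finset.univ.filter (fun i => hard W i),
      (if y ∉ HH D u X W i ∧ y' ∉ HH D u X W i then
        q02 D u X W i y y' + 3 * q0 D u X W i y * q0 D u X W i y' else 0)
  else 0

/-- total pair weight -/
def GGm (A B : Finset (Un g)) : ℝ := ∑ y ∈ A, ∑ y' ∈ B, Gm D u X W y y'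

/-- the regular players -/
def REG : Finset (Pl g) := Finset.univ.filter (fun w =>
  (w ≠ u ∧ Disjoint (D.C u w) X) ∧
  (((D.Z u w ∩ X).card : ℝ) ≤ g + 1 ∧
  (((D.Z u w).filter (fun y => rs D u X y ≠ 0)).card : ℝ) ≤ g + 1 ∧
  (∀ i, hard W i → ((D.Z u w ∩ HH D u X W i).card : ℝ) ≤ 5 * g) ∧
  GGm D u X W (D.Z u w) (D.Z u w) ≤ (g : ℝ) ^ 67))

variable {D u X W}

theorem q0_nonneg (i : Fin (nC g)) (y : Un g) : 0 ≤ q0 D u X W i y := by
  unfold q0; positivity

theorem q0_le_one (i : Fin (nC g)) (y : Un g) : q0 D u X W i y ≤ 1 := by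
  unfold q0
  refine div_le_one_of_le₀ ?_ (Nat.cast_nonneg _)
  exact_mod_cast Finset.card_le_card (Finset.filter_subset _ _)

theorem q02_nonneg (i : Fin (nC g)) (y y' : Un g) : 0 ≤ q02 D u X W i y y' := by
  unfold q02; positivity

theorem q02_le (i : Fin (nC g)) (y y' : Un g) : q02 D u X W i y y' ≤ q0 D u X W i y := by
  unfold q02 q0
  refine div_le_div_of_nonneg_right ?_ (Nat.cast_nonneg _)
  have h : (A0 D u X W i).filter (fun w => y ∈ D.S w ∧ y' ∈ D.S w) ⊆
      (A0 D u X W i).filter (fun w => y ∈ D.S w) := fun w hw => by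
    rw [Finset.mem_filter] at hw ⊢
    exact ⟨hw.1, hw.2.1⟩
  exact_mod_cast Finset.card_le_card h

theorem q02_symm (i : Fin (nC g)) (y y' : Un g) : q02 D u X W i y y' = q02 D u X W i y' y := by
  unfold q02
  simp only [and_comm]

theorem rs_nonneg (y : Un g) : 0 ≤ rs D u X y := by
  unfold rs; split_ifs <;> positivity

theorem rs_le (y : Un g) : rs D u X y ≤ 8 / (g : ℝ) ^ 2 := by
  unfold rs; split_ifs
  · exact le_rfl
  · positivity

theorem Gm_nonneg (y y' : Un g) : 0 ≤ Gm D u X W y y' := by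
  unfold Gm
  split_ifs
  · refine mul_nonneg (by positivity) (Finset.sum_nonneg (fun i _ => ?_))
    split_ifs
    · have h1 := q02_nonneg (D := D) (u := u) (X := X) (W := W) i y y'
      have h2 := q0_nonneg (D := D) (u := u) (X := X) (W := W) i y
      have h3 := q0_nonneg (D := D) (u := u) (X := X) (W := W) i y'
      positivity
    · exact le_rfl
  · exact le_rfl

theorem Gm_symm (y y' : Un g) : Gm D u X W y y' = Gm D u X W y' y := by
  unfold Gm
  by_cases h : y ∈ D.Mu u X ∧ y' ∈ D.Mu u X ∧ y ≠ y'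
  · have h' : y' ∈ D.Mu u X ∧ y ∈ D.Mu u X ∧ y' ≠ y := ⟨h.2.1, h.1, Ne.symm h.2.2⟩
    rw [if_pos h, if_pos h']
    congr 1
    refine Finset.sum_congr rfl (fun i _ => ?_)
    rw [q02_symm i y y']
    by_cases h1 : y ∉ HH D u X W i ∧ y' ∉ HH D u X W i
    · rw [if_pos h1, if_pos h1.symm]; ring
    · rw [if_neg h1, if_neg (fun h2 => h1 h2.symm)]
  · have h' : ¬ (y' ∈ D.Mu u X ∧ y ∈ D.Mu u X ∧ y' ≠ y) :=
      fun h2 => h ⟨h2.2.1, h2.1, Ne.symm h2.2.2⟩
    rw [if_neg h, if_neg h']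

theorem Gm_diag (y : Un g) : Gm D u X W y y = 0 := by
  unfold Gm
  rw [if_neg]
  rintro ⟨-, -, h⟩
  exact h rfl

theorem Gm_supp {y y' : Un g} (h : Gm D u X W y y' ≠ 0) : y ∈ D.Mu u X ∧ y' ∈ D.Mu u X := by
  by_contra hc
  refine h ?_
  unfold Gm
  rw [if_neg]
  rintro ⟨h1, h2, -⟩
  exact hc ⟨h1, h2⟩

theorem GGm_nonneg (A B : Finset (Un g)) : 0 ≤ GGm D u X W A B := by
  unfold GGm
  exact Finset.sum_nonneg (fun y _ => Finset.sum_nonneg (fun y' _ => Gm_nonneg y y'))

end Pool.Larman
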