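import Pool.Agent.Larman.EnvDefs
import Pool.Agent.Larman.EnvK
import Pool.Agent.Larman.EnvMk

/-! # T4: the environment: numbers of slots, populations, raise, zones -/

set_option autoImplicit false

open scoped BigOperators Classical

noncomputable section

namespace Pool.Larman

open Filter

private theorem EnvOKA_hard {g : ℕ} {D : Dat g} {G : Fin (nC g) → Finset (Finset (Pt g))} {u : Pl g}
    {X : Finset (Un g)} {W : Fin (nC g) → Finset (Pl g)} (h : Sel D G u X W) :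
    ((Fintype.card {i : Fin (nC g) // hard W i} : ℕ) : ℝ) ≤ (g : ℝ) ^ 977 := by
  have h1 := h.few
  unfold num at h1
  refine le_trans (le_of_eq ?_) h1
  rw [Fintype.card_subtype]
  unfold hard
  congr

/-- Proof. `card (Slt W) = nR g + card {i // hard W i} * nr g`, the second term is at most `g^977 g^9`
(`Sel.few`; `Fintype.card_subtype`), so the sum is at most `g^1033 + g^986 ≤ 2 g^1033`. -/
theorem mkE_M : ∀ᶠ g : ℕ in atTop, ∀ D : Dat g, Geo D.S → D.Lab →
    ∀ (G : Fin (nC g) → Finset (Finset (Pt g))) (u : Pl g) (X : Finset (Un g))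
      (W : Fin (nC g) → Finset (Pl g)), Sel D G u X W →
    ((mkE D u X W).M : ℝ) ≤ 2 * (g : ℝ) ^ 1033 := by
  filter_upwards [ev_pow 1 (show 986 < 1033 by norm_num)] with g e1
  intro D hS hL G u X W hSel
  have h1 := EnvOKA_hard hSel
  have h2 : (mkE D u X W).M = nR g + Fintype.card {i : Fin (nC g) // hard W i} * nr g := by
    show Fintype.card (Slt W) = _
    rw [Fintype.card_sum, Fintype.card_prod, Fintype.card_fin, Fintype.card_fin]
  rw [h2]
  push_cast
  rw [nR_cast, nr_cast]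
  have h3 : ((Fintype.card {i : Fin (nC g) // hard W i} : ℕ) : ℝ) * (g : ℝ) ^ 9 ≤
      (g : ℝ) ^ 977 * (g : ℝ) ^ 9 := mul_le_mul_of_nonneg_right h1 (by positivity)
  have h4 : (g : ℝ) ^ 977 * (g : ℝ) ^ 9 = (g : ℝ) ^ 986 := by rw [← pow_add]
  linarith

/-- Proof. The hard slots are the `Sum.inr` slots: `card {i // hard W i} * nr g ≤ g^977 g^9 = g^986`
(transport by the bijection `slE W`). -/
theorem mkE_hd : ∀ᶠ g : ℕ in atTop, ∀ D : Dat g, Geo D.S → D.Lab →
    ∀ (G : Fin (nC g) → Finset (Finset (Pt g))) (u : Pl g) (X : Finset (Un g))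
      (W : Fin (nC g) → Finset (Pl g)), Sel D G u X W →
    num (fun k => (mkE D u X W).hd k) ≤ (g : ℝ) ^ 986 := by
  filter_upwards [eventually_ge_atTop 1] with g _
  intro D hS hL G u X W hSel
  have h1 := EnvOKA_hard hSel
  have h2 : (Finset.univ.filter (fun k : Fin (mkE D u X W).M => (mkE D u X W).hd k)).card ≤
      Fintype.card ({i : Fin (nC g) // hard W i} × Fin (nr g)) := by
    rw [← Finset.card_univ]
    refine (Finset.card_le_card (t := Finset.univ.image
      (fun p : {i : Fin (nC g) // hard W i} × Fin (nr g) => slE W (Sum.inr p))) ?_).trans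
      Finset.card_image_le
    intro k hk
    have hk2 : hds W ((slE W).symm k) := (Finset.mem_filter.1 hk).2
    rw [Finset.mem_image]
    rcases hx : (slE W).symm k with x | x
    · rw [hx] at hk2
      exact absurd hk2 (fun h => h)
    · refine ⟨x, Finset.mem_univ _, ?_⟩
      rw [← hx]
      exact Equiv.apply_symm_apply _ _
  rw [Fintype.card_prod, Fintype.card_fin] at h2
  have h3 : ((Finset.univ.filter (fun k : Fin (mkE D u X W).M => (mkE D u X W).hd k)).card : ℝ) ≤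
      ((Fintype.card {i : Fin (nC g) // hard W i} : ℕ) : ℝ) * (nr g : ℝ) := by exact_mod_cast h2
  rw [nr_cast] at h3
  unfold num
  calc _ ≤ ((Fintype.card {i : Fin (nC g) // hard W i} : ℕ) : ℝ) * (g : ℝ) ^ 9 := h3
    _ ≤ (g : ℝ) ^ 977 * (g : ℝ) ^ 9 := mul_le_mul_of_nonneg_right h1 (by positivity)
    _ = (g : ℝ) ^ 986 := by rw [← pow_add]

/-- Proof. `REG_card` for the regular slots (`g^12000/2 ≥ g^9900`), `A0_REG_card` for the hard slots. -/
theorem mkE_Wcard : ∀ᶠ g : ℕ in atTop, ∀ D : Dat g, Geo D.S → D.Lab →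
    ∀ (G : Fin (nC g) → Finset (Finset (Pt g))) (u : Pl g) (X : Finset (Un g))
      (W : Fin (nC g) → Finset (Pl g)), Sel D G u X W →
    ∀ k, (g : ℝ) ^ 9900 ≤ (((mkE D u X W).W k).card : ℝ) := by
  filter_upwards [REG_card, A0_REG_card, ev_pow 2 (show 9900 < 12000 by norm_num)] with g h1 h2 e1
  intro D hS hL G u X W hSel k
  show (g : ℝ) ^ 9900 ≤ ((pop D u X W ((slE W).symm k)).card : ℝ)
  rcases (slE W).symm k with x | x
  · have h3 := h1 D hS hL G u X W hSel
    show (g : ℝ) ^ 9900 ≤ ((REG D u X W).card : ℝ)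
    linarith
  · exact h2 D hS hL G u X W hSel x.1.1

/-- The fields of `Env.OK` which are immediate from the definitions: every population is contained in
`REG` (`pop_sub`, `REG_iff`).
`r0`: `rs_nonneg`, `rs_le`. `r1`: `rs_supp`. `r3`: if `w ≠ u` and `|Q| ≤ 16 g^43 qX` then `w` is heavy, so
`rs y = 8/g^2` for the tilted `y` with `(y, true) ∈ Q u w`, and `8 qX/|Q| ≤ 8/g^2` by `Sel.Xq`
(`|Q u w| > 0` by `Lab.l1q`; g > 0). `H0`, `H1`: the zone of a regular slot is empty, the zone of a hard slot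
is `HH i` with `hard W i`. -/
theorem mkE_easy : ∀ᶠ g : ℕ in atTop, ∀ D : Dat g, Geo D.S → D.Lab →
    ∀ (G : Fin (nC g) → Finset (Finset (Pt g))) (u : Pl g) (X : Finset (Un g))
      (W : Fin (nC g) → Finset (Pl g)), Sel D G u X W →
    (X ⊆ D.S u ∧ (X.card : ℝ) ≤ 3 * (g : ℝ) ^ 101 ∧
      (∀ w, w ≠ u → (g : ℝ) ^ 2 * D.qX u w X ≤ ((D.Q u w).card : ℝ)) ∧
      (∀ k, ∀ w ∈ (mkE D u X W).W k, w ≠ u) ∧
      (∀ k, ∀ w ∈ (mkE D u X W).W k, Disjoint (D.C u w) X) ∧
      (∀ k, ∀ w ∈ (mkE D u X W).W k, ((D.Z u w ∩ X).card : ℝ) ≤ g + 1) ∧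
      (∀ y, 0 ≤ (mkE D u X W).raise y ∧ (mkE D u X W).raise y ≤ 8 / (g : ℝ) ^ 2) ∧
      num (fun y => (mkE D u X W).raise y ≠ 0) ≤ (g : ℝ) ^ 152 ∧
      (∀ k, ∀ w ∈ (mkE D u X W).W k,
        (((D.Z u w).filter (fun y => (mkE D u X W).raise y ≠ 0)).card : ℝ) ≤ g + 1) ∧
      (∀ w, w ≠ u → ((D.Q u w).card : ℝ) ≤ 16 * (g : ℝ) ^ 43 * D.qX u w X →
        ∀ y, y.1 = 0 → (y, true) ∈ D.Q u w →
          8 * D.qX u w X / ((D.Q u w).card : ℝ) ≤ (mkE D u X W).raise y) ∧
      (∀ k, ¬ (mkE D u X W).hd k → (mkE D u X W).H k = ∅) ∧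
      (∀ k k', ∀ w ∈ (mkE D u X W).W k, ((D.Z u w ∩ (mkE D u X W).H k').card : ℝ) ≤ 5 * g)) := by
  filter_upwards [eventually_ge_atTop 1, rs_supp] with g hg hrs
  intro D hS hL G u X W hSel
  have hg1 : (1 : ℝ) ≤ g := by exact_mod_cast hg
  have hg0 : (0 : ℝ) < g := by linarith
  have hreg : ∀ k, ∀ w ∈ (mkE D u X W).W k, w ∈ REG D u X W := fun k w hw => pop_sub _ hw
  refine ⟨hSel.XS, hSel.Xcard, hSel.Xq, ?_, ?_, ?_, ?_, ?_, ?_, ?_, ?_, ?_⟩
  · intro k w hw
    exact (REG_iff.1 (hreg k w hw)).1.1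
  · intro k w hw
    exact (REG_iff.1 (hreg k w hw)).1.2
  · intro k w hw
    exact (REG_iff.1 (hreg k w hw)).2.1
  · intro y
    exact ⟨rs_nonneg y, rs_le y⟩
  · exact hrs D hS hL u X hSel.XS hSel.Xcard
  · intro k w hw
    exact (REG_iff.1 (hreg k w hw)).2.2.1
  · intro w hw hq y hy hyQ
    show _ ≤ rs D u X y
    have h1 : rs D u X y = 8 / (g : ℝ) ^ 2 := by
      unfold rs
      rw [if_pos]
      exact ⟨hy, w, ⟨hw, hq⟩, hyQ⟩
    rw [h1]
    have h2 := hSel.Xq w hw
    have h3 : (0 : ℝ) < ((D.Q u w).card : ℝ) := by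
      exact_mod_cast Finset.card_pos.2 ⟨_, hyQ⟩
    rw [div_le_div_iff₀ h3 (by positivity)]
    linarith
  · intro k hk
    have hk2 : ¬ hds W ((slE W).symm k) := hk
    show zon D u X W ((slE W).symm k) = ∅
    generalize (slE W).symm k = z at hk2
    rcases z with x | x
    · rfl
    · exact absurd trivial hk2
  · intro k k' w hw
    show ((D.Z u w ∩ zon D u X W ((slE W).symm k')).card : ℝ) ≤ 5 * g
    rcases (slE W).symm k' with x | x
    · have h0 : zon D u X W (Sum.inl x) = ∅ := rfl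
      rw [h0, Finset.inter_empty, Finset.card_empty]
      push_cast
      positivity
    · exact (REG_iff.1 (hreg k w hw)).2.2.2.1 x.1.1 x.1.2

end Pool.Larman
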