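import Pool.Agent.Larman.EnvDefs
import Pool.Agent.Larman.EnvK
import Pool.Agent.Larman.EnvMk
import Pool.Agent.Larman.EnvA
import Pool.Agent.Larman.EnvExc

/-! # T4: the environment: densities and pair weights -/

set_option autoImplicit false

open scoped BigOperators Classical

noncomputable section

namespace Pool.Larman

open Filter

private theorem okb_num {α : Type} [Fintype α] (V : Finset α) (P : α → Prop) [DecidablePred P] :
    ((V.filter P).card : ℝ) ≤ num P := by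
  unfold num
  refine Nat.cast_le.2 (Finset.card_le_card (fun w hw => ?_))
  exact (@Finset.mem_filter α P (fun a => Classical.propDecidable (P a)) Finset.univ w).2
    ⟨Finset.mem_univ _, (Finset.mem_filter.1 hw).2⟩

private theorem okb_div {r n a b c : ℝ} (h1 : c / 2 ≤ r) (h2 : n ≤ 3 * a) (ha : 0 < a) (hb : 0 < b)
    (h : c = a * b) : n / r ≤ 6 / b := by
  have hc : 0 < c := by rw [h]; exact mul_pos ha hb
  have hr : 0 < r := by linarith
  rw [div_le_div_iff₀ hr hb]
  have e1 : n * b ≤ 3 * a * b := mul_le_mul_of_nonneg_right h2 hb.le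
  nlinarith

private theorem okb_two {n n' a a' : ℝ} (ha : 0 < a) (h1 : a ≤ 2 * a') (h2 : n' ≤ n) (hn : 0 ≤ n) :
    n' / a' ≤ 2 * (n / a) := by
  have ha' : 0 < a' := by linarith
  rw [← mul_div_assoc, div_le_div_iff₀ ha' ha]
  have e1 : n' * a ≤ n * a := mul_le_mul_of_nonneg_right h2 ha.le
  have e2 : n * a ≤ n * (2 * a') := mul_le_mul_of_nonneg_left h1 hn
  nlinarith

/-- Density in a regular slot. Proof. `num (fun w => y ∈ S w) ≤ 3 g^11050` (`Geo.g3a`) and `|REG| ≥ g^12000/2`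
(`REG_card`): the quotient is at most `6/g^950`. -/
theorem REG_q : ∀ᶠ g : ℕ in atTop, ∀ D : Dat g, Geo D.S → D.Lab →
    ∀ (G : Fin (nC g) → Finset (Finset (Pt g))) (u : Pl g) (X : Finset (Un g))
      (W : Fin (nC g) → Finset (Pl g)), Sel D G u X W →
    ∀ y, (((REG D u X W).filter (fun w => y ∈ D.S w)).card : ℝ) / (REG D u X W).card ≤
      6 / (g : ℝ) ^ 950 := by
  filter_upwards [REG_card, eventually_ge_atTop 1] with g hR hg
  intro D hG hL G u X W hS y
  have hg' : (0 : ℝ) < g := by exact_mod_cast hg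
  have h1 := hR D hG hL G u X W hS
  have h2 : (((REG D u X W).filter (fun w => y ∈ D.S w)).card : ℝ) ≤ 3 * (g : ℝ) ^ 11050 := by
    refine le_trans ?_ (hG.g3a y)
    exact okb_num _ _
  exact okb_div h1 h2 (pow_pos hg' _) (pow_pos hg' _)
    (by rw [← pow_add])

/-- Density of a pair in a regular slot. Proof. `Geo.g3b` and `REG_card`: `3 g^10100/(g^12000/2)`. -/
theorem REG_q2 : ∀ᶠ g : ℕ in atTop, ∀ D : Dat g, Geo D.S → D.Lab →
    ∀ (G : Fin (nC g) → Finset (Finset (Pt g))) (u : Pl g) (X : Finset (Un g))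
      (W : Fin (nC g) → Finset (Pl g)), Sel D G u X W →
    ∀ y y', y ≠ y' →
      (((REG D u X W).filter (fun w => y ∈ D.S w ∧ y' ∈ D.S w)).card : ℝ) / (REG D u X W).card ≤
      6 / (g : ℝ) ^ 1900 := by
  filter_upwards [REG_card, eventually_ge_atTop 1] with g hR hg
  intro D hG hL G u X W hS y y' hy
  have hg' : (0 : ℝ) < g := by exact_mod_cast hg
  have h1 := hR D hG hL G u X W hS
  have h2 : (((REG D u X W).filter (fun w => y ∈ D.S w ∧ y' ∈ D.S w)).card : ℝ) ≤
      3 * (g : ℝ) ^ 10100 := by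
    refine le_trans ?_ (hG.g3b y y' hy)
    exact okb_num _ _
  exact okb_div h1 h2 (pow_pos hg' _) (pow_pos hg' _)
    (by rw [← pow_add])

/-- Density in a hard slot. Proof. `A0 ∩ REG ⊆ A0` and `|A0| ≤ 2 |A0 ∩ REG|` (`A0_REG`; `|A0| > 0` by
`A0_large`). -/
theorem hard_q : ∀ᶠ g : ℕ in atTop, ∀ D : Dat g, Geo D.S → D.Lab →
    ∀ (G : Fin (nC g) → Finset (Finset (Pt g))) (u : Pl g) (X : Finset (Un g))
      (W : Fin (nC g) → Finset (Pl g)), Sel D G u X W →
    ∀ i y, (((A0 D u X W i ∩ REG D u X W).filter (fun w => y ∈ D.S w)).card : ℝ) /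
      (A0 D u X W i ∩ REG D u X W).card ≤ 2 * q0 D u X W i y := by
  filter_upwards [A0_REG, A0_large, eventually_ge_atTop 1] with g hR hA hg
  intro D hG hL G u X W hS i y
  have hg' : (0 : ℝ) < g := by exact_mod_cast hg
  have h1 := hR D hG hL G u X W hS i
  have h2 : 0 < ((A0 D u X W i).card : ℝ) :=
    lt_of_lt_of_le (pow_pos hg' _) (hA D hG hL G u X W hS i)
  have h3 : (((A0 D u X W i ∩ REG D u X W).filter (fun w => y ∈ D.S w)).card : ℝ) ≤
      (((A0 D u X W i).filter (fun w => y ∈ D.S w)).card : ℝ) := by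
    exact_mod_cast Finset.card_le_card (Finset.filter_subset_filter _ Finset.inter_subset_left)
  unfold q0
  exact okb_two h2 h1 h3 (Nat.cast_nonneg _)

/-- The same for pairs. -/
theorem hard_q2 : ∀ᶠ g : ℕ in atTop, ∀ D : Dat g, Geo D.S → D.Lab →
    ∀ (G : Fin (nC g) → Finset (Finset (Pt g))) (u : Pl g) (X : Finset (Un g))
      (W : Fin (nC g) → Finset (Pl g)), Sel D G u X W →
    ∀ i y y',
      (((A0 D u X W i ∩ REG D u X W).filter (fun w => y ∈ D.S w ∧ y' ∈ D.S w)).card : ℝ) /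
      (A0 D u X W i ∩ REG D u X W).card ≤ 2 * q02 D u X W i y y' := by
  filter_upwards [A0_REG, A0_large, eventually_ge_atTop 1] with g hR hA hg
  intro D hG hL G u X W hS i y y'
  have hg' : (0 : ℝ) < g := by exact_mod_cast hg
  have h1 := hR D hG hL G u X W hS i
  have h2 : 0 < ((A0 D u X W i).card : ℝ) :=
    lt_of_lt_of_le (pow_pos hg' _) (hA D hG hL G u X W hS i)
  have h3 : (((A0 D u X W i ∩ REG D u X W).filter (fun w => y ∈ D.S w ∧ y' ∈ D.S w)).card : ℝ) ≤
      (((A0 D u X W i).filter (fun w => y ∈ D.S w ∧ y' ∈ D.S w)).card : ℝ) := by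
    exact_mod_cast Finset.card_le_card (Finset.filter_subset_filter _ Finset.inter_subset_left)
  unfold q02
  exact okb_two h2 h1 h3 (Nat.cast_nonneg _)

/-- Proof. Regular slot: `REG_q`. Hard slot `i`: `y ∉ HH i`, `y ∈ Mu` give `q0 i y ≤ 12/g^950`, and `hard_q`. -/
theorem mkE_q1 : ∀ᶠ g : ℕ in atTop, ∀ D : Dat g, Geo D.S → D.Lab →
    ∀ (G : Fin (nC g) → Finset (Finset (Pt g))) (u : Pl g) (X : Finset (Un g))
      (W : Fin (nC g) → Finset (Pl g)), Sel D G u X W →
    ∀ k, ∀ y ∈ D.Mu u X, y ∉ (mkE D u X W).H k →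
      (mkE D u X W).qq D k y ≤ 24 / (g : ℝ) ^ 950 := by
  filter_upwards [REG_q, hard_q, eventually_ge_atTop 1] with g hR hA hg
  intro D hG hL G u X W hS k y hy hH
  have hg' : (0 : ℝ) < g := by exact_mod_cast hg
  have key : ∀ x : Slt W, y ∉ zon D u X W x →
      (((pop D u X W x).filter (fun w => y ∈ D.S w)).card : ℝ) / (pop D u X W x).card ≤
        24 / (g : ℝ) ^ 950 := by
    intro x hx
    have hp : (0 : ℝ) < (g : ℝ) ^ 950 := pow_pos hg' _
    rcases x with x | x
    · refine le_trans (hR D hG hL G u X W hS y) ?_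
      exact div_le_div_of_nonneg_right (by norm_num) hp.le
    · refine le_trans (hA D hG hL G u X W hS x.1.1 y) ?_
      have h1 : q0 D u X W x.1.1 y ≤ 12 / (g : ℝ) ^ 950 := by
        by_contra hc
        refine hx ?_
        change y ∈ HH D u X W x.1.1
        unfold HH
        rw [Finset.mem_filter]
        exact ⟨hy, not_le.1 hc⟩
      have h2 : (24 : ℝ) / (g : ℝ) ^ 950 = 2 * (12 / (g : ℝ) ^ 950) := by ring
      rw [h2]
      exact mul_le_mul_of_nonneg_left h1 (by norm_num)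
  exact key _ hH

/-- Proof. A slot which is not hard is regular: `REG_q2`. -/
theorem mkE_q2 : ∀ᶠ g : ℕ in atTop, ∀ D : Dat g, Geo D.S → D.Lab →
    ∀ (G : Fin (nC g) → Finset (Finset (Pt g))) (u : Pl g) (X : Finset (Un g))
      (W : Fin (nC g) → Finset (Pl g)), Sel D G u X W →
    ∀ k, ¬ (mkE D u X W).hd k → ∀ y ∈ D.Mu u X, ∀ y' ∈ D.Mu u X, y ≠ y' →
      (mkE D u X W).qq2 D k y y' ≤ 12 / (g : ℝ) ^ 1900 := by
  filter_upwards [REG_q2, eventually_ge_atTop 1] with g hR hg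
  intro D hG hL G u X W hS k hk y hy y' hy' hyy
  have hg' : (0 : ℝ) < g := by exact_mod_cast hg
  have key : ∀ x : Slt W, ¬ hds W x →
      (((pop D u X W x).filter (fun w => y ∈ D.S w ∧ y' ∈ D.S w)).card : ℝ) /
        (pop D u X W x).card ≤ 12 / (g : ℝ) ^ 1900 := by
    intro x hx
    have hp : (0 : ℝ) < (g : ℝ) ^ 1900 := pow_pos hg' _
    rcases x with x | x
    · refine le_trans (hR D hG hL G u X W hS y y' hyy) ?_
      exact div_le_div_of_nonneg_right (by norm_num) hp.le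
    · exact absurd trivial hx
  exact key _ hk

/-- Proof. By `sum_slots` the sum is a sum over `Slt W` (only the `Sum.inr` slots count); each hard class
`i` has `nr g = g^9` equal terms, each at most `2 q02 + 3 * 2 q0 * 2 q0' ≤ 4 (q02 + 3 q0 q0')` (`hard_q`,
`hard_q2`) if `y, y' ∉ HH i` and 0 otherwise. The sum is at most `4 Gm y y'` (definition of `Gm`). -/
theorem mkE_G1 : ∀ᶠ g : ℕ in atTop, ∀ D : Dat g, Geo D.S → D.Lab →
    ∀ (G : Fin (nC g) → Finset (Finset (Pt g))) (u : Pl g) (X : Finset (Un g))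
      (W : Fin (nC g) → Finset (Pl g)), Sel D G u X W →
    ∀ y ∈ D.Mu u X, ∀ y' ∈ D.Mu u X, y ≠ y' →
      ∑ k, (if (mkE D u X W).hd k ∧ y ∉ (mkE D u X W).H k ∧ y' ∉ (mkE D u X W).H k then
        (mkE D u X W).qq2 D k y y' + 3 * (mkE D u X W).qq D k y * (mkE D u X W).qq D k y' else 0) ≤
      4 * (mkE D u X W).G y y' := by
  filter_upwards [hard_q, hard_q2, eventually_ge_atTop 1] with g h1 h2 hg
  intro D hG hL G u X W hS y hy y' hy' hyy
  have hg' : (0 : ℝ) < g := by exact_mod_cast hg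
  set P1 : Finset (Pl g) → Un g → ℝ := fun V z => ((V.filter (fun w => z ∈ D.S w)).card : ℝ) / V.card
    with hP1
  set P2 : Finset (Pl g) → ℝ := fun V =>
    ((V.filter (fun w => y ∈ D.S w ∧ y' ∈ D.S w)).card : ℝ) / V.card with hP2
  set F : Slt W → ℝ := fun x =>
    if hds W x ∧ y ∉ zon D u X W x ∧ y' ∉ zon D u X W x then
      P2 (pop D u X W x) + 3 * P1 (pop D u X W x) y * P1 (pop D u X W x) y' else 0 with hF
  have e1 : ∑ k, (if (mkE D u X W).hd k ∧ y ∉ (mkE D u X W).H k ∧ y' ∉ (mkE D u X W).H k then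
        (mkE D u X W).qq2 D k y y' + 3 * (mkE D u X W).qq D k y * (mkE D u X W).qq D k y' else 0) =
      ∑ k : Fin (mkE D u X W).M, F ((slE W).symm k) := rfl
  rw [e1, sum_slots F, Fintype.sum_sum_type]
  have e2 : ∑ x : Fin (nR g), F (Sum.inl x) = 0 := by
    refine Finset.sum_eq_zero (fun x _ => ?_)
    rw [hF]
    exact if_neg (fun h => h.1)
  rw [e2, zero_add, Fintype.sum_prod_type]
  set c : Fin (nC g) → ℝ := fun i =>
    (if y ∉ HH D u X W i ∧ y' ∉ HH D u X W i then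
        q02 D u X W i y y' + 3 * q0 D u X W i y * q0 D u X W i y' else 0) with hc
  have e3 : ∀ (i : {i : Fin (nC g) // hard W i}) (j : Fin (nr g)), F (Sum.inr (i, j)) ≤ 4 * c i.1 := by
    intro i j
    have n1 := q02_nonneg (D := D) (u := u) (X := X) (W := W) i.1 y y'
    have n2 := q0_nonneg (D := D) (u := u) (X := X) (W := W) i.1 y
    have n3 := q0_nonneg (D := D) (u := u) (X := X) (W := W) i.1 y'
    rw [hF, hc]
    by_cases hz : y ∉ HH D u X W i.1 ∧ y' ∉ HH D u X W i.1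
    · have a1 : P1 (A0 D u X W i.1 ∩ REG D u X W) y ≤ 2 * q0 D u X W i.1 y :=
        h1 D hG hL G u X W hS i.1 y
      have a2 : P1 (A0 D u X W i.1 ∩ REG D u X W) y' ≤ 2 * q0 D u X W i.1 y' :=
        h1 D hG hL G u X W hS i.1 y'
      have a3 : P2 (A0 D u X W i.1 ∩ REG D u X W) ≤ 2 * q02 D u X W i.1 y y' :=
        h2 D hG hL G u X W hS i.1 y y'
      have p1 : 0 ≤ P1 (A0 D u X W i.1 ∩ REG D u X W) y := by rw [hP1]; positivity
      have p2 : 0 ≤ P1 (A0 D u X W i.1 ∩ REG D u X W) y' := by rw [hP1]; positivity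
      have a4 : P1 (A0 D u X W i.1 ∩ REG D u X W) y * P1 (A0 D u X W i.1 ∩ REG D u X W) y' ≤
          (2 * q0 D u X W i.1 y) * (2 * q0 D u X W i.1 y') :=
        mul_le_mul a1 a2 p2 (by linarith)
      have s1 : (if y ∉ HH D u X W i.1 ∧ y' ∉ HH D u X W i.1 then
        q02 D u X W i.1 y y' + 3 * q0 D u X W i.1 y * q0 D u X W i.1 y' else 0) =
          q02 D u X W i.1 y y' + 3 * q0 D u X W i.1 y * q0 D u X W i.1 y' := if_pos hz
      have s2 : (if hds W (Sum.inr (i, j)) ∧ y ∉ zon D u X W (Sum.inr (i, j)) ∧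
          y' ∉ zon D u X W (Sum.inr (i, j)) then
          P2 (pop D u X W (Sum.inr (i, j))) + 3 * P1 (pop D u X W (Sum.inr (i, j))) y *
            P1 (pop D u X W (Sum.inr (i, j))) y' else 0) =
          P2 (A0 D u X W i.1 ∩ REG D u X W) + 3 * P1 (A0 D u X W i.1 ∩ REG D u X W) y *
            P1 (A0 D u X W i.1 ∩ REG D u X W) y' := if_pos ⟨trivial, hz.1, hz.2⟩
      refine le_trans (le_of_eq s2) (le_trans ?_ (le_of_eq (congrArg (fun t => 4 * t) s1.symm)))
      nlinarith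
    · have s1 : (if y ∉ HH D u X W i.1 ∧ y' ∉ HH D u X W i.1 then
        q02 D u X W i.1 y y' + 3 * q0 D u X W i.1 y * q0 D u X W i.1 y' else 0) = 0 := if_neg hz
      have s2 : (if hds W (Sum.inr (i, j)) ∧ y ∉ zon D u X W (Sum.inr (i, j)) ∧
          y' ∉ zon D u X W (Sum.inr (i, j)) then
          P2 (pop D u X W (Sum.inr (i, j))) + 3 * P1 (pop D u X W (Sum.inr (i, j))) y *
            P1 (pop D u X W (Sum.inr (i, j))) y' else 0) = 0 := if_neg (fun h => hz ⟨h.2.1, h.2.2⟩)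
      refine le_trans (le_of_eq s2) (le_trans ?_ (le_of_eq (congrArg (fun t => 4 * t) s1.symm)))
      norm_num
  have e4 : ∑ i : {i : Fin (nC g) // hard W i}, ∑ j : Fin (nr g), F (Sum.inr (i, j)) ≤
      ∑ i : {i : Fin (nC g) // hard W i}, (g : ℝ) ^ 9 * (4 * c i.1) := by
    refine Finset.sum_le_sum (fun i _ => ?_)
    refine le_trans (Finset.sum_le_sum (fun j _ => e3 i j)) ?_
    rw [Finset.sum_const, Finset.card_univ, Fintype.card_fin, nsmul_eq_mul, nr_cast]
  refine le_trans e4 ?_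
  have e5 : ∑ i ∈ Finset.univ.filter (fun i : Fin (nC g) => hard W i), (g : ℝ) ^ 9 * (4 * c i) =
      ∑ i : {i : Fin (nC g) // hard W i}, (g : ℝ) ^ 9 * (4 * c i.1) :=
    Finset.sum_subtype _ (by intro x; rw [Finset.mem_filter]; simp only [Finset.mem_univ, true_and])
      (fun i => (g : ℝ) ^ 9 * (4 * c i))
  rw [← e5]
  have e6 : (mkE D u X W).G y y' = (g : ℝ) ^ 9 *
      ∑ i ∈ Finset.univ.filter (fun i : Fin (nC g) => hard W i), c i := by
    change Gm D u X W y y' = _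
    unfold Gm
    rw [if_pos ⟨hy, hy', hyy⟩]
  rw [e6, Finset.mul_sum, Finset.mul_sum]
  refine le_of_eq (Finset.sum_congr rfl (fun i _ => ?_))
  ring

end Pool.Larman
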