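import Pool.Agent.Larman.EnvDefs
import Pool.Agent.Larman.EnvRow
import Pool.Agent.Larman.EnvA

/-! # T4: pair weights of two players -/

set_option autoImplicit false

open scoped BigOperators Classical

noncomputable section

namespace Pool.Larman

open Filter

/-- the tilted units of a pair of players -/
private theorem EnvPair2_card {g : ℕ} (hg : 1 ≤ g) {D : Dat g} (hS : Geo D.S) {u w : Pl g}
    {X : Finset (Un g)} (hw : w ≠ u) :
    (((D.Z u w) ∩ D.Mu u X).card : ℝ) ≤ 2 * (g : ℝ) ^ 100 := by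
  have h1 : (D.Z u w) ∩ D.Mu u X ⊆ kind 0 (D.S u ∩ D.S w) := by
    intro y hy
    rw [Finset.mem_inter] at hy
    unfold Dat.Mu kind at hy
    unfold Dat.Z at hy
    unfold kind
    rw [Finset.mem_filter]
    exact ⟨hy.1, (Finset.mem_filter.1 (Finset.mem_sdiff.1 hy.2).1).2⟩
  have h2 := (abs_le.1 (hS.g1z u w (Ne.symm hw) 0)).2
  have h3 : (((D.Z u w) ∩ D.Mu u X).card : ℝ) ≤ ((kind 0 (D.S u ∩ D.S w)).card : ℝ) := by
    exact_mod_cast Finset.card_le_card h1
  have hg1 : (1 : ℝ) ≤ g := by exact_mod_cast hg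
  have h4 : (g : ℝ) ^ 51 ≤ (g : ℝ) ^ 100 := pow_le_pow_right₀ hg1 (by norm_num)
  linarith

/-- double counting -/
private theorem EnvPair2_q02 {g : ℕ} {D : Dat g} (hS : Geo D.S) {u w : Pl g}
    {X : Finset (Un g)} {W : Fin (nC g) → Finset (Pl g)} (hw : w ≠ u) (i : Fin (nC g))
    (y' : Un g) (A : Finset (Un g)) (hA : A ⊆ D.Z u w) :
    ∑ y ∈ A, q02 D u X W i y y' ≤
      50 * q0 D u X W i y' + (A.card : ℝ) / ((A0 D u X W i).card : ℝ) := by
  have h1 : ∑ y ∈ A, ((A0 D u X W i).filter (fun v => y ∈ D.S v ∧ y' ∈ D.S v)).card =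
      ∑ v ∈ (A0 D u X W i).filter (fun v => y' ∈ D.S v), (A.filter (fun y => y ∈ D.S v)).card := by
    have h2 : ∀ y ∈ A, ((A0 D u X W i).filter (fun v => y ∈ D.S v ∧ y' ∈ D.S v)).card =
        ∑ v ∈ (A0 D u X W i).filter (fun v => y' ∈ D.S v), if y ∈ D.S v then 1 else 0 := by
      intro y _
      rw [← Finset.card_filter, Finset.filter_filter]
      congr 1
      refine Finset.filter_congr (fun v _ => ?_)
      exact and_comm
    rw [Finset.sum_congr rfl h2, Finset.sum_comm]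
    refine Finset.sum_congr rfl (fun v _ => ?_)
    rw [Finset.card_filter]
  have h3 : ∑ v ∈ (A0 D u X W i).filter (fun v => y' ∈ D.S v),
      (A.filter (fun y => y ∈ D.S v)).card ≤
      ∑ v ∈ (A0 D u X W i).filter (fun v => y' ∈ D.S v), (50 + if v = w then A.card else 0) := by
    refine Finset.sum_le_sum (fun v hv => ?_)
    by_cases hvw : v = w
    · rw [if_pos hvw]
      exact (Finset.card_le_card (Finset.filter_subset _ _)).trans (by omega)
    · rw [if_neg hvw, add_zero]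
      have hvu : v ≠ u := by
        have := (Finset.mem_filter.1 hv).1
        unfold A0 at this
        exact (Finset.mem_filter.1 this).2.1
      have h4 := hS.g2 u w v (Ne.symm hw) (Ne.symm hvu) (Ne.symm hvw)
      refine le_trans (Finset.card_le_card ?_) h4
      intro y hy
      rw [Finset.mem_filter] at hy
      have h5 := hA hy.1
      unfold Dat.Z at h5
      rw [Finset.mem_inter]
      exact ⟨h5, hy.2⟩
  have h5 : ∑ v ∈ (A0 D u X W i).filter (fun v => y' ∈ D.S v),
      (50 + if v = w then A.card else 0) ≤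
      50 * ((A0 D u X W i).filter (fun v => y' ∈ D.S v)).card + A.card := by
    rw [Finset.sum_add_distrib, Finset.sum_const, smul_eq_mul, Finset.sum_ite_eq']
    have : (if w ∈ (A0 D u X W i).filter (fun v => y' ∈ D.S v) then A.card else 0) ≤ A.card := by
      split_ifs <;> omega
    omega
  have h6 : ∑ y ∈ A, ((A0 D u X W i).filter (fun v => y ∈ D.S v ∧ y' ∈ D.S v)).card ≤
      50 * ((A0 D u X W i).filter (fun v => y' ∈ D.S v)).card + A.card := by
    rw [h1]; exact h3.trans h5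
  have h7 : (∑ y ∈ A, (((A0 D u X W i).filter (fun v => y ∈ D.S v ∧ y' ∈ D.S v)).card : ℝ)) ≤
      50 * (((A0 D u X W i).filter (fun v => y' ∈ D.S v)).card : ℝ) + (A.card : ℝ) := by
    exact_mod_cast h6
  unfold q02 q0
  rw [← Finset.sum_div, ← mul_div_assoc, ← add_div]
  exact div_le_div_of_nonneg_right h7 (Nat.cast_nonneg _)

/-- column sums of the pair weight over the zone of a player -/
private theorem EnvPair2_col : ∀ᶠ g : ℕ in atTop, ∀ D : Dat g, Geo D.S → D.Lab →
    ∀ (G : Fin (nC g) → Finset (Finset (Pt g))) (u : Pl g) (X : Finset (Un g))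
      (W : Fin (nC g) → Finset (Pl g)), Sel D G u X W →
    ∀ w, w ≠ u → ∀ y', ∑ y ∈ D.Z u w, Gm D u X W y y' ≤ 602 * (g : ℝ) ^ 36 := by
  filter_upwards [eventually_ge_atTop 1, A0_large, ev_pow 2 (show 1050 < 9993 by norm_num),
    ev_pow 864 (show 100 < 950 by norm_num)] with g hg hA e1 e2
  intro D hS hL G u X W hSel w hw y'
  have hg1 : (1 : ℝ) ≤ g := by exact_mod_cast hg
  have hg0 : (0 : ℝ) < g := by linarith
  by_cases hy' : y' ∈ D.Mu u X
  swap
  · have h0 : ∑ y ∈ D.Z u w, Gm D u X W y y' = 0 := by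
      refine Finset.sum_eq_zero (fun y _ => ?_)
      by_contra hne
      exact hy' (Gm_supp hne).2
    rw [h0]; positivity
  set A : Finset (Un g) := D.Z u w ∩ D.Mu u X with hAdef
  have hAc : (A.card : ℝ) ≤ 2 * (g : ℝ) ^ 100 := EnvPair2_card hg hS hw
  -- restrict to A
  have h1 : ∑ y ∈ D.Z u w, Gm D u X W y y' = ∑ y ∈ A, Gm D u X W y y' := by
    symm
    refine Finset.sum_subset Finset.inter_subset_left (fun y hy hyA => ?_)
    by_contra hne
    exact hyA (Finset.mem_inter.2 ⟨hy, (Gm_supp hne).1⟩)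
  rw [h1]
  -- the terms
  set T : Fin (nC g) → Un g → ℝ := fun i y =>
    if y ∉ HH D u X W i ∧ y' ∉ HH D u X W i then
        q02 D u X W i y y' + 3 * q0 D u X W i y * q0 D u X W i y' else 0 with hT
  have hT0 : ∀ i y, 0 ≤ T i y := by
    intro i y
    simp only [hT]
    split_ifs
    · have h1 := q02_nonneg (D := D) (u := u) (X := X) (W := W) i y y'
      have h2 := q0_nonneg (D := D) (u := u) (X := X) (W := W) i y
      have h3 := q0_nonneg (D := D) (u := u) (X := X) (W := W) i y'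
      positivity
    · exact le_rfl
  have h2 : ∀ y ∈ A, Gm D u X W y y' ≤
      (g : ℝ) ^ 9 * ∑ i ∈ Finset.univ.filter (fun i => hard W i), T i y := by
    intro y _
    unfold Gm
    split_ifs
    · exact le_rfl
    · exact mul_nonneg (by positivity) (Finset.sum_nonneg (fun i _ => hT0 i y))
  have h3 : ∑ y ∈ A, Gm D u X W y y' ≤
      (g : ℝ) ^ 9 * ∑ i ∈ Finset.univ.filter (fun i => hard W i), ∑ y ∈ A, T i y := by
    refine (Finset.sum_le_sum h2).trans (le_of_eq ?_)
    rw [← Finset.mul_sum, Finset.sum_comm]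
  -- one class
  have h4 : ∀ i, ∑ y ∈ A, T i y ≤ 602 / (g : ℝ) ^ 950 := by
    intro i
    by_cases hyi : y' ∈ HH D u X W i
    · have h0 : ∑ y ∈ A, T i y = 0 := by
        refine Finset.sum_eq_zero (fun y _ => ?_)
        simp only [hT]
        rw [if_neg]
        rintro ⟨_, h⟩
        exact h hyi
      rw [h0]; positivity
    · have hq : q0 D u X W i y' ≤ 12 / (g : ℝ) ^ 950 := by
        by_contra hlt
        push Not at hlt
        refine hyi ?_
        unfold HH
        rw [Finset.mem_filter]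
        exact ⟨hy', hlt⟩
      have hq0 := q0_nonneg (D := D) (u := u) (X := X) (W := W) i y'
      have h5 : ∀ y ∈ A, T i y ≤ q02 D u X W i y y' +
          3 * (12 / (g : ℝ) ^ 950) * (12 / (g : ℝ) ^ 950) := by
        intro y hy
        have hyM : y ∈ D.Mu u X := (Finset.mem_inter.1 hy).2
        have h02 := q02_nonneg (D := D) (u := u) (X := X) (W := W) i y y'
        simp only [hT]
        split_ifs with hc
        · have hqy : q0 D u X W i y ≤ 12 / (g : ℝ) ^ 950 := by
            by_contra hlt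
            push Not at hlt
            refine hc.1 ?_
            unfold HH
            rw [Finset.mem_filter]
            exact ⟨hyM, hlt⟩
          have hqy0 := q0_nonneg (D := D) (u := u) (X := X) (W := W) i y
          have h6 : 3 * q0 D u X W i y * q0 D u X W i y' ≤
              3 * (12 / (g : ℝ) ^ 950) * (12 / (g : ℝ) ^ 950) :=
            mul_le_mul (mul_le_mul_of_nonneg_left hqy (by norm_num)) hq hq0 (by positivity)
          linarith
        · positivity
      have h6 := EnvPair2_q02 (X := X) (W := W) hS hw i y' A Finset.inter_subset_left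
      have hAi := hA D hS hL G u X W hSel i
      have hA0 : (0 : ℝ) < ((A0 D u X W i).card : ℝ) := lt_of_lt_of_le (by positivity) hAi
      have h7 : (A.card : ℝ) / ((A0 D u X W i).card : ℝ) ≤ 1 / (g : ℝ) ^ 950 := by
        rw [div_le_div_iff₀ hA0 (by positivity)]
        calc (A.card : ℝ) * (g : ℝ) ^ 950 ≤ 2 * (g : ℝ) ^ 100 * (g : ℝ) ^ 950 :=
              mul_le_mul_of_nonneg_right hAc (by positivity)
          _ = 2 * (g : ℝ) ^ 1050 := by rw [mul_assoc, ← pow_add]
          _ ≤ (g : ℝ) ^ 9993 := e1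
          _ ≤ _ := hAi
          _ = _ := (one_mul _).symm
      have h8 : (A.card : ℝ) * (3 * (12 / (g : ℝ) ^ 950) * (12 / (g : ℝ) ^ 950)) ≤
          1 / (g : ℝ) ^ 950 := by
        calc (A.card : ℝ) * (3 * (12 / (g : ℝ) ^ 950) * (12 / (g : ℝ) ^ 950))
            ≤ 2 * (g : ℝ) ^ 100 * (3 * (12 / (g : ℝ) ^ 950) * (12 / (g : ℝ) ^ 950)) :=
              mul_le_mul_of_nonneg_right hAc (by positivity)
          _ = (864 * (g : ℝ) ^ 100) / ((g : ℝ) ^ 950 * (g : ℝ) ^ 950) := by
              field_simp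
              ring
          _ ≤ (g : ℝ) ^ 950 / ((g : ℝ) ^ 950 * (g : ℝ) ^ 950) :=
              div_le_div_of_nonneg_right e2 (by positivity)
          _ = 1 / (g : ℝ) ^ 950 := by
              field_simp
      calc ∑ y ∈ A, T i y ≤ ∑ y ∈ A, (q02 D u X W i y y' +
          3 * (12 / (g : ℝ) ^ 950) * (12 / (g : ℝ) ^ 950)) := Finset.sum_le_sum h5
        _ = ∑ y ∈ A, q02 D u X W i y y' +
            (A.card : ℝ) * (3 * (12 / (g : ℝ) ^ 950) * (12 / (g : ℝ) ^ 950)) := by
            rw [Finset.sum_add_distrib, Finset.sum_const, nsmul_eq_mul]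
        _ ≤ (50 * (12 / (g : ℝ) ^ 950) + 1 / (g : ℝ) ^ 950) + 1 / (g : ℝ) ^ 950 := by
            have h9 : 50 * q0 D u X W i y' ≤ 50 * (12 / (g : ℝ) ^ 950) :=
              mul_le_mul_of_nonneg_left hq (by norm_num)
            linarith
        _ = 602 / (g : ℝ) ^ 950 := by ring
  have h5 : ((Finset.univ.filter (fun i => hard W i)).card : ℝ) ≤ (g : ℝ) ^ 977 := by
    have h6 := hSel.few
    unfold num at h6
    refine le_trans (le_of_eq ?_) h6
    congr
  calc ∑ y ∈ A, Gm D u X W y y'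
      ≤ (g : ℝ) ^ 9 * ∑ i ∈ Finset.univ.filter (fun i => hard W i), ∑ y ∈ A, T i y := h3
    _ ≤ (g : ℝ) ^ 9 * ∑ i ∈ Finset.univ.filter (fun i => hard W i), 602 / (g : ℝ) ^ 950 :=
        mul_le_mul_of_nonneg_left (Finset.sum_le_sum (fun i _ => h4 i)) (by positivity)
    _ = (g : ℝ) ^ 9 * (((Finset.univ.filter (fun i => hard W i)).card : ℝ) *
        (602 / (g : ℝ) ^ 950)) := by rw [Finset.sum_const, nsmul_eq_mul]
    _ ≤ (g : ℝ) ^ 9 * ((g : ℝ) ^ 977 * (602 / (g : ℝ) ^ 950)) :=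
        mul_le_mul_of_nonneg_left (mul_le_mul_of_nonneg_right h5 (by positivity)) (by positivity)
    _ = 602 * (g : ℝ) ^ 36 := by
        have h6 : (g : ℝ) ^ 9 * ((g : ℝ) ^ 977 * (602 / (g : ℝ) ^ 950)) =
            602 * ((g : ℝ) ^ 986 / (g : ℝ) ^ 950) := by ring
        rw [h6, show (986 : ℕ) = 36 + 950 by norm_num, pow_add,
          mul_div_cancel_right₀ _ (by positivity)]

/-- Proof. Fix `w ≠ u` and let `a y' = ∑ y ∈ Z u w, Gm y y'`.
(i) `a y' ≤ 2500 g^36` for all `y'`: let `y' ∈ Mu` (otherwise `a y' = 0`). For a hard `i` with `y' ∉ HH i`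
the contribution to `a y'/g^9` is at most
`∑ y ∈ Z u w ∩ Mu, y ≠ y', y ∉ HH i: q02 i y y' + 3 q0 i y q0 i y'`. First part:
`∑ y ∈ Z u w ∩ Mu, q02 i y y' = (∑ v ∈ A0 i with y' ∈ S v, |S v ∩ Z u w ∩ Mu|)/|A0 i|`; for `v ≠ w` the
cardinality is at most 50 (`Geo.g2` for u, w, v), for `v = w` at most `2 g^100` (`Geo.g1z`, `Mu` has
kind 0); so the first part is at most `50 q0 i y' + 2 g^100/g^9993 ≤ 600/g^950 + 1/g^950` (`A0_large`,
`q0 i y' ≤ 12/g^950`). Second part: `3 (12/g^950)^2 * 2 g^100 ≤ 1/g^950`. So `a y' ≤ g^9 g^977 602/g^950 =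
602 g^36`.
(ii) `∑ y', a y' = ∑ y ∈ Z u w ∩ Mu, ∑ y', Gm y y' ≤ 2 g^100 * 60 g^136` (`Gm_row`, `Geo.g1z`; `Gm y y' = 0`
for `y ∉ Mu`).
(iii) `Geo.g5` for `a/(2500 g^36)` (supported on `Mu`, at most `g^1050` units): for all `w'` except
`g^4000` players `∑ y' ∈ S w', a y' ≤ 2500 g^36 (4 * 120 g^236/(2500 g^36)/g^950 + g) ≤ 2500 g^36 (g + 1) ≤
g^67`, and `GGm (Z u w) (Z u w') ≤ ∑ y' ∈ S w', a y'` (`Z u w' ⊆ S w'`, `Gm ≥ 0`). -/
theorem GG_pair : ∀ᶠ g : ℕ in atTop, ∀ D : Dat g, Geo D.S → D.Lab →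
    ∀ (G : Fin (nC g) → Finset (Finset (Pt g))) (u : Pl g) (X : Finset (Un g))
      (W : Fin (nC g) → Finset (Pl g)), Sel D G u X W →
    ∀ w, w ≠ u →
      num (fun w' => (g : ℝ) ^ 67 < GGm D u X W (D.Z u w) (D.Z u w')) ≤ (g : ℝ) ^ 4000 := by
  filter_upwards [eventually_ge_atTop 1, EnvPair2_col, Gm_row,
    ev_pow 960 (show 236 < 950 by norm_num), ev_pow 1204 (show 37 < 67 by norm_num)]
    with g hg hcol hrow e1 e2
  intro D hS hL G u X W hSel w hw
  have hg1 : (1 : ℝ) ≤ g := by exact_mod_cast hg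
  have hg0 : (0 : ℝ) < g := by linarith
  have hcol' := hcol D hS hL G u X W hSel w hw
  have hrow' := hrow D hS hL G u X W hSel
  set a : Un g → ℝ := fun y' => ∑ y ∈ D.Z u w, Gm D u X W y y' with ha
  have ha0 : ∀ y', 0 ≤ a y' := fun y' => Finset.sum_nonneg (fun y _ => Gm_nonneg y y')
  set C : ℝ := 602 * (g : ℝ) ^ 36 with hC
  have hC0 : 0 < C := by positivity
  -- total mass
  have hmass : ∑ y', a y' ≤ 120 * (g : ℝ) ^ 236 := by
    have h1 : ∑ y', a y' = ∑ y ∈ D.Z u w, ∑ y', Gm D u X W y y' := by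
      simp only [ha]
      exact Finset.sum_comm
    have h2 : ∑ y ∈ D.Z u w, ∑ y', Gm D u X W y y' =
        ∑ y ∈ D.Z u w ∩ D.Mu u X, ∑ y', Gm D u X W y y' := by
      symm
      refine Finset.sum_subset Finset.inter_subset_left (fun y hy hyA => ?_)
      refine Finset.sum_eq_zero (fun y' _ => ?_)
      by_contra hne
      exact hyA (Finset.mem_inter.2 ⟨hy, (Gm_supp hne).1⟩)
    rw [h1, h2]
    calc ∑ y ∈ D.Z u w ∩ D.Mu u X, ∑ y', Gm D u X W y y'
        ≤ ∑ y ∈ D.Z u w ∩ D.Mu u X, 60 * (g : ℝ) ^ 136 :=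
          Finset.sum_le_sum (fun y _ => hrow' y)
      _ = ((D.Z u w ∩ D.Mu u X).card : ℝ) * (60 * (g : ℝ) ^ 136) := by
          rw [Finset.sum_const, nsmul_eq_mul]
      _ ≤ 2 * (g : ℝ) ^ 100 * (60 * (g : ℝ) ^ 136) :=
          mul_le_mul_of_nonneg_right (EnvPair2_card hg hS hw) (by positivity)
      _ = 120 * (g : ℝ) ^ 236 := by
          rw [show (236 : ℕ) = 100 + 136 by norm_num, pow_add]; ring
  -- the support
  have hsupp : num (fun y => a y / C ≠ 0) ≤ 3 * (g : ℝ) ^ 1050 := by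
    have h1 : num (fun y => a y / C ≠ 0) ≤ ((kind 0 (D.S u)).card : ℝ) := by
      unfold num
      have : (Finset.univ.filter (fun y => a y / C ≠ 0)) ⊆ kind 0 (D.S u) := by
        intro y hy
        have h2 := (Finset.mem_filter.1 hy).2
        have h3 : a y ≠ 0 := by
          intro h
          exact h2 (by rw [h, zero_div])
        have h4 : ∃ z ∈ D.Z u w, Gm D u X W z y ≠ 0 := by
          by_contra hne
          push Not at hne
          exact h3 (Finset.sum_eq_zero hne)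
        obtain ⟨z, _, hz⟩ := h4
        have h5 := (Gm_supp hz).2
        unfold Dat.Mu at h5
        exact (Finset.mem_sdiff.1 h5).1
      exact_mod_cast Finset.card_le_card this
    have h2 := hS.g1 u 0
    have h3 : (0 : ℝ) ≤ (g : ℝ) ^ 1050 := by positivity
    linarith
  have hg5 := hS.g5 (fun y => a y / C)
    (fun y => ⟨div_nonneg (ha0 y) hC0.le, (div_le_one hC0).2 (hcol' y)⟩) hsupp
  refine le_trans ?_ hg5
  unfold num
  have hsub : (Finset.univ.filter
      (fun w' => (g : ℝ) ^ 67 < GGm D u X W (D.Z u w) (D.Z u w'))) ⊆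
      (Finset.univ.filter (fun w => 4 * (∑ y, a y / C) / (g : ℝ) ^ 950 + g <
        ∑ y ∈ D.S w, a y / C)) := by
    intro w' hw'
    rw [Finset.mem_filter] at hw' ⊢
    refine ⟨Finset.mem_univ _, ?_⟩
    have h1 := hw'.2
    have h2 : GGm D u X W (D.Z u w) (D.Z u w') ≤ ∑ y ∈ D.S w', a y := by
      unfold GGm
      rw [Finset.sum_comm]
      exact Finset.sum_le_sum_of_subset_of_nonneg (f := a) (by
        unfold Dat.Z
        exact Finset.inter_subset_right) (fun y _ _ => ha0 y)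
    rw [← Finset.sum_div, ← Finset.sum_div, lt_div_iff₀ hC0]
    have h3 : (4 * ((∑ y, a y) / C) / (g : ℝ) ^ 950 + g) * C =
        4 * (∑ y, a y) / (g : ℝ) ^ 950 + g * C := by
      field_simp
    rw [h3]
    have h4 : 4 * (∑ y, a y) / (g : ℝ) ^ 950 ≤ 1 / 2 := by
      rw [div_le_iff₀ (by positivity)]
      linarith
    have h5 : (g : ℝ) * C = 602 * (g : ℝ) ^ 37 := by
      rw [hC]; ring
    have h6 : (1 : ℝ) ≤ (g : ℝ) ^ 37 := one_le_pow₀ hg1
    linarith
  exact_mod_cast Finset.card_le_card hsub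

end Pool.Larman
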