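import Pool.Agent.Larman.R2Base
import Pool.Agent.LarH.ProbLow

/-!
# Every block is a C block for few players

Package LAR R2L3.  For fixed `u, b` (union over `g^12000 * 3 g^2000` pairs): the number of `w ≠ u` with
`b ∈ C u w` is `≤ ∑_{w ∈ s} ind ((ω (key u w b)).1 = true)` with
`s = {w : w ≠ u ∧ b ∈ supp (σ w)}`, `|s| ≤ 3 g^11050` (`Geo.g3a`); the coordinates `key u w b`,
`w ∈ s`, are distinct (`key_eq_iff`).  `LarProb.tail_two_inj` with `X w x = ind (x.1 = true)`,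
`M = 3 g^10958` (`Pr_C`), `t = g^10959`: probability
`≤ exp (3 g^10958 - log 2 * g^10959) ≤ exp (- g^10959 / 2)` for large `g`.
-/

set_option autoImplicit false

open scoped BigOperators Classical

noncomputable section

namespace Pool.Larman

open Pool.LarProb (IsP Ex Pr PW unif)

/-- the bound for one player and one unit -/
private theorem t3_one {g : ℕ} (hg : 0 < g) (σ : Pl g → Pc g → Fin (pN g)) (hG : Geo (SS σ))
    (u : Pl g) (b : Un g) :
    Pr (wQ g) (fun ω => (g : ℝ) ^ 10959 ≤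
      num (fun w => w ≠ u ∧ b ∈ (mkD σ ω 0).C u w)) ≤
      Real.exp (3 * (g : ℝ) ^ 10958 - Real.log 2 * (g : ℝ) ^ 10959) := by
  set s : Finset (Pl g) := Finset.univ.filter (fun w => w ≠ u ∧ b ∈ supp (σ w)) with hs
  have hk : ∀ w ∈ s, ∀ w' ∈ s, key u w b = key u w' b → w = w' := by
    intro w hw w' hw' h
    have h1 : w ≠ u := (Finset.mem_filter.1 hw).2.1
    have h2 : w' ≠ u := (Finset.mem_filter.1 hw').2.1
    rcases ((key_eq_iff h1.symm h2.symm).1 h).2 with h3 | h3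
    · exact h3.2
    · exact absurd h3.2 h1
  have hcard : (s.card : ℝ) ≤ 3 * (g : ℝ) ^ 11050 := by
    refine le_trans ?_ (hG.g3a b)
    unfold num
    refine Nat.cast_le.2 (Finset.card_le_card ?_)
    intro w hw
    have h3 : b ∈ SS σ w := (Finset.mem_filter.1 hw).2.2
    simp [h3]
  have hM : ∑ w ∈ s, Ex (wL g) (fun x => LarProb.ind (x.1 = true)) ≤ 3 * (g : ℝ) ^ 10958 := by
    have h1 : Ex (wL g) (fun x => LarProb.ind (x.1 = true)) = 1 / (g : ℝ) ^ 92 := Pr_C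
    rw [h1, Finset.sum_const, nsmul_eq_mul]
    have hg1 : (0 : ℝ) < (g : ℝ) := by exact_mod_cast hg
    rw [mul_one_div, div_le_iff₀ (by positivity)]
    calc (s.card : ℝ) ≤ 3 * (g : ℝ) ^ 11050 := hcard
      _ = 3 * (g : ℝ) ^ 10958 * (g : ℝ) ^ 92 := by
        rw [mul_assoc, ← pow_add]
  have h := LarProb.tail_two_inj (I := Kc g) (wL_isP hg) s (fun w => key u w b) hk
    (fun _ x => LarProb.ind (x.1 = true)) (M := 3 * (g : ℝ) ^ 10958) (t := (g : ℝ) ^ 10959)
    (fun _ _ _ => LarProb.ind_nonneg _) (fun _ _ _ => LarProb.ind_le_one _) hM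
  refine le_trans (LarProb.Pr_mono (wQ_isP hg) (fun ω hω => ?_)) h
  refine hω.trans ?_
  rw [num_eq_cnt]
  unfold LarProb.cnt
  rw [hs, Finset.sum_filter]
  refine Finset.sum_le_sum (fun w _ => ?_)
  split_ifs with h1
  · refine LarProb.ind_mono (fun h2 => ?_)
    exact (mem_C_mkD σ ω 0 |>.1 h2.2).2.2
  · rw [LarProb.ind_false]
    rintro ⟨h2, h3⟩
    exact h1 ⟨h2, (mem_C_mkD σ ω 0 |>.1 h3).1.2⟩

theorem t3 : ∀ᶠ g : ℕ in Filter.atTop, ∀ σ : Pl g → Pc g → Fin (pN g), Geo (SS σ) →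
    Pr (wQ g) (fun ω => ¬ PL3 (mkD σ ω 0)) ≤ 1 / 20 := by
  have e1 := LarProb.ev_exp_small 14000 (c := 1 / 2) (C := 3) (e := 1 / 20) (by norm_num)
    (by norm_num)
  have e2 := LarProb.ev_pow_le (C := 3) (c := 1 / 10) (by norm_num) 10958 10959 (by norm_num)
  filter_upwards [e1, e2, Filter.eventually_ge_atTop 1] with g h1 h2 hg σ hG
  have hg0 : 0 < g := hg
  have hgr : (1 : ℝ) ≤ (g : ℝ) := by exact_mod_cast hg
  have hstep : Pr (wQ g) (fun ω => ¬ PL3 (mkD σ ω 0)) ≤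
      Pr (wQ g) (fun ω => ∃ p ∈ (Finset.univ : Finset (Pl g × Un g)), (g : ℝ) ^ 10959 ≤
        num (fun w => w ≠ p.1 ∧ p.2 ∈ (mkD σ ω 0).C p.1 w)) := by
    refine LarProb.Pr_mono (wQ_isP hg0) (fun ω hω => ?_)
    unfold PL3 at hω
    simp only [not_forall, not_le] at hω
    obtain ⟨u, b, hub⟩ := hω
    exact ⟨(u, b), Finset.mem_univ _, hub.le⟩
  refine hstep.trans ((LarProb.Pr_exists_le_card_mul (wQ_isP hg0) _ _
    (q := Real.exp (-(1 / 2 * (g : ℝ)))) (fun p _ => ?_)).trans ?_)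
  · refine (t3_one hg0 σ hG p.1 p.2).trans (Real.exp_le_exp.2 ?_)
    have hlog : (0.6931471803 : ℝ) < Real.log 2 := Real.log_two_gt_d9
    have hpow : (g : ℝ) ≤ (g : ℝ) ^ 10959 := le_self_pow₀ hgr (by norm_num)
    have hpos : (0 : ℝ) ≤ (g : ℝ) ^ 10959 := by positivity
    set A : ℝ := (g : ℝ) ^ 10959 with hA
    set B : ℝ := (g : ℝ) ^ 10958 with hB
    nlinarith
  · have hc : ((Finset.univ : Finset (Pl g × Un g)).card : ℝ) = 3 * (g : ℝ) ^ 14000 := by
      rw [Finset.card_univ, Fintype.card_prod, Fintype.card_prod, Fintype.card_prod,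
        Fintype.card_fin, Fintype.card_fin, Fintype.card_fin, Fintype.card_fin]
      push_cast
      rw [mP_cast, sN_cast, pN_cast]
      have : (g : ℝ) ^ 14000 = (g : ℝ) ^ 12000 * ((g : ℝ) ^ 1050 * (g : ℝ) ^ 950) := by
        rw [← pow_add, ← pow_add]
      rw [this]
      ring
    rw [hc]
    exact h1

end Pool.Larman
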