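import Pool.Agent.Larman.R2Base

/-!
# The number of admissible patterns

Package LAR R2Pat.  A pattern `s` with `s.st y = none` off `s.dom` is determined by its graph
`{(y, s.st y) : y ∈ s.dom}`, a subset of `Un g × Option Bool` (`9 g^2000` elements) with `|s.dom|`
elements.  `LarProb.card_small_subsets` with `k = g^104` gives at most `(9 g^2000 + 1)^(g^104)` graphs,
`≤ exp (g^104 log (10 g^2000)) ≤ exp (g^105)` for large `g` (`LarProb.ev_pow_log`, `ev_pow_le`).
So put `P` = the image of the small subsets under a map `graph ↦ pattern` (for instance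
`dom = image fst`, `st y = none` off `dom` and otherwise a chosen second coordinate).
-/

set_option autoImplicit false

open scoped BigOperators Classical

noncomputable section

namespace Pool.Larman

/-- the pattern with the given graph -/
private def ofGraph {g : ℕ} (Y : Finset (Un g × Option Bool)) : Pat g :=
  ⟨Y.image Prod.fst, fun y => if h : ∃ o : Option Bool, (y, o) ∈ Y then h.choose else none⟩

private def toGraph {g : ℕ} (s : Pat g) : Finset (Un g × Option Bool) :=
  s.dom.image (fun y => (y, s.st y))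

private theorem mem_toGraph {g : ℕ} (s : Pat g) (y : Un g) (o : Option Bool) :
    (y, o) ∈ toGraph s ↔ y ∈ s.dom ∧ s.st y = o := by
  unfold toGraph
  rw [Finset.mem_image]
  constructor
  · rintro ⟨z, hz, he⟩
    rw [Prod.mk.injEq] at he
    obtain ⟨rfl, rfl⟩ := he
    exact ⟨hz, rfl⟩
  · rintro ⟨h1, h2⟩
    exact ⟨y, h1, by rw [h2]⟩

private theorem ofGraph_toGraph {g : ℕ} (s : Pat g) (hs : ∀ y, y ∉ s.dom → s.st y = none) :
    ofGraph (toGraph s) = s := by
  have h1 : (toGraph s).image Prod.fst = s.dom := by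
    ext y
    rw [Finset.mem_image]
    constructor
    · rintro ⟨⟨z, o⟩, hz, rfl⟩
      exact ((mem_toGraph s z o).1 hz).1
    · intro hy
      exact ⟨(y, s.st y), (mem_toGraph s y _).2 ⟨hy, rfl⟩, rfl⟩
  have h2 : (fun y => if h : ∃ o : Option Bool, (y, o) ∈ toGraph s then h.choose else none)
      = s.st := by
    funext y
    by_cases h : ∃ o : Option Bool, (y, o) ∈ toGraph s
    · rw [dif_pos h]
      exact ((mem_toGraph s y _).1 h.choose_spec).2.symm
    · rw [dif_neg h]
      refine (hs y (fun hy => h ⟨s.st y, (mem_toGraph s y _).2 ⟨hy, rfl⟩⟩)).symm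
  unfold ofGraph
  rw [h1, h2]

private theorem card_cell (g : ℕ) :
    (Fintype.card (Un g × Option Bool) : ℝ) = 9 * (g : ℝ) ^ 2000 := by
  rw [Fintype.card_prod, Fintype.card_prod, Fintype.card_prod, Fintype.card_fin,
    Fintype.card_fin, Fintype.card_fin, Fintype.card_option, Fintype.card_bool]
  push_cast
  rw [sN_cast, pN_cast]
  have h : (g : ℝ) ^ 1050 * (g : ℝ) ^ 950 = (g : ℝ) ^ 2000 := by rw [← pow_add]
  rw [h]
  ring

theorem exists_pats : ∀ᶠ g : ℕ in Filter.atTop, ∃ P : Finset (Pat g),
    (P.card : ℝ) ≤ Real.exp ((g : ℝ) ^ 105) ∧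
    ∀ (D : Dat g) (u : Pl g) (s : Pat g), D.PatOK u s → s ∈ P := by
  filter_upwards [LarProb.ev_exp_small 2000 (c := 1) (C := 10) (e := 1) one_pos one_pos,
    Filter.eventually_ge_atTop 1] with g hg hg1
  have hgr : (1 : ℝ) ≤ g := by exact_mod_cast hg1
  refine ⟨(Finset.univ.filter
    (fun Y : Finset (Un g × Option Bool) => Y.card ≤ g ^ 104)).image ofGraph, ?_, ?_⟩
  · have h1 : (((Finset.univ.filter
        (fun Y : Finset (Un g × Option Bool) => Y.card ≤ g ^ 104)).image ofGraph).card : ℝ)
        ≤ ((Fintype.card (Un g × Option Bool) : ℝ) + 1) ^ (g ^ 104) := by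
      have h2 := le_trans (Finset.card_image_le (s := Finset.univ.filter
        (fun Y : Finset (Un g × Option Bool) => Y.card ≤ g ^ 104)) (f := ofGraph))
        (LarProb.card_small_subsets (Un g × Option Bool) (g ^ 104))
      exact_mod_cast h2
    have h3 : (Fintype.card (Un g × Option Bool) : ℝ) + 1 ≤ Real.exp (g : ℝ) := by
      rw [card_cell]
      have h4 : (1 : ℝ) ≤ (g : ℝ) ^ 2000 := one_le_pow₀ hgr
      have h5 : 10 * (g : ℝ) ^ 2000 ≤ Real.exp (g : ℝ) := by
        have h6 : Real.exp (-(1 * (g : ℝ))) * Real.exp (g : ℝ) = 1 := by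
          rw [← Real.exp_add]
          simp
        have h7 := mul_le_mul_of_nonneg_right hg (Real.exp_pos (g : ℝ)).le
        rw [mul_assoc, h6, mul_one, one_mul] at h7
        exact h7
      linarith
    refine le_trans h1 (le_trans (pow_le_pow_left₀ (by positivity) h3 _) (le_of_eq ?_))
    rw [← Real.exp_nat_mul]
    congr 1
    push_cast
    rw [← pow_succ]
  · intro D u s hs
    rw [Finset.mem_image]
    refine ⟨toGraph s, ?_, ofGraph_toGraph s hs.2.2⟩
    rw [Finset.mem_filter]
    refine ⟨Finset.mem_univ _, ?_⟩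
    have h1 : (toGraph s).card ≤ s.dom.card := Finset.card_image_le
    have h2 : s.dom.card ≤ g ^ 104 := by
      have := hs.2.1
      exact_mod_cast this
    exact le_trans h1 h2

end Pool.Larman
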