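import Pool.Agent.Larman.R2Comp
import Pool.Agent.Larman.R2Pat

/-!
# Many eligible pairs give many compatible pairs

Package LAR R2L4a: only `t4a` (the text for `t4b` is for the other file).  `PatOK` and `Elig` of `mkD σ ω 0` depend only on `σ` (unfold; `mkD_S` is `rfl`).

`t4a`.  Fix `J` with `|J| ≥ g^200` and patterns `φ u ∈ P` for `u ∈ J` (`exists_pats`; take the union
over `J` and over `φ ∈ J.pi (fun _ => P)`, at most `exp (g^105)^|J|` of them, `Finset.card_pi`).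
Let `E` be the set of pairs `(u,v) ∈ J × J`, `u < v`, with admissible patterns, `Elig`.  If
`|E| < |J|^2/100` there is nothing to prove.  Otherwise the events `GoodL σ u v (φ u) (φ v)`,
`(u,v) ∈ E`, depend on the disjoint blocks `blk u v` (`goodL_dep`, `blk_disjoint`: the pairs are
ordered, `u < v`) and have probability `≥ p = 1/(2 g^4)` (`Pr_goodL`), so by `LarProb.count_lower`
`Pr (cnt ≤ p |E| / 2) ≤ exp (-(p |E| / 16)) ≤ exp (-(|J|^2 / (3200 g^4)))`.  If `cnt > p |E| / 2`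
then by `compat_of_goodL` the number of compatible pairs is
`≥ |E| / (4 g^4) ≥ |J|^2 / (400 g^4) ≥ |J|^2 / (800 g^4)`.
So for fixed `J` the probability of failure is
`≤ exp (g^105 |J| - |J|^2/(3200 g^4)) ≤ exp (- g^190)^|J|` as `|J| ≥ g^200`; union over `J`:
`LarProb.Pr_exists_subset_le` (`α = Pl g`, `x = exp (- g^190)`; events `S J` = (g^200 ≤ |J| and
failure)), total `≤ 2 g^12000 exp (- g^190) ≤ 1/20`.

`t4b`.  The same with pairs in `J × J'`, `J, J'` disjoint (the unordered pairs are then distinct):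
`|E| ≥ |J||J'|/2`, failure `≤ exp (-(|J||J'| / (64 g^4)))`, and
`|J||J'| ≥ g^200 (|J| + |J'|) / 2`; union over `J, J'`, `φ`, `φ'`: bound
`x^|J| x^|J'|` with `x = exp (- g^190)`; sum over `J` and `J'` separately
(`LarProb.Pr_exists_le` + `LarProb.sum_pow_card_le` twice).  Conclusion
`|E| / (4 g^4) ≥ |J||J'| / (8 g^4) ≥ |J||J'|/(16 g^4)`.
-/

set_option autoImplicit false

open scoped BigOperators Classical

noncomputable section

namespace Pool.Larman

open Pool.LarProb (IsP Ex Pr PW unif)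

/-- the labels without C and Q -/
private def om0_L4 {g : ℕ} : Kc g → Lq := fun _ => (false, fun _ => false)

/-- the empty pattern -/
private def s0_L4 {g : ℕ} : Pat g := ⟨∅, fun _ => none⟩

/-- the counting bound for a set of eligible pairs -/
private theorem cnt_L4 {g : ℕ} (hg : 0 < g)
    (hG : ∀ (σ : Pl g → Pc g → Fin (pN g)) (ω0 : Kc g → Lq)
      (u v : Pl g) (s s' : Pat g), u ≠ v → (mkD σ ω0 0).PatOK u s → (mkD σ ω0 0).PatOK v s' →
      (mkD σ ω0 0).Elig u v s s' → 1 / (2 * (g : ℝ) ^ 4) ≤ Pr (wQ g) (GoodL σ u v s s'))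
    (σ : Pl g → Pc g → Fin (pN g)) (E : Finset (Pl g × Pl g)) (a b : Pl g → Pat g)
    (hne : ∀ e ∈ E, e.1 ≠ e.2)
    (hdist : ∀ e ∈ E, ∀ e' ∈ E, e ≠ e' →
      ¬ ((e.1 = e'.1 ∧ e.2 = e'.2) ∨ (e.1 = e'.2 ∧ e.2 = e'.1)))
    (ha : ∀ e ∈ E, (mkD σ om0_L4 0).PatOK e.1 (a e.1))
    (hb : ∀ e ∈ E, (mkD σ om0_L4 0).PatOK e.2 (b e.2))
    (hEl : ∀ e ∈ E, (mkD σ om0_L4 0).Elig e.1 e.2 (a e.1) (b e.2)) :
    Pr (wQ g) (fun ω => (g : ℝ) ^ 4 *
      ((E.filter (fun e => (mkD σ ω 0).Compat e.1 e.2 (a e.1) (b e.2))).card : ℝ) ≤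
        (E.card : ℝ) / 4) ≤ Real.exp (-((E.card : ℝ) / (32 * (g : ℝ) ^ 4))) := by
  have hgr : (0 : ℝ) < (g : ℝ) ^ 4 := by positivity
  have h1 := LarProb.count_lower (I := Kc g) (A := fun _ => Lq) (w := fun _ => wL g)
    (fun _ => wL_isP hg) E (fun e => blk e.1 e.2) (fun e => GoodL σ e.1 e.2 (a e.1) (b e.2))
    (fun e _ => goodL_dep σ e.1 e.2 (a e.1) (b e.2))
    (fun e he e' he' hee => blk_disjoint (hne e he) (hne e' he') (hdist e he e' he' hee))
    (p := 1 / (2 * (g : ℝ) ^ 4))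
    (fun e he => hG σ om0_L4 e.1 e.2 (a e.1) (b e.2) (hne e he) (ha e he) (hb e he) (hEl e he))
    (by positivity)
  have h2 : 1 / (2 * (g : ℝ) ^ 4) * (E.card : ℝ) / 16 = (E.card : ℝ) / (32 * (g : ℝ) ^ 4) := by
    field_simp
    ring
  rw [h2] at h1
  refine le_trans (LarProb.Pr_mono (wQ_isP hg) (fun ω hω => ?_)) h1
  have h3 : LarProb.cnt E (fun e => GoodL σ e.1 e.2 (a e.1) (b e.2) ω) ≤
      ((E.filter (fun e => (mkD σ ω 0).Compat e.1 e.2 (a e.1) (b e.2))).card : ℝ) := by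
    rw [LarProb.cnt_eq_card]
    have h4 : (E.filter (fun e => GoodL σ e.1 e.2 (a e.1) (b e.2) ω)) ⊆
        E.filter (fun e => (mkD σ ω 0).Compat e.1 e.2 (a e.1) (b e.2)) := by
      intro e he
      rw [Finset.mem_filter] at he ⊢
      refine ⟨he.1, ?_⟩
      exact compat_of_goodL σ ω 0 (hne e he.1) (ha e he.1) (hb e he.1) (hEl e he.1) he.2
    exact_mod_cast Finset.card_le_card h4
  refine h3.trans ?_
  have h5 : 1 / (2 * (g : ℝ) ^ 4) * (E.card : ℝ) / 2 = (E.card : ℝ) / 4 / (g : ℝ) ^ 4 := by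
    field_simp
    ring
  rw [h5, le_div_iff₀ hgr, mul_comm]
  exact hω

/-- the bad event for the set `J` -/
private def bad_L4a {g : ℕ} (σ : Pl g → Pc g → Fin (pN g)) (J : Finset (Pl g))
    (φ : Pl g → Pat g) (ω : Kc g → Lq) : Prop :=
  (∀ u ∈ J, (mkD σ ω 0).PatOK u (φ u)) ∧
  (J.card : ℝ) ^ 2 / 100 ≤
    (((J ×ˢ J).filter (fun p => p.1 < p.2 ∧
      (mkD σ ω 0).Elig p.1 p.2 (φ p.1) (φ p.2))).card : ℝ) ∧
  (g : ℝ) ^ 4 *
    (((J ×ˢ J).filter (fun p => p.1 < p.2 ∧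
      (mkD σ ω 0).Compat p.1 p.2 (φ p.1) (φ p.2))).card : ℝ) < (J.card : ℝ) ^ 2 / 800

private theorem one_L4a {g : ℕ} (hg : 0 < g)
    (hG : ∀ (σ : Pl g → Pc g → Fin (pN g)) (ω0 : Kc g → Lq)
      (u v : Pl g) (s s' : Pat g), u ≠ v → (mkD σ ω0 0).PatOK u s → (mkD σ ω0 0).PatOK v s' →
      (mkD σ ω0 0).Elig u v s s' → 1 / (2 * (g : ℝ) ^ 4) ≤ Pr (wQ g) (GoodL σ u v s s'))
    (σ : Pl g → Pc g → Fin (pN g)) (J : Finset (Pl g)) (φ : Pl g → Pat g) :
    Pr (wQ g) (bad_L4a σ J φ) ≤ Real.exp (-((J.card : ℝ) ^ 2 / (3200 * (g : ℝ) ^ 4))) := by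
  have hgr : (0 : ℝ) < (g : ℝ) ^ 4 := by positivity
  obtain ⟨E, hE⟩ : ∃ E : Finset (Pl g × Pl g), E = (J ×ˢ J).filter (fun p => p.1 < p.2 ∧
      (mkD σ om0_L4 0).Elig p.1 p.2 (φ p.1) (φ p.2)) := ⟨_, rfl⟩
  by_cases hOK : (∀ u ∈ J, (mkD σ om0_L4 0).PatOK u (φ u)) ∧
      (J.card : ℝ) ^ 2 / 100 ≤ (E.card : ℝ)
  · obtain ⟨h1, h2⟩ := hOK
    have hmem : ∀ e ∈ E, e.1 ∈ J ∧ e.2 ∈ J ∧ e.1 < e.2 ∧
        (mkD σ om0_L4 0).Elig e.1 e.2 (φ e.1) (φ e.2) := by
      intro e he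
      rw [hE, Finset.mem_filter, Finset.mem_product] at he
      exact ⟨he.1.1, he.1.2, he.2.1, he.2.2⟩
    have h3 := cnt_L4 hg hG σ E φ φ (fun e he => (hmem e he).2.2.1.ne)
      (fun e he e' he' hee => by
        rintro (⟨h4, h5⟩ | ⟨h4, h5⟩)
        · exact hee (Prod.ext h4 h5)
        · have h6 := (hmem e he).2.2.1
          have h7 := (hmem e' he').2.2.1
          rw [h4, h5] at h6
          exact lt_asymm h6 h7)
      (fun e he => h1 _ (hmem e he).1) (fun e he => h1 _ (hmem e he).2.1)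
      (fun e he => (hmem e he).2.2.2)
    refine le_trans (LarProb.Pr_mono (wQ_isP hg) (fun ω hω => ?_)) (h3.trans ?_)
    · obtain ⟨-, -, h4⟩ := hω
      have h5 : ((E.filter (fun e => (mkD σ ω 0).Compat e.1 e.2 (φ e.1) (φ e.2))).card : ℝ) ≤
          (((J ×ˢ J).filter (fun p => p.1 < p.2 ∧
            (mkD σ ω 0).Compat p.1 p.2 (φ p.1) (φ p.2))).card : ℝ) := by
        have h6 : E.filter (fun e => (mkD σ ω 0).Compat e.1 e.2 (φ e.1) (φ e.2)) ⊆
            (J ×ˢ J).filter (fun p => p.1 < p.2 ∧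
              (mkD σ ω 0).Compat p.1 p.2 (φ p.1) (φ p.2)) := by
          intro e he
          rw [Finset.mem_filter] at he
          rw [Finset.mem_filter, Finset.mem_product]
          exact ⟨⟨(hmem e he.1).1, (hmem e he.1).2.1⟩, (hmem e he.1).2.2.1, he.2⟩
        exact_mod_cast Finset.card_le_card h6
      have h7 := mul_le_mul_of_nonneg_left h5 hgr.le
      have h8 : (0 : ℝ) ≤ (J.card : ℝ) ^ 2 := by positivity
      linarith
    · apply Real.exp_le_exp.2
      apply neg_le_neg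
      have h5 : (J.card : ℝ) ^ 2 / (3200 * (g : ℝ) ^ 4) =
          (J.card : ℝ) ^ 2 / 100 / (32 * (g : ℝ) ^ 4) := by
        field_simp
        ring
      rw [h5]
      exact div_le_div_of_nonneg_right h2 (by positivity)
  · refine le_trans (le_of_eq (LarProb.Pr_false (fun ω hω => hOK ?_))) (Real.exp_pos _).le
    obtain ⟨h1, h2, -⟩ := hω
    refine ⟨h1, ?_⟩
    rw [hE]
    exact h2

theorem t4a : ∀ᶠ g : ℕ in Filter.atTop, ∀ σ : Pl g → Pc g → Fin (pN g),
    Pr (wQ g) (fun ω => ¬ PL4a (mkD σ ω 0)) ≤ 1 / 20 := by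
  filter_upwards [Pr_goodL, exists_pats, Filter.eventually_ge_atTop 10,
    LarProb.ev_exp_small 12000 (c := 1) (C := 2) (e := 1 / 20) one_pos (by norm_num)]
    with g hG hPats hg10 hexp σ
  obtain ⟨P, hPc, hP⟩ := hPats
  have hg : 0 < g := by omega
  have hgR : (10 : ℝ) ≤ (g : ℝ) := by exact_mod_cast hg10
  have hgr : (0 : ℝ) < (g : ℝ) ^ 4 := by positivity
  obtain ⟨x, hx⟩ : ∃ x : ℝ, x = Real.exp (-(g : ℝ) ^ 190) := ⟨_, rfl⟩
  have hx0 : 0 ≤ x := by
    rw [hx]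
    exact (Real.exp_pos _).le
  -- the final bound
  have hxle : 2 * ((Fintype.card (Pl g) : ℝ) * x) ≤ 1 / 20 := by
    rw [Fintype.card_fin, mP_cast]
    refine le_trans ?_ hexp
    have h1 : x ≤ Real.exp (-(1 * (g : ℝ))) := by
      rw [hx]
      apply Real.exp_le_exp.2
      apply neg_le_neg
      rw [one_mul]
      exact le_self_pow₀ (by linarith) (by norm_num)
    have h2 : (0 : ℝ) ≤ (g : ℝ) ^ 12000 := by positivity
    nlinarith [mul_le_mul_of_nonneg_left h1 h2]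
  have hx1 : (Fintype.card (Pl g) : ℝ) * x ≤ 1 := by
    have h0 : 0 ≤ (Fintype.card (Pl g) : ℝ) * x := mul_nonneg (Nat.cast_nonneg _) hx0
    linarith
  -- the union bound over the sets
  have hmain := LarProb.Pr_exists_subset_le (wQ_isP hg) (Pl g)
    (fun J ω => (g : ℝ) ^ 200 ≤ (J.card : ℝ) ∧ ∃ φ, bad_L4a σ J φ ω) hx0 hx1 (by
      intro J hJne
      by_cases hJ : (g : ℝ) ^ 200 ≤ (J.card : ℝ)
      · obtain ⟨Φ, hΦ⟩ : ∃ Φ : Finset (Pl g → Pat g), Φ = Fintype.piFinset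
          (fun u => if u ∈ J then P else {s0_L4}) := ⟨_, rfl⟩
        have hΦc : (Φ.card : ℝ) ≤ Real.exp ((g : ℝ) ^ 105 * J.card) := by
          rw [hΦ, Fintype.card_piFinset]
          have h1 : ∀ u : Pl g, (if u ∈ J then P else {s0_L4}).card =
              if u ∈ J then P.card else 1 := by
            intro u
            split_ifs
            · rfl
            · exact Finset.card_singleton _
          rw [Finset.prod_congr rfl (fun u _ => h1 u), Finset.prod_ite_mem, Finset.univ_inter,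
            Finset.prod_const]
          push_cast
          rw [mul_comm, Real.exp_nat_mul]
          exact pow_le_pow_left₀ (Nat.cast_nonneg _) hPc _
        have h1 : Pr (wQ g) (fun ω => (g : ℝ) ^ 200 ≤ (J.card : ℝ) ∧ ∃ φ, bad_L4a σ J φ ω) ≤
            Pr (wQ g) (fun ω => ∃ φ ∈ Φ, bad_L4a σ J φ ω) := by
          refine LarProb.Pr_mono (wQ_isP hg) (fun ω hω => ?_)
          obtain ⟨-, φ, h2, h3, h4⟩ := hω
          obtain ⟨ψ, hψ, hψ'⟩ : ∃ ψ : Pl g → Pat g, (∀ u ∈ J, ψ u = φ u) ∧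
              ∀ u, u ∉ J → ψ u = s0_L4 :=
            ⟨fun u => if u ∈ J then φ u else s0_L4, fun u hu => if_pos hu,
              fun u hu => if_neg hu⟩
          refine ⟨ψ, ?_, ?_, ?_, ?_⟩
          · rw [hΦ, Fintype.mem_piFinset]
            intro u
            by_cases hu : u ∈ J
            · rw [if_pos hu, hψ u hu]
              exact hP _ u (φ u) (h2 u hu)
            · rw [if_neg hu, hψ' u hu]
              exact Finset.mem_singleton_self _
          · intro u hu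
            rw [hψ u hu]
            exact h2 u hu
          · refine h3.trans (le_of_eq ?_)
            congr 2
            refine Finset.filter_congr (fun p hp => ?_)
            rw [Finset.mem_product] at hp
            rw [hψ _ hp.1, hψ _ hp.2]
          · refine lt_of_le_of_lt (le_of_eq ?_) h4
            congr 3
            refine Finset.filter_congr (fun p hp => ?_)
            rw [Finset.mem_product] at hp
            rw [hψ _ hp.1, hψ _ hp.2]
        refine h1.trans ((LarProb.Pr_exists_le (wQ_isP hg) Φ (fun φ => bad_L4a σ J φ)).trans ?_)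
        refine (Finset.sum_le_sum (fun φ _ => one_L4a hg hG σ J φ)).trans ?_
        rw [Finset.sum_const, nsmul_eq_mul]
        refine (mul_le_mul_of_nonneg_right hΦc (Real.exp_pos _).le).trans ?_
        rw [hx, ← Real.exp_nat_mul, ← Real.exp_add]
        apply Real.exp_le_exp.2
        -- numerics
        obtain ⟨j, hj⟩ : ∃ j : ℝ, j = (J.card : ℝ) := ⟨_, rfl⟩
        rw [← hj] at hJ ⊢
        have hj0 : 0 < j := lt_of_lt_of_le (by positivity) hJ
        have e1 : (g : ℝ) ^ 105 ≤ (g : ℝ) ^ 190 := pow_le_pow_right₀ (by linarith) (by norm_num)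
        have e2 : (6400 : ℝ) * (g : ℝ) ^ 194 ≤ (g : ℝ) ^ 200 := by
          have e3 : (g : ℝ) ^ 200 = (g : ℝ) ^ 6 * (g : ℝ) ^ 194 := by rw [← pow_add]
          rw [e3]
          have e4 : (10 : ℝ) ^ 6 ≤ (g : ℝ) ^ 6 := pow_le_pow_left₀ (by norm_num) hgR 6
          have e5 : (0 : ℝ) ≤ (g : ℝ) ^ 194 := by positivity
          exact mul_le_mul_of_nonneg_right (le_trans (by norm_num) e4) e5
        have e6 : (2 * (g : ℝ) ^ 190) * (3200 * (g : ℝ) ^ 4) = 6400 * (g : ℝ) ^ 194 := by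
          rw [show (g : ℝ) ^ 194 = (g : ℝ) ^ 190 * (g : ℝ) ^ 4 by rw [← pow_add]]
          ring
        have e7 : 2 * (g : ℝ) ^ 190 * j ≤ j ^ 2 / (3200 * (g : ℝ) ^ 4) := by
          rw [le_div_iff₀ (by positivity)]
          calc 2 * (g : ℝ) ^ 190 * j * (3200 * (g : ℝ) ^ 4)
              = ((2 * (g : ℝ) ^ 190) * (3200 * (g : ℝ) ^ 4)) * j := by ring
            _ = 6400 * (g : ℝ) ^ 194 * j := by rw [e6]
            _ ≤ j * j := mul_le_mul_of_nonneg_right (e2.trans hJ) hj0.le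
            _ = j ^ 2 := by ring
        have e8 : (g : ℝ) ^ 105 * j ≤ (g : ℝ) ^ 190 * j := mul_le_mul_of_nonneg_right e1 hj0.le
        linarith
      · refine le_trans (le_of_eq (LarProb.Pr_false (fun ω hω => hJ hω.1))) (pow_nonneg hx0 _))
  refine le_trans (LarProb.Pr_mono (wQ_isP hg) (fun ω hω => ?_)) (hmain.trans hxle)
  unfold PL4a at hω
  push Not at hω
  obtain ⟨J, φ, h1, h2, h3, h4⟩ := hω
  refine ⟨J, ?_, h1, φ, h2, h3, h4⟩
  rw [← Finset.card_pos]
  have h5 : (0 : ℝ) < (J.card : ℝ) := lt_of_lt_of_le (by positivity) h1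
  exact_mod_cast h5

end Pool.Larman
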