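import Pool.Agent.Larman.R2Comp
import Pool.Agent.Larman.R2Pat

/-!
# Many eligible pairs give many compatible pairs

Package LAR R2L4b: only `t4b` (the text for `t4a` explains the method).  `PatOK` and `Elig` of `mkD σ ω 0` depend only on `σ` (unfold; `mkD_S` is `rfl`).

`t4a`.  Fix `J` with `|J| ≥ g^200` and patterns `φ u ∈ P` for `u ∈ J` (`exists_pats`; take the union
over `J` and over `φ ∈ J.pi (fun _ => P)`, at most `exp (g^105)^|J|` of them, `Finset.card_pi`).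
Let `E` be the set of pairs `(u,v) ∈ J × J`, `u < v`, with admissible patterns, `Elig`.  If
`|E| < |J|^2/100` there is nothing to prove.  Otherwise the events `GoodL σ u v (φ u) (φ v)`,
`(u,v) ∈ E`, depend on the disjoint blocks `blk u v` (`goodL_dep`, `blk_disjoint`: the pairs are
ordered, `u < v`) and have probability `≥ p = 1/(2 g^4)` (`Pr_goodL`), so by `LarProb.count_lower`
`Pr (cnt ≤ p |E| / 2) ≤ exp (-(p |E| / 16)) ≤ exp (-(|J|^2 / (3200 g^4)))`.  If `cnt > p |E| / 2`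
then by `compat_of_goodL` the number of compatible pairs is
`≥ |E| / (4 g^4) ≥ |J|^2 / (400 g^4) ≥ |J|^2 / (800 g^4)`.
So for fixed `J` the probability of failure is
`≤ exp (g^105 |J| - |J|^2/(3200 g^4)) ≤ exp (- g^190)^|J|` as `|J| ≥ g^200`; union over `J`:
`LarProb.Pr_exists_subset_le` (`α = Pl g`, `x = exp (- g^190)`; events `S J` = (g^200 ≤ |J| and
failure)), total `≤ 2 g^12000 exp (- g^190) ≤ 1/20`.

`t4b`.  The same with pairs in `J × J'`, `J, J'` disjoint (the unordered pairs are then distinct):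
`|E| ≥ |J||J'|/2`, failure `≤ exp (-(|J||J'| / (64 g^4)))`, and
`|J||J'| ≥ g^200 (|J| + |J'|) / 2`; union over `J, J'`, `φ`, `φ'`: bound
`x^|J| x^|J'|` with `x = exp (- g^190)`; sum over `J` and `J'` separately
(`LarProb.Pr_exists_le` + `LarProb.sum_pow_card_le` twice).  Conclusion
`|E| / (4 g^4) ≥ |J||J'| / (8 g^4) ≥ |J||J'|/(16 g^4)`.
-/

set_option autoImplicit false

open scoped BigOperators Classical

noncomputable section

namespace Pool.Larman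

open Pool.LarProb (IsP Ex Pr PW unif)

/-- the labels without C and Q -/
private def om0_L4 {g : ℕ} : Kc g → Lq := fun _ => (false, fun _ => false)

/-- the empty pattern -/
private def s0_L4 {g : ℕ} : Pat g := ⟨∅, fun _ => none⟩

/-- the counting bound for a set of eligible pairs -/
private theorem cnt_L4 {g : ℕ} (hg : 0 < g)
    (hG : ∀ (σ : Pl g → Pc g → Fin (pN g)) (ω0 : Kc g → Lq)
      (u v : Pl g) (s s' : Pat g), u ≠ v → (mkD σ ω0 0).PatOK u s → (mkD σ ω0 0).PatOK v s' →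
      (mkD σ ω0 0).Elig u v s s' → 1 / (2 * (g : ℝ) ^ 4) ≤ Pr (wQ g) (GoodL σ u v s s'))
    (σ : Pl g → Pc g → Fin (pN g)) (E : Finset (Pl g × Pl g)) (a b : Pl g → Pat g)
    (hne : ∀ e ∈ E, e.1 ≠ e.2)
    (hdist : ∀ e ∈ E, ∀ e' ∈ E, e ≠ e' →
      ¬ ((e.1 = e'.1 ∧ e.2 = e'.2) ∨ (e.1 = e'.2 ∧ e.2 = e'.1)))
    (ha : ∀ e ∈ E, (mkD σ om0_L4 0).PatOK e.1 (a e.1))
    (hb : ∀ e ∈ E, (mkD σ om0_L4 0).PatOK e.2 (b e.2))
    (hEl : ∀ e ∈ E, (mkD σ om0_L4 0).Elig e.1 e.2 (a e.1) (b e.2)) :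
    Pr (wQ g) (fun ω => (g : ℝ) ^ 4 *
      ((E.filter (fun e => (mkD σ ω 0).Compat e.1 e.2 (a e.1) (b e.2))).card : ℝ) ≤
        (E.card : ℝ) / 4) ≤ Real.exp (-((E.card : ℝ) / (32 * (g : ℝ) ^ 4))) := by
  have hgr : (0 : ℝ) < (g : ℝ) ^ 4 := by positivity
  have h1 := LarProb.count_lower (I := Kc g) (A := fun _ => Lq) (w := fun _ => wL g)
    (fun _ => wL_isP hg) E (fun e => blk e.1 e.2) (fun e => GoodL σ e.1 e.2 (a e.1) (b e.2))
    (fun e _ => goodL_dep σ e.1 e.2 (a e.1) (b e.2))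
    (fun e he e' he' hee => blk_disjoint (hne e he) (hne e' he') (hdist e he e' he' hee))
    (p := 1 / (2 * (g : ℝ) ^ 4))
    (fun e he => hG σ om0_L4 e.1 e.2 (a e.1) (b e.2) (hne e he) (ha e he) (hb e he) (hEl e he))
    (by positivity)
  have h2 : 1 / (2 * (g : ℝ) ^ 4) * (E.card : ℝ) / 16 = (E.card : ℝ) / (32 * (g : ℝ) ^ 4) := by
    field_simp
    ring
  rw [h2] at h1
  refine le_trans (LarProb.Pr_mono (wQ_isP hg) (fun ω hω => ?_)) h1
  have h3 : LarProb.cnt E (fun e => GoodL σ e.1 e.2 (a e.1) (b e.2) ω) ≤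
      ((E.filter (fun e => (mkD σ ω 0).Compat e.1 e.2 (a e.1) (b e.2))).card : ℝ) := by
    rw [LarProb.cnt_eq_card]
    have h4 : (E.filter (fun e => GoodL σ e.1 e.2 (a e.1) (b e.2) ω)) ⊆
        E.filter (fun e => (mkD σ ω 0).Compat e.1 e.2 (a e.1) (b e.2)) := by
      intro e he
      rw [Finset.mem_filter] at he ⊢
      refine ⟨he.1, ?_⟩
      exact compat_of_goodL σ ω 0 (hne e he.1) (ha e he.1) (hb e he.1) (hEl e he.1) he.2
    exact_mod_cast Finset.card_le_card h4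
  refine h3.trans ?_
  have h5 : 1 / (2 * (g : ℝ) ^ 4) * (E.card : ℝ) / 2 = (E.card : ℝ) / 4 / (g : ℝ) ^ 4 := by
    field_simp
    ring
  rw [h5, le_div_iff₀ hgr, mul_comm]
  exact hω

/-- the family of choices of patterns on `J` -/
private def pats_L4b {g : ℕ} (P : Finset (Pat g)) (J : Finset (Pl g)) : Finset (Pl g → Pat g) :=
  Fintype.piFinset (fun u => if u ∈ J then P else {s0_L4})

private theorem card_L4b {g : ℕ} (P : Finset (Pat g)) (J : Finset (Pl g))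
    (hPc : (P.card : ℝ) ≤ Real.exp ((g : ℝ) ^ 105)) :
    ((pats_L4b P J).card : ℝ) ≤ Real.exp ((g : ℝ) ^ 105 * J.card) := by
  unfold pats_L4b
  rw [Fintype.card_piFinset]
  have h1 : ∀ u : Pl g, (if u ∈ J then P else {s0_L4}).card =
      if u ∈ J then P.card else 1 := by
    intro u
    split_ifs
    · rfl
    · exact Finset.card_singleton _
  rw [Finset.prod_congr rfl (fun u _ => h1 u), Finset.prod_ite_mem, Finset.univ_inter,
    Finset.prod_const]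
  push_cast
  rw [mul_comm, Real.exp_nat_mul]
  exact pow_le_pow_left₀ (Nat.cast_nonneg _) hPc _

private theorem exists_L4b {g : ℕ} {P : Finset (Pat g)} {J : Finset (Pl g)} {φ : Pl g → Pat g}
    (h : ∀ u ∈ J, φ u ∈ P) : ∃ ψ ∈ pats_L4b P J, ∀ u ∈ J, ψ u = φ u := by
  obtain ⟨ψ, hψ, hψ'⟩ : ∃ ψ : Pl g → Pat g, (∀ u ∈ J, ψ u = φ u) ∧ ∀ u, u ∉ J → ψ u = s0_L4 :=
    ⟨fun u => if u ∈ J then φ u else s0_L4, fun u hu => if_pos hu, fun u hu => if_neg hu⟩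
  refine ⟨ψ, ?_, hψ⟩
  unfold pats_L4b
  rw [Fintype.mem_piFinset]
  intro u
  by_cases hu : u ∈ J
  · rw [if_pos hu, hψ u hu]
    exact h u hu
  · rw [if_neg hu, hψ' u hu]
    exact Finset.mem_singleton_self _

/-- the bad event for the sets `J`, `J'` -/
private def bad_L4b {g : ℕ} (σ : Pl g → Pc g → Fin (pN g)) (J J' : Finset (Pl g))
    (φ φ' : Pl g → Pat g) (ω : Kc g → Lq) : Prop :=
  (∀ u ∈ J, (mkD σ ω 0).PatOK u (φ u)) ∧ (∀ u ∈ J', (mkD σ ω 0).PatOK u (φ' u)) ∧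
  (J.card : ℝ) * J'.card / 2 ≤
    (((J ×ˢ J').filter (fun p => (mkD σ ω 0).Elig p.1 p.2 (φ p.1) (φ' p.2))).card : ℝ) ∧
  (g : ℝ) ^ 4 *
    (((J ×ˢ J').filter (fun p => (mkD σ ω 0).Compat p.1 p.2 (φ p.1) (φ' p.2))).card : ℝ) <
      (J.card : ℝ) * J'.card / 16

private theorem one_L4b {g : ℕ} (hg : 0 < g)
    (hG : ∀ (σ : Pl g → Pc g → Fin (pN g)) (ω0 : Kc g → Lq)
      (u v : Pl g) (s s' : Pat g), u ≠ v → (mkD σ ω0 0).PatOK u s → (mkD σ ω0 0).PatOK v s' →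
      (mkD σ ω0 0).Elig u v s s' → 1 / (2 * (g : ℝ) ^ 4) ≤ Pr (wQ g) (GoodL σ u v s s'))
    (σ : Pl g → Pc g → Fin (pN g)) (J J' : Finset (Pl g)) (hd : Disjoint J J')
    (φ φ' : Pl g → Pat g) :
    Pr (wQ g) (bad_L4b σ J J' φ φ') ≤
      Real.exp (-((J.card : ℝ) * J'.card / (64 * (g : ℝ) ^ 4))) := by
  have hgr : (0 : ℝ) < (g : ℝ) ^ 4 := by positivity
  obtain ⟨E, hE⟩ : ∃ E : Finset (Pl g × Pl g), E = (J ×ˢ J').filter (fun p =>
      (mkD σ om0_L4 0).Elig p.1 p.2 (φ p.1) (φ' p.2)) := ⟨_, rfl⟩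
  by_cases hOK : (∀ u ∈ J, (mkD σ om0_L4 0).PatOK u (φ u)) ∧
      (∀ u ∈ J', (mkD σ om0_L4 0).PatOK u (φ' u)) ∧ (J.card : ℝ) * J'.card / 2 ≤ (E.card : ℝ)
  · obtain ⟨h1, h1', h2⟩ := hOK
    have hmem : ∀ e ∈ E, e.1 ∈ J ∧ e.2 ∈ J' ∧
        (mkD σ om0_L4 0).Elig e.1 e.2 (φ e.1) (φ' e.2) := by
      intro e he
      rw [hE, Finset.mem_filter, Finset.mem_product] at he
      exact ⟨he.1.1, he.1.2, he.2⟩
    have hdj : ∀ u, u ∈ J → u ∈ J' → False := fun u hu hu' =>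
      Finset.disjoint_left.1 hd hu hu'
    have h3 := cnt_L4 hg hG σ E φ φ' (fun e he h => hdj e.1 (hmem e he).1 (by
        rw [h]
        exact (hmem e he).2.1))
      (fun e he e' he' hee => by
        rintro (⟨h4, h5⟩ | ⟨h4, h5⟩)
        · exact hee (Prod.ext h4 h5)
        · refine hdj e.1 (hmem e he).1 ?_
          rw [h4]
          exact (hmem e' he').2.1)
      (fun e he => h1 _ (hmem e he).1) (fun e he => h1' _ (hmem e he).2.1)
      (fun e he => (hmem e he).2.2)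
    refine le_trans (LarProb.Pr_mono (wQ_isP hg) (fun ω hω => ?_)) (h3.trans ?_)
    · obtain ⟨-, -, -, h4⟩ := hω
      have h5 : ((E.filter (fun e => (mkD σ ω 0).Compat e.1 e.2 (φ e.1) (φ' e.2))).card : ℝ) ≤
          (((J ×ˢ J').filter (fun p =>
            (mkD σ ω 0).Compat p.1 p.2 (φ p.1) (φ' p.2))).card : ℝ) := by
        have h6 : E.filter (fun e => (mkD σ ω 0).Compat e.1 e.2 (φ e.1) (φ' e.2)) ⊆
            (J ×ˢ J').filter (fun p => (mkD σ ω 0).Compat p.1 p.2 (φ p.1) (φ' p.2)) := by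
          intro e he
          rw [Finset.mem_filter] at he
          rw [Finset.mem_filter, Finset.mem_product]
          exact ⟨⟨(hmem e he.1).1, (hmem e he.1).2.1⟩, he.2⟩
        exact_mod_cast Finset.card_le_card h6
      have h7 := mul_le_mul_of_nonneg_left h5 hgr.le
      have h8 : (0 : ℝ) ≤ (J.card : ℝ) * J'.card := by positivity
      linarith
    · apply Real.exp_le_exp.2
      apply neg_le_neg
      have h5 : (J.card : ℝ) * J'.card / (64 * (g : ℝ) ^ 4) =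
          (J.card : ℝ) * J'.card / 2 / (32 * (g : ℝ) ^ 4) := by
        field_simp
        ring
      rw [h5]
      exact div_le_div_of_nonneg_right h2 (by positivity)
  · refine le_trans (le_of_eq (LarProb.Pr_false (fun ω hω => hOK ?_))) (Real.exp_pos _).le
    obtain ⟨h1, h1', h2, -⟩ := hω
    refine ⟨h1, h1', ?_⟩
    rw [hE]
    exact h2

private theorem num_L4b {g : ℕ} (hgR : (10 : ℝ) ≤ (g : ℝ)) {j k : ℝ} (hj : (g : ℝ) ^ 200 ≤ j)
    (hk : (g : ℝ) ^ 200 ≤ k) :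
    (g : ℝ) ^ 105 * j + ((g : ℝ) ^ 105 * k + -(j * k / (64 * (g : ℝ) ^ 4))) ≤
      j * -(g : ℝ) ^ 190 + k * -(g : ℝ) ^ 190 := by
  have hgr : (0 : ℝ) < (g : ℝ) ^ 4 := by positivity
  have hj0 : 0 < j := lt_of_lt_of_le (by positivity) hj
  have hk0 : 0 < k := lt_of_lt_of_le (by positivity) hk
  have e1 : (g : ℝ) ^ 105 ≤ (g : ℝ) ^ 190 := pow_le_pow_right₀ (by linarith) (by norm_num)
  have e2 : (256 : ℝ) * (g : ℝ) ^ 194 ≤ (g : ℝ) ^ 200 := by
    have e3 : (g : ℝ) ^ 200 = (g : ℝ) ^ 6 * (g : ℝ) ^ 194 := by rw [← pow_add]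
    rw [e3]
    have e4 : (10 : ℝ) ^ 6 ≤ (g : ℝ) ^ 6 := pow_le_pow_left₀ (by norm_num) hgR 6
    have e5 : (0 : ℝ) ≤ (g : ℝ) ^ 194 := by positivity
    exact mul_le_mul_of_nonneg_right (le_trans (by norm_num) e4) e5
  have e6 : (4 * (g : ℝ) ^ 190) * (64 * (g : ℝ) ^ 4) = 256 * (g : ℝ) ^ 194 := by
    rw [show (g : ℝ) ^ 194 = (g : ℝ) ^ 190 * (g : ℝ) ^ 4 by rw [← pow_add]]
    ring
  have key : ∀ a b : ℝ, 0 < a → (g : ℝ) ^ 200 ≤ b →
      4 * (g : ℝ) ^ 190 * a ≤ a * b / (64 * (g : ℝ) ^ 4) := by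
    intro a b ha hb
    rw [le_div_iff₀ (by positivity)]
    calc 4 * (g : ℝ) ^ 190 * a * (64 * (g : ℝ) ^ 4)
        = ((4 * (g : ℝ) ^ 190) * (64 * (g : ℝ) ^ 4)) * a := by ring
      _ = 256 * (g : ℝ) ^ 194 * a := by rw [e6]
      _ ≤ b * a := mul_le_mul_of_nonneg_right (e2.trans hb) ha.le
      _ = a * b := by ring
  have e7 := key j k hj0 hk
  have e8 := key k j hk0 hj
  rw [mul_comm k j] at e8
  have e9 : (g : ℝ) ^ 105 * j ≤ (g : ℝ) ^ 190 * j := mul_le_mul_of_nonneg_right e1 hj0.le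
  have e10 : (g : ℝ) ^ 105 * k ≤ (g : ℝ) ^ 190 * k := mul_le_mul_of_nonneg_right e1 hk0.le
  linarith

theorem t4b : ∀ᶠ g : ℕ in Filter.atTop, ∀ σ : Pl g → Pc g → Fin (pN g),
    Pr (wQ g) (fun ω => ¬ PL4b (mkD σ ω 0)) ≤ 1 / 20 := by
  filter_upwards [Pr_goodL, exists_pats, Filter.eventually_ge_atTop 10,
    LarProb.ev_exp_small 12000 (c := 1) (C := 2) (e := 1 / 20) one_pos (by norm_num)]
    with g hG hPats hg10 hexp σ
  obtain ⟨P, hPc, hP⟩ := hPats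
  have hg : 0 < g := by omega
  have hgR : (10 : ℝ) ≤ (g : ℝ) := by exact_mod_cast hg10
  obtain ⟨x, hx⟩ : ∃ x : ℝ, x = Real.exp (-(g : ℝ) ^ 190) := ⟨_, rfl⟩
  have hx0 : 0 ≤ x := by
    rw [hx]
    exact (Real.exp_pos _).le
  -- the final bound
  have hxle : 2 * ((Fintype.card (Pl g) : ℝ) * x) ≤ 1 / 20 := by
    rw [Fintype.card_fin, mP_cast]
    refine le_trans ?_ hexp
    have h1 : x ≤ Real.exp (-(1 * (g : ℝ))) := by
      rw [hx]
      apply Real.exp_le_exp.2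
      apply neg_le_neg
      rw [one_mul]
      exact le_self_pow₀ (by linarith) (by norm_num)
    have h2 : (0 : ℝ) ≤ (g : ℝ) ^ 12000 := by positivity
    nlinarith [mul_le_mul_of_nonneg_left h1 h2]
  have hx1 : (Fintype.card (Pl g) : ℝ) * x ≤ 1 := by
    have h0 : 0 ≤ (Fintype.card (Pl g) : ℝ) * x := mul_nonneg (Nat.cast_nonneg _) hx0
    linarith
  obtain ⟨F, hF⟩ : ∃ F : Finset (Finset (Pl g)),
      F = Finset.univ.filter (fun J => J.Nonempty) := ⟨_, rfl⟩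
  have hsum : ∑ J ∈ F, x ^ J.card ≤ 1 / 20 := by
    rw [hF]
    exact (LarProb.sum_pow_card_le (Pl g) hx0 hx1).trans hxle
  have hsum0 : 0 ≤ ∑ J ∈ F, x ^ J.card := Finset.sum_nonneg (fun J _ => pow_nonneg hx0 _)
  -- one pair of sets
  have hpair : ∀ J J' : Finset (Pl g), Pr (wQ g) (fun ω => Disjoint J J' ∧
      (g : ℝ) ^ 200 ≤ (J.card : ℝ) ∧ (g : ℝ) ^ 200 ≤ (J'.card : ℝ) ∧
      ∃ φ φ', bad_L4b σ J J' φ φ' ω) ≤ x ^ J.card * x ^ J'.card := by
    intro J J'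
    by_cases hJ : Disjoint J J' ∧ (g : ℝ) ^ 200 ≤ (J.card : ℝ) ∧ (g : ℝ) ^ 200 ≤ (J'.card : ℝ)
    · obtain ⟨hd, hJ1, hJ2⟩ := hJ
      have h1 : Pr (wQ g) (fun ω => Disjoint J J' ∧
          (g : ℝ) ^ 200 ≤ (J.card : ℝ) ∧ (g : ℝ) ^ 200 ≤ (J'.card : ℝ) ∧
          ∃ φ φ', bad_L4b σ J J' φ φ' ω) ≤
          Pr (wQ g) (fun ω => ∃ q ∈ (pats_L4b P J) ×ˢ (pats_L4b P J'),
            bad_L4b σ J J' q.1 q.2 ω) := by
        refine LarProb.Pr_mono (wQ_isP hg) (fun ω hω => ?_)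
        obtain ⟨-, -, -, φ, φ', h2, h2', h3, h4⟩ := hω
        obtain ⟨ψ, hψm, hψ⟩ := exists_L4b (P := P) (φ := φ) (J := J)
          (fun u hu => hP _ u (φ u) (h2 u hu))
        obtain ⟨ψ', hψm', hψ'⟩ := exists_L4b (P := P) (φ := φ') (J := J')
          (fun u hu => hP _ u (φ' u) (h2' u hu))
        refine ⟨(ψ, ψ'), Finset.mem_product.2 ⟨hψm, hψm'⟩, ?_, ?_, ?_, ?_⟩
        · intro u hu
          show (mkD σ ω 0).PatOK u (ψ u)
          rw [hψ u hu]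
          exact h2 u hu
        · intro u hu
          show (mkD σ ω 0).PatOK u (ψ' u)
          rw [hψ' u hu]
          exact h2' u hu
        · refine h3.trans (le_of_eq ?_)
          congr 2
          refine Finset.filter_congr (fun p hp => ?_)
          rw [Finset.mem_product] at hp
          show (mkD σ ω 0).Elig p.1 p.2 (φ p.1) (φ' p.2) ↔
            (mkD σ ω 0).Elig p.1 p.2 (ψ p.1) (ψ' p.2)
          rw [hψ _ hp.1, hψ' _ hp.2]
        · refine lt_of_le_of_lt (le_of_eq ?_) h4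
          congr 3
          refine Finset.filter_congr (fun p hp => ?_)
          rw [Finset.mem_product] at hp
          show (mkD σ ω 0).Compat p.1 p.2 (ψ p.1) (ψ' p.2) ↔
            (mkD σ ω 0).Compat p.1 p.2 (φ p.1) (φ' p.2)
          rw [hψ _ hp.1, hψ' _ hp.2]
      refine h1.trans ((LarProb.Pr_exists_le (wQ_isP hg) _
        (fun (q : (Pl g → Pat g) × (Pl g → Pat g)) => bad_L4b σ J J' q.1 q.2)).trans ?_)
      refine (Finset.sum_le_sum (fun q _ => one_L4b hg hG σ J J' hd q.1 q.2)).trans ?_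
      rw [Finset.sum_const, nsmul_eq_mul, Finset.card_product]
      push_cast
      have h5 : ((pats_L4b P J).card : ℝ) * ((pats_L4b P J').card : ℝ) ≤
          Real.exp ((g : ℝ) ^ 105 * J.card) * Real.exp ((g : ℝ) ^ 105 * J'.card) :=
        mul_le_mul (card_L4b P J hPc) (card_L4b P J' hPc) (Nat.cast_nonneg _)
          (Real.exp_pos _).le
      refine (mul_le_mul_of_nonneg_right h5 (Real.exp_pos _).le).trans ?_
      rw [hx, ← Real.exp_nat_mul, ← Real.exp_nat_mul, ← Real.exp_add, ← Real.exp_add,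
        ← Real.exp_add]
      apply Real.exp_le_exp.2
      rw [add_assoc]
      exact num_L4b hgR hJ1 hJ2
    · refine le_trans (le_of_eq (LarProb.Pr_false (fun ω hω => hJ ⟨hω.1, hω.2.1, hω.2.2.1⟩)))
        (mul_nonneg (pow_nonneg hx0 _) (pow_nonneg hx0 _))
  -- the union bound over the sets
  have hmain : Pr (wQ g) (fun ω => ∃ q ∈ F ×ˢ F, Disjoint q.1 q.2 ∧
      (g : ℝ) ^ 200 ≤ (q.1.card : ℝ) ∧ (g : ℝ) ^ 200 ≤ (q.2.card : ℝ) ∧
      ∃ φ φ', bad_L4b σ q.1 q.2 φ φ' ω) ≤ 1 / 20 := by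
    refine (LarProb.Pr_exists_le (wQ_isP hg) (F ×ˢ F) (fun q ω => Disjoint q.1 q.2 ∧
      (g : ℝ) ^ 200 ≤ (q.1.card : ℝ) ∧ (g : ℝ) ^ 200 ≤ (q.2.card : ℝ) ∧
      ∃ φ φ', bad_L4b σ q.1 q.2 φ φ' ω)).trans ?_
    refine (Finset.sum_le_sum (fun (q : Finset (Pl g) × Finset (Pl g)) _ =>
      hpair q.1 q.2)).trans ?_
    have h1 : ∑ q ∈ F ×ˢ F, x ^ q.1.card * x ^ q.2.card =
        (∑ J ∈ F, x ^ J.card) * ∑ J ∈ F, x ^ J.card := by
      rw [Finset.sum_product, Finset.sum_mul_sum]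
    rw [h1]
    nlinarith
  refine le_trans (LarProb.Pr_mono (wQ_isP hg) (fun ω hω => ?_)) hmain
  unfold PL4b at hω
  push Not at hω
  obtain ⟨J, J', φ, φ', hd, h1, h1', h2, h2', h3, h4⟩ := hω
  have hne : ∀ A : Finset (Pl g), (g : ℝ) ^ 200 ≤ (A.card : ℝ) → A ∈ F := by
    intro A hA
    rw [hF, Finset.mem_filter, ← Finset.card_pos]
    refine ⟨Finset.mem_univ _, ?_⟩
    have h5 : (0 : ℝ) < (A.card : ℝ) := lt_of_lt_of_le (by positivity) hA
    exact_mod_cast h5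
  exact ⟨(J, J'), Finset.mem_product.2 ⟨hne J h1, hne J' h1'⟩, hd, h1, h1', φ, φ', h2, h2', h3,
    h4⟩

end Pool.Larman
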