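import Pool.Agent.Larman.R2L7b

/-!
# Existence of hash coefficients

Package LAR R2L7.  `PL7 (mkD σ ω ρ)` fails iff for some `u`, `Dn` (nonempty, `d = |Dn| ≤ 2 g^1033`,
`u ∉ Dn`), `χ` (nonzero on `Dn`) and `E` (`|E| ≤ 60 g^3 d`) the product is `> (1/2)^(g^4 d)`.  Only the
values of `χ` on `Dn` matter: take `χ` in `Fintype.piFinset (fun w => if w ∈ Dn then univ else {0})`,
which has `h^d` elements, `h = hM g = g^52 + 1` (replace `χ` by its restriction).  `E`: at most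
`(3 g^2000 + 1)^(60 g^3 d)` sets (`LarProb.card_small_subsets`).
By `PL7c`, `|U| ≥ g^5 d - 60 g^3 d`, `U = (⋃ C u w) \ E`; by `cos_prod` with `n = g^4 d` the failure
probability for fixed `(u, Dn, χ, E)` is `≤ 4^(g^4 d) (1/2)^(g^5 d - 60 g^3 d)`.
So for fixed `u, Dn`: `≤ x^d`,
`x = (g^52 + 1) (3 g^2000 + 1)^(60 g^3) 4^(g^4) (1/2)^(g^5 - 60 g^3) ≤ exp (- g)` for large `g`
(crude: `g < 2^g`).
Union over `Dn`: `LarProb.Pr_exists_subset_le`; union over `u`: `g^12000`.  Total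
`≤ 2 g^24000 exp (- g) < 1`; then `LarProb.exists_not_of_Pr_lt_one`.
-/

set_option autoImplicit false

open scoped BigOperators Classical

noncomputable section

namespace Pool.Larman

open Pool.LarProb (IsP Ex Pr PW unif)

private theorem r2l7_num (g : ℕ) (hg : 200000 ≤ g) :
    ((g ^ 52 + 1 : ℕ) : ℝ) * ((3 * g ^ 2000 + 1 : ℕ) : ℝ) ^ (60 * g ^ 3) *
      (4 ^ (g ^ 4) * (1 / 2) ^ (g ^ 5 - 60 * g ^ 3)) ≤ Real.exp (-(g : ℝ)) := by
  have hg0 : 0 < g := by omega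
  have h1 : (((g ^ 52 + 1 : ℕ) : ℕ) : ℝ) ≤ (2 : ℝ) ^ (g * 53) := by
    have h : g ^ 52 + 1 ≤ 2 ^ (g * 53) := by
      calc g ^ 52 + 1 ≤ g ^ 52 + g ^ 52 := by
            have : 0 < g ^ 52 := pow_pos hg0 _
            omega
        _ = g ^ 52 * 2 := by ring
        _ ≤ g ^ 52 * g := Nat.mul_le_mul_left _ (by omega)
        _ = g ^ 53 := by rw [← pow_succ]
        _ ≤ (2 ^ g) ^ 53 := Nat.pow_le_pow_left Nat.lt_two_pow_self.le _
        _ = 2 ^ (g * 53) := by rw [← pow_mul]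
    exact_mod_cast h
  have h2 : ((3 * g ^ 2000 + 1 : ℕ) : ℝ) ^ (60 * g ^ 3) ≤ (2 : ℝ) ^ (g * (2001 * (60 * g ^ 3))) := by
    have h : 3 * g ^ 2000 + 1 ≤ (2 ^ g) ^ 2001 := by
      calc 3 * g ^ 2000 + 1 ≤ 3 * g ^ 2000 + g ^ 2000 := by
            have : 0 < g ^ 2000 := pow_pos hg0 _
            omega
        _ = g ^ 2000 * 4 := by ring
        _ ≤ g ^ 2000 * g := Nat.mul_le_mul_left _ (by omega)
        _ = g ^ 2001 := by rw [← pow_succ]
        _ ≤ (2 ^ g) ^ 2001 := Nat.pow_le_pow_left Nat.lt_two_pow_self.le _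
    have h' : (3 * g ^ 2000 + 1) ^ (60 * g ^ 3) ≤ 2 ^ (g * (2001 * (60 * g ^ 3))) := by
      refine (Nat.pow_le_pow_left h _).trans (le_of_eq ?_)
      rw [← pow_mul, ← pow_mul]
    exact_mod_cast h'
  have h3 : (4 : ℝ) ^ (g ^ 4) = 2 ^ (2 * g ^ 4) := by
    rw [pow_mul]; norm_num
  have h4 : g * 53 + g * (2001 * (60 * g ^ 3)) + 2 * g ^ 4 + 2 * g ≤ g ^ 5 - 60 * g ^ 3 := by
    have e1 : g * (2001 * (60 * g ^ 3)) = 120060 * g ^ 4 := by ring
    have e2 : 200000 * g ^ 4 ≤ g ^ 5 := by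
      calc 200000 * g ^ 4 ≤ g * g ^ 4 := Nat.mul_le_mul_right _ hg
        _ = g ^ 5 := by ring
    have e3 : g ^ 3 ≤ g ^ 4 := Nat.pow_le_pow_right hg0 (by norm_num)
    have e4 : g ≤ g ^ 4 := by
      calc g = g ^ 1 := (pow_one g).symm
        _ ≤ g ^ 4 := Nat.pow_le_pow_right hg0 (by norm_num)
    rw [e1]
    omega
  have h5 : (1 / 2 : ℝ) ^ (g ^ 5 - 60 * g ^ 3) ≤
      (1 / 2 : ℝ) ^ (g * 53 + g * (2001 * (60 * g ^ 3)) + 2 * g ^ 4 + 2 * g) :=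
    pow_le_pow_of_le_one (by norm_num) (by norm_num) h4
  have h6 : (1 / 4 : ℝ) ≤ Real.exp (-1) := by
    rw [Real.exp_neg, ← one_div]
    apply one_div_le_one_div_of_le (Real.exp_pos 1)
    linarith [Real.exp_one_lt_d9]
  calc ((g ^ 52 + 1 : ℕ) : ℝ) * ((3 * g ^ 2000 + 1 : ℕ) : ℝ) ^ (60 * g ^ 3) *
      (4 ^ (g ^ 4) * (1 / 2) ^ (g ^ 5 - 60 * g ^ 3))
      ≤ (2 : ℝ) ^ (g * 53) * (2 : ℝ) ^ (g * (2001 * (60 * g ^ 3))) *
        (2 ^ (2 * g ^ 4) *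
          (1 / 2 : ℝ) ^ (g * 53 + g * (2001 * (60 * g ^ 3)) + 2 * g ^ 4 + 2 * g)) := by
        rw [h3]
        gcongr
    _ = ((2 : ℝ) * (1 / 2)) ^ (g * 53 + g * (2001 * (60 * g ^ 3)) + 2 * g ^ 4) *
          ((1 / 2 : ℝ) ^ 2) ^ g := by
        rw [mul_pow, ← pow_mul, pow_add (1 / 2 : ℝ) _ (2 * g), pow_add (2 : ℝ), pow_add (2 : ℝ)]
        ring
    _ = (1 / 4 : ℝ) ^ g := by
        have : (2 : ℝ) * (1 / 2) = 1 := by norm_num
        rw [this, one_pow, one_mul]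
        norm_num
    _ ≤ (Real.exp (-1)) ^ g := pow_le_pow_left₀ (by norm_num) h6 g
    _ = Real.exp (-(g : ℝ)) := by
        rw [← Real.exp_nat_mul]
        congr 1
        ring

private theorem r2l7_card_Un (g : ℕ) : Fintype.card (Un g) = 3 * g ^ 2000 := by
  unfold Un
  rw [Fintype.card_prod, Fintype.card_prod, Fintype.card_fin, Fintype.card_fin, Fintype.card_fin]
  unfold sN pN
  rw [← pow_add]

/-- the failure event for one player `u` and one set `Dn` -/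
private def BadS {g : ℕ} (σ : Pl g → Pc g → Fin (pN g)) (ω : Kc g → Lq) (u : Pl g)
    (Dn : Finset (Pl g)) (ρ : Kc g → ZMod (hM g)) : Prop :=
  u ∉ Dn ∧ (Dn.card : ℝ) ≤ 2 * (g : ℝ) ^ 1033 ∧ ∃ (χ : Pl g → ZMod (hM g)) (E : Finset (Un g)),
    (∀ w ∈ Dn, χ w ≠ 0) ∧ (E.card : ℝ) ≤ 60 * (g : ℝ) ^ 3 * Dn.card ∧
    ¬ (∏ b ∈ (Dn.biUnion (fun w => (mkD σ ω ρ).C u w)) \ E,
        cosq (∑ w ∈ Dn, χ w * (mkD σ ω ρ).lc u w b) ≤ (1 / 2 : ℝ) ^ (g ^ 4 * Dn.card))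

private theorem r2l7_one {g : ℕ} (hg : 200000 ≤ g) (σ : Pl g → Pc g → Fin (pN g))
    (ω : Kc g → Lq) (h7 : PL7c (mkD σ ω 0)) (u : Pl g) (Dn : Finset (Pl g)) (hne : Dn.Nonempty) :
    Pr (wR g) (BadS σ ω u Dn) ≤ (Real.exp (-(g : ℝ))) ^ Dn.card := by
  have hexp0 : 0 ≤ (Real.exp (-(g : ℝ))) ^ Dn.card := by positivity
  by_cases hu : u ∉ Dn ∧ (Dn.card : ℝ) ≤ 2 * (g : ℝ) ^ 1033
  swap
  · refine le_trans (le_of_eq ?_) hexp0
    unfold Pr
    have : ∀ ρ, LarProb.ind (BadS σ ω u Dn ρ) = 0 := by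
      intro ρ
      apply LarProb.ind_false
      intro h
      exact hu ⟨h.1, h.2.1⟩
    unfold Ex
    apply Finset.sum_eq_zero
    intro ρ _
    show wR g ρ * LarProb.ind (BadS σ ω u Dn ρ) = 0
    rw [this, mul_zero]
  obtain ⟨hu1, hu2⟩ := hu
  obtain ⟨d, hd⟩ : ∃ d, d = Dn.card := ⟨_, rfl⟩
  let A : Finset (Pl g → ZMod (hM g)) :=
    Fintype.piFinset (fun w => if w ∈ Dn then Finset.univ else {0})
  let B : Finset (Finset (Un g)) := (Finset.univ : Finset (Finset (Un g))).filter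
    (fun Y => Y.card ≤ 60 * g ^ 3 * d)
  let S : (Pl g → ZMod (hM g)) × Finset (Un g) → (Kc g → ZMod (hM g)) → Prop := fun p ρ =>
    (∀ w ∈ Dn, p.1 w ≠ 0) ∧
    ¬ (∏ b ∈ (Dn.biUnion (fun w => (mkD σ ω ρ).C u w)) \ p.2,
        cosq (∑ w ∈ Dn, p.1 w * (mkD σ ω ρ).lc u w b) ≤ (1 / 2 : ℝ) ^ (g ^ 4 * d))
  have hmono : Pr (wR g) (BadS σ ω u Dn) ≤ Pr (wR g) (fun ρ => ∃ p ∈ A ×ˢ B, S p ρ) := by
    apply LarProb.Pr_mono wR_isP
    rintro ρ ⟨-, -, χ, E, hχ, hE, hp⟩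
    refine ⟨(fun w => if w ∈ Dn then χ w else 0, E), ?_, ?_, ?_⟩
    · rw [Finset.mem_product]
      constructor
      · rw [Fintype.mem_piFinset]
        intro w
        by_cases hw : w ∈ Dn
        · simp [hw]
        · simp [hw]
      · rw [Finset.mem_filter]
        refine ⟨Finset.mem_univ _, ?_⟩
        rw [← hd] at hE
        exact_mod_cast hE
    · intro w hw
      show (if w ∈ Dn then χ w else 0) ≠ 0
      rw [if_pos hw]
      exact hχ w hw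
    · rw [hd]
      intro h
      apply hp
      refine le_trans (le_of_eq ?_) h
      refine Finset.prod_congr rfl (fun b _ => ?_)
      congr 1
      refine Finset.sum_congr rfl (fun w hw => ?_)
      show _ = (if w ∈ Dn then χ w else 0) * _
      rw [if_pos hw]
  have hA : (A.card : ℝ) = ((g ^ 52 + 1 : ℕ) : ℝ) ^ d := by
    have : A.card = (hM g) ^ d := by
      show (Fintype.piFinset (fun w => if w ∈ Dn then (Finset.univ : Finset (ZMod (hM g)))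
        else {0})).card = _
      rw [Fintype.card_piFinset]
      have h : ∀ w : Pl g, (if w ∈ Dn then (Finset.univ : Finset (ZMod (hM g))) else {0}).card =
          if w ∈ Dn then hM g else 1 := by
        intro w
        by_cases hw : w ∈ Dn
        · rw [if_pos hw, if_pos hw, Finset.card_univ, ZMod.card]
        · rw [if_neg hw, if_neg hw, Finset.card_singleton]
      rw [Finset.prod_congr rfl (fun w _ => h w), Finset.prod_ite_mem, Finset.univ_inter,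
        Finset.prod_const, hd]
    rw [this]
    unfold hM
    push_cast
    rfl
  have hB : (B.card : ℝ) ≤ (((3 * g ^ 2000 + 1 : ℕ) : ℝ) ^ (60 * g ^ 3)) ^ d := by
    have h := LarProb.card_small_subsets (Un g) (60 * g ^ 3 * d)
    rw [r2l7_card_Un] at h
    have h' : B.card ≤ (3 * g ^ 2000 + 1) ^ (60 * g ^ 3 * d) := by
      convert h
    rw [← pow_mul]
    exact_mod_cast h'
  have hS : ∀ p ∈ A ×ˢ B, Pr (wR g) (S p) ≤ (4 ^ (g ^ 4) * (1 / 2) ^ (g ^ 5 - 60 * g ^ 3)) ^ d := by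
    rintro ⟨χ, E⟩ hp
    rw [Finset.mem_product] at hp
    have hE : E.card ≤ 60 * g ^ 3 * d := (Finset.mem_filter.mp hp.2).2
    by_cases hχ : ∀ w ∈ Dn, χ w ≠ 0
    · have h1 := cos_prod σ ω u Dn χ E (g ^ 4 * d) hu1 hχ
      have h2 : Pr (wR g) (S (χ, E)) ≤ _ := (LarProb.Pr_mono wR_isP (fun ρ h => h.2)).trans h1
      refine h2.trans ?_
      have h3 := h7 u Dn hu1 hne hu2
      rw [← hd] at h3
      have h4 : g ^ 5 * d ≤ (Dn.biUnion (fun w => (mkD σ ω 0).C u w)).card := by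
        exact_mod_cast h3
      have h5 : (Dn.biUnion (fun w => (mkD σ ω 0).C u w)).card - E.card ≤
          ((Dn.biUnion (fun w => (mkD σ ω 0).C u w)) \ E).card := Finset.le_card_sdiff _ _
      have h6 : (g ^ 5 - 60 * g ^ 3) * d ≤
          ((Dn.biUnion (fun w => (mkD σ ω 0).C u w)) \ E).card := by
        rw [Nat.sub_mul]
        omega
      rw [mul_pow, ← pow_mul, ← pow_mul]
      exact mul_le_mul_of_nonneg_left (pow_le_pow_of_le_one (by norm_num) (by norm_num) h6)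
        (by positivity)
    · have h0 : Pr (wR g) (S (χ, E)) = 0 := by
        unfold Pr Ex
        apply Finset.sum_eq_zero
        intro ρ _
        show wR g ρ * LarProb.ind (S (χ, E) ρ) = 0
        rw [LarProb.ind_false, mul_zero]
        intro h
        exact hχ h.1
      rw [h0]
      positivity
  refine hmono.trans ((LarProb.Pr_exists_le_card_mul wR_isP _ _ hS).trans ?_)
  rw [Finset.card_product, Nat.cast_mul, hA, ← hd]
  have hnum := r2l7_num g hg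
  calc ((g ^ 52 + 1 : ℕ) : ℝ) ^ d * (B.card : ℝ) *
        (4 ^ (g ^ 4) * (1 / 2) ^ (g ^ 5 - 60 * g ^ 3)) ^ d
      ≤ ((g ^ 52 + 1 : ℕ) : ℝ) ^ d * (((3 * g ^ 2000 + 1 : ℕ) : ℝ) ^ (60 * g ^ 3)) ^ d *
        (4 ^ (g ^ 4) * (1 / 2) ^ (g ^ 5 - 60 * g ^ 3)) ^ d := by gcongr
    _ = (((g ^ 52 + 1 : ℕ) : ℝ) * ((3 * g ^ 2000 + 1 : ℕ) : ℝ) ^ (60 * g ^ 3) *
        (4 ^ (g ^ 4) * (1 / 2) ^ (g ^ 5 - 60 * g ^ 3))) ^ d := by
          rw [mul_pow (((g ^ 52 + 1 : ℕ) : ℝ) * ((3 * g ^ 2000 + 1 : ℕ) : ℝ) ^ (60 * g ^ 3)),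
            mul_pow ((g ^ 52 + 1 : ℕ) : ℝ)]
    _ ≤ (Real.exp (-(g : ℝ))) ^ d := pow_le_pow_left₀ (by positivity) hnum d

theorem t7h : ∀ᶠ g : ℕ in Filter.atTop, ∀ (σ : Pl g → Pc g → Fin (pN g)) (ω : Kc g → Lq),
    PL7c (mkD σ ω 0) → ∃ ρ : Kc g → ZMod (hM g), PL7 (mkD σ ω ρ) := by
  filter_upwards [Filter.eventually_ge_atTop 200000,
    LarProb.ev_exp_small (C := 2) (c := 1) (e := 1 / 2) 24000 one_pos (by norm_num)]
    with g hg hexp σ ω h7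
  rw [one_mul] at hexp
  have hg1 : (1 : ℝ) ≤ g := by exact_mod_cast (by omega : 1 ≤ g)
  obtain ⟨x, hx⟩ : ∃ x, x = Real.exp (-(g : ℝ)) := ⟨_, rfl⟩
  have hx0 : 0 ≤ x := hx ▸ (Real.exp_pos _).le
  rw [← hx] at hexp
  have hcard : (Fintype.card (Pl g) : ℝ) = (g : ℝ) ^ 12000 := by
    rw [Fintype.card_fin, mP_cast]
  have hpow : (g : ℝ) ^ 12000 * (g : ℝ) ^ 12000 = (g : ℝ) ^ 24000 := by rw [← pow_add]
  have hone : (1 : ℝ) ≤ (g : ℝ) ^ 12000 := one_le_pow₀ hg1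
  rw [← hpow] at hexp
  clear hpow
  generalize (g : ℝ) ^ 12000 = P at hcard hone hexp
  have hcx : (Fintype.card (Pl g) : ℝ) * x ≤ 1 := by
    rw [hcard]
    nlinarith [mul_nonneg (by linarith : (0 : ℝ) ≤ P) hx0,
      mul_nonneg (by linarith : (0 : ℝ) ≤ P - 1) (mul_nonneg (by linarith : (0 : ℝ) ≤ P) hx0)]
  have hU : ∀ u : Pl g, Pr (wR g) (fun ρ => ∃ J : Finset (Pl g), J.Nonempty ∧ BadS σ ω u J ρ) ≤
      2 * ((Fintype.card (Pl g) : ℝ) * x) := by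
    intro u
    have h := LarProb.Pr_exists_subset_le (wR_isP (g := g)) (Pl g) (BadS σ ω u) hx0 hcx
      (fun J hJ => by rw [hx]; exact r2l7_one hg σ ω h7 u J hJ)
    exact h
  have hT : Pr (wR g) (fun ρ => ∃ u ∈ (Finset.univ : Finset (Pl g)),
      ∃ J : Finset (Pl g), J.Nonempty ∧ BadS σ ω u J ρ) < 1 := by
    refine lt_of_le_of_lt (LarProb.Pr_exists_le_card_mul wR_isP _ _ (fun u _ => hU u)) ?_
    rw [Finset.card_univ, hcard]
    linarith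
  obtain ⟨ρ, hρ⟩ := LarProb.exists_not_of_Pr_lt_one wR_isP hT
  refine ⟨ρ, ?_⟩
  intro u Dn χ E hu hne hc hχ hE
  by_contra hcon
  exact hρ ⟨u, Finset.mem_univ _, Dn, hne, hu, hc, χ, E, hχ, hE, hcon⟩

end Pool.Larman
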