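import Pool.Agent.Larman.R2Base
import Pool.Agent.LarH.ProbLow
import Pool.Agent.Larman.NumA

/-!
# The C blocks of a set of players form a large set

Package LAR R2L7c.  If `PL7c` fails for `u, Dn` (`d = |Dn|`), put `Y = ⋃_{w ∈ Dn} C u w`:
`|Y| < g^5 d` and `C u w ⊆ Y` for all `w ∈ Dn`.
Fix `u`, `Dn` (`u ∉ Dn`, `1 ≤ d ≤ 2 g^1033`) and `Y` with `|Y| ≤ g^5 d`.  The event says: for all
`w ∈ Dn` and all `y` of kind 1 in `supp (σ u) ∩ supp (σ w)`, `y ∉ Y`: `(ω (key u w y)).1 = false`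
(`mem_C_mkD`).  The coordinates `key u w y` are distinct for distinct `(w, y)` (`key_eq_iff`, `u ≠ w`).
The number of these `(w, y)` is
`≥ ∑_w (g^100 - g^51) - ∑_w |S w ∩ Y| ≥ d (g^100 - g^51) - g^100 d / 2 ≥ d g^100 / 3`
(`Geo.g1z` for kind 1, `Geo.g7`).  `LarProb.Ex_prod_inj` over the pairs `(w, y)`
(`LarProb.ind_forall`, `Pr_C`, `LarProb.Pr_not`): probability
`(1 - g^-92)^(d g^100 / 3) ≤ exp (- g^8 d / 3)` (`1 - x ≤ exp (-x)`).
Union over `Y`: `(3 g^2000 + 1)^(g^5 d)` (`LarProb.card_small_subsets`, `k = g^5 d`; the number of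
units is `3 sN pN = 3 g^2000`).  So for fixed `Dn` the probability is `≤ x^d` with
`x = (3 g^2000 + 1)^(g^5) exp (-(g^8/3)) ≤ exp (-(g^8/6))`.  Union over `Dn`:
`LarProb.Pr_exists_subset_le`, and over `u` (`g^12000` players): total
`≤ g^12000 * 2 * g^12000 * exp (-(g^8/6)) ≤ 1/20`.
-/

set_option autoImplicit false

open scoped BigOperators Classical

noncomputable section

namespace Pool.Larman

open Pool.LarProb (IsP Ex Pr PW unif)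

/-- the pairs (w, y) whose C label is forced to be false -/
def fpairs {g : ℕ} (σ : Pl g → Pc g → Fin (pN g)) (u : Pl g) (Dn : Finset (Pl g))
    (Y : Finset (Un g)) : Finset (Pl g × Un g) :=
  Dn.biUnion (fun w => (kind 1 (SS σ u ∩ SS σ w) \ Y).image (fun y => (w, y)))

theorem mem_fpairs {g : ℕ} {σ : Pl g → Pc g → Fin (pN g)} {u : Pl g} {Dn : Finset (Pl g)}
    {Y : Finset (Un g)} {p : Pl g × Un g} :
    p ∈ fpairs σ u Dn Y ↔
      p.1 ∈ Dn ∧ ((p.2 ∈ supp (σ u) ∧ p.2 ∈ supp (σ p.1)) ∧ p.2.1 = 1) ∧ p.2 ∉ Y := by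
  unfold fpairs kind
  simp only [Finset.mem_biUnion, Finset.mem_image, Finset.mem_sdiff, Finset.mem_filter,
    Finset.mem_inter]
  constructor
  · rintro ⟨w, hw, y, hy, rfl⟩
    exact ⟨hw, hy⟩
  · rintro ⟨h1, h2⟩
    exact ⟨p.1, h1, p.2, h2, rfl⟩

theorem card_fpairs {g : ℕ} (σ : Pl g → Pc g → Fin (pN g)) (u : Pl g) (Dn : Finset (Pl g))
    (Y : Finset (Un g)) :
    (fpairs σ u Dn Y).card = ∑ w ∈ Dn, (kind 1 (SS σ u ∩ SS σ w) \ Y).card := by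
  unfold fpairs
  rw [Finset.card_biUnion]
  · refine Finset.sum_congr rfl (fun w _ => ?_)
    exact Finset.card_image_of_injective _ (fun a b h => (Prod.ext_iff.1 h).2)
  · intro w _ w' _ hne
    refine Finset.disjoint_left.2 ?_
    intro p hp hp'
    obtain ⟨y, _, rfl⟩ := Finset.mem_image.1 hp
    obtain ⟨y', _, h⟩ := Finset.mem_image.1 hp'
    exact hne (Prod.ext_iff.1 h).1.symm

theorem card_fpairs_ge {g : ℕ} (hg : 2 ≤ g) {σ : Pl g → Pc g → Fin (pN g)} (hG : Geo (SS σ))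
    {u : Pl g} {Dn : Finset (Pl g)} {Y : Finset (Un g)} (hu : u ∉ Dn) (hne : Dn.Nonempty)
    (hD : (Dn.card : ℝ) ≤ 2 * (g : ℝ) ^ 1033) (hY : (Y.card : ℝ) ≤ (g : ℝ) ^ 5 * Dn.card) :
    (g : ℝ) ^ 100 * Dn.card / 3 ≤ ((fpairs σ u Dn Y).card : ℝ) := by
  have h7 := hG.g7 Dn Y hne hD hY
  have hg2 : (2 : ℝ) ≤ g := by exact_mod_cast hg
  have hg49 : (6 : ℝ) ≤ (g : ℝ) ^ 49 := by
    calc (6 : ℝ) ≤ 2 ^ 49 := by norm_num
      _ ≤ (g : ℝ) ^ 49 := pow_le_pow_left₀ (by norm_num) hg2 49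
  have h51 : 6 * (g : ℝ) ^ 51 ≤ (g : ℝ) ^ 100 := by
    calc 6 * (g : ℝ) ^ 51 ≤ (g : ℝ) ^ 49 * (g : ℝ) ^ 51 :=
          mul_le_mul_of_nonneg_right hg49 (by positivity)
      _ = (g : ℝ) ^ 100 := by rw [← pow_add]
  have hw : ∀ w ∈ Dn, (g : ℝ) ^ 100 - (g : ℝ) ^ 51 - ((SS σ w ∩ Y).card : ℝ) ≤
      ((kind 1 (SS σ u ∩ SS σ w) \ Y).card : ℝ) := by
    intro w hwD
    have hne' : u ≠ w := fun h => hu (h ▸ hwD)
    have h1 := (abs_le.1 (hG.g1z u w hne' 1)).1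
    have h2 : (kind 1 (SS σ u ∩ SS σ w)).card ≤
        (kind 1 (SS σ u ∩ SS σ w) \ Y).card + (SS σ w ∩ Y).card := by
      refine (Finset.card_le_card ?_).trans (Finset.card_union_le _ _)
      intro y hy
      by_cases hyY : y ∈ Y
      · refine Finset.mem_union_right _ (Finset.mem_inter.2 ⟨?_, hyY⟩)
        exact (Finset.mem_inter.1 (Finset.mem_filter.1 hy).1).2
      · exact Finset.mem_union_left _ (Finset.mem_sdiff.2 ⟨hy, hyY⟩)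
    have h3 : ((kind 1 (SS σ u ∩ SS σ w)).card : ℝ) ≤
        ((kind 1 (SS σ u ∩ SS σ w) \ Y).card : ℝ) + ((SS σ w ∩ Y).card : ℝ) := by
      exact_mod_cast h2
    linarith
  have hs := Finset.sum_le_sum hw
  rw [card_fpairs]
  push_cast
  rw [Finset.sum_sub_distrib, Finset.sum_const, nsmul_eq_mul] at hs
  have hd : (0 : ℝ) ≤ Dn.card := Nat.cast_nonneg _
  nlinarith [mul_le_mul_of_nonneg_right h51 hd]

/-- probability of the event for fixed `u, Dn, Y` -/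
theorem Pr_fix {g : ℕ} (hg : 2 ≤ g) {σ : Pl g → Pc g → Fin (pN g)} (hG : Geo (SS σ))
    {u : Pl g} {Dn : Finset (Pl g)} {Y : Finset (Un g)} (hu : u ∉ Dn) (hne : Dn.Nonempty)
    (hD : (Dn.card : ℝ) ≤ 2 * (g : ℝ) ^ 1033) (hY : (Y.card : ℝ) ≤ (g : ℝ) ^ 5 * Dn.card) :
    Pr (wQ g) (fun ω => ∀ w ∈ Dn, (mkD σ ω 0).C u w ⊆ Y) ≤
      Real.exp (-((g : ℝ) ^ 8 / 3)) ^ Dn.card := by
  have hg0 : 0 < g := by omega
  have hg1 : (1 : ℝ) ≤ g := by exact_mod_cast hg0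
  have hw := wQ_isP hg0
  have h1 : Pr (wQ g) (fun ω => ∀ w ∈ Dn, (mkD σ ω 0).C u w ⊆ Y) ≤
      Pr (wQ g) (fun ω => ∀ p ∈ fpairs σ u Dn Y, ¬ (ω (key u p.1 p.2)).1 = true) := by
    refine LarProb.Pr_mono hw (fun ω h p hp => ?_)
    obtain ⟨h1, h2, h3⟩ := mem_fpairs.1 hp
    intro h4
    exact h3 (h p.1 h1 ((mem_C_mkD σ ω 0).2 ⟨h2.1, h2.2, h4⟩))
  refine h1.trans ?_
  have h2 : Pr (wQ g) (fun ω => ∀ p ∈ fpairs σ u Dn Y, ¬ (ω (key u p.1 p.2)).1 = true) =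
      Ex (wQ g) (fun ω => ∏ p ∈ fpairs σ u Dn Y,
        LarProb.ind (¬ (ω (key u p.1 p.2)).1 = true)) :=
    LarProb.Ex_congr (fun ω => LarProb.ind_forall _ _)
  have hinj : ∀ p ∈ fpairs σ u Dn Y, ∀ p' ∈ fpairs σ u Dn Y,
      key u p.1 p.2 = key u p'.1 p'.2 → p = p' := by
    intro p hp p' hp' h
    have a1 : u ≠ p.1 := fun e => hu (e ▸ (mem_fpairs.1 hp).1)
    have a2 : u ≠ p'.1 := fun e => hu (e ▸ (mem_fpairs.1 hp').1)
    obtain ⟨e1, e2 | e2⟩ := (key_eq_iff a1 a2).1 h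
    · exact Prod.ext e2.2 e1
    · exact absurd e2.1 a2
  have h3 : Ex (wQ g) (fun ω => ∏ p ∈ fpairs σ u Dn Y,
        LarProb.ind (¬ (ω (key u p.1 p.2)).1 = true)) =
      ∏ p ∈ fpairs σ u Dn Y, Ex (wL g) (fun x : Lq => LarProb.ind (¬ x.1 = true)) :=
    LarProb.Ex_prod_inj (I := Kc g) (wL_isP hg0) (fpairs σ u Dn Y)
      (fun p => key u p.1 p.2) hinj (fun _ x => LarProb.ind (¬ x.1 = true))
  have h4 : Ex (wL g) (fun x : Lq => LarProb.ind (¬ x.1 = true)) = 1 - 1 / (g : ℝ) ^ 92 := by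
    have := LarProb.Pr_not (wL_isP hg0) (fun x : Lq => x.1 = true)
    rw [Pr_C] at this
    exact this
  rw [h2, h3, h4, Finset.prod_const]
  have h92 : 1 / (g : ℝ) ^ 92 ≤ 1 := by
    rw [div_le_one (by positivity)]; exact one_le_pow₀ hg1
  have h5 : (1 - 1 / (g : ℝ) ^ 92) ^ (fpairs σ u Dn Y).card ≤
      Real.exp (-(1 / (g : ℝ) ^ 92)) ^ (fpairs σ u Dn Y).card := by
    refine pow_le_pow_left₀ (by linarith) ?_ _
    have := Real.add_one_le_exp (-(1 / (g : ℝ) ^ 92))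
    linarith
  refine h5.trans ?_
  rw [← Real.exp_nat_mul, ← Real.exp_nat_mul]
  refine Real.exp_le_exp.2 ?_
  have h6 := card_fpairs_ge hg hG hu hne hD hY
  have h7 : (Dn.card : ℝ) * ((g : ℝ) ^ 8 / 3) ≤
      ((fpairs σ u Dn Y).card : ℝ) * (1 / (g : ℝ) ^ 92) := by
    rw [mul_one_div, le_div_iff₀ (by positivity)]
    have e : (g : ℝ) ^ 100 = (g : ℝ) ^ 8 * (g : ℝ) ^ 92 := by rw [← pow_add]
    rw [e] at h6
    linarith
  linarith

theorem Pr_fixD {g : ℕ} (hg : 2 ≤ g) {σ : Pl g → Pc g → Fin (pN g)} (hG : Geo (SS σ))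
    (u : Pl g) (Dn : Finset (Pl g)) (hne : Dn.Nonempty) :
    Pr (wQ g) (fun ω => u ∉ Dn ∧ (Dn.card : ℝ) ≤ 2 * (g : ℝ) ^ 1033 ∧
        ((Dn.biUnion (fun w => (mkD σ ω 0).C u w)).card : ℝ) < (g : ℝ) ^ 5 * Dn.card) ≤
      (((Fintype.card (Un g) : ℝ) + 1) ^ (g ^ 5) * Real.exp (-((g : ℝ) ^ 8 / 3))) ^ Dn.card := by
  have hg0 : 0 < g := by omega
  have hw := wQ_isP hg0
  by_cases hc : u ∉ Dn ∧ (Dn.card : ℝ) ≤ 2 * (g : ℝ) ^ 1033
  swap
  · rw [LarProb.Pr_false (fun ω h => hc ⟨h.1, h.2.1⟩)]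
    positivity
  obtain ⟨hu, hD⟩ := hc
  have h1 : Pr (wQ g) (fun ω => u ∉ Dn ∧ (Dn.card : ℝ) ≤ 2 * (g : ℝ) ^ 1033 ∧
        ((Dn.biUnion (fun w => (mkD σ ω 0).C u w)).card : ℝ) < (g : ℝ) ^ 5 * Dn.card) ≤
      Pr (wQ g) (fun ω => ∃ Y ∈ (Finset.univ : Finset (Finset (Un g))).filter
        (fun Y => Y.card ≤ g ^ 5 * Dn.card), ∀ w ∈ Dn, (mkD σ ω 0).C u w ⊆ Y) := by
    refine LarProb.Pr_mono hw (fun ω h => ?_)
    refine ⟨Dn.biUnion (fun w => (mkD σ ω 0).C u w), ?_, ?_⟩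
    · rw [Finset.mem_filter]
      refine ⟨Finset.mem_univ _, ?_⟩
      have h3 := h.2.2.le
      exact_mod_cast h3
    · intro w hwD
      exact Finset.subset_biUnion_of_mem (fun w => (mkD σ ω 0).C u w) hwD
  refine h1.trans ?_
  refine (LarProb.Pr_exists_le_card_mul hw _ _
    (q := Real.exp (-((g : ℝ) ^ 8 / 3)) ^ Dn.card) (fun Y hY => ?_)).trans ?_
  · have hY' : Y.card ≤ g ^ 5 * Dn.card := (Finset.mem_filter.1 hY).2
    refine Pr_fix hg hG hu hne hD ?_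
    exact_mod_cast hY'
  · rw [mul_pow]
    refine mul_le_mul_of_nonneg_right ?_ (by positivity)
    have h2 := LarProb.card_small_subsets (Un g) (g ^ 5 * Dn.card)
    rw [← pow_mul]
    have h3 : ((((Finset.univ : Finset (Finset (Un g))).filter
        (fun Y => Y.card ≤ g ^ 5 * Dn.card)).card : ℕ) : ℝ) ≤
        (((Fintype.card (Un g) + 1) ^ (g ^ 5 * Dn.card) : ℕ) : ℝ) := by
      exact_mod_cast h2
    refine le_trans ?_ (h3.trans (le_of_eq (by push_cast; ring)))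
    refine le_of_eq ?_
    congr!

theorem card_Un {g : ℕ} : (Fintype.card (Un g) : ℝ) = 3 * (g : ℝ) ^ 2000 := by
  have : Fintype.card (Un g) = 3 * (sN g * pN g) := by
    simp [Fintype.card_prod]
  rw [this]
  push_cast
  rw [sN_cast, pN_cast, ← pow_add]

theorem x_le {g : ℕ} (hg : 4 ≤ g)
    (hlog : 2001 * (g : ℝ) ^ 5 * Real.log g ≤ 1 / 6 * (g : ℝ) ^ 8) :
    ((Fintype.card (Un g) : ℝ) + 1) ^ (g ^ 5) * Real.exp (-((g : ℝ) ^ 8 / 3)) ≤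
      Real.exp (-(1 / 6 * (g : ℝ) ^ 8)) := by
  have hg4 : (4 : ℝ) ≤ g := by exact_mod_cast hg
  have hgpos : (0 : ℝ) < g := by linarith
  have h1 : (Fintype.card (Un g) : ℝ) + 1 ≤ (g : ℝ) ^ 2001 := by
    rw [card_Un]
    have h2 : (1 : ℝ) ≤ (g : ℝ) ^ 2000 := one_le_pow₀ (by linarith)
    have h3 : (g : ℝ) ^ 2001 = (g : ℝ) ^ 2000 * g := pow_succ _ _
    rw [h3]
    nlinarith
  have h2 : ((Fintype.card (Un g) : ℝ) + 1) ^ (g ^ 5) ≤
      Real.exp (2001 * (g : ℝ) ^ 5 * Real.log g) := by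
    calc ((Fintype.card (Un g) : ℝ) + 1) ^ (g ^ 5) ≤ ((g : ℝ) ^ 2001) ^ (g ^ 5) :=
          pow_le_pow_left₀ (by positivity) h1 _
      _ = (g : ℝ) ^ (2001 * g ^ 5) := by rw [← pow_mul]
      _ = Real.exp (Real.log g) ^ (2001 * g ^ 5) := by rw [Real.exp_log hgpos]
      _ = Real.exp (2001 * (g : ℝ) ^ 5 * Real.log g) := by
          rw [← Real.exp_nat_mul]
          congr 1
          push_cast
          ring
  calc ((Fintype.card (Un g) : ℝ) + 1) ^ (g ^ 5) * Real.exp (-((g : ℝ) ^ 8 / 3)) ≤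
        Real.exp (2001 * (g : ℝ) ^ 5 * Real.log g) * Real.exp (-((g : ℝ) ^ 8 / 3)) :=
        mul_le_mul_of_nonneg_right h2 (Real.exp_pos _).le
    _ = Real.exp (2001 * (g : ℝ) ^ 5 * Real.log g + -((g : ℝ) ^ 8 / 3)) := by
        rw [Real.exp_add]
    _ ≤ Real.exp (-(1 / 6 * (g : ℝ) ^ 8)) := by
        refine Real.exp_le_exp.2 ?_
        linarith

theorem t7c : ∀ᶠ g : ℕ in Filter.atTop, ∀ σ : Pl g → Pc g → Fin (pN g), Geo (SS σ) →
    Pr (wQ g) (fun ω => ¬ PL7c (mkD σ ω 0)) ≤ 1 / 20 := by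
  filter_upwards [Filter.eventually_ge_atTop 4,
    LarProb.ev_pow_log (C := 2001) (c := 1 / 6) (by norm_num) 5 8 (by norm_num),
    ev_exp 2 (c := 1 / 6) (ε := 1 / 20) 24000 8 (by norm_num) (by norm_num) (by norm_num)]
    with g hg hlog hexp σ hG
  have hg0 : 0 < g := by omega
  have hg1 : (1 : ℝ) ≤ g := by exact_mod_cast hg0
  have hw := wQ_isP hg0
  have hx := x_le hg hlog
  set x : ℝ := ((Fintype.card (Un g) : ℝ) + 1) ^ (g ^ 5) * Real.exp (-((g : ℝ) ^ 8 / 3)) with hxd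
  have hx0 : 0 ≤ x := by positivity
  have hm : (Fintype.card (Pl g) : ℝ) = (g : ℝ) ^ 12000 := by
    rw [Fintype.card_fin, mP_cast]
  have hm1 : (1 : ℝ) ≤ (g : ℝ) ^ 12000 := one_le_pow₀ hg1
  have hE : 2 * ((g : ℝ) ^ 12000 * ((g : ℝ) ^ 12000 * x)) ≤ 1 / 20 := by
    refine le_trans ?_ hexp
    have e : (g : ℝ) ^ 24000 = (g : ℝ) ^ 12000 * (g : ℝ) ^ 12000 := by rw [← pow_add]
    rw [e]
    calc 2 * ((g : ℝ) ^ 12000 * ((g : ℝ) ^ 12000 * x))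
        = 2 * ((g : ℝ) ^ 12000 * (g : ℝ) ^ 12000) * x := by ring
      _ ≤ 2 * ((g : ℝ) ^ 12000 * (g : ℝ) ^ 12000) * Real.exp (-(1 / 6 * (g : ℝ) ^ 8)) :=
        mul_le_mul_of_nonneg_left hx (by positivity)
  have hmx : (Fintype.card (Pl g) : ℝ) * x ≤ 1 := by
    rw [hm]
    have h0 : 0 ≤ (g : ℝ) ^ 12000 * x := by positivity
    nlinarith
  have h1 : Pr (wQ g) (fun ω => ¬ PL7c (mkD σ ω 0)) ≤
      Pr (wQ g) (fun ω => ∃ u ∈ (Finset.univ : Finset (Pl g)), ∃ J : Finset (Pl g),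
        J.Nonempty ∧ (u ∉ J ∧ (J.card : ℝ) ≤ 2 * (g : ℝ) ^ 1033 ∧
        ((J.biUnion (fun w => (mkD σ ω 0).C u w)).card : ℝ) < (g : ℝ) ^ 5 * J.card)) := by
    refine LarProb.Pr_mono hw (fun ω h => ?_)
    unfold PL7c at h
    push Not at h
    obtain ⟨u, J, h2, h3, h4, h5⟩ := h
    exact ⟨u, Finset.mem_univ _, J, h3, h2, h4, h5⟩
  refine h1.trans ?_
  refine (LarProb.Pr_exists_le_card_mul hw _ _ (q := 2 * ((Fintype.card (Pl g) : ℝ) * x))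
    (fun u _ => ?_)).trans ?_
  · exact LarProb.Pr_exists_subset_le hw (Pl g) _ hx0 hmx
      (fun J hJ => Pr_fixD (by omega) hG u J hJ)
  · rw [Finset.card_univ, hm]
    linarith

end Pool.Larman
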