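import Pool.Agent.Larman.R2CovP
import Pool.Agent.Larman.NumA

/-!
# Covers for all but few players, for all small graphs

Package LAR R2L8.  Fix `Gam` (union over at most `(9 g^4000 + 1)^(8008 g^2000)` sets,
`LarProb.card_small_subsets` with `α = Un g × Un g`, `k = 8008 g^2000`).
Let `s` be the players `u` with `|eIn u| ≤ g^101`; by `Geo.g8` at most `g^12000/200` players are not in
`s`.  Colouring: `LarProb.exists_colouring` with `H u = Hv u`, `d = g^10`, `T = s` (`Hv_card`) gives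
`c : Pl g → Fin (2 g^10 + 1)`.  For `u ≠ v` in `s` with `c u = c v`: `v ∉ Hv u` and `u ∉ Hv v`, so
`blkU u` and `blkU v` are disjoint (`key_eq_iff`: `key u w y = key v w' y'` with `u ≠ v` implies
`w = v`, `w' = u`).  `LarProb.count_coloured` with `S u ω = (g^94/2 < cn u ω)`, `B = blkU`
(`cn_dep`, `DepOn.comp`), `p = 20/g`, `K = 2 g^10 + 1`, `t = g^11988`:
`Pr (2 p |s| + K t ≤ cnt) ≤ K exp (- log 2 * g^11988)`, and
`2 p |s| + K t ≤ 40 g^12000 / g + (2 g^10 + 1) g^11988 ≤ g^12000 / 100` for large `g`.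
If `PL1q` holds and `cnt < g^12000/100` then by `cov_det` all but
`g^12000/200 + g^12000/100 ≤ g^12000/50` players have a cover.
Total: `(9 g^4000 + 1)^(8008 g^2000) (2 g^10 + 1) exp (- log 2 * g^11988) ≤ 1/20`.
-/

set_option autoImplicit false

open scoped BigOperators Classical

noncomputable section

namespace Pool.Larman

open Pool.LarProb (IsP Ex Pr PW unif)

/-- the coordinates of different players of the same colour are disjoint -/
private theorem blk_disj {g : ℕ} (S : Pl g → Finset (Un g)) (Gam : Finset (Un g × Un g))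
    {u v : Pl g} (huv : u ≠ v) (h1 : v ∉ Hv S u Gam) :
    Disjoint (blkU S u Gam) (blkU S v Gam) := by
  rw [Finset.disjoint_left]
  intro x hx hx'
  unfold blkU at hx hx'
  rw [Finset.mem_image] at hx hx'
  obtain ⟨⟨w, y⟩, hw, rfl⟩ := hx
  obtain ⟨⟨w', y'⟩, hw', he⟩ := hx'
  rw [Finset.mem_product] at hw hw'
  have a1 : u ≠ w := by
    have h2 := hw.1
    unfold Hv at h2
    rw [Finset.mem_filter] at h2
    exact (Ne.symm h2.2.1)
  have a2 : v ≠ w' := by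
    have h2 := hw'.1
    unfold Hv at h2
    rw [Finset.mem_filter] at h2
    exact (Ne.symm h2.2.1)
  obtain ⟨-, hc⟩ := (key_eq_iff a2 a1).1 he
  rcases hc with ⟨h3, -⟩ | ⟨h3, -⟩
  · exact huv h3.symm
  · exact h1 (h3 ▸ hw.1)

/-- one graph -/
private theorem one_graph : ∀ᶠ g : ℕ in Filter.atTop, ∀ (σ : Pl g → Pc g → Fin (pN g)),
    Geo (SS σ) → ∀ (Gam : Finset (Un g × Un g)), (∀ e ∈ Gam, e.1 ≠ e.2) →
    (Gam.card : ℝ) ≤ 8008 * (g : ℝ) ^ 2000 →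
    Pr (wQ g) (fun ω => PL1q (mkD σ ω 0) ∧
      (g : ℝ) ^ 12000 / 50 < num (fun u => ¬ ∃ X, (mkD σ ω 0).Cov u Gam X)) ≤
      3 * (g : ℝ) ^ 10 * Real.exp (- (Real.log 2 * (g : ℝ) ^ 11988)) := by
  filter_upwards [cov_det, Hv_card, cn_tail, Filter.eventually_ge_atTop 10000] with g hcov hH hcn hg
    σ hσ Gam hG1 hG2
  have hg' : (10000 : ℝ) ≤ g := by exact_mod_cast hg
  have hg1 : (1 : ℝ) ≤ g := by linarith
  have hg0 : (0 : ℝ) < g := by linarith
  set s : Finset (Pl g) := Finset.univ.filter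
    (fun u => ((eIn (SS σ) u Gam).card : ℝ) ≤ (g : ℝ) ^ 101) with hs
  obtain ⟨c, hc⟩ := LarProb.exists_colouring (fun u => Hv (SS σ) u Gam) (g ^ 10) s
    (fun u hu => hH σ hσ u Gam (Finset.mem_filter.1 hu).2)
  have hmain := LarProb.count_coloured (I := Kc g) (A := fun _ => Lq) (w := fun _ => wL g)
    (fun _ => wL_isP (by omega)) s (fun u => blkU (SS σ) u Gam)
    (fun u ω => (g : ℝ) ^ 94 / 2 < cn (SS σ) u Gam ω) c
    (fun u _ => LarProb.DepOn.comp (fun x : ℝ => (g : ℝ) ^ 94 / 2 < x) (cn_dep (SS σ) u Gam))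
    (fun u hu v hv huv hcc => blk_disj (SS σ) Gam huv
      (fun hm => hc u hu v hv huv hm hcc))
    (p := 20 / (g : ℝ)) (t := (g : ℝ) ^ 11988)
    (fun u hu => hcn σ hσ u Gam hG1 (Finset.mem_filter.1 hu).2) (by omega)
  -- numerics
  have hN : (Fintype.card (Pl g) : ℝ) = (g : ℝ) ^ 12000 := by
    rw [Fintype.card_fin, mP_cast]
  have hscard : (s.card : ℝ) ≤ (g : ℝ) ^ 12000 := by
    rw [← hN]; exact_mod_cast Finset.card_le_univ s
  have p1 : (g : ℝ) ^ 12000 = g * (g : ℝ) ^ 11999 := by rw [← pow_succ']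
  have p2 : (g : ℝ) ^ 12000 = (g : ℝ) ^ 2 * ((g : ℝ) ^ 10 * (g : ℝ) ^ 11988) := by
    rw [← pow_add, ← pow_add]
  have hK : (((2 * g ^ 10 + 1 : ℕ) : ℕ) : ℝ) = 2 * (g : ℝ) ^ 10 + 1 := by push_cast; ring
  have hbound : 2 * (20 / (g : ℝ)) * s.card + ((2 * g ^ 10 + 1 : ℕ) : ℝ) * (g : ℝ) ^ 11988
      ≤ (g : ℝ) ^ 12000 / 100 := by
    rw [hK]
    have e1 : 2 * (20 / (g : ℝ)) * s.card ≤ (g : ℝ) ^ 12000 / 200 := by
      have e2 : 2 * (20 / (g : ℝ)) * s.card ≤ 2 * (20 / (g : ℝ)) * (g : ℝ) ^ 12000 :=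
        mul_le_mul_of_nonneg_left hscard (by positivity)
      have e3 : 2 * (20 / (g : ℝ)) ≤ 1 / 200 := by
        rw [← mul_div_assoc, div_le_iff₀ hg0]; linarith
      have e4 : 0 ≤ (g : ℝ) ^ 12000 := by positivity
      calc _ ≤ _ := e2
        _ ≤ 1 / 200 * (g : ℝ) ^ 12000 := mul_le_mul_of_nonneg_right e3 e4
        _ = (g : ℝ) ^ 12000 / 200 := by ring
    have e5 : (2 * (g : ℝ) ^ 10 + 1) * (g : ℝ) ^ 11988 ≤ (g : ℝ) ^ 12000 / 200 := by
      rw [p2]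
      have e6 : (1 : ℝ) ≤ (g : ℝ) ^ 10 := one_le_pow₀ hg1
      have e7 : 0 ≤ (g : ℝ) ^ 11988 := by positivity
      have e8 : (2 * (g : ℝ) ^ 10 + 1) * (g : ℝ) ^ 11988
          ≤ 3 * ((g : ℝ) ^ 10 * (g : ℝ) ^ 11988) := by
        have : 2 * (g : ℝ) ^ 10 + 1 ≤ 3 * (g : ℝ) ^ 10 := by linarith
        calc _ ≤ (3 * (g : ℝ) ^ 10) * (g : ℝ) ^ 11988 := mul_le_mul_of_nonneg_right this e7
          _ = _ := by rw [mul_assoc]
      have e9 : (600 : ℝ) ≤ (g : ℝ) ^ 2 := by nlinarith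
      have e10 : 0 ≤ (g : ℝ) ^ 10 * (g : ℝ) ^ 11988 := by positivity
      have e11 : 600 * ((g : ℝ) ^ 10 * (g : ℝ) ^ 11988)
          ≤ (g : ℝ) ^ 2 * ((g : ℝ) ^ 10 * (g : ℝ) ^ 11988) :=
        mul_le_mul_of_nonneg_right e9 e10
      linarith
    linarith
  have hfin : ((2 * g ^ 10 + 1 : ℕ) : ℝ) * Real.exp (-(Real.log 2 * (g : ℝ) ^ 11988)) ≤
      3 * (g : ℝ) ^ 10 * Real.exp (- (Real.log 2 * (g : ℝ) ^ 11988)) := by
    refine mul_le_mul_of_nonneg_right ?_ (Real.exp_pos _).le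
    rw [hK]
    have e6 : (1 : ℝ) ≤ (g : ℝ) ^ 10 := one_le_pow₀ hg1
    linarith
  refine le_trans (LarProb.Pr_mono (wQ_isP (by omega)) (fun ω hω => ?_)) (hmain.trans hfin)
  obtain ⟨h1, h2⟩ := hω
  refine hbound.trans ?_
  -- all but few players of s without cover are bad
  have hsub : Finset.univ.filter (fun u => ¬ ∃ X, (mkD σ ω 0).Cov u Gam X) ⊆
      Finset.univ.filter (fun u => (g : ℝ) ^ 101 <
        ((Gam.filter (fun e => e.1 ∈ SS σ u ∧ e.2 ∈ SS σ u)).card : ℝ)) ∪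
      s.filter (fun u => (g : ℝ) ^ 94 / 2 < cn (SS σ) u Gam ω) := by
    intro u hu
    rw [Finset.mem_filter] at hu
    rw [Finset.mem_union, Finset.mem_filter, Finset.mem_filter]
    by_cases hs1 : ((eIn (SS σ) u Gam).card : ℝ) ≤ (g : ℝ) ^ 101
    · right
      refine ⟨Finset.mem_filter.2 ⟨Finset.mem_univ _, hs1⟩, ?_⟩
      by_contra hcc
      push Not at hcc
      exact hu.2 ⟨_, hcov σ ω u Gam h1 hs1 hcc⟩
    · left
      refine ⟨Finset.mem_univ _, ?_⟩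
      push Not at hs1
      exact hs1
  have h3 : ((Finset.univ.filter (fun u => ¬ ∃ X, (mkD σ ω 0).Cov u Gam X)).card : ℝ) ≤
      ((Finset.univ.filter (fun u => (g : ℝ) ^ 101 <
        ((Gam.filter (fun e => e.1 ∈ SS σ u ∧ e.2 ∈ SS σ u)).card : ℝ))).card : ℝ) +
      ((s.filter (fun u => (g : ℝ) ^ 94 / 2 < cn (SS σ) u Gam ω)).card : ℝ) := by
    exact_mod_cast (Finset.card_le_card hsub).trans (Finset.card_union_le _ _)
  have h4 := hσ.g8 Gam hG1 hG2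
  unfold num at h2 h4
  rw [LarProb.cnt_eq_card]
  have h5 : ((Finset.univ.filter (fun u => ¬ ∃ X, (mkD σ ω 0).Cov u Gam X)).card : ℝ) =
      ((Finset.univ.filter (fun u => ¬ ∃ X, (mkD σ ω 0).Cov u Gam X)).card : ℝ) := rfl
  have h6 : (g : ℝ) ^ 12000 / 50 ≤ (g : ℝ) ^ 12000 / 200 +
      ((s.filter (fun u => (g : ℝ) ^ 94 / 2 < cn (SS σ) u Gam ω)).card : ℝ) := by
    refine le_trans ?_ (le_trans h3 (add_le_add h4 le_rfl))
    refine h2.le.trans (le_of_eq ?_)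
    congr
  have h7 : 0 ≤ (g : ℝ) ^ 12000 := by positivity
  linarith

/-- final numerics -/
private theorem num_l8 : ∀ᶠ g : ℕ in Filter.atTop,
    ((9 * (g : ℝ) ^ 4000 + 1) ^ (8008 * g ^ 2000)) *
      (3 * (g : ℝ) ^ 10 * Real.exp (- (Real.log 2 * (g : ℝ) ^ 11988))) ≤ 1 / 20 := by
  have hl2 : (0 : ℝ) < Real.log 2 := Real.log_pos (by norm_num)
  filter_upwards [ev_exp 3 (ε := 1 / 20) 10 11988 (half_pos hl2) (by norm_num) (by norm_num),
    ev_pow (8008 * 4001 * (2 / Real.log 2)) (show 2001 < 11988 by norm_num),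
    Filter.eventually_ge_atTop 100] with g h1 h2 hg
  have hg' : (100 : ℝ) ≤ g := by exact_mod_cast hg
  have hg1 : (1 : ℝ) ≤ g := by linarith
  have e1 : 9 * (g : ℝ) ^ 4000 + 1 ≤ (g : ℝ) ^ 4001 := by
    have : (1 : ℝ) ≤ (g : ℝ) ^ 4000 := one_le_pow₀ hg1
    calc 9 * (g : ℝ) ^ 4000 + 1 ≤ 10 * (g : ℝ) ^ 4000 := by linarith
      _ ≤ g * (g : ℝ) ^ 4000 := mul_le_mul_of_nonneg_right (by linarith) (by positivity)
      _ = (g : ℝ) ^ 4001 := by rw [← pow_succ']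
  have e2 : (g : ℝ) ^ 4001 ≤ Real.exp (4001 * g) := by
    have h3 : (g : ℝ) ≤ Real.exp g := by linarith [Real.add_one_le_exp (g : ℝ)]
    calc (g : ℝ) ^ 4001 ≤ (Real.exp g) ^ 4001 := pow_le_pow_left₀ (by positivity) h3 _
      _ = Real.exp (4001 * g) := by rw [← Real.exp_nat_mul]; norm_num
  have e3 : (9 * (g : ℝ) ^ 4000 + 1) ^ (8008 * g ^ 2000)
      ≤ Real.exp (8008 * 4001 * (g : ℝ) ^ 2001) := by
    calc (9 * (g : ℝ) ^ 4000 + 1) ^ (8008 * g ^ 2000)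
        ≤ (Real.exp (4001 * g)) ^ (8008 * g ^ 2000) :=
          pow_le_pow_left₀ (by positivity) (e1.trans e2) _
      _ = Real.exp (8008 * 4001 * (g : ℝ) ^ 2001) := by
          rw [← Real.exp_nat_mul]
          congr 1
          push_cast
          have : (g : ℝ) ^ 2001 = (g : ℝ) ^ 2000 * g := pow_succ _ _
          rw [this]; ring
  have e4 : 8008 * 4001 * (g : ℝ) ^ 2001 ≤ Real.log 2 / 2 * (g : ℝ) ^ 11988 := by
    have h4 : Real.log 2 / 2 * (8008 * 4001 * (2 / Real.log 2) * (g : ℝ) ^ 2001)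
        ≤ Real.log 2 / 2 * (g : ℝ) ^ 11988 := mul_le_mul_of_nonneg_left h2 (by positivity)
    have h5 : Real.log 2 / 2 * (8008 * 4001 * (2 / Real.log 2) * (g : ℝ) ^ 2001)
        = 8008 * 4001 * (g : ℝ) ^ 2001 := by
      field_simp
    rwa [h5] at h4
  have e5 : Real.exp (8008 * 4001 * (g : ℝ) ^ 2001) *
      Real.exp (- (Real.log 2 * (g : ℝ) ^ 11988))
      ≤ Real.exp (- (Real.log 2 / 2 * (g : ℝ) ^ 11988)) := by
    rw [← Real.exp_add]
    exact Real.exp_le_exp.2 (by linarith)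
  calc ((9 * (g : ℝ) ^ 4000 + 1) ^ (8008 * g ^ 2000)) *
      (3 * (g : ℝ) ^ 10 * Real.exp (- (Real.log 2 * (g : ℝ) ^ 11988)))
      ≤ Real.exp (8008 * 4001 * (g : ℝ) ^ 2001) *
      (3 * (g : ℝ) ^ 10 * Real.exp (- (Real.log 2 * (g : ℝ) ^ 11988))) :=
        mul_le_mul_of_nonneg_right e3 (by positivity)
    _ = 3 * (g : ℝ) ^ 10 * (Real.exp (8008 * 4001 * (g : ℝ) ^ 2001) *
      Real.exp (- (Real.log 2 * (g : ℝ) ^ 11988))) := by ring
    _ ≤ 3 * (g : ℝ) ^ 10 * Real.exp (- (Real.log 2 / 2 * (g : ℝ) ^ 11988)) :=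
        mul_le_mul_of_nonneg_left e5 (by positivity)
    _ ≤ 1 / 20 := h1

theorem t8L : ∀ᶠ g : ℕ in Filter.atTop, ∀ (σ : Pl g → Pc g → Fin (pN g)), Geo (SS σ) →
    Pr (wQ g) (fun ω => PL1q (mkD σ ω 0) ∧ ¬ PL8 (mkD σ ω 0)) ≤ 1 / 20 := by
  filter_upwards [one_graph, num_l8, Filter.eventually_gt_atTop 0] with g h1 h2 hg σ hσ
  set T : Finset (Finset (Un g × Un g)) := Finset.univ.filter
    (fun Y => Y.card ≤ 8008 * g ^ 2000 ∧ ∀ e ∈ Y, e.1 ≠ e.2) with hT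
  have hb := LarProb.Pr_exists_le_card_mul (wQ_isP hg) T
    (fun Gam ω => PL1q (mkD σ ω 0) ∧
      (g : ℝ) ^ 12000 / 50 < num (fun u => ¬ ∃ X, (mkD σ ω 0).Cov u Gam X))
    (fun Gam hGam => by
      have h3 := (Finset.mem_filter.1 hGam).2
      exact h1 σ hσ Gam h3.2 (by exact_mod_cast h3.1))
  have hcard : (T.card : ℝ) ≤ (9 * (g : ℝ) ^ 4000 + 1) ^ (8008 * g ^ 2000) := by
    have h4 := LarProb.card_small_subsets (Un g × Un g) (8008 * g ^ 2000)
    have h5 : T.card ≤ (Fintype.card (Un g × Un g) + 1) ^ (8008 * g ^ 2000) := by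
      refine le_trans (Finset.card_le_card ?_) h4
      intro Y hY
      rw [Finset.mem_filter] at hY ⊢
      exact ⟨hY.1, hY.2.1⟩
    have h6 : (Fintype.card (Un g × Un g) : ℝ) = 9 * (g : ℝ) ^ 4000 := by
      rw [Fintype.card_prod]
      simp only [Fintype.card_prod, Fintype.card_fin]
      push_cast
      rw [sN_cast, pN_cast]
      have : (g : ℝ) ^ 4000 = ((g : ℝ) ^ 1050 * (g : ℝ) ^ 950) * ((g : ℝ) ^ 1050 * (g : ℝ) ^ 950) := by
        rw [← pow_add, ← pow_add]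
      rw [this]; ring
    calc (T.card : ℝ) ≤ (((Fintype.card (Un g × Un g) + 1) ^ (8008 * g ^ 2000) : ℕ) : ℝ) := by
          exact_mod_cast h5
      _ = (9 * (g : ℝ) ^ 4000 + 1) ^ (8008 * g ^ 2000) := by
          rw [Nat.cast_pow, Nat.cast_add, h6, Nat.cast_one]
  refine le_trans (LarProb.Pr_mono (wQ_isP hg) (fun ω hω => ?_)) (hb.trans (le_trans ?_ h2))
  · obtain ⟨a1, a2⟩ := hω
    unfold PL8 at a2
    push Not at a2
    obtain ⟨Gam, b1, b2, b3⟩ := a2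
    refine ⟨Gam, Finset.mem_filter.2 ⟨Finset.mem_univ _, by exact_mod_cast b2, b1⟩, a1, ?_⟩
    refine lt_of_lt_of_le b3 (le_of_eq ?_)
    unfold num
    congr
    funext u
    push Not
    rfl
  · exact mul_le_mul_of_nonneg_right hcard (by positivity)

end Pool.Larman
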