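import Pool.Agent.Larman.R2L1
import Pool.Agent.Larman.R2L3
import Pool.Agent.Larman.R2L4a
import Pool.Agent.Larman.R2L4b
import Pool.Agent.Larman.R2L7c
import Pool.Agent.Larman.R2L7
import Pool.Agent.Larman.R2L8

/-!
# Existence of good labels (T2)
-/

set_option autoImplicit false

open scoped BigOperators Classical

noncomputable section

namespace Pool.Larman

open Pool.LarProb (IsP Ex Pr PW unif)

/-- **T2**: for all large `g` and all supports with the geometric properties there are labels with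
all label properties -/
theorem exists_lab : ∀ᶠ g : ℕ in Filter.atTop,
    ∀ σ : Pl g → Fin 3 × Fin (sN g) → Fin (pN g), Geo (fun u => supp (σ u)) →
      ∃ D : Dat g, D.σ = σ ∧ D.Lab := by
  filter_upwards [t1c, t1m, t1q, t3, t4a, t4b, t7c, t8L, t7h, Filter.eventually_gt_atTop 0] with g
    h1 h2 h3 h4 h5 h6 h7 h8 h9 hg σ hσ
  have hP := wQ_isP hg
  set P : Fin 8 → (Kc g → Lq) → Prop := fun j ω =>
    (![PL1c (mkD σ ω 0), PL1m (mkD σ ω 0), PL1q (mkD σ ω 0), PL3 (mkD σ ω 0),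
      PL4a (mkD σ ω 0), PL4b (mkD σ ω 0), PL7c (mkD σ ω 0),
      ¬ (PL1q (mkD σ ω 0) ∧ ¬ PL8 (mkD σ ω 0))] : Fin 8 → Prop) j with hPd
  have hq : ∀ j ∈ (Finset.univ : Finset (Fin 8)), Pr (wQ g) (fun ω => ¬ P j ω) ≤ 1 / 20 := by
    intro j _
    fin_cases j
    · exact h1 σ hσ
    · exact h2 σ hσ
    · exact h3 σ hσ
    · exact h4 σ hσ
    · exact h5 σ
    · exact h6 σ
    · exact h7 σ hσ
    · refine le_trans (LarProb.Pr_mono hP (fun ω h => ?_)) (h8 σ hσ)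
      exact not_not.1 h
  have hu := LarProb.Pr_exists_le_card_mul hP (Finset.univ : Finset (Fin 8))
    (fun j ω => ¬ P j ω) hq
  rw [Finset.card_univ, Fintype.card_fin] at hu
  obtain ⟨ω, hω⟩ := LarProb.exists_not_of_Pr_lt_one hP
    (S := fun ω => ∃ j ∈ (Finset.univ : Finset (Fin 8)), ¬ P j ω) (by
      refine lt_of_le_of_lt hu ?_
      norm_num)
  push Not at hω
  have a3 : PL1q (mkD σ ω 0) := hω 2 (Finset.mem_univ _)
  have a8 : ¬ (PL1q (mkD σ ω 0) ∧ ¬ PL8 (mkD σ ω 0)) := hω 7 (Finset.mem_univ _)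
  have hLQ : LabQ (mkD σ ω 0) := ⟨hω 0 (Finset.mem_univ _), hω 1 (Finset.mem_univ _), a3,
    hω 3 (Finset.mem_univ _), hω 4 (Finset.mem_univ _), hω 5 (Finset.mem_univ _),
    hω 6 (Finset.mem_univ _), by
      by_contra h
      exact a8 ⟨a3, h⟩⟩
  obtain ⟨ρ, hρ⟩ := h9 σ ω hLQ.l7c
  refine ⟨mkD σ ω ρ, rfl, Lab_of _ (LabQ_congr (D := mkD σ ω 0) rfl ?_ ?_ hLQ) hρ⟩
  · exact mkD_C_indep σ ω 0 ρ
  · exact mkD_Q_indep σ ω 0 ρ

end Pool.Larman
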