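import Pool.Agent.Larman.Bridge
import Pool.Agent.Larman.Bas
import Pool.Agent.Larman.Cnt
import Pool.Agent.Larman.Asy
import Pool.Agent.Larman.Avg
import Pool.Agent.LarE.Fourier

/-!
# (TR): the probability of tightness under a reference law (helper46)
-/

set_option autoImplicit false

open scoped BigOperators Classical

noncomputable section

namespace Pool.Larman

variable {g : ℕ}

/-- contribution of the unit y with the state o to the count minus the hash -/
private def lcf_TR (D : Dat g) (u w : Pl g) (y : Un g) (o : Option Bool) : ZMod (hM g) :=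
  (∑ i : Bool, if (y, i) ∈ D.Q u w ∧ o = some i then 1 else 0) -
    (if y ∈ D.C u w then (if o = some true then D.r u w y else 0) else 0)

private theorem cnt_sub_hash_TR (D : Dat g) (u w : Pl g) (f : Tr g) :
    ((cnt (D.Q u w) f : ℕ) : ZMod (hM g)) - D.hash u w f true = ∑ y, lcf_TR D u w y (f y) := by
  unfold lcf_TR cnt Dat.hash
  rw [Finset.sum_sub_distrib, Finset.sum_ite_mem, Finset.univ_inter]
  congr 1
  rw [Finset.card_filter, Nat.cast_sum]
  have h1 : ∀ y : Un g, (∑ i : Bool,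
      if (y, i) ∈ D.Q u w ∧ f y = some i then (1 : ZMod (hM g)) else 0)
      = ∑ i : Bool, if (y, i) ∈ D.Q u w then (if f y = some i then 1 else 0) else 0 := by
    intro y
    refine Finset.sum_congr rfl fun i _ => ?_
    by_cases h2 : (y, i) ∈ D.Q u w <;> simp [h2]
  rw [Finset.sum_congr rfl fun y _ => h1 y, ← Fintype.sum_prod_type'
    (f := fun (y : Un g) (i : Bool) =>
      if (y, i) ∈ D.Q u w then (if f y = some i then (1 : ZMod (hM g)) else 0) else 0)]
  rw [show (∑ x : Un g × Bool, if (x.1, x.2) ∈ D.Q u w then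
      (if f x.1 = some x.2 then (1 : ZMod (hM g)) else 0) else 0) =
      ∑ x : Un g × Bool, if x ∈ D.Q u w then
      (if f x.1 = some x.2 then (1 : ZMod (hM g)) else 0) else 0 from rfl]
  rw [Finset.sum_ite_mem, Finset.univ_inter]
  refine Finset.sum_congr rfl fun p _ => ?_
  by_cases h2 : f p.1 = some p.2 <;> simp [h2]

private theorem lcf_diff_TR (D : Dat g) (u w : Pl g) (y : Un g) (b : Bool) :
    lcf_TR D u w y (some b) = lcf_TR D u w y (some false) +
      (if b = true then D.lc u w y else 0) := by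
  cases b
  · simp
  · simp only [if_true]
    unfold lcf_TR Dat.lc
    rw [Fintype.sum_bool, Fintype.sum_bool]
    by_cases hC : y ∈ D.C u w
    · have h1 : ∀ i, (y, i) ∉ D.Q u w := fun i hi => not_mem_C_of_mem_Q D hi hC
      simp [hC, h1]
    · by_cases h2 : (y, true) ∈ D.Q u w <;> by_cases h3 : (y, false) ∈ D.Q u w <;>
        simp [hC, h2, h3]

/-- the congruence is affine in the twins of the hash blocks -/
private theorem cong_affine_TR (D : Dat g) (u v : Pl g) {s : Pat g}
    (hd : Disjoint (D.C u v) s.dom) (a : Un g → Bool) : ∃ c : ZMod (hM g), ∀ t : Un g → Bool,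
    (D.cong u v (ext s ((Finset.univ \ D.C u v).piecewise a t)) ↔
      c + ∑ b ∈ D.C u v, (if t b = true then D.lc u v b else 0) = 0) := by
  obtain ⟨κ, hκ⟩ : ∃ κ : ZMod (hM g), ∀ T : Tr g, (D.cong u v T ↔
      ((cnt (D.Q u v) T : ℕ) : ZMod (hM g)) = κ + D.hash u v T true) :=
    ⟨_, fun T => Iff.rfl⟩
  refine ⟨∑ y ∈ Finset.univ \ D.C u v, lcf_TR D u v y (ext s a y) +
    ∑ y ∈ D.C u v, lcf_TR D u v y (some false) - κ, fun t => ?_⟩
  have h1 := cnt_sub_hash_TR D u v (ext s ((Finset.univ \ D.C u v).piecewise a t))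
  have h2 : ∑ y, lcf_TR D u v y (ext s ((Finset.univ \ D.C u v).piecewise a t) y) =
      ∑ y ∈ Finset.univ \ D.C u v, lcf_TR D u v y (ext s a y) +
        (∑ y ∈ D.C u v, lcf_TR D u v y (some false) +
          ∑ b ∈ D.C u v, (if t b = true then D.lc u v b else 0)) := by
    rw [← Finset.sum_sdiff (Finset.subset_univ (D.C u v))]
    congr 1
    · refine Finset.sum_congr rfl fun y hy => ?_
      congr 1
      unfold ext
      rw [Finset.piecewise_eq_of_mem _ _ _ hy]
    · rw [← Finset.sum_add_distrib]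
      refine Finset.sum_congr rfl fun y hy => ?_
      have hv : ext s ((Finset.univ \ D.C u v).piecewise a t) y = some (t y) := by
        unfold ext
        rw [if_neg (Finset.disjoint_left.1 hd hy), Finset.piecewise_eq_of_notMem _ _ _
          (fun h => (Finset.mem_sdiff.1 h).2 hy)]
      rw [hv, lcf_diff_TR]
  rw [hκ, ← sub_eq_zero]
  have h3 : ((cnt (D.Q u v) (ext s ((Finset.univ \ D.C u v).piecewise a t)) : ℕ) :
      ZMod (hM g)) - (κ + D.hash u v (ext s ((Finset.univ \ D.C u v).piecewise a t)) true) =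
      ∑ y ∈ Finset.univ \ D.C u v, lcf_TR D u v y (ext s a y) +
        ∑ y ∈ D.C u v, lcf_TR D u v y (some false) - κ +
        ∑ b ∈ D.C u v, (if t b = true then D.lc u v b else 0) := by
    rw [h2] at h1
    rw [← sub_sub, sub_right_comm, h1]
    ring
  rw [h3]

/-- the probability of the congruence -/
private theorem cong_prob_TR (hg : 1 ≤ g) (D : Dat g) (hD : D.Lab) {u v : Pl g} (huv : u ≠ v)
    {s : Pat g} (hd : Disjoint (D.C u v) s.dom) :
    |(hM g : ℝ) * avg (fun t => ind (D.cong u v (ext s t))) - 1| ≤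
      (g : ℝ) ^ 52 * (1 / 2 : ℝ) ^ (g ^ 4) := by
  have hg1 : (1 : ℝ) ≤ g := by exact_mod_cast hg
  have hw : ∀ _ : Un g, Pool.LarProb.IsP fair := fun _ => fair_isP
  have inner : ∀ a : Un g → Bool,
      |Pool.LarProb.Ex (fw (I := Un g)) (fun t => (hM g : ℝ) *
        ind (D.cong u v (ext s ((Finset.univ \ D.C u v).piecewise a t)))) - 1| ≤
      (g : ℝ) ^ 52 * (1 / 2 : ℝ) ^ (g ^ 4) := by
    intro a
    obtain ⟨c, hc⟩ := cong_affine_TR D u v hd a
    have h1 : Pool.LarProb.Ex (fw (I := Un g)) (fun t => (hM g : ℝ) *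
        ind (D.cong u v (ext s ((Finset.univ \ D.C u v).piecewise a t)))) =
        Pool.LarProb.Ex (Pool.LarProb.PW (A := fun _ : Un g => Bool) (fun _ => fair))
        (fun t => ∏ _k : Unit, ((hM g : ℝ) *
          Pool.LarProb.ind (c + ∑ i ∈ D.C u v, (if t i then D.lc u v i else 0) = 0))) := by
      unfold fw
      refine Pool.LarProb.Ex_congr fun t => ?_
      rw [Fintype.prod_unique, ind_eq, Pool.LarProb.ind_congr (hc t)]
    have h2 := Pool.LarE.fourier_main (h := hM g) (I := Un g) (T := Unit)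
      (w := fun _ => fair) hw (D.C u v) (fun i _ x => rfl)
      (fun _ => c) (fun _ i => D.lc u v i) (ρ := (1 / 2 : ℝ) ^ (g ^ 4)) ?_
    · rw [h1]
      refine h2.trans (le_of_eq ?_)
      rw [Fintype.card_unit, pow_one, hM_cast]
      ring
    · intro χ hχ
      have hne : χ () ≠ 0 := by
        intro h0
        exact hχ (funext fun _ => h0)
      have hcard : (Finset.univ.filter (fun k : Unit => χ k ≠ 0)).card = 1 := by
        rw [Finset.filter_true_of_mem (fun k _ => hne), Finset.card_univ, Fintype.card_unit]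
      have h7 := hD.l7 u {v} (fun _ => χ ()) ∅ (by simpa using huv) (Finset.singleton_nonempty v)
        (by
          rw [Finset.card_singleton, Nat.cast_one]
          have : (1 : ℝ) ≤ (g : ℝ) ^ 1033 := one_le_pow₀ hg1
          linarith)
        (fun _ _ => hne)
        (by
          rw [Finset.card_empty, Nat.cast_zero]
          positivity)
      rw [Finset.singleton_biUnion, Finset.sdiff_empty, Finset.card_singleton, mul_one] at h7
      show ∏ i ∈ D.C u v, ‖(1 + (ZMod.stdAddChar (∑ k : Unit, χ k * D.lc u v i) : ℂ)) / 2‖ ≤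
        ((1 / 2 : ℝ) ^ (g ^ 4)) ^ (Finset.univ.filter (fun k : Unit => χ k ≠ 0)).card
      rw [hcard, pow_one]
      refine le_trans (le_of_eq ?_) h7
      refine Finset.prod_congr rfl fun i _ => ?_
      rw [Fintype.sum_unique, Finset.sum_singleton]
      rfl
  have h3 : (hM g : ℝ) * avg (fun t => ind (D.cong u v (ext s t))) =
      Pool.LarProb.Ex (fw (I := Un g)) (fun a => Pool.LarProb.Ex (fw (I := Un g)) (fun t =>
        (hM g : ℝ) * ind (D.cong u v (ext s ((Finset.univ \ D.C u v).piecewise a t))))) := by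
    rw [avg_eq, ← Pool.LarProb.Ex_mul_left]
    unfold fw
    exact (Pool.LarProb.Ex_piecewise hw (Finset.univ \ D.C u v)
      (fun t : Un g → Bool => (hM g : ℝ) * ind (D.cong u v (ext s t)))).symm
  rw [h3]
  have h4 := Pool.LarProb.abs_Ex_le (fw_isP (I := Un g)) inner
  rwa [Pool.LarProb.Ex_sub, Pool.LarProb.Ex_const fw_isP] at h4

private theorem q1_card_TR (Q : Finset (Pp g)) (F : Finset (Un g)) :
    ∑ y ∈ F, (q1 Q y true + q1 Q y false) = ((Q.filter (fun p => p.1 ∈ F)).card : ℝ) := by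
  rw [Finset.card_filter]
  push_cast
  have h1 : ∀ p : Pp g, p ∈ Q → (if p.1 ∈ F then (1 : ℝ) else 0) =
      if p.1 ∈ F then q1 Q p.1 p.2 else 0 := by
    intro p hp
    unfold q1
    rw [if_pos (show (p.1, p.2) ∈ Q from hp)]
  rw [Finset.sum_congr rfl h1]
  have h2 : ∑ p ∈ Q, (if p.1 ∈ F then q1 Q p.1 p.2 else 0) =
      ∑ p : Pp g, (if p.1 ∈ F then q1 Q p.1 p.2 else 0) := by
    refine Finset.sum_subset (Finset.subset_univ Q) fun p _ hp => ?_
    have : q1 Q p.1 p.2 = 0 := by
      unfold q1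
      exact if_neg hp
    rw [this, ite_self]
  rw [h2, Fintype.sum_prod_type, ← Finset.sum_subset (Finset.subset_univ F)]
  · refine Finset.sum_congr rfl fun y hy => ?_
    rw [Fintype.sum_bool, if_pos hy, if_pos hy]
  · intro y _ hy
    rw [Fintype.sum_bool, if_neg hy, if_neg hy, add_zero]

/-- the mean of the number of counting points is close to `|Q| / 2` -/
private theorem mean_TR (D : Dat g) (u v : Pl g) {s : Pat g}
    (h6 : (s.dom ∩ D.Z u v).card ≤ 6) :
    |(cnt0 (D.Q u v) (Finset.univ \ s.dom) s.st + ∑ y ∈ Finset.univ \ s.dom,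
      (fair true * q1 (D.Q u v) y true + fair false * q1 (D.Q u v) y false)) -
        ((D.Q u v).card : ℝ) / 2| ≤ 12 := by
  set Q := D.Q u v with hQ
  have h1 : ∑ y ∈ Finset.univ \ s.dom, (fair true * q1 Q y true + fair false * q1 Q y false) =
      ((Q.filter (fun p => p.1 ∈ Finset.univ \ s.dom)).card : ℝ) / 2 := by
    rw [← q1_card_TR, Finset.sum_div]
    refine Finset.sum_congr rfl fun y _ => ?_
    unfold fair
    ring
  have h2 : (Q.filter (fun p => p.1 ∈ Finset.univ \ s.dom)).card +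
      (Q.filter (fun p => p.1 ∈ s.dom)).card = Q.card := by
    have := Finset.card_filter_add_card_filter_not (s := Q) (fun p => p.1 ∈ s.dom)
    rw [add_comm, ← this]
    congr 2
    refine Finset.filter_congr fun p _ => ?_
    simp
  have h3 : (Q.filter (fun p => p.1 ∈ s.dom)).card ≤ 12 := by
    have h4 : Q.filter (fun p => p.1 ∈ s.dom) ⊆
        (s.dom ∩ D.Z u v) ×ˢ (Finset.univ : Finset Bool) := by
      intro p hp
      obtain ⟨hp1, hp2⟩ := Finset.mem_filter.1 hp
      exact Finset.mem_product.2 ⟨Finset.mem_inter.2 ⟨hp2, mem_Z_of_mem_Q D hp1⟩,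
        Finset.mem_univ _⟩
    have h5 := Finset.card_le_card h4
    rw [Finset.card_product, Finset.card_univ, Fintype.card_bool] at h5
    omega
  have h4 : cnt0 Q (Finset.univ \ s.dom) s.st ≤ ((Q.filter (fun p => p.1 ∈ s.dom)).card : ℝ) := by
    unfold cnt0
    have : (Q.filter (fun p => p.1 ∉ Finset.univ \ s.dom ∧ s.st p.1 = some p.2)) ⊆
        Q.filter (fun p => p.1 ∈ s.dom) := by
      intro p hp
      obtain ⟨hp1, hp2, -⟩ := Finset.mem_filter.1 hp
      refine Finset.mem_filter.2 ⟨hp1, ?_⟩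
      by_contra hcon
      exact hp2 (Finset.mem_sdiff.2 ⟨Finset.mem_univ _, hcon⟩)
    exact_mod_cast Finset.card_le_card this
  have h5 : 0 ≤ cnt0 Q (Finset.univ \ s.dom) s.st := by
    unfold cnt0
    positivity
  have h2' : ((Q.filter (fun p => p.1 ∈ Finset.univ \ s.dom)).card : ℝ) +
      ((Q.filter (fun p => p.1 ∈ s.dom)).card : ℝ) = (Q.card : ℝ) := by exact_mod_cast h2
  have h3' : ((Q.filter (fun p => p.1 ∈ s.dom)).card : ℝ) ≤ 12 := by exact_mod_cast h3
  rw [h1, abs_le]
  constructor <;> linarith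

/-- the probability that the number of counting points is out of the window -/
private theorem win_prob_TR (hg : 112 ≤ (g : ℝ)) (D : Dat g) (hD : D.Lab) {u v : Pl g}
    (huv : u ≠ v) {s : Pat g} (h6 : (s.dom ∩ D.Z u v).card ≤ 6) :
    avg (fun t => ind (¬ D.win u v (ext s t))) ≤ 2 * Real.exp (-((g : ℝ) ^ 8 / 320)) := by
  have hg1 : (1 : ℝ) ≤ g := by linarith
  have hext : ∀ t : Un g → Bool, ext s t = mixT (Finset.univ \ s.dom) s.st t := by
    intro t
    funext y
    unfold ext mixT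
    by_cases hy : y ∈ s.dom
    · rw [if_pos hy, if_neg (fun h => (Finset.mem_sdiff.1 h).2 hy)]
    · rw [if_neg hy, if_pos (Finset.mem_sdiff.2 ⟨Finset.mem_univ _, hy⟩)]
  have hq : ((D.Q u v).card : ℝ) ≤ 5 * (g : ℝ) ^ 96 := by
    have h1 := (abs_le.1 (hD.l1q u v huv)).2
    have h2 : (g : ℝ) ^ 95 ≤ (g : ℝ) ^ 96 := pow_le_pow_right₀ hg1 (by norm_num)
    linarith
  have h52 : (112 : ℝ) ≤ (g : ℝ) ^ 52 := by
    calc (112 : ℝ) ≤ g := hg
      _ = (g : ℝ) ^ 1 := (pow_one _).symm
      _ ≤ (g : ℝ) ^ 52 := pow_le_pow_right₀ hg1 (by norm_num)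
  have h5296 : (g : ℝ) ^ 52 ≤ (g : ℝ) ^ 96 := pow_le_pow_right₀ hg1 (by norm_num)
  have hmean := abs_le.1 (mean_TR D u v h6)
  obtain ⟨hw1, hw2⟩ := D.window u v
  rw [hM_cast] at hw1 hw2
  have hw1' := abs_le.1 hw1
  have hw2' := abs_le.1 hw2
  have htail := cnt_tail (w := fun _ : Un g => fair) (fun _ => fair_isP) (D.Q u v)
    (Finset.univ \ s.dom) s.st (V := 5 * (g : ℝ) ^ 96) (τ := (g : ℝ) ^ 52 / 4) hq (by positivity)
    (by positivity) (by linarith) rfl
  have he : ((g : ℝ) ^ 52 / 4) ^ 2 / (4 * (5 * (g : ℝ) ^ 96)) = (g : ℝ) ^ 8 / 320 := by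
    have h96 : (g : ℝ) ^ 96 ≠ 0 := by positivity
    have e1 : ((g : ℝ) ^ 52 / 4) ^ 2 = (g : ℝ) ^ 8 * (g : ℝ) ^ 96 / 16 := by
      rw [div_pow, ← pow_mul, ← pow_add]
      norm_num
    rw [e1]
    field_simp
    norm_num
  rw [he] at htail
  refine le_trans ?_ htail
  rw [avg_eq]
  unfold Pool.LarProb.Pr fw
  refine Pool.LarProb.Ex_mono (Pool.LarProb.PW_isP (fun _ => fair_isP)) fun t => ?_
  rw [ind_eq]
  refine Pool.LarProb.ind_mono fun hnw => ?_
  rw [hext t] at hnw
  unfold Dat.win at hnw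
  rw [not_and_or, not_le, not_le] at hnw
  rcases hnw with h | h
  · have h' : ((cnt (D.Q u v) (mixT (Finset.univ \ s.dom) s.st t) : ℕ) : ℝ) < (D.lo u v : ℝ) := by
      exact_mod_cast h
    rw [le_abs]
    right
    linarith [hw1'.2, hmean.1]
  · have h' : (D.hi u v : ℝ) < ((cnt (D.Q u v) (mixT (Finset.univ \ s.dom) s.st t) : ℕ) : ℝ) := by
      exact_mod_cast h
    rw [le_abs]
    left
    linarith [hw2'.1, hmean.2]

/-- (TR) for a pattern `s` with at most 6 units in the common zone, off the hash blocks: the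
probability of tightness is `1/h` up to a factor `1 ± g^{-10}`.
Proof text: tight = congruence and window. Congruence: `fourier_main` with one congruence and
(l7) for the one player `v`, `E = ∅`. Window: `cnt_tail` (mean `|Q|/2 ± 12`, half window
`h/2 - 2`). -/
theorem TR : ∀ᶠ g : ℕ in Filter.atTop, ∀ D : Dat g, Geo D.S → D.Lab →
    ∀ u v : Pl g, u ≠ v → ∀ s : Pat g, (s.dom ∩ D.Z u v).card ≤ 6 → Disjoint (D.C u v) s.dom →
    |(hM g : ℝ) * avg (fun t => ind (D.Tight u v (ext s t))) - 1| ≤ ((g : ℝ) ^ 10)⁻¹ := by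
  have hl : (0 : ℝ) < Real.log 2 := Real.log_pos (by norm_num)
  filter_upwards [ev_poly_exp 2 62 4 (by norm_num) (Real.log 2) hl,
    ev_poly_exp 8 62 8 (by norm_num) (1 / 320) (by norm_num), ev_ge 112] with g e1 e2 hg
  intro D _ hD u v huv s h6 hd
  have hg1 : (1 : ℝ) ≤ g := by linarith
  have hgN : 1 ≤ g := by exact_mod_cast hg1
  have hg0 : (0 : ℝ) < g := by linarith
  have a1 := abs_le.1 (cong_prob_TR hgN D hD huv hd)
  have a2 := win_prob_TR hg D hD huv h6
  -- tight = congruence and window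
  have hC : ∀ t : Un g → Bool, ∀ y ∈ D.C u v, ext s t y ≠ none := by
    intro t y hy
    unfold ext
    rw [if_neg (Finset.disjoint_left.1 hd hy)]
    simp
  have h1 : avg (fun t => ind (D.Tight u v (ext s t))) ≤
      avg (fun t => ind (D.cong u v (ext s t))) := by
    refine avg_mono fun t => ?_
    rw [ind_eq, ind_eq]
    exact Pool.LarProb.ind_mono fun h => ((D.tight_iff huv (hC t)).1 h).1
  have h2 : avg (fun t => ind (D.cong u v (ext s t))) ≤
      avg (fun t => ind (D.Tight u v (ext s t))) +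
        avg (fun t => ind (¬ D.win u v (ext s t))) := by
    rw [← avg_add]
    refine avg_mono fun t => ?_
    refine ind_le_add fun h => ?_
    by_cases hw : D.win u v (ext s t)
    · exact Or.inl ((D.tight_iff huv (hC t)).2 ⟨h, hw⟩)
    · exact Or.inr hw
  -- the numbers
  have hh : (hM g : ℝ) = (g : ℝ) ^ 52 + 1 := hM_cast g
  have hh0 : (0 : ℝ) ≤ hM g := Nat.cast_nonneg _
  have h52 : (1 : ℝ) ≤ (g : ℝ) ^ 52 := one_le_pow₀ hg1
  have hp10 : (0 : ℝ) < (g : ℝ) ^ 10 := by positivity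
  have b1 : (g : ℝ) ^ 52 * (1 / 2 : ℝ) ^ (g ^ 4) ≤ ((g : ℝ) ^ 10)⁻¹ / 2 := by
    have e3 : ((1 : ℝ) / 2) ^ (g ^ 4) = Real.exp (-(Real.log 2 * (g : ℝ) ^ 4)) := by
      have : ((1 : ℝ) / 2) = Real.exp (-Real.log 2) := by
        rw [Real.exp_neg, Real.exp_log (by norm_num)]
        norm_num
      rw [this, ← Real.exp_nat_mul]
      congr 1
      push_cast
      ring
    rw [e3, Real.exp_neg, ← div_eq_mul_inv, div_le_iff₀ (Real.exp_pos _)]
    calc (g : ℝ) ^ 52 = ((g : ℝ) ^ 10)⁻¹ / 2 * (2 * (g : ℝ) ^ 62) := by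
          have : (g : ℝ) ^ 62 = (g : ℝ) ^ 10 * (g : ℝ) ^ 52 := by rw [← pow_add]
          rw [this]
          field_simp
      _ ≤ _ := mul_le_mul_of_nonneg_left e1 (by positivity)
  have b2 : (hM g : ℝ) * (2 * Real.exp (-((g : ℝ) ^ 8 / 320))) ≤ ((g : ℝ) ^ 10)⁻¹ / 2 := by
    have e4 : (g : ℝ) ^ 8 / 320 = 1 / 320 * (g : ℝ) ^ 8 := by ring
    rw [e4, Real.exp_neg, ← mul_assoc, ← div_eq_mul_inv, div_le_iff₀ (Real.exp_pos _)]
    calc (hM g : ℝ) * 2 ≤ 4 * (g : ℝ) ^ 52 := by
          rw [hh]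
          linarith
      _ = ((g : ℝ) ^ 10)⁻¹ / 2 * (8 * (g : ℝ) ^ 62) := by
          have : (g : ℝ) ^ 62 = (g : ℝ) ^ 10 * (g : ℝ) ^ 52 := by rw [← pow_add]
          rw [this]
          field_simp
          norm_num
      _ ≤ _ := mul_le_mul_of_nonneg_left e2 (by positivity)
  have c1 := mul_le_mul_of_nonneg_left h1 hh0
  have c2 := mul_le_mul_of_nonneg_left h2 hh0
  have c3 := mul_le_mul_of_nonneg_left a2 hh0
  rw [mul_add] at c2
  have hinv : 0 < ((g : ℝ) ^ 10)⁻¹ := by positivity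
  rw [abs_le]
  constructor
  · linarith [a1.1]
  · linarith [a1.2]

end Pool.Larman
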