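import Pool.Agent.Larman.GoodU
import Pool.Agent.Larman.TR

/-!
# MP_a9ba8c (Larman, t = 1): T3, the good player (helper1)
-/

set_option autoImplicit false

open scoped BigOperators Classical

noncomputable section

namespace Pool.Larman

theorem eventually_TRb : ∀ᶠ (g : ℕ) in Filter.atTop, ∀ D : Dat g, Geo D.S → D.Lab → TRb D := by
  filter_upwards [TR, Filter.eventually_ge_atTop 2] with g hTR hg D hGeo hL u v s huv hC hZ
  have h := hTR D hGeo hL u v huv s hZ hC
  have hg' : (2 : ℝ) ≤ g := by exact_mod_cast hg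
  have h2 : ((g : ℝ) ^ 10)⁻¹ ≤ 1 / 100 := by
    rw [one_div]
    apply inv_anti₀ (by norm_num)
    calc (100 : ℝ) ≤ 2 ^ 10 := by norm_num
      _ ≤ (g : ℝ) ^ 10 := pow_le_pow_left₀ (by norm_num) hg' 10
  rw [abs_le] at h
  constructor <;> linarith [h.1, h.2]

/-- T3: selection (pair lemma, levels, good player; owner helper1) -/
theorem T3 : ∀ᶠ (g : ℕ) in Filter.atTop, ∀ D : Dat g, Geo D.S → D.Lab →
    ∀ G : Fin (nC g) → Finset (Finset (Pt g)), (∀ i, TwoInt (G i)) →
    ∃ (u : Pl g) (X : Finset (Un g)) (W : Fin (nC g) → Finset (Pl g)), Sel D G u X W := by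
  filter_upwards [eventually_TRb, Filter.eventually_ge_atTop 10000] with g hTR hg D hGeo hL G hG
  exact T3_of_TRb hg D hGeo hL (hTR D hGeo hL) G hG

end Pool.Larman
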