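import Pool.Agent.Larman.Sel
import Pool.Agent.Larman.EnvOKA
import Pool.Agent.Larman.EnvOKB
import Pool.Agent.Larman.EnvCl
import Pool.Agent.Larman.EnvPair2

set_option autoImplicit false

open scoped BigOperators Classical

namespace Pool.Larman

/-- T4: environment of the selected player (owner helper46) -/
theorem T4 : ∀ᶠ (g : ℕ) in Filter.atTop, ∀ D : Dat g, Geo D.S → D.Lab →
    ∀ (G : Fin (nC g) → Finset (Finset (Pt g))) (u : Pl g) (X : Finset (Un g))
      (W : Fin (nC g) → Finset (Pl g)), Sel D G u X W →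
    ∃ E : Env g, E.OK D u X ∧ ∀ i, E.ClassOK D u X (G i) := by
  filter_upwards [mkE_M, mkE_hd, mkE_Wcard, mkE_easy, mkE_q1, mkE_q2, mkE_G1, mkE_class, GG_pair]
    with g h1 h2 h3 h4 h5 h6 h7 h8 h9 D hG hL G u X W hS
  refine ⟨mkE D u X W, ?_, h8 D hG hL G u X W hS⟩
  obtain ⟨e1, e2, e3, e4, e5, e6, e7, e8, e9, e10, e11, e12⟩ := h4 D hG hL G u X W hS
  refine
    { XS := e1
      Xcard := e2
      Xq := e3
      M_le := h1 D hG hL G u X W hS
      hd_card := h2 D hG hL G u X W hS
      W_ne := e4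
      W_card := h3 D hG hL G u X W hS
      W_C := e5
      W_X := e6
      r0 := e7
      r1 := e8
      r2 := e9
      r3 := e10
      H0 := e11
      H1 := e12
      q1 := h5 D hG hL G u X W hS
      q2 := h6 D hG hL G u X W hS
      G0 := fun y y' => Gm_nonneg y y'
      G1 := h7 D hG hL G u X W hS
      G2 := fun k w hw => (REG_iff.1 (pop_sub _ hw)).2.2.2.2
      G3 := fun k l w hw => ?_ }
  refine le_trans ?_ (h9 D hG hL G u X W hS w (e4 k w hw))
  unfold num
  have hsub : (((mkE D u X W).W l).filter (fun w' => (g : ℝ) ^ 67 <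
      (mkE D u X W).GG (D.Z u w) (D.Z u w'))) ⊆
      Finset.univ.filter (fun w' => (g : ℝ) ^ 67 < GGm D u X W (D.Z u w) (D.Z u w')) := by
    intro w' hw'
    rw [Finset.mem_filter] at hw' ⊢
    exact ⟨Finset.mem_univ _, hw'.2⟩
  exact_mod_cast Finset.card_le_card hsub

end Pool.Larman
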