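import Pool.Agent.Larman.LHist
import Pool.Agent.Larman.Cnt
import Pool.Agent.Larman.NumA
import Pool.Agent.Larman.Asy
import Pool.Agent.Larman.Points

/-!
# MP_a9ba8c (Larman, t = 1): probability of the exact size
-/

set_option autoImplicit false

open scoped BigOperators Classical

noncomputable section

namespace Pool.Larman

variable {g : ℕ}

private theorem LSize_mid (n : ℕ) : (2 : ℝ) ^ n / (n + 1) ≤ (n.choose (n / 2) : ℝ) := by
  rw [div_le_iff₀ (by positivity)]
  have h1 : (∑ m ∈ Finset.range (n + 1), n.choose m) = 2 ^ n := Nat.sum_range_choose n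
  have h2 : (∑ m ∈ Finset.range (n + 1), n.choose m) ≤ (n + 1) * n.choose (n / 2) := by
    refine (Finset.sum_le_card_nsmul _ _ (n.choose (n / 2))
      (fun m _ => Nat.choose_le_middle m n)).trans ?_
    rw [Finset.card_range, smul_eq_mul]
  rw [h1] at h2
  have h3 : ((2 ^ n : ℕ) : ℝ) ≤ (((n + 1) * n.choose (n / 2) : ℕ) : ℝ) := by exact_mod_cast h2
  push_cast at h3
  linarith

private theorem LSize_down (n j c : ℕ) (r : ℝ) (hr : 0 ≤ r) (hc : c ≤ n)
    (h : ∀ i, j ≤ i → i < c → r * ((n : ℝ) - i) ≤ (i : ℝ) + 1) :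
    ∀ m, j + m ≤ c → r ^ m * (n.choose (j + m) : ℝ) ≤ (n.choose j : ℝ) := by
  intro m
  induction m with
  | zero => intro _; simp
  | succ m ih =>
    intro hm
    have ih' := ih (by omega)
    have h1 : (n.choose (j + m + 1) : ℝ) * ((j + m : ℕ) + 1) =
        (n.choose (j + m) : ℝ) * ((n : ℝ) - (j + m : ℕ)) := by
      have h2 := Nat.choose_succ_right_eq n (j + m)
      have h3 : ((n - (j + m) : ℕ) : ℝ) = (n : ℝ) - (j + m : ℕ) := by
        rw [Nat.cast_sub (by omega)]
      rw [← h3]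
      exact_mod_cast h2
    have h4 := h (j + m) (by omega) (by omega)
    have h5 : (0 : ℝ) < (n : ℝ) - (j + m : ℕ) := by
      have : j + m < n := by omega
      have : ((j + m : ℕ) : ℝ) < n := by exact_mod_cast this
      linarith
    have h6 : r * (n.choose (j + m + 1) : ℝ) ≤ (n.choose (j + m) : ℝ) := by
      have h7 : (0 : ℝ) ≤ (n.choose (j + m + 1) : ℝ) := Nat.cast_nonneg _
      have h8 : r * (n.choose (j + m + 1) : ℝ) * ((n : ℝ) - (j + m : ℕ)) ≤
          (n.choose (j + m) : ℝ) * ((n : ℝ) - (j + m : ℕ)) := by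
        rw [← h1]
        nlinarith
      exact le_of_mul_le_mul_right h8 h5
    calc r ^ (m + 1) * (n.choose (j + (m + 1)) : ℝ)
        = r ^ m * (r * (n.choose (j + m + 1) : ℝ)) := by rw [pow_succ, ← add_assoc]; ring
      _ ≤ r ^ m * (n.choose (j + m) : ℝ) :=
          mul_le_mul_of_nonneg_left h6 (pow_nonneg hr m)
      _ ≤ _ := ih'

private theorem LSize_low (n j : ℕ) (d : ℝ) (hd : 0 ≤ d) (hj : (n : ℝ) / 2 - d ≤ j)
    (hj2 : j ≤ n / 2) (hn : 8 * d + 16 ≤ n) :
    (2 : ℝ) ^ n * Real.exp (-(16 * (d + 2) ^ 2 / n)) / (n + 1) ≤ (n.choose j : ℝ) := by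
  have hn0 : (0 : ℝ) < n := by linarith
  set r : ℝ := Real.exp (-(8 * d / n)) with hr
  have hr0 : 0 < r := Real.exp_pos _
  have hr1 : r * ((n : ℝ) / 2 + d) ≤ (n : ℝ) / 2 - d := by
    have h1 : 1 + 8 * d / n ≤ Real.exp (8 * d / n) := by
      have := Real.add_one_le_exp (8 * d / n)
      linarith
    have h2 : r * (1 + 8 * d / n) ≤ 1 := by
      calc r * (1 + 8 * d / n) ≤ r * Real.exp (8 * d / n) :=
            mul_le_mul_of_nonneg_left h1 hr0.le
        _ = 1 := by rw [hr, ← Real.exp_add]; simp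
    have h3 : r * (n + 8 * d) ≤ n := by
      have h4 : r * (1 + 8 * d / n) * n ≤ 1 * n := mul_le_mul_of_nonneg_right h2 hn0.le
      have h5 : r * (1 + 8 * d / n) * n = r * (n + 8 * d) := by
        field_simp
      rw [h5, one_mul] at h4
      exact h4
    have h6 : (n : ℝ) * (n / 2 + d) ≤ (n / 2 - d) * (n + 8 * d) := by nlinarith
    have h7 : r * ((n : ℝ) / 2 + d) * (n + 8 * d) ≤ (n / 2 - d) * (n + 8 * d) := by
      calc r * ((n : ℝ) / 2 + d) * (n + 8 * d) = (r * (n + 8 * d)) * (n / 2 + d) := by ring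
        _ ≤ n * (n / 2 + d) := mul_le_mul_of_nonneg_right h3 (by positivity)
        _ ≤ _ := h6
    exact le_of_mul_le_mul_right h7 (by positivity)
  have hc2 : ((n / 2 : ℕ) : ℝ) ≤ (n : ℝ) / 2 := by
    have := @Nat.cast_div_le ℝ _ _ _ n 2
    exact_mod_cast this
  have key := LSize_down n j (n / 2) r hr0.le (Nat.div_le_self _ _) (fun i hi hic => by
    have h1 : (j : ℝ) ≤ i := by exact_mod_cast hi
    have h2 : r * ((n : ℝ) - i) ≤ r * ((n : ℝ) / 2 + d) :=
      mul_le_mul_of_nonneg_left (by linarith) hr0.le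
    linarith) (n / 2 - j) (by omega)
  have hjm : j + (n / 2 - j) = n / 2 := by omega
  rw [hjm] at key
  have hm : ((n / 2 - j : ℕ) : ℝ) ≤ d := by
    rw [Nat.cast_sub hj2]
    linarith
  have hrm : Real.exp (-(16 * (d + 2) ^ 2 / n)) ≤ r ^ (n / 2 - j) := by
    rw [hr, ← Real.exp_nat_mul]
    apply Real.exp_le_exp.2
    have h1 : ((n / 2 - j : ℕ) : ℝ) * (8 * d / n) ≤ d * (8 * d / n) :=
      mul_le_mul_of_nonneg_right hm (by positivity)
    have h2 : d * (8 * d / n) ≤ 16 * (d + 2) ^ 2 / n := by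
      rw [← mul_div_assoc]
      apply div_le_div_of_nonneg_right _ hn0.le
      nlinarith
    linarith
  calc (2 : ℝ) ^ n * Real.exp (-(16 * (d + 2) ^ 2 / n)) / (n + 1)
      = Real.exp (-(16 * (d + 2) ^ 2 / n)) * ((2 : ℝ) ^ n / (n + 1)) := by ring
    _ ≤ r ^ (n / 2 - j) * (n.choose (n / 2) : ℝ) :=
        mul_le_mul hrm (LSize_mid n) (by positivity) (by positivity)
    _ ≤ _ := key

/-- Lower bound for binomial coefficients near the middle. PROOF. By symmetry j <= n/2 (replace j by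
n - j). Let c = n / 2 (natural division), so 0 <= c - j <= d + 1. Going from c down to j:
choose n j = choose n c * prod_(i = j+1)^(c) i/(n - i + 1), every factor is at least
(n/2 - d - 1)/(n/2 + d + 2) >= 1 - (4 d + 8)/n >= exp(-(8 d + 16)/n) (1 - x >= exp(-2x) for 0 <= x <= 1/2), at
most d + 1 factors: choose n j >= choose n c * exp(-(8 d + 16)(d + 1)/n). And choose n c >= 2^n/(n+1)
(Nat.choose_le_middle, Nat.sum_range_choose). Any cruder constant than 16 in the exponent is fine as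
long as the statement is kept. -/
theorem choose_lower (n j : ℕ) (d : ℝ) (hd : 0 ≤ d) (hj : |(j : ℝ) - n / 2| ≤ d)
    (hn : 8 * d + 16 ≤ n) :
    (2 : ℝ) ^ n * Real.exp (-(16 * (d + 2) ^ 2 / n)) / (n + 1) ≤ (n.choose j : ℝ) := by
  have h := abs_le.1 hj
  have hjn : j ≤ n := by
    have : (j : ℝ) ≤ n := by linarith [h.2]
    exact_mod_cast this
  rcases le_total j (n / 2) with h1 | h1
  · exact LSize_low n j d hd (by linarith [h.1]) h1 hn
  · rw [← Nat.choose_symm hjn]
    rcases Nat.lt_or_ge (n / 2) (n - j) with h2 | h2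
    · -- then n = 2 j + 1 is impossible; n - j > n / 2 and j >= n / 2 give j = n / 2, n odd
      have h3 : j = n / 2 := by omega
      rw [Nat.choose_symm hjn]
      exact LSize_low n j d hd (by linarith [h.1]) (by omega) hn
    · refine LSize_low n (n - j) d hd ?_ h2 hn
      rw [Nat.cast_sub hjn]
      linarith [h.2]

private theorem LSize_avg_cw (F : (Un g → Bool) → ℝ) : avg F = ∑ t, cw ∅ 0 t * F t := by
  rw [avg_eq, cw_eq]
  unfold Pool.LarProb.Ex fw
  have h : (coin (∅ : Finset (Un g)) 0) = fun _ => fair := by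
    funext y x
    rw [coin_fair (Finset.notMem_empty y)]
    rfl
  rw [h]

private theorem LSize_count (F : Finset (Un g)) (m : ℕ) :
    avg (fun t : Un g → Bool => ind ((F.filter (fun y => t y = true)).card = m)) =
      (F.card.choose m : ℝ) / 2 ^ F.card := by
  rw [LSize_avg_cw]
  have h1 : ∀ t : Un g → Bool, ind ((F.filter (fun y => t y = true)).card = m) =
      ∑ A ∈ F.powersetCard m, ind (∀ y ∈ F, t y = decide (y ∈ A)) := by
    intro t
    have h2 : ∀ A ∈ F.powersetCard m, ind (∀ y ∈ F, t y = decide (y ∈ A)) =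
        if F.filter (fun y => t y = true) = A then (1 : ℝ) else 0 := by
      intro A hA
      have hAF : A ⊆ F := (Finset.mem_powersetCard.1 hA).1
      unfold ind
      congr 1
      apply propext
      constructor
      · intro h
        ext y
        rw [Finset.mem_filter]
        constructor
        · rintro ⟨hy, hty⟩
          rw [h y hy] at hty
          exact of_decide_eq_true hty
        · intro hy
          exact ⟨hAF hy, by rw [h y (hAF hy)]; exact decide_eq_true hy⟩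
      · rintro rfl y hy
        by_cases hty : t y = true
        · rw [hty]
          symm
          apply decide_eq_true
          exact Finset.mem_filter.2 ⟨hy, hty⟩
        · rw [Bool.not_eq_true] at hty
          rw [hty]
          symm
          apply decide_eq_false
          intro h
          rw [Finset.mem_filter, hty] at h
          exact Bool.false_ne_true h.2
    rw [Finset.sum_congr rfl h2, Finset.sum_ite_eq]
    unfold ind
    congr 1
    apply propext
    rw [Finset.mem_powersetCard]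
    constructor
    · intro h
      exact ⟨Finset.filter_subset _ _, h⟩
    · intro h
      exact h.2
  rw [Finset.sum_congr rfl (fun t _ => by rw [h1 t, Finset.mul_sum]), Finset.sum_comm]
  have h3 : ∀ A ∈ F.powersetCard m,
      ∑ t, cw ∅ 0 t * ind (∀ y ∈ F, t y = decide (y ∈ A)) = (1 / 2 : ℝ) ^ F.card := by
    intro A _
    rw [cw_pattern ∅ F 0 (fun y => decide (y ∈ A))]
    rw [← Finset.prod_const]
    refine Finset.prod_congr rfl (fun y _ => ?_)
    unfold cwf
    simp
  rw [Finset.sum_congr rfl h3, Finset.sum_const, Finset.card_powersetCard, nsmul_eq_mul, one_div,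
    inv_pow, div_eq_mul_inv]

/-- number of heads of the neutral coins: fair coins, independent of the tilted coins. For every number
a of heads of the tilted free units the probability that the neutral free units have exactly b heads
is choose |Nu| b / 2^|Nu|. Here in the form: for every function w of the number of heads of Mu. PROOF:
cw is a product law; group the sum over t by its restrictions to Mu, Nu and the rest; the number of
subsets of Nu with b elements is choose |Nu| b. (Suggestion: freeze with cw_mix, Fb = Nu, Ψ = ind of the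
count, Φ = w of the count on Mu.) -/
theorem neutral_count (D : Dat g) (u : Pl g) (X : Finset (Un g)) (β : Un g → ℝ)
    (w : (Un g → Bool) → ℝ) (hw : ∀ t t', (∀ y, y ∉ D.Nu u X → t y = t' y) → w t = w t')
    (b : (Un g → Bool) → ℕ) (hb : ∀ t t', (∀ y, y ∉ D.Nu u X → t y = t' y) → b t = b t') :
    ∑ t, cw (D.Mu u X) β t * (w t *
        ind (((D.Nu u X).filter (fun y => t y = true)).card = b t)) =
      ∑ t, cw (D.Mu u X) β t * (w t *
        (((D.Nu u X).card.choose (b t) : ℝ) / 2 ^ (D.Nu u X).card)) := by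
  have hd : Disjoint (D.Mu u X) (D.Nu u X) := by
    rw [Finset.disjoint_left]
    intro y hy hy2
    unfold Dat.Mu at hy
    unfold Dat.Nu at hy2
    rw [Finset.mem_sdiff] at hy hy2
    have h1 := (Finset.mem_filter.1 hy.1).2
    have h2 := (Finset.mem_filter.1 hy2.1).2
    rw [h1] at h2
    exact absurd h2 (by decide)
  rw [cw_mix (D.Mu u X) (D.Nu u X) hd β w
    (fun t => ind (((D.Nu u X).filter (fun y => t y = true)).card = b t)) hw]
  refine Finset.sum_congr rfl (fun t0 _ => ?_)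
  congr 2
  rw [← LSize_count]
  unfold avg
  congr 1
  refine Finset.sum_congr rfl (fun t _ => ?_)
  have h1 : b (mix (D.Nu u X) t0 t) = b t0 := hb _ _ (fun y hy => by
    unfold mix
    rw [if_neg hy])
  have h2 : (D.Nu u X).filter (fun y => mix (D.Nu u X) t0 t y = true) =
      (D.Nu u X).filter (fun y => t y = true) := by
    refine Finset.filter_congr (fun y hy => ?_)
    unfold mix
    rw [if_pos hy]
  show ind (((D.Nu u X).filter (fun y => mix (D.Nu u X) t0 t y = true)).card =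
    b (mix (D.Nu u X) t0 t)) = ind (((D.Nu u X).filter (fun y => t y = true)).card = b t0)
  rw [h1, h2]

/-- the number of heads of the tilted coins is within g^526 of its mean with probability >= 1/2.
PROOF: tail bound (Pool.LarProb.tail_abs, or Chebyshev: the variance is at most |Mu| <= g^1050 and
(g^526)^2 = g^1052). -/
theorem tilted_count : ∀ᶠ (g : ℕ) in Filter.atTop, ∀ D : Dat g,
    ∀ (u : Pl g) (X : Finset (Un g)) (β : Un g → ℝ), (∀ y ∈ D.Mu u X, |β y| ≤ 1 / 2) →
    1 / 2 ≤ ∑ t, cw (D.Mu u X) β t *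
      ind (|(((D.Mu u X).filter (fun y => t y = true)).card : ℝ) - ∑ y ∈ D.Mu u X, (1 / 2 + β y)| ≤
        (g : ℝ) ^ 526) := by
  filter_upwards [ev_exp 2 (c := 1 / 4) (ε := 1 / 2) 0 2 (by norm_num) (by norm_num) (by norm_num),
    Filter.eventually_ge_atTop 1] with g hg hg1 D u X β hβ
  have hg1' : (1 : ℝ) ≤ g := by exact_mod_cast hg1
  have hw := fun y => coin_isP hβ y
  have hP : Pool.LarProb.IsP (cw (D.Mu u X) β) := cw_isP hβ
  have hEx : ∀ y (f : Bool → ℝ), Pool.LarProb.Ex (coin (D.Mu u X) β y) f =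
      coin (D.Mu u X) β y true * f true + coin (D.Mu u X) β y false * f false := by
    intro y f
    unfold Pool.LarProb.Ex
    rw [Fintype.sum_bool]
  have hct : ∀ y ∈ D.Mu u X, coin (D.Mu u X) β y true = 1 / 2 + β y := by
    intro y hy
    unfold coin
    simp [hy]
  have hcf : ∀ y ∈ D.Mu u X, coin (D.Mu u X) β y false = 1 / 2 - β y := by
    intro y hy
    unfold coin
    simp [hy]
    ring
  have hcard : ((D.Mu u X).card : ℝ) ≤ (g : ℝ) ^ 1050 := by
    have h1 : (D.Mu u X).card ≤ (kind 0 (supp (D.σ u))).card :=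
      Finset.card_le_card Finset.sdiff_subset
    rw [card_kind_supp] at h1
    have h2 : ((D.Mu u X).card : ℝ) ≤ (sN g : ℝ) := by exact_mod_cast h1
    rwa [sN_cast] at h2
  have h := Pool.LarProb.tail_abs (A := fun _ : Un g => Bool) hw (D.Mu u X)
    (fun y x => (if x = true then (1 : ℝ) else 0) - (1 / 2 + β y)) (b := 1)
    (V := (g : ℝ) ^ 1050) (t := (g : ℝ) ^ 526) ?_ ?_ ?_ (by positivity) (by positivity) ?_
  · have e1 : 2 * Real.exp (-(((g : ℝ) ^ 526) ^ 2 / (4 * (g : ℝ) ^ 1050))) ≤ 1 / 2 := by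
      have e2 : ((g : ℝ) ^ 526) ^ 2 / (4 * (g : ℝ) ^ 1050) = 1 / 4 * (g : ℝ) ^ 2 := by
        have : (g : ℝ) ^ 1050 ≠ 0 := by positivity
        rw [← pow_mul, div_eq_iff (by positivity), show 526 * 2 = 2 + 1050 from rfl, pow_add]
        ring
      rw [e2]
      simpa using hg
    have h' := h.trans e1
    rw [← cw_eq] at h'
    have e3 : ∀ t : Un g → Bool, ∑ y ∈ D.Mu u X,
        ((if t y = true then (1 : ℝ) else 0) - (1 / 2 + β y)) =
        (((D.Mu u X).filter (fun y => t y = true)).card : ℝ) -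
          ∑ y ∈ D.Mu u X, (1 / 2 + β y) := by
      intro t
      rw [Finset.sum_sub_distrib, Finset.card_filter]
      push_cast
      rfl
    have e4 : Pool.LarProb.Pr (cw (D.Mu u X) β) (fun t =>
        ¬ (|(((D.Mu u X).filter (fun y => t y = true)).card : ℝ) -
          ∑ y ∈ D.Mu u X, (1 / 2 + β y)| ≤ (g : ℝ) ^ 526)) ≤ 1 / 2 := by
      refine le_trans (Pool.LarProb.Pr_mono hP (fun t ht => ?_)) h'
      rw [e3 t]
      exact (not_le.1 ht).le
    rw [Pool.LarProb.Pr_not hP] at e4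
    have e5 : Pool.LarProb.Pr (cw (D.Mu u X) β) (fun t =>
        |(((D.Mu u X).filter (fun y => t y = true)).card : ℝ) -
          ∑ y ∈ D.Mu u X, (1 / 2 + β y)| ≤ (g : ℝ) ^ 526) = ∑ t, cw (D.Mu u X) β t *
      ind (|(((D.Mu u X).filter (fun y => t y = true)).card : ℝ) -
        ∑ y ∈ D.Mu u X, (1 / 2 + β y)| ≤ (g : ℝ) ^ 526) := by
      unfold Pool.LarProb.Pr Pool.LarProb.Ex
      rfl
    rw [e5] at e4
    linarith
  · intro y hy x
    have hb := abs_le.1 (hβ y hy)
    rw [abs_le]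
    cases x
    · simp only [Bool.false_eq_true, if_false]
      constructor <;> linarith [hb.1, hb.2]
    · simp only [if_true]
      constructor <;> linarith [hb.1, hb.2]
  · intro y hy
    rw [hEx, hct y hy, hcf y hy]
    simp only [Bool.false_eq_true, if_false, if_true]
    ring
  · refine le_trans (Finset.sum_le_sum (g := fun _ => (1 : ℝ)) (fun y hy => ?_)) ?_
    · rw [hEx, hct y hy, hcf y hy]
      simp only [Bool.false_eq_true, if_false, if_true]
      have hb := abs_le.1 (hβ y hy)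
      nlinarith [hb.1, hb.2]
    · rw [Finset.sum_const, nsmul_eq_mul, mul_one]
      exact hcard
  · have h1 : (g : ℝ) ^ 526 ≤ (g : ℝ) ^ 1050 := pow_le_pow_right₀ hg1' (by norm_num)
    have h2 : (0 : ℝ) ≤ (g : ℝ) ^ 1050 := by positivity
    linarith

/-- number of free units of a kind -/
private theorem LSize_card_kind (D : Dat g) (hGeo : Geo D.S) (u : Pl g) (X : Finset (Un g))
    (hX : (X.card : ℝ) ≤ 3 * (g : ℝ) ^ 101) (b : Fin 3) :
    ((kind b (D.S u) \ X).card : ℝ) ≤ (g : ℝ) ^ 1050 ∧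
    (g : ℝ) ^ 1050 - 3 * (g : ℝ) ^ 101 ≤ ((kind b (D.S u) \ X).card : ℝ) := by
  have h1 := hGeo.g1 u b
  have h2 : (kind b (D.S u) \ X).card ≤ (kind b (D.S u)).card :=
    Finset.card_le_card Finset.sdiff_subset
  have h3 : (kind b (D.S u)).card ≤ (kind b (D.S u) \ X).card + X.card := by
    have := Finset.le_card_sdiff X (kind b (D.S u))
    omega
  have h2' : ((kind b (D.S u) \ X).card : ℝ) ≤ ((kind b (D.S u)).card : ℝ) := by exact_mod_cast h2
  have h3' : ((kind b (D.S u)).card : ℝ) ≤ ((kind b (D.S u) \ X).card : ℝ) + (X.card : ℝ) := by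
    exact_mod_cast h3
  constructor <;> linarith

/-- the mean number of heads of the tilted coins: s/2 + e s up to 3 g^526. PROOF: sum over Mu of
(1/2 + e + raise y - e Dp B y M): |Mu| = g^1050 up to 3 g^101; sum of raise <= 8/g^2 * g^152 (r0, r1);
e * sum_y Dp B y M = g^-43 * (sum over k and y of inc) is at most g^-43 g^569 = g^526 in absolute value
(b3). -/
theorem tilted_mean : ∀ᶠ (g : ℕ) in Filter.atTop, ∀ D : Dat g, Geo D.S →
    ∀ (u : Pl g) (X : Finset (Un g)) (E : Env g), E.OK D u X →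
    ∀ B : Fin E.M → Pl g, E.BB D u X B →
    |∑ y ∈ D.Mu u X, (1 / 2 + E.beta D B y) - ((g : ℝ) ^ 1050 / 2 + (g : ℝ) ^ 1007)| ≤
      2 * (g : ℝ) ^ 526 := by
  filter_upwards [Filter.eventually_ge_atTop 1, ev_pow 10 (show 101 < 526 by norm_num),
    ev_pow 32 (show 150 < 526 by norm_num)] with g hg e1 e2
  intro D hGeo u X E hE B hB
  have hg1 : (1 : ℝ) ≤ g := by exact_mod_cast hg
  have hg0 : (0 : ℝ) < g := by linarith
  obtain ⟨hM1, hM2⟩ := LSize_card_kind D hGeo u X hE.Xcard 0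
  have hM1' : ((D.Mu u X).card : ℝ) ≤ (g : ℝ) ^ 1050 := hM1
  have hM2' : (g : ℝ) ^ 1050 - 3 * (g : ℝ) ^ 101 ≤ ((D.Mu u X).card : ℝ) := hM2
  clear hM1 hM2
  -- the raise
  have hr0 : 0 ≤ ∑ y ∈ D.Mu u X, E.raise y := Finset.sum_nonneg (fun y _ => (hE.r0 y).1)
  have hr1 : ∑ y ∈ D.Mu u X, E.raise y ≤ 8 * (g : ℝ) ^ 150 := by
    have h1 : ∑ y ∈ D.Mu u X, E.raise y
        ≤ ∑ y ∈ (Finset.univ.filter (fun y => E.raise y ≠ 0)), 8 / (g : ℝ) ^ 2 := by
      calc ∑ y ∈ D.Mu u X, E.raise y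
          = ∑ y ∈ (D.Mu u X).filter (fun y => E.raise y ≠ 0), E.raise y := by
            rw [Finset.sum_filter_ne_zero]
        _ ≤ ∑ y ∈ (D.Mu u X).filter (fun y => E.raise y ≠ 0), 8 / (g : ℝ) ^ 2 :=
            Finset.sum_le_sum (fun y _ => (hE.r0 y).2)
        _ ≤ _ := Finset.sum_le_sum_of_subset_of_nonneg
            (fun y hy => by
              rw [Finset.mem_filter] at hy ⊢
              exact ⟨Finset.mem_univ _, hy.2⟩) (fun y _ _ => by positivity)
    rw [Finset.sum_const, nsmul_eq_mul] at h1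
    have h2 := hE.r1
    unfold num at h2
    have h3 : (g : ℝ) ^ 152 * (8 / (g : ℝ) ^ 2) = 8 * (g : ℝ) ^ 150 := by
      field_simp
    calc ∑ y ∈ D.Mu u X, E.raise y
        ≤ ((Finset.univ.filter (fun y => E.raise y ≠ 0)).card : ℝ) * (8 / (g : ℝ) ^ 2) := h1
      _ ≤ (g : ℝ) ^ 152 * (8 / (g : ℝ) ^ 2) := by
          refine mul_le_mul_of_nonneg_right ?_ (by positivity)
          refine le_trans (le_of_eq ?_) h2
          congr
      _ = _ := h3
  -- the shift
  have hs : |((g : ℝ) ^ 43)⁻¹ * ∑ y ∈ D.Mu u X, E.Dp D B y E.M| ≤ (g : ℝ) ^ 526 := by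
    have h1 : ∑ y ∈ D.Mu u X, E.Dp D B y E.M = ∑ k, ∑ y ∈ D.Mu u X, E.inc D k (B k) y := by
      unfold Env.Dp
      rw [Finset.sum_comm]
      refine Finset.sum_congr rfl (fun k _ => Finset.sum_congr rfl (fun y _ => ?_))
      rw [if_pos k.isLt]
    rw [h1, abs_mul, abs_of_nonneg (by positivity : (0 : ℝ) ≤ ((g : ℝ) ^ 43)⁻¹)]
    have h2 := hB.b3
    calc ((g : ℝ) ^ 43)⁻¹ * |∑ k, ∑ y ∈ D.Mu u X, E.inc D k (B k) y|
        ≤ ((g : ℝ) ^ 43)⁻¹ * (g : ℝ) ^ 569 := mul_le_mul_of_nonneg_left h2 (by positivity)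
      _ = (g : ℝ) ^ 526 := by
          rw [show (569 : ℕ) = 43 + 526 by norm_num, pow_add, ← mul_assoc,
            inv_mul_cancel₀ (by positivity), one_mul]
  -- the sum
  have hsum : ∑ y ∈ D.Mu u X, (1 / 2 + E.beta D B y) =
      ((D.Mu u X).card : ℝ) / 2 + ((D.Mu u X).card : ℝ) * ((g : ℝ) ^ 43)⁻¹ +
        ∑ y ∈ D.Mu u X, E.raise y - ((g : ℝ) ^ 43)⁻¹ * ∑ y ∈ D.Mu u X, E.Dp D B y E.M := by
    unfold Env.beta
    rw [Finset.mul_sum, Finset.sum_add_distrib, Finset.sum_sub_distrib, Finset.sum_add_distrib,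
      Finset.sum_const, Finset.sum_const, nsmul_eq_mul, nsmul_eq_mul]
    ring
  have hinv : ((g : ℝ) ^ 43)⁻¹ ≤ 1 := inv_le_one_of_one_le₀ (one_le_pow₀ hg1)
  have hinv0 : 0 ≤ ((g : ℝ) ^ 43)⁻¹ := by positivity
  have hmid : (g : ℝ) ^ 1007 = (g : ℝ) ^ 1050 * ((g : ℝ) ^ 43)⁻¹ := by
    rw [show (1050 : ℕ) = 1007 + 43 by norm_num, pow_add, mul_assoc,
      mul_inv_cancel₀ (by positivity), mul_one]
  rw [hsum, hmid]
  generalize hx : ((D.Mu u X).card : ℝ) = x at *
  generalize hi : ((g : ℝ) ^ 43)⁻¹ = i at *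
  generalize ha : (g : ℝ) ^ 1050 = a at *
  generalize hb : (g : ℝ) ^ 101 = b at *
  generalize hc : (g : ℝ) ^ 526 = c at *
  generalize hd : (g : ℝ) ^ 150 = d at *
  generalize hR : ∑ y ∈ D.Mu u X, E.raise y = R at *
  generalize hS : ∑ y ∈ D.Mu u X, E.Dp D B y E.M = S at *
  have hb0 : 0 ≤ b := by rw [← hb]; positivity
  have k1 : (a - x) * i ≤ 3 * b := by
    calc (a - x) * i ≤ (a - x) * 1 := mul_le_mul_of_nonneg_left hinv (by linarith)
      _ ≤ 3 * b := by linarith
  have k2 : 0 ≤ (a - x) * i := mul_nonneg (by linarith) hinv0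
  obtain ⟨s1, s2⟩ := abs_le.1 hs
  rw [abs_le]
  constructor
  · nlinarith
  · nlinarith

/-- the free neutral units are not tilted -/
private theorem LSize_not_Nu (D : Dat g) (u : Pl g) (X : Finset (Un g)) {y : Un g}
    (hy : y ∈ D.Mu u X) : y ∉ D.Nu u X := by
  intro h
  unfold Dat.Mu kind at hy
  unfold Dat.Nu kind at h
  rw [Finset.mem_sdiff, Finset.mem_filter] at hy h
  have h1 := hy.1.2
  rw [h.1.2] at h1
  exact absurd h1 (by decide)

/-- the size of the random set -/
private theorem LSize_card_trA (D : Dat g) (u : Pl g) (X : Finset (Un g)) (t : Un g → Bool) :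
    (real (D.trA u X t)).card = ((D.Mu u X).filter (fun y => t y = true)).card +
      (D.Bu u X).card + ((D.Nu u X).filter (fun y => t y = true)).card := by
  rw [card_real_kinds]
  have h1 : (Finset.univ.filter (fun y : Un g => y.1 = 0 ∧ D.trA u X t y = some true)) =
      (D.Mu u X).filter (fun y => t y = true) := by
    ext y
    simp only [Finset.mem_filter, Finset.mem_univ, true_and, Dat.Mu, kind, Finset.mem_sdiff,
      Dat.trA]
    constructor
    · rintro ⟨h, h'⟩
      split_ifs at h' with h2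
      exact ⟨⟨⟨h2.1, h⟩, h2.2⟩, Option.some.inj h'⟩
    · rintro ⟨⟨⟨h2, h⟩, h3⟩, h4⟩
      exact ⟨h, by rw [if_pos ⟨h2, h3⟩, h4]⟩
  have h2 : (Finset.univ.filter (fun y : Un g => y.1 = 1 ∧ D.trA u X t y ≠ none)) =
      D.Bu u X := by
    ext y
    simp only [Finset.mem_filter, Finset.mem_univ, true_and, Dat.Bu, kind, Finset.mem_sdiff,
      Dat.trA]
    constructor
    · rintro ⟨h, h'⟩
      split_ifs at h' with h2
      · exact ⟨⟨h2.1, h⟩, h2.2⟩
      · exact absurd rfl h'
    · rintro ⟨⟨h2, h⟩, h3⟩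
      exact ⟨h, by rw [if_pos ⟨h2, h3⟩]; exact Option.some_ne_none _⟩
  have h3 : (Finset.univ.filter (fun y : Un g => y.1 = 2 ∧ D.trA u X t y = some true)) =
      (D.Nu u X).filter (fun y => t y = true) := by
    ext y
    simp only [Finset.mem_filter, Finset.mem_univ, true_and, Dat.Nu, kind, Finset.mem_sdiff,
      Dat.trA]
    constructor
    · rintro ⟨h, h'⟩
      split_ifs at h' with h2
      exact ⟨⟨⟨h2.1, h⟩, h2.2⟩, Option.some.inj h'⟩
    · rintro ⟨⟨⟨h2, h⟩, h3⟩, h4⟩
      exact ⟨h, by rw [if_pos ⟨h2, h3⟩, h4]⟩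
  rw [h1, h2, h3]

/-- SIZE. PROOF. card_real_kinds for trA: size = heads in Mu + |Bu| + heads in Nu. With a = heads in Mu
within g^526 of its mean, b = kk - |Bu| - a satisfies |b - |Nu|/2| <= 4 g^526: kk = 2 g^1050 + g^1007 and
|Bu| = g^1050 up to 3 g^101 (the mean size of the whole set is kk up to 4 g^526). choose_lower with n = |Nu| >= g^1050 - 3 g^101, d = 4 g^526: the conditional probability is
>= exp(-16 (4 g^526 + 2)^2/(g^1050/2))/(g^1050 + 1) >= exp(-600 g^2)/(g^1050 + 1) >= 2 exp(-g^3/1000). -/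
theorem size_prob : ∀ᶠ (g : ℕ) in Filter.atTop, ∀ D : Dat g, Geo D.S →
    ∀ (u : Pl g) (X : Finset (Un g)) (E : Env g), E.OK D u X →
    ∀ B : Fin E.M → Pl g, E.BB D u X B →
    Real.exp (-((g : ℝ) ^ 3 / 1000)) ≤ ∑ t, cw (D.Mu u X) (E.beta D B) t *
      ind ((real (D.trA u X t)).card = kk g) := by
  filter_upwards [Filter.eventually_ge_atTop 1, tilted_mean, tilted_count, beta_le,
    ev_pow 10 (show 101 < 526 by norm_num), ev_pow 100 (show 526 < 1050 by norm_num),
    ev_poly_exp 4 1050 3 (by norm_num) (1 / 2000) (by norm_num), ev_ge 1600000]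
    with g hg htm htc hbl e1 e2 e3 e4
  intro D hGeo u X E hE B hB
  have hg1 : (1 : ℝ) ≤ g := by exact_mod_cast hg
  have hg0 : (0 : ℝ) < g := by linarith
  have hβ : ∀ y ∈ D.Mu u X, |E.beta D B y| ≤ 1 / 2 := fun y hy =>
    (hbl D u X E hE B hB y hy).trans (by norm_num)
  have hmean := htm D hGeo u X E hE B hB
  have hcount := htc D u X (E.beta D B) hβ
  obtain ⟨hB1, hB2⟩ := LSize_card_kind D hGeo u X hE.Xcard 1
  obtain ⟨hN1, hN2⟩ := LSize_card_kind D hGeo u X hE.Xcard 2
  have hB1' : ((D.Bu u X).card : ℝ) ≤ (g : ℝ) ^ 1050 := hB1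
  have hB2' : (g : ℝ) ^ 1050 - 3 * (g : ℝ) ^ 101 ≤ ((D.Bu u X).card : ℝ) := hB2
  have hN1' : ((D.Nu u X).card : ℝ) ≤ (g : ℝ) ^ 1050 := hN1
  have hN2' : (g : ℝ) ^ 1050 - 3 * (g : ℝ) ^ 101 ≤ ((D.Nu u X).card : ℝ) := hN2
  clear hB1 hB2 hN1 hN2
  set μ : ℝ := ∑ y ∈ D.Mu u X, (1 / 2 + E.beta D B y) with hμ
  set ha : (Un g → Bool) → ℕ := fun t => ((D.Mu u X).filter (fun y => t y = true)).card with hha
  set w : (Un g → Bool) → ℝ := fun t => ind (|(ha t : ℝ) - μ| ≤ (g : ℝ) ^ 526) with hwdef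
  set b : (Un g → Bool) → ℕ := fun t => kk g - (D.Bu u X).card - ha t with hbdef
  have hadep : ∀ t t' : Un g → Bool, (∀ y, y ∉ D.Nu u X → t y = t' y) → ha t = ha t' := by
    intro t t' h
    simp only [hha]
    congr 1
    refine Finset.filter_congr (fun y hy => ?_)
    rw [h y (LSize_not_Nu D u X hy)]
  have hwdep : ∀ t t' : Un g → Bool, (∀ y, y ∉ D.Nu u X → t y = t' y) → w t = w t' := by
    intro t t' h
    simp only [hwdef]
    rw [hadep t t' h]
  have hbdep : ∀ t t' : Un g → Bool, (∀ y, y ∉ D.Nu u X → t y = t' y) → b t = b t' := by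
    intro t t' h
    simp only [hbdef]
    rw [hadep t t' h]
  have hneu := neutral_count D u X (E.beta D B) w hwdep b hbdep
  -- numbers
  have hkk := kk_cast g
  have p1 : (0 : ℝ) ≤ (g : ℝ) ^ 101 := by positivity
  have p2 : (0 : ℝ) < (g : ℝ) ^ 526 := by positivity
  have p2' : (1 : ℝ) ≤ (g : ℝ) ^ 526 := one_le_pow₀ hg1
  obtain ⟨m1, m2⟩ := abs_le.1 hmean
  -- good counts
  have hgood : ∀ t, |(ha t : ℝ) - μ| ≤ (g : ℝ) ^ 526 →
      (D.Bu u X).card + ha t ≤ kk g ∧
      |(b t : ℝ) - ((D.Nu u X).card : ℝ) / 2| ≤ 4 * (g : ℝ) ^ 526 := by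
    intro t ht
    obtain ⟨t1, t2⟩ := abs_le.1 ht
    have hle : ((D.Bu u X).card : ℝ) + (ha t : ℝ) ≤ (kk g : ℝ) := by
      rw [hkk]
      linarith
    have hle' : (D.Bu u X).card + ha t ≤ kk g := by exact_mod_cast hle
    refine ⟨hle', ?_⟩
    have hb : (b t : ℝ) = (kk g : ℝ) - ((D.Bu u X).card : ℝ) - (ha t : ℝ) := by
      have h1 : b t + ((D.Bu u X).card + ha t) = kk g := by
        simp only [hbdef]
        omega
      have h2 : (b t : ℝ) + (((D.Bu u X).card : ℝ) + (ha t : ℝ)) = (kk g : ℝ) := by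
        exact_mod_cast h1
      linarith
    rw [hb, hkk, abs_le]
    constructor <;> linarith
  -- the constant
  set n : ℕ := (D.Nu u X).card with hn
  set c : ℝ := Real.exp (-(16 * (4 * (g : ℝ) ^ 526 + 2) ^ 2 / n)) / (n + 1) with hc
  have hnpos : (0 : ℝ) < n := by linarith
  have hchoose : ∀ t, |(ha t : ℝ) - μ| ≤ (g : ℝ) ^ 526 →
      c ≤ ((n.choose (b t) : ℝ) / 2 ^ n) := by
    intro t ht
    have h1 := choose_lower n (b t) (4 * (g : ℝ) ^ 526) (by positivity) (hgood t ht).2 (by linarith)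
    rw [le_div_iff₀ (by positivity)]
    calc c * 2 ^ n = (2 : ℝ) ^ n * Real.exp (-(16 * (4 * (g : ℝ) ^ 526 + 2) ^ 2 / n)) / (n + 1) := by
          rw [hc]; ring
      _ ≤ _ := h1
  have hcw : ∀ t, 0 ≤ cw (D.Mu u X) (E.beta D B) t := (cw_isP hβ).nonneg
  have hstep1 : c / 2 ≤ ∑ t, cw (D.Mu u X) (E.beta D B) t *
      (w t * ((n.choose (b t) : ℝ) / 2 ^ n)) := by
    have hc0 : 0 ≤ c := by rw [hc]; positivity
    calc c / 2 = 1 / 2 * c := by ring
      _ ≤ (∑ t, cw (D.Mu u X) (E.beta D B) t * w t) * c :=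
          mul_le_mul_of_nonneg_right hcount hc0
      _ = ∑ t, cw (D.Mu u X) (E.beta D B) t * (w t * c) := by
          rw [Finset.sum_mul]
          exact Finset.sum_congr rfl (fun t _ => by ring)
      _ ≤ _ := by
          refine Finset.sum_le_sum (fun t _ => mul_le_mul_of_nonneg_left ?_ (hcw t))
          by_cases ht : |(ha t : ℝ) - μ| ≤ (g : ℝ) ^ 526
          · have hw1 : w t = 1 := by simp only [hwdef, ind, if_pos ht]
            rw [hw1, one_mul, one_mul]
            exact hchoose t ht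
          · have hw0 : w t = 0 := by simp only [hwdef, ind, if_neg ht]
            rw [hw0, zero_mul, zero_mul]
  rw [← hneu] at hstep1
  have hstep2 : ∑ t, cw (D.Mu u X) (E.beta D B) t *
      (w t * ind (((D.Nu u X).filter (fun y => t y = true)).card = b t)) ≤
      ∑ t, cw (D.Mu u X) (E.beta D B) t * ind ((real (D.trA u X t)).card = kk g) := by
    refine Finset.sum_le_sum (fun t _ => mul_le_mul_of_nonneg_left ?_ (hcw t))
    by_cases ht : |(ha t : ℝ) - μ| ≤ (g : ℝ) ^ 526
    · by_cases hh : ((D.Nu u X).filter (fun y => t y = true)).card = b t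
      · have hsz : (real (D.trA u X t)).card = kk g := by
          rw [LSize_card_trA, hh]
          have h1 := (hgood t ht).1
          have h2 : ha t = ((D.Mu u X).filter (fun y => t y = true)).card := rfl
          rw [← h2]
          simp only [hbdef]
          omega
        have hw1 : w t = 1 := by simp only [hwdef, ind, if_pos ht]
        rw [hw1, one_mul]
        unfold ind
        rw [if_pos hh, if_pos hsz]
      · have h0 : ind (((D.Nu u X).filter (fun y => t y = true)).card = b t) = 0 := by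
          unfold ind; rw [if_neg hh]
        rw [h0, mul_zero]
        unfold ind
        split_ifs <;> norm_num
    · have hw0 : w t = 0 := by simp only [hwdef, ind, if_neg ht]
      rw [hw0, zero_mul]
      unfold ind
      split_ifs <;> norm_num
  refine le_trans ?_ (hstep1.trans hstep2)
  -- the final estimate
  have hn2 : (g : ℝ) ^ 1050 / 2 ≤ n := by linarith
  have q1 : 16 * (4 * (g : ℝ) ^ 526 + 2) ^ 2 / n ≤ (g : ℝ) ^ 3 / 2000 := by
    rw [div_le_iff₀ hnpos]
    have h1 : 16 * (4 * (g : ℝ) ^ 526 + 2) ^ 2 ≤ 16 * (5 * (g : ℝ) ^ 526) ^ 2 := by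
      have : 4 * (g : ℝ) ^ 526 + 2 ≤ 5 * (g : ℝ) ^ 526 := by
        have h5 : (10 : ℝ) ≤ (g : ℝ) ^ 526 := by
          have h6 : (1 : ℝ) ≤ (g : ℝ) ^ 101 := one_le_pow₀ hg1
          linarith
        linarith
      have h0 : (0 : ℝ) ≤ 4 * (g : ℝ) ^ 526 + 2 := by positivity
      have := pow_le_pow_left₀ h0 this 2
      linarith
    have h2 : 16 * (5 * (g : ℝ) ^ 526) ^ 2 = 400 * ((g : ℝ) ^ 2 * (g : ℝ) ^ 1050) := by
      rw [← pow_add]; ring
    have h3 : (g : ℝ) ^ 3 / 2000 * ((g : ℝ) ^ 1050 / 2) ≤ (g : ℝ) ^ 3 / 2000 * n :=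
      mul_le_mul_of_nonneg_left hn2 (by positivity)
    have h4 : 400 * ((g : ℝ) ^ 2 * (g : ℝ) ^ 1050) ≤
        (g : ℝ) ^ 3 / 2000 * ((g : ℝ) ^ 1050 / 2) := by
      have h5 : (0 : ℝ) ≤ (g : ℝ) ^ 2 * (g : ℝ) ^ 1050 := by positivity
      have h6 : (g : ℝ) ^ 3 / 2000 * ((g : ℝ) ^ 1050 / 2)
          = (g : ℝ) / 4000 * ((g : ℝ) ^ 2 * (g : ℝ) ^ 1050) := by ring
      rw [h6]
      exact mul_le_mul_of_nonneg_right (by linarith) h5
    linarith
  have q2 : ((n : ℝ) + 1) * 2 ≤ 4 * (g : ℝ) ^ 1050 := by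
    have : (1 : ℝ) ≤ (g : ℝ) ^ 1050 := one_le_pow₀ hg1
    linarith
  have q3 : ((n : ℝ) + 1) * 2 ≤ Real.exp ((g : ℝ) ^ 3 / 2000) := by
    refine q2.trans (e3.trans (le_of_eq ?_))
    congr 1
    ring
  rw [hc, div_div, le_div_iff₀ (by positivity)]
  calc Real.exp (-((g : ℝ) ^ 3 / 1000)) * (((n : ℝ) + 1) * 2)
      ≤ Real.exp (-((g : ℝ) ^ 3 / 1000)) * Real.exp ((g : ℝ) ^ 3 / 2000) :=
        mul_le_mul_of_nonneg_left q3 (Real.exp_pos _).le
    _ = Real.exp (-((g : ℝ) ^ 3 / 2000)) := by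
        rw [← Real.exp_add]; congr 1; ring
    _ ≤ _ := Real.exp_le_exp.2 (by linarith)

end Pool.Larman
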