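import Pool.Agent.Larman.LVal
import Pool.Agent.Larman.LSize
import Pool.Agent.Larman.BBp

/-!
# MP_a9ba8c (Larman, t = 1): total weight, weight of the invalid events
-/

set_option autoImplicit false

open scoped BigOperators Classical

noncomputable section

namespace Pool.Larman

variable {g : ℕ}

private theorem LWt_ind_nonneg (p : Prop) : 0 ≤ ind p := by unfold ind; split_ifs <;> norm_num

private theorem LWt_ind_le_one (p : Prop) : ind p ≤ 1 := by unfold ind; split_ifs <;> norm_num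

private theorem LWt_ind_of {p : Prop} (h : p) : ind p = 1 := by unfold ind; rw [if_pos h]

private theorem LWt_ind_of_not {p : Prop} (h : ¬ p) : ind p = 0 := by unfold ind; rw [if_neg h]

private theorem LWt_ind_mono {p q : Prop} (h : p → q) : ind p ≤ ind q := by
  by_cases hp : p
  · rw [LWt_ind_of hp, LWt_ind_of (h hp)]
  · rw [LWt_ind_of_not hp]
    exact LWt_ind_nonneg q

private theorem LWt_xi_nonneg (D : Dat g) (u w : Pl g) (T : Tr g) : 0 ≤ D.xi u w T := by
  unfold Dat.xi
  split_ifs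
  · positivity
  · exact le_refl _

private theorem LWt_xi_le (D : Dat g) (u w : Pl g) (T : Tr g) : D.xi u w T ≤ (hM g : ℝ) := by
  unfold Dat.xi
  split_ifs
  · exact le_refl _
  · positivity

private theorem LWt_slotWt_nonneg (E : Env g) (B : Fin E.M → Pl g) : 0 ≤ E.slotWt B := by
  unfold Env.slotWt
  refine Finset.prod_nonneg (fun k _ => ?_)
  split_ifs
  · positivity
  · exact le_refl _

/-- WT is monotone in the event, nonnegative, subadditive (the biases are small on BB) -/
theorem WT_mono {D : Dat g} {E : Env g} {u : Pl g} {X : Finset (Un g)}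
    (hβ : ∀ B, E.BB D u X B → ∀ y ∈ D.Mu u X, |E.beta D B y| ≤ 1 / 2)
    {Ev Ev' : (Fin E.M → Pl g) → (Un g → Bool) → Prop} (h : ∀ B t, Ev B t → Ev' B t) :
    D.WT E u X Ev ≤ D.WT E u X Ev' := by
  unfold Dat.WT
  refine Finset.sum_le_sum (fun B _ => ?_)
  by_cases hB : E.BB D u X B
  · refine mul_le_mul_of_nonneg_left ?_
      (mul_nonneg (LWt_slotWt_nonneg E B) (LWt_ind_nonneg _))
    refine Finset.sum_le_sum (fun t _ => ?_)
    have hc := cw_nonneg (D.Mu u X) (E.beta D B) (hβ B hB) t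
    refine mul_le_mul_of_nonneg_right ?_ (Finset.prod_nonneg (fun k _ => LWt_xi_nonneg D u _ _))
    refine mul_le_mul_of_nonneg_right ?_ (LWt_ind_nonneg _)
    exact mul_le_mul_of_nonneg_left (LWt_ind_mono (h B t)) hc
  · rw [LWt_ind_of_not hB]
    simp

/-- finite union bound: if every (B, t) with B in BB, of the right size, with all xi <> 0 satisfies one of the
events of the finite family, the total weight is at most the sum of the weights. -/
theorem WT_union {D : Dat g} {E : Env g} {u : Pl g} {X : Finset (Un g)}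
    (hβ : ∀ B, E.BB D u X B → ∀ y ∈ D.Mu u X, |E.beta D B y| ≤ 1 / 2)
    {ι : Type} (s : Finset ι) (Ev : ι → (Fin E.M → Pl g) → (Un g → Bool) → Prop)
    (h : ∀ B t, E.BB D u X B → (real (D.trA u X t)).card = kk g →
      (∀ k, D.cong u (B k) (D.trA u X t)) → ∃ i ∈ s, Ev i B t) :
    D.WT E u X (fun _ _ => True) ≤ ∑ i ∈ s, D.WT E u X (Ev i) := by
  have e1 : ∑ i ∈ s, D.WT E u X (Ev i) = ∑ B : Fin E.M → Pl g, E.slotWt B * ind (E.BB D u X B) *
      ∑ t, cw (D.Mu u X) (E.beta D B) t * (∑ i ∈ s, ind (Ev i B t)) *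
        ind ((real (D.trA u X t)).card = kk g) * ∏ k, D.xi u (B k) (D.trA u X t) := by
    unfold Dat.WT
    rw [Finset.sum_comm]
    refine Finset.sum_congr rfl (fun B _ => ?_)
    rw [← Finset.mul_sum, Finset.sum_comm]
    congr 1
    refine Finset.sum_congr rfl (fun t _ => ?_)
    rw [Finset.mul_sum, Finset.sum_mul, Finset.sum_mul]
  rw [e1]
  unfold Dat.WT
  refine Finset.sum_le_sum (fun B _ => ?_)
  by_cases hB : E.BB D u X B
  · refine mul_le_mul_of_nonneg_left ?_
      (mul_nonneg (LWt_slotWt_nonneg E B) (LWt_ind_nonneg _))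
    refine Finset.sum_le_sum (fun t _ => ?_)
    have hc := cw_nonneg (D.Mu u X) (E.beta D B) (hβ B hB) t
    by_cases hs : (real (D.trA u X t)).card = kk g
    · by_cases hk : ∀ k, D.cong u (B k) (D.trA u X t)
      · obtain ⟨i, hi, hEv⟩ := h B t hB hs hk
        refine mul_le_mul_of_nonneg_right ?_
          (Finset.prod_nonneg (fun k _ => LWt_xi_nonneg D u _ _))
        refine mul_le_mul_of_nonneg_right ?_ (LWt_ind_nonneg _)
        refine mul_le_mul_of_nonneg_left ?_ hc
        rw [LWt_ind_of trivial]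
        calc (1 : ℝ) = ind (Ev i B t) := (LWt_ind_of hEv).symm
          _ ≤ ∑ i ∈ s, ind (Ev i B t) :=
            Finset.single_le_sum (f := fun i => ind (Ev i B t))
              (fun i _ => LWt_ind_nonneg _) hi
      · push Not at hk
        obtain ⟨k, hk⟩ := hk
        have h0 : ∏ k, D.xi u (B k) (D.trA u X t) = 0 := by
          refine Finset.prod_eq_zero (Finset.mem_univ k) ?_
          unfold Dat.xi
          rw [if_neg hk]
        rw [h0, mul_zero, mul_zero]
    · rw [LWt_ind_of_not hs]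
      simp
  · rw [LWt_ind_of_not hB]
    simp

/-- the inner sum of WT -/
private theorem LWt_inner_eq (D : Dat g) (E : Env g) (u : Pl g) (X : Finset (Un g))
    (B : Fin E.M → Pl g) (P : (Un g → Bool) → Prop) :
    ∑ t, cw (D.Mu u X) (E.beta D B) t * ind (P t) * ind ((real (D.trA u X t)).card = kk g) *
        ∏ k, D.xi u (B k) (D.trA u X t) =
      ∑ t, cw (D.Mu u X) (E.beta D B) t *
        ((ind (P t) * ind ((real (D.trA u X t)).card = kk g)) *
          ∏ k, D.xi u (B k) (D.trA u X t)) := by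
  refine Finset.sum_congr rfl (fun t _ => ?_)
  ring

/-- upper bound for WT from a uniform bound of the inner sums -/
private theorem LWt_le_of_inner {D : Dat g} {E : Env g} {u : Pl g} {X : Finset (Un g)}
    (hg : 0 < g) (hE : E.OK D u X) (Ev : (Fin E.M → Pl g) → (Un g → Bool) → Prop) {c : ℝ}
    (hc : 0 ≤ c) (h : ∀ B, E.BB D u X B →
      ∑ t, cw (D.Mu u X) (E.beta D B) t *
        ((ind (Ev B t) * ind ((real (D.trA u X t)).card = kk g)) *
          ∏ k, D.xi u (B k) (D.trA u X t)) ≤ c) : D.WT E u X Ev ≤ c := by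
  have hW : ∀ k, (E.W k).Nonempty := by
    intro k
    rw [← Finset.card_pos]
    have h1 := hE.W_card k
    have h2 : (0 : ℝ) < (g : ℝ) ^ 9900 := by positivity
    exact_mod_cast lt_of_lt_of_le h2 h1
  have h1 : ∑ B, E.slotWt B = 1 := (slotWt_isP hW).sum_one
  calc D.WT E u X Ev ≤ ∑ B : Fin E.M → Pl g, E.slotWt B * c := by
        unfold Dat.WT
        refine Finset.sum_le_sum (fun B _ => ?_)
        rw [LWt_inner_eq, mul_assoc]
        refine mul_le_mul_of_nonneg_left ?_ (LWt_slotWt_nonneg E B)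
        by_cases hB : E.BB D u X B
        · rw [LWt_ind_of hB, one_mul]
          exact h B hB
        · rw [LWt_ind_of_not hB, zero_mul]
          exact hc
    _ = c := by rw [← Finset.sum_mul, h1, one_mul]

private theorem LWt_exp_small : ∀ᶠ (g : ℕ) in Filter.atTop, Real.exp (-(g : ℝ)) ≤ 1 / 3 := by
  have h := ev_exp 1 (c := 1) (ε := 1 / 3) 0 1 (by norm_num) (by norm_num) (le_refl _)
  filter_upwards [h] with g hg
  simpa using hg

/-- TOTAL WEIGHT. PROOF: for B in BB, inner_ge with Φ = ind(size) (size_dep) and size_prob: the inner sum is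
>= (1 - exp(-g)) exp(-g^3/1000) >= (2/3) exp(-g^3/1000); BB_prob. -/
theorem total_wt : ∀ᶠ (g : ℕ) in Filter.atTop, ∀ D : Dat g, Geo D.S → D.Lab →
    ∀ (u : Pl g) (X : Finset (Un g)) (E : Env g), E.OK D u X →
    1 / 2 * Real.exp (-((g : ℝ) ^ 3 / 1000)) ≤ D.WT E u X (fun _ _ => True) := by
  filter_upwards [inner_ge, size_prob, BB_prob, beta_le, LWt_exp_small] with g h1 h2 h3 h4 h5
  intro D hG hL u X E hE
  have hexp : 0 < Real.exp (-((g : ℝ) ^ 3 / 1000)) := Real.exp_pos _
  have hinner : ∀ B, E.BB D u X B → 2 / 3 * Real.exp (-((g : ℝ) ^ 3 / 1000)) ≤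
      ∑ t, cw (D.Mu u X) (E.beta D B) t *
        ((ind True * ind ((real (D.trA u X t)).card = kk g)) *
          ∏ k, D.xi u (B k) (D.trA u X t)) := by
    intro B hB
    have hβ : ∀ y ∈ D.Mu u X, |E.beta D B y| ≤ 1 / 2 := fun y hy =>
      (h4 D u X E hE B hB y hy).trans (by norm_num)
    have e1 := h1 D hL u X E hE B hB.mem hB.inj (E.beta D B) hβ
      (fun t => ind True * ind ((real (D.trA u X t)).card = kk g))
      (fun t => mul_nonneg (LWt_ind_nonneg _) (LWt_ind_nonneg _)) (by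
        intro t t' htt
        rw [size_dep D u X t t' htt])
    refine le_trans ?_ e1
    have e2 := h2 D hG u X E hE B hB
    have e3 : ∑ t, cw (D.Mu u X) (E.beta D B) t *
        (ind True * ind ((real (D.trA u X t)).card = kk g)) =
        ∑ t, cw (D.Mu u X) (E.beta D B) t * ind ((real (D.trA u X t)).card = kk g) := by
      refine Finset.sum_congr rfl (fun t _ => ?_)
      rw [LWt_ind_of trivial, one_mul]
    rw [e3]
    calc 2 / 3 * Real.exp (-((g : ℝ) ^ 3 / 1000))
        ≤ (1 - Real.exp (-(g : ℝ))) * Real.exp (-((g : ℝ) ^ 3 / 1000)) :=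
          mul_le_mul_of_nonneg_right (by linarith) hexp.le
      _ ≤ _ := mul_le_mul_of_nonneg_left e2 (by linarith)
  have hBB := h3 D hG hL u X E hE
  calc 1 / 2 * Real.exp (-((g : ℝ) ^ 3 / 1000))
      = 3 / 4 * (2 / 3 * Real.exp (-((g : ℝ) ^ 3 / 1000))) := by ring
    _ ≤ (∑ B : Fin E.M → Pl g, E.slotWt B * ind (E.BB D u X B)) *
        (2 / 3 * Real.exp (-((g : ℝ) ^ 3 / 1000))) :=
        mul_le_mul_of_nonneg_right hBB (by positivity)
    _ = ∑ B : Fin E.M → Pl g, E.slotWt B * ind (E.BB D u X B) *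
        (2 / 3 * Real.exp (-((g : ℝ) ^ 3 / 1000))) := by rw [Finset.sum_mul]
    _ ≤ D.WT E u X (fun _ _ => True) := by
        unfold Dat.WT
        refine Finset.sum_le_sum (fun B _ => ?_)
        rw [LWt_inner_eq]
        by_cases hB : E.BB D u X B
        · exact mul_le_mul_of_nonneg_left (hinner B hB)
            (mul_nonneg (LWt_slotWt_nonneg E B) (LWt_ind_nonneg _))
        · rw [LWt_ind_of_not hB]
          simp

/-- the hash blocks of another slot in a zone -/
private theorem LWt_C_inter {D : Dat g} (hG : Geo D.S) (hg : 1 ≤ g) {u v w : Pl g} (huv : u ≠ v)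
    (huw : u ≠ w) (hvw : v ≠ w) (X : Finset (Un g)) :
    ((D.C u v ∩ (D.Z u w \ X)).card : ℝ) ≤ 60 * (g : ℝ) ^ 3 := by
  have h1 : D.C u v ∩ (D.Z u w \ X) ⊆ D.S u ∩ D.S v ∩ D.S w := by
    intro y hy
    rw [Finset.mem_inter, Finset.mem_sdiff] at hy
    have h2 := mem_Z_of_mem_C D hy.1
    have h3 := hy.2.1
    unfold Dat.Z at h2 h3
    rw [Finset.mem_inter] at h2 h3
    rw [Finset.mem_inter, Finset.mem_inter]
    exact ⟨h2, h3.2⟩
  have h2 : (D.C u v ∩ (D.Z u w \ X)).card ≤ 50 :=
    (Finset.card_le_card h1).trans (hG.g2 u v w huv huw hvw)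
  have h3 : ((D.C u v ∩ (D.Z u w \ X)).card : ℝ) ≤ 50 := by exact_mod_cast h2
  have h4 : (1 : ℝ) ≤ (g : ℝ) ^ 3 := one_le_pow₀ (by exact_mod_cast hg)
  linarith

/-- traces which agree on the zone of w if the twins agree outside the free blocks off the zone -/
private theorem LWt_tr_congr (D : Dat g) (u w : Pl g) (X : Finset (Un g)) {t t' : Un g → Bool}
    (h : ∀ y, y ∉ D.Bu u X \ (D.Z u w \ X) → t y = t' y) :
    ∀ y ∈ D.Z u w, D.trA u X t y = D.trA u X t' y := by
  intro y hy
  unfold Dat.trA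
  by_cases hX : y ∈ D.S u \ X
  · rw [if_pos hX, if_pos hX]
    congr 1
    apply h
    rw [Finset.mem_sdiff, not_and, not_not]
    intro _
    rw [Finset.mem_sdiff]
    exact ⟨hy, (Finset.mem_sdiff.mp hX).2⟩
  · rw [if_neg hX, if_neg hX]

/-- WEIGHT OF INVALID AT w, w NOT IN B. PROOF: for B in BB without w: inner_le with KK empty,
Y = Z u w minus X (C u (B k) cap Z u w is in S u cap S w cap S (B k), at most 50 units), Φ =
ind(cnt < hi) ind(size); drop ind(size), valid_out. sum of slotWt over all B is 1 (Bridge). -/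
theorem wt_out : ∀ᶠ (g : ℕ) in Filter.atTop, ∀ D : Dat g, Geo D.S → D.Lab →
    ∀ (u : Pl g) (X : Finset (Un g)) (E : Env g), E.OK D u X → ∀ w, w ≠ u →
    D.WT E u X (fun B t => (∀ k, B k ≠ w) ∧ (cnt (D.Q u w) (D.trA u X t) : ℤ) < D.hi u w) ≤
      2 * Real.exp (-((g : ℝ) ^ 6)) := by
  filter_upwards [inner_le, valid_out, beta_le, LWt_exp_small, Filter.eventually_ge_atTop 1]
    with g h1 h2 h4 h5 hg
  intro D hG hL u X E hE w hw
  have hexp : 0 < Real.exp (-((g : ℝ) ^ 6)) := Real.exp_pos _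
  refine LWt_le_of_inner hg hE _ (by positivity) (fun B hB => ?_)
  by_cases hBw : ∀ k, B k ≠ w
  · have hβ : ∀ y ∈ D.Mu u X, |E.beta D B y| ≤ 1 / 2 := fun y hy =>
      (h4 D u X E hE B hB y hy).trans (by norm_num)
    have hcw := cw_nonneg (D.Mu u X) (E.beta D B) hβ
    have e0 : ∀ t, ind ((∀ k, B k ≠ w) ∧ (cnt (D.Q u w) (D.trA u X t) : ℤ) < D.hi u w) =
        ind ((cnt (D.Q u w) (D.trA u X t) : ℤ) < D.hi u w) := by
      intro t
      congr 1
      exact propext ⟨fun h => h.2, fun h => ⟨hBw, h⟩⟩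
    have e1 := h1 D hL u X E hE B hB.mem hB.inj ∅ (D.Z u w \ X)
      (fun k _ => LWt_C_inter hG hg (hE.W_ne k _ (hB.mem k)).symm hw.symm (hBw k) X)
      (fun k hk => absurd hk (Finset.notMem_empty k)) (E.beta D B) hβ
      (fun t => ind ((cnt (D.Q u w) (D.trA u X t) : ℤ) < D.hi u w) *
        ind ((real (D.trA u X t)).card = kk g))
      (fun t => mul_nonneg (LWt_ind_nonneg _) (LWt_ind_nonneg _)) (by
        intro t t' htt
        rw [Dat.cnt_congr D (LWt_tr_congr D u w X htt), size_dep D u X t t' (fun y hy => htt y (fun h =>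
          hy (Finset.mem_sdiff.mp h).1))])
    have e2 := h2 D hG hL u X E hE B hB w hw hBw
    calc ∑ t, cw (D.Mu u X) (E.beta D B) t *
        ((ind ((∀ k, B k ≠ w) ∧ (cnt (D.Q u w) (D.trA u X t) : ℤ) < D.hi u w) *
          ind ((real (D.trA u X t)).card = kk g)) * ∏ k, D.xi u (B k) (D.trA u X t))
        = ∑ t, cw (D.Mu u X) (E.beta D B) t *
        ((ind ((cnt (D.Q u w) (D.trA u X t) : ℤ) < D.hi u w) *
          ind ((real (D.trA u X t)).card = kk g)) * ∏ k, D.xi u (B k) (D.trA u X t)) :=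
          Finset.sum_congr rfl (fun t _ => by rw [e0 t])
      _ ≤ _ := e1
      _ ≤ 2 * ∑ t, cw (D.Mu u X) (E.beta D B) t *
          ind ((cnt (D.Q u w) (D.trA u X t) : ℤ) < D.hi u w) := by
          refine mul_le_mul (by linarith) ?_ ?_ (by norm_num)
          · refine Finset.sum_le_sum (fun t _ => mul_le_mul_of_nonneg_left ?_ (hcw t))
            rw [Finset.prod_empty, mul_one]
            exact mul_le_of_le_one_right (LWt_ind_nonneg _) (LWt_ind_le_one _)
          · refine Finset.sum_nonneg (fun t _ => mul_nonneg (hcw t) ?_)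
            rw [Finset.prod_empty, mul_one]
            exact mul_nonneg (LWt_ind_nonneg _) (LWt_ind_nonneg _)
      _ ≤ 2 * Real.exp (-((g : ℝ) ^ 6)) := mul_le_mul_of_nonneg_left e2 (by norm_num)
  · have e0 : ∀ t, ind ((∀ k, B k ≠ w) ∧ (cnt (D.Q u w) (D.trA u X t) : ℤ) < D.hi u w) = 0 :=
      fun t => LWt_ind_of_not (fun h => hBw h.1)
    rw [Finset.sum_congr rfl (fun t _ => by rw [e0 t, zero_mul, zero_mul, mul_zero])]
    rw [Finset.sum_const_zero]
    positivity

/-- WEIGHT OF A VIOLATED WINDOW. PROOF: inner_le with KK = {k}, Y = Z u (B k) minus X, Φ = ind(not win)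
ind(size) (win depends only on the trace on Z u (B k): win_congr), xi <= h, valid_in. -/
theorem wt_in : ∀ᶠ (g : ℕ) in Filter.atTop, ∀ D : Dat g, Geo D.S → D.Lab →
    ∀ (u : Pl g) (X : Finset (Un g)) (E : Env g), E.OK D u X → ∀ k,
    D.WT E u X (fun B t => ¬ D.win u (B k) (D.trA u X t)) ≤
      2 * (hM g : ℝ) * Real.exp (-((g : ℝ) ^ 6)) := by
  filter_upwards [inner_le, valid_in, beta_le, LWt_exp_small, Filter.eventually_ge_atTop 1]
    with g h1 h2 h4 h5 hg
  intro D hG hL u X E hE k0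
  have hexp : 0 < Real.exp (-((g : ℝ) ^ 6)) := Real.exp_pos _
  refine LWt_le_of_inner hg hE _ (by positivity) (fun B hB => ?_)
  have hβ : ∀ y ∈ D.Mu u X, |E.beta D B y| ≤ 1 / 2 := fun y hy =>
    (h4 D u X E hE B hB y hy).trans (by norm_num)
  have hcw := cw_nonneg (D.Mu u X) (E.beta D B) hβ
  have hne : ∀ k, u ≠ B k := fun k => (hE.W_ne k _ (hB.mem k)).symm
  have e1 := h1 D hL u X E hE B hB.mem hB.inj {k0} (D.Z u (B k0) \ X)
    (fun k hk => LWt_C_inter hG hg (hne k) (hne k0) (fun h => hk (by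
      rw [Finset.mem_singleton]
      exact hB.inj h)) X)
    (fun k hk => by
      rw [Finset.mem_singleton] at hk
      subst hk
      intro y hy
      rw [Finset.mem_union, Finset.mem_sdiff]
      by_cases hX : y ∈ X
      · exact Or.inr hX
      · exact Or.inl ⟨hy, hX⟩) (E.beta D B) hβ
    (fun t => ind (¬ D.win u (B k0) (D.trA u X t)) * ind ((real (D.trA u X t)).card = kk g))
    (fun t => mul_nonneg (LWt_ind_nonneg _) (LWt_ind_nonneg _)) (by
      intro t t' htt
      have e3 : (¬ D.win u (B k0) (D.trA u X t)) = (¬ D.win u (B k0) (D.trA u X t')) := by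
        rw [propext (Dat.win_congr D (LWt_tr_congr D u (B k0) X htt))]
      rw [e3, size_dep D u X t t' (fun y hy => htt y (fun h => hy (Finset.mem_sdiff.mp h).1))])
  have e2 := h2 D hG hL u X E hE B hB k0
  refine e1.trans ?_
  have hh : (0 : ℝ) ≤ (hM g : ℝ) := Nat.cast_nonneg _
  calc (1 + Real.exp (-(g : ℝ))) * ∑ t, cw (D.Mu u X) (E.beta D B) t *
        ((ind (¬ D.win u (B k0) (D.trA u X t)) * ind ((real (D.trA u X t)).card = kk g)) *
          ∏ k ∈ {k0}, D.xi u (B k) (D.trA u X t))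
      ≤ 2 * ∑ t, cw (D.Mu u X) (E.beta D B) t *
          (ind (¬ D.win u (B k0) (D.trA u X t)) * (hM g : ℝ)) := by
        refine mul_le_mul (by linarith) ?_ ?_ (by norm_num)
        · refine Finset.sum_le_sum (fun t _ => mul_le_mul_of_nonneg_left ?_ (hcw t))
          rw [Finset.prod_singleton]
          refine mul_le_mul ?_ (LWt_xi_le D u _ _) (LWt_xi_nonneg D u _ _) (LWt_ind_nonneg _)
          exact mul_le_of_le_one_right (LWt_ind_nonneg _) (LWt_ind_le_one _)
        · refine Finset.sum_nonneg (fun t _ => mul_nonneg (hcw t) ?_)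
          exact mul_nonneg (mul_nonneg (LWt_ind_nonneg _) (LWt_ind_nonneg _))
            (Finset.prod_nonneg (fun k _ => LWt_xi_nonneg D u _ _))
    _ = 2 * (hM g : ℝ) * ∑ t, cw (D.Mu u X) (E.beta D B) t *
          ind (¬ D.win u (B k0) (D.trA u X t)) := by
        rw [mul_assoc, Finset.mul_sum (a := (hM g : ℝ))]
        congr 1
        refine Finset.sum_congr rfl (fun t _ => ?_)
        ring
    _ ≤ 2 * (hM g : ℝ) * Real.exp (-((g : ℝ) ^ 6)) :=
        mul_le_mul_of_nonneg_left e2 (by positivity)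

end Pool.Larman
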