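import Pool.Agent.Larman.LInd
import Pool.Agent.Larman.LWt

/-!
# MP_a9ba8c (Larman, t = 1): T5, a member of the family outside all classes
-/

set_option autoImplicit false

open scoped BigOperators Classical

namespace Pool.Larman

/-- the random trace is a member of u if all windows and all outer lower bounds are respected -/
private theorem T5_mem {g : ℕ} {D : Dat g} {u : Pl g} {X : Finset (Un g)} {E : Env g}
    (hE : E.OK D u X) {B : Fin E.M → Pl g} {t : Un g → Bool} (hB : E.BB D u X B)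
    (hsize : (real (D.trA u X t)).card = kk g)
    (hcong : ∀ k, D.cong u (B k) (D.trA u X t))
    (hout : ∀ w, w ≠ u → (∀ k, B k ≠ w) → ¬ ((cnt (D.Q u w) (D.trA u X t) : ℤ) < D.hi u w))
    (hwin : ∀ k, D.win u (B k) (D.trA u X t)) : D.trA u X t ∈ D.Fam u := by
  refine ⟨?_, hsize, ?_⟩
  · intro y hy
    unfold Dat.trA
    rw [if_neg]
    intro hy'
    exact hy (Finset.mem_sdiff.1 hy').1
  · intro v hv
    by_cases hBv : ∀ k, B k ≠ v
    · exact (D.need_le_hi u v _).trans (not_lt.1 (hout v hv hBv))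
    · push Not at hBv
      obtain ⟨k, hk⟩ := hBv
      subst hk
      have hprop : ∀ y ∈ D.C u (B k), D.trA u X t y ≠ none := by
        intro y hy
        have h1 := D.C_sub u (B k) hy
        have h2 : y ∉ X := Finset.disjoint_left.1 (hE.W_C k (B k) (hB.mem k)) hy
        unfold Dat.trA
        rw [if_pos (Finset.mem_sdiff.2 ⟨(Finset.mem_inter.1 h1).1, h2⟩)]
        exact Option.some_ne_none _
      have htight : D.Tight u (B k) (D.trA u X t) :=
        (D.tight_iff hv.symm hprop).2 ⟨hcong k, hwin k⟩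
      exact (D.need_of_tight htight).le

private theorem T5_num : ∀ᶠ (g : ℕ) in Filter.atTop,
    (4 * (g : ℝ) ^ 2000) * (4 * Real.exp (-((g : ℝ) ^ 3 / 125))) +
      (g : ℝ) ^ 12000 * (2 * Real.exp (-((g : ℝ) ^ 6))) +
      (2 * (g : ℝ) ^ 1033) * (2 * ((g : ℝ) ^ 52 + 1) * Real.exp (-((g : ℝ) ^ 6))) <
    1 / 2 * Real.exp (-((g : ℝ) ^ 3 / 1000)) := by
  have h1 := ev_exp 16 (c := 7 / 1000) (ε := 1 / 10) 2000 3 (by norm_num) (by norm_num)
    (by norm_num)
  have h2 := ev_exp 10 (c := 1 / 2) (ε := 1 / 10) 12000 6 (by norm_num) (by norm_num)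
    (by norm_num)
  filter_upwards [h1, h2, Filter.eventually_ge_atTop 1] with g h1 h2 hg
  have hg1 : (1 : ℝ) ≤ g := by exact_mod_cast hg
  have hE : 0 < Real.exp (-((g : ℝ) ^ 3 / 1000)) := Real.exp_pos _
  have e1 : Real.exp (-((g : ℝ) ^ 3 / 125)) =
      Real.exp (-(7 / 1000 * (g : ℝ) ^ 3)) * Real.exp (-((g : ℝ) ^ 3 / 1000)) := by
    rw [← Real.exp_add]
    congr 1
    ring
  have h36 : (g : ℝ) ^ 3 ≤ (g : ℝ) ^ 6 := pow_le_pow_right₀ hg1 (by norm_num)
  have e2 : Real.exp (-((g : ℝ) ^ 6)) ≤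
      Real.exp (-(1 / 2 * (g : ℝ) ^ 6)) * Real.exp (-((g : ℝ) ^ 3 / 1000)) := by
    rw [← Real.exp_add]
    apply Real.exp_le_exp.2
    have h3 : (0 : ℝ) ≤ (g : ℝ) ^ 3 := by positivity
    linarith
  have hp52 : (1 : ℝ) ≤ (g : ℝ) ^ 52 := one_le_pow₀ hg1
  have hp : (2 * (g : ℝ) ^ 1033) * (2 * ((g : ℝ) ^ 52 + 1)) ≤ 8 * (g : ℝ) ^ 12000 := by
    have h3 : (g : ℝ) ^ 1033 * (g : ℝ) ^ 52 ≤ (g : ℝ) ^ 12000 := by
      rw [← pow_add]
      exact pow_le_pow_right₀ hg1 (by norm_num)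
    have h4 : (g : ℝ) ^ 1033 ≤ (g : ℝ) ^ 12000 := pow_le_pow_right₀ hg1 (by norm_num)
    nlinarith
  have a1 : (4 * (g : ℝ) ^ 2000) * (4 * Real.exp (-((g : ℝ) ^ 3 / 125))) ≤
      1 / 10 * Real.exp (-((g : ℝ) ^ 3 / 1000)) := by
    rw [e1]
    calc (4 * (g : ℝ) ^ 2000) * (4 * (Real.exp (-(7 / 1000 * (g : ℝ) ^ 3)) *
          Real.exp (-((g : ℝ) ^ 3 / 1000))))
        = (16 * (g : ℝ) ^ 2000 * Real.exp (-(7 / 1000 * (g : ℝ) ^ 3))) *
          Real.exp (-((g : ℝ) ^ 3 / 1000)) := by ring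
      _ ≤ _ := mul_le_mul_of_nonneg_right h1 hE.le
  have a2 : (g : ℝ) ^ 12000 * (2 * Real.exp (-((g : ℝ) ^ 6))) +
      (2 * (g : ℝ) ^ 1033) * (2 * ((g : ℝ) ^ 52 + 1) * Real.exp (-((g : ℝ) ^ 6))) ≤
      1 / 10 * Real.exp (-((g : ℝ) ^ 3 / 1000)) := by
    have hE6 : 0 < Real.exp (-((g : ℝ) ^ 6)) := Real.exp_pos _
    calc (g : ℝ) ^ 12000 * (2 * Real.exp (-((g : ℝ) ^ 6))) +
          (2 * (g : ℝ) ^ 1033) * (2 * ((g : ℝ) ^ 52 + 1) * Real.exp (-((g : ℝ) ^ 6)))
        = (2 * (g : ℝ) ^ 12000 + (2 * (g : ℝ) ^ 1033) * (2 * ((g : ℝ) ^ 52 + 1))) *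
          Real.exp (-((g : ℝ) ^ 6)) := by ring
      _ ≤ (10 * (g : ℝ) ^ 12000) * Real.exp (-((g : ℝ) ^ 6)) :=
          mul_le_mul_of_nonneg_right (by linarith) hE6.le
      _ ≤ (10 * (g : ℝ) ^ 12000) * (Real.exp (-(1 / 2 * (g : ℝ) ^ 6)) *
          Real.exp (-((g : ℝ) ^ 3 / 1000))) :=
          mul_le_mul_of_nonneg_left e2 (by positivity)
      _ = (10 * (g : ℝ) ^ 12000 * Real.exp (-(1 / 2 * (g : ℝ) ^ 6))) *
          Real.exp (-((g : ℝ) ^ 3 / 1000)) := by ring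
      _ ≤ _ := mul_le_mul_of_nonneg_right h2 hE.le
  linarith

/-- T5. PROOF. Suppose not. Index set of bad events: classes i : Fin (nC g) (event EvC D u X (G i)),
players w <> u (event: w not in B and cnt < hi), slots k (event: not win). Let B in BB, t of the right
size, all congruences true, and no bad event of the last two types. Then f = trA t is in Fam u: f is none
outside S u; size kk; for v <> u: if v is not in B, need <= hi <= cnt; if v = B k: C u v is disjoint from X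
and contained in S u, so f is proper on C u v, hence Tight (tight_iff: congruence and window) and
need = cnt (need_of_tight). By assumption real f is in some G i, so EvC holds for i. WT_union:
(1/2) exp(-g^3/1000) <= nC * 4 exp(-g^3/125) + mP * 2 exp(-g^6) + M * 2 h exp(-g^6) (total_wt,
class_bound, wt_out, wt_in), false for large g. -/
theorem T5 : ∀ᶠ (g : ℕ) in Filter.atTop, ∀ D : Dat g, Geo D.S → D.Lab →
    ∀ (u : Pl g) (X : Finset (Un g)) (E : Env g), E.OK D u X →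
    ∀ G : Fin (nC g) → Finset (Finset (Pt g)), (∀ i, E.ClassOK D u X (G i)) →
    ∃ f ∈ D.Fam u, ∀ i, real f ∉ G i := by
  filter_upwards [total_wt, class_bound, wt_out, wt_in, beta_le, T5_num] with
    g htot hcls hout hin hbeta hnum
  intro D hG hL u X E hE G hcl
  by_contra hcon
  push Not at hcon
  have hβ : ∀ B, E.BB D u X B → ∀ y ∈ D.Mu u X, |E.beta D B y| ≤ 1 / 2 := by
    intro B hB y hy
    exact (hbeta D u X E hE B hB y hy).trans (by norm_num)
  let Ev : Fin (nC g) ⊕ (Pl g ⊕ Fin E.M) → (Fin E.M → Pl g) → (Un g → Bool) → Prop :=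
    fun i B t => match i with
      | Sum.inl i => E.EvC D u X (G i) B t
      | Sum.inr (Sum.inl w) => (∀ k, B k ≠ w) ∧
          (cnt (D.Q u w) (D.trA u X t) : ℤ) < D.hi u w
      | Sum.inr (Sum.inr k) => ¬ D.win u (B k) (D.trA u X t)
  let s : Finset (Fin (nC g) ⊕ (Pl g ⊕ Fin E.M)) :=
    Finset.univ.disjSum ((Finset.univ.filter (fun w => w ≠ u)).disjSum Finset.univ)
  have hunion := WT_union hβ s Ev (by
    intro B t hB hsize hcong
    by_cases h1 : ∀ w, w ≠ u → (∀ k, B k ≠ w) →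
        ¬ ((cnt (D.Q u w) (D.trA u X t) : ℤ) < D.hi u w)
    · by_cases h2 : ∀ k, D.win u (B k) (D.trA u X t)
      · have hf := T5_mem hE hB hsize hcong h1 h2
        obtain ⟨i, hi⟩ := hcon _ hf
        refine ⟨Sum.inl i, ?_, hf, hi, h2⟩
        exact Finset.inl_mem_disjSum.2 (Finset.mem_univ _)
      · push Not at h2
        obtain ⟨k, hk⟩ := h2
        refine ⟨Sum.inr (Sum.inr k), ?_, hk⟩
        exact Finset.inr_mem_disjSum.2 (Finset.inr_mem_disjSum.2 (Finset.mem_univ _))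
    · push Not at h1
      obtain ⟨w, hw, hwB, hlt⟩ := h1
      refine ⟨Sum.inr (Sum.inl w), ?_, hwB, hlt⟩
      exact Finset.inr_mem_disjSum.2 (Finset.inl_mem_disjSum.2
        (Finset.mem_filter.2 ⟨Finset.mem_univ _, hw⟩)))
  have hlow := htot D hG hL u X E hE
  have hsum : ∑ i ∈ s, D.WT E u X (Ev i) ≤
      (4 * (g : ℝ) ^ 2000) * (4 * Real.exp (-((g : ℝ) ^ 3 / 125))) +
      (g : ℝ) ^ 12000 * (2 * Real.exp (-((g : ℝ) ^ 6))) +
      (2 * (g : ℝ) ^ 1033) * (2 * ((g : ℝ) ^ 52 + 1) * Real.exp (-((g : ℝ) ^ 6))) := by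
    rw [Finset.sum_disjSum, Finset.sum_disjSum, ← add_assoc]
    have b1 : ∑ i : Fin (nC g), D.WT E u X (Ev (Sum.inl i)) ≤
        (4 * (g : ℝ) ^ 2000) * (4 * Real.exp (-((g : ℝ) ^ 3 / 125))) := by
      have h1 : ∑ i : Fin (nC g), D.WT E u X (Ev (Sum.inl i)) ≤
          ∑ _i : Fin (nC g), 4 * Real.exp (-((g : ℝ) ^ 3 / 125)) :=
        Finset.sum_le_sum (fun i _ => hcls D hG hL u X E hE (G i) (hcl i))
      rw [Finset.sum_const, nsmul_eq_mul, Finset.card_univ, Fintype.card_fin, nC_cast] at h1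
      exact h1
    have b2 : ∑ w ∈ Finset.univ.filter (fun w => w ≠ u), D.WT E u X (Ev (Sum.inr (Sum.inl w))) ≤
        (g : ℝ) ^ 12000 * (2 * Real.exp (-((g : ℝ) ^ 6))) := by
      have h1 : ∑ w ∈ Finset.univ.filter (fun w => w ≠ u),
          D.WT E u X (Ev (Sum.inr (Sum.inl w))) ≤
          ∑ _w ∈ Finset.univ.filter (fun w : Pl g => w ≠ u), 2 * Real.exp (-((g : ℝ) ^ 6)) :=
        Finset.sum_le_sum (fun w hw => hout D hG hL u X E hE w (Finset.mem_filter.1 hw).2)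
      rw [Finset.sum_const, nsmul_eq_mul] at h1
      have h2 : (Finset.univ.filter (fun w : Pl g => w ≠ u)).card ≤ mP g := by
        refine (Finset.card_le_univ _).trans ?_
        rw [Fintype.card_fin]
      have h3 : ((Finset.univ.filter (fun w : Pl g => w ≠ u)).card : ℝ) ≤ (mP g : ℝ) := by
        exact_mod_cast h2
      rw [mP_cast] at h3
      have h4 : 0 ≤ 2 * Real.exp (-((g : ℝ) ^ 6)) := mul_nonneg (by norm_num) (Real.exp_pos _).le
      exact h1.trans (mul_le_mul_of_nonneg_right h3 h4)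
    have b3 : ∑ k : Fin E.M, D.WT E u X (Ev (Sum.inr (Sum.inr k))) ≤
        (2 * (g : ℝ) ^ 1033) * (2 * ((g : ℝ) ^ 52 + 1) * Real.exp (-((g : ℝ) ^ 6))) := by
      have h1 : ∑ k : Fin E.M, D.WT E u X (Ev (Sum.inr (Sum.inr k))) ≤
          ∑ _k : Fin E.M, 2 * (hM g : ℝ) * Real.exp (-((g : ℝ) ^ 6)) :=
        Finset.sum_le_sum (fun k _ => hin D hG hL u X E hE k)
      rw [Finset.sum_const, nsmul_eq_mul, Finset.card_univ, Fintype.card_fin, hM_cast] at h1
      have h5 : (0 : ℝ) ≤ (g : ℝ) ^ 52 := pow_nonneg (Nat.cast_nonneg g) 52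
      have h4 : 0 ≤ 2 * ((g : ℝ) ^ 52 + 1) * Real.exp (-((g : ℝ) ^ 6)) :=
        mul_nonneg (by linarith) (Real.exp_pos _).le
      exact h1.trans (mul_le_mul_of_nonneg_right hE.M_le h4)
    linarith
  linarith

end Pool.Larman
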