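import Pool.Agent.Larman.T1
import Pool.Agent.Larman.T2
import Pool.Agent.Larman.T3
import Pool.Agent.Larman.T4
import Pool.Agent.Larman.T5
import Pool.Agent.Larman.Points

/-!
# MP_a9ba8c (Larman, t = 1): final assembly
-/

set_option autoImplicit false

open scoped BigOperators Classical

namespace Pool.Larman

/-- the negation of Larman's statement for t = 1 -/
theorem not_larman :
    ¬ (∀ (n k : ℕ) (F : Finset (Finset (Fin n))),
      (∀ A ∈ F, A.card = k) →
      (∀ A ∈ F, ∀ B ∈ F, (A ∩ B).Nonempty) →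
      ∃ G : Fin n → Finset (Finset (Fin n)),
        (∀ i, G i ⊆ F) ∧
        (∀ i, ∀ A ∈ G i, ∀ B ∈ G i, A ≠ B → 2 ≤ (A ∩ B).card) ∧
        (∀ A ∈ F, ∃ i, A ∈ G i)) := by
  intro h
  obtain ⟨g, h1, h2, h3, h4, h5, hg⟩ := (T1.and (T2.and (T3.and (T4.and (T5.and
    (Filter.eventually_gt_atTop 0)))))).exists
  obtain ⟨σ, hσ⟩ := h1
  obtain ⟨D, hD, hL⟩ := h2 σ hσ
  have hG : Geo D.S := by
    have : D.S = fun u => supp (σ u) := by
      funext u
      unfold Dat.S
      rw [hD]
    rw [this]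
    exact hσ
  let e : Pt g ≃ Fin (nC g) := Fintype.equivFinOfCardEq (card_Pt g)
  let F : Finset (Finset (Fin (nC g))) := D.FF.image (fun A => A.map e.toEmbedding)
  obtain ⟨G', hsub, htwo, hcov⟩ := h (nC g) (kk g) F
    (by
      intro A hA
      obtain ⟨A', hA', rfl⟩ := Finset.mem_image.1 hA
      rw [Finset.card_map]
      exact FF_card D A' hA')
    (by
      intro A hA B hB
      obtain ⟨A', hA', rfl⟩ := Finset.mem_image.1 hA
      obtain ⟨B', hB', rfl⟩ := Finset.mem_image.1 hB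
      rw [← Finset.map_inter]
      exact (FF_inter hg D A' B' hA' hB').map)
  let G : Fin (nC g) → Finset (Finset (Pt g)) := fun i =>
    Finset.univ.filter (fun A => A.map e.toEmbedding ∈ G' i)
  have hGt : ∀ i, TwoInt (G i) := by
    intro i A hA B hB hAB
    have hA' : A.map e.toEmbedding ∈ G' i := (Finset.mem_filter.1 hA).2
    have hB' : B.map e.toEmbedding ∈ G' i := (Finset.mem_filter.1 hB).2
    have := htwo i _ hA' _ hB' (fun h => hAB (Finset.map_injective _ h))
    rw [← Finset.map_inter, Finset.card_map] at this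
    exact this
  obtain ⟨u, X, W, hsel⟩ := h3 D hG hL G hGt
  obtain ⟨E, hE, hC⟩ := h4 D hG hL G u X W hsel
  obtain ⟨f, hf, hno⟩ := h5 D hG hL u X E hE G hC
  have hfF : real f ∈ D.FF := by
    unfold Dat.FF
    exact Finset.mem_filter.2 ⟨Finset.mem_univ _, u, f, hf, rfl⟩
  obtain ⟨i, hi⟩ := hcov _ (Finset.mem_image_of_mem _ hfF)
  exact hno i (Finset.mem_filter.2 ⟨Finset.mem_univ _, hi⟩)

end Pool.Larman
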