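import Pool.Agent.Larman.Range

set_option autoImplicit false

namespace Pool.Agent.Larman

open Finset

variable {n : ℕ}

/-- weights on classes from weights on pairs -/
theorem frac_of_pairs {F P : Finset (Finset (Fin n))} (v : ℚ) (hv : 0 ≤ v)
    (hP : ∀ p ∈ P, 2 ≤ p.card)
    (hcov : ∀ A ∈ F, 1 ≤ ((P.filter (fun p => p ⊆ A)).card : ℚ) * v)
    (htot : (P.card : ℚ) * v ≤ n) :
    ∃ w : Finset (Finset (Fin n)) → ℚ,
      (∀ G, 0 ≤ w G) ∧
      (∀ G, w G ≠ 0 → G ⊆ F ∧ ∀ A ∈ G, ∀ B ∈ G, A ≠ B → 2 ≤ (A ∩ B).card) ∧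
      (∀ A ∈ F, 1 ≤ ∑ G with A ∈ G, w G) ∧
      ∑ G, w G ≤ n := by
  classical
  let cl : Finset (Fin n) → Finset (Finset (Fin n)) := fun p => F.filter (fun A => p ⊆ A)
  refine ⟨fun G => ∑ p ∈ P, if cl p = G then v else 0, ?_, ?_, ?_, ?_⟩
  · intro G
    apply sum_nonneg
    intro p _
    split_ifs
    · exact hv
    · exact le_rfl
  · intro G hG
    obtain ⟨p, hp, hpG⟩ := exists_ne_zero_of_sum_ne_zero hG
    have hcl : cl p = G := by
      by_contra h
      simp [h] at hpG
    subst hcl
    exact ⟨filter_subset _ _, fun A hA B hB _ => two_int_of_pair (hP p hp) A B hA hB⟩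
  · intro A hA
    rw [sum_comm]
    have h1 : ∀ p ∈ P, (∑ G with A ∈ G, if cl p = G then v else 0) =
        if p ⊆ A then v else 0 := by
      intro p _
      rw [sum_ite_eq]
      by_cases hpA : p ⊆ A
      · have : A ∈ cl p := mem_filter.2 ⟨hA, hpA⟩
        simp [hpA, this]
      · have : A ∉ cl p := fun h => hpA (mem_filter.1 h).2
        simp [hpA, this]
    rw [sum_congr rfl h1, ← sum_filter, sum_const, nsmul_eq_mul]
    exact hcov A hA
  · rw [sum_comm]
    have h1 : ∀ p ∈ P, (∑ G, if cl p = G then v else 0) = v := by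
      intro p _
      rw [sum_ite_eq]
      simp
    rw [sum_congr rfl h1, sum_const, nsmul_eq_mul]
    exact htot

theorem frac_of_pairCover {F P : Finset (Finset (Fin n))} (h : PairCover F P)
    (hP : P.card ≤ n) :
    ∃ w : Finset (Finset (Fin n)) → ℚ,
      (∀ G, 0 ≤ w G) ∧
      (∀ G, w G ≠ 0 → G ⊆ F ∧ ∀ A ∈ G, ∀ B ∈ G, A ≠ B → 2 ≤ (A ∩ B).card) ∧
      (∀ A ∈ F, 1 ≤ ∑ G with A ∈ G, w G) ∧
      ∑ G, w G ≤ n := by
  classical
  refine frac_of_pairs 1 (by norm_num) h.1 ?_ (by simpa using hP)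
  intro A hA
  obtain ⟨p, hp, hpA⟩ := h.2 A hA
  have : 0 < (P.filter (fun p => p ⊆ A)).card := card_pos.2 ⟨p, mem_filter.2 ⟨hp, hpA⟩⟩
  rw [mul_one]
  exact_mod_cast this

theorem fractional (n k : ℕ) (F : Finset (Finset (Fin n)))
    (hk : ∀ A ∈ F, A.card = k)
    (hF : ∀ A ∈ F, ∀ B ∈ F, (A ∩ B).Nonempty) :
    ∃ w : Finset (Finset (Fin n)) → ℚ,
      (∀ G, 0 ≤ w G) ∧
      (∀ G, w G ≠ 0 → G ⊆ F ∧ ∀ A ∈ G, ∀ B ∈ G, A ≠ B → 2 ≤ (A ∩ B).card) ∧
      (∀ A ∈ F, 1 ≤ ∑ G with A ∈ G, w G) ∧
      ∑ G, w G ≤ n := by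
  classical
  rcases F.eq_empty_or_nonempty with rfl | ⟨A0, hA0⟩
  · exact ⟨fun _ => 0, fun _ => le_rfl, fun _ h => absurd rfl h, by simp, by simp⟩
  have hn : 1 ≤ n := by
    obtain ⟨x, _⟩ := hF A0 hA0 A0 hA0
    have := x.pos
    omega
  by_cases h2k : 2 ≤ k
  · rcases star_or F with ⟨c, hc⟩ | hns
    · obtain ⟨P, hP, hPc⟩ := pairCover_star (fun A hA => (hk A hA).symm ▸ h2k) c hc
      exact frac_of_pairCover hP (by omega)
    · by_cases hnk : k * (k - 1) + 1 ≤ n
      · obtain ⟨P, hP, hPc⟩ := pairCover_hits hk hF hns (T := A0) (fun C hC => hF C hC A0 hA0)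
        rw [hk A0 hA0] at hPc
        exact frac_of_pairCover hP (hPc.trans hnk)
      · have hpos : (0 : ℚ) < (k.choose 2 : ℚ) := by
          exact_mod_cast Nat.choose_pos h2k
        refine frac_of_pairs (P := powersetCard 2 univ) (1 / (k.choose 2 : ℚ))
          (by positivity) ?_ ?_ ?_
        · intro p hp
          rw [(mem_powersetCard.1 hp).2]
        · intro A hA
          have h1 : (powersetCard 2 (univ : Finset (Fin n))).filter (fun p => p ⊆ A) =
              powersetCard 2 A := by
            ext p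
            simp only [mem_filter, mem_powersetCard, subset_univ, true_and]
            exact and_comm
          rw [h1, card_powersetCard, hk A hA, mul_one_div, div_self hpos.ne']
        · rw [card_powersetCard, card_univ, Fintype.card_fin, mul_one_div,
            div_le_iff₀ hpos]
          have h1 : n.choose 2 ≤ n * k.choose 2 := by
            rw [Nat.choose_two_right, Nat.choose_two_right]
            have h2 : n - 1 ≤ k * (k - 1) := by omega
            have h3 : 2 ∣ k * (k - 1) := by
              have := Nat.even_mul_pred_self k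
              exact this.two_dvd
            obtain ⟨c, hc⟩ := h3
            rw [hc] at h2 ⊢
            rw [Nat.mul_div_cancel_left _ (by norm_num : 0 < 2)]
            calc n * (n - 1) / 2 ≤ n * (2 * c) / 2 := Nat.div_le_div_right
                  (Nat.mul_le_mul_left n h2)
              _ = n * c := by
                  rw [show n * (2 * c) = 2 * (n * c) by ring]
                  exact Nat.mul_div_cancel_left _ (by norm_num)
          exact_mod_cast h1
  · have heq := cover_small (by omega) hk hF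
    have hF1 : F = {A0} := by
      ext A
      rw [mem_singleton]
      exact ⟨fun hA => heq A hA A0 hA0, fun h => h ▸ hA0⟩
    refine ⟨fun G => if G = F then 1 else 0, ?_, ?_, ?_, ?_⟩
    · intro G
      show (0 : ℚ) ≤ if G = F then 1 else 0
      split_ifs <;> norm_num
    · intro G hG
      have : G = F := by
        by_contra h
        simp [h] at hG
      subst this
      exact ⟨Subset.refl _, fun A hA B hB hAB => absurd (heq A hA B hB) hAB⟩
    · intro A hA
      rw [sum_ite_eq']
      simp [hA]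
    · rw [sum_ite_eq']
      simp only [mem_univ, if_true]
      exact_mod_cast hn

end Pool.Agent.Larman
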