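import Pool.Agent.Larman.Props

/-!
# MP_a9ba8c (Larman, t = 1): number of classes, selection data (output of the pair lemma and the levels)
-/

set_option autoImplicit false

open scoped BigOperators Classical

noncomputable section

namespace Pool.Larman

/-- number of points = number of classes -/
@[irreducible] def nC (g : ℕ) : ℕ := 4 * (sN g * pN g)

theorem nC_cast (g : ℕ) : (nC g : ℝ) = 4 * (g : ℝ) ^ 2000 := by
  unfold nC
  push_cast
  rw [sN_cast, pN_cast, ← pow_add]

theorem card_Pt (g : ℕ) : Fintype.card (Pt g) = nC g := by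
  unfold nC
  simp [Fintype.card_prod, Fintype.card_fin]

/-- selection data: a player u, its cover X, and for every class i a large set W i of players such that
every admissible pattern of u over X has many killers in W i; few of the W i are small -/
structure Sel {g : ℕ} (D : Dat g) (G : Fin (nC g) → Finset (Finset (Pt g))) (u : Pl g)
    (X : Finset (Un g)) (W : Fin (nC g) → Finset (Pl g)) : Prop where
  XS : X ⊆ D.S u
  Xcard : (X.card : ℝ) ≤ 3 * (g : ℝ) ^ 101
  Xq : ∀ w, w ≠ u → (g : ℝ) ^ 2 * D.qX u w X ≤ ((D.Q u w).card : ℝ)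
  Wbig : ∀ i, (g : ℝ) ^ 9999 ≤ ((W i).card : ℝ)
  Wk : ∀ i s, D.PatOK u s → Over X s →
    ((W i).card : ℝ) ≤ (g : ℝ) ^ 6 * ((D.K (G i) u s ∩ W i).card : ℝ)
  few : num (fun i => ((W i).card : ℝ) < (g : ℝ) ^ 10976) ≤ (g : ℝ) ^ 977

end Pool.Larman
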