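import Pool.Agent.Larman.PairInst
import Pool.Agent.Larman.Sel

/-!
# MP_a9ba8c (Larman, t = 1): levels and the good player (T3) (helper1)
-/

set_option autoImplicit false

open scoped BigOperators Classical

noncomputable section

namespace Pool.Larman

section levels

variable {V : Type} [Fintype V]

/-- iterated level sets -/
def lev (step : Finset V → Finset V) (l : ℕ) : Finset V := step^[l] Finset.univ

theorem lev_succ (step : Finset V → Finset V) (l : ℕ) : lev step (l + 1) = step (lev step l) := by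
  unfold lev; rw [Function.iterate_succ_apply']

theorem lev_anti (step : Finset V → Finset V) (h : ∀ W, step W ⊆ W) {a b : ℕ} (hab : a ≤ b) :
    lev step b ⊆ lev step a := by
  induction b, hab using Nat.le_induction with
  | base => exact subset_rfl
  | succ b _ ih => rw [lev_succ]; exact (h _).trans ih

theorem lev_card (step : Finset V → Finset V) (q : ℝ) (hq : 0 ≤ q)
    (h : ∀ W, q * ((step W).card : ℝ) ≤ (W.card : ℝ)) (l : ℕ) :
    q ^ l * ((lev step l).card : ℝ) ≤ (Fintype.card V : ℝ) := by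
  induction l with
  | zero => simp [lev]
  | succ l ih =>
    rw [lev_succ]
    calc q ^ (l + 1) * ((step (lev step l)).card : ℝ)
        = q ^ l * (q * ((step (lev step l)).card : ℝ)) := by ring
      _ ≤ q ^ l * ((lev step l).card : ℝ) := mul_le_mul_of_nonneg_left (h _) (by positivity)
      _ ≤ _ := ih

/-- **Abstract choice of the good player.** -/
theorem exists_good {ι : Type} [Fintype ι] (step : ι → Finset V → Finset V) (L : ℕ)
    (thr ρ D' bad3 : ℝ) (Bad3 : Finset V) (hB3 : (Bad3.card : ℝ) ≤ bad3) (hD' : 0 < D')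
    (hsub : ∀ i W, step i W ⊆ W)
    (hlast : ∀ i, ((lev (step i) L).card : ℝ) < thr)
    (hρ : 0 ≤ ρ)
    (hcount : (Fintype.card ι : ℝ) * thr + (Fintype.card ι : ℝ) * L * ρ / D' + bad3 <
      (Fintype.card V : ℝ)) :
    ∃ u : V, u ∉ Bad3 ∧ ∃ l : ι → ℕ, (∀ i, l i < L) ∧ (∀ i, u ∈ lev (step i) (l i)) ∧
      (∀ i, u ∉ lev (step i) (l i + 1)) ∧ (∀ i, thr ≤ ((lev (step i) (l i)).card : ℝ)) ∧
      (((Finset.univ : Finset ι).filter
        (fun i => ((lev (step i) (l i)).card : ℝ) < ρ)).card : ℝ) ≤ D' := by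
  -- first small level
  have hex : ∀ i, ∃ l, ((lev (step i) l).card : ℝ) < thr := fun i => ⟨L, hlast i⟩
  let l0 : ι → ℕ := fun i => Nat.find (hex i)
  have hl0 : ∀ i, ((lev (step i) (l0 i)).card : ℝ) < thr := fun i => Nat.find_spec (hex i)
  have hl0' : ∀ i l, ((lev (step i) l).card : ℝ) < thr → l0 i ≤ l :=
    fun i l h => Nat.find_min' (hex i) h
  let Bad1 : Finset V := Finset.univ.biUnion (fun i : ι => lev (step i) (l0 i))
  have hBad1 : (Bad1.card : ℝ) ≤ (Fintype.card ι : ℝ) * thr := by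
    have h1 : Bad1.card ≤ ∑ i : ι, (lev (step i) (l0 i)).card := Finset.card_biUnion_le
    have h2 : (Bad1.card : ℝ) ≤ ∑ i : ι, ((lev (step i) (l0 i)).card : ℝ) := by
      exact_mod_cast h1
    refine h2.trans ?_
    calc ∑ i : ι, ((lev (step i) (l0 i)).card : ℝ) ≤ ∑ i : ι, thr :=
          Finset.sum_le_sum fun i _ => (hl0 i).le
      _ = (Fintype.card ι : ℝ) * thr := by
          rw [Finset.sum_const, nsmul_eq_mul, Finset.card_univ]
  let P : Finset (ι × ℕ) := (Finset.univ ×ˢ Finset.range L).filter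
    (fun p => ((lev (step p.1) p.2).card : ℝ) < ρ)
  let cn : V → ℝ := fun u => ((P.filter (fun p => u ∈ lev (step p.1) p.2)).card : ℝ)
  let Bad2 : Finset V := Finset.univ.filter (fun u => D' < cn u)
  have hsum : ∑ u : V, cn u ≤ (Fintype.card ι : ℝ) * L * ρ := by
    have h1 : ∑ u : V, cn u = ∑ p ∈ P, ((lev (step p.1) p.2).card : ℝ) := by
      have h2 : ∀ u, cn u = ∑ p ∈ P, if u ∈ lev (step p.1) p.2 then (1 : ℝ) else 0 := by
        intro u
        show ((P.filter (fun p => u ∈ lev (step p.1) p.2)).card : ℝ) = _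
        rw [Finset.card_filter]
        push_cast
        rfl
      simp_rw [h2]
      rw [Finset.sum_comm]
      apply Finset.sum_congr rfl
      intro p _
      rw [Finset.sum_ite_mem, Finset.univ_inter, Finset.sum_const, nsmul_eq_mul, mul_one]
    rw [h1]
    calc ∑ p ∈ P, ((lev (step p.1) p.2).card : ℝ) ≤ ∑ p ∈ P, ρ :=
          Finset.sum_le_sum fun p hp => (Finset.mem_filter.mp hp).2.le
      _ = (P.card : ℝ) * ρ := by rw [Finset.sum_const, nsmul_eq_mul]
      _ ≤ ((Fintype.card ι : ℝ) * L) * ρ := by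
          apply mul_le_mul_of_nonneg_right _ hρ
          have : P.card ≤ Fintype.card ι * L := by
            refine (Finset.card_filter_le _ _).trans ?_
            rw [Finset.card_product, Finset.card_univ, Finset.card_range]
          exact_mod_cast this
  have hBad2 : (Bad2.card : ℝ) ≤ (Fintype.card ι : ℝ) * L * ρ / D' := by
    rw [le_div_iff₀ hD']
    refine le_trans ?_ hsum
    calc (Bad2.card : ℝ) * D' = ∑ u ∈ Bad2, D' := by rw [Finset.sum_const, nsmul_eq_mul]
      _ ≤ ∑ u ∈ Bad2, cn u := Finset.sum_le_sum fun u hu => (Finset.mem_filter.mp hu).2.le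
      _ ≤ ∑ u : V, cn u := Finset.sum_le_sum_of_subset_of_nonneg (Finset.subset_univ _)
          (fun u _ _ => by positivity)
  have hex2 : ∃ u : V, u ∉ Bad1 ∪ (Bad2 ∪ Bad3) := by
    by_contra hcon
    push Not at hcon
    have h1 : (Finset.univ : Finset V) ⊆ Bad1 ∪ (Bad2 ∪ Bad3) := fun u _ => hcon u
    have h2 := (Finset.card_le_card h1).trans (Finset.card_union_le _ _)
    have h3 := Finset.card_union_le Bad2 Bad3
    rw [Finset.card_univ] at h2
    have h4 : (Fintype.card V : ℝ) ≤ (Bad1.card : ℝ) + ((Bad2.card : ℝ) + (Bad3.card : ℝ)) := by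
      exact_mod_cast h2.trans (Nat.add_le_add_left h3 _)
    linarith
  obtain ⟨u, hu⟩ := hex2
  rw [Finset.mem_union, Finset.mem_union, not_or, not_or] at hu
  obtain ⟨hu1, hu2, hu3⟩ := hu
  have hnot1 : ∀ i l, u ∈ lev (step i) l → thr ≤ ((lev (step i) l).card : ℝ) := by
    intro i l hl
    by_contra hlt
    rw [not_le] at hlt
    apply hu1
    rw [Finset.mem_biUnion]
    exact ⟨i, Finset.mem_univ _, lev_anti (step i) (hsub i) (hl0' i l hlt) hl⟩
  let l : ι → ℕ := fun i => Nat.findGreatest (fun l => u ∈ lev (step i) l) L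
  have hl1 : ∀ i, u ∈ lev (step i) (l i) := by
    intro i
    exact Nat.findGreatest_spec (P := fun l => u ∈ lev (step i) l) (m := 0) (Nat.zero_le L)
      (by simp [lev])
  have hl2 : ∀ i, l i < L := by
    intro i
    rcases Nat.lt_or_ge (l i) L with h | h
    · exact h
    · have h1 : l i = L := le_antisymm (Nat.findGreatest_le L) h
      have h2 := hnot1 i (l i) (hl1 i)
      rw [h1] at h2
      exact absurd (hlast i) (not_lt.mpr h2)
  have hl3 : ∀ i, u ∉ lev (step i) (l i + 1) := by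
    intro i
    exact Nat.findGreatest_is_greatest (P := fun l => u ∈ lev (step i) l) (n := L)
      (Nat.lt_succ_self _) (hl2 i)
  refine ⟨u, hu3, l, hl2, hl1, hl3, fun i => hnot1 i _ (hl1 i), ?_⟩
  have h1 : cn u ≤ D' := by
    by_contra hlt
    rw [not_le] at hlt
    exact hu2 (Finset.mem_filter.mpr ⟨Finset.mem_univ _, hlt⟩)
  refine le_trans ?_ h1
  have h2 : ((Finset.univ : Finset ι).filter
        (fun i => ((lev (step i) (l i)).card : ℝ) < ρ)).card ≤
      (P.filter (fun p => u ∈ lev (step p.1) p.2)).card := by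
    apply Finset.card_le_card_of_injOn (fun i => (i, l i))
    · intro i hi
      rw [Finset.mem_coe, Finset.mem_filter] at hi
      rw [Finset.mem_coe, Finset.mem_filter, Finset.mem_filter, Finset.mem_product,
        Finset.mem_range]
      exact ⟨⟨⟨Finset.mem_univ _, hl2 i⟩, hi.2⟩, hl1 i⟩
    · intro i _ j _ hij
      exact (Prod.mk.injEq _ _ _ _ ▸ hij).1
  show _ ≤ (((P.filter (fun p => u ∈ lev (step p.1) p.2)).card : ℕ) : ℝ)
  exact_mod_cast h2

end levels

/-- **T3** (with (TR) as a hypothesis). -/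
theorem T3_of_TRb {g : ℕ} (hg : 10000 ≤ g) (D : Dat g) (hGeo : Geo D.S) (hL : D.Lab)
    (hTR : TRb D) (G : Fin (nC g) → Finset (Finset (Pt g))) (hG : ∀ i, TwoInt (G i)) :
    ∃ (u : Pl g) (X : Finset (Un g)) (W : Fin (nC g) → Finset (Pl g)), Sel D G u X W := by
  have hg' : (10000 : ℝ) ≤ g := by exact_mod_cast hg
  have hg1 : (1 : ℝ) ≤ g := by linarith
  have hgpos : (0 : ℝ) < g := by linarith
  have hch : ∀ (i : Fin (nC g)) (W : Finset (Pl g)), ∃ xy : Pp g × Pp g,
      (g : ℝ) ^ 9999 ≤ (W.card : ℝ) → xy.1.1 ≠ xy.2.1 ∧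
      (g : ℝ) * ((W.filter (fun u => ∃ s, D.PatOK u s ∧ ¬ (InP s xy.1 ∧ InP s xy.2) ∧
        (g : ℝ) ^ 6 * ((D.K (G i) u s ∩ W).card : ℝ) < (W.card : ℝ))).card : ℝ) ≤
          (W.card : ℝ) := by
    intro i W
    by_cases hW : (g : ℝ) ^ 9999 ≤ (W.card : ℝ)
    · obtain ⟨x, y, h1, h2⟩ := pair_model (by omega) D hGeo hL hTR (G i) (hG i) W hW
      exact ⟨(x, y), fun _ => ⟨h1, h2⟩⟩
    · have hs0 : 0 < sN g := by unfold sN; positivity
      have hp0 : 0 < pN g := by unfold pN; positivity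
      exact ⟨(((0, ⟨0, hs0⟩, ⟨0, hp0⟩), true), ((0, ⟨0, hs0⟩, ⟨0, hp0⟩), true)),
        fun h => absurd h hW⟩
  choose pr hpr using hch
  let bad : Fin (nC g) → Finset (Pl g) → Finset (Pl g) := fun i W =>
    W.filter (fun u => ∃ s, D.PatOK u s ∧ ¬ (InP s (pr i W).1 ∧ InP s (pr i W).2) ∧
        (g : ℝ) ^ 6 * ((D.K (G i) u s ∩ W).card : ℝ) < (W.card : ℝ))
  let step : Fin (nC g) → Finset (Pl g) → Finset (Pl g) := fun i W =>
    if (g : ℝ) ^ 9999 ≤ (W.card : ℝ) then bad i W else ∅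
  have hstep : ∀ i W, (g : ℝ) ^ 9999 ≤ (W.card : ℝ) → step i W = bad i W := fun i W h => if_pos h
  have hsub : ∀ i W, step i W ⊆ W := by
    intro i W
    by_cases hW : (g : ℝ) ^ 9999 ≤ (W.card : ℝ)
    · rw [hstep i W hW]; exact Finset.filter_subset _ _
    · show (if (g : ℝ) ^ 9999 ≤ (W.card : ℝ) then bad i W else ∅) ⊆ W
      rw [if_neg hW]; exact Finset.empty_subset _
  have hcard : ∀ i W, (g : ℝ) * ((step i W).card : ℝ) ≤ (W.card : ℝ) := by
    intro i W
    by_cases hW : (g : ℝ) ^ 9999 ≤ (W.card : ℝ)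
    · rw [hstep i W hW]; exact (hpr i W hW).2
    · show (g : ℝ) * ((if (g : ℝ) ^ 9999 ≤ (W.card : ℝ) then bad i W else ∅).card : ℝ) ≤ _
      rw [if_neg hW]; simp
  have hm : (Fintype.card (Pl g) : ℝ) = (g : ℝ) ^ 12000 := by
    rw [Fintype.card_fin, mP_cast]
  obtain ⟨L, hLd⟩ : ∃ L : ℕ, L = 2002 := ⟨_, rfl⟩
  have hLd' : (L : ℝ) = 2002 := by rw [hLd]; norm_num
  have hlast : ∀ i, ((lev (step i) L).card : ℝ) < (g : ℝ) ^ 9999 := by
    intro i
    have h1 := lev_card (step i) (g : ℝ) hgpos.le (hcard i) L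
    rw [hm, hLd] at h1
    rw [hLd]
    have h2 : (g : ℝ) ^ 12000 = (g : ℝ) ^ 2002 * (g : ℝ) ^ 9998 := by ring
    rw [h2] at h1
    have h3 : ((lev (step i) 2002).card : ℝ) ≤ (g : ℝ) ^ 9998 :=
      le_of_mul_le_mul_left h1 (by positivity)
    have h4 : (g : ℝ) ^ 9998 < (g : ℝ) ^ 9999 := pow_lt_pow_right₀ (by linarith) (by norm_num)
    linarith
  -- the graph of the pairs
  let Gam : Finset (Un g × Un g) :=
    ((Finset.univ ×ˢ Finset.range L).filter (fun p : Fin (nC g) × ℕ =>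
      (g : ℝ) ^ 9999 ≤ ((lev (step p.1) p.2).card : ℝ))).image
      (fun p => ((pr p.1 (lev (step p.1) p.2)).1.1, (pr p.1 (lev (step p.1) p.2)).2.1))
  have hGam1 : ∀ e ∈ Gam, e.1 ≠ e.2 := by
    intro e he
    rw [Finset.mem_image] at he
    obtain ⟨p, hp, rfl⟩ := he
    rw [Finset.mem_filter] at hp
    exact (hpr p.1 _ hp.2).1
  have hGam2 : (Gam.card : ℝ) ≤ 8008 * (g : ℝ) ^ 2000 := by
    have h1 : Gam.card ≤ nC g * L := by
      refine Finset.card_image_le.trans ((Finset.card_filter_le _ _).trans ?_)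
      rw [Finset.card_product, Finset.card_univ, Finset.card_range, Fintype.card_fin]
    have h2 : (Gam.card : ℝ) ≤ (nC g : ℝ) * L := by exact_mod_cast h1
    rw [nC_cast, hLd'] at h2
    linarith
  obtain ⟨B3, hB3, hB3m⟩ : ∃ B : Finset (Pl g), (B.card : ℝ) ≤ (g : ℝ) ^ 12000 / 50 ∧
      ∀ u, u ∉ B → ∃ X, D.Cov u Gam X := by
    have h := hL.l8 Gam hGam1 hGam2
    unfold num at h
    refine ⟨_, h, fun u hu => ?_⟩
    by_contra h2
    apply hu
    simp only [Finset.mem_filter, Finset.mem_univ, true_and]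
    exact h2
  obtain ⟨u, hu3, l, hl1, hl2, hl3, hl4, hl5⟩ := exists_good step L
    ((g : ℝ) ^ 9999) ((g : ℝ) ^ 10976) ((g : ℝ) ^ 977) ((g : ℝ) ^ 12000 / 50)
    B3 hB3 (by positivity) hsub hlast
    (by positivity) (by
      rw [hm, Fintype.card_fin, nC_cast]
      have h1 : 4 * (g : ℝ) ^ 2000 * (L : ℝ) * (g : ℝ) ^ 10976 / (g : ℝ) ^ 977 =
          8008 * (g : ℝ) ^ 11999 := by
        rw [div_eq_iff (by positivity), hLd']; ring
      have h2 : 4 * (g : ℝ) ^ 2000 * (g : ℝ) ^ 9999 = 4 * (g : ℝ) ^ 11999 := by ring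
      rw [h1, h2]
      have h3 : (g : ℝ) ^ 12000 = g * (g : ℝ) ^ 11999 := by ring
      have h4 : (0 : ℝ) < (g : ℝ) ^ 11999 := by positivity
      rw [h3]
      nlinarith)
  obtain ⟨X, hX1, hX2, hX3, hX4⟩ := hB3m u hu3
  refine ⟨u, X, fun i => lev (step i) (l i), hX1, hX2, hX4, hl4, ?_, ?_⟩
  · intro i s hs hO
    have h1 := hl3 i
    rw [lev_succ, hstep i _ (hl4 i)] at h1
    by_contra hlt
    rw [not_le] at hlt
    apply h1
    show u ∈ Finset.filter _ _
    rw [Finset.mem_filter]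
    refine ⟨hl2 i, s, hs, ?_, hlt⟩
    rintro ⟨h2, h3⟩
    have he : ((pr i (lev (step i) (l i))).1.1, (pr i (lev (step i) (l i))).2.1) ∈ Gam := by
      rw [Finset.mem_image]
      refine ⟨(i, l i), ?_, rfl⟩
      rw [Finset.mem_filter, Finset.mem_product, Finset.mem_range]
      exact ⟨⟨Finset.mem_univ _, hl1 i⟩, hl4 i⟩
    rcases hX3 _ he (hs.1 h2.1) (hs.1 h3.1) with h4 | h4
    · have := hO.2 _ h4
      rw [h2.2.1] at this
      exact absurd this (by simp)
    · have := hO.2 _ h4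
      rw [h3.2.1] at this
      exact absurd this (by simp)
  · unfold num
    convert hl5

end Pool.Larman
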