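import Pool.Agent.Larman.Basic

set_option autoImplicit false

namespace Pool.Agent.Larman

open Finset

variable {n : ℕ}

/-- `T` meets every member of `F` -/
def Hits (F : Finset (Finset (Fin n))) (T : Finset (Fin n)) : Prop :=
  ∀ A ∈ F, (A ∩ T).Nonempty

/-- greedy cover of the members meeting a part `R` of a minimal hitting set `T` -/
theorem greedy {F : Finset (Finset (Fin n))} {k : ℕ}
    (hk : ∀ A ∈ F, A.card = k)
    (hF : ∀ A ∈ F, ∀ B ∈ F, (A ∩ B).Nonempty)
    (hns : ∀ t : Fin n, ∃ C ∈ F, t ∉ C)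
    {T R : Finset (Fin n)} (hT : Hits F T) (hmin : ∀ T', T' ⊂ T → ¬ Hits F T')
    (hR : R ⊆ T) (j : ℕ) (hj : j + 1 ≤ R.card) :
    ∃ E : Finset (Fin n), E ⊆ R ∧ E.card = j + 1 ∧ ∃ P : Finset (Finset (Fin n)),
      PairCover (F.filter (fun A => (A ∩ E).Nonempty)) P ∧ P.card ≤ (j + 1) * (k - 1) + 1 := by
  classical
  induction j with
  | zero =>
    obtain ⟨t, ht⟩ := card_pos.1 (show 0 < R.card by omega)
    obtain ⟨C, hC, htC⟩ := hns t
    have h0 : PairCover (F.filter (fun A => (A ∩ (∅ : Finset (Fin n))).Nonempty)) ∅ := by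
      refine ⟨by simp, ?_⟩
      intro A hA
      simp at hA
    obtain ⟨Q, hQ, hQc⟩ := step hF h0 hC htC
    refine ⟨{t}, by simpa using ht, by simp, Q, ?_, ?_⟩
    · simpa using hQ
    · rw [card_empty, sdiff_empty, hk C hC] at hQc
      omega
  | succ j ih =>
    obtain ⟨E, hER, hEc, P, hP, hPc⟩ := ih (by omega)
    have key : ∃ t ∈ R \ E, ∃ C ∈ F, t ∉ C ∧ (C ∩ E).Nonempty := by
      by_contra hcon
      push Not at hcon
      refine hmin (T \ E) ?_ ?_
      · refine sdiff_ssubset (hER.trans hR) ?_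
        exact card_pos.1 (by omega)
      · intro C hC
        by_cases hCE : (C ∩ E).Nonempty
        · obtain ⟨t, ht⟩ : (R \ E).Nonempty := by
            apply card_pos.1
            rw [card_sdiff_of_subset hER]
            omega
          by_cases htC : t ∈ C
          · exact ⟨t, mem_inter.2 ⟨htC, mem_sdiff.2 ⟨hR (mem_sdiff.1 ht).1,
              (mem_sdiff.1 ht).2⟩⟩⟩
          · exact absurd (hcon t ht C hC htC) (nonempty_iff_ne_empty.1 hCE)
        · obtain ⟨x, hx⟩ := hT C hC
          rw [mem_inter] at hx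
          refine ⟨x, mem_inter.2 ⟨hx.1, mem_sdiff.2 ⟨hx.2, fun hxE => hCE ⟨x, ?_⟩⟩⟩⟩
          exact mem_inter.2 ⟨hx.1, hxE⟩
    obtain ⟨t, ht, C, hC, htC, hCE⟩ := key
    rw [mem_sdiff] at ht
    obtain ⟨Q, hQ, hQc⟩ := step hF hP hC htC
    refine ⟨insert t E, ?_, ?_, Q, hQ, ?_⟩
    · intro x hx
      rcases mem_insert.1 hx with rfl | hx
      · exact ht.1
      · exact hER hx
    · rw [card_insert_of_notMem ht.2, hEc]
    · have h1 : (C \ E).card + 1 ≤ k := by
        have : (C \ E).card < C.card := by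
          apply card_lt_card
          refine ⟨sdiff_subset, fun h => ?_⟩
          obtain ⟨x, hx⟩ := hCE
          rw [mem_inter] at hx
          exact (mem_sdiff.1 (h hx.1)).2 hx.2
        rw [hk C hC] at this
        omega
      have h2 : (C \ E).card ≤ k - 1 := by omega
      calc Q.card ≤ P.card + (C \ E).card := hQc
        _ ≤ ((j + 1) * (k - 1) + 1) + (k - 1) := by omega
        _ = (j + 1 + 1) * (k - 1) + 1 := by ring

/-- extending by the points of `A` outside `B` -/
theorem extend {F : Finset (Finset (Fin n))} {k : ℕ}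
    (hF : ∀ A ∈ F, ∀ B ∈ F, (A ∩ B).Nonempty)
    {A B : Finset (Fin n)} (hB : B ∈ F) (hBk : B.card = k)
    {P : Finset (Finset (Fin n))}
    (hP : PairCover (F.filter (fun C => (C ∩ (A ∩ B)).Nonempty)) P) (S : Finset (Fin n))
    (hS : S ⊆ A \ B) :
    ∃ Q : Finset (Finset (Fin n)),
      PairCover (F.filter (fun C => (C ∩ (S ∪ (A ∩ B))).Nonempty)) Q ∧
      Q.card ≤ P.card + S.card * (k - (A ∩ B).card) := by
  classical
  induction S using Finset.induction_on with
  | empty => exact ⟨P, by simpa using hP, by simp⟩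
  | insert t S htS ih =>
    have hS' : S ⊆ A \ B := (subset_insert t S).trans hS
    obtain ⟨Q, hQ, hQc⟩ := ih hS'
    have htB : t ∉ B := (mem_sdiff.1 (hS (mem_insert_self t S))).2
    obtain ⟨Q', hQ', hQc'⟩ := step hF hQ hB htB
    refine ⟨Q', ?_, ?_⟩
    · rw [insert_union]
      exact hQ'
    · have h1 : (B \ (S ∪ A ∩ B)).card ≤ k - (A ∩ B).card := by
        have h2 : B \ (S ∪ A ∩ B) ⊆ B \ (A ∩ B) := sdiff_subset_sdiff (Subset.refl _)
          subset_union_right
        have h3 := card_le_card h2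
        rw [card_sdiff_of_subset inter_subset_right, hBk] at h3
        exact h3
      rw [card_insert_of_notMem htS]
      calc Q'.card ≤ Q.card + (B \ (S ∪ A ∩ B)).card := hQc'
        _ ≤ (P.card + S.card * (k - (A ∩ B).card)) + (k - (A ∩ B).card) := by omega
        _ = P.card + (S.card + 1) * (k - (A ∩ B).card) := by ring

/-- a non-star intersecting family with a hitting set `T` has a pair cover of size
at most `|T| (k-1) + 1` -/
theorem pairCover_hits {F : Finset (Finset (Fin n))} {k : ℕ}
    (hk : ∀ A ∈ F, A.card = k)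
    (hF : ∀ A ∈ F, ∀ B ∈ F, (A ∩ B).Nonempty)
    (hns : ∀ t : Fin n, ∃ C ∈ F, t ∉ C) {T : Finset (Fin n)} (hT : Hits F T) :
    ∃ P : Finset (Finset (Fin n)), PairCover F P ∧ P.card ≤ T.card * (k - 1) + 1 := by
  classical
  induction T using Finset.strongInduction with
  | H T ih =>
    by_cases hmin : ∀ T', T' ⊂ T → ¬ Hits F T'
    · rcases T.eq_empty_or_nonempty with rfl | hne
      · refine ⟨∅, ⟨by simp, ?_⟩, by simp⟩
        intro A hA
        have := hT A hA
        simp at this
      · have hc : T.card - 1 + 1 = T.card := by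
          have := card_pos.2 hne
          omega
        obtain ⟨E, hET, hEc, P, hP, hPc⟩ := greedy hk hF hns hT hmin (Subset.refl T)
          (T.card - 1) (by omega)
        have hE : E = T := eq_of_subset_of_card_le hET (by omega)
        subst hE
        refine ⟨P, ⟨hP.1, fun A hA => hP.2 A (mem_filter.2 ⟨hA, hT A hA⟩)⟩, ?_⟩
        rw [hc] at hPc
        exact hPc
    · push Not at hmin
      obtain ⟨T', hT', hh⟩ := hmin
      obtain ⟨P, hP, hPc⟩ := ih T' hT' hh
      refine ⟨P, hP, hPc.trans ?_⟩
      have := Nat.mul_le_mul_right (k - 1) (card_lt_card hT').le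
      omega

/-- pairwise intersections of size one: at most `n` members -/
theorem fisher_one {F : Finset (Finset (Fin n))} {k : ℕ}
    (hk : ∀ A ∈ F, A.card = k) (hns : ∀ t : Fin n, ∃ C ∈ F, t ∉ C)
    (hkn : k < n)
    (h1 : ∀ A ∈ F, ∀ B ∈ F, A ≠ B → (A ∩ B).card = 1) : F.card ≤ n := by
  classical
  let M : Membership {A // A ∈ F} (Fin n) := ⟨fun x A => x ∈ A.1⟩
  have hmem : ∀ (A : {A // A ∈ F}) (x : Fin n), A ∈ x ↔ x ∈ A.1 := fun A x => Iff.rfl
  let H : Configuration.HasLines {A // A ∈ F} (Fin n) :=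
    { exists_point := fun x => by
        obtain ⟨C, hC, hx⟩ := hns x
        exact ⟨⟨C, hC⟩, hx⟩
      exists_line := fun A => by
        by_contra hcon
        push Not at hcon
        have : (univ : Finset (Fin n)) ⊆ A.1 := fun x _ => hcon x
        have := card_le_card this
        rw [card_univ, Fintype.card_fin, hk A.1 A.2] at this
        omega
      eq_or_eq := by
        intro p q x y h1p h1q h2p h2q
        by_contra hcon
        push Not at hcon
        have hne : p.1 ≠ q.1 := fun h => hcon.1 (Subtype.ext h)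
        have h2 := h1 p.1 p.2 q.1 q.2 hne
        rw [card_eq_one] at h2
        obtain ⟨z, hz⟩ := h2
        have hx : x ∈ ({z} : Finset (Fin n)) := by
          rw [← hz]
          exact mem_inter.2 ⟨h1p, h1q⟩
        have hy : y ∈ ({z} : Finset (Fin n)) := by
          rw [← hz]
          exact mem_inter.2 ⟨h2p, h2q⟩
        rw [mem_singleton] at hx hy
        exact hcon.2 (hx.trans hy.symm)
      mkLine := fun {p q} hpq => by
        have h2 := h1 p.1 p.2 q.1 q.2 (fun h => hpq (Subtype.ext h))
        exact (card_pos.1 (by omega : 0 < (p.1 ∩ q.1).card)).choose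
      mkLine_ax := fun {p q} hpq => by
        have h2 := h1 p.1 p.2 q.1 q.2 (fun h => hpq (Subtype.ext h))
        have := (card_pos.1 (by omega : 0 < (p.1 ∩ q.1).card)).choose_spec
        rw [mem_inter] at this
        exact this }
  have := Configuration.HasLines.card_le (P := {A // A ∈ F}) (L := Fin n)
  simpa using this

end Pool.Agent.Larman
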