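import Pool.Agent.Larman.Range

set_option autoImplicit false

namespace Pool.Agent.Larman

open Finset

variable {n : ℕ}

theorem cover_of_classes' {m : ℕ} {F : Finset (Finset (Fin n))}
    (C : Finset (Finset (Finset (Fin n)))) (hC : C.card ≤ m)
    (h1 : ∀ G ∈ C, G ⊆ F)
    (h2 : ∀ G ∈ C, ∀ A ∈ G, ∀ B ∈ G, A ≠ B → 2 ≤ (A ∩ B).card)
    (h3 : ∀ A ∈ F, ∃ G ∈ C, A ∈ G) :
    ∃ G : Fin m → Finset (Finset (Fin n)),
      (∀ i, G i ⊆ F) ∧
      (∀ i, ∀ A ∈ G i, ∀ B ∈ G i, A ≠ B → 2 ≤ (A ∩ B).card) ∧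
      (∀ A ∈ F, ∃ i, A ∈ G i) := by
  classical
  let e := C.equivFin
  refine ⟨fun i => if h : i.val < C.card then (e.symm ⟨i.val, h⟩).1 else ∅, ?_, ?_, ?_⟩
  · intro i
    by_cases h : i.val < C.card
    · simp only [h, dif_pos]
      exact h1 _ (e.symm ⟨i.val, h⟩).2
    · simp [h]
  · intro i
    by_cases h : i.val < C.card
    · simp only [h, dif_pos]
      exact h2 _ (e.symm ⟨i.val, h⟩).2
    · simp [h]
  · intro A hA
    obtain ⟨G, hG, hAG⟩ := h3 A hA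
    refine ⟨⟨(e ⟨G, hG⟩).val, lt_of_lt_of_le (e ⟨G, hG⟩).2 hC⟩, ?_⟩
    have h : (e ⟨G, hG⟩).val < C.card := (e ⟨G, hG⟩).2
    simp only [h, dif_pos]
    simpa using hAG

theorem cover_of_pairCover' {m : ℕ} {F P : Finset (Finset (Fin n))} (h : PairCover F P)
    (hP : P.card ≤ m) :
    ∃ G : Fin m → Finset (Finset (Fin n)),
      (∀ i, G i ⊆ F) ∧
      (∀ i, ∀ A ∈ G i, ∀ B ∈ G i, A ≠ B → 2 ≤ (A ∩ B).card) ∧
      (∀ A ∈ F, ∃ i, A ∈ G i) := by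
  classical
  refine cover_of_classes' (P.image (fun p => F.filter (fun A => p ⊆ A)))
    (card_image_le.trans hP) ?_ ?_ ?_
  · intro G hG
    obtain ⟨p, _, rfl⟩ := mem_image.1 hG
    exact filter_subset _ _
  · intro G hG A hA B hB _
    obtain ⟨p, hp, rfl⟩ := mem_image.1 hG
    exact two_int_of_pair (h.1 p hp) A B hA hB
  · intro A hA
    obtain ⟨p, hp, hpA⟩ := h.2 A hA
    exact ⟨_, mem_image_of_mem _ hp, mem_filter.2 ⟨hA, hpA⟩⟩

theorem cover_hitting (n k : ℕ) (F : Finset (Finset (Fin n))) (T : Finset (Fin n))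
    (hk : ∀ A ∈ F, A.card = k)
    (hF : ∀ A ∈ F, ∀ B ∈ F, (A ∩ B).Nonempty)
    (hT : ∀ A ∈ F, (A ∩ T).Nonempty) :
    ∃ G : Fin (max (n - 1) (T.card * (k - 1) + 1)) → Finset (Finset (Fin n)),
      (∀ i, G i ⊆ F) ∧
      (∀ i, ∀ A ∈ G i, ∀ B ∈ G i, A ≠ B → 2 ≤ (A ∩ B).card) ∧
      (∀ A ∈ F, ∃ i, A ∈ G i) := by
  classical
  by_cases h2k : 2 ≤ k
  · rcases star_or F with ⟨c, hc⟩ | hns
    · obtain ⟨P, hP, hPc⟩ := pairCover_star (fun A hA => (hk A hA).symm ▸ h2k) c hc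
      exact cover_of_pairCover' hP (le_max_of_le_left (by omega))
    · obtain ⟨P, hP, hPc⟩ := pairCover_hits hk hF hns hT
      exact cover_of_pairCover' hP (le_max_of_le_right hPc)
  · have heq := cover_small (by omega) hk hF
    refine ⟨fun _ => F, fun _ => Finset.Subset.refl _, ?_, ?_⟩
    · intro i A hA B hB hAB
      exact absurd (heq A hA B hB) hAB
    · intro A hA
      exact ⟨⟨0, lt_of_lt_of_le (Nat.succ_pos _) (le_max_right _ _)⟩, hA⟩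

end Pool.Agent.Larman
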