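import Pool.Agent.Larman.Bridge
import Pool.Agent.Larman.NumA

/-!
# Basic facts on the centred incidences `inc` (helper46)
-/

set_option autoImplicit false

open scoped BigOperators Classical

noncomputable section

namespace Pool.Larman

open Pool.LarProb (Ex Pr IsP PW unifOn Ex_mono Ex_add Ex_const Ex_coord Ex_unifOn unifOn_isP)

variable {g : ℕ} {D : Dat g} {E : Env g} {u : Pl g} {X : Finset (Un g)}

theorem ind_nonneg' (p : Prop) : 0 ≤ ind p := by unfold ind; split_ifs <;> norm_num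
theorem ind_le_one' (p : Prop) : ind p ≤ 1 := by unfold ind; split_ifs <;> norm_num
theorem ind_of {p : Prop} (h : p) : ind p = 1 := by unfold ind; rw [if_pos h]
theorem ind_of_not {p : Prop} (h : ¬ p) : ind p = 0 := by unfold ind; rw [if_neg h]

theorem Env.OK.W_nonempty (hE : E.OK D u X) (hg : 0 < g) (k : Fin E.M) : (E.W k).Nonempty := by
  rw [← Finset.card_pos]
  have h := hE.W_card k
  have h1 : (0 : ℝ) < (g : ℝ) ^ 9900 := by positivity
  exact_mod_cast lt_of_lt_of_le h1 h

theorem Env.qq_nonneg (k : Fin E.M) (y : Un g) : 0 ≤ E.qq D k y := by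
  unfold Env.qq; positivity

theorem Env.qq_le_one (k : Fin E.M) (y : Un g) : E.qq D k y ≤ 1 := by
  unfold Env.qq
  refine div_le_one_of_le₀ ?_ (Nat.cast_nonneg _)
  exact_mod_cast Finset.card_le_card (Finset.filter_subset _ _)

theorem Env.inc_abs_le (k : Fin E.M) (w : Pl g) (y : Un g) : |E.inc D k w y| ≤ 1 := by
  unfold Env.inc
  split_ifs
  · simp
  · rw [abs_le]
    constructor <;> linarith [E.qq_nonneg (D := D) k y, E.qq_le_one (D := D) k y,
      ind_nonneg' (y ∈ D.S w), ind_le_one' (y ∈ D.S w)]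

/-- the average of the incidence over a population -/
theorem Env.sum_ind (k : Fin E.M) (y : Un g) :
    ∑ w ∈ E.W k, ind (y ∈ D.S w) = (((E.W k).filter (fun w => y ∈ D.S w)).card : ℝ) := by
  rw [Finset.card_filter]
  push_cast
  refine Finset.sum_congr rfl (fun w _ => ?_)
  by_cases h : y ∈ D.S w
  · rw [ind_of h, if_pos h]
  · rw [ind_of_not h, if_neg h]

/-- the incidence has mean zero -/
theorem Env.Ex_inc (hW : (k : Fin E.M) → (E.W k).Nonempty) (k : Fin E.M) (y : Un g) :
    Ex (unifOn (E.W k)) (fun w => E.inc D k w y) = 0 := by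
  rw [Ex_unifOn]
  unfold Env.inc
  by_cases hy : y ∈ E.H k
  · simp [hy]
  · simp only [hy, if_false, Finset.sum_sub_distrib, Finset.sum_const, nsmul_eq_mul]
    rw [Env.sum_ind]
    unfold Env.qq
    have h0 : ((E.W k).card : ℝ) ≠ 0 := by exact_mod_cast (Finset.card_pos.2 (hW k)).ne'
    rw [mul_div_cancel₀ _ h0, sub_self, zero_div]

/-- first absolute moment of the incidence -/
theorem Env.Ex_abs_inc (hW : (k : Fin E.M) → (E.W k).Nonempty) (k : Fin E.M) (y : Un g)
    (hy : y ∉ E.H k) : Ex (unifOn (E.W k)) (fun w => |E.inc D k w y|) ≤ 2 * E.qq D k y := by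
  have h1 : ∀ w, |E.inc D k w y| ≤ ind (y ∈ D.S w) + E.qq D k y := by
    intro w
    unfold Env.inc
    rw [if_neg hy, abs_le]
    constructor <;> linarith [E.qq_nonneg (D := D) k y, ind_nonneg' (y ∈ D.S w)]
  refine (Ex_mono (unifOn_isP (hW k)) h1).trans ?_
  rw [Ex_add, Ex_const (unifOn_isP (hW k)), Ex_unifOn, Env.sum_ind]
  have : (((E.W k).filter (fun w => y ∈ D.S w)).card : ℝ) / (E.W k).card = E.qq D k y := rfl
  rw [this]
  linarith

/-- second moment of the incidence -/
theorem Env.Ex_inc_sq (hW : (k : Fin E.M) → (E.W k).Nonempty) (k : Fin E.M) (y : Un g)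
    (hy : y ∉ E.H k) : Ex (unifOn (E.W k)) (fun w => E.inc D k w y ^ 2) ≤ E.qq D k y := by
  have h1 : ∀ w, E.inc D k w y ^ 2
      = ind (y ∈ D.S w) * (1 - 2 * E.qq D k y) + E.qq D k y ^ 2 := by
    intro w
    unfold Env.inc
    rw [if_neg hy]
    have : ind (y ∈ D.S w) ^ 2 = ind (y ∈ D.S w) := by
      unfold ind; split_ifs <;> norm_num
    nlinarith
  rw [Pool.LarProb.Ex_congr h1, Ex_add, Ex_const (unifOn_isP (hW k)), Pool.LarProb.Ex_mul_right,
    Ex_unifOn, Env.sum_ind]
  have : (((E.W k).filter (fun w => y ∈ D.S w)).card : ℝ) / (E.W k).card = E.qq D k y := rfl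
  rw [this]
  nlinarith [E.qq_nonneg (D := D) k y, E.qq_le_one (D := D) k y]

theorem Env.OK.Ex_inc_sq_le (hE : E.OK D u X) (hg : 0 < g) (k : Fin E.M) (y : Un g)
    (hy : y ∈ D.Mu u X) :
    Ex (unifOn (E.W k)) (fun w => E.inc D k w y ^ 2) ≤ 24 / (g : ℝ) ^ 950 := by
  by_cases hH : y ∈ E.H k
  · have : ∀ w, E.inc D k w y ^ 2 = 0 := by
      intro w
      unfold Env.inc
      rw [if_pos hH]; norm_num
    rw [Pool.LarProb.Ex_congr this, Pool.LarProb.Ex_zero]
    positivity
  · exact (Env.Ex_inc_sq (hE.W_nonempty hg) k y hH).trans (hE.q1 k y hy hH)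

/-- transfer of a probability bound under `slotWt` -/
theorem Pr_slot_eq (E : Env g) (P : (Fin E.M → Pl g) → Prop) :
    ∑ B : Fin E.M → Pl g, E.slotWt B * ind (P B)
      = Pr (PW (A := fun _ : Fin E.M => Pl g) (fun k => unifOn (E.W k))) P := by
  unfold Pr Ex
  rw [← slotWt_eq]
  exact Finset.sum_congr rfl (fun B _ => by rw [ind_eq])

end Pool.Larman
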