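import Pool.Agent.Larman.Avg

/-!
# MP_a9ba8c (Larman, t = 1): kill lemma (Lemma 2) (helper1)
-/

set_option autoImplicit false

open scoped BigOperators Classical

noncomputable section

namespace Pool.Larman

/-- the twin added at a unit which lies only in the domain of the other pattern -/
def oppb {g : ℕ} (Q : Finset (Pp g)) (st' : Tr g) (y : Un g) : Bool :=
  if st' y = some true then false else if st' y = some false then true
  else if (y, false) ∉ Q then true else false

theorem oppb_some {g : ℕ} (Q : Finset (Pp g)) (st' : Tr g) (y : Un g) (i : Bool)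
    (h : st' y = some i) : oppb Q st' y = !i := by
  unfold oppb
  cases i
  · rw [if_neg (by rw [h]; simp), if_pos h]; rfl
  · rw [if_pos h]; rfl

theorem oppb_none {g : ℕ} (Q : Finset (Pp g)) (st' : Tr g) (y : Un g) (i : Bool)
    (h : st' y = none) (hi : (y, i) ∈ Q) (hex : ∃ j, (y, j) ∉ Q) : oppb Q st' y = i := by
  unfold oppb
  rw [if_neg (by rw [h]; simp), if_neg (by rw [h]; simp)]
  obtain ⟨j, hj⟩ := hex
  cases i
  · rw [if_neg (by simpa using hi)]
  · have : j = false := by
      cases j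
      · rfl
      · exact absurd hi hj
    subst this
    rw [if_pos hj]

/-- the extended pattern -/
def plus {g : ℕ} (Z : Finset (Un g)) (Q : Finset (Pp g)) (s s' : Pat g) (Y0 : Finset (Un g)) :
    Pat g where
  dom := s.dom ∪ ((s'.dom ∩ Z) ∪ Y0)
  st := fun y => if y ∈ s.dom then s.st y else if y ∈ s'.dom ∩ Z then some (oppb Q s'.st y)
    else some true

section
variable {g : ℕ} (D : Dat g) {u v : Pl g} (s s' : Pat g)

theorem dom_inter_Z (hs : s.dom ⊆ D.S u) : s.dom ∩ D.Z u v = s.dom ∩ D.S v := by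
  unfold Dat.Z
  ext y
  simp only [Finset.mem_inter]
  constructor
  · rintro ⟨h1, h2, h3⟩; exact ⟨h1, h3⟩
  · rintro ⟨h1, h2⟩; exact ⟨h1, hs h1, h2⟩

/-- **Structure of the pair of extended patterns.** -/
theorem plus_structure (hs : s.dom ⊆ D.S u) (hs' : s'.dom ⊆ D.S v)
    (hc : D.Compat u v s s')
    (hy : ∃ y0 : Un g, y0.1 = 0 ∧ (y0, true) ∈ D.Q u v ∧ y0 ∉ s.dom ∧ y0 ∉ s'.dom) :
    ∃ (Y0 : Finset (Un g)) (pc : Pp g), Y0.card ≤ 1 ∧ Disjoint (D.C u v) Y0 ∧
      pc ∈ D.Q u v ∧
      ∀ t : Un g → Bool,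
        (∀ p : Pp g, isReal p → p.1 ∈ D.Z u v →
          (ext (plus (D.Z u v) (D.Q u v) s s' Y0) t p.1 = some p.2 ∧
            ext (plus (D.Z u v) (D.Q u v) s' s Y0) (fun y => !t y) p.1 = some p.2 ↔ p = pc)) ∧
        (∀ p ∈ D.Q u v, ext (plus (D.Z u v) (D.Q u v) s s' Y0) t p.1 = some p.2 ∨
            ext (plus (D.Z u v) (D.Q u v) s' s Y0) (fun y => !t y) p.1 = some p.2) ∧
        (∀ y ∈ D.C u v, ∃ b, ext (plus (D.Z u v) (D.Q u v) s s' Y0) t y = some b ∧
            ext (plus (D.Z u v) (D.Q u v) s' s Y0) (fun y => !t y) y = some (!b)) := by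
  obtain ⟨⟨he1, he2, he3⟩, hC, hC', hA, hB, hN, hN'⟩ := hc
  -- values of the extended traces
  have hval : ∀ (Y0 : Finset (Un g)) (a b : Pat g) (t : Un g → Bool) (y : Un g), y ∈ D.Z u v →
      (y ∈ a.dom → ext (plus (D.Z u v) (D.Q u v) a b Y0) t y = a.st y) ∧
      (y ∉ a.dom → y ∈ b.dom →
        ext (plus (D.Z u v) (D.Q u v) a b Y0) t y = some (oppb (D.Q u v) b.st y)) ∧
      (y ∉ a.dom → y ∉ b.dom → y ∈ Y0 → ext (plus (D.Z u v) (D.Q u v) a b Y0) t y = some true) ∧
      (y ∉ a.dom → y ∉ b.dom → y ∉ Y0 →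
        ext (plus (D.Z u v) (D.Q u v) a b Y0) t y = some (t y)) := by
    intro Y0 a b t y hyZ
    unfold ext plus
    refine ⟨fun h => ?_, fun h1 h2 => ?_, fun h1 h2 h3 => ?_, fun h1 h2 h3 => ?_⟩
    · simp only
      rw [if_pos (Finset.mem_union_left _ h), if_pos h]
    · simp only
      rw [if_pos (Finset.mem_union_right _ (Finset.mem_union_left _ (Finset.mem_inter.mpr ⟨h2, hyZ⟩))),
        if_neg h1, if_pos (Finset.mem_inter.mpr ⟨h2, hyZ⟩)]
    · simp only
      rw [if_pos (Finset.mem_union_right _ (Finset.mem_union_right _ h3)), if_neg h1,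
        if_neg (fun h => h2 (Finset.mem_inter.mp h).1)]
    · simp only
      rw [if_neg]
      simp only [Finset.mem_union, Finset.mem_inter]
      tauto
  -- main part, once Y0 and pc are chosen
  have key : ∀ (Y0 : Finset (Un g)) (pc : Pp g), Y0.card ≤ 1 →
      (∀ y ∈ Y0, y.1 = 0 ∧ y ∉ s.dom ∧ y ∉ s'.dom ∧ pc = (y, true)) →
      pc ∈ D.Q u v →
      (∀ p, InP s p → InP s' p → p = pc) →
      ((InP s pc ∧ InP s' pc) ∨ pc.1 ∈ Y0) →
      Y0.card ≤ 1 ∧ Disjoint (D.C u v) Y0 ∧
      pc ∈ D.Q u v ∧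
      ∀ t : Un g → Bool,
        (∀ p : Pp g, isReal p → p.1 ∈ D.Z u v →
          (ext (plus (D.Z u v) (D.Q u v) s s' Y0) t p.1 = some p.2 ∧
            ext (plus (D.Z u v) (D.Q u v) s' s Y0) (fun y => !t y) p.1 = some p.2 ↔ p = pc)) ∧
        (∀ p ∈ D.Q u v, ext (plus (D.Z u v) (D.Q u v) s s' Y0) t p.1 = some p.2 ∨
            ext (plus (D.Z u v) (D.Q u v) s' s Y0) (fun y => !t y) p.1 = some p.2) ∧
        (∀ y ∈ D.C u v, ∃ b, ext (plus (D.Z u v) (D.Q u v) s s' Y0) t y = some b ∧
            ext (plus (D.Z u v) (D.Q u v) s' s Y0) (fun y => !t y) y = some (!b)) := by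
    intro Y0 pc hY1 hY0 hpcQ huniq hpc
    refine ⟨hY1, ?_, hpcQ, ?_⟩
    · rw [Finset.disjoint_left]
      intro y hy1 hy2
      have h1 := kind_of_mem_C D hy1
      have h2 := (hY0 y hy2).1
      rw [h2] at h1
      exact absurd h1 (by decide)
    intro t
    refine ⟨?_, ?_, ?_⟩
    · intro p hp hpZ
      obtain ⟨v1, v2, v3, v4⟩ := hval Y0 s s' t p.1 hpZ
      obtain ⟨w1, w2, w3, w4⟩ := hval Y0 s' s (fun y => !t y) p.1 hpZ
      constructor
      · rintro ⟨h1, h2⟩
        by_cases a1 : p.1 ∈ s.dom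
        · rw [v1 a1] at h1
          by_cases a2 : p.1 ∈ s'.dom
          · rw [w1 a2] at h2
            exact huniq p ⟨a1, h1, hp⟩ ⟨a2, h2, hp⟩
          · rw [w2 a2 a1, oppb_some _ _ _ _ h1] at h2
            exact absurd h2 (by simp)
        · by_cases a2 : p.1 ∈ s'.dom
          · rw [w1 a2] at h2
            rw [v2 a1 a2, oppb_some _ _ _ _ h2] at h1
            exact absurd h1 (by simp)
          · by_cases a3 : p.1 ∈ Y0
            · rw [v3 a1 a2 a3] at h1
              obtain ⟨_, _, _, h4⟩ := hY0 p.1 a3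
              rw [h4]
              simp only [Option.some.injEq] at h1
              exact Prod.ext rfl h1.symm
            · rw [v4 a1 a2 a3] at h1
              rw [w4 a2 a1 a3] at h2
              simp only [Option.some.injEq] at h1 h2
              rw [← h1] at h2
              exact absurd h2 (by simp)
      · rintro rfl
        rcases hpc with ⟨h1, h2⟩ | h3
        · exact ⟨(v1 h1.1).trans h1.2.1, (w1 h2.1).trans h2.2.1⟩
        · obtain ⟨_, b1, b2, b3⟩ := hY0 _ h3
          have b4 : p.2 = true := by rw [b3]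
          rw [v3 b1 b2 h3, w3 b2 b1 h3, b4]
          exact ⟨rfl, rfl⟩
    · intro p hpQ
      have hpZ := mem_Z_of_mem_Q D hpQ
      have hp := isReal_of_mem_Q D hpQ
      obtain ⟨v1, v2, v3, v4⟩ := hval Y0 s s' t p.1 hpZ
      obtain ⟨w1, w2, w3, w4⟩ := hval Y0 s' s (fun y => !t y) p.1 hpZ
      by_cases a1 : p.1 ∈ s.dom
      · rw [v1 a1]
        by_cases h1 : s.st p.1 = some p.2
        · left; exact h1
        right
        have h1' : s.st p.1 = some (!p.2) ∨ s.st p.1 = none := by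
          rcases h : s.st p.1 with _ | i
          · right; rfl
          · left
            rw [h] at h1
            congr 1
            rcases hp2 : p.2 <;> rcases i <;> simp_all
        by_cases a2 : p.1 ∈ s'.dom
        · rw [w1 a2]
          by_contra h2
          have h2' : s'.st p.1 = some (!p.2) ∨ s'.st p.1 = none := by
            rcases h : s'.st p.1 with _ | i
            · right; rfl
            · left
              rw [h] at h2
              congr 1
              rcases hp2 : p.2 <;> rcases i <;> simp_all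
          have h3 := hA p.1 (Finset.mem_inter.mpr ⟨a1, a2⟩) (!p.2) h1' h2'
          rw [Bool.not_not] at h3
          exact h3 hpQ
        · rw [w2 a2 a1]
          rcases h1' with h1' | h1'
          · rw [oppb_some _ _ _ _ h1', Bool.not_not]
          · have hmem : p.1 ∈ s.dom ∩ D.S v := by
              rw [← dom_inter_Z D s hs]; exact Finset.mem_inter.mpr ⟨a1, hpZ⟩
            rw [oppb_none _ _ _ p.2 h1' hpQ (hN p.1 hmem a2 h1')]
      · by_cases a2 : p.1 ∈ s'.dom
        · rw [v2 a1 a2, w1 a2]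
          by_cases h1 : s'.st p.1 = some p.2
          · right; exact h1
          left
          have h1' : s'.st p.1 = some (!p.2) ∨ s'.st p.1 = none := by
            rcases h : s'.st p.1 with _ | i
            · right; rfl
            · left
              rw [h] at h1
              congr 1
              rcases hp2 : p.2 <;> rcases i <;> simp_all
          rcases h1' with h1' | h1'
          · rw [oppb_some _ _ _ _ h1', Bool.not_not]
          · have hmem : p.1 ∈ s'.dom ∩ D.S u := by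
              have h5 := dom_inter_Z D (v := u) s' hs'
              rw [← h5, D.Z_comm v u]; exact Finset.mem_inter.mpr ⟨a2, hpZ⟩
            rw [oppb_none _ _ _ p.2 h1' hpQ (hN' p.1 hmem a1 h1')]
        · by_cases a3 : p.1 ∈ Y0
          · left
            rw [v3 a1 a2 a3]
            obtain ⟨b0, _⟩ := hY0 _ a3
            rcases hp with hp | hp
            · rw [b0] at hp; exact absurd hp (by decide)
            · rw [hp]
          · rw [v4 a1 a2 a3, w4 a2 a1 a3]
            rcases hp2 : p.2 <;> rcases ht : t p.1 <;> simp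
    · intro y hyC
      have hyZ := mem_Z_of_mem_C D hyC
      obtain ⟨v1, v2, v3, v4⟩ := hval Y0 s s' t y hyZ
      obtain ⟨w1, w2, w3, w4⟩ := hval Y0 s' s (fun y => !t y) y hyZ
      have a1 : y ∉ s.dom := Finset.disjoint_left.mp hC hyC
      have a2 : y ∉ s'.dom := Finset.disjoint_left.mp hC' hyC
      have a3 : y ∉ Y0 := by
        intro h
        have h1 := kind_of_mem_C D hyC
        rw [(hY0 y h).1] at h1
        exact absurd h1 (by decide)
      exact ⟨t y, v4 a1 a2 a3, w4 a2 a1 a3⟩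
  by_cases hex : ∃ p, InP s p ∧ InP s' p
  · obtain ⟨pc, h1, h2⟩ := hex
    have hpQ : pc ∈ D.Q u v := by
      have := hB pc.1 (Finset.mem_inter.mpr ⟨h1.1, h2.1⟩) pc.2 h1.2.1 h2.2.1 h1.2.2
      exact this
    refine ⟨∅, pc, key ∅ pc (by simp) (by simp) hpQ ?_ (Or.inl ⟨h1, h2⟩)⟩
    intro p hp hp'
    by_contra hne
    have h3 : ({p, pc} : Finset (Pp g)) ⊆
        Finset.univ.filter (fun p : Pp g => InP s p ∧ InP s' p) := by
      intro r hr
      simp only [Finset.mem_insert, Finset.mem_singleton] at hr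
      rw [Finset.mem_filter]
      rcases hr with rfl | rfl
      exacts [⟨Finset.mem_univ _, hp, hp'⟩, ⟨Finset.mem_univ _, h1, h2⟩]
    have h4 := Finset.card_le_card h3
    rw [Finset.card_pair hne] at h4
    omega
  · obtain ⟨y0, h0, hQ, hn, hn'⟩ := hy
    refine ⟨{y0}, (y0, true), key {y0} (y0, true) (by simp) ?_ hQ ?_ (Or.inr (by simp))⟩
    · intro y hy
      rw [Finset.mem_singleton] at hy
      subst hy
      exact ⟨h0, hn, hn', rfl⟩
    · intro p hp hp'
      exact absurd ⟨p, hp, hp'⟩ hex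

end

/-- counts of complementary traces with one common point -/
theorem cnt_add_cnt_eq {g : ℕ} (Q : Finset (Pp g)) (T T' : Tr g) (pc : Pp g) (hpc : pc ∈ Q)
    (h1 : ∀ p ∈ Q, (T p.1 = some p.2 ∧ T' p.1 = some p.2 ↔ p = pc))
    (h2 : ∀ p ∈ Q, T p.1 = some p.2 ∨ T' p.1 = some p.2) :
    (cnt Q T : ℤ) + (cnt Q T' : ℤ) = (Q.card : ℤ) + 1 := by
  unfold cnt
  have hU : Q.filter (fun p => T p.1 = some p.2) ∪ Q.filter (fun p => T' p.1 = some p.2) = Q := by
    ext p
    simp only [Finset.mem_union, Finset.mem_filter]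
    constructor
    · rintro (h | h) <;> exact h.1
    · intro h
      rcases h2 p h with h3 | h3
      · left; exact ⟨h, h3⟩
      · right; exact ⟨h, h3⟩
  have hI : Q.filter (fun p => T p.1 = some p.2) ∩ Q.filter (fun p => T' p.1 = some p.2) = {pc} := by
    ext p
    simp only [Finset.mem_inter, Finset.mem_filter, Finset.mem_singleton]
    constructor
    · rintro ⟨⟨h, h3⟩, -, h4⟩
      exact (h1 p h).mp ⟨h3, h4⟩
    · rintro rfl
      have := (h1 p hpc).mpr rfl
      exact ⟨⟨hpc, this.1⟩, hpc, this.2⟩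
  have := Finset.card_union_add_card_inter (Q.filter (fun p => T p.1 = some p.2))
    (Q.filter (fun p => T' p.1 = some p.2))
  rw [hU, hI, Finset.card_singleton] at this
  omega

/-- tightness is preserved -/
theorem tight_iff {g : ℕ} (D : Dat g) {u v : Pl g} (huv : u ≠ v) (T T' : Tr g)
    (hcnt : (cnt (D.Q u v) T : ℤ) + (cnt (D.Q u v) T' : ℤ) = D.q u v + 1)
    (hC : ∀ y ∈ D.C u v, ∃ b, T y = some b ∧ T' y = some (!b)) :
    D.Tight u v T ↔ D.Tight v u T' := by
  have htau := D.tau_add_tau huv T T' hC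
  unfold Dat.Tight
  rw [← D.C_comm huv, ← D.Q_comm huv]
  constructor
  · rintro ⟨_, h2⟩
    refine ⟨fun y hy => ?_, by omega⟩
    obtain ⟨b, _, h4⟩ := hC y hy
    rw [h4]; simp
  · rintro ⟨_, h2⟩
    refine ⟨fun y hy => ?_, by omega⟩
    obtain ⟨b, h3, _⟩ := hC y hy
    rw [h3]; simp

theorem one_lt_kk (g : ℕ) (hg : 0 < g) : 1 < kk g := by
  have h1 := kk_gt g hg
  have h2 : 0 < sN g := by unfold sN; exact pow_pos hg _
  omega

/-- two traces with exactly one common point cannot both be served -/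
theorem not_both_served {g : ℕ} (hg : 0 < g) (D : Dat g) {u v : Pl g}
    (G : Finset (Finset (Pt g))) (hG : TwoInt G) (T T' : Tr g) (pc : Pp g)
    (hpr : isReal pc) (hpZ : pc.1 ∈ D.Z u v)
    (h1 : ∀ p : Pp g, isReal p → p.1 ∈ D.Z u v →
      (T p.1 = some p.2 ∧ T' p.1 = some p.2 ↔ p = pc))
    (hT : D.Srv G u v T) (hT' : D.Srv G v u T') : False := by
  obtain ⟨f, hf, hfG, hfT⟩ := hT
  obtain ⟨f', hf', hfG', hfT'⟩ := hT'
  have hcard : (real f ∩ real f').card = 1 := by
    rw [card_real_inter, Finset.card_eq_one]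
    refine ⟨pc, ?_⟩
    ext p
    simp only [pp, Finset.mem_inter, Finset.mem_filter, Finset.mem_univ, true_and,
      Finset.mem_singleton]
    constructor
    · rintro ⟨⟨hp, h3⟩, -, h4⟩
      have hu : p.1 ∈ D.S u := by
        by_contra hn
        rw [hf.1 p.1 hn] at h3
        exact absurd h3 (by simp)
      have hv : p.1 ∈ D.S v := by
        by_contra hn
        rw [hf'.1 p.1 hn] at h4
        exact absurd h4 (by simp)
      have hZ : p.1 ∈ D.Z u v := Finset.mem_inter.mpr ⟨hu, hv⟩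
      have hZ' : p.1 ∈ D.Z v u := Finset.mem_inter.mpr ⟨hv, hu⟩
      rw [hfT p.1 hZ] at h3
      rw [hfT' p.1 hZ'] at h4
      exact (h1 p hp hZ).mp ⟨h3, h4⟩
    · rintro rfl
      have h2 := (h1 p hpr hpZ).mpr rfl
      have hZ' : p.1 ∈ D.Z v u := by rw [D.Z_comm]; exact hpZ
      rw [hfT p.1 hpZ, hfT' p.1 hZ']
      exact ⟨⟨hpr, h2.1⟩, hpr, h2.2⟩
  have hne : real f ≠ real f' := by
    intro h
    rw [← h, Finset.inter_self, hf.2.1] at hcard
    have := one_lt_kk g hg
    omega
  have := hG _ hfG _ hfG' hne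
  omega

/-- the bound (TR) for the probability of tightness, as a hypothesis -/
def TRb {g : ℕ} (D : Dat g) : Prop :=
  ∀ (u v : Pl g) (s : Pat g), u ≠ v → Disjoint (D.C u v) s.dom → (s.dom ∩ D.Z u v).card ≤ 6 →
    99 / 100 ≤ (hM g : ℝ) * avg (fun t => ind (D.Tight u v (ext s t))) ∧
    (hM g : ℝ) * avg (fun t => ind (D.Tight u v (ext s t))) ≤ 101 / 100

/-- **Kill lemma (Lemma 2).** -/
theorem kill_lemma {g : ℕ} (hg : 0 < g) (D : Dat g) (hTR : TRb D) {u v : Pl g} (huv : u ≠ v)
    (G : Finset (Finset (Pt g))) (hG : TwoInt G) (s s' : Pat g) (hs : s.dom ⊆ D.S u)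
    (hs' : s'.dom ⊆ D.S v) (hc : D.Compat u v s s')
    (hy : ∃ y0 : Un g, y0.1 = 0 ∧ (y0, true) ∈ D.Q u v ∧ y0 ∉ s.dom ∧ y0 ∉ s'.dom) :
    v ∈ D.K G u s ∨ u ∈ D.K G v s' := by
  obtain ⟨Y0, pc, hY1, hCY, hpcQ, hstr⟩ := plus_structure D s s' hs hs' hc hy
  obtain ⟨⟨he1, he2, he3⟩, hC, hC', hA, hB, hN, hN'⟩ := hc
  have hpcZ := mem_Z_of_mem_Q D hpcQ
  have hpcR := isReal_of_mem_Q D hpcQ
  set s1 := plus (D.Z u v) (D.Q u v) s s' Y0 with hs1
  set s2 := plus (D.Z u v) (D.Q u v) s' s Y0 with hs2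
  have hdomZ : s.dom ∩ D.Z u v = s.dom ∩ D.S v := dom_inter_Z D s hs
  have hdomZ' : s'.dom ∩ D.Z u v = s'.dom ∩ D.S u := by
    rw [D.Z_comm u v]; exact dom_inter_Z D s' hs'
  -- sizes
  have hnew1 : (s1.dom \ s.dom).card ≤ 3 := by
    have h1 : s1.dom \ s.dom ⊆ (s'.dom ∩ D.Z u v) ∪ Y0 := by
      intro y hy
      rw [Finset.mem_sdiff] at hy
      rcases Finset.mem_union.mp hy.1 with h | h
      · exact absurd h hy.2
      · exact h
    have h2 := (Finset.card_le_card h1).trans (Finset.card_union_le _ _)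
    rw [hdomZ'] at h2
    omega
  have hnew2 : (s2.dom \ s'.dom).card ≤ 3 := by
    have h1 : s2.dom \ s'.dom ⊆ (s.dom ∩ D.Z u v) ∪ Y0 := by
      intro y hy
      rw [Finset.mem_sdiff] at hy
      rcases Finset.mem_union.mp hy.1 with h | h
      · exact absurd h hy.2
      · exact h
    have h2 := (Finset.card_le_card h1).trans (Finset.card_union_le _ _)
    rw [hdomZ] at h2
    omega
  have hZ1 : (s1.dom ∩ D.Z u v).card ≤ 6 := by
    have h1 : s1.dom ∩ D.Z u v ⊆ (s.dom ∩ D.Z u v) ∪ (s1.dom \ s.dom) := by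
      intro y hy
      rw [Finset.mem_inter] at hy
      by_cases h : y ∈ s.dom
      · exact Finset.mem_union_left _ (Finset.mem_inter.mpr ⟨h, hy.2⟩)
      · exact Finset.mem_union_right _ (Finset.mem_sdiff.mpr ⟨hy.1, h⟩)
    have h2 := (Finset.card_le_card h1).trans (Finset.card_union_le _ _)
    rw [hdomZ] at h2
    omega
  have hZ2 : (s2.dom ∩ D.Z v u).card ≤ 6 := by
    rw [D.Z_comm v u]
    have h1 : s2.dom ∩ D.Z u v ⊆ (s'.dom ∩ D.Z u v) ∪ (s2.dom \ s'.dom) := by
      intro y hy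
      rw [Finset.mem_inter] at hy
      by_cases h : y ∈ s'.dom
      · exact Finset.mem_union_left _ (Finset.mem_inter.mpr ⟨h, hy.2⟩)
      · exact Finset.mem_union_right _ (Finset.mem_sdiff.mpr ⟨hy.1, h⟩)
    have h2 := (Finset.card_le_card h1).trans (Finset.card_union_le _ _)
    rw [hdomZ'] at h2
    omega
  have hd : ∀ (a b : Pat g), Disjoint (D.C u v) a.dom → Disjoint (D.C u v) b.dom →
      Disjoint (D.C u v) (plus (D.Z u v) (D.Q u v) a b Y0).dom := by
    intro a b h1 h2
    rw [Finset.disjoint_left]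
    intro y hy1 hy2
    unfold plus at hy2
    simp only [Finset.mem_union, Finset.mem_inter] at hy2
    rcases hy2 with h | ⟨h, _⟩ | h
    · exact Finset.disjoint_left.mp h1 hy1 h
    · exact Finset.disjoint_left.mp h2 hy1 h
    · exact Finset.disjoint_left.mp hCY hy1 h
  have hCu := D.C_comm huv
  -- (TR)
  have t1 := (hTR u v s1 huv (hd s s' hC hC') hZ1).1
  have t2 := (hTR v u s2 huv.symm (by rw [← hCu]; exact hd s' s hC' hC) hZ2).1
  have t3 := (hTR u v s huv hC (by rw [hdomZ]; omega)).2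
  have t4 := (hTR v u s' huv.symm (by rw [← hCu]; exact hC') (by
    rw [D.Z_comm v u, hdomZ']; omega)).2
  set h : ℝ := (hM g : ℝ) with hh
  have hpos : 0 < h := by
    rw [hh]; exact_mod_cast Nat.pos_of_ne_zero (NeZero.ne (hM g))
  -- tight traces correspond
  have htight : ∀ t, D.Tight u v (ext s1 t) ↔ D.Tight v u (ext s2 (fun y => !t y)) := by
    intro t
    obtain ⟨f1, f2, f3⟩ := hstr t
    apply tight_iff D huv _ _ _ f3
    exact cnt_add_cnt_eq (D.Q u v) _ _ pc hpcQ
      (fun p hp => f1 p (isReal_of_mem_Q D hp) (mem_Z_of_mem_Q D hp)) f2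
  have hmain : avg (fun t => ind (D.Tight u v (ext s1 t))) ≤
      avg (fun t => ind (D.Tight u v (ext s1 t) ∧ ¬ D.Srv G u v (ext s1 t))) +
      avg (fun t => ind (D.Tight v u (ext s2 t) ∧ ¬ D.Srv G v u (ext s2 t))) := by
    rw [← avg_not (fun t => ind (D.Tight v u (ext s2 t) ∧ ¬ D.Srv G v u (ext s2 t))), ← avg_add]
    apply avg_mono
    intro t
    apply ind_le_add
    intro hT
    by_cases h1 : D.Srv G u v (ext s1 t)
    · right
      refine ⟨(htight t).mp hT, fun h2 => ?_⟩
      exact not_both_served hg D G hG _ _ pc hpcR hpcZ (hstr t).1 h1 h2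
    · left; exact ⟨hT, h1⟩
  have hb : avg (fun t => ind (D.Tight u v (ext s1 t) ∧ ¬ D.Srv G u v (ext s1 t))) ≤
      2 ^ 3 * avg (fun t => ind (D.Tight u v (ext s t) ∧ ¬ D.Srv G u v (ext s t))) :=
    avg_ext_le s s1 (fun T => ind (D.Tight u v T ∧ ¬ D.Srv G u v T)) (fun T => ind_nonneg _)
      Finset.subset_union_left (fun y hy => by
        show (if y ∈ s.dom then s.st y else _) = s.st y
        rw [if_pos hy])
      (fun y => if y ∈ s'.dom ∩ D.Z u v then oppb (D.Q u v) s'.st y else true)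
      (fun y _ hy' => by
        show (if y ∈ s.dom then s.st y else if y ∈ s'.dom ∩ D.Z u v then
          some (oppb (D.Q u v) s'.st y) else some true) = _
        rw [if_neg hy']
        split_ifs <;> rfl) hnew1
  have hb' : avg (fun t => ind (D.Tight v u (ext s2 t) ∧ ¬ D.Srv G v u (ext s2 t))) ≤
      2 ^ 3 * avg (fun t => ind (D.Tight v u (ext s' t) ∧ ¬ D.Srv G v u (ext s' t))) :=
    avg_ext_le s' s2 (fun T => ind (D.Tight v u T ∧ ¬ D.Srv G v u T)) (fun T => ind_nonneg _)
      Finset.subset_union_left (fun y hy => by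
        show (if y ∈ s'.dom then s'.st y else _) = s'.st y
        rw [if_pos hy])
      (fun y => if y ∈ s.dom ∩ D.Z u v then oppb (D.Q u v) s.st y else true)
      (fun y _ hy' => by
        show (if y ∈ s'.dom then s'.st y else if y ∈ s.dom ∩ D.Z u v then
          some (oppb (D.Q u v) s.st y) else some true) = _
        rw [if_neg hy']
        split_ifs <;> rfl) hnew2
  set a := avg (fun t => ind (D.Tight u v (ext s1 t)))
  set b := avg (fun t => ind (D.Tight u v (ext s1 t) ∧ ¬ D.Srv G u v (ext s1 t)))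
  set b' := avg (fun t => ind (D.Tight v u (ext s2 t) ∧ ¬ D.Srv G v u (ext s2 t)))
  by_cases hcase : a / 2 ≤ b
  · left
    unfold Dat.K
    rw [Finset.mem_filter]
    refine ⟨Finset.mem_univ _, huv.symm, he1, hC, ?_⟩
    have h5 : h * avg (fun t => ind (D.Tight u v (ext s t))) ≤
        h * (20 * avg (fun t => ind (D.Tight u v (ext s t) ∧ ¬ D.Srv G u v (ext s t)))) := by
      nlinarith
    exact le_of_mul_le_mul_left h5 hpos
  · right
    rw [not_le] at hcase
    have h4 : a / 2 ≤ b' := by linarith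
    unfold Dat.K
    rw [Finset.mem_filter]
    refine ⟨Finset.mem_univ _, huv, he2, by rw [← hCu]; exact hC', ?_⟩
    have h5 : h * avg (fun t => ind (D.Tight v u (ext s' t))) ≤
        h * (20 * avg (fun t => ind (D.Tight v u (ext s' t) ∧ ¬ D.Srv G v u (ext s' t)))) := by
      nlinarith
    exact le_of_mul_le_mul_left h5 hpos

end Pool.Larman
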