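import Pool.Agent.Larman.LDefs
import Pool.Agent.Larman.Bas
import Pool.Agent.Larman.Asy

/-!
# MP_a9ba8c (Larman, t = 1): (8.1), the shifts of the hit slots cancel the bias
-/

set_option autoImplicit false

open scoped BigOperators Classical

noncomputable section

namespace Pool.Larman

variable {g : ℕ}

private theorem qq_nonneg_L81 (E : Env g) (D : Dat g) (k : Fin E.M) (y : Un g) :
    0 ≤ E.qq D k y := by
  unfold Env.qq
  positivity

private theorem qq_le_one_L81 (E : Env g) (D : Dat g) (k : Fin E.M) (y : Un g) :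
    E.qq D k y ≤ 1 := by
  unfold Env.qq
  refine div_le_one_of_le₀ ?_ (Nat.cast_nonneg _)
  exact_mod_cast Finset.card_le_card (Finset.filter_subset _ _)

private theorem inc_abs_L81 (E : Env g) (D : Dat g) (k : Fin E.M) (w : Pl g) (y : Un g) :
    |E.inc D k w y| ≤ 1 := by
  unfold Env.inc
  have h1 := qq_nonneg_L81 E D k y
  have h2 := qq_le_one_L81 E D k y
  split_ifs
  · simp
  · unfold ind
    rw [abs_le]
    split_ifs <;> constructor <;> linarith

private theorem mem_Mu_L81 {D : Dat g} {u : Pl g} {X : Finset (Un g)} {y : Un g}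
    (h : y ∈ D.Mu u X) : y ∈ D.S u ∧ y.1 = 0 := by
  unfold Dat.Mu kind at h
  rw [Finset.mem_sdiff, Finset.mem_filter] at h
  exact h.1

private theorem good_L81 {D : Dat g} {u : Pl g} {X : Finset (Un g)} {E : Env g}
    (hE : E.OK D u X) {hits : Finset (Fin E.M)} {wp : Fin E.M → Pl g} {y : Un g}
    (hy : y ∈ D.Mu u X) {k : Fin E.M} (hk : k ∈ hits) (h1 : y ∈ D.Z u (wp k))
    (h2 : ∀ l ∈ hits, l ≠ k → y ∉ D.Z u (wp l)) (hH : y ∉ E.H k) :
    |E.beta0 D hits wp y| ≤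
      E.raise y + ((g : ℝ) ^ 43)⁻¹ * (hits.card * (24 / (g : ℝ) ^ 950)) := by
  obtain ⟨hyS, -⟩ := mem_Mu_L81 hy
  obtain ⟨rr, hrr⟩ : ∃ rr : Fin E.M → ℝ, ∀ l, rr l = if y ∈ E.H l then 0 else E.qq D l y :=
    ⟨_, fun l => rfl⟩
  have h3 : ∀ l ∈ hits, E.inc D l (wp l) y + rr l = if l = k then 1 else 0 := by
    intro l hl
    by_cases hlk : l = k
    · rw [if_pos hlk, hlk, hrr, Env.inc, if_neg hH, if_neg hH]
      have : y ∈ D.S (wp k) := by
        unfold Dat.Z at h1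
        exact (Finset.mem_inter.1 h1).2
      unfold ind
      rw [if_pos this]
      ring
    · rw [if_neg hlk, hrr, Env.inc]
      have : y ∉ D.S (wp l) := by
        intro h4
        refine h2 l hl hlk ?_
        unfold Dat.Z
        exact Finset.mem_inter.2 ⟨hyS, h4⟩
      unfold ind
      rw [if_neg this]
      split_ifs <;> ring
  have h4 : ∑ l ∈ hits, E.inc D l (wp l) y = 1 - ∑ l ∈ hits, rr l := by
    have h5 : ∑ l ∈ hits, (E.inc D l (wp l) y + rr l) = 1 := by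
      rw [Finset.sum_congr rfl h3, Finset.sum_ite_eq' hits k, if_pos hk]
    rw [Finset.sum_add_distrib] at h5
    linarith
  have h6 : ∀ l ∈ hits, 0 ≤ rr l ∧ rr l ≤ 24 / (g : ℝ) ^ 950 := by
    intro l _
    rw [hrr]
    by_cases hl : y ∈ E.H l
    · rw [if_pos hl]
      exact ⟨le_rfl, by positivity⟩
    · rw [if_neg hl]
      exact ⟨qq_nonneg_L81 E D l y, hE.q1 l y hy hl⟩
  have h7 : 0 ≤ ∑ l ∈ hits, rr l := Finset.sum_nonneg fun l hl => (h6 l hl).1
  have h8 : ∑ l ∈ hits, rr l ≤ hits.card * (24 / (g : ℝ) ^ 950) := by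
    have := Finset.sum_le_card_nsmul hits rr _ fun l hl => (h6 l hl).2
    rwa [nsmul_eq_mul] at this
  have h9 := (hE.r0 y).1
  have h10 : 0 ≤ ((g : ℝ) ^ 43)⁻¹ := by positivity
  have h11 : E.beta0 D hits wp y = E.raise y + ((g : ℝ) ^ 43)⁻¹ * ∑ l ∈ hits, rr l := by
    unfold Env.beta0
    rw [h4]
    ring
  rw [h11, abs_of_nonneg (by positivity)]
  have h12 := mul_le_mul_of_nonneg_left h8 h10
  linarith

private theorem bad_L81 {D : Dat g} {u : Pl g} {X : Finset (Un g)} {E : Env g}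
    (hE : E.OK D u X) (hits : Finset (Fin E.M)) (wp : Fin E.M → Pl g) (y : Un g) :
    |E.beta0 D hits wp y| ≤ E.raise y + ((g : ℝ) ^ 43)⁻¹ * (1 + hits.card) := by
  have h1 : |∑ l ∈ hits, E.inc D l (wp l) y| ≤ hits.card := by
    refine (Finset.abs_sum_le_sum_abs _ _).trans ?_
    have := Finset.sum_le_card_nsmul hits (fun l => |E.inc D l (wp l) y|) 1
      fun l _ => inc_abs_L81 E D l (wp l) y
    rwa [nsmul_eq_mul, mul_one] at this
  have h2 := (hE.r0 y).1
  have h3 : 0 ≤ ((g : ℝ) ^ 43)⁻¹ := by positivity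
  obtain ⟨h4, h5⟩ := abs_le.1 h1
  unfold Env.beta0
  rw [abs_le]
  constructor <;> nlinarith [mul_le_mul_of_nonneg_left h4 h3, mul_le_mul_of_nonneg_left h5 h3]

private theorem num_L81 {G J : ℝ} (hG : 200 ≤ G) (hJ0 : 0 ≤ J) (hJ : J ≤ G ^ 3) :
    J * (G + 1) * (8 / G ^ 2) + J * (G ^ 100 + G ^ 51) * ((G ^ 43)⁻¹ * (J * (24 / G ^ 950))) +
      (5 * G * J + 50 * J ^ 2) * ((G ^ 43)⁻¹ * (1 + J)) ≤ 10 * J / G := by
  have hG0 : 0 < G := by linarith
  have h1 : J * (G + 1) * (8 / G ^ 2) ≤ (17 / 2) * (J / G) := by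
    have e1 : J * (G + 1) * (8 / G ^ 2) = (J / G) * (8 * (G + 1) / G) := by
      field_simp
    have e2 : 8 * (G + 1) / G ≤ 17 / 2 := by
      rw [div_le_iff₀ hG0]
      linarith
    rw [e1, mul_comm]
    exact mul_le_mul_of_nonneg_right e2 (by positivity)
  have h2 : J * (G ^ 100 + G ^ 51) * ((G ^ 43)⁻¹ * (J * (24 / G ^ 950))) ≤ (1 / 2) * (J / G) := by
    have e0 : G ^ 51 ≤ G ^ 100 := pow_le_pow_right₀ (by linarith) (by norm_num)
    have e1 : J * (G ^ 100 + G ^ 51) * ((G ^ 43)⁻¹ * (J * (24 / G ^ 950))) ≤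
        J * (2 * G ^ 100) * ((G ^ 43)⁻¹ * (G ^ 3 * (24 / G ^ 950))) := by
      have : G ^ 100 + G ^ 51 ≤ 2 * G ^ 100 := by linarith
      gcongr
    have e2 : J * (2 * G ^ 100) * ((G ^ 43)⁻¹ * (G ^ 3 * (24 / G ^ 950))) =
        (J / G) * (48 / G ^ 889) := by
      field_simp
      ring
    have e3 : 48 / G ^ 889 ≤ 1 / 2 := by
      have : G ^ 1 ≤ G ^ 889 := pow_le_pow_right₀ (by linarith) (by norm_num)
      rw [div_le_iff₀ (by positivity)]
      linarith
    rw [mul_comm (1 / 2 : ℝ)]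
    exact (e1.trans (le_of_eq e2)).trans (mul_le_mul_of_nonneg_left e3 (by positivity))
  have h3 : (5 * G * J + 50 * J ^ 2) * ((G ^ 43)⁻¹ * (1 + J)) ≤ (1 / 2) * (J / G) := by
    have e0 : G ^ 1 ≤ G ^ 3 := pow_le_pow_right₀ (by linarith) (by norm_num)
    have e00 : (1 : ℝ) ≤ G ^ 3 := one_le_pow₀ (by linarith)
    have e1 : (5 * G * J + 50 * J ^ 2) * ((G ^ 43)⁻¹ * (1 + J)) ≤
        (J * (55 * G ^ 3)) * ((G ^ 43)⁻¹ * (2 * G ^ 3)) := by
      have a1 : 5 * G * J + 50 * J ^ 2 ≤ J * (55 * G ^ 3) := by nlinarith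
      have a2 : 1 + J ≤ 2 * G ^ 3 := by linarith
      have a3 : 0 ≤ (G ^ 43)⁻¹ := by positivity
      have a4 : 0 ≤ 1 + J := by linarith
      exact mul_le_mul a1 (mul_le_mul_of_nonneg_left a2 a3) (by positivity) (by positivity)
    have e2 : (J * (55 * G ^ 3)) * ((G ^ 43)⁻¹ * (2 * G ^ 3)) = (J / G) * (110 / G ^ 36) := by
      field_simp
      ring
    have e3 : 110 / G ^ 36 ≤ 1 / 2 := by
      have : G ^ 2 ≤ G ^ 36 := pow_le_pow_right₀ (by linarith) (by norm_num)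
      rw [div_le_iff₀ (by positivity)]
      nlinarith
    rw [mul_comm (1 / 2 : ℝ)]
    exact (e1.trans (le_of_eq e2)).trans (mul_le_mul_of_nonneg_left e3 (by positivity))
  have h4 : 10 * J / G = 10 * (J / G) := by ring
  have h5 : 0 ≤ J / G := by positivity
  rw [h4]
  linarith

private theorem sum_L81 (hg : (200 : ℝ) ≤ g) {D : Dat g} (hD : Geo D.S) {u : Pl g}
    {X : Finset (Un g)} {E : Env g} (hE : E.OK D u X) {hits : Finset (Fin E.M)}
    {wp : Fin E.M → Pl g} (hcard : hits.card ≤ g ^ 3) (hW : ∀ k ∈ hits, wp k ∈ E.W k)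
    (hinj : ∀ k ∈ hits, ∀ l ∈ hits, wp k = wp l → k = l) :
    ∑ y ∈ E.domH D u X hits wp, |E.beta0 D hits wp y| ≤ 10 * hits.card / g := by
  obtain ⟨T, hT⟩ : ∃ T, T = E.domH D u X hits wp := ⟨_, rfl⟩
  rw [← hT]
  have hTM : ∀ y ∈ T, y ∈ D.Mu u X ∧ ∃ k ∈ hits, y ∈ D.Z u (wp k) := by
    intro y hy
    rw [hT, Env.domH, Finset.mem_inter, Finset.mem_biUnion] at hy
    exact hy
  obtain ⟨Bd, hBd⟩ : ∃ Bd : Finset (Un g), Bd = T.filter (fun y => ¬ ∃ k ∈ hits,
      y ∈ D.Z u (wp k) ∧ (∀ l ∈ hits, l ≠ k → y ∉ D.Z u (wp l)) ∧ y ∉ E.H k) := ⟨_, rfl⟩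
  have hwu : ∀ k ∈ hits, wp k ≠ u := fun k hk => hE.W_ne k _ (hW k hk)
  have cT : (T.card : ℝ) ≤ hits.card * ((g : ℝ) ^ 100 + (g : ℝ) ^ 51) := by
    have h1 : T ⊆ hits.biUnion (fun k => kind 0 (D.S u ∩ D.S (wp k))) := by
      intro y hy
      obtain ⟨h2, k, hk, h3⟩ := hTM y hy
      rw [Finset.mem_biUnion]
      refine ⟨k, hk, ?_⟩
      unfold kind
      exact Finset.mem_filter.2 ⟨h3, (mem_Mu_L81 h2).2⟩
    have h2 : (T.card : ℝ) ≤ ∑ k ∈ hits, ((kind 0 (D.S u ∩ D.S (wp k))).card : ℝ) := by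
      exact_mod_cast (Finset.card_le_card h1).trans Finset.card_biUnion_le
    refine h2.trans ?_
    have h3 := Finset.sum_le_card_nsmul hits
      (fun k => ((kind 0 (D.S u ∩ D.S (wp k))).card : ℝ)) ((g : ℝ) ^ 100 + (g : ℝ) ^ 51)
      (fun k hk => by
        have := (abs_le.1 (hD.g1z u (wp k) (hwu k hk).symm 0)).2
        linarith)
    rwa [nsmul_eq_mul] at h3
  have cR : ((T.filter (fun y => E.raise y ≠ 0)).card : ℝ) ≤ hits.card * ((g : ℝ) + 1) := by
    have h1 : T.filter (fun y => E.raise y ≠ 0) ⊆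
        hits.biUnion (fun k => (D.Z u (wp k)).filter (fun y => E.raise y ≠ 0)) := by
      intro y hy
      obtain ⟨hy1, hy2⟩ := Finset.mem_filter.1 hy
      obtain ⟨-, k, hk, h3⟩ := hTM y hy1
      rw [Finset.mem_biUnion]
      exact ⟨k, hk, Finset.mem_filter.2 ⟨h3, hy2⟩⟩
    have h2 : ((T.filter (fun y => E.raise y ≠ 0)).card : ℝ) ≤
        ∑ k ∈ hits, (((D.Z u (wp k)).filter (fun y => E.raise y ≠ 0)).card : ℝ) := by
      exact_mod_cast (Finset.card_le_card h1).trans Finset.card_biUnion_le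
    refine h2.trans ?_
    have h3 := Finset.sum_le_card_nsmul hits
      (fun k => (((D.Z u (wp k)).filter (fun y => E.raise y ≠ 0)).card : ℝ)) ((g : ℝ) + 1)
      (fun k hk => hE.r2 k _ (hW k hk))
    rwa [nsmul_eq_mul] at h3
  have cB : (Bd.card : ℝ) ≤ 5 * g * hits.card + 50 * (hits.card : ℝ) ^ 2 := by
    have h1 : Bd ⊆ (hits.biUnion (fun k => D.Z u (wp k) ∩ E.H k)) ∪
        (hits.offDiag.biUnion (fun p => D.S u ∩ D.S (wp p.1) ∩ D.S (wp p.2))) := by
      intro y hy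
      rw [hBd] at hy
      obtain ⟨hy1, hy2⟩ := Finset.mem_filter.1 hy
      obtain ⟨-, k, hk, h3⟩ := hTM y hy1
      rw [Finset.mem_union, Finset.mem_biUnion, Finset.mem_biUnion]
      by_cases h4 : y ∈ E.H k
      · exact Or.inl ⟨k, hk, Finset.mem_inter.2 ⟨h3, h4⟩⟩
      · right
        have h5 : ∃ l ∈ hits, l ≠ k ∧ y ∈ D.Z u (wp l) := by
          by_contra h6
          push Not at h6
          exact hy2 ⟨k, hk, h3, h6, h4⟩
        obtain ⟨l, hl, hlk, h6⟩ := h5
        refine ⟨(k, l), Finset.mem_offDiag.2 ⟨hk, hl, hlk.symm⟩, ?_⟩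
        unfold Dat.Z at h3 h6
        exact Finset.mem_inter.2 ⟨h3, (Finset.mem_inter.1 h6).2⟩
    have h2 : (Bd.card : ℝ) ≤ ∑ k ∈ hits, ((D.Z u (wp k) ∩ E.H k).card : ℝ) +
        ∑ p ∈ hits.offDiag, ((D.S u ∩ D.S (wp p.1) ∩ D.S (wp p.2)).card : ℝ) := by
      exact_mod_cast ((Finset.card_le_card h1).trans (Finset.card_union_le _ _)).trans
        (add_le_add Finset.card_biUnion_le Finset.card_biUnion_le)
    have h3 := Finset.sum_le_card_nsmul hits
      (fun k => ((D.Z u (wp k) ∩ E.H k).card : ℝ)) (5 * (g : ℝ))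
      (fun k hk => hE.H1 k k _ (hW k hk))
    have h4 := Finset.sum_le_card_nsmul hits.offDiag
      (fun p => ((D.S u ∩ D.S (wp p.1) ∩ D.S (wp p.2)).card : ℝ)) 50
      (fun p hp => by
        obtain ⟨e1, e2, e3⟩ := Finset.mem_offDiag.1 hp
        have := hD.g2 u (wp p.1) (wp p.2) (hwu _ e1).symm (hwu _ e2).symm
          (fun h => e3 (hinj _ e1 _ e2 h))
        exact_mod_cast this)
    have h5 : (hits.offDiag.card : ℝ) ≤ (hits.card : ℝ) ^ 2 := by
      rw [Finset.offDiag_card]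
      have : hits.card * hits.card - hits.card ≤ hits.card ^ 2 := by
        rw [sq]
        exact Nat.sub_le _ _
      exact_mod_cast this
    rw [nsmul_eq_mul] at h3 h4
    linarith
  have hpt : ∀ y ∈ T, |E.beta0 D hits wp y| ≤ (if E.raise y ≠ 0 then 8 / (g : ℝ) ^ 2 else 0) +
      ((g : ℝ) ^ 43)⁻¹ * (hits.card * (24 / (g : ℝ) ^ 950)) +
      (if y ∈ Bd then ((g : ℝ) ^ 43)⁻¹ * (1 + hits.card) else 0) := by
    intro y hy
    have hr : E.raise y ≤ if E.raise y ≠ 0 then 8 / (g : ℝ) ^ 2 else 0 := by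
      by_cases h : E.raise y ≠ 0
      · rw [if_pos h]
        exact (hE.r0 y).2
      · rw [if_neg h]
        exact le_of_eq (not_not.1 h)
    by_cases hB : y ∈ Bd
    · rw [if_pos hB]
      have h1 := bad_L81 hE hits wp y
      have h2 : 0 ≤ ((g : ℝ) ^ 43)⁻¹ * (hits.card * (24 / (g : ℝ) ^ 950)) := by positivity
      linarith
    · rw [if_neg hB]
      have h1 : ∃ k ∈ hits, y ∈ D.Z u (wp k) ∧ (∀ l ∈ hits, l ≠ k → y ∉ D.Z u (wp l)) ∧
          y ∉ E.H k := by
        by_contra h2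
        refine hB ?_
        rw [hBd]
        exact Finset.mem_filter.2 ⟨hy, h2⟩
      obtain ⟨k, hk, h3, h4, h5⟩ := h1
      have h6 := good_L81 hE (hTM y hy).1 hk h3 h4 h5
      linarith
  have hBT : T.filter (fun y => y ∈ Bd) = Bd := by
    rw [Finset.filter_mem_eq_inter, Finset.inter_eq_right, hBd]
    exact Finset.filter_subset _ _
  have hsum := Finset.sum_le_sum hpt
  rw [Finset.sum_add_distrib, Finset.sum_add_distrib, ← Finset.sum_filter, Finset.sum_const,
    Finset.sum_const, ← Finset.sum_filter, hBT, Finset.sum_const, nsmul_eq_mul, nsmul_eq_mul,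
    nsmul_eq_mul] at hsum
  have hJ : (hits.card : ℝ) ≤ (g : ℝ) ^ 3 := by exact_mod_cast hcard
  have hfin := num_L81 hg (Nat.cast_nonneg hits.card) hJ
  have a1 := mul_le_mul_of_nonneg_right cR (by positivity : 0 ≤ 8 / (g : ℝ) ^ 2)
  have a2 := mul_le_mul_of_nonneg_right cT
    (by positivity : 0 ≤ ((g : ℝ) ^ 43)⁻¹ * (hits.card * (24 / (g : ℝ) ^ 950)))
  have a3 := mul_le_mul_of_nonneg_right cB
    (by positivity : 0 ≤ ((g : ℝ) ^ 43)⁻¹ * (1 + (hits.card : ℝ)))
  linarith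

/-- PROOF. e = g^-43, T = domH, j = |hits|. Every factor is in [0, exp(2|β0 y|)] (1 + x <= exp x, |ε| <= 1,
|β0| <= 1/4), so it is enough that sum_(y in T) |β0 y| <= 10 j/g.
β0 y = e + raise y - e * sum_(k in hits) inc k (wp k) y. GOOD y: y is in exactly one Z u (wp k), k in hits
(wp is injective on hits), and y not in H k: then inc k (wp k) y = 1 - qq k y and for l <> k in hits
inc l (wp l) y = - qq l y or 0, so |β0 y| <= raise y + e * j * 24/g^950 (q1). BAD y: y in H k cap Z u (wp k)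
for some k in hits (at most 5g per k by H1) or y in two zones (at most 50 per pair k <> l in hits by g2,
the players u, wp k, wp l are different): at most 5 g j + 50 j^2 <= 51 g^3 j units, each with
|β0 y| <= raise y + e (1 + j) <= raise y + 2 g^3 e (|inc| <= 1). Sum of raise over T: at most g + 1 units
per zone with raise <> 0 (r2) and raise <= 8/g^2: 8 (g+1) j/g^2. Number of good y <= 2 g^100 j (zones have
at most g^100 + g^51 units of kind 0). Total <= 8 (g+1) j/g^2 + 51 g^3 j * 2 g^3 g^-43 + 2 g^100 j * 24 g^3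
g^-43/g^950 <= 10 j/g. -/
theorem prod81 : ∀ᶠ (g : ℕ) in Filter.atTop, ∀ D : Dat g, Geo D.S →
    ∀ (u : Pl g) (X : Finset (Un g)) (E : Env g), E.OK D u X →
    ∀ (hits : Finset (Fin E.M)) (wp : Fin E.M → Pl g), hits.card ≤ g ^ 3 →
    (∀ k ∈ hits, wp k ∈ E.W k) → (∀ k ∈ hits, ∀ l ∈ hits, wp k = wp l → k = l) →
    (∀ y ∈ E.domH D u X hits wp, |E.beta0 D hits wp y| ≤ 1 / 4) →
    ∀ ε : Un g → ℝ, (∀ y, |ε y| ≤ 1) →
    ∏ y ∈ E.domH D u X hits wp, (1 + 2 * ε y * E.beta0 D hits wp y) ≤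
      Real.exp (20 * hits.card / g) := by
  filter_upwards [ev_ge 200] with g hg D hD u X E hE hits wp hcard hW hinj hb ε hε
  have hS := sum_L81 hg hD hE hcard hW hinj
  calc ∏ y ∈ E.domH D u X hits wp, (1 + 2 * ε y * E.beta0 D hits wp y)
      ≤ ∏ y ∈ E.domH D u X hits wp, Real.exp (2 * |E.beta0 D hits wp y|) := by
        refine Finset.prod_le_prod (fun y hy => ?_) (fun y hy => ?_)
        · have h1 := hb y hy
          have h2 : |ε y * E.beta0 D hits wp y| ≤ 1 / 4 := by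
            rw [abs_mul]
            calc |ε y| * |E.beta0 D hits wp y| ≤ 1 * (1 / 4) :=
                  mul_le_mul (hε y) h1 (abs_nonneg _) zero_le_one
              _ = 1 / 4 := one_mul _
          have h3 := (abs_le.1 h2).1
          nlinarith
        · have h2 : ε y * E.beta0 D hits wp y ≤ |E.beta0 D hits wp y| := by
            refine (le_abs_self _).trans ?_
            rw [abs_mul]
            exact mul_le_of_le_one_left (abs_nonneg _) (hε y)
          have h3 := Real.add_one_le_exp (2 * |E.beta0 D hits wp y|)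
          nlinarith
    _ = Real.exp (∑ y ∈ E.domH D u X hits wp, 2 * |E.beta0 D hits wp y|) :=
        (Real.exp_sum _ _).symm
    _ ≤ Real.exp (20 * hits.card / g) := by
        refine Real.exp_le_exp.2 ?_
        rw [← Finset.mul_sum]
        have h4 : (20 : ℝ) * hits.card / g = 2 * (10 * hits.card / g) := by ring
        rw [h4]
        exact mul_le_mul_of_nonneg_left hS (by norm_num)

end Pool.Larman
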