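import Pool.Agent.Larman.Sel

/-!
# MP_a9ba8c (Larman, t = 1): local part, definitions

Everything here is about one player u with cover X and environment E. States of the class induction.
-/

set_option autoImplicit false

open scoped BigOperators Classical

noncomputable section

namespace Pool.Larman

/-- take the twins t on the set Fb and the twins t0 elsewhere -/
def mix {g : ℕ} (Fb : Finset (Un g)) (t0 t : Un g → Bool) : Un g → Bool :=
  fun y => if y ∈ Fb then t y else t0 y

/-- state of the class induction: pattern, hit slots with their players, forbidden players of slots -/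
structure Sta (g M : ℕ) where
  s : Pat g
  hits : Finset (Fin M)
  wp : Fin M → Pl g
  F : Fin M → Finset (Pl g)

/-- the pattern s, extended by the twins true on A and false on the rest of the new units Z -/
def updP {g : ℕ} (s : Pat g) (Z A : Finset (Un g)) : Pat g where
  dom := s.dom ∪ Z
  st := fun y => if y ∈ s.dom then s.st y else if y ∈ Z then some (decide (y ∈ A)) else none

namespace Env
variable {g : ℕ} (E : Env g) (D : Dat g)

/-- admissible states -/
structure StaOK (u : Pl g) (X : Finset (Un g)) (st : Sta g E.M) : Prop where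
  dom : st.s.dom = X ∪ st.hits.biUnion (fun k => D.Z u (st.wp k))
  onX : ∀ y ∈ X, st.s.st y = none
  some : ∀ y ∈ st.s.dom, y ∉ X → ∃ b, st.s.st y = some b
  none : ∀ y, y ∉ st.s.dom → st.s.st y = none
  mem : ∀ k ∈ st.hits, st.wp k ∈ E.W k
  card : st.hits.card ≤ g ^ 3

/-- the slot vector B and the twins t are consistent with the state -/
def cons (u : Pl g) (X : Finset (Un g)) (st : Sta g E.M) (B : Fin E.M → Pl g)
    (t : Un g → Bool) : Prop :=
  (∀ k ∈ st.hits, B k = st.wp k) ∧ (∀ k, k ∉ st.hits → B k ∉ st.F k) ∧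
  ∀ y ∈ st.s.dom, D.trA u X t y = st.s.st y

/-- the bound for the weight of a state -/
def cst (X : Finset (Un g)) (st : Sta g E.M) : ℝ :=
  2 * Real.exp (20 * st.hits.card / g) * (hM g : ℝ) ^ st.hits.card *
    (1 / 2 : ℝ) ^ (st.s.dom \ X).card * (∏ k ∈ st.hits, 1 / ((E.W k).card : ℝ)) *
    ∏ k ∈ Finset.univ \ st.hits, (1 - 99 / 100 * (((st.F k ∩ E.W k).card : ℝ) / (E.W k).card))

/-- the event that the random set is a member of u and of the class G and all windows are respected -/
def EvC (u : Pl g) (X : Finset (Un g)) (G : Finset (Finset (Pt g))) (B : Fin E.M → Pl g)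
    (t : Un g → Bool) : Prop :=
  D.trA u X t ∈ D.Fam u ∧ real (D.trA u X t) ∈ G ∧ ∀ k, D.win u (B k) (D.trA u X t)

/-- domain of the tilted coins seen by the hit slots -/
def domH (u : Pl g) (X : Finset (Un g)) (hits : Finset (Fin E.M)) (wp : Fin E.M → Pl g) :
    Finset (Un g) :=
  D.Mu u X ∩ hits.biUnion (fun k => D.Z u (wp k))

/-- bias after the shifts of the hit slots -/
def beta0 (hits : Finset (Fin E.M)) (wp : Fin E.M → Pl g) (y : Un g) : ℝ :=
  ((g : ℝ) ^ 43)⁻¹ + E.raise y - ((g : ℝ) ^ 43)⁻¹ * ∑ k ∈ hits, E.inc D k (wp k) y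

/-- error of the one-slot bound -/
def epsk (u : Pl g) (X : Finset (Un g)) (hits : Finset (Fin E.M)) (wp : Fin E.M → Pl g)
    (k : Fin E.M) : ℝ :=
  10 * ((g : ℝ) ^ 86)⁻¹ * (∑ y ∈ E.domH D u X hits wp, ∑ y' ∈ E.domH D u X hits wp,
    if y ≠ y' ∧ y ∉ E.H k ∧ y' ∉ E.H k then E.qq2 D k y y' + 3 * E.qq D k y * E.qq D k y' else 0) +
  ((g : ℝ) ^ 9000)⁻¹

end Env

end Pool.Larman
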