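import Pool.Agent.Larman.LDefs
import Pool.Agent.Larman.Bas
import Pool.Agent.Larman.Asy

/-!
# MP_a9ba8c (Larman, t = 1): sum of the errors of the one-slot bounds
-/

set_option autoImplicit false

open scoped BigOperators Classical

noncomputable section

namespace Pool.Larman

variable {g : ℕ}

private theorem qq_nn (E : Env g) (D : Dat g) (k : Fin E.M) (y : Un g) : 0 ≤ E.qq D k y := by
  unfold Env.qq; positivity

private theorem qq2_nn (E : Env g) (D : Dat g) (k : Fin E.M) (y y' : Un g) :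
    0 ≤ E.qq2 D k y y' := by
  unfold Env.qq2; positivity

private theorem pairw_nn (E : Env g) (D : Dat g) (k : Fin E.M) (y y' : Un g) :
    0 ≤ E.qq2 D k y y' + 3 * E.qq D k y * E.qq D k y' := by
  have h1 := qq2_nn E D k y y'
  have h2 := mul_nonneg (qq_nn E D k y) (qq_nn E D k y')
  nlinarith

theorem epsk_nonneg (E : Env g) (D : Dat g) (u : Pl g) (X : Finset (Un g))
    (hits : Finset (Fin E.M)) (wp : Fin E.M → Pl g) (k : Fin E.M) :
    0 ≤ E.epsk D u X hits wp k := by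
  unfold Env.epsk
  refine add_nonneg (mul_nonneg (by positivity) ?_) (by positivity)
  refine Finset.sum_nonneg (fun y _ => Finset.sum_nonneg (fun y' _ => ?_))
  split_ifs
  · exact pairw_nn E D k y y'
  · exact le_rfl

private theorem cover_sum {α ι : Type} [DecidableEq α] (T : Finset α) (s : Finset ι)
    (Z : ι → Finset α) (hT : ∀ y ∈ T, ∃ k ∈ s, y ∈ Z k) (f : α → ℝ) (hf : ∀ y, 0 ≤ f y) :
    ∑ y ∈ T, f y ≤ ∑ k ∈ s, ∑ y ∈ Z k, f y := by
  calc ∑ y ∈ T, f y ≤ ∑ y ∈ T, ∑ k ∈ s, (if y ∈ Z k then f y else 0) := by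
        refine Finset.sum_le_sum (fun y hy => ?_)
        obtain ⟨k, hk, hyk⟩ := hT y hy
        refine le_trans (le_of_eq ?_)
          (Finset.single_le_sum (f := fun k => if y ∈ Z k then f y else 0) (fun i _ => ?_) hk)
        · simp [hyk]
        · show 0 ≤ (if y ∈ Z i then f y else 0)
          split_ifs
          · exact hf y
          · exact le_rfl
    _ = ∑ k ∈ s, ∑ y ∈ T, (if y ∈ Z k then f y else 0) := Finset.sum_comm
    _ ≤ ∑ k ∈ s, ∑ y ∈ Z k, f y := by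
        refine Finset.sum_le_sum (fun k _ => ?_)
        rw [← Finset.sum_filter]
        exact Finset.sum_le_sum_of_subset_of_nonneg (fun y hy => (Finset.mem_filter.1 hy).2)
          (fun y _ _ => hf y)

private theorem inv_pow_le {x : ℝ} (hx : 1 ≤ x) {a b : ℕ} (hab : a < b) :
    x ^ a * (x ^ b)⁻¹ ≤ x⁻¹ := by
  have h0 : 0 < x := lt_of_lt_of_le one_pos hx
  have h1 : x * x ^ a ≤ x ^ b := by
    calc x * x ^ a = x ^ (a + 1) := by ring
      _ ≤ x ^ b := pow_le_pow_right₀ hx hab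
  rw [← div_eq_mul_inv, div_le_iff₀ (by positivity), ← div_eq_inv_mul, le_div_iff₀ h0]
  linarith

/-- PROOF. T = domH. Last term: M g^-9000 <= 2 g^(1033-9000). Hard slots: exchange the sums and use G1 for
every pair y <> y' in T: sum over hard k of the (y, y') term <= 4 G y y'; the sum over y, y' in T of G is at
most the sum over k, l in hits of GG (Z u (wp k)) (Z u (wp l)) (T is covered by the Z u (wp k), G0) <=
g^6 * g^67. So the hard slots give at most 10 g^-86 * 4 g^73 = 40 g^-13. Slots which are not hard: H k empty,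
qq2 <= 12/g^1900, qq <= 24/g^950, so each pair gives at most (12 + 1728)/g^1900; |T| <= 2 g^103; total at
most 2 g^1033 * 4 g^206 * 1740/g^1900 * 10 g^-86. Everything is < 1/1000 for large g. -/
theorem epsk_sum : ∀ᶠ (g : ℕ) in Filter.atTop, ∀ D : Dat g, Geo D.S →
    ∀ (u : Pl g) (X : Finset (Un g)) (E : Env g), E.OK D u X →
    ∀ (hits : Finset (Fin E.M)) (wp : Fin E.M → Pl g), hits.card ≤ g ^ 3 →
    (∀ k ∈ hits, wp k ∈ E.W k) →
    (∀ k ∈ hits, ∀ l ∈ hits, E.GG (D.Z u (wp k)) (D.Z u (wp l)) ≤ (g : ℝ) ^ 67) →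
    ∑ k, E.epsk D u X hits wp k ≤ 1 / 1000 := by
  filter_upwards [ev_ge 1000000000] with g hg D hGeo u X E hE hits wp hcard hmem hGG
  have hg1 : (1 : ℝ) ≤ g := by linarith
  have hg0 : (0 : ℝ) < g := by linarith
  have hcardR : (hits.card : ℝ) ≤ (g : ℝ) ^ 3 := by exact_mod_cast hcard
  set T := E.domH D u X hits wp with hT
  have hTMu : ∀ y ∈ T, y ∈ D.Mu u X := by
    intro y hy
    simp only [hT, Env.domH, Finset.mem_inter] at hy
    exact hy.1
  have hTZ : ∀ y ∈ T, ∃ k ∈ hits, y ∈ D.Z u (wp k) := by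
    intro y hy
    simp only [hT, Env.domH, Finset.mem_inter, Finset.mem_biUnion] at hy
    exact hy.2
  have hTcard : (T.card : ℝ) ≤ 2 * (g : ℝ) ^ 103 := by
    have hsub : T ⊆ hits.biUnion (fun k => kind 0 (D.S u ∩ D.S (wp k))) := by
      intro y hy
      obtain ⟨k, hk, hyk⟩ := hTZ y hy
      have hy0 : y.1 = 0 := by
        have := hTMu y hy
        simp only [Dat.Mu, kind, Finset.mem_sdiff, Finset.mem_filter] at this
        exact this.1.2
      refine Finset.mem_biUnion.2 ⟨k, hk, ?_⟩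
      simp only [kind, Finset.mem_filter]
      exact ⟨hyk, hy0⟩
    have h1 : T.card ≤ ∑ k ∈ hits, (kind 0 (D.S u ∩ D.S (wp k))).card :=
      (Finset.card_le_card hsub).trans Finset.card_biUnion_le
    have h2 : ∀ k ∈ hits, ((kind 0 (D.S u ∩ D.S (wp k))).card : ℝ) ≤ 2 * (g : ℝ) ^ 100 := by
      intro k hk
      have h3 := abs_le.1 (hGeo.g1z u (wp k) (hE.W_ne k _ (hmem k hk)).symm 0)
      have h4 : (g : ℝ) ^ 51 ≤ (g : ℝ) ^ 100 := pow_le_pow_right₀ hg1 (by norm_num)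
      linarith [h3.2]
    calc (T.card : ℝ) ≤ ((∑ k ∈ hits, (kind 0 (D.S u ∩ D.S (wp k))).card : ℕ) : ℝ) := by
          exact_mod_cast h1
      _ = ∑ k ∈ hits, ((kind 0 (D.S u ∩ D.S (wp k))).card : ℝ) := by push_cast; rfl
      _ ≤ ∑ k ∈ hits, 2 * (g : ℝ) ^ 100 := Finset.sum_le_sum h2
      _ = hits.card * (2 * (g : ℝ) ^ 100) := by rw [Finset.sum_const, nsmul_eq_mul]
      _ ≤ (g : ℝ) ^ 3 * (2 * (g : ℝ) ^ 100) :=
          mul_le_mul_of_nonneg_right hcardR (by positivity)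
      _ = 2 * (g : ℝ) ^ 103 := by ring
  -- the pair weights
  have hG : ∑ y ∈ T, ∑ y' ∈ T, E.G y y' ≤ (g : ℝ) ^ 73 := by
    calc ∑ y ∈ T, ∑ y' ∈ T, E.G y y'
        ≤ ∑ k ∈ hits, ∑ y ∈ D.Z u (wp k), ∑ y' ∈ T, E.G y y' :=
          cover_sum T hits (fun k => D.Z u (wp k)) hTZ (fun y => ∑ y' ∈ T, E.G y y')
            (fun y => Finset.sum_nonneg (fun y' _ => hE.G0 y y'))
      _ ≤ ∑ k ∈ hits, ∑ y ∈ D.Z u (wp k), ∑ l ∈ hits, ∑ y' ∈ D.Z u (wp l), E.G y y' := by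
          refine Finset.sum_le_sum (fun k _ => Finset.sum_le_sum (fun y _ => ?_))
          exact cover_sum T hits (fun l => D.Z u (wp l)) hTZ (fun y' => E.G y y')
            (fun y' => hE.G0 y y')
      _ = ∑ k ∈ hits, ∑ l ∈ hits, E.GG (D.Z u (wp k)) (D.Z u (wp l)) := by
          refine Finset.sum_congr rfl (fun k _ => ?_)
          rw [Finset.sum_comm]
          rfl
      _ ≤ ∑ k ∈ hits, ∑ l ∈ hits, (g : ℝ) ^ 67 :=
          Finset.sum_le_sum (fun k hk => Finset.sum_le_sum (fun l hl => hGG k hk l hl))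
      _ = (hits.card : ℝ) * (hits.card * (g : ℝ) ^ 67) := by
          rw [Finset.sum_const, Finset.sum_const, nsmul_eq_mul, nsmul_eq_mul]
      _ ≤ (g : ℝ) ^ 3 * ((g : ℝ) ^ 3 * (g : ℝ) ^ 67) := by
          refine mul_le_mul hcardR (mul_le_mul_of_nonneg_right hcardR (by positivity))
            (by positivity) (by positivity)
      _ = (g : ℝ) ^ 73 := by ring
  -- the one-slot sums
  set a : ℝ := 1740 / (g : ℝ) ^ 1900 with ha
  have ha0 : 0 ≤ a := by positivity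
  have hF : ∀ k, (∑ y ∈ T, ∑ y' ∈ T, if y ≠ y' ∧ y ∉ E.H k ∧ y' ∉ E.H k then
      E.qq2 D k y y' + 3 * E.qq D k y * E.qq D k y' else 0) ≤
      (∑ y ∈ T, ∑ y' ∈ T, if y = y' then 0 else
        (if E.hd k ∧ y ∉ E.H k ∧ y' ∉ E.H k then
          E.qq2 D k y y' + 3 * E.qq D k y * E.qq D k y' else 0)) + (T.card : ℝ) ^ 2 * a := by
    intro k
    have h1 : ∑ y ∈ T, ∑ y' ∈ T, a = (T.card : ℝ) ^ 2 * a := by
      rw [Finset.sum_const, Finset.sum_const, nsmul_eq_mul, nsmul_eq_mul]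
      ring
    rw [← h1, ← Finset.sum_add_distrib]
    refine Finset.sum_le_sum (fun y hy => ?_)
    rw [← Finset.sum_add_distrib]
    refine Finset.sum_le_sum (fun y' hy' => ?_)
    by_cases hyy : y = y'
    · rw [if_neg (fun h => h.1 hyy), if_pos hyy, zero_add]
      exact ha0
    rw [if_neg hyy]
    by_cases hk : E.hd k
    · by_cases h2 : y ∉ E.H k ∧ y' ∉ E.H k
      · rw [if_pos ⟨hyy, h2⟩, if_pos ⟨hk, h2⟩]
        linarith
      · rw [if_neg (fun h => h2 h.2), if_neg (fun h => h2 h.2)]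
        linarith
    · have hH : E.H k = ∅ := hE.H0 k hk
      have hy1 : y ∉ E.H k := by rw [hH]; exact Finset.notMem_empty _
      have hy2 : y' ∉ E.H k := by rw [hH]; exact Finset.notMem_empty _
      rw [if_pos ⟨hyy, hy1, hy2⟩, if_neg (fun h => hk h.1), zero_add]
      have q1 := hE.q1 k y (hTMu y hy) hy1
      have q1' := hE.q1 k y' (hTMu y' hy') hy2
      have q2 := hE.q2 k hk y (hTMu y hy) y' (hTMu y' hy') hyy
      have q3 : E.qq D k y * E.qq D k y' ≤ 24 / (g : ℝ) ^ 950 * (24 / (g : ℝ) ^ 950) :=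
        mul_le_mul q1 q1' (qq_nn E D k y') (by positivity)
      have q4 : 24 / (g : ℝ) ^ 950 * (24 / (g : ℝ) ^ 950) = 576 / (g : ℝ) ^ 1900 := by
        rw [div_mul_div_comm, ← pow_add]
        norm_num
      have q5 : a = 12 / (g : ℝ) ^ 1900 + 3 * (576 / (g : ℝ) ^ 1900) := by
        rw [ha]; ring
      rw [q5, mul_assoc]
      rw [q4] at q3
      linarith
  have hS : (∑ k, ∑ y ∈ T, ∑ y' ∈ T, if y ≠ y' ∧ y ∉ E.H k ∧ y' ∉ E.H k then
      E.qq2 D k y y' + 3 * E.qq D k y * E.qq D k y' else 0) ≤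
      4 * (g : ℝ) ^ 73 + 2 * (g : ℝ) ^ 1033 * ((2 * (g : ℝ) ^ 103) ^ 2 * a) := by
    refine (Finset.sum_le_sum (fun k _ => hF k)).trans ?_
    rw [Finset.sum_add_distrib]
    refine add_le_add ?_ ?_
    · rw [Finset.sum_comm]
      calc (∑ y ∈ T, ∑ k, ∑ y' ∈ T, if y = y' then 0 else
            (if E.hd k ∧ y ∉ E.H k ∧ y' ∉ E.H k then
              E.qq2 D k y y' + 3 * E.qq D k y * E.qq D k y' else 0))
          ≤ ∑ y ∈ T, ∑ y' ∈ T, 4 * E.G y y' := by
            refine Finset.sum_le_sum (fun y hy => ?_)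
            rw [Finset.sum_comm]
            refine Finset.sum_le_sum (fun y' hy' => ?_)
            by_cases hyy : y = y'
            · simp only [hyy, if_true, Finset.sum_const_zero]
              exact mul_nonneg (by norm_num) (hE.G0 _ _)
            · simp only [if_neg hyy]
              exact hE.G1 y (hTMu y hy) y' (hTMu y' hy') hyy
        _ = 4 * ∑ y ∈ T, ∑ y' ∈ T, E.G y y' := by
            rw [Finset.mul_sum]
            exact Finset.sum_congr rfl (fun y _ => by rw [Finset.mul_sum])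
        _ ≤ 4 * (g : ℝ) ^ 73 := by linarith
    · rw [Finset.sum_const, Finset.card_univ, Fintype.card_fin, nsmul_eq_mul]
      refine mul_le_mul hE.M_le ?_ (by positivity) (by positivity)
      refine mul_le_mul_of_nonneg_right ?_ ha0
      exact pow_le_pow_left₀ (Nat.cast_nonneg _) hTcard 2
  -- conclusion
  have hsum : ∑ k, E.epsk D u X hits wp k = 10 * ((g : ℝ) ^ 86)⁻¹ *
      (∑ k, ∑ y ∈ T, ∑ y' ∈ T, if y ≠ y' ∧ y ∉ E.H k ∧ y' ∉ E.H k then
      E.qq2 D k y y' + 3 * E.qq D k y * E.qq D k y' else 0) + E.M * ((g : ℝ) ^ 9000)⁻¹ := by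
    unfold Env.epsk
    rw [Finset.sum_add_distrib, ← Finset.mul_sum, Finset.sum_const, Finset.card_univ,
      Fintype.card_fin, nsmul_eq_mul]
  rw [hsum]
  have e1 : 10 * ((g : ℝ) ^ 86)⁻¹ * (4 * (g : ℝ) ^ 73) ≤ 40 * (g : ℝ)⁻¹ := by
    have := inv_pow_le hg1 (show 73 < 86 by norm_num)
    calc 10 * ((g : ℝ) ^ 86)⁻¹ * (4 * (g : ℝ) ^ 73)
        = 40 * ((g : ℝ) ^ 73 * ((g : ℝ) ^ 86)⁻¹) := by ring
      _ ≤ 40 * (g : ℝ)⁻¹ := by linarith
  have e2 : 10 * ((g : ℝ) ^ 86)⁻¹ * (2 * (g : ℝ) ^ 1033 * ((2 * (g : ℝ) ^ 103) ^ 2 * a)) ≤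
      139200 * (g : ℝ)⁻¹ := by
    have := inv_pow_le hg1 (show 1239 < 1986 by norm_num)
    calc 10 * ((g : ℝ) ^ 86)⁻¹ * (2 * (g : ℝ) ^ 1033 * ((2 * (g : ℝ) ^ 103) ^ 2 * a))
        = 139200 * ((g : ℝ) ^ 1239 * ((g : ℝ) ^ 1986)⁻¹) := by
          rw [ha, div_eq_mul_inv]
          have h1 : ((g : ℝ) ^ 1986)⁻¹ = ((g : ℝ) ^ 86)⁻¹ * ((g : ℝ) ^ 1900)⁻¹ := by
            rw [← mul_inv, ← pow_add]
          rw [h1]
          ring
      _ ≤ 139200 * (g : ℝ)⁻¹ := by linarith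
  have e3 : (E.M : ℝ) * ((g : ℝ) ^ 9000)⁻¹ ≤ 2 * (g : ℝ)⁻¹ := by
    have := inv_pow_le hg1 (show 1033 < 9000 by norm_num)
    calc (E.M : ℝ) * ((g : ℝ) ^ 9000)⁻¹ ≤ 2 * (g : ℝ) ^ 1033 * ((g : ℝ) ^ 9000)⁻¹ :=
          mul_le_mul_of_nonneg_right hE.M_le (by positivity)
      _ = 2 * ((g : ℝ) ^ 1033 * ((g : ℝ) ^ 9000)⁻¹) := by ring
      _ ≤ 2 * (g : ℝ)⁻¹ := by linarith
  have e4 : (g : ℝ)⁻¹ ≤ 1 / 1000000000 := by
    rw [inv_eq_one_div]
    exact one_div_le_one_div_of_le (by norm_num) hg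
  have e5 := mul_le_mul_of_nonneg_left hS (show 0 ≤ 10 * ((g : ℝ) ^ 86)⁻¹ by positivity)
  rw [mul_add] at e5
  linarith

end Pool.Larman
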