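import Pool.Agent.Larman.LDefs
import Pool.Agent.Larman.Bas
import Pool.Agent.Larman.Asy
import Pool.Agent.Larman.IncBasic

/-!
# MP_a9ba8c (Larman, t = 1): one-slot bound
-/

set_option autoImplicit false

open scoped BigOperators Classical

noncomputable section

namespace Pool.Larman

variable {g : ℕ}

/-- a product of factors close to 1 -/
private theorem LSlot_prod_sub_one {ι : Type*} (T : Finset ι) (a : ι → ℝ)
    (h : ∑ y ∈ T, |a y| ≤ 1 / 100) : |∏ y ∈ T, (1 - a y) - 1| ≤ 11 / 10 * ∑ y ∈ T, |a y| := by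
  have h1 := Finset.norm_prod_one_add_sub_one_le T (fun y => - a y)
  simp only [Real.norm_eq_abs, abs_neg, ← sub_eq_add_neg] at h1
  have h0 : 0 ≤ ∑ y ∈ T, |a y| := Finset.sum_nonneg fun _ _ => abs_nonneg _
  have h2 := Real.abs_exp_sub_one_sub_id_le (x := ∑ y ∈ T, |a y|)
    (by rw [abs_of_nonneg h0]; linarith)
  have h3 := (abs_le.1 h2).2
  nlinarith

/-- expansion of a product up to the terms of order two -/
private theorem LSlot_expand {ι : Type*} [DecidableEq ι] (a : ι → ℝ) (T : Finset ι) :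
    ∑ y ∈ T, |a y| ≤ 1 / 100 →
    |∏ y ∈ T, (1 - a y) - (1 - ∑ y ∈ T, a y)| ≤
      11 / 20 * ∑ y ∈ T, ∑ y' ∈ T, if y ≠ y' then |a y * a y'| else 0 := by
  induction T using Finset.induction_on with
  | empty => intro _; simp
  | @insert z T hz ih =>
    intro h
    rw [Finset.sum_insert hz] at h
    have hT : ∑ y ∈ T, |a y| ≤ 1 / 100 := by linarith [abs_nonneg (a z)]
    have h1 := ih hT
    have h2 := LSlot_prod_sub_one T a hT
    rw [Finset.prod_insert hz, Finset.sum_insert hz, Finset.sum_insert hz]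
    have h3 : ∑ y' ∈ insert z T, (if z ≠ y' then |a z * a y'| else 0) =
        |a z| * ∑ y' ∈ T, |a y'| := by
      rw [Finset.sum_insert hz, if_neg (by simp), zero_add, Finset.mul_sum]
      refine Finset.sum_congr rfl fun y' hy' => ?_
      rw [if_pos (by rintro rfl; exact hz hy'), abs_mul]
    have h4 : ∑ y ∈ T, ∑ y' ∈ insert z T, (if y ≠ y' then |a y * a y'| else 0) =
        |a z| * ∑ y' ∈ T, |a y'| +
          ∑ y ∈ T, ∑ y' ∈ T, (if y ≠ y' then |a y * a y'| else 0) := by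
      rw [Finset.mul_sum, ← Finset.sum_add_distrib]
      refine Finset.sum_congr rfl fun y hy => ?_
      rw [Finset.sum_insert hz, if_pos (by rintro rfl; exact hz hy), abs_mul, mul_comm]
    rw [h3, h4]
    have h5 : (1 - a z) * ∏ y ∈ T, (1 - a y) - (1 - (a z + ∑ y ∈ T, a y)) =
        (∏ y ∈ T, (1 - a y) - (1 - ∑ y ∈ T, a y)) - a z * (∏ y ∈ T, (1 - a y) - 1) := by ring
    rw [h5]
    have h6 : |a z * (∏ y ∈ T, (1 - a y) - 1)| ≤ |a z| * (11 / 10 * ∑ y ∈ T, |a y|) := by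
      rw [abs_mul]
      exact mul_le_mul_of_nonneg_left h2 (abs_nonneg _)
    refine (abs_sub _ _).trans ?_
    linarith

/-- sum of the products of two centred incidences over the population of a slot -/
private theorem LSlot_pair {D : Dat g} {E : Env g} (k : Fin E.M) (hW : (E.W k).Nonempty)
    (y y' : Un g) (hy : y ∉ E.H k) (hy' : y' ∉ E.H k) :
    ∑ w ∈ E.W k, |E.inc D k w y * E.inc D k w y'| ≤
      ((E.W k).card : ℝ) * (E.qq2 D k y y' + 3 * E.qq D k y * E.qq D k y') := by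
  have hN : ((E.W k).card : ℝ) ≠ 0 := by exact_mod_cast (Finset.card_pos.2 hW).ne'
  have h1 : ∀ w ∈ E.W k, |E.inc D k w y * E.inc D k w y'| ≤
      ind (y ∈ D.S w ∧ y' ∈ D.S w) + E.qq D k y' * ind (y ∈ D.S w) +
        E.qq D k y * ind (y' ∈ D.S w) + E.qq D k y * E.qq D k y' := by
    intro w _
    have e1 : |E.inc D k w y| ≤ ind (y ∈ D.S w) + E.qq D k y := by
      unfold Env.inc
      rw [if_neg hy, abs_le]
      constructor <;> linarith [E.qq_nonneg (D := D) k y, ind_nonneg' (y ∈ D.S w)]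
    have e2 : |E.inc D k w y'| ≤ ind (y' ∈ D.S w) + E.qq D k y' := by
      unfold Env.inc
      rw [if_neg hy', abs_le]
      constructor <;> linarith [E.qq_nonneg (D := D) k y', ind_nonneg' (y' ∈ D.S w)]
    have e3 : ind (y ∈ D.S w ∧ y' ∈ D.S w) = ind (y ∈ D.S w) * ind (y' ∈ D.S w) := by
      by_cases ha : y ∈ D.S w <;> by_cases hb : y' ∈ D.S w <;> simp [ind, ha, hb]
    rw [abs_mul, e3]
    have e4 := mul_le_mul e1 e2 (abs_nonneg _)
      (by linarith [E.qq_nonneg (D := D) k y, ind_nonneg' (y ∈ D.S w)])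
    nlinarith
  have h2 : ∑ w ∈ E.W k, ind (y ∈ D.S w ∧ y' ∈ D.S w) =
      (((E.W k).filter (fun w => y ∈ D.S w ∧ y' ∈ D.S w)).card : ℝ) := by
    rw [Finset.card_filter]
    push_cast
    refine Finset.sum_congr rfl (fun w _ => ?_)
    by_cases h : y ∈ D.S w ∧ y' ∈ D.S w
    · rw [ind_of h, if_pos h]
    · rw [ind_of_not h, if_neg h]
  have h3 : (((E.W k).filter (fun w => y ∈ D.S w ∧ y' ∈ D.S w)).card : ℝ) =
      ((E.W k).card : ℝ) * E.qq2 D k y y' := by
    unfold Env.qq2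
    rw [mul_div_cancel₀ _ hN]
  have h4 : ∀ z : Un g, (((E.W k).filter (fun w => z ∈ D.S w)).card : ℝ) =
      ((E.W k).card : ℝ) * E.qq D k z := by
    intro z
    unfold Env.qq
    rw [mul_div_cancel₀ _ hN]
  refine (Finset.sum_le_sum h1).trans ?_
  rw [Finset.sum_add_distrib, Finset.sum_add_distrib, Finset.sum_add_distrib, ← Finset.mul_sum,
    ← Finset.mul_sum, Env.sum_ind, Env.sum_ind, h2, h3, h4, h4, Finset.sum_const, nsmul_eq_mul]
  apply le_of_eq
  ring

/-- the sum of the centred incidences over the population of a slot vanishes -/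
private theorem LSlot_sum_inc {D : Dat g} {E : Env g} (k : Fin E.M) (hW : (E.W k).Nonempty)
    (y : Un g) : ∑ w ∈ E.W k, E.inc D k w y = 0 := by
  have hN : ((E.W k).card : ℝ) ≠ 0 := by exact_mod_cast (Finset.card_pos.2 hW).ne'
  unfold Env.inc
  by_cases hy : y ∈ E.H k
  · simp [hy]
  · simp only [hy, if_false, Finset.sum_sub_distrib, Finset.sum_const, nsmul_eq_mul]
    rw [Env.sum_ind]
    unfold Env.qq
    rw [mul_div_cancel₀ _ hN, sub_self]

/-- the sum of the centred incidences over the players of a slot which are not hit -/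
private theorem LSlot_sum_nonhit {D : Dat g} {E : Env g} (k : Fin E.M) (hW : (E.W k).Nonempty)
    (hits : Finset (Fin E.M)) (wp : Fin E.M → Pl g) (y : Un g) :
    |∑ w ∈ (E.W k).filter (fun w => ∀ l ∈ hits, w ≠ wp l), E.inc D k w y| ≤ hits.card := by
  have h1 := Finset.sum_filter_add_sum_filter_not (E.W k) (fun w => ∀ l ∈ hits, w ≠ wp l)
    (fun w => E.inc D k w y)
  rw [LSlot_sum_inc k hW y] at h1
  have h2 : ∑ w ∈ (E.W k).filter (fun w => ∀ l ∈ hits, w ≠ wp l), E.inc D k w y =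
      - ∑ w ∈ (E.W k).filter (fun w => ¬ ∀ l ∈ hits, w ≠ wp l), E.inc D k w y := by linarith
  rw [h2, abs_neg]
  refine (Finset.abs_sum_le_sum_abs _ _).trans ?_
  refine (Finset.sum_le_sum fun w _ => Env.inc_abs_le k w y).trans ?_
  rw [Finset.sum_const, nsmul_eq_mul, mul_one]
  have h3 : (E.W k).filter (fun w => ¬ ∀ l ∈ hits, w ≠ wp l) ⊆ hits.image wp := by
    intro w hw
    have h4 := (Finset.mem_filter.1 hw).2
    push Not at h4
    obtain ⟨l, hl, rfl⟩ := h4
    exact Finset.mem_image_of_mem _ hl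
  exact_mod_cast (Finset.card_le_card h3).trans Finset.card_image_le

/-- number of forbidden players which are not hit -/
private theorem LSlot_card_F {E : Env g} (k : Fin E.M) (hits : Finset (Fin E.M))
    (wp : Fin E.M → Pl g) (F : Finset (Pl g)) :
    ((F ∩ E.W k).card : ℝ) - hits.card ≤
      ((((E.W k).filter (fun w => ∀ l ∈ hits, w ≠ wp l)).filter (fun w => ¬ w ∉ F)).card : ℝ) := by
  have h1 : F ∩ E.W k ⊆
      ((E.W k).filter (fun w => ∀ l ∈ hits, w ≠ wp l)).filter (fun w => ¬ w ∉ F) ∪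
        hits.image wp := by
    intro w hw
    rw [Finset.mem_inter] at hw
    rw [Finset.mem_union]
    by_cases h : ∀ l ∈ hits, w ≠ wp l
    · left
      rw [Finset.mem_filter, Finset.mem_filter, not_not]
      exact ⟨⟨hw.2, h⟩, hw.1⟩
    · right
      push Not at h
      obtain ⟨l, hl, rfl⟩ := h
      exact Finset.mem_image_of_mem _ hl
  have h2 : (F ∩ E.W k).card ≤
      (((E.W k).filter (fun w => ∀ l ∈ hits, w ≠ wp l)).filter (fun w => ¬ w ∉ F)).card +
        hits.card :=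
    (Finset.card_le_card h1).trans ((Finset.card_union_le _ _).trans
      (Nat.add_le_add_left Finset.card_image_le _))
  have h3 : ((F ∩ E.W k).card : ℝ) ≤
      ((((E.W k).filter (fun w => ∀ l ∈ hits, w ≠ wp l)).filter (fun w => ¬ w ∉ F)).card : ℝ) +
        hits.card := by exact_mod_cast h2
  linarith

/-- size of domH -/
private theorem LSlot_card_domH {D : Dat g} {E : Env g} {u : Pl g} {X : Finset (Un g)}
    (hG : Geo D.S) (hE : E.OK D u X) (hits : Finset (Fin E.M)) (wp : Fin E.M → Pl g)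
    (hh : hits.card ≤ g ^ 3) (hwp : ∀ k ∈ hits, wp k ∈ E.W k) (hg : (10000 : ℝ) ≤ g) :
    ((E.domH D u X hits wp).card : ℝ) ≤ 2 * (g : ℝ) ^ 103 := by
  have h1 : E.domH D u X hits wp ⊆
      hits.biUnion (fun l => kind 0 (D.S u ∩ D.S (wp l))) := by
    intro y hy
    unfold Env.domH Dat.Mu at hy
    rw [Finset.mem_inter, Finset.mem_sdiff, kind, Finset.mem_filter, Finset.mem_biUnion] at hy
    obtain ⟨⟨⟨-, hy0⟩, -⟩, l, hl, hyl⟩ := hy
    rw [Finset.mem_biUnion]
    refine ⟨l, hl, ?_⟩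
    rw [kind, Finset.mem_filter]
    exact ⟨hyl, hy0⟩
  have h2 : ∀ l ∈ hits, ((kind 0 (D.S u ∩ D.S (wp l))).card : ℝ) ≤
      (g : ℝ) ^ 100 + (g : ℝ) ^ 51 := by
    intro l hl
    have h3 := hG.g1z u (wp l) (hE.W_ne l (wp l) (hwp l hl)).symm 0
    have h4 := (abs_le.1 h3).2
    linarith
  have h3 : ((E.domH D u X hits wp).card : ℝ) ≤
      ∑ l ∈ hits, ((kind 0 (D.S u ∩ D.S (wp l))).card : ℝ) := by
    exact_mod_cast (Finset.card_le_card h1).trans Finset.card_biUnion_le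
  have h4 : ((hits.card : ℕ) : ℝ) ≤ (g : ℝ) ^ 3 := by exact_mod_cast hh
  have h5 : (g : ℝ) ^ 51 ≤ (g : ℝ) ^ 100 := pow_le_pow_right₀ (by linarith) (by norm_num)
  calc ((E.domH D u X hits wp).card : ℝ)
      ≤ ∑ l ∈ hits, ((kind 0 (D.S u ∩ D.S (wp l))).card : ℝ) := h3
    _ ≤ ∑ _l ∈ hits, ((g : ℝ) ^ 100 + (g : ℝ) ^ 51) := Finset.sum_le_sum h2
    _ = (hits.card : ℝ) * ((g : ℝ) ^ 100 + (g : ℝ) ^ 51) := by
        rw [Finset.sum_const, nsmul_eq_mul]
    _ ≤ (g : ℝ) ^ 3 * ((g : ℝ) ^ 100 + (g : ℝ) ^ 100) := by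
        refine mul_le_mul h4 (by linarith) (by positivity) (by positivity)
    _ = 2 * (g : ℝ) ^ 103 := by ring

/-- a player which is not hit meets domH in few units -/
private theorem LSlot_card_inter {D : Dat g} {E : Env g} {u : Pl g} {X : Finset (Un g)}
    (hG : Geo D.S) (hE : E.OK D u X) (hits : Finset (Fin E.M)) (wp : Fin E.M → Pl g)
    (hh : hits.card ≤ g ^ 3) (hwp : ∀ k ∈ hits, wp k ∈ E.W k) (k : Fin E.M) (w : Pl g)
    (hw : w ∈ E.W k) (hne : ∀ l ∈ hits, w ≠ wp l) :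
    (((E.domH D u X hits wp).filter (fun y => y ∈ D.S w)).card : ℝ) ≤ 50 * (g : ℝ) ^ 3 := by
  have h1 : (E.domH D u X hits wp).filter (fun y => y ∈ D.S w) ⊆
      hits.biUnion (fun l => D.S u ∩ D.S (wp l) ∩ D.S w) := by
    intro y hy
    rw [Finset.mem_filter] at hy
    obtain ⟨hy, hyw⟩ := hy
    unfold Env.domH at hy
    rw [Finset.mem_inter, Finset.mem_biUnion] at hy
    obtain ⟨-, l, hl, hyl⟩ := hy
    rw [Finset.mem_biUnion]
    exact ⟨l, hl, Finset.mem_inter.2 ⟨hyl, hyw⟩⟩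
  have h2 : ∀ l ∈ hits, (D.S u ∩ D.S (wp l) ∩ D.S w).card ≤ 50 := by
    intro l hl
    exact hG.g2 u (wp l) w (hE.W_ne l (wp l) (hwp l hl)).symm (hE.W_ne k w hw).symm
      (hne l hl).symm
  have h3 : ((E.domH D u X hits wp).filter (fun y => y ∈ D.S w)).card ≤ g ^ 3 * 50 := by
    calc ((E.domH D u X hits wp).filter (fun y => y ∈ D.S w)).card
        ≤ (hits.biUnion (fun l => D.S u ∩ D.S (wp l) ∩ D.S w)).card := Finset.card_le_card h1
      _ ≤ ∑ l ∈ hits, (D.S u ∩ D.S (wp l) ∩ D.S w).card := Finset.card_biUnion_le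
      _ ≤ ∑ _l ∈ hits, 50 := Finset.sum_le_sum h2
      _ = hits.card * 50 := by rw [Finset.sum_const, smul_eq_mul]
      _ ≤ g ^ 3 * 50 := Nat.mul_le_mul_right _ hh
  have h4 : (((E.domH D u X hits wp).filter (fun y => y ∈ D.S w)).card : ℝ) ≤
      (g : ℝ) ^ 3 * 50 := by exact_mod_cast h3
  linarith

/-- the L1 norm of the factors of a player which is not hit -/
private theorem LSlot_norm {D : Dat g} {E : Env g} {u : Pl g} {X : Finset (Un g)}
    (hG : Geo D.S) (hE : E.OK D u X) (hits : Finset (Fin E.M)) (wp : Fin E.M → Pl g)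
    (hh : hits.card ≤ g ^ 3) (hwp : ∀ k ∈ hits, wp k ∈ E.W k) (hg : (10000 : ℝ) ≤ g)
    (k : Fin E.M) (w : Pl g) (hw : w ∈ E.W k) (hne : ∀ l ∈ hits, w ≠ wp l) (v : Un g → ℝ)
    (hv : ∀ y ∈ E.domH D u X hits wp, |v y| ≤ 4 * ((g : ℝ) ^ 43)⁻¹) :
    ∑ y ∈ E.domH D u X hits wp, |v y * E.inc D k w y| ≤ 1 / 200 := by
  have hgp : (0 : ℝ) < g := by linarith
  have h1 : ∀ y ∈ E.domH D u X hits wp, |v y * E.inc D k w y| ≤
      4 * ((g : ℝ) ^ 43)⁻¹ * ((if y ∈ D.S w then 1 else 0) + 24 / (g : ℝ) ^ 950) := by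
    intro y hy
    rw [abs_mul]
    refine mul_le_mul (hv y hy) ?_ (abs_nonneg _) (by positivity)
    have hyM : y ∈ D.Mu u X := by
      unfold Env.domH at hy
      exact (Finset.mem_inter.1 hy).1
    have hpos : (0 : ℝ) ≤ 24 / (g : ℝ) ^ 950 := by positivity
    by_cases hH : y ∈ E.H k
    · unfold Env.inc
      rw [if_pos hH, abs_zero]
      split_ifs <;> linarith
    · have hq := hE.q1 k y hyM hH
      have hq0 := E.qq_nonneg (D := D) k y
      unfold Env.inc
      rw [if_neg hH]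
      unfold ind
      rw [abs_le]
      split_ifs <;> constructor <;> linarith
  have h2 : ∑ y ∈ E.domH D u X hits wp, (if y ∈ D.S w then (1 : ℝ) else 0) =
      (((E.domH D u X hits wp).filter (fun y => y ∈ D.S w)).card : ℝ) := by
    rw [Finset.card_filter]
    push_cast
    rfl
  have h3 := LSlot_card_inter hG hE hits wp hh hwp k w hw hne
  have h4 := LSlot_card_domH hG hE hits wp hh hwp hg
  have h5 : ((E.domH D u X hits wp).card : ℝ) * (24 / (g : ℝ) ^ 950) ≤ 1 := by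
    rw [← mul_div_assoc, div_le_one (by positivity)]
    calc ((E.domH D u X hits wp).card : ℝ) * 24 ≤ 2 * (g : ℝ) ^ 103 * 24 :=
          mul_le_mul_of_nonneg_right h4 (by norm_num)
      _ = 48 * (g : ℝ) ^ 103 := by ring
      _ ≤ (g : ℝ) ^ 950 := pow_slack (by linarith) (by linarith) (by norm_num)
  refine (Finset.sum_le_sum h1).trans ?_
  rw [← Finset.mul_sum, Finset.sum_add_distrib, h2, Finset.sum_const, nsmul_eq_mul]
  have h6 : 4 * ((g : ℝ) ^ 43)⁻¹ * (50 * (g : ℝ) ^ 3 + 1) ≤ 1 / 200 := by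
    have h7 : (1 : ℝ) ≤ (g : ℝ) ^ 3 := one_le_pow₀ (by linarith)
    have h8 : 10000 * (g : ℝ) ^ 41 ≤ (g : ℝ) ^ 43 :=
      pow_slack (by linarith) (by linarith) (by norm_num)
    have h9 : 10000 * (g : ℝ) ^ 3 ≤ (g : ℝ) ^ 41 :=
      pow_slack (by linarith) (by linarith) (by norm_num)
    have h10 : (0 : ℝ) < (g : ℝ) ^ 43 := by positivity
    rw [mul_comm (4 : ℝ), mul_assoc, ← div_eq_inv_mul, div_le_iff₀ h10]
    linarith
  calc 4 * ((g : ℝ) ^ 43)⁻¹ *
        ((((E.domH D u X hits wp).filter (fun y => y ∈ D.S w)).card : ℝ) +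
          ((E.domH D u X hits wp).card : ℝ) * (24 / (g : ℝ) ^ 950))
      ≤ 4 * ((g : ℝ) ^ 43)⁻¹ * (50 * (g : ℝ) ^ 3 + 1) := by
        refine mul_le_mul_of_nonneg_left ?_ (by positivity)
        linarith
    _ ≤ 1 / 200 := h6

/-- the error terms -/
private theorem LSlot_num {N : ℝ} (hg : (10000 : ℝ) ≤ g) (hN : (g : ℝ) ^ 9900 ≤ N) :
    (8 * (g : ℝ) ^ 63 + (g : ℝ) ^ 3) / N ≤ ((g : ℝ) ^ 9000)⁻¹ := by
  have hgp : (0 : ℝ) < g := by linarith
  have hNp : 0 < N := lt_of_lt_of_le (by positivity) hN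
  have h1 : (g : ℝ) ^ 3 ≤ (g : ℝ) ^ 63 := pow_le_pow_right₀ (by linarith) (by norm_num)
  have h2 : 10000 * (g : ℝ) ^ 63 ≤ (g : ℝ) ^ 900 :=
    pow_slack (by linarith) (by linarith) (by norm_num)
  have h3 : ((g : ℝ) ^ 9000)⁻¹ * (g : ℝ) ^ 9900 = (g : ℝ) ^ 900 := by
    have h4 : (g : ℝ) ^ 9900 = (g : ℝ) ^ 9000 * (g : ℝ) ^ 900 := by rw [← pow_add]
    rw [h4, inv_mul_cancel_left₀ (by positivity)]
  rw [div_le_iff₀ hNp]
  have h5 : (g : ℝ) ^ 900 ≤ ((g : ℝ) ^ 9000)⁻¹ * N := by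
    rw [← h3]
    exact mul_le_mul_of_nonneg_left hN (by positivity)
  have h6 : (0 : ℝ) ≤ (g : ℝ) ^ 63 := by positivity
  linarith

/-- If the players of the slot k avoid F and the hit players, the average of the product over
domH = Mu cap union of Z u (wp l) of (1 - v_y inc_k(w,y)) is at most 1 - .99 P(F) + epsk.
PROOF. Put T = domH, a_y(w) = v_y inc_k(w, y), |v_y| <= 4 g^-43 =: V, so a_y = 0 for y in H k.
(0) |T| <= g^3 * (g^100 + g^51) <= 2 g^103 (T consists of units of kind 0).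
(1) For w in W k, w different from all wp l: sum_(y in T) |inc| <= |S w cap T| + |T| 24/g^950 <=
 50 g^3 + 1 =: L (g2 for the triples u, w, wp l: all three are different; u is not in W k by W_ne; q1).
 So |prod (1 - a_y) - 1| <= exp(V L) - 1 <= 1/100 for large g.
(2) Write prod_(y in T) (1 - a_y) = 1 - sum_y a_y + R with |R| <= exp(V L) * (1/2) sum_(y <> y') |a_y a_y'|
 (expand; every subset with at least 2 elements contains a pair; or induction on T).
 Sum over w in W k, w not hit, divided by |W k|: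
 - constant 1: at most 1;
 - singletons: sum over ALL w in W k of inc_k(w, y) is zero for y not in H k (definition of qq), so the
   absolute value of the sum over the non hit w is at most |hits| <= g^3 per y; in total at most
   V * |T| * g^3/g^9900 <= (1/4) g^-9000;
 - pairs: |a_y a_y'| <= 16 g^-86 |inc inc'| and the average over W k of |inc_k(w,y) inc_k(w,y')| is at
   most qq2 y y' + 3 qq y * qq y' (|(1_y - q)(1_y' - q')| <= 1_y 1_y' + q' 1_y + q 1_y' + q q'); so R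
   contributes at most 1.1 * 8 g^-86 * sum_(y <> y', not in H k) (...) <= the first part of epsk.
(3) The terms with w in F (w in W k, not hit): their product is >= 99/100, so removing them from the sum
 lowers it by at least .99 (|F cap W k| - |hits|)/|W k| >= .99 |F cap W k|/|W k| - (1/4) g^-9000.
Together: <= 1 + (first part of epsk) + (1/4 + 1/4) g^-9000 - .99 |F cap W k|/|W k|. -/
theorem one_slot : ∀ᶠ (g : ℕ) in Filter.atTop, ∀ D : Dat g, Geo D.S →
    ∀ (u : Pl g) (X : Finset (Un g)) (E : Env g), E.OK D u X →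
    ∀ (hits : Finset (Fin E.M)) (wp : Fin E.M → Pl g), hits.card ≤ g ^ 3 →
    (∀ k ∈ hits, wp k ∈ E.W k) →
    ∀ (k : Fin E.M) (F : Finset (Pl g)) (v : Un g → ℝ),
    (∀ y ∈ E.domH D u X hits wp, |v y| ≤ 4 * ((g : ℝ) ^ 43)⁻¹) →
    ∑ w, (if w ∈ E.W k ∧ w ∉ F ∧ (∀ l ∈ hits, w ≠ wp l) then 1 / ((E.W k).card : ℝ) else 0) *
        ∏ y ∈ E.domH D u X hits wp, (1 - v y * E.inc D k w y) ≤
      1 - 99 / 100 * (((F ∩ E.W k).card : ℝ) / (E.W k).card) + E.epsk D u X hits wp k := by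
  filter_upwards [ev_ge 10000] with g hg D hG u X E hE hits wp hh hwp k F v hv
  have hgp : (0 : ℝ) < g := by linarith
  have hgn : 0 < g := by exact_mod_cast hgp
  have hWk := hE.W_nonempty hgn k
  have hNc := hE.W_card k
  have hNp : (0 : ℝ) < ((E.W k).card : ℝ) := lt_of_lt_of_le (by positivity) hNc
  have hhR : ((hits.card : ℕ) : ℝ) ≤ (g : ℝ) ^ 3 := by exact_mod_cast hh
  set T := E.domH D u X hits wp with hT
  set Q := (E.W k).filter (fun w => ∀ l ∈ hits, w ≠ wp l) with hQ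
  set N : ℝ := ((E.W k).card : ℝ) with hN
  set A : Pl g → ℝ := fun w => ∏ y ∈ T, (1 - v y * E.inc D k w y) with hA
  set SS : ℝ := ∑ y ∈ T, ∑ y' ∈ T,
    (if y ≠ y' ∧ y ∉ E.H k ∧ y' ∉ E.H k then
      E.qq2 D k y y' + 3 * E.qq D k y * E.qq D k y' else 0) with hSS
  -- the sum over the players which are not hit
  have hsum : ∑ w, (if w ∈ E.W k ∧ w ∉ F ∧ (∀ l ∈ hits, w ≠ wp l) then 1 / N else 0) * A w =
      (∑ w ∈ Q.filter (fun w => w ∉ F), A w) / N := by
    rw [Finset.sum_div]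
    have h1 : Q.filter (fun w => w ∉ F) = Finset.univ.filter
        (fun w => w ∈ E.W k ∧ w ∉ F ∧ (∀ l ∈ hits, w ≠ wp l)) := by
      ext w
      rw [hQ, Finset.mem_filter, Finset.mem_filter, Finset.mem_filter]
      constructor
      · rintro ⟨⟨h1, h2⟩, h3⟩
        exact ⟨Finset.mem_univ _, h1, h3, h2⟩
      · rintro ⟨-, h1, h3, h2⟩
        exact ⟨⟨h1, h2⟩, h3⟩
    rw [h1, Finset.sum_filter]
    refine Finset.sum_congr rfl fun w _ => ?_
    split_ifs
    · rw [one_div, ← div_eq_inv_mul]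
    · rw [zero_mul]
  have hnorm : ∀ w ∈ Q, ∑ y ∈ T, |v y * E.inc D k w y| ≤ 1 / 200 := by
    intro w hw
    rw [hQ, Finset.mem_filter] at hw
    exact LSlot_norm hG hE hits wp hh hwp hg k w hw.1 hw.2 v hv
  -- lower bound for the product
  have hA99 : ∀ w ∈ Q, 99 / 100 ≤ A w := by
    intro w hw
    have h1 := hnorm w hw
    have h2 := LSlot_prod_sub_one T (fun y => v y * E.inc D k w y) (by linarith)
    have h3 := (abs_le.1 h2).1
    have h4 : A w = ∏ y ∈ T, (1 - v y * E.inc D k w y) := rfl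
    linarith
  -- upper bound for the product
  have hAup : ∀ w ∈ Q, A w ≤ 1 - ∑ y ∈ T, v y * E.inc D k w y + 11 / 20 *
      ∑ y ∈ T, ∑ y' ∈ T, if y ≠ y' then |v y * E.inc D k w y * (v y' * E.inc D k w y')|
        else 0 := by
    intro w hw
    have h1 := hnorm w hw
    have h2 := LSlot_expand (fun y => v y * E.inc D k w y) T (by linarith)
    have h3 := (abs_le.1 h2).2
    have h4 : A w = ∏ y ∈ T, (1 - v y * E.inc D k w y) := rfl
    linarith
  have hTc := LSlot_card_domH hG hE hits wp hh hwp hg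
  rw [← hT] at hTc
  -- singletons
  have hsing : -∑ w ∈ Q, ∑ y ∈ T, v y * E.inc D k w y ≤ 8 * (g : ℝ) ^ 63 := by
    rw [Finset.sum_comm]
    have h1 : ∀ y ∈ T, -∑ w ∈ Q, v y * E.inc D k w y ≤ 4 * ((g : ℝ) ^ 43)⁻¹ * (g : ℝ) ^ 3 := by
      intro y hy
      rw [← Finset.mul_sum]
      refine (neg_le_abs _).trans ?_
      rw [abs_mul]
      exact mul_le_mul (hv y hy) ((LSlot_sum_nonhit k hWk hits wp y).trans hhR) (abs_nonneg _)
        (by positivity)
    rw [← Finset.sum_neg_distrib]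
    refine (Finset.sum_le_sum h1).trans ?_
    rw [Finset.sum_const, nsmul_eq_mul]
    calc (T.card : ℝ) * (4 * ((g : ℝ) ^ 43)⁻¹ * (g : ℝ) ^ 3)
        ≤ 2 * (g : ℝ) ^ 103 * (4 * ((g : ℝ) ^ 43)⁻¹ * (g : ℝ) ^ 3) :=
          mul_le_mul_of_nonneg_right hTc (by positivity)
      _ = 8 * (((g : ℝ) ^ 43)⁻¹ * ((g : ℝ) ^ 43 * (g : ℝ) ^ 63)) := by ring
      _ = 8 * (g : ℝ) ^ 63 := by rw [inv_mul_cancel_left₀ (by positivity)]
  -- pairs
  have hpairs : ∑ w ∈ Q, ∑ y ∈ T, ∑ y' ∈ T,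
      (if y ≠ y' then |v y * E.inc D k w y * (v y' * E.inc D k w y')| else 0) ≤
      16 * ((g : ℝ) ^ 86)⁻¹ * (N * SS) := by
    have h1 : ∑ w ∈ Q, ∑ y ∈ T, ∑ y' ∈ T,
        (if y ≠ y' then |v y * E.inc D k w y * (v y' * E.inc D k w y')| else 0) ≤
        ∑ w ∈ E.W k, ∑ y ∈ T, ∑ y' ∈ T,
        (if y ≠ y' then |v y * E.inc D k w y * (v y' * E.inc D k w y')| else 0) := by
      refine Finset.sum_le_sum_of_subset_of_nonneg (Finset.filter_subset _ _) ?_
      intro w _ _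
      refine Finset.sum_nonneg fun y _ => Finset.sum_nonneg fun y' _ => ?_
      split_ifs
      · exact abs_nonneg _
      · exact le_rfl
    refine h1.trans ?_
    rw [Finset.sum_comm, hSS, Finset.mul_sum, Finset.mul_sum]
    refine Finset.sum_le_sum fun y hy => ?_
    rw [Finset.sum_comm, Finset.mul_sum, Finset.mul_sum]
    refine Finset.sum_le_sum fun y' hy' => ?_
    have hV : |v y| * |v y'| ≤ 16 * ((g : ℝ) ^ 86)⁻¹ := by
      refine (mul_le_mul (hv y hy) (hv y' hy') (abs_nonneg _) (by positivity)).trans ?_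
      have h2 : (g : ℝ) ^ 86 = (g : ℝ) ^ 43 * (g : ℝ) ^ 43 := by rw [← pow_add]
      rw [h2, mul_inv]
      apply le_of_eq
      ring
    by_cases hne : y ≠ y'
    · by_cases hy1 : y ∈ E.H k
      · rw [if_neg (fun h => h.2.1 hy1), mul_zero, mul_zero]
        apply le_of_eq
        refine Finset.sum_eq_zero fun w _ => ?_
        rw [if_pos hne]
        unfold Env.inc
        rw [if_pos hy1, mul_zero, zero_mul, abs_zero]
      · by_cases hy2 : y' ∈ E.H k
        · rw [if_neg (fun h => h.2.2 hy2), mul_zero, mul_zero]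
          apply le_of_eq
          refine Finset.sum_eq_zero fun w _ => ?_
          rw [if_pos hne]
          unfold Env.inc
          rw [if_pos hy2, mul_zero, mul_zero, abs_zero]
        · rw [if_pos ⟨hne, hy1, hy2⟩]
          have h2 : ∀ w ∈ E.W k,
              (if y ≠ y' then |v y * E.inc D k w y * (v y' * E.inc D k w y')| else 0) ≤
              16 * ((g : ℝ) ^ 86)⁻¹ * |E.inc D k w y * E.inc D k w y'| := by
            intro w _
            rw [if_pos hne]
            have h3 : v y * E.inc D k w y * (v y' * E.inc D k w y') =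
                v y * v y' * (E.inc D k w y * E.inc D k w y') := by ring
            rw [h3, abs_mul, abs_mul (v y)]
            exact mul_le_mul_of_nonneg_right hV (abs_nonneg _)
          refine (Finset.sum_le_sum h2).trans ?_
          rw [← Finset.mul_sum]
          exact mul_le_mul_of_nonneg_left (LSlot_pair k hWk y y' hy1 hy2) (by positivity)
    · rw [if_neg (fun h => hne h.1), mul_zero, mul_zero]
      apply le_of_eq
      refine Finset.sum_eq_zero fun w _ => ?_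
      rw [if_neg hne]
  -- sum of the products over all players which are not hit
  have hQle : (Q.card : ℝ) ≤ N := by
    rw [hN, hQ]
    exact_mod_cast Finset.card_le_card (Finset.filter_subset _ _)
  have hSQ : ∑ w ∈ Q, A w ≤ N + 8 * (g : ℝ) ^ 63 +
      11 / 20 * (16 * ((g : ℝ) ^ 86)⁻¹ * (N * SS)) := by
    refine (Finset.sum_le_sum hAup).trans ?_
    rw [Finset.sum_add_distrib, Finset.sum_sub_distrib, Finset.sum_const, nsmul_eq_mul, mul_one,
      ← Finset.mul_sum]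
    linarith
  have hSS0 : 0 ≤ SS := by
    rw [hSS]
    refine Finset.sum_nonneg fun y _ => Finset.sum_nonneg fun y' _ => ?_
    split_ifs
    · have h1 := E.qq_nonneg (D := D) k y
      have h2 := E.qq_nonneg (D := D) k y'
      have h3 : 0 ≤ E.qq2 D k y y' := by
        unfold Env.qq2
        positivity
      positivity
    · exact le_rfl
  -- removal of the forbidden players
  have hsplit := Finset.sum_filter_add_sum_filter_not Q (fun w => w ∉ F) A
  have hrem : 99 / 100 * (((F ∩ E.W k).card : ℝ) - (g : ℝ) ^ 3) ≤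
      ∑ w ∈ Q.filter (fun w => ¬ w ∉ F), A w := by
    have h1 := LSlot_card_F k hits wp F
    rw [← hQ] at h1
    have h2 : ∑ _w ∈ Q.filter (fun w => ¬ w ∉ F), (99 / 100 : ℝ) ≤
        ∑ w ∈ Q.filter (fun w => ¬ w ∉ F), A w :=
      Finset.sum_le_sum fun w hw => hA99 w (Finset.mem_filter.1 hw).1
    rw [Finset.sum_const, nsmul_eq_mul] at h2
    linarith
  have hnum := LSlot_num hg hNc
  have hfin : ∑ w ∈ Q.filter (fun w => w ∉ F), A w ≤
      N + (8 * (g : ℝ) ^ 63 + (g : ℝ) ^ 3) + 10 * ((g : ℝ) ^ 86)⁻¹ * SS * N -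
        99 / 100 * ((F ∩ E.W k).card : ℝ) := by
    have h1 : 11 / 20 * (16 * ((g : ℝ) ^ 86)⁻¹ * (N * SS)) ≤
        10 * ((g : ℝ) ^ 86)⁻¹ * SS * N := by
      have h2 : 0 ≤ ((g : ℝ) ^ 86)⁻¹ * (N * SS) := by positivity
      nlinarith
    have h3 : (0 : ℝ) ≤ (g : ℝ) ^ 3 := by positivity
    linarith
  have heps : E.epsk D u X hits wp k = 10 * ((g : ℝ) ^ 86)⁻¹ * SS + ((g : ℝ) ^ 9000)⁻¹ := rfl
  change ∑ w, (if w ∈ E.W k ∧ w ∉ F ∧ (∀ l ∈ hits, w ≠ wp l) then 1 / N else 0) * A w ≤ _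
  rw [hsum, heps]
  calc (∑ w ∈ Q.filter (fun w => w ∉ F), A w) / N
      ≤ (N + (8 * (g : ℝ) ^ 63 + (g : ℝ) ^ 3) + 10 * ((g : ℝ) ^ 86)⁻¹ * SS * N -
        99 / 100 * ((F ∩ E.W k).card : ℝ)) / N := div_le_div_of_nonneg_right hfin hNp.le
    _ = 1 - 99 / 100 * (((F ∩ E.W k).card : ℝ) / N) + 10 * ((g : ℝ) ^ 86)⁻¹ * SS +
        (8 * (g : ℝ) ^ 63 + (g : ℝ) ^ 3) / N := by
        field_simp
        ring
    _ ≤ 1 - 99 / 100 * (((F ∩ E.W k).card : ℝ) / N) +
        (10 * ((g : ℝ) ^ 86)⁻¹ * SS + ((g : ℝ) ^ 9000)⁻¹) := by linarith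

end Pool.Larman
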