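import Pool.Agent.Larman.LSP
import Pool.Agent.Larman.LSlot
import Pool.Agent.Larman.LEps
import Pool.Agent.Larman.L81

/-!
# MP_a9ba8c (Larman, t = 1): Lemma 6
-/

set_option autoImplicit false

open scoped BigOperators Classical

noncomputable section

namespace Pool.Larman

variable {g : ℕ}

private theorem ind_nonneg_LL6 (p : Prop) : 0 ≤ ind p := by unfold ind; split_ifs <;> norm_num

private theorem ind_of_LL6 {p : Prop} (h : p) : ind p = 1 := by unfold ind; rw [if_pos h]

private theorem ind_not_LL6 {p : Prop} (h : ¬ p) : ind p = 0 := by unfold ind; rw [if_neg h]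

private theorem inc_abs_LL6 (E : Env g) (D : Dat g) (k : Fin E.M) (w : Pl g) (y : Un g) :
    |E.inc D k w y| ≤ 1 := by
  unfold Env.inc
  split_ifs with h
  · simp
  · have h1 : 0 ≤ E.qq D k y := by unfold Env.qq; positivity
    have h2 : E.qq D k y ≤ 1 := by
      unfold Env.qq
      refine div_le_one_of_le₀ ?_ (Nat.cast_nonneg _)
      exact_mod_cast Finset.card_le_card (Finset.filter_subset _ _)
    have h3 : ind (y ∈ D.S w) ≤ 1 := by unfold ind; split_ifs <;> norm_num
    have h4 := ind_nonneg_LL6 (y ∈ D.S w)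
    rw [abs_le]
    constructor <;> linarith

/-- centred incidence without the hit slots -/
private def incF_LL6 (E : Env g) (D : Dat g) (hits : Finset (Fin E.M)) (k : Fin E.M) (w : Pl g)
    (y : Un g) : ℝ := if k ∈ hits then 0 else E.inc D k w y

/-- step weights -/
private def pF_LL6 (E : Env g) (hits : Finset (Fin E.M)) (wp : Fin E.M → Pl g)
    (F : Fin E.M → Finset (Pl g)) (k : Fin E.M) (w : Pl g) : ℝ :=
  if k ∈ hits then ind (w = wp k) else
    if w ∈ E.W k ∧ w ∉ F k ∧ (∀ l ∈ hits, w ≠ wp l) then 1 / ((E.W k).card : ℝ) else 0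

private theorem split_LL6 (E : Env g) (D : Dat g) (hits : Finset (Fin E.M))
    (wp : Fin E.M → Pl g) (B : Fin E.M → Pl g) (hB : ∀ k ∈ hits, B k = wp k) (y : Un g) (j : ℕ) :
    ∑ k : Fin E.M, (if k.val < j then incF_LL6 E D hits k (B k) y else 0) =
      E.Dp D B y j - ∑ k ∈ hits, (if k.val < j then E.inc D k (wp k) y else 0) := by
  have h1 : ∑ k ∈ hits, (if k.val < j then E.inc D k (wp k) y else 0) =
      ∑ k : Fin E.M, (if k ∈ hits then (if k.val < j then E.inc D k (wp k) y else 0) else 0) := by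
    rw [Finset.sum_ite_mem, Finset.univ_inter]
  rw [h1]
  unfold Env.Dp
  rw [← Finset.sum_sub_distrib]
  refine Finset.sum_congr rfl fun k _ => ?_
  unfold incF_LL6
  by_cases hk : k ∈ hits
  · rw [if_pos hk, if_pos hk, hB k hk]
    split_ifs <;> simp
  · rw [if_neg hk, if_neg hk, sub_zero]

private theorem split'_LL6 (E : Env g) (D : Dat g) (hits : Finset (Fin E.M))
    (wp : Fin E.M → Pl g) (B : Fin E.M → Pl g) (hB : ∀ k ∈ hits, B k = wp k) (y : Un g) :
    E.beta D B y = E.beta0 D hits wp y - ((g : ℝ) ^ 43)⁻¹ *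
      ∑ k : Fin E.M, incF_LL6 E D hits k (B k) y := by
  have h1 := split_LL6 E D hits wp B hB y E.M
  have h2 : ∑ k : Fin E.M, (if k.val < E.M then incF_LL6 E D hits k (B k) y else 0) =
      ∑ k : Fin E.M, incF_LL6 E D hits k (B k) y :=
    Finset.sum_congr rfl fun k _ => if_pos k.2
  have h3 : ∑ k ∈ hits, (if k.val < E.M then E.inc D k (wp k) y else 0) =
      ∑ k ∈ hits, E.inc D k (wp k) y := Finset.sum_congr rfl fun k _ => if_pos k.2
  rw [h2, h3] at h1
  unfold Env.beta Env.beta0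
  rw [h1]
  ring

private theorem stop_LL6 {D : Dat g} {u : Pl g} {X : Finset (Un g)} {E : Env g}
    (hg : (10 : ℝ) ≤ g) (hE : E.OK D u X) {hits : Finset (Fin E.M)} {wp : Fin E.M → Pl g}
    (hcard : hits.card ≤ g ^ 3) {B : Fin E.M → Pl g} (hBB : E.BB D u X B)
    (hB : ∀ k ∈ hits, B k = wp k) {y : Un g} (hy : y ∈ D.Mu u X) {j : ℕ} (hj : j ≤ E.M) :
    |E.beta0 D hits wp y - ((g : ℝ) ^ 43)⁻¹ *
      ∑ k : Fin E.M, (if k.val < j then incF_LL6 E D hits k (B k) y else 0)| ≤ 1 / 4 := by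
  have hg0 : (0 : ℝ) < g := by linarith
  have hg1 : (1 : ℝ) ≤ g := by linarith
  rw [split_LL6 E D hits wp B hB y j]
  unfold Env.beta0
  set e : ℝ := ((g : ℝ) ^ 43)⁻¹ with he
  have he0 : 0 < e := by positivity
  have heg : e * (g : ℝ) ^ 43 = 1 := inv_mul_cancel₀ (by positivity)
  have h1 := hBB.b1 y hy j hj
  have h2 := hE.r0 y
  have hc : (hits.card : ℝ) ≤ (g : ℝ) ^ 3 := by exact_mod_cast hcard
  have h3 : |∑ k ∈ hits, (if k.val < j then E.inc D k (wp k) y else 0)| ≤ (g : ℝ) ^ 3 := by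
    refine (Finset.abs_sum_le_sum_abs _ _).trans ?_
    refine (Finset.sum_le_card_nsmul _ _ 1 fun k _ => ?_).trans ?_
    · split_ifs
      · exact inc_abs_LL6 E D _ _ _
      · simp
    · rw [nsmul_eq_mul, mul_one]; exact hc
  have h4 : |∑ k ∈ hits, E.inc D k (wp k) y| ≤ (g : ℝ) ^ 3 := by
    refine (Finset.abs_sum_le_sum_abs _ _).trans ?_
    refine (Finset.sum_le_card_nsmul _ _ 1 fun k _ => inc_abs_LL6 E D _ _ _).trans ?_
    rw [nsmul_eq_mul, mul_one]; exact hc
  have h5 : |e * E.Dp D B y j| ≤ 1 / 20 := by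
    rw [abs_mul, abs_of_pos he0]
    calc e * |E.Dp D B y j| ≤ e * ((g : ℝ) ^ 43 / 20) := mul_le_mul_of_nonneg_left h1 he0.le
      _ = (e * (g : ℝ) ^ 43) / 20 := by ring
      _ = 1 / 20 := by rw [heg]
  have h40 : e * (g : ℝ) ^ 3 ≤ 1 / 1000 := by
    have h6 : e * (g : ℝ) ^ 3 * (g : ℝ) ^ 40 = 1 := by
      rw [mul_assoc, ← pow_add]; exact heg
    have h7 : (1000 : ℝ) ≤ (g : ℝ) ^ 40 := by
      calc (1000 : ℝ) = 10 ^ 3 := by norm_num
        _ ≤ (g : ℝ) ^ 3 := pow_le_pow_left₀ (by norm_num) hg 3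
        _ ≤ (g : ℝ) ^ 40 := pow_le_pow_right₀ hg1 (by norm_num)
    have h8 : 0 ≤ e * (g : ℝ) ^ 3 := by positivity
    nlinarith
  have h6 : |e * ∑ k ∈ hits, (if k.val < j then E.inc D k (wp k) y else 0)| ≤ 1 / 1000 := by
    rw [abs_mul, abs_of_pos he0]
    exact (mul_le_mul_of_nonneg_left h3 he0.le).trans h40
  have h7 : |e * ∑ k ∈ hits, E.inc D k (wp k) y| ≤ 1 / 1000 := by
    rw [abs_mul, abs_of_pos he0]
    exact (mul_le_mul_of_nonneg_left h4 he0.le).trans h40
  have h8 : e ≤ 1 / 1000 := by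
    have h9 : e ≤ e * (g : ℝ) ^ 3 := le_mul_of_one_le_right he0.le (one_le_pow₀ hg1)
    linarith
  have h9 : (8 : ℝ) / (g : ℝ) ^ 2 ≤ 8 / 100 := by
    refine div_le_div_of_nonneg_left (by norm_num) (by norm_num) ?_
    nlinarith
  rw [abs_le] at h5 h6 h7 ⊢
  rw [mul_sub]
  constructor
  · linarith [h2.1, h5.1, h5.2, h6.1, h6.2, h7.1, h7.2]
  · linarith [h2.1, h2.2, h5.1, h5.2, h6.1, h6.2, h7.1, h7.2]

private theorem term_LL6 {D : Dat g} {u : Pl g} {X : Finset (Un g)} {E : Env g}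
    {hits : Finset (Fin E.M)} {wp : Fin E.M → Pl g} {F : Fin E.M → Finset (Pl g)}
    {B : Fin E.M → Pl g} (hBB : E.BB D u X B)
    (hB : ∀ k ∈ hits, B k = wp k) (hF : ∀ k, k ∉ hits → B k ∉ F k) :
    E.slotWt B = (∏ k ∈ hits, 1 / ((E.W k).card : ℝ)) * ∏ k, pF_LL6 E hits wp F k (B k) := by
  have h0 : (∏ k ∈ hits, 1 / ((E.W k).card : ℝ)) =
      ∏ k : Fin E.M, (if k ∈ hits then 1 / ((E.W k).card : ℝ) else 1) := by
    rw [Finset.prod_ite_mem, Finset.univ_inter]
  rw [h0]
  unfold Env.slotWt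
  rw [← Finset.prod_mul_distrib]
  refine Finset.prod_congr rfl fun k _ => ?_
  rw [if_pos (hBB.mem k)]
  unfold pF_LL6
  by_cases hk : k ∈ hits
  · rw [if_pos hk, if_pos hk, ind_of_LL6 (hB k hk), mul_one]
  · rw [if_neg hk, if_neg hk, one_mul, if_pos]
    refine ⟨hBB.mem k, hF k hk, fun l hl h => hk ?_⟩
    rw [← hB l hl] at h
    rw [hBB.inj h]
    exact hl

/-- LEMMA 6. PROOF. e = g^-43, T = domH. If no B in BB has B k = wp k for all k in hits, the left
side is 0
and the right side is >= 0. Otherwise fix such a B0: so wp is injective on hits and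
GG (Z u (wp k)) (Z u (wp l)) <= g^67 for k, l in hits (b4), and |beta0 y| <= 1/4 on T (see (2) with
j = 0).
(1) For B with B k = wp k on hits: beta B y = beta0 y - e * sum_(k not in hits) inc k (B k) y.
 Put p k w = if k in hits then ind (w = wp k) else (if w in W k, w not in F k, w <> wp l for all l
 in hits then
 1/|W k| else 0), inc' k = 0 for k in hits, inc' k = inc k otherwise. For B in BB:
 slotWt B * ind(hits) * ind(B k not in F k) = prod_(k in hits) 1/|W k| * prod_k p k (B k)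
 (injectivity of B).
(2) Stop condition: for B in BB with B = wp on hits, y in T and j <= M,
 beta0 y - e sum_(k < j) inc' k (B k) y = e + raise y - e (Dp B y j - sum_(k in hits, k < j) inc k
 (wp k) y) -
 e sum_(k in hits) inc k (wp k) y, so its absolute value is at most e + 8/g^2 + 1/20 + 2 e g^3 <=
 1/4
 (b1; |inc| <= 1).
(3) stopped_prod with c k = 1 for k in hits and c k = 1 - .99 |F k cap W k|/|W k| + epsk k
otherwise (one_slot;
 for k in hits the hypothesis H is an equality). Since 1 - .99 x >= 1/100 for x <= 1: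
 c k <= (1 - .99 x_k) exp(100 epsk k); epsk_sum: the product of the exponentials is <= exp(1/10) <=
 3/2.
(4) prod81 for the product over T of (1 + 2 ε beta0).
The factors prod (1 + 2 ε beta) are nonnegative on BB (|beta| <= 1/4), so replacing ind BB by the
stop
indicator is an upper bound (the terms are >= 0 whenever the stop condition holds). -/
theorem lem6 : ∀ᶠ (g : ℕ) in Filter.atTop, ∀ D : Dat g, Geo D.S →
    ∀ (u : Pl g) (X : Finset (Un g)) (E : Env g), E.OK D u X →
    ∀ (hits : Finset (Fin E.M)) (wp : Fin E.M → Pl g) (F : Fin E.M → Finset (Pl g))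
      (ε : Un g → ℝ), hits.card ≤ g ^ 3 → (∀ k ∈ hits, wp k ∈ E.W k) → (∀ y, |ε y| ≤ 1) →
    ∑ B : Fin E.M → Pl g, E.slotWt B * ind (E.BB D u X B) * ind (∀ k ∈ hits, B k = wp k) *
        ind (∀ k, k ∉ hits → B k ∉ F k) *
        ∏ y ∈ E.domH D u X hits wp, (1 + 2 * ε y * E.beta D B y) ≤
      3 / 2 * Real.exp (20 * hits.card / g) * (∏ k ∈ hits, 1 / ((E.W k).card : ℝ)) *
        ∏ k ∈ Finset.univ \ hits, (1 - 99 / 100 * (((F k ∩ E.W k).card : ℝ) / (E.W k).card)) := by
  filter_upwards [one_slot, epsk_sum, prod81, Filter.eventually_ge_atTop 10] with g h1 h2 h3 hgn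
  intro D hgeo u X E hE hits wp F ε hcard hmem hε
  have hg : (10 : ℝ) ≤ g := by exact_mod_cast hgn
  have hg0 : (0 : ℝ) < g := by linarith
  have hg1 : (1 : ℝ) ≤ g := by linarith
  have hx0 : ∀ k, 0 ≤ (((F k ∩ E.W k).card : ℝ) / (E.W k).card) := fun k => by positivity
  have hx1 : ∀ k, (((F k ∩ E.W k).card : ℝ) / (E.W k).card) ≤ 1 := fun k => by
    refine div_le_one_of_le₀ ?_ (Nat.cast_nonneg _)
    exact_mod_cast Finset.card_le_card Finset.inter_subset_right
  have hP0 : 0 ≤ ∏ k ∈ hits, 1 / ((E.W k).card : ℝ) := Finset.prod_nonneg fun k _ => by positivity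
  have hQ0 : 0 ≤ ∏ k ∈ Finset.univ \ hits,
      (1 - 99 / 100 * (((F k ∩ E.W k).card : ℝ) / (E.W k).card)) :=
    Finset.prod_nonneg fun k _ => by linarith [hx1 k]
  by_cases hB0 : ∃ B0, E.BB D u X B0 ∧ ∀ k ∈ hits, B0 k = wp k
  swap
  · rw [Finset.sum_eq_zero]
    · positivity
    · intro B _
      by_cases hBB : E.BB D u X B
      · have h4 : ¬ ∀ k ∈ hits, B k = wp k := fun h => hB0 ⟨B, hBB, h⟩
        rw [ind_not_LL6 h4]
        simp
      · rw [ind_not_LL6 hBB]
        simp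
  obtain ⟨B0, hBB0, hB0w⟩ := hB0
  have hinj : ∀ k ∈ hits, ∀ l ∈ hits, wp k = wp l → k = l := by
    intro k hk l hl h
    rw [← hB0w k hk, ← hB0w l hl] at h
    exact hBB0.inj h
  have hGG : ∀ k ∈ hits, ∀ l ∈ hits, E.GG (D.Z u (wp k)) (D.Z u (wp l)) ≤ (g : ℝ) ^ 67 := by
    intro k hk l hl
    rw [← hB0w k hk, ← hB0w l hl]
    exact hBB0.b4 k l
  have hTMu : ∀ y ∈ E.domH D u X hits wp, y ∈ D.Mu u X := fun y hy =>
    (Finset.mem_inter.1 hy).1
  have hβ0 : ∀ y ∈ E.domH D u X hits wp, |E.beta0 D hits wp y| ≤ 1 / 4 := by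
    intro y hy
    have h4 := stop_LL6 hg hE hcard hBB0 hB0w (hTMu y hy) (Nat.zero_le E.M)
    have h5 : ∑ k : Fin E.M, (if k.val < 0 then incF_LL6 E D hits k (B0 k) y else 0) = 0 :=
      Finset.sum_eq_zero fun k _ => if_neg (Nat.not_lt_zero _)
    rw [h5, mul_zero, sub_zero] at h4
    exact h4
  set e : ℝ := ((g : ℝ) ^ 43)⁻¹ with he
  have he0 : 0 ≤ e := by positivity
  have he1 : e ≤ 1 / 4 := by
    rw [he]
    have h4 : (4 : ℝ) ≤ (g : ℝ) ^ 43 := by
      calc (4 : ℝ) ≤ g := by linarith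
        _ = (g : ℝ) ^ 1 := (pow_one _).symm
        _ ≤ (g : ℝ) ^ 43 := pow_le_pow_right₀ hg1 (by norm_num)
    rw [inv_le_comm₀ (by positivity) (by norm_num)]
    linarith
  set c : Fin E.M → ℝ := fun k => if k ∈ hits then 1 else
    1 - 99 / 100 * (((F k ∩ E.W k).card : ℝ) / (E.W k).card) + E.epsk D u X hits wp k with hc
  have heps : ∀ k, 0 ≤ E.epsk D u X hits wp k := fun k => epsk_nonneg E D u X hits wp k
  have hc0 : ∀ k, 0 ≤ c k := by
    intro k
    rw [hc]
    dsimp only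
    split_ifs
    · norm_num
    · linarith [hx1 k, heps k]
  have hp0 : ∀ k w, 0 ≤ pF_LL6 E hits wp F k w := by
    intro k w
    unfold pF_LL6
    split_ifs
    · exact ind_nonneg_LL6 _
    · positivity
    · exact le_rfl
  have hinc : ∀ (k : Fin E.M) (w : Pl g) (y : Un g), |incF_LL6 E D hits k w y| ≤ 1 := by
    intro k w y
    unfold incF_LL6
    split_ifs
    · simp
    · exact inc_abs_LL6 E D k w y
  have hH : ∀ k, ∀ v : Un g → ℝ, (∀ y ∈ E.domH D u X hits wp, |v y| ≤ 4 * e) →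
      ∑ w, pF_LL6 E hits wp F k w *
        ∏ y ∈ E.domH D u X hits wp, (1 - v y * incF_LL6 E D hits k w y) ≤ c k := by
    intro k v hv
    by_cases hk : k ∈ hits
    · have h4 : c k = 1 := if_pos hk
      rw [h4]
      have h5 : ∀ w, pF_LL6 E hits wp F k w *
          ∏ y ∈ E.domH D u X hits wp, (1 - v y * incF_LL6 E D hits k w y) =
          if w = wp k then 1 else 0 := by
        intro w
        unfold pF_LL6 incF_LL6
        simp only [if_pos hk, mul_zero, sub_zero, Finset.prod_const_one, mul_one]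
        unfold ind
        congr
      simp only [h5]
      rw [Finset.sum_ite_eq' Finset.univ (wp k) (fun _ => (1 : ℝ)), if_pos (Finset.mem_univ _)]
    · have h4 : c k = 1 - 99 / 100 * (((F k ∩ E.W k).card : ℝ) / (E.W k).card) +
          E.epsk D u X hits wp k := if_neg hk
      rw [h4]
      have h5 := h1 D hgeo u X E hE hits wp hcard hmem k (F k) v hv
      refine le_trans (le_of_eq ?_) h5
      refine Finset.sum_congr rfl fun w _ => ?_
      unfold pF_LL6 incF_LL6
      simp only [if_neg hk]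
  have hstop := stopped_prod E.M (E.domH D u X hits wp) ε (E.beta0 D hits wp) hε e he0 he1 hβ0
    (pF_LL6 E hits wp F) hp0 (incF_LL6 E D hits) hinc c hc0 hH
  have h81 := h3 D hgeo u X E hE hits wp hcard hmem hinj hβ0 ε hε
  have hesum := h2 D hgeo u X E hE hits wp hcard hmem hGG
  -- the product of the constants
  have hcprod : ∏ k, c k ≤ 3 / 2 * ∏ k ∈ Finset.univ \ hits,
      (1 - 99 / 100 * (((F k ∩ E.W k).card : ℝ) / (E.W k).card)) := by
    have h4 : ∏ k, c k = ∏ k ∈ Finset.univ \ hits,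
        (1 - 99 / 100 * (((F k ∩ E.W k).card : ℝ) / (E.W k).card) + E.epsk D u X hits wp k) := by
      rw [← Finset.prod_sdiff (Finset.subset_univ hits)]
      have h5 : ∏ k ∈ hits, c k = 1 := Finset.prod_eq_one fun k hk => if_pos hk
      rw [h5, mul_one]
      exact Finset.prod_congr rfl fun k hk => if_neg (Finset.mem_sdiff.1 hk).2
    rw [h4]
    have h5 : ∀ k ∈ Finset.univ \ hits,
        (1 - 99 / 100 * (((F k ∩ E.W k).card : ℝ) / (E.W k).card) + E.epsk D u X hits wp k) ≤
        (1 - 99 / 100 * (((F k ∩ E.W k).card : ℝ) / (E.W k).card)) *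
          Real.exp (100 * E.epsk D u X hits wp k) := by
      intro k _
      have h6 := Real.add_one_le_exp (100 * E.epsk D u X hits wp k)
      have h7 := hx1 k
      have h8 := heps k
      have h9 : (1 : ℝ) / 100 ≤ 1 - 99 / 100 * (((F k ∩ E.W k).card : ℝ) / (E.W k).card) := by
        linarith
      calc _ ≤ (1 - 99 / 100 * (((F k ∩ E.W k).card : ℝ) / (E.W k).card)) *
            (100 * E.epsk D u X hits wp k + 1) := by nlinarith
        _ ≤ _ := mul_le_mul_of_nonneg_left h6 (by linarith)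
    refine (Finset.prod_le_prod (fun k _ => by linarith [hx1 k, heps k]) h5).trans ?_
    rw [Finset.prod_mul_distrib, ← Real.exp_sum, mul_comm]
    refine mul_le_mul_of_nonneg_right ?_ hQ0
    have h6 : ∑ k ∈ Finset.univ \ hits, 100 * E.epsk D u X hits wp k ≤ 1 / 10 := by
      rw [← Finset.mul_sum]
      have h7 : ∑ k ∈ Finset.univ \ hits, E.epsk D u X hits wp k ≤
          ∑ k, E.epsk D u X hits wp k :=
        Finset.sum_le_sum_of_subset_of_nonneg (Finset.subset_univ _) fun k _ _ => heps k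
      linarith
    refine (Real.exp_le_exp.2 h6).trans ?_
    have h7 := Real.exp_bound_div_one_sub_of_interval (x := 1 / 10) (by norm_num) (by norm_num)
    refine h7.trans ?_
    norm_num
  -- the terms
  have hterm : ∀ B : Fin E.M → Pl g,
      E.slotWt B * ind (E.BB D u X B) * ind (∀ k ∈ hits, B k = wp k) *
        ind (∀ k, k ∉ hits → B k ∉ F k) *
        ∏ y ∈ E.domH D u X hits wp, (1 + 2 * ε y * E.beta D B y) ≤
      (∏ k ∈ hits, 1 / ((E.W k).card : ℝ)) * ((∏ k, pF_LL6 E hits wp F k (B k)) *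
        ind (∀ j : ℕ, j ≤ E.M → ∀ y ∈ E.domH D u X hits wp,
          |E.beta0 D hits wp y - e * ∑ k : Fin E.M,
            (if k.val < j then incF_LL6 E D hits k (B k) y else 0)| ≤ 1 / 4) *
        ∏ y ∈ E.domH D u X hits wp, (1 + 2 * ε y * (E.beta0 D hits wp y -
          e * ∑ k, incF_LL6 E D hits k (B k) y))) := by
    intro B
    by_cases hcond : E.BB D u X B ∧ (∀ k ∈ hits, B k = wp k) ∧ ∀ k, k ∉ hits → B k ∉ F k
    · obtain ⟨hBB, hBw, hBF⟩ := hcond
      have hst : ∀ j : ℕ, j ≤ E.M → ∀ y ∈ E.domH D u X hits wp,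
          |E.beta0 D hits wp y - e * ∑ k : Fin E.M,
            (if k.val < j then incF_LL6 E D hits k (B k) y else 0)| ≤ 1 / 4 :=
        fun j hj y hy => stop_LL6 hg hE hcard hBB hBw (hTMu y hy) hj
      rw [ind_of_LL6 hBB, ind_of_LL6 hBw, ind_of_LL6 hBF, ind_of_LL6 hst, term_LL6 hBB hBw hBF]
      have h4 : ∀ y, E.beta D B y = E.beta0 D hits wp y -
          e * ∑ k, incF_LL6 E D hits k (B k) y := fun y => split'_LL6 E D hits wp B hBw y
      simp only [h4]
      refine le_of_eq ?_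
      ring
    · have h4 : ind (E.BB D u X B) * ind (∀ k ∈ hits, B k = wp k) *
          ind (∀ k, k ∉ hits → B k ∉ F k) = 0 := by
        by_cases h5 : E.BB D u X B
        · by_cases h6 : ∀ k ∈ hits, B k = wp k
          · have h7 : ¬ ∀ k, k ∉ hits → B k ∉ F k := fun h => hcond ⟨h5, h6, h⟩
            rw [ind_not_LL6 h7, mul_zero]
          · rw [ind_not_LL6 h6, mul_zero, zero_mul]
        · rw [ind_not_LL6 h5, zero_mul, zero_mul]
      have h5 : E.slotWt B * ind (E.BB D u X B) * ind (∀ k ∈ hits, B k = wp k) *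
          ind (∀ k, k ∉ hits → B k ∉ F k) *
          ∏ y ∈ E.domH D u X hits wp, (1 + 2 * ε y * E.beta D B y) =
          E.slotWt B * (ind (E.BB D u X B) * ind (∀ k ∈ hits, B k = wp k) *
          ind (∀ k, k ∉ hits → B k ∉ F k)) *
          ∏ y ∈ E.domH D u X hits wp, (1 + 2 * ε y * E.beta D B y) := by ring
      rw [h5, h4, mul_zero, zero_mul]
      refine mul_nonneg hP0 ?_
      by_cases hst : ∀ j : ℕ, j ≤ E.M → ∀ y ∈ E.domH D u X hits wp,
          |E.beta0 D hits wp y - e * ∑ k : Fin E.M,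
            (if k.val < j then incF_LL6 E D hits k (B k) y else 0)| ≤ 1 / 4
      · rw [ind_of_LL6 hst, mul_one]
        refine mul_nonneg (Finset.prod_nonneg fun k _ => hp0 k _)
          (Finset.prod_nonneg fun y hy => ?_)
        have h6 := hst E.M le_rfl y hy
        have h7 : ∑ k : Fin E.M, (if k.val < E.M then incF_LL6 E D hits k (B k) y else 0) =
            ∑ k : Fin E.M, incF_LL6 E D hits k (B k) y :=
          Finset.sum_congr rfl fun k _ => if_pos k.2
        rw [h7] at h6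
        have h8 : |ε y * (E.beta0 D hits wp y - e * ∑ k, incF_LL6 E D hits k (B k) y)| ≤
            1 * (1 / 4) := by
          rw [abs_mul]
          exact mul_le_mul (hε y) h6 (abs_nonneg _) (by norm_num)
        rw [abs_le] at h8
        have h9 : 2 * ε y * (E.beta0 D hits wp y - e * ∑ k, incF_LL6 E D hits k (B k) y) =
          2 * (ε y * (E.beta0 D hits wp y - e * ∑ k, incF_LL6 E D hits k (B k) y)) := by ring
        rw [h9]
        linarith [h8.1]
      · rw [ind_not_LL6 hst, mul_zero, zero_mul]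
  refine (Finset.sum_le_sum fun B _ => hterm B).trans ?_
  rw [← Finset.mul_sum]
  have hT0 : 0 ≤ ∏ y ∈ E.domH D u X hits wp, (1 + 2 * ε y * E.beta0 D hits wp y) := by
    refine Finset.prod_nonneg fun y hy => ?_
    have h8 : |ε y * E.beta0 D hits wp y| ≤ 1 * (1 / 4) := by
      rw [abs_mul]
      exact mul_le_mul (hε y) (hβ0 y hy) (abs_nonneg _) (by norm_num)
    rw [abs_le] at h8
    have h9 : 2 * ε y * E.beta0 D hits wp y = 2 * (ε y * E.beta0 D hits wp y) := by ring
    rw [h9]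
    linarith [h8.1]
  have hfin : (∏ y ∈ E.domH D u X hits wp, (1 + 2 * ε y * E.beta0 D hits wp y)) * ∏ k, c k ≤
      Real.exp (20 * hits.card / g) * (3 / 2 * ∏ k ∈ Finset.univ \ hits,
      (1 - 99 / 100 * (((F k ∩ E.W k).card : ℝ) / (E.W k).card))) :=
    mul_le_mul h81 hcprod (Finset.prod_nonneg fun k _ => hc0 k) (Real.exp_pos _).le
  refine (mul_le_mul_of_nonneg_left (hstop.trans hfin) hP0).trans (le_of_eq ?_)
  ring

end Pool.Larman
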