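import Pool.Agent.Larman.LInner
import Pool.Agent.Larman.LL6

/-!
# MP_a9ba8c (Larman, t = 1): weight of a state of the class induction
-/

set_option autoImplicit false

open scoped BigOperators Classical

noncomputable section

namespace Pool.Larman

variable {g : ℕ}

/-- the biases are small for good slot vectors: e + 8/g^2 + 1/20 -/
theorem beta_le : ∀ᶠ (g : ℕ) in Filter.atTop, ∀ D : Dat g,
    ∀ (u : Pl g) (X : Finset (Un g)) (E : Env g), E.OK D u X →
    ∀ B : Fin E.M → Pl g, E.BB D u X B → ∀ y ∈ D.Mu u X, |E.beta D B y| ≤ 1 / 10 := by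
  filter_upwards [Filter.eventually_ge_atTop 20] with g hg D u X E hE B hB y hy
  have hg20 : (20 : ℝ) ≤ g := by exact_mod_cast hg
  have hg0 : (0 : ℝ) < g := by linarith
  have h2 : (400 : ℝ) ≤ (g : ℝ) ^ 2 := by nlinarith
  have h43 : (400 : ℝ) ≤ (g : ℝ) ^ 43 :=
    h2.trans (pow_le_pow_right₀ (by linarith) (by norm_num))
  have e1 : ((g : ℝ) ^ 43)⁻¹ ≤ 1 / 400 := by
    rw [one_div]
    exact inv_anti₀ (by norm_num) h43
  have e2 : 8 / (g : ℝ) ^ 2 ≤ 8 / 400 := by gcongr
  have e3 := hE.r0 y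
  have e4 := abs_le.1 (hB.b1 y hy E.M le_rfl)
  have e5 : (0 : ℝ) < ((g : ℝ) ^ 43)⁻¹ := by positivity
  have e6 : ((g : ℝ) ^ 43)⁻¹ * ((g : ℝ) ^ 43 / 20) = 1 / 20 := by
    field_simp
  have e7 : ((g : ℝ) ^ 43)⁻¹ * E.Dp D B y E.M ≤ 1 / 20 := by
    rw [← e6]
    exact mul_le_mul_of_nonneg_left e4.2 e5.le
  have e8 : -(1 / 20) ≤ ((g : ℝ) ^ 43)⁻¹ * E.Dp D B y E.M := by
    rw [← e6, ← mul_neg]
    exact mul_le_mul_of_nonneg_left e4.1 e5.le
  unfold Env.beta
  rw [abs_le]
  constructor <;> linarith [e3.1, e3.2]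

/-- the size of the random set does not depend on the bits of the blocks (card_real_kinds: number of
heads in Mu, number of free blocks, number of heads in Nu) -/
theorem size_dep (D : Dat g) (u : Pl g) (X : Finset (Un g)) (t t' : Un g → Bool)
    (h : ∀ y, y ∉ D.Bu u X → t y = t' y) :
    (real (D.trA u X t)).card = (real (D.trA u X t')).card := by
  have h0 : ∀ y : Un g, y.1 ≠ 1 → D.trA u X t y = D.trA u X t' y := by
    intro y hy
    have h1 : y ∉ D.Bu u X := by
      intro h2
      unfold Dat.Bu kind at h2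
      exact hy (Finset.mem_filter.1 (Finset.mem_sdiff.1 h2).1).2
    unfold Dat.trA
    rw [h y h1]
  rw [card_real_kinds, card_real_kinds]
  congr 1
  · congr 1
    · congr 1
      refine Finset.filter_congr fun y _ => and_congr_right fun h1 => ?_
      rw [h0 y (by rw [h1]; decide)]
    · congr 1
      refine Finset.filter_congr fun y _ => and_congr_right fun _ => ?_
      unfold Dat.trA
      by_cases hy : y ∈ D.S u \ X
      · rw [if_pos hy, if_pos hy]
        simp
      · rw [if_neg hy, if_neg hy]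
  · congr 1
    refine Finset.filter_congr fun y _ => and_congr_right fun h1 => ?_
    rw [h0 y (by rw [h1]; decide)]

/-- number of common units of two players -/
private theorem LHist_Z_card {D : Dat g} (hD : Geo D.S) {u w : Pl g} (h : u ≠ w) :
    (((D.Z u w).card : ℕ) : ℝ) ≤ 3 * ((g : ℝ) ^ 100 + (g : ℝ) ^ 51) := by
  have h1 : (D.Z u w).card = ∑ b : Fin 3, (kind b (D.Z u w)).card :=
    Finset.card_eq_sum_card_fiberwise (f := fun y : Un g => y.1) (t := Finset.univ)
      (fun _ _ => Finset.mem_coe.2 (Finset.mem_univ _))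
  have h2 : ∀ b : Fin 3, ((kind b (D.Z u w)).card : ℝ) ≤ (g : ℝ) ^ 100 + (g : ℝ) ^ 51 := by
    intro b
    have := (abs_le.1 (hD.g1z u w h b)).2
    unfold Dat.Z
    linarith
  rw [h1]
  push_cast
  rw [Fin.sum_univ_three]
  linarith [h2 0, h2 1, h2 2]

/-- domains of admissible states are small: X and at most g^3 zones of at most 3 (g^100 + g^51) units;
so the pattern of an admissible state is admissible (PatOK) and lies over X -/
theorem patOK_of_staOK : ∀ᶠ (g : ℕ) in Filter.atTop, ∀ D : Dat g, Geo D.S →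
    ∀ (u : Pl g) (X : Finset (Un g)) (E : Env g), E.OK D u X →
    ∀ st : Sta g E.M, E.StaOK D u X st → D.PatOK u st.s ∧ Over X st.s := by
  filter_upwards [Filter.eventually_ge_atTop 20] with g hg D hD u X E hE st hst
  have hg20 : (20 : ℝ) ≤ g := by exact_mod_cast hg
  have hg0 : (0 : ℝ) < g := by linarith
  have hg1 : (1 : ℝ) ≤ g := by linarith
  refine ⟨⟨?_, ?_, hst.none⟩, ?_, hst.onX⟩
  · rw [hst.dom]
    refine Finset.union_subset hE.XS ?_
    intro y hy
    obtain ⟨k, _, hk⟩ := Finset.mem_biUnion.1 hy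
    unfold Dat.Z at hk
    exact (Finset.mem_inter.1 hk).1
  · have h1 : st.s.dom.card ≤ X.card + ∑ k ∈ st.hits, (D.Z u (st.wp k)).card := by
      rw [hst.dom]
      exact (Finset.card_union_le _ _).trans (Nat.add_le_add_left Finset.card_biUnion_le _)
    have h2 : ((st.s.dom.card : ℕ) : ℝ) ≤
        (X.card : ℝ) + ∑ k ∈ st.hits, ((D.Z u (st.wp k)).card : ℝ) := by exact_mod_cast h1
    have h3 : ∑ k ∈ st.hits, ((D.Z u (st.wp k)).card : ℝ) ≤
        (st.hits.card : ℝ) * (3 * ((g : ℝ) ^ 100 + (g : ℝ) ^ 51)) := by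
      rw [← nsmul_eq_mul]
      refine Finset.sum_le_card_nsmul _ _ _ fun k hk => ?_
      exact LHist_Z_card hD (hE.W_ne k _ (hst.mem k hk)).symm
    have h4 : ((st.hits.card : ℕ) : ℝ) ≤ (g : ℝ) ^ 3 := by exact_mod_cast hst.card
    have h5 : (g : ℝ) ^ 51 ≤ (g : ℝ) ^ 100 := pow_le_pow_right₀ hg1 (by norm_num)
    have h6 : (st.hits.card : ℝ) * (3 * ((g : ℝ) ^ 100 + (g : ℝ) ^ 51)) ≤
        (g : ℝ) ^ 3 * (6 * (g : ℝ) ^ 100) := by
      refine mul_le_mul h4 (by linarith) (by positivity) (by positivity)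
    have h7 : (g : ℝ) ^ 3 * (6 * (g : ℝ) ^ 100) = 6 * (g : ℝ) ^ 103 := by
      rw [mul_left_comm, ← pow_add]
    have h8 : (g : ℝ) ^ 101 ≤ (g : ℝ) ^ 103 := pow_le_pow_right₀ hg1 (by norm_num)
    have h9 : (20 : ℝ) * (g : ℝ) ^ 103 ≤ (g : ℝ) ^ 104 := by
      have : (g : ℝ) ^ 104 = (g : ℝ) * (g : ℝ) ^ 103 := by ring
      rw [this]
      exact mul_le_mul_of_nonneg_right hg20 (by positivity)
    have h10 : 0 ≤ (g : ℝ) ^ 103 := by positivity
    linarith [hE.Xcard]
  · rw [hst.dom]
    exact Finset.subset_union_left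

/-- the indicator is at most one -/
private theorem lhist_ind_le (p : Prop) : ind p ≤ 1 := by
  unfold ind; split_ifs <;> norm_num

private theorem lhist_ind_nonneg (p : Prop) : 0 ≤ ind p := by
  unfold ind; split_ifs <;> norm_num

private theorem lhist_ind_and (p q : Prop) : ind (p ∧ q) = ind p * ind q := by
  unfold ind
  by_cases hp : p <;> by_cases hq : q <;> simp [hp, hq]

private theorem lhist_xi (D : Dat g) (u w : Pl g) (T : Tr g) :
    0 ≤ D.xi u w T ∧ D.xi u w T ≤ (hM g : ℝ) := by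
  unfold Dat.xi
  split_ifs
  · exact ⟨Nat.cast_nonneg _, le_rfl⟩
  · exact ⟨le_rfl, Nat.cast_nonneg _⟩

/-- the factor of a unit -/
private theorem lhist_cwf (Ms Y : Finset (Un g)) (β : Un g → ℝ) (b : Un g → Bool) :
    ∏ y ∈ Y, cwf Ms β y (b y) = (1 / 2 : ℝ) ^ Y.card *
      ∏ y ∈ Ms ∩ Y, (1 + 2 * (if b y = true then (1 : ℝ) else -1) * β y) := by
  have h1 : ∀ y, cwf Ms β y (b y) = (1 / 2 : ℝ) *
      (if y ∈ Ms then (1 + 2 * (if b y = true then (1 : ℝ) else -1) * β y) else 1) := by
    intro y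
    unfold cwf
    by_cases hy : y ∈ Ms
    · rw [if_pos hy, if_pos hy]
      cases b y
      · simp; ring
      · simp; ring
    · rw [if_neg hy, if_neg hy]; ring
  rw [Finset.prod_congr rfl (fun y _ => h1 y), Finset.prod_mul_distrib, Finset.prod_const]
  congr 1
  rw [Finset.prod_ite, Finset.prod_const_one, mul_one]
  refine Finset.prod_congr ?_ (fun _ _ => rfl)
  ext y
  simp only [Finset.mem_filter, Finset.mem_inter]
  tauto

private theorem lhist_sdom_S {D : Dat g} {u : Pl g} {X : Finset (Un g)} {E : Env g}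
    (hE : E.OK D u X) {st : Sta g E.M} (hst : E.StaOK D u X st) : st.s.dom ⊆ D.S u := by
  rw [hst.dom]
  intro y hy
  rcases Finset.mem_union.1 hy with hy | hy
  · exact hE.XS hy
  · obtain ⟨k, _, hk⟩ := Finset.mem_biUnion.1 hy
    exact (Finset.mem_inter.1 hk).1

/-- the pattern of the twins -/
private theorem lhist_pattern {D : Dat g} {u : Pl g} {X : Finset (Un g)} {E : Env g}
    (hE : E.OK D u X) {st : Sta g E.M} (hst : E.StaOK D u X st) {b : Un g → Bool}
    (hb : ∀ y ∈ st.s.dom \ X, st.s.st y = some (b y)) (t : Un g → Bool) :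
    (∀ y ∈ st.s.dom, D.trA u X t y = st.s.st y) ↔ ∀ y ∈ st.s.dom \ X, t y = b y := by
  constructor
  · intro h y hy
    have h1 := h y (Finset.mem_sdiff.1 hy).1
    rw [hb y hy] at h1
    unfold Dat.trA at h1
    rw [if_pos (Finset.mem_sdiff.2 ⟨lhist_sdom_S hE hst (Finset.mem_sdiff.1 hy).1,
      (Finset.mem_sdiff.1 hy).2⟩)] at h1
    exact Option.some.inj h1
  · intro h y hy
    by_cases hX : y ∈ X
    · rw [hst.onX y hX]
      unfold Dat.trA
      rw [if_neg (fun hh => (Finset.mem_sdiff.1 hh).2 hX)]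
    · have hy' : y ∈ st.s.dom \ X := Finset.mem_sdiff.2 ⟨hy, hX⟩
      rw [hb y hy', ← h y hy']
      unfold Dat.trA
      rw [if_pos (Finset.mem_sdiff.2 ⟨lhist_sdom_S hE hst hy, hX⟩)]

/-- few hash blocks of the other slots in the domain -/
private theorem lhist_few {D : Dat g} (hG : Geo D.S) {u : Pl g} {X : Finset (Un g)} {E : Env g}
    (hE : E.OK D u X) {st : Sta g E.M} (hst : E.StaOK D u X st) {B : Fin E.M → Pl g}
    (hB : E.BB D u X B) (hh : ∀ k ∈ st.hits, B k = st.wp k) (k : Fin E.M) (hk : k ∉ st.hits) :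
    ((D.C u (B k) ∩ (st.s.dom \ X)).card : ℝ) ≤ 60 * (g : ℝ) ^ 3 := by
  have h1 : D.C u (B k) ∩ (st.s.dom \ X) ⊆
      st.hits.biUnion (fun l => D.S u ∩ D.S (B k) ∩ D.S (st.wp l)) := by
    intro y hy
    rw [Finset.mem_inter, Finset.mem_sdiff, hst.dom, Finset.mem_union] at hy
    obtain ⟨hy1, hy2, hy3⟩ := hy
    have hyZ : y ∈ D.Z u (B k) := by
      unfold Dat.C at hy1
      exact (Finset.mem_filter.1 hy1).1
    rcases hy2 with hy2 | hy2
    · exact absurd hy2 hy3
    · obtain ⟨l, hl, hyl⟩ := Finset.mem_biUnion.1 hy2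
      refine Finset.mem_biUnion.2 ⟨l, hl, ?_⟩
      exact Finset.mem_inter.2 ⟨hyZ, (Finset.mem_inter.1 hyl).2⟩
  have h2 : (D.C u (B k) ∩ (st.s.dom \ X)).card ≤ st.hits.card * 50 := by
    refine (Finset.card_le_card h1).trans (Finset.card_biUnion_le_card_mul _ _ _ ?_)
    intro l hl
    refine hG.g2 u (B k) (st.wp l) ?_ ?_ ?_
    · exact fun h => hE.W_ne k (B k) (hB.mem k) h.symm
    · exact fun h => hE.W_ne l (st.wp l) (hst.mem l hl) h.symm
    · intro h
      rw [← hh l hl] at h
      exact hk (hB.inj h ▸ hl)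
  have h3 : st.hits.card * 50 ≤ 60 * g ^ 3 := by
    have := hst.card
    calc st.hits.card * 50 ≤ g ^ 3 * 50 := Nat.mul_le_mul_right _ this
      _ ≤ 60 * g ^ 3 := by omega
  exact_mod_cast h2.trans h3

/-- WEIGHT OF A STATE. PROOF. Fix B in BB with B k = wp k on hits (the others contribute 0; note B is
injective, B k <> u). KK = hits, Y = s.dom minus X. For k not in hits: C u (B k) cap Y is contained in the
union over l in hits of S u cap S (B k) cap S (wp l), at most 50 each (g2): <= 50 g^3. For k in hits: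
Z u (B k) is contained in s.dom = Y u X. Φ t = ind(size) * ind(trA t y = s.st y for all y in s.dom) does
not depend on the bits of Bu outside Y (size_dep; for y in X both sides are none; for y in Y it depends
on t y). inner_le with β = beta B (beta_le): the inner sum is at most
(1 + exp(-g)) * h^|hits| * sum_t cw t * ind(trA t y = s.st y, y in s.dom) (xi <= h, ind(size) <= 1), and by
cw_pattern (s.st y = some (b y) on Y, StaOK.some) the last sum is (1/2)^|Y| * product over y in Y cap Mu of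
(1 + 2 ε y beta B y), ε y = 1 if b y = true, -1 if b y = false; Y cap Mu = domH. Then lem6:
WT <= (1 + exp(-g)) h^|hits| (1/2)^|Y| * (3/2) exp(20|hits|/g) ..., and 3/2 (1 + exp(-g)) <= 2. -/
theorem hist_bound : ∀ᶠ (g : ℕ) in Filter.atTop, ∀ D : Dat g, Geo D.S → D.Lab →
    ∀ (u : Pl g) (X : Finset (Un g)) (E : Env g), E.OK D u X →
    ∀ st : Sta g E.M, E.StaOK D u X st →
    D.WT E u X (E.cons D u X st) ≤ E.cst X st := by
  filter_upwards [beta_le, inner_le, lem6, ev_ge 2] with g hbeta hinner hlem6 hg2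
  intro D hG hL u X E hE st hst
  -- the bits of the state
  have hex : ∀ y, ∃ b : Bool, y ∈ st.s.dom \ X → st.s.st y = some b := by
    intro y
    by_cases hy : y ∈ st.s.dom \ X
    · obtain ⟨b, hb⟩ := hst.some y (Finset.mem_sdiff.1 hy).1 (Finset.mem_sdiff.1 hy).2
      exact ⟨b, fun _ => hb⟩
    · exact ⟨true, fun h => absurd h hy⟩
  choose b hb using hex
  set ε : Un g → ℝ := fun y => if b y = true then (1 : ℝ) else -1 with hε
  have hε1 : ∀ y, |ε y| ≤ 1 := by
    intro y
    simp only [hε]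
    split_ifs <;> simp
  have hdomH : D.Mu u X ∩ (st.s.dom \ X) = E.domH D u X st.hits st.wp := by
    unfold Env.domH
    rw [hst.dom]
    ext y
    simp only [Finset.mem_inter, Finset.mem_sdiff, Finset.mem_union]
    constructor
    · rintro ⟨h1, h2 | h2, h3⟩
      · exact absurd h2 h3
      · exact ⟨h1, h2⟩
    · rintro ⟨h1, h2⟩
      refine ⟨h1, Or.inr h2, ?_⟩
      unfold Dat.Mu at h1
      exact (Finset.mem_sdiff.1 h1).2
  set c0 : ℝ := (1 + Real.exp (-g)) * ((hM g : ℝ) ^ st.hits.card *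
    (1 / 2 : ℝ) ^ (st.s.dom \ X).card) with hc0
  have hc0n : 0 ≤ c0 := by
    rw [hc0]
    have := Real.exp_pos (-(g : ℝ))
    positivity
  -- the bound for one slot vector
  have hone : ∀ B : Fin E.M → Pl g,
      E.slotWt B * ind (E.BB D u X B) *
        ∑ t, cw (D.Mu u X) (E.beta D B) t * ind (E.cons D u X st B t) *
          ind ((real (D.trA u X t)).card = kk g) * ∏ k, D.xi u (B k) (D.trA u X t) ≤
      c0 * (E.slotWt B * ind (E.BB D u X B) * ind (∀ k ∈ st.hits, B k = st.wp k) *
        ind (∀ k, k ∉ st.hits → B k ∉ st.F k) *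
        ∏ y ∈ E.domH D u X st.hits st.wp, (1 + 2 * ε y * E.beta D B y)) := by
    intro B
    have hsw : 0 ≤ E.slotWt B := by
      unfold Env.slotWt
      refine Finset.prod_nonneg (fun k _ => ?_)
      split_ifs
      · positivity
      · exact le_rfl
    by_cases hBB : E.BB D u X B
    swap
    · have h0 : ind (E.BB D u X B) = 0 := by unfold ind; rw [if_neg hBB]
      rw [h0]; simp
    by_cases hh : ∀ k ∈ st.hits, B k = st.wp k
    swap
    · have h0 : ∀ t, ind (E.cons D u X st B t) = 0 := by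
        intro t
        unfold ind
        rw [if_neg (fun hc => hh hc.1)]
      have h1 : ind (∀ k ∈ st.hits, B k = st.wp k) = 0 := by unfold ind; rw [if_neg hh]
      rw [h1]
      simp [h0]
    by_cases hF : ∀ k, k ∉ st.hits → B k ∉ st.F k
    swap
    · have h0 : ∀ t, ind (E.cons D u X st B t) = 0 := by
        intro t
        unfold ind
        rw [if_neg (fun hc => hF hc.2.1)]
      have h1 : ind (∀ k, k ∉ st.hits → B k ∉ st.F k) = 0 := by unfold ind; rw [if_neg hF]
      rw [h1]
      simp [h0]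
    have e1 : ind (E.BB D u X B) = 1 := by unfold ind; rw [if_pos hBB]
    have e2 : ind (∀ k ∈ st.hits, B k = st.wp k) = 1 := by unfold ind; rw [if_pos hh]
    have e3 : ind (∀ k, k ∉ st.hits → B k ∉ st.F k) = 1 := by unfold ind; rw [if_pos hF]
    rw [e1, e2, e3, mul_one, mul_one, mul_one]
    have hβ : ∀ y ∈ D.Mu u X, |E.beta D B y| ≤ 1 / 2 := fun y hy =>
      (hbeta D u X E hE B hBB y hy).trans (by norm_num)
    have hcw : ∀ t, 0 ≤ cw (D.Mu u X) (E.beta D B) t := fun t => cw_nonneg _ _ hβ t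
    set Φ : (Un g → Bool) → ℝ := fun t => ind (∀ y ∈ st.s.dom \ X, t y = b y) *
      ind ((real (D.trA u X t)).card = kk g) with hΦ
    have hcons : ∀ t, ind (E.cons D u X st B t) = ind (∀ y ∈ st.s.dom \ X, t y = b y) := by
      intro t
      have h1 : E.cons D u X st B t ↔ ∀ y ∈ st.s.dom \ X, t y = b y := by
        rw [← lhist_pattern hE hst (fun y hy => hb y hy) t]
        exact ⟨fun h => h.2.2, fun h => ⟨hh, hF, h⟩⟩
      rw [propext h1]
    have hin := hinner D hL u X E hE B hBB.mem hBB.inj st.hits (st.s.dom \ X)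
      (fun k hk => lhist_few hG hE hst hBB hh k hk) (by
        intro k hk y hy
        rw [hh k hk] at hy
        by_cases hX : y ∈ X
        · exact Finset.mem_union_right _ hX
        · refine Finset.mem_union_left _ (Finset.mem_sdiff.2 ⟨?_, hX⟩)
          rw [hst.dom]
          exact Finset.mem_union_right _ (Finset.mem_biUnion.2 ⟨k, hk, hy⟩))
      (E.beta D B) hβ Φ (fun t => mul_nonneg (lhist_ind_nonneg _) (lhist_ind_nonneg _)) (by
        intro t t' htt
        simp only [hΦ]
        have h1 : (∀ y ∈ st.s.dom \ X, t y = b y) ↔ (∀ y ∈ st.s.dom \ X, t' y = b y) := by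
          constructor
          · intro h y hy
            rw [← htt y (fun hm => (Finset.mem_sdiff.1 hm).2 hy)]
            exact h y hy
          · intro h y hy
            rw [htt y (fun hm => (Finset.mem_sdiff.1 hm).2 hy)]
            exact h y hy
        have h2 := size_dep D u X t t' (fun y hy =>
          htt y (fun hm => hy (Finset.mem_sdiff.1 hm).1))
        rw [propext h1, h2])
    have hsum : ∑ t, cw (D.Mu u X) (E.beta D B) t * (Φ t * ∏ k ∈ st.hits,
        D.xi u (B k) (D.trA u X t)) ≤ (hM g : ℝ) ^ st.hits.card *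
        ((1 / 2 : ℝ) ^ (st.s.dom \ X).card *
          ∏ y ∈ E.domH D u X st.hits st.wp, (1 + 2 * ε y * E.beta D B y)) := by
      have h1 : ∀ t, cw (D.Mu u X) (E.beta D B) t * (Φ t * ∏ k ∈ st.hits,
          D.xi u (B k) (D.trA u X t)) ≤ (hM g : ℝ) ^ st.hits.card *
          (cw (D.Mu u X) (E.beta D B) t * ind (∀ y ∈ st.s.dom \ X, t y = b y)) := by
        intro t
        have h2 : ∏ k ∈ st.hits, D.xi u (B k) (D.trA u X t) ≤ (hM g : ℝ) ^ st.hits.card := by
          refine (Finset.prod_le_prod (fun k _ => (lhist_xi D u (B k) _).1)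
            (fun k _ => (lhist_xi D u (B k) _).2)).trans ?_
          rw [Finset.prod_const]
        have h3 : Φ t ≤ ind (∀ y ∈ st.s.dom \ X, t y = b y) :=
          mul_le_of_le_one_right (lhist_ind_nonneg _) (lhist_ind_le _)
        have h4 : 0 ≤ ∏ k ∈ st.hits, D.xi u (B k) (D.trA u X t) :=
          Finset.prod_nonneg (fun k _ => (lhist_xi D u (B k) _).1)
        calc cw (D.Mu u X) (E.beta D B) t * (Φ t * ∏ k ∈ st.hits,
            D.xi u (B k) (D.trA u X t))
            ≤ cw (D.Mu u X) (E.beta D B) t *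
              (ind (∀ y ∈ st.s.dom \ X, t y = b y) * (hM g : ℝ) ^ st.hits.card) :=
              mul_le_mul_of_nonneg_left
                (mul_le_mul h3 h2 h4 (lhist_ind_nonneg _)) (hcw t)
          _ = _ := by ring
      refine (Finset.sum_le_sum (fun t _ => h1 t)).trans ?_
      rw [← Finset.mul_sum, cw_pattern, lhist_cwf, hdomH]
    have hleft : ∑ t, cw (D.Mu u X) (E.beta D B) t * ind (E.cons D u X st B t) *
          ind ((real (D.trA u X t)).card = kk g) * ∏ k, D.xi u (B k) (D.trA u X t) =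
        ∑ t, cw (D.Mu u X) (E.beta D B) t * (Φ t * ∏ k, D.xi u (B k) (D.trA u X t)) := by
      refine Finset.sum_congr rfl (fun t _ => ?_)
      rw [hcons t]
      simp only [hΦ]
      ring
    rw [hleft]
    calc E.slotWt B * ∑ t, cw (D.Mu u X) (E.beta D B) t *
          (Φ t * ∏ k, D.xi u (B k) (D.trA u X t))
        ≤ E.slotWt B * ((1 + Real.exp (-g)) * ((hM g : ℝ) ^ st.hits.card *
        ((1 / 2 : ℝ) ^ (st.s.dom \ X).card *
          ∏ y ∈ E.domH D u X st.hits st.wp, (1 + 2 * ε y * E.beta D B y)))) := by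
          refine mul_le_mul_of_nonneg_left (hin.trans ?_) hsw
          refine mul_le_mul_of_nonneg_left hsum ?_
          have := Real.exp_pos (-(g : ℝ))
          linarith
      _ = _ := by rw [hc0]; ring
  have hfin := hlem6 D hG u X E hE st.hits st.wp st.F ε hst.card hst.mem hε1
  have hexp : Real.exp (-(g : ℝ)) ≤ 1 / 3 := by
    have h1 : Real.exp (-(g : ℝ)) * Real.exp (g : ℝ) = 1 := by
      rw [← Real.exp_add]; simp
    have h2 : (3 : ℝ) ≤ Real.exp (g : ℝ) := by
      have := Real.add_one_le_exp (g : ℝ)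
      linarith
    have h3 := Real.exp_pos (-(g : ℝ))
    nlinarith
  have hP1 : 0 ≤ ∏ k ∈ st.hits, 1 / ((E.W k).card : ℝ) :=
    Finset.prod_nonneg (fun k _ => by positivity)
  have hP2 : 0 ≤ ∏ k ∈ Finset.univ \ st.hits,
      (1 - 99 / 100 * (((st.F k ∩ E.W k).card : ℝ) / (E.W k).card)) := by
    refine Finset.prod_nonneg (fun k _ => ?_)
    have h1 : ((st.F k ∩ E.W k).card : ℝ) / (E.W k).card ≤ 1 := by
      refine div_le_one_of_le₀ ?_ (Nat.cast_nonneg _)
      exact_mod_cast Finset.card_le_card Finset.inter_subset_right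
    linarith
  calc D.WT E u X (E.cons D u X st)
      ≤ ∑ B : Fin E.M → Pl g, c0 * (E.slotWt B * ind (E.BB D u X B) *
        ind (∀ k ∈ st.hits, B k = st.wp k) *
        ind (∀ k, k ∉ st.hits → B k ∉ st.F k) *
        ∏ y ∈ E.domH D u X st.hits st.wp, (1 + 2 * ε y * E.beta D B y)) := by
        unfold Dat.WT
        exact Finset.sum_le_sum (fun B _ => hone B)
    _ ≤ c0 * (3 / 2 * Real.exp (20 * st.hits.card / g) *
        (∏ k ∈ st.hits, 1 / ((E.W k).card : ℝ)) *
        ∏ k ∈ Finset.univ \ st.hits,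
          (1 - 99 / 100 * (((st.F k ∩ E.W k).card : ℝ) / (E.W k).card))) := by
        rw [← Finset.mul_sum]
        exact mul_le_mul_of_nonneg_left hfin hc0n
    _ ≤ E.cst X st := by
        unfold Env.cst
        rw [hc0]
        have hA : 0 ≤ Real.exp (20 * (st.hits.card : ℝ) / g) * (hM g : ℝ) ^ st.hits.card *
            (1 / 2 : ℝ) ^ (st.s.dom \ X).card * (∏ k ∈ st.hits, 1 / ((E.W k).card : ℝ)) *
            ∏ k ∈ Finset.univ \ st.hits,
              (1 - 99 / 100 * (((st.F k ∩ E.W k).card : ℝ) / (E.W k).card)) := by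
          have := Real.exp_pos (20 * (st.hits.card : ℝ) / g)
          refine mul_nonneg (mul_nonneg (by positivity) hP1) hP2
        have hB : (1 + Real.exp (-(g : ℝ))) * (3 / 2) ≤ 2 := by linarith
        have hC := mul_le_mul_of_nonneg_right hB hA
        linarith [hC]

end Pool.Larman
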