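import Pool.Agent.Larman.LHist
import Pool.Agent.Larman.TR
import Pool.Agent.Larman.Avg

/-!
# MP_a9ba8c (Larman, t = 1): class induction
-/

set_option autoImplicit false

open scoped BigOperators Classical

noncomputable section

namespace Pool.Larman

variable {g : ℕ}

/-- state after the slot k has been declared not hit, with forbidden set K -/
def Sta.miss {M : ℕ} (st : Sta g M) (k : Fin M) (K : Finset (Pl g)) : Sta g M :=
  { st with F := Function.update st.F k K }

/-- state after the slot k has been hit by the player w with zone Z and true set A -/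
def Sta.hit {M : ℕ} (st : Sta g M) (k : Fin M) (w : Pl g) (Z A : Finset (Un g)) : Sta g M where
  s := updP st.s Z A
  hits := insert k st.hits
  wp := Function.update st.wp k w
  F := st.F

theorem staOK_miss {E : Env g} {D : Dat g} {u : Pl g} {X : Finset (Un g)} {st : Sta g E.M}
    (h : E.StaOK D u X st) (k : Fin E.M) (K : Finset (Pl g)) : E.StaOK D u X (st.miss k K) :=
  ⟨h.dom, h.onX, h.some, h.none, h.mem, h.card⟩

/-- for the hit slot, k not in hits, w in W k, |hits| < g^3. (Units of Z u w outside s.dom are in S u,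
not in X because X is contained in s.dom.) -/
theorem staOK_hit {E : Env g} {D : Dat g} {u : Pl g} {X : Finset (Un g)} {st : Sta g E.M}
    (h : E.StaOK D u X st) {k : Fin E.M} (hk : k ∉ st.hits) {w : Pl g} (hw : w ∈ E.W k)
    (hc : st.hits.card < g ^ 3) (A : Finset (Un g)) :
    E.StaOK D u X (st.hit k w (D.Z u w) A) := by
  have hne : ∀ j ∈ st.hits, j ≠ k := fun j hj hjk => hk (hjk ▸ hj)
  refine ⟨?_, ?_, ?_, ?_, ?_, ?_⟩
  · change st.s.dom ∪ D.Z u w = X ∪ (insert k st.hits).biUnion
      (fun j => D.Z u (Function.update st.wp k w j))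
    have h1 : st.hits.biUnion (fun j => D.Z u (Function.update st.wp k w j)) =
        st.hits.biUnion (fun j => D.Z u (st.wp j)) := by
      refine Finset.biUnion_congr rfl fun j hj => ?_
      rw [Function.update_of_ne (hne j hj)]
    rw [Finset.biUnion_insert, h1, Function.update_self, h.dom, Finset.union_assoc,
      Finset.union_comm (D.Z u w)]
  · intro y hy
    have h1 : y ∈ st.s.dom := by
      rw [h.dom]
      exact Finset.mem_union_left _ hy
    change (if y ∈ st.s.dom then st.s.st y else _) = none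
    rw [if_pos h1, h.onX y hy]
  · intro y hy hX
    change ∃ b, (if y ∈ st.s.dom then st.s.st y else if y ∈ D.Z u w then some (decide (y ∈ A))
      else none) = some b
    by_cases h1 : y ∈ st.s.dom
    · rw [if_pos h1]
      exact h.some y h1 hX
    · have h2 : y ∈ D.Z u w := (Finset.mem_union.1 hy).resolve_left h1
      rw [if_neg h1, if_pos h2]
      exact ⟨_, rfl⟩
  · intro y hy
    have h1 : y ∉ st.s.dom := fun h2 => hy (Finset.mem_union_left _ h2)
    have h2 : y ∉ D.Z u w := fun h3 => hy (Finset.mem_union_right _ h3)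
    change (if y ∈ st.s.dom then st.s.st y else if y ∈ D.Z u w then some (decide (y ∈ A))
      else none) = none
    rw [if_neg h1, if_neg h2]
  · intro j hj
    change Function.update st.wp k w j ∈ E.W j
    rcases Finset.mem_insert.1 hj with h1 | h1
    · subst h1
      rw [Function.update_self]
      exact hw
    · rw [Function.update_of_ne (hne j h1)]
      exact h.mem j h1
  · change (insert k st.hits).card ≤ g ^ 3
    rw [Finset.card_insert_of_notMem hk]
    exact hc

private theorem lind_ind_nonneg (p : Prop) : 0 ≤ ind p := by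
  unfold ind; split_ifs <;> norm_num

private theorem lind_ind_true {p : Prop} (h : p) : ind p = 1 := by
  unfold ind; rw [if_pos h]

private theorem lind_ind_false {p : Prop} (h : ¬ p) : ind p = 0 := by
  unfold ind; rw [if_neg h]

/-- the weight of one pair (slot vector, twins) -/
private def lind_wgt (D : Dat g) (E : Env g) (u : Pl g) (X : Finset (Un g))
    (p : (Fin E.M → Pl g) × (Un g → Bool)) : ℝ :=
  E.slotWt p.1 * ind (E.BB D u X p.1) * (cw (D.Mu u X) (E.beta D p.1) p.2 *
    ind ((real (D.trA u X p.2)).card = kk g) * ∏ k, D.xi u (p.1 k) (D.trA u X p.2))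

private theorem lind_WT (D : Dat g) (E : Env g) (u : Pl g) (X : Finset (Un g))
    (Ev : (Fin E.M → Pl g) → (Un g → Bool) → Prop) :
    D.WT E u X Ev = ∑ p : (Fin E.M → Pl g) × (Un g → Bool),
      lind_wgt D E u X p * ind (Ev p.1 p.2) := by
  unfold Dat.WT
  rw [Fintype.sum_prod_type]
  refine Finset.sum_congr rfl (fun B _ => ?_)
  rw [Finset.mul_sum]
  refine Finset.sum_congr rfl (fun t _ => ?_)
  unfold lind_wgt
  ring

private theorem lind_wgt_nonneg (D : Dat g) (E : Env g) (u : Pl g) (X : Finset (Un g))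
    (hβ : ∀ B, E.BB D u X B → ∀ y ∈ D.Mu u X, |E.beta D B y| ≤ 1 / 2)
    (p : (Fin E.M → Pl g) × (Un g → Bool)) : 0 ≤ lind_wgt D E u X p := by
  unfold lind_wgt
  by_cases hB : E.BB D u X p.1
  · have h1 : 0 ≤ E.slotWt p.1 := by
      unfold Env.slotWt
      refine Finset.prod_nonneg (fun k _ => ?_)
      split_ifs
      · positivity
      · exact le_rfl
    have h2 := cw_nonneg (D.Mu u X) (E.beta D p.1) (hβ p.1 hB) p.2
    have h3 : 0 ≤ ∏ k, D.xi u (p.1 k) (D.trA u X p.2) := by
      refine Finset.prod_nonneg (fun k _ => ?_)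
      unfold Dat.xi
      split_ifs
      · exact Nat.cast_nonneg _
      · exact le_rfl
    exact mul_nonneg (mul_nonneg h1 (lind_ind_nonneg _))
      (mul_nonneg (mul_nonneg h2 (lind_ind_nonneg _)) h3)
  · rw [lind_ind_false hB, mul_zero, zero_mul]

private theorem lind_comm {W : Type} [Fintype W] (S : Finset (Pl g))
    (T : Pl g → Finset (Finset (Un g))) (c : Pl g → Finset (Un g) → ℝ)
    (F : Pl g → Finset (Un g) → W → ℝ) :
    ∑ w ∈ S, ∑ A ∈ T w, c w A * ∑ p, F w A p = ∑ p, ∑ w ∈ S, ∑ A ∈ T w, c w A * F w A p := by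
  calc ∑ w ∈ S, ∑ A ∈ T w, c w A * ∑ p, F w A p
      = ∑ w ∈ S, ∑ p, ∑ A ∈ T w, c w A * F w A p := by
        refine Finset.sum_congr rfl (fun w _ => ?_)
        rw [Finset.sum_comm]
        exact Finset.sum_congr rfl (fun A _ => Finset.mul_sum _ _ _)
    _ = _ := Finset.sum_comm

/-- a pair with nonzero weight whose slot k is hit by a player of K0 -/
private theorem lind_hit {E : Env g} {D : Dat g} {u : Pl g} {X : Finset (Un g)}
    (hE : E.OK D u X) {st : Sta g E.M} (h : E.StaOK D u X st) {k : Fin E.M} (hk : k ∉ st.hits)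
    (G : Finset (Finset (Pt g))) {B : Fin E.M → Pl g} {t : Un g → Bool} (hB : E.BB D u X B)
    (hxi : D.xi u (B k) (D.trA u X t) ≠ 0) (hc : E.cons D u X st B t) (hv : E.EvC D u X G B t) :
    (D.Tight u (B k) (ext st.s (fun y => decide (y ∈
        (D.Z u (B k) \ st.s.dom).filter (fun y => t y = true)))) ∧
      D.Srv G u (B k) (ext st.s (fun y => decide (y ∈
        (D.Z u (B k) \ st.s.dom).filter (fun y => t y = true))))) ∧
    E.cons D u X (st.hit k (B k) (D.Z u (B k))
      ((D.Z u (B k) \ st.s.dom).filter (fun y => t y = true))) B t := by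
  set w := B k with hw
  set A : Finset (Un g) := (D.Z u w \ st.s.dom).filter (fun y => t y = true) with hA
  have hwW : w ∈ E.W k := hB.mem k
  have hXd : X ⊆ st.s.dom := by
    rw [h.dom]
    exact Finset.subset_union_left
  have hout : ∀ y ∈ D.Z u w, y ∉ st.s.dom → D.trA u X t y = some (decide (y ∈ A)) := by
    intro y hy hyd
    unfold Dat.trA
    rw [if_pos (Finset.mem_sdiff.2 ⟨(Finset.mem_inter.1 hy).1, fun hX => hyd (hXd hX)⟩)]
    congr 1
    have h1 : y ∈ A ↔ t y = true := by
      rw [hA, Finset.mem_filter, Finset.mem_sdiff]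
      exact ⟨fun h2 => h2.2, fun h2 => ⟨⟨hy, hyd⟩, h2⟩⟩
    by_cases h2 : t y = true
    · rw [h2, decide_eq_true (h1.2 h2)]
    · rw [decide_eq_false (fun h3 => h2 (h1.1 h3))]
      exact Bool.eq_false_iff.2 h2
  have hag : ∀ y ∈ D.Z u w, D.trA u X t y = ext st.s (fun y => decide (y ∈ A)) y := by
    intro y hy
    unfold ext
    by_cases hyd : y ∈ st.s.dom
    · rw [if_pos hyd]
      exact hc.2.2 y hyd
    · rw [if_neg hyd]
      exact hout y hy hyd
  have hcong : D.cong u w (D.trA u X t) := by
    by_contra hn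
    apply hxi
    unfold Dat.xi
    rw [if_neg hn]
  have hprop : ∀ y ∈ D.C u w, D.trA u X t y ≠ none := by
    intro y hy
    have h1 := D.C_sub u w hy
    have h2 : y ∉ X := Finset.disjoint_left.1 (hE.W_C k w hwW) hy
    unfold Dat.trA
    rw [if_pos (Finset.mem_sdiff.2 ⟨(Finset.mem_inter.1 h1).1, h2⟩)]
    exact Option.some_ne_none _
  have hne : u ≠ w := fun h1 => hE.W_ne k w hwW h1.symm
  have htight : D.Tight u w (D.trA u X t) := (D.tight_iff hne hprop).2 ⟨hcong, hv.2.2 k⟩
  refine ⟨⟨(D.Tight_congr hag).1 htight, ⟨D.trA u X t, hv.1, hv.2.1, hag⟩⟩, ?_, ?_, ?_⟩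
  · intro j hj
    show B j = Function.update st.wp k w j
    rcases Finset.mem_insert.1 hj with h1 | h1
    · subst h1
      rw [Function.update_self]
    · have hjk : j ≠ k := by
        rintro rfl
        exact hk h1
      rw [Function.update_of_ne hjk]
      exact hc.1 j h1
  · intro j hj
    exact hc.2.1 j (fun h1 => hj (Finset.mem_insert_of_mem h1))
  · intro y hy
    show D.trA u X t y = if y ∈ st.s.dom then st.s.st y else
      if y ∈ D.Z u w then some (decide (y ∈ A)) else none
    by_cases hyd : y ∈ st.s.dom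
    · rw [if_pos hyd]
      exact hc.2.2 y hyd
    · have hyZ : y ∈ D.Z u w := (Finset.mem_union.1 hy).resolve_left hyd
      rw [if_neg hyd, if_pos hyZ]
      exact hout y hyZ hyd

/-- SPLITTING. Let k be a slot which is not hit and has F k = empty, K0 a set of players. Every (B, t)
in BB which is consistent with st and in the class event EvC is either consistent with st.miss k K0
(B k not in K0), or B k = w in K0 cap W k and, with A = the units of Z u w outside s.dom where t is true,
(B, t) is consistent with st.hit k w (Z u w) A. Moreover the trace with states s on s.dom and twins A on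
the new units is tight and served: the weight contains the factor xi u (B k) (trA t), so the congruence
holds when the weight is not 0, the window holds by EvC, the trace is proper on C u w because C u w is
disjoint from X (W_C) and contained in S u; so Tight (Bas.tight_iff); served by f = trA t itself.
The traces are compared through ext s (indicator of A), which agrees on Z u w with trA t. -/
theorem class_split {E : Env g} {D : Dat g} {u : Pl g} {X : Finset (Un g)} (hE : E.OK D u X)
    {st : Sta g E.M} (h : E.StaOK D u X st) {k : Fin E.M} (hk : k ∉ st.hits)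
    (hF : st.F k = ∅) (K0 : Finset (Pl g)) (G : Finset (Finset (Pt g)))
    (hβ : ∀ B, E.BB D u X B → ∀ y ∈ D.Mu u X, |E.beta D B y| ≤ 1 / 2) :
    D.WT E u X (fun B t => E.cons D u X st B t ∧ E.EvC D u X G B t) ≤
      D.WT E u X (fun B t => E.cons D u X (st.miss k K0) B t ∧ E.EvC D u X G B t) +
      ∑ w ∈ K0 ∩ E.W k, ∑ A ∈ (D.Z u w \ st.s.dom).powerset,
        ind (D.Tight u w (ext st.s (fun y => decide (y ∈ A))) ∧
             D.Srv G u w (ext st.s (fun y => decide (y ∈ A)))) *
        D.WT E u X (fun B t => E.cons D u X (st.hit k w (D.Z u w) A) B t ∧ E.EvC D u X G B t) := by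
  simp only [lind_WT]
  rw [lind_comm, ← Finset.sum_add_distrib]
  refine Finset.sum_le_sum (fun p _ => ?_)
  obtain ⟨B, t⟩ := p
  have hw0 := lind_wgt_nonneg D E u X hβ (B, t)
  set W := lind_wgt D E u X (B, t) with hW
  have hterm : ∀ w A, 0 ≤ ind (D.Tight u w (ext st.s (fun y => decide (y ∈ A))) ∧
      D.Srv G u w (ext st.s (fun y => decide (y ∈ A)))) *
      (W * ind (E.cons D u X (st.hit k w (D.Z u w) A) B t ∧ E.EvC D u X G B t)) :=
    fun w A => mul_nonneg (lind_ind_nonneg _) (mul_nonneg hw0 (lind_ind_nonneg _))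
  have hS0 : 0 ≤ ∑ w ∈ K0 ∩ E.W k, ∑ A ∈ (D.Z u w \ st.s.dom).powerset,
      ind (D.Tight u w (ext st.s (fun y => decide (y ∈ A))) ∧
        D.Srv G u w (ext st.s (fun y => decide (y ∈ A)))) *
      (W * ind (E.cons D u X (st.hit k w (D.Z u w) A) B t ∧ E.EvC D u X G B t)) :=
    Finset.sum_nonneg (fun w _ => Finset.sum_nonneg (fun A _ => hterm w A))
  have hM0 : 0 ≤ W * ind (E.cons D u X (st.miss k K0) B t ∧ E.EvC D u X G B t) :=
    mul_nonneg hw0 (lind_ind_nonneg _)
  show W * ind (E.cons D u X st B t ∧ E.EvC D u X G B t) ≤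
    W * ind (E.cons D u X (st.miss k K0) B t ∧ E.EvC D u X G B t) +
    ∑ w ∈ K0 ∩ E.W k, ∑ A ∈ (D.Z u w \ st.s.dom).powerset,
      ind (D.Tight u w (ext st.s (fun y => decide (y ∈ A))) ∧
        D.Srv G u w (ext st.s (fun y => decide (y ∈ A)))) *
      (W * ind (E.cons D u X (st.hit k w (D.Z u w) A) B t ∧ E.EvC D u X G B t))
  by_cases hcv : E.cons D u X st B t ∧ E.EvC D u X G B t
  swap
  · rw [lind_ind_false hcv, mul_zero]
    exact add_nonneg hM0 hS0
  obtain ⟨hc, hv⟩ := hcv
  rw [lind_ind_true ⟨hc, hv⟩, mul_one]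
  by_cases hz : W = 0
  · rw [hz] at hM0 hS0 ⊢
    exact add_nonneg hM0 hS0
  by_cases hBk : B k ∈ K0
  swap
  · have h1 : E.cons D u X (st.miss k K0) B t := by
      refine ⟨hc.1, fun j hj => ?_, hc.2.2⟩
      show B j ∉ Function.update st.F k K0 j
      by_cases hjk : j = k
      · subst hjk
        rw [Function.update_self]
        exact hBk
      · rw [Function.update_of_ne hjk]
        exact hc.2.1 j hj
    rw [lind_ind_true ⟨h1, hv⟩, mul_one]
    linarith
  · have hB : E.BB D u X B := by
      by_contra hn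
      apply hz
      rw [hW, lind_wgt]
      show E.slotWt B * ind (E.BB D u X B) * _ = 0
      rw [lind_ind_false hn, mul_zero, zero_mul]
    have hxi : D.xi u (B k) (D.trA u X t) ≠ 0 := by
      intro hn
      apply hz
      rw [hW, lind_wgt]
      show _ * (_ * ∏ k, D.xi u (B k) (D.trA u X t)) = 0
      rw [Finset.prod_eq_zero (Finset.mem_univ k) hn, mul_zero, mul_zero]
    have hh := lind_hit hE h hk G hB hxi hc hv
    set A : Finset (Un g) := (D.Z u (B k) \ st.s.dom).filter (fun y => t y = true) with hA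
    have h1 : W ≤ ∑ w ∈ K0 ∩ E.W k, ∑ A ∈ (D.Z u w \ st.s.dom).powerset,
        ind (D.Tight u w (ext st.s (fun y => decide (y ∈ A))) ∧
          D.Srv G u w (ext st.s (fun y => decide (y ∈ A)))) *
        (W * ind (E.cons D u X (st.hit k w (D.Z u w) A) B t ∧ E.EvC D u X G B t)) := by
      have h2 : W = ind (D.Tight u (B k) (ext st.s (fun y => decide (y ∈ A))) ∧
          D.Srv G u (B k) (ext st.s (fun y => decide (y ∈ A)))) *
          (W * ind (E.cons D u X (st.hit k (B k) (D.Z u (B k)) A) B t ∧
            E.EvC D u X G B t)) := by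
        rw [lind_ind_true hh.1, lind_ind_true ⟨hh.2, hv⟩, mul_one, one_mul]
      refine h2.le.trans ?_
      have h3 := Finset.single_le_sum (s := (D.Z u (B k) \ st.s.dom).powerset)
        (f := fun A => ind (D.Tight u (B k) (ext st.s (fun y => decide (y ∈ A))) ∧
          D.Srv G u (B k) (ext st.s (fun y => decide (y ∈ A)))) *
          (W * ind (E.cons D u X (st.hit k (B k) (D.Z u (B k)) A) B t ∧
            E.EvC D u X G B t))) (fun A _ => hterm (B k) A)
        (Finset.mem_powerset.2 (Finset.filter_subset (fun y => t y = true) _))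
      refine h3.trans ?_
      exact Finset.single_le_sum (s := K0 ∩ E.W k)
        (f := fun w => ∑ A ∈ (D.Z u w \ st.s.dom).powerset,
          ind (D.Tight u w (ext st.s (fun y => decide (y ∈ A))) ∧
            D.Srv G u w (ext st.s (fun y => decide (y ∈ A)))) *
          (W * ind (E.cons D u X (st.hit k w (D.Z u w) A) B t ∧ E.EvC D u X G B t)))
        (fun w _ => Finset.sum_nonneg (fun A _ => hterm w A))
        (Finset.mem_inter.2 ⟨hBk, hB.mem k⟩)
    linarith

/-- SUM OVER TRACES. A predicate P of twins which depends only on the twins in the set Zn: the number of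
subsets A of Zn with P, divided by 2^|Zn|, is the average of P over all twins. -/
theorem sum_traces (Zn : Finset (Un g)) (P : (Un g → Bool) → Prop)
    (hP : ∀ t t', (∀ y ∈ Zn, t y = t' y) → (P t ↔ P t')) :
    ∑ A ∈ Zn.powerset, ind (P (fun y => decide (y ∈ A))) * (1 / 2 : ℝ) ^ Zn.card =
      avg (fun t => ind (P t)) := by
  have hmap : ∀ t ∈ (Finset.univ : Finset (Un g → Bool)),
      Zn.filter (fun y => t y = true) ∈ Zn.powerset := fun t _ =>
    Finset.mem_powerset.2 (Finset.filter_subset _ _)
  have hfib : ∀ A ∈ Zn.powerset,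
      ∑ t ∈ (Finset.univ : Finset (Un g → Bool)) with Zn.filter (fun y => t y = true) = A,
        ind (P t) = ind (P (fun y => decide (y ∈ A))) * 2 ^ (Finset.univ \ Zn).card := by
    intro A hA
    have hA' : A ⊆ Zn := Finset.mem_powerset.1 hA
    have h1 : (Finset.univ : Finset (Un g → Bool)).filter
        (fun t => Zn.filter (fun y => t y = true) = A) =
        Fintype.piFinset (fun y => if y ∈ Zn then ({decide (y ∈ A)} : Finset Bool)
          else Finset.univ) := by
      ext t
      simp only [Finset.mem_filter, Finset.mem_univ, true_and, Fintype.mem_piFinset]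
      constructor
      · intro h y
        by_cases hy : y ∈ Zn
        · rw [if_pos hy, Finset.mem_singleton]
          have h2 : y ∈ A ↔ t y = true := by
            rw [← h, Finset.mem_filter]
            exact ⟨fun h3 => h3.2, fun h3 => ⟨hy, h3⟩⟩
          by_cases h3 : y ∈ A
          · rw [h2.1 h3, decide_eq_true h3]
          · rw [decide_eq_false h3]
            rcases Bool.eq_false_or_eq_true (t y) with h4 | h4
            · exact absurd (h2.2 h4) h3
            · exact h4
        · rw [if_neg hy]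
          exact Finset.mem_univ _
      · intro h
        ext y
        rw [Finset.mem_filter]
        constructor
        · rintro ⟨hy, h2⟩
          have h3 := h y
          rw [if_pos hy, Finset.mem_singleton, h2] at h3
          exact of_decide_eq_true h3.symm
        · intro hy
          have h3 := h y
          rw [if_pos (hA' hy), Finset.mem_singleton] at h3
          exact ⟨hA' hy, by rw [h3]; exact decide_eq_true hy⟩
    have h2 : ∀ t ∈ (Finset.univ : Finset (Un g → Bool)).filter
        (fun t => Zn.filter (fun y => t y = true) = A),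
        ind (P t) = ind (P (fun y => decide (y ∈ A))) := by
      intro t ht
      rw [h1, Fintype.mem_piFinset] at ht
      have h3 : P t ↔ P (fun y => decide (y ∈ A)) := by
        refine hP _ _ fun y hy => ?_
        have h4 := ht y
        rw [if_pos hy, Finset.mem_singleton] at h4
        exact h4
      unfold ind
      simp only [h3]
    rw [Finset.sum_congr rfl h2, Finset.sum_const, h1, Fintype.card_piFinset, nsmul_eq_mul,
      mul_comm]
    congr 1
    have h5 : ∀ y : Un g, (if y ∈ Zn then ({decide (y ∈ A)} : Finset Bool)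
        else Finset.univ).card = if y ∈ Zn then 1 else 2 := by
      intro y
      by_cases hy : y ∈ Zn
      · rw [if_pos hy, if_pos hy, Finset.card_singleton]
      · rw [if_neg hy, if_neg hy, Finset.card_univ, Fintype.card_bool]
    rw [Finset.prod_congr rfl fun y _ => h5 y, Finset.prod_ite, Finset.prod_const_one, one_mul,
      Finset.prod_const]
    have h6 : (Finset.univ : Finset (Un g)).filter (fun y => y ∉ Zn) = Finset.univ \ Zn := by
      ext y
      simp
    rw [h6]
    push_cast
    rfl
  have hsum : ∑ t : Un g → Bool, ind (P t) =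
      ∑ A ∈ Zn.powerset, ind (P (fun y => decide (y ∈ A))) * 2 ^ (Finset.univ \ Zn).card := by
    rw [← Finset.sum_fiberwise_of_maps_to hmap]
    exact Finset.sum_congr rfl hfib
  unfold avg
  rw [hsum, Finset.sum_div]
  refine Finset.sum_congr rfl fun A _ => ?_
  have h7 : (Fintype.card (Un g → Bool) : ℝ) = 2 ^ (Finset.univ \ Zn).card * 2 ^ Zn.card := by
    rw [Fintype.card_fun, Fintype.card_bool, ← pow_add, Finset.card_sdiff_add_card_eq_card
      (Finset.subset_univ Zn), Finset.card_univ]
    push_cast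
    rfl
  rw [h7, one_div, inv_pow]
  have h8 : (2 : ℝ) ^ (Finset.univ \ Zn).card ≠ 0 := pow_ne_zero _ two_ne_zero
  have h9 : (2 : ℝ) ^ Zn.card ≠ 0 := pow_ne_zero _ two_ne_zero
  field_simp

/-- TIGHT SERVED TRACES. For w in K G u s: h times the average of [Tight and Srv] is at most 24/25.
Proof: avg (T and Srv) = avg T - avg (T and not Srv) <= (19/20) avg T by the definition of K, and
h avg T <= 1 + g^-10 by TR (|s.dom cap Z u w| <= |s.dom cap S w| <= 2, C u w disjoint from s.dom). -/
theorem tight_srv : ∀ᶠ (g : ℕ) in Filter.atTop, ∀ D : Dat g, Geo D.S → D.Lab →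
    ∀ (u : Pl g) (s : Pat g) (G : Finset (Finset (Pt g))), ∀ w ∈ D.K G u s,
    (hM g : ℝ) * avg (fun t => ind (D.Tight u w (ext s t) ∧ D.Srv G u w (ext s t))) ≤ 19 / 20 * (1 + 1 / g) := by
  filter_upwards [TR, Filter.eventually_ge_atTop 1] with g hTR hg
  intro D hG hL u s G w hw
  rw [Dat.K, Finset.mem_filter] at hw
  obtain ⟨-, h1, h2, h3, h4⟩ := hw
  have h5 : (s.dom ∩ D.Z u w).card ≤ 6 := by
    refine (Finset.card_le_card ?_).trans (h2.trans (by norm_num))
    exact Finset.inter_subset_inter_left Finset.inter_subset_right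
  have h6 := hTR D hG hL u w (Ne.symm h1) s h5 h3
  have h7 := (abs_le.1 h6).2
  have h8 : avg (fun t => ind (D.Tight u w (ext s t))) =
      avg (fun t => ind (D.Tight u w (ext s t) ∧ D.Srv G u w (ext s t))) +
      avg (fun t => ind (D.Tight u w (ext s t) ∧ ¬ D.Srv G u w (ext s t))) := by
    rw [← avg_add]
    congr 1
    funext t
    unfold ind
    by_cases ha : D.Tight u w (ext s t) <;> by_cases hb : D.Srv G u w (ext s t) <;>
      simp [ha, hb]
  have h9 : avg (fun t => ind (D.Tight u w (ext s t) ∧ D.Srv G u w (ext s t))) ≤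
      19 / 20 * avg (fun t => ind (D.Tight u w (ext s t))) := by linarith
  have hg' : (1 : ℝ) ≤ g := by exact_mod_cast hg
  have h10 : ((g : ℝ) ^ 10)⁻¹ ≤ 1 / g := by
    rw [one_div]
    refine inv_anti₀ (by linarith) ?_
    calc (g : ℝ) = (g : ℝ) ^ 1 := (pow_one _).symm
      _ ≤ (g : ℝ) ^ 10 := pow_le_pow_right₀ hg' (by norm_num)
  have h11 : (0 : ℝ) ≤ hM g := Nat.cast_nonneg _
  calc (hM g : ℝ) * avg (fun t => ind (D.Tight u w (ext s t) ∧ D.Srv G u w (ext s t)))
      ≤ hM g * (19 / 20 * avg (fun t => ind (D.Tight u w (ext s t)))) :=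
        mul_le_mul_of_nonneg_left h9 h11
    _ = 19 / 20 * (hM g * avg (fun t => ind (D.Tight u w (ext s t)))) := by ring
    _ ≤ 19 / 20 * (1 + 1 / g) := by linarith

private theorem ind_nn (p : Prop) : 0 ≤ ind p := by
  unfold ind
  split_ifs <;> norm_num

private theorem ind_mn {p q : Prop} (h : p → q) : ind p ≤ ind q := by
  unfold ind
  by_cases hp : p
  · rw [if_pos hp, if_pos (h hp)]
  · rw [if_neg hp]
    split_ifs <;> norm_num

private theorem xi_nn (D : Dat g) (u w : Pl g) (T : Tr g) : 0 ≤ D.xi u w T := by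
  unfold Dat.xi
  split_ifs
  · exact Nat.cast_nonneg _
  · exact le_refl _

private theorem slotWt_nn (E : Env g) (B : Fin E.M → Pl g) : 0 ≤ E.slotWt B := by
  unfold Env.slotWt
  refine Finset.prod_nonneg (fun k _ => ?_)
  split_ifs
  · positivity
  · exact le_refl _

private theorem WT_mn {D : Dat g} {E : Env g} {u : Pl g} {X : Finset (Un g)}
    (hβ : ∀ B, E.BB D u X B → ∀ y ∈ D.Mu u X, |E.beta D B y| ≤ 1 / 2)
    {Ev Ev' : (Fin E.M → Pl g) → (Un g → Bool) → Prop} (h : ∀ B t, Ev B t → Ev' B t) :
    D.WT E u X Ev ≤ D.WT E u X Ev' := by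
  unfold Dat.WT
  refine Finset.sum_le_sum (fun B _ => ?_)
  by_cases hB : E.BB D u X B
  · refine mul_le_mul_of_nonneg_left ?_ (mul_nonneg (slotWt_nn E B) (ind_nn _))
    refine Finset.sum_le_sum (fun t _ => ?_)
    refine mul_le_mul_of_nonneg_right ?_ (Finset.prod_nonneg (fun k _ => xi_nn D u _ _))
    refine mul_le_mul_of_nonneg_right ?_ (ind_nn _)
    exact mul_le_mul_of_nonneg_left (ind_mn (h B t)) (cw_nonneg _ _ (hβ B hB) t)
  · have h0 : ind (E.BB D u X B) = 0 := if_neg hB
    rw [h0, mul_zero, zero_mul, zero_mul]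

private theorem fac_nn (A W : Finset (Pl g)) :
    0 ≤ 1 - 99 / 100 * (((A ∩ W).card : ℝ) / (W.card : ℝ)) := by
  have h : ((A ∩ W).card : ℝ) / (W.card : ℝ) ≤ 1 := by
    refine div_le_one_of_le₀ ?_ (Nat.cast_nonneg _)
    exact_mod_cast Finset.card_le_card Finset.inter_subset_right
  linarith

private theorem cst_nn (E : Env g) (X : Finset (Un g)) (st : Sta g E.M) : 0 ≤ E.cst X st := by
  unfold Env.cst
  refine mul_nonneg (mul_nonneg (by positivity) (Finset.prod_nonneg (fun k _ => ?_)))
    (Finset.prod_nonneg (fun k _ => fac_nn _ _))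
  positivity

private theorem cst_miss (E : Env g) (X : Finset (Un g)) (st : Sta g E.M) {k : Fin E.M}
    (hk : k ∉ st.hits) (hF : st.F k = ∅) (K0 : Finset (Pl g)) :
    E.cst X (st.miss k K0) = E.cst X st *
      (1 - 99 / 100 * (((K0 ∩ E.W k).card : ℝ) / ((E.W k).card : ℝ))) := by
  have hmem : k ∈ Finset.univ \ st.hits := by simp [hk]
  have h1 : ∏ x ∈ Finset.univ \ st.hits,
      (1 - 99 / 100 * (((Function.update st.F k K0 x ∩ E.W x).card : ℝ) / (E.W x).card)) =
      (1 - 99 / 100 * (((K0 ∩ E.W k).card : ℝ) / ((E.W k).card : ℝ))) *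
      ∏ x ∈ Finset.univ \ st.hits,
        (1 - 99 / 100 * (((st.F x ∩ E.W x).card : ℝ) / (E.W x).card)) := by
    rw [← Finset.mul_prod_erase _ _ hmem,
      ← Finset.mul_prod_erase (Finset.univ \ st.hits)
        (fun x => 1 - 99 / 100 * (((st.F x ∩ E.W x).card : ℝ) / (E.W x).card)) hmem]
    rw [Function.update_self, hF, Finset.empty_inter, Finset.card_empty, Nat.cast_zero, zero_div,
      mul_zero, sub_zero, one_mul]
    congr 1
    refine Finset.prod_congr rfl (fun x hx => ?_)
    rw [Function.update_of_ne (Finset.ne_of_mem_erase hx)]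
  unfold Env.cst Sta.miss
  simp only
  rw [h1]
  ring

private theorem cst_hit (E : Env g) (X : Finset (Un g)) (st : Sta g E.M) {k : Fin E.M}
    (hk : k ∉ st.hits) (hF : st.F k = ∅) (hX : X ⊆ st.s.dom) (w : Pl g) (Z A : Finset (Un g)) :
    E.cst X (st.hit k w Z A) = E.cst X st *
      (Real.exp (20 / g) * (hM g : ℝ) * (1 / 2 : ℝ) ^ (Z \ st.s.dom).card *
        (1 / ((E.W k).card : ℝ))) := by
  have hmem : k ∈ Finset.univ \ st.hits := by simp [hk]
  have hdom : ((st.s.dom ∪ Z) \ X).card = (st.s.dom \ X).card + (Z \ st.s.dom).card := by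
    rw [← Finset.card_union_of_disjoint]
    · congr 1
      ext y
      simp only [Finset.mem_sdiff, Finset.mem_union]
      constructor
      · rintro ⟨hy | hy, hyX⟩
        · exact Or.inl ⟨hy, hyX⟩
        · by_cases hd : y ∈ st.s.dom
          · exact Or.inl ⟨hd, hyX⟩
          · exact Or.inr ⟨hy, hd⟩
      · rintro (⟨hy, hyX⟩ | ⟨hy, hyd⟩)
        · exact ⟨Or.inl hy, hyX⟩
        · exact ⟨Or.inr hy, fun hyX => hyd (hX hyX)⟩
    · rw [Finset.disjoint_left]
      intro y hy hy'
      exact (Finset.mem_sdiff.1 hy').2 (Finset.mem_sdiff.1 hy).1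
  have hset : Finset.univ \ insert k st.hits = (Finset.univ \ st.hits).erase k := by
    ext x
    simp only [Finset.mem_sdiff, Finset.mem_univ, true_and, Finset.mem_insert, not_or,
      Finset.mem_erase]
  have h1 : ∏ x ∈ Finset.univ \ st.hits,
      (1 - 99 / 100 * (((st.F x ∩ E.W x).card : ℝ) / (E.W x).card)) =
      ∏ x ∈ (Finset.univ \ st.hits).erase k,
        (1 - 99 / 100 * (((st.F x ∩ E.W x).card : ℝ) / (E.W x).card)) := by
    rw [← Finset.mul_prod_erase _ _ hmem]
    rw [hF, Finset.empty_inter, Finset.card_empty, Nat.cast_zero, zero_div,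
      mul_zero, sub_zero, one_mul]
  have hexp : Real.exp (20 * ((st.hits.card : ℝ) + 1) / g) =
      Real.exp (20 * (st.hits.card : ℝ) / g) * Real.exp (20 / g) := by
    rw [← Real.exp_add]
    congr 1
    ring
  unfold Env.cst Sta.hit updP
  simp only
  rw [hset, h1, hdom, Finset.card_insert_of_notMem hk, Finset.prod_insert hk, Nat.cast_add,
    Nat.cast_one, hexp, pow_succ, pow_add]
  ring

private theorem core_num {c κ a F x : ℝ} (hc : 0 ≤ c) (ha : a ≤ κ) (hx : 0 ≤ x) (ha0 : 0 ≤ a) :
    c * (1 - 99 / 100 * κ) * (97 / 100 * F + x) + κ * (c * ((F + x) * (9603 / 10000))) ≤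
      c * (97 / 100 * F + x * (1 - a / 50)) := by
  have h1 : c * (97 / 100 * F + x * (1 - a / 50)) -
      (c * (1 - 99 / 100 * κ) * (97 / 100 * F + x) + κ * (c * ((F + x) * (9603 / 10000)))) =
      c * (x * (297 / 10000 * κ - a / 50)) := by ring
  have h2 : 0 ≤ c * (x * (297 / 10000 * κ - a / 50)) := by
    refine mul_nonneg hc (mul_nonneg hx ?_)
    linarith
  linarith

private theorem ind_core {D : Dat g} {u : Pl g} {X : Finset (Un g)} {E : Env g}
    (hE : E.OK D u X) {G : Finset (Finset (Pt g))} {I : Finset (Fin E.M)} {a : ℝ} (ha : 0 < a)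
    (ha1 : a ≤ 1)
    (hI : ∀ k ∈ I, ∀ s, D.PatOK u s → Over X s →
      a * (E.W k).card ≤ ((D.K G u s ∩ E.W k).card : ℝ))
    (hβ : ∀ B, E.BB D u X B → ∀ y ∈ D.Mu u X, |E.beta D B y| ≤ 1 / 2)
    (hpat : ∀ st : Sta g E.M, E.StaOK D u X st → D.PatOK u st.s ∧ Over X st.s)
    (hhist : ∀ st : Sta g E.M, E.StaOK D u X st → D.WT E u X (E.cons D u X st) ≤ E.cst X st)
    (hts : ∀ s : Pat g, ∀ w ∈ D.K G u s,
      (hM g : ℝ) * avg (fun t => ind (D.Tight u w (ext s t) ∧ D.Srv G u w (ext s t))) ≤
        19 / 20 * (1 + 1 / g))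
    (hg : Real.exp (20 / g) * (19 / 20 * (1 + 1 / g)) ≤ 9603 / 10000)
    (hW : ∀ k, (0 : ℝ) < ((E.W k).card : ℝ)) :
    ∀ (n : ℕ) (st : Sta g E.M) (P : Finset (Fin E.M)), E.StaOK D u X st →
    (∀ k, k ∉ P → st.F k = ∅) → Disjoint st.hits P → (I \ (st.hits ∪ P)).card = n →
    D.WT E u X (fun B t => E.cons D u X st B t ∧ E.EvC D u X G B t) ≤
      E.cst X st * ((97 / 100 : ℝ) ^ (g ^ 3 - st.hits.card) + (1 - a / 50) ^ n) := by
  have hx0 : (0 : ℝ) ≤ 1 - a / 50 := by linarith
  have base : ∀ st : Sta g E.M, E.StaOK D u X st → ∀ r : ℝ, 1 ≤ r →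
      D.WT E u X (fun B t => E.cons D u X st B t ∧ E.EvC D u X G B t) ≤ E.cst X st * r := by
    intro st h r hr
    refine (WT_mn hβ (fun B t h => h.1)).trans ((hhist st h).trans ?_)
    exact le_mul_of_one_le_right (cst_nn E X st) hr
  intro n
  induction n with
  | zero =>
    intro st P h hF hd hn
    refine base st h _ ?_
    rw [pow_zero]
    have : (0 : ℝ) ≤ (97 / 100 : ℝ) ^ (g ^ 3 - st.hits.card) := by positivity
    linarith
  | succ n ih =>
    intro st P h hF hd hn
    have hxn : (0 : ℝ) ≤ (1 - a / 50) ^ n := pow_nonneg hx0 n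
    have hxn1 : (0 : ℝ) ≤ (1 - a / 50) ^ (n + 1) := pow_nonneg hx0 _
    rcases Nat.lt_or_ge st.hits.card (g ^ 3) with hc | hc
    swap
    · refine base st h _ ?_
      rw [Nat.sub_eq_zero_of_le hc, pow_zero]
      linarith
    obtain ⟨k, hkm⟩ : (I \ (st.hits ∪ P)).Nonempty := by
      rw [← Finset.card_pos, hn]
      exact Nat.succ_pos n
    rw [Finset.mem_sdiff, Finset.mem_union, not_or] at hkm
    obtain ⟨hkI, hkh, hkP⟩ := hkm
    have hFk : st.F k = ∅ := hF k hkP
    obtain ⟨hpo, hov⟩ := hpat st h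
    set K0 := D.K G u st.s with hK0
    have hκ : a * (E.W k).card ≤ ((K0 ∩ E.W k).card : ℝ) := hI k hkI st.s hpo hov
    have hWk := hW k
    set c := E.cst X st with hcdef
    have hc0 : 0 ≤ c := cst_nn E X st
    set κ : ℝ := ((K0 ∩ E.W k).card : ℝ) / ((E.W k).card : ℝ) with hκdef
    have haκ : a ≤ κ := by
      rw [hκdef, le_div_iff₀ hWk]
      exact hκ
    have hκ1 : κ ≤ 1 := by
      rw [hκdef]
      refine div_le_one_of_le₀ ?_ (Nat.cast_nonneg _)
      exact_mod_cast Finset.card_le_card Finset.inter_subset_right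
    set F : ℝ := (97 / 100 : ℝ) ^ (g ^ 3 - (st.hits.card + 1)) with hFdef
    have hF0 : 0 ≤ F := by rw [hFdef]; positivity
    have hF1 : (97 / 100 : ℝ) ^ (g ^ 3 - st.hits.card) = 97 / 100 * F := by
      rw [hFdef, ← pow_succ']
      congr 1
      omega
    -- the slot is not hit
    have hmiss : D.WT E u X (fun B t => E.cons D u X (st.miss k K0) B t ∧ E.EvC D u X G B t) ≤
        c * (1 - 99 / 100 * κ) * (97 / 100 * F + (1 - a / 50) ^ n) := by
      have h1 := ih (st.miss k K0) (insert k P) (staOK_miss h k K0) ?_ ?_ ?_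
      · rw [cst_miss E X st hkh hFk K0] at h1
        have h2 : (st.miss k K0).hits = st.hits := rfl
        rw [h2, hF1] at h1
        exact h1
      · intro k' hk'
        rw [Finset.mem_insert, not_or] at hk'
        change Function.update st.F k K0 k' = ∅
        rw [Function.update_of_ne hk'.1]
        exact hF k' hk'.2
      · change Disjoint st.hits (insert k P)
        rw [Finset.disjoint_insert_right]
        exact ⟨hkh, hd⟩
      · change (I \ (st.hits ∪ insert k P)).card = n
        have h3 : I \ (st.hits ∪ insert k P) = (I \ (st.hits ∪ P)).erase k := by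
          ext x
          simp only [Finset.mem_sdiff, Finset.mem_union, Finset.mem_insert, Finset.mem_erase]
          tauto
        rw [h3, Finset.card_erase_of_mem, hn]
        · rfl
        · rw [Finset.mem_sdiff, Finset.mem_union, not_or]
          exact ⟨hkI, hkh, hkP⟩
    -- the slot is hit by the player w
    have hhit : ∀ w ∈ K0 ∩ E.W k, ∑ A ∈ (D.Z u w \ st.s.dom).powerset,
        ind (D.Tight u w (ext st.s (fun y => decide (y ∈ A))) ∧
             D.Srv G u w (ext st.s (fun y => decide (y ∈ A)))) *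
        D.WT E u X (fun B t => E.cons D u X (st.hit k w (D.Z u w) A) B t ∧ E.EvC D u X G B t) ≤
        1 / ((E.W k).card : ℝ) * (c * ((F + (1 - a / 50) ^ n) * (9603 / 10000))) := by
      intro w hw
      rw [Finset.mem_inter] at hw
      have hstep : ∀ A : Finset (Un g),
          D.WT E u X (fun B t => E.cons D u X (st.hit k w (D.Z u w) A) B t ∧
            E.EvC D u X G B t) ≤
          c * (Real.exp (20 / g) * (hM g : ℝ) * (1 / 2 : ℝ) ^ (D.Z u w \ st.s.dom).card *
            (1 / ((E.W k).card : ℝ))) * (F + (1 - a / 50) ^ n) := by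
        intro A
        have h1 := ih (st.hit k w (D.Z u w) A) P (staOK_hit h hkh hw.2 hc A) ?_ ?_ ?_
        · rw [cst_hit E X st hkh hFk hov.1] at h1
          have h2 : (st.hit k w (D.Z u w) A).hits.card = st.hits.card + 1 := by
            change (insert k st.hits).card = _
            exact Finset.card_insert_of_notMem hkh
          rw [h2] at h1
          exact h1
        · exact hF
        · change Disjoint (insert k st.hits) P
          rw [Finset.disjoint_insert_left]
          exact ⟨hkP, hd⟩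
        · change (I \ (insert k st.hits ∪ P)).card = n
          have h3 : I \ (insert k st.hits ∪ P) = (I \ (st.hits ∪ P)).erase k := by
            ext x
            simp only [Finset.mem_sdiff, Finset.mem_union, Finset.mem_insert, Finset.mem_erase]
            tauto
          rw [h3, Finset.card_erase_of_mem, hn]
          · rfl
          · rw [Finset.mem_sdiff, Finset.mem_union, not_or]
            exact ⟨hkI, hkh, hkP⟩
      have hsum := sum_traces (D.Z u w \ st.s.dom)
        (fun t => D.Tight u w (ext st.s t) ∧ D.Srv G u w (ext st.s t)) (by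
          intro t t' htt
          have h1 : ∀ y ∈ D.Z u w, ext st.s t y = ext st.s t' y := by
            intro y hy
            unfold ext
            by_cases hyd : y ∈ st.s.dom
            · rw [if_pos hyd, if_pos hyd]
            · rw [if_neg hyd, if_neg hyd, htt y (Finset.mem_sdiff.2 ⟨hy, hyd⟩)]
          exact and_congr (D.Tight_congr h1) (D.Srv_congr h1))
      have ht := hts st.s w hw.1
      calc ∑ A ∈ (D.Z u w \ st.s.dom).powerset,
            ind (D.Tight u w (ext st.s (fun y => decide (y ∈ A))) ∧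
              D.Srv G u w (ext st.s (fun y => decide (y ∈ A)))) *
            D.WT E u X (fun B t => E.cons D u X (st.hit k w (D.Z u w) A) B t ∧
              E.EvC D u X G B t)
          ≤ ∑ A ∈ (D.Z u w \ st.s.dom).powerset,
            ind (D.Tight u w (ext st.s (fun y => decide (y ∈ A))) ∧
              D.Srv G u w (ext st.s (fun y => decide (y ∈ A)))) *
            (c * (Real.exp (20 / g) * (hM g : ℝ) *
              (1 / 2 : ℝ) ^ (D.Z u w \ st.s.dom).card *
              (1 / ((E.W k).card : ℝ))) * (F + (1 - a / 50) ^ n)) :=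
            Finset.sum_le_sum (fun A _ => mul_le_mul_of_nonneg_left (hstep A) (ind_nn _))
        _ = (c * Real.exp (20 / g) * (hM g : ℝ) * (1 / ((E.W k).card : ℝ)) *
              (F + (1 - a / 50) ^ n)) *
            ∑ A ∈ (D.Z u w \ st.s.dom).powerset,
            ind (D.Tight u w (ext st.s (fun y => decide (y ∈ A))) ∧
              D.Srv G u w (ext st.s (fun y => decide (y ∈ A)))) *
              (1 / 2 : ℝ) ^ (D.Z u w \ st.s.dom).card := by
            rw [Finset.mul_sum]
            refine Finset.sum_congr rfl (fun A _ => ?_)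
            ring
        _ = (1 / ((E.W k).card : ℝ)) * (c * ((F + (1 - a / 50) ^ n) *
            (Real.exp (20 / g) * ((hM g : ℝ) * avg (fun t =>
              ind (D.Tight u w (ext st.s t) ∧ D.Srv G u w (ext st.s t))))))) := by
            rw [hsum]
            ring
        _ ≤ 1 / ((E.W k).card : ℝ) * (c * ((F + (1 - a / 50) ^ n) * (9603 / 10000))) := by
            refine mul_le_mul_of_nonneg_left ?_ (by positivity)
            refine mul_le_mul_of_nonneg_left ?_ hc0
            refine mul_le_mul_of_nonneg_left ?_ (add_nonneg hF0 hxn)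
            exact (mul_le_mul_of_nonneg_left ht (Real.exp_pos _).le).trans hg
    have hsplit := class_split hE h hkh hFk K0 G hβ
    have hsumhit := Finset.sum_le_sum hhit
    rw [Finset.sum_const, nsmul_eq_mul] at hsumhit
    have hκe : ((K0 ∩ E.W k).card : ℝ) *
        (1 / ((E.W k).card : ℝ) * (c * ((F + (1 - a / 50) ^ n) * (9603 / 10000)))) =
        κ * (c * ((F + (1 - a / 50) ^ n) * (9603 / 10000))) := by
      rw [hκdef]
      ring
    rw [hκe] at hsumhit
    rw [hF1, pow_succ]
    exact hsplit.trans ((add_le_add hmiss hsumhit).trans (core_num hc0 haκ hxn ha.le))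

private theorem ev_num : ∀ᶠ (g : ℕ) in Filter.atTop,
    Real.exp (20 / (g : ℝ)) * (19 / 20 * (1 + 1 / (g : ℝ))) ≤ 9603 / 10000 := by
  have h1 : Filter.Tendsto (fun g : ℕ => (20 : ℝ) / (g : ℝ)) Filter.atTop (nhds 0) :=
    tendsto_const_div_atTop_nhds_zero_nat 20
  have h2 : Filter.Tendsto (fun g : ℕ => (1 : ℝ) / (g : ℝ)) Filter.atTop (nhds 0) :=
    tendsto_const_div_atTop_nhds_zero_nat 1
  have h3 : Filter.Tendsto (fun g : ℕ => Real.exp (20 / (g : ℝ)) *
      (19 / 20 * (1 + 1 / (g : ℝ)))) Filter.atTop (nhds (Real.exp 0 * (19 / 20 * (1 + 0)))) :=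
    ((Real.continuous_exp.tendsto 0).comp h1).mul ((h2.const_add 1).const_mul (19 / 20))
  have h4 : Real.exp 0 * (19 / 20 * (1 + 0)) < 9603 / 10000 := by
    rw [Real.exp_zero]
    norm_num
  filter_upwards [h3.eventually (gt_mem_nhds h4)] with g hg
  exact hg.le

private theorem W_pos {D : Dat g} {u : Pl g} {X : Finset (Un g)} {E : Env g} (hg : 1 ≤ g)
    (hE : E.OK D u X) (k : Fin E.M) : (0 : ℝ) < ((E.W k).card : ℝ) := by
  have h1 : (0 : ℝ) < (g : ℝ) := by exact_mod_cast hg
  exact lt_of_lt_of_le (by positivity) (hE.W_card k)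

/-- CLASS INDUCTION. a and I as in ClassOK. P = set of slots already declared not hit. Induction on n
(all states and P). n = 0 or |hits| = g^3: WT <= WT (cons) <= cst (hist_bound, WT monotone in the event).
Step: choose k in I, k not in hits, not in P; K0 = K G u s, κ = |K0 cap W k|/|W k| >= a (ClassOK with
patOK_of_staOK), κ <= 1. class_split, induction hypothesis for (st.miss k K0, insert k P) and for
(st.hit k w (Z u w) A, P), where cst (st.miss k K0) = cst st * (1 - .99 κ) and
cst (st.hit ..) = cst st * exp(20/g) * h * (1/2)^|Z u w minus s.dom| / |W k| (the factor of k in the last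
product of cst st is 1 because F k is empty). Sum over A: sum_traces (Tight and Srv of ext s t depend only
on the twins in Z u w minus s.dom: Tight_congr, Srv_congr) and tight_srv: the hits contribute at most
cst st * κ * exp(20/g) * (19/20)(1 + 1/g) * (f^(r-j-1) + x^n), f = 97/100, x = 1 - a/50, r = g^3,
j = |hits|. With exp(20/g) (19/20)(1 + 1/g) <= .99 * .97 = .9603:
total <= cst st * [(1 - .99κ)(f^(r-j) + x^n) + .9603 κ (f^(r-j-1) + x^n)]
 <= cst st * [f^(r-j) + x^n (1 - .0297 κ)] <= cst st * [f^(r-j) + x^(n+1)]. -/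
theorem class_ind : ∀ᶠ (g : ℕ) in Filter.atTop, ∀ D : Dat g, Geo D.S → D.Lab →
    ∀ (u : Pl g) (X : Finset (Un g)) (E : Env g), E.OK D u X →
    ∀ (G : Finset (Finset (Pt g))) (I : Finset (Fin E.M)) (a : ℝ), 0 < a → a ≤ 1 →
    (∀ k ∈ I, ∀ s, D.PatOK u s → Over X s → a * (E.W k).card ≤ ((D.K G u s ∩ E.W k).card : ℝ)) →
    ∀ (n : ℕ) (st : Sta g E.M) (P : Finset (Fin E.M)), E.StaOK D u X st →
    (∀ k, k ∉ P → st.F k = ∅) → Disjoint st.hits P → (I \ (st.hits ∪ P)).card = n →
    D.WT E u X (fun B t => E.cons D u X st B t ∧ E.EvC D u X G B t) ≤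
      E.cst X st * ((97 / 100 : ℝ) ^ (g ^ 3 - st.hits.card) + (1 - a / 50) ^ n) := by
  filter_upwards [beta_le, patOK_of_staOK, hist_bound, tight_srv, ev_num,
    Filter.eventually_ge_atTop 1] with g h1 h2 h3 h4 h5 h6
  intro D hgeo hlab u X E hE G I a ha ha1 hI n st P hst hF hd hn
  refine ind_core hE ha ha1 hI ?_ (h2 D hgeo u X E hE) (h3 D hgeo hlab u X E hE)
    (fun s w hw => h4 D hgeo hlab u s G w hw) h5 (W_pos h6 hE) n st P hst hF hd hn
  intro B hB y hy
  exact (h1 D u X E hE B hB y hy).trans (by norm_num)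

/-- LEMMA 7. Initial state: s = (X, none), no hits, F = empty, P = empty, cst = 2; n = |I|.
(97/100)^(g^3) <= exp(-.03 g^3), (1 - a/50)^|I| <= exp(-a|I|/50) <= exp(-g^3/125). Every (B, t) is
consistent with the initial state (trA t y = none on X). -/
theorem class_bound : ∀ᶠ (g : ℕ) in Filter.atTop, ∀ D : Dat g, Geo D.S → D.Lab →
    ∀ (u : Pl g) (X : Finset (Un g)) (E : Env g), E.OK D u X →
    ∀ G : Finset (Finset (Pt g)), E.ClassOK D u X G →
    D.WT E u X (E.EvC D u X G) ≤ 4 * Real.exp (-((g : ℝ) ^ 3 / 125)) := by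
  filter_upwards [class_ind, beta_le, Filter.eventually_ge_atTop 1] with g h1 h2 h6
  intro D hgeo hlab u X E hE G hcl
  obtain ⟨I, a, ha, ha1, haI, hI⟩ := hcl
  have hβ : ∀ B, E.BB D u X B → ∀ y ∈ D.Mu u X, |E.beta D B y| ≤ 1 / 2 := by
    intro B hB y hy
    exact (h2 D u X E hE B hB y hy).trans (by norm_num)
  set st : Sta g E.M := ⟨⟨X, fun _ => none⟩, ∅, fun _ => u, fun _ => ∅⟩ with hst
  have hok : E.StaOK D u X st := by
    refine ⟨?_, ?_, ?_, ?_, ?_, ?_⟩
    · simp [hst]
    · intro y _
      rfl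
    · intro y hy hy'
      exact absurd hy hy'
    · intro y _
      rfl
    · intro k hk
      exact absurd hk (Finset.notMem_empty k)
    · simp [hst]
  have hcst : E.cst X st = 2 := by
    unfold Env.cst
    simp [hst]
  have h7 := h1 D hgeo hlab u X E hE G I a ha ha1 hI I.card st ∅ hok (fun _ _ => rfl)
    (Finset.disjoint_empty_right _) (by simp [hst])
  have h8 : D.WT E u X (E.EvC D u X G) ≤
      D.WT E u X (fun B t => E.cons D u X st B t ∧ E.EvC D u X G B t) := by
    refine WT_mn hβ (fun B t h => ⟨⟨?_, ?_, ?_⟩, h⟩)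
    · intro k hk
      exact absurd hk (Finset.notMem_empty k)
    · intro k _
      exact Finset.notMem_empty _
    · intro y hy
      change D.trA u X t y = none
      unfold Dat.trA
      rw [if_neg]
      intro hy'
      exact (Finset.mem_sdiff.1 hy').2 hy
  refine h8.trans (h7.trans ?_)
  rw [hcst]
  have h9 : st.hits.card = 0 := Finset.card_empty
  rw [h9, Nat.sub_zero]
  have h10 : (97 / 100 : ℝ) ^ (g ^ 3) ≤ Real.exp (-((g : ℝ) ^ 3 / 125)) := by
    have e1 : (97 / 100 : ℝ) ≤ Real.exp (-(3 / 100)) := by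
      have := Real.add_one_le_exp (-(3 / 100) : ℝ)
      linarith
    have e2 : (97 / 100 : ℝ) ^ (g ^ 3) ≤ Real.exp (-(3 / 100)) ^ (g ^ 3) :=
      pow_le_pow_left₀ (by norm_num) e1 _
    refine e2.trans ?_
    rw [← Real.exp_nat_mul]
    refine Real.exp_le_exp.2 ?_
    push_cast
    have e3 : (0 : ℝ) ≤ (g : ℝ) ^ 3 := by positivity
    linarith
  have h11 : (1 - a / 50 : ℝ) ^ I.card ≤ Real.exp (-((g : ℝ) ^ 3 / 125)) := by
    have e1 : (1 - a / 50 : ℝ) ≤ Real.exp (-(a / 50)) := by
      have := Real.add_one_le_exp (-(a / 50) : ℝ)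
      linarith
    have e2 : (1 - a / 50 : ℝ) ^ I.card ≤ Real.exp (-(a / 50)) ^ I.card :=
      pow_le_pow_left₀ (by linarith) e1 _
    refine e2.trans ?_
    rw [← Real.exp_nat_mul]
    refine Real.exp_le_exp.2 ?_
    nlinarith [haI]
  linarith

end Pool.Larman
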