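import Pool.Agent.Larman.LMix
import Pool.Agent.Larman.Bas
import Pool.Agent.Larman.Asy
import Pool.Agent.Larman.NumA
import Pool.Agent.LarE.Fourier

/-!
# MP_a9ba8c (Larman, t = 1): congruences are free (Lemma 5 and (7.2))
-/

set_option autoImplicit false

open scoped BigOperators Classical

noncomputable section

namespace Pool.Larman

variable {g : ℕ}

/-- contribution of the unit y with the state o to the count minus the hash -/
private def lcf (D : Dat g) (u w : Pl g) (y : Un g) (o : Option Bool) : ZMod (hM g) :=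
  (∑ i : Bool, if (y, i) ∈ D.Q u w ∧ o = some i then 1 else 0) -
    (if y ∈ D.C u w then (if o = some true then D.r u w y else 0) else 0)

private theorem cnt_sub_hash (D : Dat g) (u w : Pl g) (f : Tr g) :
    ((cnt (D.Q u w) f : ℕ) : ZMod (hM g)) - D.hash u w f true = ∑ y, lcf D u w y (f y) := by
  unfold lcf cnt Dat.hash
  rw [Finset.sum_sub_distrib, Finset.sum_ite_mem, Finset.univ_inter]
  congr 1
  rw [Finset.card_filter, Nat.cast_sum]
  have h1 : ∀ y : Un g, (∑ i : Bool, if (y, i) ∈ D.Q u w ∧ f y = some i then (1 : ZMod (hM g)) else 0)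
      = ∑ i : Bool, if (y, i) ∈ D.Q u w then (if f y = some i then 1 else 0) else 0 := by
    intro y
    refine Finset.sum_congr rfl fun i _ => ?_
    by_cases h2 : (y, i) ∈ D.Q u w <;> simp [h2]
  rw [Finset.sum_congr rfl fun y _ => h1 y, ← Fintype.sum_prod_type'
    (f := fun (y : Un g) (i : Bool) =>
      if (y, i) ∈ D.Q u w then (if f y = some i then (1 : ZMod (hM g)) else 0) else 0)]
  rw [show (∑ x : Un g × Bool, if (x.1, x.2) ∈ D.Q u w then
      (if f x.1 = some x.2 then (1 : ZMod (hM g)) else 0) else 0) =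
      ∑ x : Un g × Bool, if x ∈ D.Q u w then
      (if f x.1 = some x.2 then (1 : ZMod (hM g)) else 0) else 0 from rfl]
  rw [Finset.sum_ite_mem, Finset.univ_inter]
  refine Finset.sum_congr rfl fun p _ => ?_
  by_cases h2 : f p.1 = some p.2 <;> simp [h2]

private theorem lcf_diff (D : Dat g) (u w : Pl g) (y : Un g) (b : Bool) :
    lcf D u w y (some b) = lcf D u w y (some false) +
      (if b = true then D.lc u w y else 0) := by
  cases b
  · simp
  · simp only [if_true]
    unfold lcf Dat.lc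
    rw [Fintype.sum_bool, Fintype.sum_bool]
    by_cases hC : y ∈ D.C u w
    · have h1 : ∀ i, (y, i) ∉ D.Q u w := fun i hi => not_mem_C_of_mem_Q D hi hC
      simp [hC, h1]
    · by_cases h2 : (y, true) ∈ D.Q u w <;> by_cases h3 : (y, false) ∈ D.Q u w <;>
        simp [hC, h2, h3]

/-- the count in the congruence of the player w is an affine function of the bits of the free blocks:
for twins t (everything else fixed) changing the bits on blocks. Precisely: put c(t0) = cnt (Q u w) (trA t0')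
- const - hash (trA t0') where t0' = t0 with false on Fb, in ZMod. Then cong u w (trA (mix Fb t0 t)) holds
iff c + sum over b in Fb of (if t b then lc u w b else 0) = 0. Proof: a free block b in Fb (b in Bu, so b
in S u, b not in X) contributes to (cnt : ZMod) the indicator of (b, t b) in Q u w, and to the hash
(if t b = true then r u w b, b in C u w). If b is in C u w its two points are not in Q. If b is not
in Z u w nothing. So the difference between t b = true and t b = false is exactly lc u w b (with the sign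
minus for the hash, which is on the other side of the congruence). -/
theorem cong_affine (D : Dat g) (u w : Pl g) (X Fb : Finset (Un g)) (hFb : Fb ⊆ D.Bu u X)
    (t0 : Un g → Bool) : ∃ c : ZMod (hM g), ∀ t : Un g → Bool,
    (D.cong u w (D.trA u X (mix Fb t0 t)) ↔
      c + ∑ b ∈ Fb, (if t b = true then D.lc u w b else 0) = 0) := by
  obtain ⟨κ, hκ⟩ : ∃ κ : ZMod (hM g), ∀ T : Tr g, (D.cong u w T ↔
      ((cnt (D.Q u w) T : ℕ) : ZMod (hM g)) = κ + D.hash u w T true) :=
    ⟨_, fun T => Iff.rfl⟩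
  refine ⟨∑ y ∈ Finset.univ \ Fb, lcf D u w y (D.trA u X t0 y) +
    ∑ y ∈ Fb, lcf D u w y (some false) - κ, fun t => ?_⟩
  have h1 := cnt_sub_hash D u w (D.trA u X (mix Fb t0 t))
  have h2 : ∑ y, lcf D u w y (D.trA u X (mix Fb t0 t) y) =
      ∑ y ∈ Finset.univ \ Fb, lcf D u w y (D.trA u X t0 y) +
        (∑ y ∈ Fb, lcf D u w y (some false) + ∑ b ∈ Fb, (if t b = true then D.lc u w b else 0)) := by
    rw [← Finset.sum_sdiff (Finset.subset_univ Fb)]
    congr 1
    · refine Finset.sum_congr rfl fun y hy => ?_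
      have hy' : y ∉ Fb := (Finset.mem_sdiff.mp hy).2
      congr 1
      unfold Dat.trA mix
      rw [if_neg hy']
    · rw [← Finset.sum_add_distrib]
      refine Finset.sum_congr rfl fun y hy => ?_
      have hy2 : y ∈ D.S u \ X := by
        have := hFb hy
        unfold Dat.Bu kind at this
        rw [Finset.mem_sdiff, Finset.mem_filter] at this
        exact Finset.mem_sdiff.mpr ⟨this.1.1, this.2⟩
      have hv : D.trA u X (mix Fb t0 t) y = some (t y) := by
        unfold Dat.trA mix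
        rw [if_pos hy2, if_pos hy]
      rw [hv, lcf_diff]
  rw [hκ, ← sub_eq_zero]
  have h3 : ((cnt (D.Q u w) (D.trA u X (mix Fb t0 t)) : ℕ) : ZMod (hM g)) -
      (κ + D.hash u w (D.trA u X (mix Fb t0 t)) true) =
      ∑ y ∈ Finset.univ \ Fb, lcf D u w y (D.trA u X t0 y) +
        ∑ y ∈ Fb, lcf D u w y (some false) - κ +
        ∑ b ∈ Fb, (if t b = true then D.lc u w b else 0) := by
    rw [h2] at h1
    rw [← sub_sub, sub_right_comm, h1]
    ring
  rw [h3]

private theorem cosq_nonneg (x : ZMod (hM g)) : 0 ≤ cosq x := norm_nonneg _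

private theorem cosq_le_one (x : ZMod (hM g)) : cosq x ≤ 1 := by
  unfold cosq
  have h9 : ‖(ZMod.stdAddChar x : ℂ)‖ = 1 := by
    rw [ZMod.stdAddChar_apply]; exact Circle.norm_coe _
  rw [norm_div, Complex.norm_ofNat, div_le_one (by norm_num)]
  refine (norm_add_le _ _).trans ?_
  rw [h9, norm_one]
  norm_num

private theorem prod_cosq_le {s s' : Finset (Un g)} (h : s ⊆ s') (f : Un g → ZMod (hM g)) :
    ∏ b ∈ s', cosq (f b) ≤ ∏ b ∈ s, cosq (f b) := by
  rw [← Finset.prod_sdiff h]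
  calc _ ≤ 1 * ∏ b ∈ s, cosq (f b) := by
        refine mul_le_mul_of_nonneg_right ?_ (Finset.prod_nonneg fun b _ => cosq_nonneg _)
        exact Finset.prod_le_one (fun b _ => cosq_nonneg _) (fun b _ => cosq_le_one _)
    _ = _ := one_mul _

private theorem ev_final : ∀ᶠ (g : ℕ) in Filter.atTop, ∀ n : ℕ, (n : ℝ) ≤ 2 * (g : ℝ) ^ 1033 →
    (1 + ((hM g : ℝ) - 1) * (1 / 2 : ℝ) ^ (g ^ 4)) ^ n - 1 ≤ Real.exp (-g) := by
  have hl : (0 : ℝ) < Real.log 2 := Real.log_pos (by norm_num)
  filter_upwards [ev_poly_exp 4 1085 4 (by norm_num) (Real.log 2 / 2) (by positivity),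
    ev_ge 2] with g h1 h2 n hn
  have e1 : ((1 : ℝ) / 2) ^ (g ^ 4) = Real.exp (-(Real.log 2 * (g : ℝ) ^ 4)) := by
    have : ((1 : ℝ) / 2) = Real.exp (-Real.log 2) := by
      rw [Real.exp_neg, Real.exp_log (by norm_num)]
      norm_num
    rw [this, ← Real.exp_nat_mul]
    congr 1
    push_cast
    ring
  rw [hM_cast, add_sub_cancel_right, e1]
  set A : ℝ := (g : ℝ) ^ 52 * Real.exp (-(Real.log 2 * (g : ℝ) ^ 4)) with hA
  have hA0 : 0 ≤ A := by positivity
  have e2 : (1 + A) ^ n ≤ Real.exp (n * A) := by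
    rw [Real.exp_nat_mul]
    refine pow_le_pow_left₀ (by linarith) ?_ n
    rw [add_comm]
    exact Real.add_one_le_exp A
  have hgl : (g : ℝ) ≤ Real.log 2 / 2 * (g : ℝ) ^ 4 := by
    have h3 : (0.6931471803 : ℝ) < Real.log 2 := Real.log_two_gt_d9
    have h4 : (8 : ℝ) ≤ (g : ℝ) ^ 3 := by
      calc (8 : ℝ) = 2 ^ 3 := by norm_num
        _ ≤ (g : ℝ) ^ 3 := pow_le_pow_left₀ (by norm_num) h2 3
    have h5 : (g : ℝ) ^ 4 = (g : ℝ) ^ 3 * g := by ring
    rw [h5]
    have h6 : (1 : ℝ) ≤ Real.log 2 / 2 * (g : ℝ) ^ 3 := by nlinarith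
    have h7 : (0 : ℝ) ≤ g := by linarith
    calc (g : ℝ) = 1 * g := (one_mul _).symm
      _ ≤ (Real.log 2 / 2 * (g : ℝ) ^ 3) * g := mul_le_mul_of_nonneg_right h6 h7
      _ = _ := by ring
  have e3 : 2 * (n * A) ≤ Real.exp (-g) := by
    have h3 : 2 * (n * A) ≤ 4 * (g : ℝ) ^ 1085 * Real.exp (-(Real.log 2 * (g : ℝ) ^ 4)) := by
      have : 2 * (n * A) ≤ 2 * ((2 * (g : ℝ) ^ 1033) * A) := by
        have := mul_le_mul_of_nonneg_right hn hA0
        linarith
      refine this.trans (le_of_eq ?_)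
      rw [hA]
      have e : (g : ℝ) ^ 1085 = (g : ℝ) ^ 1033 * (g : ℝ) ^ 52 := by rw [← pow_add]
      rw [e]
      ring
    refine h3.trans ?_
    have h4 : 4 * (g : ℝ) ^ 1085 * Real.exp (-(Real.log 2 * (g : ℝ) ^ 4)) ≤
        Real.exp (Real.log 2 / 2 * (g : ℝ) ^ 4) * Real.exp (-(Real.log 2 * (g : ℝ) ^ 4)) :=
      mul_le_mul_of_nonneg_right h1 (Real.exp_pos _).le
    refine h4.trans ?_
    rw [← Real.exp_add]
    refine Real.exp_le_exp.2 ?_
    linarith
  have e4 : (n : ℝ) * A ≤ 1 := by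
    have : Real.exp (-(g : ℝ)) ≤ 1 := by
      rw [Real.exp_le_one_iff]
      linarith
    have h0 : (0 : ℝ) ≤ n * A := by positivity
    linarith
  have e5 : Real.exp (n * A) - 1 ≤ 2 * (n * A) := by
    have h0 : (0 : ℝ) ≤ n * A := by positivity
    have h3 := Real.abs_exp_sub_one_le (x := (n : ℝ) * A) (by rw [abs_of_nonneg h0]; exact e4)
    rw [abs_of_nonneg h0] at h3
    exact (le_abs_self _).trans h3
  linarith

/-- LEMMA 5. For slot vectors B with distinct players and a set KK of slots, if all other slots have few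
hash blocks in Y, the average of the product of the h * [congruence] of the other slots over the bits of
the free blocks outside Y is 1 up to exp(-g). PROOF: cong_affine for every k not in KK with
Fb = Bu u X minus Y, then fourier_main (LarE/Fourier) with Fr = Fb, T = the subtype of slots not in KK,
M k i = lc u (B k) i. Hypothesis hM: for χ <> 0 let Dn be the image under B of the support of χ, and
transport χ to players (B injective): Dn is nonempty, |Dn| = card of the support, u not in Dn (W_ne),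
|Dn| <= M <= 2 g^1033. Lab.l7 with the set E = union over w in Dn of (C u w cap Y), |E| <= 60 g^3 |Dn|: the
product over (biUnion C u w) minus E of cosq is <= (1/2)^(g^4 |Dn|); these blocks are in Fb (C u w is in
S u, of kind 1, disjoint from X by W_C, not in Y), and the other factors of the product over Fb are <= 1
(|1 + z| <= 2). So ρ = (1/2)^(g^4). Finally (1 + h (1/2)^(g^4))^M - 1 <= exp(M h 2^(-g^4)) - 1 <= exp(-g). -/
theorem fourier_slots : ∀ᶠ (g : ℕ) in Filter.atTop, ∀ D : Dat g, D.Lab →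
    ∀ (u : Pl g) (X : Finset (Un g)) (E : Env g), E.OK D u X →
    ∀ B : Fin E.M → Pl g, (∀ k, B k ∈ E.W k) → Function.Injective B →
    ∀ (KK : Finset (Fin E.M)) (Y : Finset (Un g)),
    (∀ k, k ∉ KK → ((D.C u (B k) ∩ Y).card : ℝ) ≤ 60 * (g : ℝ) ^ 3) →
    ∀ t0 : Un g → Bool,
    |avg (fun t => ∏ k ∈ Finset.univ \ KK,
        D.xi u (B k) (D.trA u X (mix (D.Bu u X \ Y) t0 t))) - 1| ≤ Real.exp (-g) := by
  filter_upwards [ev_final] with g hfin D hD u X E hE B hB hinj KK Y hY t0
  have haff := fun k : Fin E.M => cong_affine D u (B k) X (D.Bu u X \ Y) Finset.sdiff_subset t0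
  choose c hc using haff
  have h1 : avg (fun t => ∏ k ∈ Finset.univ \ KK,
      D.xi u (B k) (D.trA u X (mix (D.Bu u X \ Y) t0 t))) =
      Pool.LarProb.Ex (Pool.LarProb.PW (A := fun _ : Un g => Bool) (fun _ => fair))
        (fun a => ∏ k : ↥(Finset.univ \ KK), ((hM g : ℝ) *
          Pool.LarProb.ind (c k + ∑ i ∈ D.Bu u X \ Y, (if a i then D.lc u (B k) i else 0) = 0))) := by
    rw [avg_eq]
    unfold fw
    congr 1
    funext a
    rw [← Finset.prod_coe_sort]
    refine Finset.prod_congr rfl fun k _ => ?_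
    unfold Dat.xi
    by_cases hk : D.cong u (B k) (D.trA u X (mix (D.Bu u X \ Y) t0 a))
    · rw [if_pos hk, Pool.LarProb.ind_true ((hc k a).mp hk), mul_one]
    · rw [if_neg hk, Pool.LarProb.ind_false (fun h => hk ((hc k a).mpr h)), mul_zero]
  rw [h1]
  have h2 := Pool.LarE.fourier_main (h := hM g) (I := Un g) (T := ↥(Finset.univ \ KK))
    (w := fun _ => fair) (fun _ => fair_isP) (D.Bu u X \ Y) (fun i _ x => rfl)
    (fun k => c k) (fun k i => D.lc u (B k) i) (ρ := (1 / 2 : ℝ) ^ (g ^ 4)) ?_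
  · refine h2.trans ?_
    refine hfin _ ?_
    rw [Fintype.card_coe]
    refine le_trans ?_ hE.M_le
    have : (Finset.univ \ KK).card ≤ E.M := by
      calc (Finset.univ \ KK).card ≤ (Finset.univ : Finset (Fin E.M)).card :=
            Finset.card_le_card Finset.sdiff_subset
        _ = E.M := by rw [Finset.card_univ, Fintype.card_fin]
    exact_mod_cast this
  · intro χ hχ
    -- transport to players
    set e : ↥(Finset.univ \ KK) → Pl g := fun k => B k with he
    have hei : Function.Injective e := fun a b hab => Subtype.ext (hinj hab)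
    set Sp : Finset ↥(Finset.univ \ KK) := Finset.univ.filter (fun k => χ k ≠ 0) with hSp
    set Dn : Finset (Pl g) := Sp.image e with hDn
    have hcard : Dn.card = Sp.card := Finset.card_image_of_injective _ hei
    set χ' : Pl g → ZMod (hM g) := Function.extend e χ 0 with hχ'
    have hext : ∀ k, χ' (e k) = χ k := fun k => hei.extend_apply χ 0 k
    have hmem : ∀ w ∈ Dn, ∃ k : ↥(Finset.univ \ KK), χ k ≠ 0 ∧ B k = w := by
      intro w hw
      obtain ⟨k, hk, rfl⟩ := Finset.mem_image.mp hw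
      exact ⟨k, (Finset.mem_filter.mp hk).2, rfl⟩
    have hsum : ∀ b, ∑ k, χ k * D.lc u (B k) b = ∑ w ∈ Dn, χ' w * D.lc u w b := by
      intro b
      rw [hDn, Finset.sum_image (fun a _ b _ hab => hei hab)]
      have h3 : ∀ k : ↥(Finset.univ \ KK), χ' (e k) * D.lc u (e k) b = χ k * D.lc u (B k) b :=
        fun k => by rw [hext]
      rw [Finset.sum_congr rfl (fun k _ => h3 k), hSp, Finset.sum_filter]
      refine Finset.sum_congr rfl fun k _ => ?_
      by_cases hk : χ k = 0
      · simp [hk]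
      · simp [hk]
    have hu : u ∉ Dn := by
      intro hu
      obtain ⟨k, -, hk⟩ := hmem u hu
      exact hE.W_ne k (B k) (hB k) hk
    have hne : Dn.Nonempty := by
      have : ∃ k, χ k ≠ 0 := by
        by_contra hcon
        push Not at hcon
        exact hχ (funext hcon)
      obtain ⟨k, hk⟩ := this
      exact ⟨e k, Finset.mem_image_of_mem e (Finset.mem_filter.mpr ⟨Finset.mem_univ _, hk⟩)⟩
    have hDM : (Dn.card : ℝ) ≤ 2 * (g : ℝ) ^ 1033 := by
      refine le_trans ?_ hE.M_le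
      have : Dn.card ≤ E.M := by
        rw [hcard]
        calc Sp.card ≤ (Finset.univ : Finset ↥(Finset.univ \ KK)).card :=
              Finset.card_le_card (Finset.filter_subset _ _)
          _ = (Finset.univ \ KK).card := by rw [Finset.card_univ, Fintype.card_coe]
          _ ≤ (Finset.univ : Finset (Fin E.M)).card := Finset.card_le_card Finset.sdiff_subset
          _ = E.M := by rw [Finset.card_univ, Fintype.card_fin]
      exact_mod_cast this
    have hnz : ∀ w ∈ Dn, χ' w ≠ 0 := by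
      intro w hw
      obtain ⟨k, hk, rfl⟩ := hmem w hw
      rw [show B k = e k from rfl, hext]
      exact hk
    set Ex : Finset (Un g) := Dn.biUnion (fun w => D.C u w ∩ Y) with hEx
    have hExc : (Ex.card : ℝ) ≤ 60 * (g : ℝ) ^ 3 * Dn.card := by
      calc (Ex.card : ℝ) ≤ ((∑ w ∈ Dn, (D.C u w ∩ Y).card : ℕ) : ℝ) := by
            exact_mod_cast Finset.card_biUnion_le
        _ = ∑ w ∈ Dn, ((D.C u w ∩ Y).card : ℝ) := by push_cast; rfl
        _ ≤ ∑ w ∈ Dn, 60 * (g : ℝ) ^ 3 := by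
            refine Finset.sum_le_sum fun w hw => ?_
            obtain ⟨k, -, rfl⟩ := hmem w hw
            exact hY k (Finset.mem_sdiff.mp k.2).2
        _ = _ := by rw [Finset.sum_const, nsmul_eq_mul]; ring
    have h7 := hD.l7 u Dn χ' Ex hu hne hDM hnz hExc
    have hsub : (Dn.biUnion (fun w => D.C u w)) \ Ex ⊆ D.Bu u X \ Y := by
      intro b hb
      obtain ⟨hb1, hb2⟩ := Finset.mem_sdiff.mp hb
      obtain ⟨w, hw, hbw⟩ := Finset.mem_biUnion.mp hb1
      have hbY : b ∉ Y := fun hbY =>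
        hb2 (Finset.mem_biUnion.mpr ⟨w, hw, Finset.mem_inter.mpr ⟨hbw, hbY⟩⟩)
      obtain ⟨k, -, hk⟩ := hmem w hw
      have hbX : b ∉ X := by
        have := hE.W_C k w (hk ▸ hB k)
        exact Finset.disjoint_left.mp this hbw
      have hbS : b ∈ D.S u := by
        have := mem_Z_of_mem_C D hbw
        unfold Dat.Z at this
        exact (Finset.mem_inter.mp this).1
      refine Finset.mem_sdiff.mpr ⟨Finset.mem_sdiff.mpr ⟨Finset.mem_filter.mpr
        ⟨hbS, kind_of_mem_C D hbw⟩, hbX⟩, hbY⟩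
    have h8 : ∏ i ∈ D.Bu u X \ Y,
        ‖(1 + (ZMod.stdAddChar (∑ k, χ k * D.lc u (B k) i) : ℂ)) / 2‖ =
        ∏ i ∈ D.Bu u X \ Y, cosq (∑ w ∈ Dn, χ' w * D.lc u w i) := by
      refine Finset.prod_congr rfl fun i _ => ?_
      rw [hsum]
      rfl
    have h9 : (((1 : ℝ) / 2) ^ (g ^ 4)) ^ Sp.card = (1 / 2 : ℝ) ^ (g ^ 4 * Dn.card) := by
      rw [hcard, ← pow_mul]
    show ∏ i ∈ D.Bu u X \ Y,
        ‖(1 + (ZMod.stdAddChar (∑ k, χ k * D.lc u (B k) i) : ℂ)) / 2‖ ≤
        (((1 : ℝ) / 2) ^ (g ^ 4)) ^ Sp.card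
    rw [h8, h9]
    exact (prod_cosq_le hsub _).trans h7

private theorem LInner_disj (D : Dat g) (u : Pl g) (X Y : Finset (Un g)) :
    Disjoint (D.Mu u X) (D.Bu u X \ Y) := by
  rw [Finset.disjoint_left]
  intro y h1 h2
  have h3 : y.1 = 0 := (Finset.mem_filter.1 (Finset.mem_sdiff.1 h1).1).2
  have h4 : y.1 = 1 :=
    (Finset.mem_filter.1 (Finset.mem_sdiff.1 (Finset.mem_sdiff.1 h2).1).1).2
  rw [h3] at h4
  exact absurd h4 (by decide)

private theorem LInner_xi_nonneg (D : Dat g) (u w : Pl g) (T : Tr g) : 0 ≤ D.xi u w T := by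
  unfold Dat.xi
  split_ifs
  · exact Nat.cast_nonneg _
  · exact le_rfl

/-- (7.2). PROOF: the product over all slots is the product over KK times the product over the others.
Φ times the product over KK does not depend on the twins in Fb = Bu u X minus Y: xi u (B k) depends only
on the trace on Z u (B k) (xi_congr), which is contained in Y u X. Use cw_mix (Mu and Bu are disjoint:
kinds 0 and 1) and fourier_slots. -/
theorem inner_le : ∀ᶠ (g : ℕ) in Filter.atTop, ∀ D : Dat g, D.Lab →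
    ∀ (u : Pl g) (X : Finset (Un g)) (E : Env g), E.OK D u X →
    ∀ B : Fin E.M → Pl g, (∀ k, B k ∈ E.W k) → Function.Injective B →
    ∀ (KK : Finset (Fin E.M)) (Y : Finset (Un g)),
    (∀ k, k ∉ KK → ((D.C u (B k) ∩ Y).card : ℝ) ≤ 60 * (g : ℝ) ^ 3) →
    (∀ k ∈ KK, D.Z u (B k) ⊆ Y ∪ X) →
    ∀ β : Un g → ℝ, (∀ y ∈ D.Mu u X, |β y| ≤ 1 / 2) →
    ∀ Φ : (Un g → Bool) → ℝ, (∀ t, 0 ≤ Φ t) →
    (∀ t t', (∀ y, y ∉ D.Bu u X \ Y → t y = t' y) → Φ t = Φ t') →
    ∑ t, cw (D.Mu u X) β t * (Φ t * ∏ k, D.xi u (B k) (D.trA u X t)) ≤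
      (1 + Real.exp (-g)) *
        ∑ t, cw (D.Mu u X) β t * (Φ t * ∏ k ∈ KK, D.xi u (B k) (D.trA u X t)) := by
  filter_upwards [fourier_slots] with g hg
  intro D hL u X E hE B hB hinj KK Y hC hZ β hβ Φ hΦ0 hΦ
  have key : ∀ t, Φ t * ∏ k, D.xi u (B k) (D.trA u X t) =
      (Φ t * ∏ k ∈ KK, D.xi u (B k) (D.trA u X t)) *
        ∏ k ∈ Finset.univ \ KK, D.xi u (B k) (D.trA u X t) := by
    intro t
    rw [mul_assoc, mul_comm (∏ k ∈ KK, D.xi u (B k) (D.trA u X t)),
      Finset.prod_sdiff (Finset.subset_univ KK)]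
  have hind : ∀ t t' : Un g → Bool, (∀ y, y ∉ D.Bu u X \ Y → t y = t' y) →
      Φ t * ∏ k ∈ KK, D.xi u (B k) (D.trA u X t) =
        Φ t' * ∏ k ∈ KK, D.xi u (B k) (D.trA u X t') := by
    intro t t' h
    rw [hΦ t t' h]
    congr 1
    refine Finset.prod_congr rfl fun k hk => D.xi_congr fun y hy => ?_
    unfold Dat.trA
    by_cases hyX : y ∈ X
    · rw [if_neg (fun h1 => (Finset.mem_sdiff.1 h1).2 hyX),
        if_neg (fun h1 => (Finset.mem_sdiff.1 h1).2 hyX)]
    · have hyY : y ∈ Y := by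
        rcases Finset.mem_union.1 (hZ k hk hy) with h1 | h1
        · exact h1
        · exact absurd h1 hyX
      rw [h y (fun h1 => (Finset.mem_sdiff.1 h1).2 hyY)]
  have h1 := cw_mix (D.Mu u X) (D.Bu u X \ Y) (LInner_disj D u X Y) β
    (fun t => Φ t * ∏ k ∈ KK, D.xi u (B k) (D.trA u X t))
    (fun t => ∏ k ∈ Finset.univ \ KK, D.xi u (B k) (D.trA u X t)) hind
  rw [Finset.sum_congr rfl fun t _ => by rw [key t], h1, Finset.mul_sum]
  refine Finset.sum_le_sum fun t _ => ?_
  have h2 := hg D hL u X E hE B hB hinj KK Y hC t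
  have h3 := (abs_le.1 h2).2
  have h4 : 0 ≤ cw (D.Mu u X) β t := cw_nonneg _ _ hβ t
  have h5 : 0 ≤ Φ t * ∏ k ∈ KK, D.xi u (B k) (D.trA u X t) :=
    mul_nonneg (hΦ0 t) (Finset.prod_nonneg fun k _ => LInner_xi_nonneg D u (B k) _)
  have h6 := mul_nonneg h4 h5
  calc cw (D.Mu u X) β t * ((Φ t * ∏ k ∈ KK, D.xi u (B k) (D.trA u X t)) *
        avg (fun t' => ∏ k ∈ Finset.univ \ KK,
          D.xi u (B k) (D.trA u X (mix (D.Bu u X \ Y) t t')))) =
      (cw (D.Mu u X) β t * (Φ t * ∏ k ∈ KK, D.xi u (B k) (D.trA u X t))) *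
        avg (fun t' => ∏ k ∈ Finset.univ \ KK,
          D.xi u (B k) (D.trA u X (mix (D.Bu u X \ Y) t t'))) := by ring
    _ ≤ (cw (D.Mu u X) β t * (Φ t * ∏ k ∈ KK, D.xi u (B k) (D.trA u X t))) *
        (1 + Real.exp (-g)) := mul_le_mul_of_nonneg_left (by linarith) h6
    _ = _ := by ring

/-- lower bound, no distinguished slots -/
theorem inner_ge : ∀ᶠ (g : ℕ) in Filter.atTop, ∀ D : Dat g, D.Lab →
    ∀ (u : Pl g) (X : Finset (Un g)) (E : Env g), E.OK D u X →
    ∀ B : Fin E.M → Pl g, (∀ k, B k ∈ E.W k) → Function.Injective B →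
    ∀ β : Un g → ℝ, (∀ y ∈ D.Mu u X, |β y| ≤ 1 / 2) →
    ∀ Φ : (Un g → Bool) → ℝ, (∀ t, 0 ≤ Φ t) →
    (∀ t t', (∀ y, y ∉ D.Bu u X → t y = t' y) → Φ t = Φ t') →
    (1 - Real.exp (-g)) * ∑ t, cw (D.Mu u X) β t * Φ t ≤
      ∑ t, cw (D.Mu u X) β t * (Φ t * ∏ k, D.xi u (B k) (D.trA u X t)) := by
  filter_upwards [fourier_slots] with g hg
  intro D hL u X E hE B hB hinj β hβ Φ hΦ0 hΦ
  have h1 := cw_mix (D.Mu u X) (D.Bu u X \ ∅) (LInner_disj D u X ∅) β Φ
    (fun t => ∏ k, D.xi u (B k) (D.trA u X t))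
    (fun t t' h => hΦ t t' (fun y hy => h y (by rwa [Finset.sdiff_empty])))
  rw [h1, Finset.mul_sum]
  refine Finset.sum_le_sum fun t _ => ?_
  have h2 := hg D hL u X E hE B hB hinj ∅ ∅ (fun k _ => by
    rw [Finset.inter_empty, Finset.card_empty, Nat.cast_zero]
    positivity) t
  rw [Finset.sdiff_empty] at h2
  have h3 := (abs_le.1 h2).1
  have h4 : 0 ≤ cw (D.Mu u X) β t := cw_nonneg _ _ hβ t
  have h6 := mul_nonneg h4 (hΦ0 t)
  calc (1 - Real.exp (-g)) * (cw (D.Mu u X) β t * Φ t) =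
      (cw (D.Mu u X) β t * Φ t) * (1 - Real.exp (-g)) := by ring
    _ ≤ (cw (D.Mu u X) β t * Φ t) *
        avg (fun t' => ∏ k, D.xi u (B k) (D.trA u X (mix (D.Bu u X \ ∅) t t'))) :=
      mul_le_mul_of_nonneg_left (by linarith) h6
    _ = _ := by ring

end Pool.Larman
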