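import Pool.Agent.Larman.LDefs
import Pool.Agent.Larman.Bridge

/-!
# MP_a9ba8c (Larman, t = 1): product law of the twins

cw Ms β t = product over all units y of 1/2 + β y (y in Ms, t y = true), 1/2 - β y (y in Ms, t y = false),
1/2 (y not in Ms). All lemmas are finite computations (Finset.prod_univ_sum).
-/

set_option autoImplicit false

open scoped BigOperators Classical

noncomputable section

namespace Pool.Larman

variable {g : ℕ}

/-- factor of the unit y with twin b -/
def cwf (Ms : Finset (Un g)) (β : Un g → ℝ) (y : Un g) (b : Bool) : ℝ :=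
  1 / 2 + if y ∈ Ms then (if b = true then β y else - β y) else 0

private theorem LMix_sum_cwf (Ms : Finset (Un g)) (β : Un g → ℝ) (y : Un g) :
    ∑ b, cwf Ms β y b = 1 := by
  rw [Fintype.sum_bool]
  unfold cwf
  by_cases hy : y ∈ Ms
  · simp only [if_pos hy, if_true, Bool.false_eq_true, if_false]
    ring
  · simp only [if_neg hy]
    norm_num

private theorem LMix_cw_eq (Ms : Finset (Un g)) (β : Un g → ℝ) (t : Un g → Bool) :
    cw Ms β t = ∏ y, cwf Ms β y (t y) := rfl

/-- product rule. Proof: Finset.prod_univ_sum backwards. -/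
theorem cw_prod (Ms : Finset (Un g)) (β : Un g → ℝ) (F : Un g → Bool → ℝ) :
    ∑ t, cw Ms β t * ∏ y, F y (t y) = ∏ y, ∑ b, cwf Ms β y b * F y b := by
  rw [Finset.prod_univ_sum, Fintype.piFinset_univ]
  refine Finset.sum_congr rfl (fun t _ => ?_)
  rw [Finset.prod_mul_distrib]
  rfl

/-- total mass one: cw_prod with F = 1, each factor is 1 -/
theorem cw_sum (Ms : Finset (Un g)) (β : Un g → ℝ) : ∑ t, cw Ms β t = 1 := by
  have h := cw_prod Ms β (fun _ _ => 1)
  simp only [Finset.prod_const_one, mul_one] at h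
  rw [h]
  exact Finset.prod_eq_one (fun y _ => LMix_sum_cwf Ms β y)

theorem cw_nonneg (Ms : Finset (Un g)) (β : Un g → ℝ) (h : ∀ y ∈ Ms, |β y| ≤ 1 / 2)
    (t : Un g → Bool) : 0 ≤ cw Ms β t :=
  (cw_isP h).nonneg t

/-- probability of a pattern on Y: cw_prod with F y b = 1 for y outside Y, ind (b = b0 y) on Y -/
theorem cw_pattern (Ms Y : Finset (Un g)) (β : Un g → ℝ) (b : Un g → Bool) :
    ∑ t, cw Ms β t * ind (∀ y ∈ Y, t y = b y) = ∏ y ∈ Y, cwf Ms β y (b y) := by
  have h := cw_prod Ms β (fun y c => if y ∈ Y then (if c = b y then 1 else 0) else 1)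
  have h1 : ∀ t : Un g → Bool, ind (∀ y ∈ Y, t y = b y) =
      ∏ y, (if y ∈ Y then (if t y = b y then (1 : ℝ) else 0) else 1) := by
    intro t
    rw [Finset.prod_ite_mem, Finset.univ_inter]
    unfold ind
    by_cases hy : ∀ y ∈ Y, t y = b y
    · rw [if_pos hy]
      exact (Finset.prod_eq_one (fun y hyY => if_pos (hy y hyY))).symm
    · rw [if_neg hy]
      push Not at hy
      obtain ⟨y, hyY, hne⟩ := hy
      exact (Finset.prod_eq_zero hyY (if_neg hne)).symm
  rw [Finset.sum_congr rfl (fun t _ => by rw [h1 t]), h]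
  have h2 : ∀ y, ∑ c, cwf Ms β y c * (if y ∈ Y then (if c = b y then (1 : ℝ) else 0) else 1) =
      if y ∈ Y then cwf Ms β y (b y) else 1 := by
    intro y
    by_cases hy : y ∈ Y
    · simp only [if_pos hy, mul_ite, mul_one, mul_zero, Finset.sum_ite_eq', Finset.mem_univ,
        if_true]
    · simp only [if_neg hy, mul_one]
      exact LMix_sum_cwf Ms β y
  rw [Finset.prod_congr rfl (fun y _ => h2 y), Finset.prod_ite_mem, Finset.univ_inter]

/-- mixing identity: if Fb avoids Ms and Φ does not depend on the twins in Fb, then Ψ may be averaged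
over the twins in Fb first. Proof: multiply out avg; the map (t0, t) -> (mix Fb t0 t, mix Fb t t0) is an
involution of the pairs (t0, t), it preserves cw of the first component (the factors of cw outside Ms
are 1/2) and Φ of the first component; so the double sum
sum_(t0,t) cw t0 Φ t0 Ψ (mix t0 t) = sum_(a,b) cw a Φ a Ψ a = card * sum_a cw a Φ a Ψ a. -/
theorem cw_mix (Ms Fb : Finset (Un g)) (hd : Disjoint Ms Fb) (β : Un g → ℝ)
    (Φ Ψ : (Un g → Bool) → ℝ) (hΦ : ∀ t t', (∀ y, y ∉ Fb → t y = t' y) → Φ t = Φ t') :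
    ∑ t, cw Ms β t * (Φ t * Ψ t) =
      ∑ t0, cw Ms β t0 * (Φ t0 * avg (fun t => Ψ (mix Fb t0 t))) := by
  have hcard : (0 : ℝ) < (Fintype.card (Un g → Bool) : ℝ) := by
    exact_mod_cast Fintype.card_pos
  have hΦm : ∀ t0 t : Un g → Bool, Φ (mix Fb t0 t) = Φ t0 := by
    intro t0 t
    apply hΦ
    intro y hy
    simp only [mix, if_neg hy]
  have hcwm : ∀ t0 t : Un g → Bool, cw Ms β (mix Fb t0 t) = cw Ms β t0 := by
    intro t0 t
    rw [LMix_cw_eq, LMix_cw_eq]
    refine Finset.prod_congr rfl (fun y _ => ?_)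
    by_cases hy : y ∈ Fb
    · have hyM : y ∉ Ms := fun h => Finset.disjoint_left.mp hd h hy
      simp only [cwf, if_neg hyM]
    · simp only [mix, if_neg hy]
  -- the involution
  let e : ((Un g → Bool) × (Un g → Bool)) ≃ ((Un g → Bool) × (Un g → Bool)) :=
    { toFun := fun p => (mix Fb p.1 p.2, mix Fb p.2 p.1)
      invFun := fun p => (mix Fb p.1 p.2, mix Fb p.2 p.1)
      left_inv := fun p => by
        refine Prod.ext ?_ ?_
        · funext y
          by_cases hy : y ∈ Fb <;> simp [mix, hy]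
        · funext y
          by_cases hy : y ∈ Fb <;> simp [mix, hy]
      right_inv := fun p => by
        refine Prod.ext ?_ ?_
        · funext y
          by_cases hy : y ∈ Fb <;> simp [mix, hy]
        · funext y
          by_cases hy : y ∈ Fb <;> simp [mix, hy] }
  have h1 : ∑ p : (Un g → Bool) × (Un g → Bool), cw Ms β p.1 * (Φ p.1 * Ψ (mix Fb p.1 p.2)) =
      ∑ p : (Un g → Bool) × (Un g → Bool), cw Ms β p.1 * (Φ p.1 * Ψ p.1) := by
    rw [← Equiv.sum_comp e (fun p => cw Ms β p.1 * (Φ p.1 * Ψ p.1))]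
    refine Finset.sum_congr rfl (fun p _ => ?_)
    show _ = cw Ms β (mix Fb p.1 p.2) * (Φ (mix Fb p.1 p.2) * Ψ (mix Fb p.1 p.2))
    rw [hΦm, hcwm]
  rw [Fintype.sum_prod_type, Fintype.sum_prod_type] at h1
  have h2 : ∀ t0 : Un g → Bool, cw Ms β t0 * (Φ t0 * avg (fun t => Ψ (mix Fb t0 t))) =
      (∑ t, cw Ms β t0 * (Φ t0 * Ψ (mix Fb t0 t))) / (Fintype.card (Un g → Bool) : ℝ) := by
    intro t0
    unfold avg
    rw [← Finset.mul_sum, ← Finset.mul_sum]
    ring
  rw [Finset.sum_congr rfl (fun t0 _ => h2 t0), ← Finset.sum_div, h1]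
  simp only [Finset.sum_const, Finset.card_univ, nsmul_eq_mul]
  rw [← Finset.mul_sum, mul_div_assoc, mul_comm, div_mul_cancel₀ _ hcard.ne']

end Pool.Larman
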