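import Pool.Agent.Larman.LDefs

/-!
# MP_a9ba8c (Larman, t = 1): stopped product supermartingale (abstract)
-/

set_option autoImplicit false

open scoped BigOperators Classical

noncomputable section

namespace Pool.Larman

private theorem stop_iff_LSP {ι W : Type} (M : ℕ) (Y : Finset ι) (β0 : ι → ℝ) (e : ℝ)
    (hβ : ∀ y ∈ Y, |β0 y| ≤ 1 / 4) (inc : Fin (M + 1) → W → ι → ℝ) (w : W) (B : Fin M → W) :
    (∀ j : ℕ, j ≤ M + 1 → ∀ y ∈ Y,
      |β0 y - e * ∑ k : Fin (M + 1), (if k.val < j then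
        inc k ((Fin.cons w B : Fin (M + 1) → W) k) y else 0)| ≤ 1 / 4) ↔
    (∀ j : ℕ, j ≤ M → ∀ y ∈ Y,
      |(β0 y - e * inc 0 w y) - e * ∑ k : Fin M, (if k.val < j then
        inc k.succ (B k) y else 0)| ≤ 1 / 4) := by
  have key : ∀ (j : ℕ) (y : ι), β0 y - e * ∑ k : Fin (M + 1), (if k.val < j + 1 then
      inc k ((Fin.cons w B : Fin (M + 1) → W) k) y else 0) =
      (β0 y - e * inc 0 w y) - e * ∑ k : Fin M, (if k.val < j then
        inc k.succ (B k) y else 0) := by
    intro j y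
    rw [Fin.sum_univ_succ]
    have h0 : (0 : Fin (M + 1)).val < j + 1 := by simp
    rw [if_pos h0, Fin.cons_zero]
    have h1 : ∀ k : Fin M, (if (k.succ).val < j + 1 then
        inc k.succ ((Fin.cons w B : Fin (M + 1) → W) k.succ) y else 0) =
        (if k.val < j then inc k.succ (B k) y else 0) := by
      intro k
      rw [Fin.cons_succ]
      by_cases hk : k.val < j
      · rw [if_pos hk, if_pos (by rw [Fin.val_succ]; omega)]
      · rw [if_neg hk, if_neg (by rw [Fin.val_succ]; omega)]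
    rw [Finset.sum_congr rfl (fun k _ => h1 k)]
    ring
  constructor
  · intro h j hj y hy
    rw [← key]
    exact h (j + 1) (by omega) y hy
  · intro h j hj y hy
    rcases j with _ | j
    · have h2 : ∑ k : Fin (M + 1), (if k.val < 0 then
          inc k ((Fin.cons w B : Fin (M + 1) → W) k) y else 0) = 0 :=
        Finset.sum_eq_zero (fun k _ => if_neg (Nat.not_lt_zero _))
      rw [h2, mul_zero, sub_zero]
      exact hβ y hy
    · rw [key]
      exact h j (by omega) y hy

private theorem fac_LSP {a b : ℝ} (ha : |a| ≤ 1) {t : ℝ} (hb : |b| ≤ t) :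
    1 - 2 * t ≤ 1 + 2 * a * b := by
  have h1 : |a * b| ≤ t := by
    rw [abs_mul]
    calc |a| * |b| ≤ 1 * |b| := mul_le_mul_of_nonneg_right ha (abs_nonneg _)
      _ ≤ t := by rw [one_mul]; exact hb
  have h2 := neg_le_of_abs_le h1
  nlinarith

/-- Stopped product lemma. Induction on M (generalise β0). M = 0: both sides are equal (the
indicator is one, empty sums). Step: write B = Fin.cons w B'. Put β1 y = β0 y - e * inc 0 w y. The
stop condition for j + 1 slots of B is the stop condition for j slots of B' with β1 (and j = 0 of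
the latter gives |β1| <= 1/4 on Y). If |β1| <= 1/4 fails for some y in Y the terms with this w
vanish; otherwise the induction hypothesis bounds the sum over B' by prod (1 + 2 ε β1) *
prod_(k>=1) c k. In both cases the sum over B' is at most that product, because 1 + 2 ε β1 >= 0
always (|β1| <= 1/4 + e <= 1/2). Finally 1 + 2 ε β1 = (1 + 2 ε β0)(1 - v * inc 0 w y), v = 2 ε
e/(1 + 2 ε β0), |v| <= 2e/(1/2) = 4e, and H for k = 0 bounds the sum over w. -/
theorem stopped_prod {ι W : Type} [Fintype ι] [Fintype W] (M : ℕ) (Y : Finset ι)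
    (ε β0 : ι → ℝ) (hε : ∀ y, |ε y| ≤ 1) (e : ℝ) (he : 0 ≤ e) (he1 : e ≤ 1 / 4)
    (hβ : ∀ y ∈ Y, |β0 y| ≤ 1 / 4)
    (p : Fin M → W → ℝ) (hp : ∀ k w, 0 ≤ p k w)
    (inc : Fin M → W → ι → ℝ) (hinc : ∀ k w y, |inc k w y| ≤ 1)
    (c : Fin M → ℝ) (hc : ∀ k, 0 ≤ c k)
    (H : ∀ k, ∀ v : ι → ℝ, (∀ y ∈ Y, |v y| ≤ 4 * e) →
      ∑ w, p k w * ∏ y ∈ Y, (1 - v y * inc k w y) ≤ c k) :
    ∑ B : Fin M → W, (∏ k, p k (B k)) *
        ind (∀ j : ℕ, j ≤ M → ∀ y ∈ Y,
          |β0 y - e * ∑ k : Fin M, (if k.val < j then inc k (B k) y else 0)| ≤ 1 / 4) *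
        ∏ y ∈ Y, (1 + 2 * ε y * (β0 y - e * ∑ k, inc k (B k) y)) ≤
      (∏ y ∈ Y, (1 + 2 * ε y * β0 y)) * ∏ k, c k := by
  induction M generalizing β0 with
  | zero =>
    rw [Fintype.sum_unique]
    simp only [Finset.univ_eq_empty, Finset.prod_empty, Finset.sum_empty, mul_zero, sub_zero,
      one_mul, mul_one]
    have h1 : ind (∀ j : ℕ, j ≤ 0 → ∀ y ∈ Y, |β0 y| ≤ 1 / 4) = 1 :=
      if_pos (fun _ _ y hy => hβ y hy)
    rw [h1, one_mul]
  | succ M ih =>
    rw [← Equiv.sum_comp (Fin.consEquiv (fun _ => W)), Fintype.sum_prod_type]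
    have hY : ∀ y ∈ Y, (1 : ℝ) / 2 ≤ 1 + 2 * ε y * β0 y := fun y hy => by
      have := fac_LSP (hε y) (hβ y hy)
      linarith
    have hP : 0 ≤ ∏ y ∈ Y, (1 + 2 * ε y * β0 y) :=
      Finset.prod_nonneg (fun y hy => by linarith [hY y hy])
    have hc' : 0 ≤ ∏ k : Fin M, c k.succ := Finset.prod_nonneg (fun k _ => hc _)
    -- the sum over the remaining slots
    have inner : ∀ w : W, ∑ B : Fin M → W,
        (∏ k, p k ((Fin.consEquiv (fun _ => W)) (w, B) k)) *
        ind (∀ j : ℕ, j ≤ M + 1 → ∀ y ∈ Y,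
          |β0 y - e * ∑ k : Fin (M + 1), (if k.val < j then
            inc k ((Fin.consEquiv (fun _ => W)) (w, B) k) y else 0)| ≤ 1 / 4) *
        ∏ y ∈ Y, (1 + 2 * ε y * (β0 y - e * ∑ k : Fin (M + 1),
          inc k ((Fin.consEquiv (fun _ => W)) (w, B) k) y)) ≤
        p 0 w * ((∏ y ∈ Y, (1 + 2 * ε y * (β0 y - e * inc 0 w y))) * ∏ k : Fin M, c k.succ) := by
      intro w
      have h1 : ∀ B : Fin M → W, (∏ k, p k ((Fin.consEquiv (fun _ => W)) (w, B) k)) *
          ind (∀ j : ℕ, j ≤ M + 1 → ∀ y ∈ Y,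
            |β0 y - e * ∑ k : Fin (M + 1), (if k.val < j then
              inc k ((Fin.consEquiv (fun _ => W)) (w, B) k) y else 0)| ≤ 1 / 4) *
          ∏ y ∈ Y, (1 + 2 * ε y * (β0 y - e * ∑ k : Fin (M + 1),
            inc k ((Fin.consEquiv (fun _ => W)) (w, B) k) y)) =
          p 0 w * ((∏ k : Fin M, p k.succ (B k)) *
            ind (∀ j : ℕ, j ≤ M → ∀ y ∈ Y,
              |(β0 y - e * inc 0 w y) - e * ∑ k : Fin M, (if k.val < j then
                inc k.succ (B k) y else 0)| ≤ 1 / 4) *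
            ∏ y ∈ Y, (1 + 2 * ε y * ((β0 y - e * inc 0 w y) -
              e * ∑ k : Fin M, inc k.succ (B k) y))) := by
        intro B
        have e0 : ((Fin.consEquiv (fun _ => W)) (w, B) : Fin (M + 1) → W) =
            (Fin.cons w B : Fin (M + 1) → W) := rfl
        rw [e0, propext (stop_iff_LSP M Y β0 e hβ inc w B), Fin.prod_univ_succ, Fin.cons_zero]
        have e1 : ∏ k : Fin M, p k.succ ((Fin.cons w B : Fin (M + 1) → W) k.succ) =
            ∏ k : Fin M, p k.succ (B k) :=
          Finset.prod_congr rfl (fun k _ => by rw [Fin.cons_succ])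
        have e2 : ∀ y, β0 y - e * ∑ k : Fin (M + 1),
            inc k ((Fin.cons w B : Fin (M + 1) → W) k) y =
            (β0 y - e * inc 0 w y) - e * ∑ k : Fin M, inc k.succ (B k) y := by
          intro y
          rw [Fin.sum_univ_succ, Fin.cons_zero]
          have e3 : ∑ k : Fin M, inc k.succ ((Fin.cons w B : Fin (M + 1) → W) k.succ) y =
              ∑ k : Fin M, inc k.succ (B k) y :=
            Finset.sum_congr rfl (fun k _ => by rw [Fin.cons_succ])
          rw [e3]
          ring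
        have e4 : ∏ y ∈ Y, (1 + 2 * ε y * (β0 y - e * ∑ k : Fin (M + 1),
            inc k ((Fin.cons w B : Fin (M + 1) → W) k) y)) =
            ∏ y ∈ Y, (1 + 2 * ε y * ((β0 y - e * inc 0 w y) -
              e * ∑ k : Fin M, inc k.succ (B k) y)) :=
          Finset.prod_congr rfl (fun y _ => by rw [e2 y])
        rw [e1, e4, mul_assoc (p 0 w), mul_assoc (p 0 w)]
      rw [Finset.sum_congr rfl (fun B _ => h1 B), ← Finset.mul_sum]
      refine mul_le_mul_of_nonneg_left ?_ (hp 0 w)
      by_cases hw : ∀ y ∈ Y, |β0 y - e * inc 0 w y| ≤ 1 / 4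
      · exact ih (fun y => β0 y - e * inc 0 w y) hw (fun k => p k.succ) (fun k => hp k.succ)
          (fun k => inc k.succ) (fun k => hinc k.succ) (fun k => c k.succ) (fun k => hc k.succ)
          (fun k => H k.succ)
      · have h2 : ∀ B : Fin M → W, ¬ (∀ j : ℕ, j ≤ M → ∀ y ∈ Y,
            |(β0 y - e * inc 0 w y) - e * ∑ k : Fin M, (if k.val < j then
              inc k.succ (B k) y else 0)| ≤ 1 / 4) := by
          intro B hB
          apply hw
          intro y hy
          have h3 := hB 0 (Nat.zero_le _) y hy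
          have h4 : ∑ k : Fin M, (if k.val < 0 then inc k.succ (B k) y else 0) = 0 :=
            Finset.sum_eq_zero (fun k _ => if_neg (Nat.not_lt_zero _))
          rw [h4, mul_zero, sub_zero] at h3
          exact h3
        have h5 : ∀ B : Fin M → W, (∏ k : Fin M, p k.succ (B k)) *
            ind (∀ j : ℕ, j ≤ M → ∀ y ∈ Y,
              |(β0 y - e * inc 0 w y) - e * ∑ k : Fin M, (if k.val < j then
                inc k.succ (B k) y else 0)| ≤ 1 / 4) *
            ∏ y ∈ Y, (1 + 2 * ε y * ((β0 y - e * inc 0 w y) -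
              e * ∑ k : Fin M, inc k.succ (B k) y)) = 0 := by
          intro B
          have h6 : ind (∀ j : ℕ, j ≤ M → ∀ y ∈ Y,
              |(β0 y - e * inc 0 w y) - e * ∑ k : Fin M, (if k.val < j then
                inc k.succ (B k) y else 0)| ≤ 1 / 4) = 0 := if_neg (h2 B)
          rw [h6, mul_zero, zero_mul]
        rw [Finset.sum_eq_zero (fun B _ => h5 B)]
        refine mul_nonneg (Finset.prod_nonneg (fun y hy => ?_)) hc'
        have h7 : |β0 y - e * inc 0 w y| ≤ 1 / 2 := by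
          have h8 : |e * inc 0 w y| ≤ 1 / 4 := by
            rw [abs_mul, abs_of_nonneg he]
            calc e * |inc 0 w y| ≤ e * 1 := mul_le_mul_of_nonneg_left (hinc 0 w y) he
              _ ≤ 1 / 4 := by rw [mul_one]; exact he1
          have h9 := abs_sub (β0 y) (e * inc 0 w y)
          have h10 := hβ y hy
          linarith
        have h11 := fac_LSP (hε y) h7
        linarith
    refine (Finset.sum_le_sum (fun w _ => inner w)).trans ?_
    have h12 : ∀ w : W, p 0 w * ((∏ y ∈ Y, (1 + 2 * ε y * (β0 y - e * inc 0 w y))) *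
        ∏ k : Fin M, c k.succ) = ((∏ y ∈ Y, (1 + 2 * ε y * β0 y)) * ∏ k : Fin M, c k.succ) *
        (p 0 w * ∏ y ∈ Y, (1 - (2 * ε y * e / (1 + 2 * ε y * β0 y)) * inc 0 w y)) := by
      intro w
      have h13 : ∏ y ∈ Y, (1 + 2 * ε y * (β0 y - e * inc 0 w y)) =
          (∏ y ∈ Y, (1 + 2 * ε y * β0 y)) *
          ∏ y ∈ Y, (1 - (2 * ε y * e / (1 + 2 * ε y * β0 y)) * inc 0 w y) := by
        rw [← Finset.prod_mul_distrib]
        refine Finset.prod_congr rfl (fun y hy => ?_)
        have h14 : (1 + 2 * ε y * β0 y) ≠ 0 := by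
          have := hY y hy
          intro h
          linarith
        field_simp
        ring
      rw [h13]
      ring
    rw [Finset.sum_congr rfl (fun w _ => h12 w), ← Finset.mul_sum, Fin.prod_univ_succ]
    have h15 := H 0 (fun y => 2 * ε y * e / (1 + 2 * ε y * β0 y)) (fun y hy => by
      have h16 := hY y hy
      rw [abs_div, abs_of_pos (by linarith : (0 : ℝ) < 1 + 2 * ε y * β0 y),
        div_le_iff₀ (by linarith)]
      have h17 : |2 * ε y * e| ≤ 2 * e := by
        rw [abs_mul, abs_mul, abs_of_nonneg he, abs_of_pos (by norm_num : (0 : ℝ) < 2)]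
        have := hε y
        nlinarith
      nlinarith)
    calc ((∏ y ∈ Y, (1 + 2 * ε y * β0 y)) * ∏ k : Fin M, c k.succ) *
          (∑ w, p 0 w * ∏ y ∈ Y, (1 - (2 * ε y * e / (1 + 2 * ε y * β0 y)) * inc 0 w y)) ≤
          ((∏ y ∈ Y, (1 + 2 * ε y * β0 y)) * ∏ k : Fin M, c k.succ) * c 0 :=
        mul_le_mul_of_nonneg_left h15 (mul_nonneg hP hc')
      _ = (∏ y ∈ Y, (1 + 2 * ε y * β0 y)) * (c 0 * ∏ k : Fin M, c k.succ) := by ring

end Pool.Larman
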