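import Pool.Agent.Larman.LHist
import Pool.Agent.Larman.Cnt
import Pool.Agent.Larman.IncBasic

/-!
# MP_a9ba8c (Larman, t = 1): validity, the mean number of counting points (helper61)
-/

set_option autoImplicit false

open scoped BigOperators Classical

noncomputable section

namespace Pool.Larman

variable {g : ℕ}

/-- the tilted counting points outside X -/
def tqLV (D : Dat g) (u w : Pl g) (X : Finset (Un g)) : Finset (Un g) :=
  (D.Mu u X).filter (fun y => (y, true) ∈ D.Q u w)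

theorem memQ_LV {D : Dat g} {u w : Pl g} {p : Pp g} : p ∈ D.Q u w ↔
    p.1 ∈ D.Z u w ∧ p.1 ∉ D.C u w ∧ isReal p ∧ (D.L u w p.1).2.2 p.2 = true := by
  unfold Dat.Q
  simp

theorem memMu_LV {D : Dat g} {u : Pl g} {X : Finset (Un g)} {y : Un g} :
    y ∈ D.Mu u X ↔ (y ∈ D.S u ∧ y.1 = 0) ∧ y ∉ X := by
  unfold Dat.Mu kind
  simp

theorem tq_le_LV (D : Dat g) (u w : Pl g) (X : Finset (Un g)) :
    ((tqLV D u w X).card : ℝ) ≤ (((D.Q u w).filter (fun p => p.1.1 = 0)).card : ℝ) := by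
  have h : (tqLV D u w X).card ≤ ((D.Q u w).filter (fun p => p.1.1 = 0)).card := by
    refine Finset.card_le_card_of_injOn (fun y => (y, true)) ?_ ?_
    · intro y hy
      have hy' : y ∈ (D.Mu u X).filter (fun y => (y, true) ∈ D.Q u w) := hy
      rw [Finset.mem_filter, memMu_LV] at hy'
      rw [Finset.mem_coe, Finset.mem_filter]
      exact ⟨hy'.2, hy'.1.1.2⟩
    · intro a _ b _ hab
      exact (Prod.mk.inj hab).1
  exact_mod_cast h

theorem le_tq_LV (D : Dat g) (u w : Pl g) (X : Finset (Un g)) :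
    (((D.Q u w).filter (fun p => p.1.1 = 0)).card : ℝ) ≤ ((tqLV D u w X).card : ℝ) + D.qX u w X := by
  have h : ((D.Q u w).filter (fun p => p.1.1 = 0)).card ≤
      (tqLV D u w X).card + ((D.Q u w).filter (fun p => p.1 ∈ X)).card := by
    have hsub : (D.Q u w).filter (fun p => p.1.1 = 0) ⊆
        (tqLV D u w X).image (fun y => ((y, true) : Pp g)) ∪
          (D.Q u w).filter (fun p => p.1 ∈ X) := by
      intro p hp
      rw [Finset.mem_filter] at hp
      obtain ⟨hpQ, hp0⟩ := hp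
      rw [Finset.mem_union]
      by_cases hX : p.1 ∈ X
      · right
        rw [Finset.mem_filter]
        exact ⟨hpQ, hX⟩
      · left
        have hq := memQ_LV.1 hpQ
        have h2 : p.2 = true := by
          rcases hq.2.2.1 with h1 | h1
          · rw [hp0] at h1
            exact absurd h1 (by decide)
          · exact h1
        have hp' : p = (p.1, true) := by
          rw [← h2]
        rw [Finset.mem_image]
        refine ⟨p.1, ?_, hp'.symm⟩
        unfold tqLV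
        rw [Finset.mem_filter, memMu_LV]
        refine ⟨⟨⟨?_, hp0⟩, hX⟩, ?_⟩
        · have := hq.1
          unfold Dat.Z at this
          exact (Finset.mem_inter.1 this).1
        · rw [← hp']; exact hpQ
    refine (Finset.card_le_card hsub).trans ((Finset.card_union_le _ _).trans ?_)
    exact Nat.add_le_add_right Finset.card_image_le _
  have h2 : ((((D.Q u w).filter (fun p => p.1.1 = 0)).card : ℕ) : ℝ) ≤
      (((tqLV D u w X).card + ((D.Q u w).filter (fun p => p.1 ∈ X)).card : ℕ) : ℝ) := by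
    exact_mod_cast h
  rw [Nat.cast_add] at h2
  exact h2

theorem qX_nonneg_LV (D : Dat g) (u w : Pl g) (X : Finset (Un g)) : 0 ≤ D.qX u w X := by
  unfold Dat.qX
  positivity

theorem mem_tq_LV {D : Dat g} {u w : Pl g} {X : Finset (Un g)} {y : Un g} (h : y ∈ tqLV D u w X) :
    y ∈ D.Mu u X ∧ y.1 = 0 ∧ (y, true) ∈ D.Q u w ∧ y ∈ D.Z u w ∧ y ∈ D.S w := by
  unfold tqLV at h
  rw [Finset.mem_filter] at h
  have h1 := memMu_LV.1 h.1
  have h2 := memQ_LV.1 h.2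
  refine ⟨h.1, h1.1.2, h.2, h2.1, ?_⟩
  have := h2.1
  unfold Dat.Z at this
  exact (Finset.mem_inter.1 this).2

/-- the sum of the biases over a set of units -/
theorem sum_beta_LV (D : Dat g) (E : Env g) (B : Fin E.M → Pl g) (T : Finset (Un g)) :
    ∑ y ∈ T, E.beta D B y = ((g : ℝ) ^ 43)⁻¹ * (T.card : ℝ) + ∑ y ∈ T, E.raise y -
      ((g : ℝ) ^ 43)⁻¹ * ∑ k, ∑ y ∈ T, E.inc D k (B k) y := by
  have h1 : ∀ y, E.Dp D B y E.M = ∑ k : Fin E.M, E.inc D k (B k) y := by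
    intro y
    unfold Env.Dp
    refine Finset.sum_congr rfl (fun k _ => ?_)
    rw [if_pos k.isLt]
  unfold Env.beta
  rw [Finset.sum_sub_distrib, Finset.sum_add_distrib, Finset.sum_const, nsmul_eq_mul,
    ← Finset.mul_sum]
  simp only [h1]
  rw [Finset.sum_comm, mul_comm ((T.card : ℝ))]

theorem meanQ_eq_LV (D : Dat g) (E : Env g) (B : Fin E.M → Pl g) (u w : Pl g)
    (X : Finset (Un g)) :
    (((D.Q u w).card : ℝ) - D.qX u w X) / 2 +
      ∑ y ∈ (D.Mu u X).filter (fun y => (y, true) ∈ D.Q u w), E.beta D B y =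
    (((D.Q u w).card : ℝ) - D.qX u w X) / 2 + (((g : ℝ) ^ 43)⁻¹ * ((tqLV D u w X).card : ℝ) +
      ∑ y ∈ tqLV D u w X, E.raise y -
      ((g : ℝ) ^ 43)⁻¹ * ∑ k, ∑ y ∈ tqLV D u w X, E.inc D k (B k) y) := by
  rw [← sum_beta_LV D E B (tqLV D u w X)]
  rfl

/-- numbers -/
theorem num_LV {G : ℝ} (hG : 1000 ≤ G) :
    1 ≤ G ^ 50 ∧ G ^ 51 = G * G ^ 50 ∧ G ^ 52 = G * G ^ 51 ∧ G ^ 53 = G * G ^ 52 ∧
    (G ^ 43)⁻¹ * G ^ 93 = G ^ 50 ∧ (G ^ 43)⁻¹ * G ^ 94 = G ^ 51 ∧ (G ^ 43)⁻¹ * G ^ 95 = G ^ 52 ∧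
    (G ^ 43)⁻¹ * G ^ 96 = G ^ 53 ∧ 0 < (G ^ 43)⁻¹ := by
  have h0 : (0 : ℝ) < G := by linarith
  have h43 : G ^ 43 ≠ 0 := (pow_pos h0 _).ne'
  refine ⟨one_le_pow₀ (by linarith), by ring, by ring, by ring, ?_, ?_, ?_, ?_, by positivity⟩
  · rw [show G ^ 93 = G ^ 43 * G ^ 50 by ring, ← mul_assoc, inv_mul_cancel₀ h43, one_mul]
  · rw [show G ^ 94 = G ^ 43 * G ^ 51 by ring, ← mul_assoc, inv_mul_cancel₀ h43, one_mul]
  · rw [show G ^ 95 = G ^ 43 * G ^ 52 by ring, ← mul_assoc, inv_mul_cancel₀ h43, one_mul]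
  · rw [show G ^ 96 = G ^ 43 * G ^ 53 by ring, ← mul_assoc, inv_mul_cancel₀ h43, one_mul]

/-- the numerical part of mean_out -/
theorem out_num_LV {G q qX T R hi s : ℝ} (hG : 1000 ≤ G)
    (hq1 : 4 * G ^ 96 - G ^ 95 ≤ q) (hq2 : q ≤ 4 * G ^ 96 + G ^ 95)
    (hX0 : 0 ≤ qX) (hX : G ^ 2 * qX ≤ q) (hT : G ^ 96 - G ^ 95 ≤ T + qX)
    (hR : 0 ≤ R) (hR2 : q ≤ 16 * G ^ 43 * qX → T * (8 * qX / q) ≤ R)
    (hs : |s| ≤ G ^ 95 / 64) (hhi : |hi - (q / 2 + (G ^ 52 + 1) / 2)| ≤ 2) :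
    hi + G ^ 52 ≤ (q - qX) / 2 + ((G ^ 43)⁻¹ * T + R - (G ^ 43)⁻¹ * s) := by
  obtain ⟨h50, h51, h52, h53, e93, e94, e95, e96, he⟩ := num_LV hG
  have h0 : (0 : ℝ) < G := by linarith
  have p50 : (0 : ℝ) < G ^ 50 := by linarith
  have p51 : 1000 * G ^ 50 ≤ G ^ 51 := by rw [h51]; nlinarith
  have p52 : 1000 * G ^ 51 ≤ G ^ 52 := by rw [h52]; nlinarith
  have p53 : 1000 * G ^ 52 ≤ G ^ 53 := by rw [h53]; nlinarith
  -- qX is small
  have hX94 : qX ≤ 4 * G ^ 94 + G ^ 93 := by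
    have h1 : G ^ 2 * qX ≤ G ^ 2 * (4 * G ^ 94 + G ^ 93) := by
      calc G ^ 2 * qX ≤ q := hX
        _ ≤ 4 * G ^ 96 + G ^ 95 := hq2
        _ = G ^ 2 * (4 * G ^ 94 + G ^ 93) := by ring
    exact le_of_mul_le_mul_left h1 (by positivity)
  have hTl : G ^ 96 - G ^ 95 - 4 * G ^ 94 - G ^ 93 ≤ T := by linarith
  -- e T
  have heT : G ^ 53 - G ^ 52 - 4 * G ^ 51 - G ^ 50 ≤ (G ^ 43)⁻¹ * T := by
    calc G ^ 53 - G ^ 52 - 4 * G ^ 51 - G ^ 50
        = (G ^ 43)⁻¹ * (G ^ 96 - G ^ 95 - 4 * G ^ 94 - G ^ 93) := by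
          rw [← e93, ← e94, ← e95, ← e96]; ring
      _ ≤ (G ^ 43)⁻¹ * T := mul_le_mul_of_nonneg_left hTl he.le
  have hes : (G ^ 43)⁻¹ * s ≤ G ^ 52 / 64 := by
    calc (G ^ 43)⁻¹ * s ≤ (G ^ 43)⁻¹ * (G ^ 95 / 64) :=
          mul_le_mul_of_nonneg_left (le_of_abs_le hs) he.le
      _ = G ^ 52 / 64 := by rw [← e95]; ring
  have hhi2 : hi ≤ q / 2 + (G ^ 52 + 1) / 2 + 2 := by
    have := (abs_le.1 hhi).2
    linarith
  have hR' : qX / 2 ≤ R + (G ^ 53 / 8 + G ^ 52 / 32) := by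
    by_cases hh : q ≤ 16 * G ^ 43 * qX
    · have h1 := hR2 hh
      have hqpos : 0 < q := by
        have : G ^ 96 = G * G ^ 95 := by ring
        have h95 : 0 < G ^ 95 := by positivity
        nlinarith
      have h95 : 0 < G ^ 95 := by positivity
      have h96 : 1000 * G ^ 95 ≤ G ^ 96 := by
        rw [show G ^ 96 = G * G ^ 95 by ring]; nlinarith
      have h94 : 1000 * G ^ 94 ≤ G ^ 95 := by
        have : 0 < G ^ 94 := by positivity
        rw [show G ^ 95 = G * G ^ 94 by ring]; nlinarith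
      have h93 : 1000 * G ^ 93 ≤ G ^ 94 := by
        have : 0 < G ^ 93 := by positivity
        rw [show G ^ 94 = G * G ^ 93 by ring]; nlinarith
      have h93' : 0 < G ^ 93 := by positivity
      have h16 : q ≤ 16 * T := by linarith
      have h2 : qX / 2 ≤ T * (8 * qX / q) := by
        rw [← mul_div_assoc, le_div_iff₀ hqpos]
        nlinarith
      have : 0 < G ^ 53 := by positivity
      linarith
    · push Not at hh
      have h1 : (G ^ 43)⁻¹ * (16 * G ^ 43 * qX) ≤ (G ^ 43)⁻¹ * (4 * G ^ 96 + G ^ 95) :=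
        mul_le_mul_of_nonneg_left (by linarith) he.le
      have h2 : (G ^ 43)⁻¹ * (16 * G ^ 43 * qX) = 16 * qX := by
        have h43 : G ^ 43 ≠ 0 := (pow_pos h0 _).ne'
        field_simp
      have h3 : (G ^ 43)⁻¹ * (4 * G ^ 96 + G ^ 95) = 4 * G ^ 53 + G ^ 52 := by
        rw [← e95, ← e96]; ring
      rw [h2, h3] at h1
      linarith
  linarith

theorem mean_out_LV : ∀ᶠ (g : ℕ) in Filter.atTop, ∀ D : Dat g, Geo D.S → D.Lab →
    ∀ (u : Pl g) (X : Finset (Un g)) (E : Env g), E.OK D u X →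
    ∀ B : Fin E.M → Pl g, E.BB D u X B → ∀ w, w ≠ u → (∀ k, B k ≠ w) →
    (D.hi u w : ℝ) + (g : ℝ) ^ 52 ≤ (((D.Q u w).card : ℝ) - D.qX u w X) / 2 +
      ∑ y ∈ (D.Mu u X).filter (fun y => (y, true) ∈ D.Q u w), E.beta D B y := by
  filter_upwards [Filter.eventually_ge_atTop 1000] with g hg D _ hL u X E hE B hB w hw hk
  have hG : (1000 : ℝ) ≤ (g : ℝ) := by exact_mod_cast hg
  rw [meanQ_eq_LV]
  have hl1q := abs_le.1 (hL.l1q u w (Ne.symm hw))
  have hl1m := abs_le.1 (hL.l1m u w (Ne.symm hw))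
  have hT := le_tq_LV D u w X
  have hwin := (D.window u w).2
  rw [hM_cast] at hwin
  have hb2 := hB.b2 w hw
  have hb2' : |∑ k, ∑ y ∈ tqLV D u w X, E.inc D k (B k) y| ≤ (g : ℝ) ^ 95 / 64 := by
    refine le_trans (le_of_eq ?_) hb2
    congr 1
    refine Finset.sum_congr rfl (fun k _ => ?_)
    rw [if_neg (hk k)]
    rfl
  refine out_num_LV hG (by linarith [hl1q.1]) (by linarith [hl1q.2]) (qX_nonneg_LV D u w X)
    (hE.Xq w hw) (by linarith [hl1m.1]) (Finset.sum_nonneg (fun y _ => (hE.r0 y).1)) ?_ hb2' hwin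
  intro hh
  have h3 := hE.r3 w hw hh
  rw [← nsmul_eq_mul, ← Finset.sum_const]
  refine Finset.sum_le_sum (fun y hy => ?_)
  have hm := mem_tq_LV hy
  exact h3 y hm.2.1 hm.2.2.1

/-- the numerical part of mean_in -/
theorem in_num_LV {G q qX A R s T1 : ℝ} (hG : 1000 ≤ G)
    (hX0 : 0 ≤ qX) (hX : qX ≤ 2 * (G + 1)) (hA0 : 0 ≤ A) (hT : T1 ≤ G ^ 96 + G ^ 95)
    (hA : A ≤ 5 * G + T1 * (24 / G ^ 950))
    (hR : 0 ≤ R) (hR2 : R ≤ (G + 1) * (8 / G ^ 2))
    (hs : |s| ≤ G ^ 95 / 64) :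
    |(q - qX) / 2 + ((G ^ 43)⁻¹ * A + R - (G ^ 43)⁻¹ * s) - q / 2| ≤ G ^ 52 / 32 := by
  obtain ⟨h50, h51, h52, h53, e93, e94, e95, e96, he⟩ := num_LV hG
  have h0 : (0 : ℝ) < G := by linarith
  have p50 : (0 : ℝ) < G ^ 50 := by linarith
  have hG50 : G ≤ G ^ 50 := by
    calc G = G ^ 1 := (pow_one _).symm
      _ ≤ G ^ 50 := pow_le_pow_right₀ (by linarith) (by norm_num)
  have p51 : 1000 * G ^ 50 ≤ G ^ 51 := by rw [h51]; nlinarith
  have p52 : 1000 * G ^ 51 ≤ G ^ 52 := by rw [h52]; nlinarith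
  have hes : |(G ^ 43)⁻¹ * s| ≤ G ^ 52 / 64 := by
    rw [abs_mul, abs_of_pos he]
    calc (G ^ 43)⁻¹ * |s| ≤ (G ^ 43)⁻¹ * (G ^ 95 / 64) := mul_le_mul_of_nonneg_left hs he.le
      _ = G ^ 52 / 64 := by rw [← e95]; ring
  have h1 : (G ^ 43)⁻¹ ≤ 1 := inv_le_one_of_one_le₀ (one_le_pow₀ (by linarith))
  have hA1 : T1 * (24 / G ^ 950) ≤ 1 := by
    have h2 : T1 * (24 / G ^ 950) ≤ (G ^ 96 + G ^ 95) * (24 / G ^ 950) :=
      mul_le_mul_of_nonneg_right hT (by positivity)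
    refine h2.trans ?_
    rw [← mul_div_assoc, div_le_one (by positivity)]
    have h96 : G ^ 95 ≤ G ^ 96 := pow_le_pow_right₀ (by linarith) (by norm_num)
    have h97 : G ^ 97 ≤ G ^ 950 := pow_le_pow_right₀ (by linarith) (by norm_num)
    have h98 : G ^ 97 = G * G ^ 96 := by ring
    have h99 : 0 < G ^ 96 := by positivity
    nlinarith
  have hA2 : A ≤ 5 * G + 1 := by linarith
  have hA3 : (G ^ 43)⁻¹ * A ≤ 5 * G + 1 := by nlinarith
  have hA4 : 0 ≤ (G ^ 43)⁻¹ * A := by positivity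
  have hR3 : R ≤ 1 := by
    refine hR2.trans ?_
    rw [← mul_div_assoc, div_le_one (by positivity)]
    nlinarith
  have hs' := abs_le.1 hes
  rw [abs_le]
  constructor
  · linarith [hs'.1, hs'.2]
  · linarith [hs'.1, hs'.2]

theorem mean_in_LV : ∀ᶠ (g : ℕ) in Filter.atTop, ∀ D : Dat g, Geo D.S → D.Lab →
    ∀ (u : Pl g) (X : Finset (Un g)) (E : Env g), E.OK D u X →
    ∀ B : Fin E.M → Pl g, E.BB D u X B → ∀ k,
    |(((D.Q u (B k)).card : ℝ) - D.qX u (B k) X) / 2 +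
      ∑ y ∈ (D.Mu u X).filter (fun y => (y, true) ∈ D.Q u (B k)), E.beta D B y -
      ((D.Q u (B k)).card : ℝ) / 2| ≤ (g : ℝ) ^ 52 / 32 := by
  filter_upwards [Filter.eventually_ge_atTop 1000] with g hg D _ hL u X E hE B hB k
  have hG : (1000 : ℝ) ≤ (g : ℝ) := by exact_mod_cast hg
  have hw : B k ≠ u := hE.W_ne k (B k) (hB.mem k)
  rw [meanQ_eq_LV]
  have hl1m := abs_le.1 (hL.l1m u (B k) (Ne.symm hw))
  have hb2 := hB.b2 (B k) hw
  set T := tqLV D u (B k) X with hTdef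
  -- the double sum
  have hsplit : ∑ l, ∑ y ∈ T, E.inc D l (B l) y =
      ∑ y ∈ T, E.inc D k (B k) y +
      ∑ l, (if B l = B k then 0 else ∑ y ∈ T, E.inc D l (B l) y) := by
    have h1 : ∀ l, ∑ y ∈ T, E.inc D l (B l) y =
        (if l = k then ∑ y ∈ T, E.inc D k (B k) y else 0) +
        (if B l = B k then 0 else ∑ y ∈ T, E.inc D l (B l) y) := by
      intro l
      by_cases hlk : l = k
      · subst hlk; simp
      · rw [if_neg hlk, if_neg (fun h => hlk (hB.inj h)), zero_add]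
    rw [Finset.sum_congr rfl (fun l _ => h1 l), Finset.sum_add_distrib]
    simp
  have hA : ((g : ℝ) ^ 43)⁻¹ * (T.card : ℝ) + ∑ y ∈ T, E.raise y -
      ((g : ℝ) ^ 43)⁻¹ * ∑ l, ∑ y ∈ T, E.inc D l (B l) y =
      ((g : ℝ) ^ 43)⁻¹ * ∑ y ∈ T, (1 - E.inc D k (B k) y) + ∑ y ∈ T, E.raise y -
      ((g : ℝ) ^ 43)⁻¹ * ∑ l, (if B l = B k then 0 else ∑ y ∈ T, E.inc D l (B l) y) := by
    rw [hsplit, Finset.sum_sub_distrib, Finset.sum_const, nsmul_eq_mul]
    ring
  rw [hA]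
  -- the diagonal
  have hdiag : ∀ y ∈ T, 0 ≤ 1 - E.inc D k (B k) y ∧
      1 - E.inc D k (B k) y ≤ (if y ∈ E.H k then 1 else 0) + 24 / (g : ℝ) ^ 950 := by
    intro y hy
    have hm := mem_tq_LV hy
    have hpos : (0 : ℝ) ≤ 24 / (g : ℝ) ^ 950 := by positivity
    unfold Env.inc
    by_cases hH : y ∈ E.H k
    · rw [if_pos hH, if_pos hH]
      constructor
      · norm_num
      · linarith
    · rw [if_neg hH, if_neg hH, ind_of hm.2.2.2.2]
      have h1 := Env.qq_nonneg (E := E) (D := D) k y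
      have h2 := hE.q1 k y hm.1 hH
      constructor <;> linarith
  have hqX : D.qX u (B k) X ≤ 2 * ((g : ℝ) + 1) := by
    have h1 := hE.W_X k (B k) (hB.mem k)
    have h2 : ((D.Q u (B k)).filter (fun p => p.1 ∈ X)).card ≤ 2 * (D.Z u (B k) ∩ X).card := by
      have hsub : (D.Q u (B k)).filter (fun p => p.1 ∈ X) ⊆
          (D.Z u (B k) ∩ X) ×ˢ (Finset.univ : Finset Bool) := by
        intro p hp
        rw [Finset.mem_filter] at hp
        rw [Finset.mem_product, Finset.mem_inter]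
        exact ⟨⟨(memQ_LV.1 hp.1).1, hp.2⟩, Finset.mem_univ _⟩
      have := Finset.card_le_card hsub
      rw [Finset.card_product] at this
      simp only [Finset.card_univ, Fintype.card_bool] at this
      omega
    have h3 : (D.qX u (B k) X) ≤ 2 * ((D.Z u (B k) ∩ X).card : ℝ) := by
      unfold Dat.qX
      exact_mod_cast h2
    linarith
  refine in_num_LV (T1 := (T.card : ℝ)) hG (qX_nonneg_LV D u (B k) X) hqX
    (Finset.sum_nonneg (fun y hy => (hdiag y hy).1)) ?_ ?_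
    (Finset.sum_nonneg (fun y _ => (hE.r0 y).1)) ?_ hb2
  · have := tq_le_LV D u (B k) X
    linarith [hl1m.2]
  · refine (Finset.sum_le_sum (fun y hy => (hdiag y hy).2)).trans ?_
    rw [Finset.sum_add_distrib, Finset.sum_const, nsmul_eq_mul]
    refine add_le_add ?_ le_rfl
    rw [← Finset.sum_filter, Finset.sum_const, nsmul_eq_mul, mul_one]
    have h1 := hE.H1 k k (B k) (hB.mem k)
    refine le_trans ?_ h1
    have : (T.filter (fun y => y ∈ E.H k)).card ≤ (D.Z u (B k) ∩ E.H k).card := by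
      refine Finset.card_le_card (fun y hy => ?_)
      rw [Finset.mem_filter] at hy
      rw [Finset.mem_inter]
      exact ⟨(mem_tq_LV hy.1).2.2.2.1, hy.2⟩
    exact_mod_cast this
  · have h1 : ∑ y ∈ T, E.raise y = ∑ y ∈ T.filter (fun y => E.raise y ≠ 0), E.raise y := by
      rw [Finset.sum_filter]
      refine Finset.sum_congr rfl (fun y _ => ?_)
      by_cases h : E.raise y = 0
      · simp [h]
      · rw [if_pos h]
    rw [h1]
    refine (Finset.sum_le_sum (fun y _ => (hE.r0 y).2)).trans ?_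
    rw [Finset.sum_const, nsmul_eq_mul]
    refine mul_le_mul_of_nonneg_right ?_ (by positivity)
    have h2 := hE.r2 k (B k) (hB.mem k)
    refine le_trans ?_ h2
    have : (T.filter (fun y => E.raise y ≠ 0)).card ≤
        ((D.Z u (B k)).filter (fun y => E.raise y ≠ 0)).card := by
      refine Finset.card_le_card (fun y hy => ?_)
      rw [Finset.mem_filter] at hy ⊢
      exact ⟨(mem_tq_LV hy.1).2.2.2.1, hy.2⟩
    exact_mod_cast this

end Pool.Larman
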