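import Pool.Agent.Larman.LHist
import Pool.Agent.Larman.Cnt
import Pool.Agent.Larman.LValM

/-!
# MP_a9ba8c (Larman, t = 1): validity against all other players
-/

set_option autoImplicit false

open scoped BigOperators Classical

noncomputable section

namespace Pool.Larman

variable {g : ℕ}

/-- mean number of counting points of the pair (u, w) in the random set: half of the points outside X, plus
the biases of the tilted counting points -/
def meanQ (D : Dat g) (u w : Pl g) (X : Finset (Un g)) (β : Un g → ℝ) : ℝ :=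
  (((D.Q u w).card : ℝ) - D.qX u w X) / 2 +
    ∑ y ∈ (D.Mu u X).filter (fun y => (y, true) ∈ D.Q u w), β y

private theorem sum_q1_eq (Q : Finset (Pp g)) (F : Finset (Un g)) :
    ∑ y ∈ F, (q1 Q y true + q1 Q y false) = ((Q.filter (fun p => p.1 ∈ F)).card : ℝ) := by
  have h1 : Q.filter (fun p => p.1 ∈ F) =
      (F ×ˢ (Finset.univ : Finset Bool)).filter (fun p => p ∈ Q) := by
    ext p
    simp only [Finset.mem_filter, Finset.mem_product, Finset.mem_univ, and_true]
    exact and_comm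
  rw [h1, Finset.card_filter, Finset.sum_product]
  push_cast
  refine Finset.sum_congr rfl fun y _ => ?_
  rw [Fintype.sum_bool]
  rfl

private theorem filter_split (D : Dat g) (u w : Pl g) (X : Finset (Un g)) :
    (((D.Q u w).filter (fun p => p.1 ∈ D.S u \ X)).card : ℝ) =
      ((D.Q u w).card : ℝ) - D.qX u w X := by
  have h1 : (D.Q u w).filter (fun p => p.1 ∈ D.S u \ X) =
      (D.Q u w).filter (fun p => ¬ p.1 ∈ X) := by
    refine Finset.filter_congr fun p hp => ?_
    have h2 := mem_Z_of_mem_Q D hp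
    unfold Dat.Z at h2
    rw [Finset.mem_sdiff]
    exact ⟨fun h => h.2, fun h => ⟨(Finset.mem_inter.1 h2).1, h⟩⟩
  have h3 := Finset.card_filter_add_card_filter_not (s := D.Q u w) (fun p => p.1 ∈ X)
  rw [h1]
  unfold Dat.qX
  rw [← h3]
  push_cast
  ring

private theorem Mu_sub (D : Dat g) (u : Pl g) (X : Finset (Un g)) : D.Mu u X ⊆ D.S u \ X := by
  intro y hy
  simp only [Dat.Mu, kind, Finset.mem_sdiff, Finset.mem_filter] at hy ⊢
  exact ⟨hy.1.1, hy.2⟩

private theorem mean_split (D : Dat g) (u w : Pl g) (X : Finset (Un g)) (β : Un g → ℝ) :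
    meanQ D u w X β = cnt0 (D.Q u w) (D.S u \ X) (fun _ => none) +
      ∑ y ∈ D.S u \ X, (coin (D.Mu u X) β y true * q1 (D.Q u w) y true +
        coin (D.Mu u X) β y false * q1 (D.Q u w) y false) := by
  have h0 : cnt0 (D.Q u w) (D.S u \ X) (fun _ => none) = 0 := by
    unfold cnt0
    rw [Finset.filter_false_of_mem]
    · simp
    · rintro p _ ⟨_, h⟩
      exact absurd h (by simp)
  have h1 : ∀ y ∈ D.S u \ X, (coin (D.Mu u X) β y true * q1 (D.Q u w) y true +
      coin (D.Mu u X) β y false * q1 (D.Q u w) y false) =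
      (q1 (D.Q u w) y true + q1 (D.Q u w) y false) / 2 +
        (if y ∈ D.Mu u X then β y * q1 (D.Q u w) y true else 0) := by
    intro y _
    unfold coin
    by_cases hy : y ∈ D.Mu u X
    · have h2 : q1 (D.Q u w) y false = 0 := by
        unfold q1
        rw [if_neg]
        refine Dat.phantom D ?_
        simp only [Dat.Mu, kind, Finset.mem_sdiff, Finset.mem_filter] at hy
        rw [hy.1.2]
        decide
      rw [if_pos hy, if_pos hy, if_pos hy, if_pos rfl, if_neg (by decide), h2]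
      ring
    · rw [if_neg hy, if_neg hy, if_neg hy]
      ring
  have h3 : ∑ y ∈ D.S u \ X, (if y ∈ D.Mu u X then β y * q1 (D.Q u w) y true else 0) =
      ∑ y ∈ (D.Mu u X).filter (fun y => (y, true) ∈ D.Q u w), β y := by
    rw [← Finset.sum_filter, Finset.filter_mem_eq_inter,
      Finset.inter_eq_right.2 (Mu_sub D u X), Finset.sum_filter]
    refine Finset.sum_congr rfl fun y _ => ?_
    unfold q1
    by_cases h : (y, true) ∈ D.Q u w
    · rw [if_pos h, if_pos h, mul_one]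
    · rw [if_neg h, if_neg h, mul_zero]
  rw [h0, zero_add, Finset.sum_congr rfl h1, Finset.sum_add_distrib, h3, ← Finset.sum_div,
    sum_q1_eq, filter_split]
  rfl

private theorem num_tail {x : ℝ} (hx : 26 ≤ x) :
    2 * Real.exp (-((x ^ 52 / 4) ^ 2 / (4 * (5 * x ^ 96)))) ≤ Real.exp (-(x ^ 6)) := by
  have hx0 : 0 < x := by linarith
  have e1 : (x ^ 52 / 4) ^ 2 / (4 * (5 * x ^ 96)) = x ^ 8 / 320 := by
    have e2 : (x ^ 52 / 4) ^ 2 = x ^ 8 * x ^ 96 / 16 := by
      rw [div_pow, ← pow_mul, ← pow_add]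
      norm_num
    rw [e2]
    have e3 : x ^ 96 ≠ 0 := by positivity
    generalize x ^ 96 = a at e3
    generalize x ^ 8 = b
    field_simp
    ring
  rw [e1]
  have e4 : 2 * x ^ 6 ≤ x ^ 8 / 320 := by
    have e5 : x ^ 8 = x ^ 2 * x ^ 6 := by ring
    have e6 : 640 ≤ x ^ 2 := by nlinarith
    have e7 : 0 ≤ x ^ 6 := by positivity
    rw [e5]
    nlinarith
  have e8 : (1 : ℝ) ≤ x ^ 6 := one_le_pow₀ (by linarith)
  have e9 : (2 : ℝ) ≤ Real.exp (x ^ 6) := by
    have := Real.add_one_le_exp (x ^ 6)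
    linarith
  calc 2 * Real.exp (-(x ^ 8 / 320)) ≤ Real.exp (x ^ 6) * Real.exp (-(2 * x ^ 6)) :=
        mul_le_mul e9 (Real.exp_le_exp.2 (by linarith)) (Real.exp_pos _).le (Real.exp_pos _).le
    _ = Real.exp (-(x ^ 6)) := by
        rw [← Real.exp_add]
        congr 1
        ring

private theorem num_tail' {x : ℝ} (hx : 26 ≤ x) :
    2 * Real.exp (-((x ^ 52) ^ 2 / (4 * (5 * x ^ 96)))) ≤ Real.exp (-(x ^ 6)) := by
  refine le_trans ?_ (num_tail hx)
  have hx0 : 0 < x := by linarith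
  have h1 : (x ^ 52 / 4) ^ 2 ≤ (x ^ 52) ^ 2 := by
    have : 0 ≤ x ^ 52 := by positivity
    exact pow_le_pow_left₀ (by positivity) (by linarith) 2
  have h2 : (x ^ 52 / 4) ^ 2 / (4 * (5 * x ^ 96)) ≤ (x ^ 52) ^ 2 / (4 * (5 * x ^ 96)) :=
    div_le_div_of_nonneg_right h1 (by positivity)
  have h3 := Real.exp_le_exp.2 (neg_le_neg h2)
  linarith

/-- TAIL. cnt (Q u w) (trA t) is within a of meanQ up to probability 2 exp(-a^2/(4V)), V >= |Q u w|.
PROOF: cnt_tail (Cnt.lean) with F = S u minus X, T0 = none, w = coin (Bridge: cw_eq, coin_isP): the frozen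
contribution is 0; a tilted unit y in Mu has (y, false) not in Q (phantom), contribution
(1/2 + β y) [ (y,true) in Q ]; all other free units have fair coins, contribution half of the number of
their counting points; all points of Q lie in units of Z u w, contained in S u. -/
theorem cnt_tail_u (D : Dat g) (u w : Pl g) (X : Finset (Un g)) (β : Un g → ℝ)
    (hβ : ∀ y ∈ D.Mu u X, |β y| ≤ 1 / 2) {V a : ℝ} (hV : ((D.Q u w).card : ℝ) ≤ V) (hV0 : 0 < V)
    (ha : 0 ≤ a) (haV : a ≤ 2 * V) :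
    ∑ t, cw (D.Mu u X) β t *
        ind (a ≤ |(cnt (D.Q u w) (D.trA u X t) : ℝ) - meanQ D u w X β|) ≤
      2 * Real.exp (-(a ^ 2 / (4 * V))) := by
  have h := cnt_tail (w := coin (D.Mu u X) β) (fun y => coin_isP hβ y) (D.Q u w) (D.S u \ X)
    (fun _ => none) hV hV0 ha haV (mean_split D u w X β)
  refine le_trans (le_of_eq ?_) h
  unfold Pool.LarProb.Pr Pool.LarProb.Ex
  rw [cw_eq]
  refine Finset.sum_congr rfl fun t _ => ?_
  rw [ind_eq]
  rfl

private theorem sum_cw_le (D : Dat g) (u : Pl g) (X : Finset (Un g)) {β : Un g → ℝ}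
    (hβ : ∀ y ∈ D.Mu u X, |β y| ≤ 1 / 10) (P P' : (Un g → Bool) → Prop)
    (h : ∀ t, P t → P' t) :
    ∑ t, cw (D.Mu u X) β t * ind (P t) ≤ ∑ t, cw (D.Mu u X) β t * ind (P' t) := by
  have hP := cw_isP (Ms := D.Mu u X) (β := β) fun y hy => (hβ y hy).trans (by norm_num)
  refine Finset.sum_le_sum fun t _ => mul_le_mul_of_nonneg_left ?_ (hP.nonneg t)
  rw [ind_eq, ind_eq]
  exact Pool.LarProb.ind_mono (h t)

/-- MEAN AT A PLAYER OUTSIDE B. PROOF. e = g^-43, q = |Q u w| in [3.9, 4.1] g^96, qX <= q/g^2 (Xq), the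
tilted counting points outside X are n1 >= .9 g^96 - qX >= .8 g^96 (l1m). The sum of beta over them is
e n1 + sum of raise - e * (double sum of inc over k and over them); as no B k is w, b2 bounds the last term
by g^-43 g^95/64 = g^52/64. Not heavy (q > 16 g^43 qX): the loss qX/2 is at most q/(32 g^43) <= .13 g^53, the
gain e n1 >= .8 g^53. Heavy: r3 gives raise >= 8 qX/q on all tilted counting points, so the sum of raise
is >= n1 * 8 qX/q >= 1.5 qX >= qX/2. In both cases meanQ >= q/2 + .6 g^53 - g^52/64, and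
hi <= q/2 + h/2 + 2 (window) with h = g^52 + 1. -/
theorem mean_out : ∀ᶠ (g : ℕ) in Filter.atTop, ∀ D : Dat g, Geo D.S → D.Lab →
    ∀ (u : Pl g) (X : Finset (Un g)) (E : Env g), E.OK D u X →
    ∀ B : Fin E.M → Pl g, E.BB D u X B → ∀ w, w ≠ u → (∀ k, B k ≠ w) →
    (D.hi u w : ℝ) + (g : ℝ) ^ 52 ≤ meanQ D u w X (E.beta D B) :=
  mean_out_LV

/-- MEAN AT A PLAYER OF B. PROOF. w = B k, e = g^-43. qX <= 2 |Z u w cap X| <= 2(g+1). Let T = the tilted
counting points outside X, |T| <= 1.1 g^96. For y in T: beta y = e + raise y - e * inc k w y - e * sum over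
l <> k of inc l (B l) y. y is in S w, so inc k w y = 1 - qq k y or 0 (y in H k, at most 5g units by H1):
|sum over T of (e - e inc k w y)| <= |T| e 24/g^950 + 5 g e. Sum of raise over T: <= (g+1) 8/g^2 (r2, r0).
The double sum over l <> k and T is the one in b2 for w (B injective: B l = w iff l = k), so it is at most
g^95/64. Together |meanQ - q/2| <= (g+1) + small + g^52/64 <= g^52/32. -/
theorem mean_in : ∀ᶠ (g : ℕ) in Filter.atTop, ∀ D : Dat g, Geo D.S → D.Lab →
    ∀ (u : Pl g) (X : Finset (Un g)) (E : Env g), E.OK D u X →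
    ∀ B : Fin E.M → Pl g, E.BB D u X B → ∀ k,
    |meanQ D u (B k) X (E.beta D B) - ((D.Q u (B k)).card : ℝ) / 2| ≤ (g : ℝ) ^ 52 / 32 :=
  mean_in_LV

/-- (9.1) cnt < hi forces |cnt - meanQ| >= g^52; cnt_tail_u with a = g^52, V = 5 g^96:
2 exp(-g^104/(20 g^96)) <= exp(-g^6). -/
theorem valid_out : ∀ᶠ (g : ℕ) in Filter.atTop, ∀ D : Dat g, Geo D.S → D.Lab →
    ∀ (u : Pl g) (X : Finset (Un g)) (E : Env g), E.OK D u X →
    ∀ B : Fin E.M → Pl g, E.BB D u X B → ∀ w, w ≠ u → (∀ k, B k ≠ w) →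
    ∑ t, cw (D.Mu u X) (E.beta D B) t *
      ind ((cnt (D.Q u w) (D.trA u X t) : ℤ) < D.hi u w) ≤ Real.exp (-((g : ℝ) ^ 6)) := by
  filter_upwards [beta_le, mean_out, Filter.eventually_ge_atTop 26]
    with g hβ hm hg D hS hL u X E hE B hB w hw hBw
  have hg' : (26 : ℝ) ≤ g := by exact_mod_cast hg
  have hb := hβ D u X E hE B hB
  have hmean := hm D hS hL u X E hE B hB w hw hBw
  have hg0 : (0 : ℝ) < g := by linarith
  have h95 : (g : ℝ) ^ 95 ≤ (g : ℝ) ^ 96 := pow_le_pow_right₀ (by linarith) (by norm_num)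
  have h52 : (g : ℝ) ^ 52 ≤ (g : ℝ) ^ 96 := pow_le_pow_right₀ (by linarith) (by norm_num)
  have h96 : 0 < (g : ℝ) ^ 96 := by positivity
  have hQ : ((D.Q u w).card : ℝ) ≤ 5 * (g : ℝ) ^ 96 := by
    have := (abs_le.1 (hL.l1q u w hw.symm)).2
    linarith
  refine (sum_cw_le D u X hb _ (fun t => (g : ℝ) ^ 52 ≤
    |(cnt (D.Q u w) (D.trA u X t) : ℝ) - meanQ D u w X (E.beta D B)|) fun t ht => ?_).trans
    ((cnt_tail_u D u w X (E.beta D B) (fun y hy => (hb y hy).trans (by norm_num)) hQ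
      (by positivity) (by positivity) (by linarith)).trans (num_tail' hg'))
  have h1 : (cnt (D.Q u w) (D.trA u X t) : ℝ) < (D.hi u w : ℝ) := by exact_mod_cast ht
  rw [abs_sub_comm]
  refine le_trans ?_ (le_abs_self _)
  linarith

/-- (9.2) not win forces |cnt - meanQ| >= h/2 - 2 - 2 - g^52/32 - ... >= g^52/4 (window, mean_in);
cnt_tail_u with a = g^52/4, V = 5 g^96. -/
theorem valid_in : ∀ᶠ (g : ℕ) in Filter.atTop, ∀ D : Dat g, Geo D.S → D.Lab →
    ∀ (u : Pl g) (X : Finset (Un g)) (E : Env g), E.OK D u X →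
    ∀ B : Fin E.M → Pl g, E.BB D u X B → ∀ k,
    ∑ t, cw (D.Mu u X) (E.beta D B) t *
      ind (¬ D.win u (B k) (D.trA u X t)) ≤ Real.exp (-((g : ℝ) ^ 6)) := by
  filter_upwards [beta_le, mean_in, Filter.eventually_ge_atTop 26]
    with g hβ hm hg D hS hL u X E hE B hB k
  have hg' : (26 : ℝ) ≤ g := by exact_mod_cast hg
  have hb := hβ D u X E hE B hB
  have hmean := abs_le.1 (hm D hS hL u X E hE B hB k)
  have hw : B k ≠ u := hE.W_ne k _ (hB.mem k)
  have hg0 : (0 : ℝ) < g := by linarith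
  have h95 : (g : ℝ) ^ 95 ≤ (g : ℝ) ^ 96 := pow_le_pow_right₀ (by linarith) (by norm_num)
  have h52 : (g : ℝ) ^ 52 ≤ (g : ℝ) ^ 96 := pow_le_pow_right₀ (by linarith) (by norm_num)
  have h52' : (26 : ℝ) ≤ (g : ℝ) ^ 52 := hg'.trans (le_self_pow₀ (by linarith) (by norm_num))
  have h96 : 0 < (g : ℝ) ^ 96 := by positivity
  have hQ : ((D.Q u (B k)).card : ℝ) ≤ 5 * (g : ℝ) ^ 96 := by
    have := (abs_le.1 (hL.l1q u (B k) hw.symm)).2
    linarith
  obtain ⟨hlo, hhi⟩ := D.window u (B k)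
  rw [abs_le] at hlo hhi
  rw [hM_cast] at hlo hhi
  refine (sum_cw_le D u X hb _ (fun t => (g : ℝ) ^ 52 / 4 ≤
    |(cnt (D.Q u (B k)) (D.trA u X t) : ℝ) - meanQ D u (B k) X (E.beta D B)|)
    fun t ht => ?_).trans
    ((cnt_tail_u D u (B k) X (E.beta D B) (fun y hy => (hb y hy).trans (by norm_num)) hQ
      (by positivity) (by positivity) (by linarith)).trans (num_tail hg'))
  unfold Dat.win at ht
  rw [not_and_or, not_le, not_le] at ht
  rcases ht with ht | ht
  · have h1 : (cnt (D.Q u (B k)) (D.trA u X t) : ℝ) < (D.lo u (B k) : ℝ) := by exact_mod_cast ht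
    rw [abs_sub_comm]
    refine le_trans ?_ (le_abs_self _)
    linarith [hlo.2, hmean.1]
  · have h1 : (D.hi u (B k) : ℝ) < (cnt (D.Q u (B k)) (D.trA u X t) : ℝ) := by exact_mod_cast ht
    refine le_trans ?_ (le_abs_self _)
    linarith [hhi.1, hmean.2]

end Pool.Larman
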