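import Mathlib

/-!
# Pair lemma (Lemma 3 of the hash/twins model), abstract form

Everything is stated for an abstract system of players, units, points, patterns.
-/

namespace Pool.LarPair

open Finset

/-- Abstract data for the pair lemma. -/
structure PairSys (V U P Pat : Type) [DecidableEq V] [DecidableEq U] [DecidableEq P] where
  /-- units of a player -/
  S : V → Finset U
  /-- unit of a point -/
  unit : P → U
  /-- domain of a pattern -/
  dom : Pat → Finset U
  /-- IN points of a pattern -/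
  inn : Pat → Finset P
  /-- admissible patterns of a player -/
  adm : V → Pat → Prop
  /-- killers -/
  K : V → Pat → Finset V
  /-- compatibility -/
  comp : V → Pat → V → Pat → Prop
  inn_dom : ∀ s, ∀ x ∈ inn s, unit x ∈ dom s
  inn_inj : ∀ s, ∀ x ∈ inn s, ∀ y ∈ inn s, unit x = unit y → x = y
  adm_dom : ∀ u s, adm u s → dom s ⊆ S u
  kill : ∀ u s v s', u ≠ v → adm u s → adm v s' → comp u s v s' → v ∈ K u s ∨ u ∈ K v s'

variable {V U P Pat : Type} [DecidableEq V] [DecidableEq U] [DecidableEq P]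

namespace PairSys

variable (X : PairSys V U P Pat)

/-- condition (c1) -/
def c1 (u : V) (s : Pat) (v : V) (s' : Pat) : Prop :=
  (X.dom s ∩ X.S v).card ≤ 2 ∧ (X.dom s' ∩ X.S u).card ≤ 2

/-- eligible: (c1) and not two common IN points -/
def elig (u : V) (s : Pat) (v : V) (s' : Pat) : Prop :=
  X.c1 u s v s' ∧ (X.inn s ∩ X.inn s').card ≤ 1

lemma card_image_unit {A : Finset P} {s : Pat} (h : A ⊆ X.inn s) :
    (A.image X.unit).card = A.card :=
  Finset.card_image_of_injOn (fun x hx y hy hxy =>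
    X.inn_inj s x (h hx) y (h hy) hxy)

end PairSys

lemma card_pairs {α β : Type} (J : Finset α) (J' : Finset β) (R : α → β → Prop)
    [∀ u, DecidablePred (R u)] [DecidablePred fun p : α × β => R p.1 p.2] :
    ((J ×ˢ J').filter (fun p => R p.1 p.2)).card = ∑ u ∈ J, (J'.filter (R u)).card := by
  simp only [Finset.card_filter, Finset.sum_product]
  refine Finset.sum_congr rfl fun x _ => Finset.sum_congr rfl fun y _ => ?_
  congr

lemma card_pairs_le {α β : Type} (J : Finset α) (J' : Finset β) (R : α → β → Prop)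
    [∀ u, DecidablePred (R u)] [DecidablePred fun p : α × β => R p.1 p.2] (t : ℝ)
    (h : ∀ u ∈ J, ((J'.filter (R u)).card : ℝ) ≤ t) :
    (((J ×ˢ J').filter (fun p => R p.1 p.2)).card : ℝ) ≤ J.card * t := by
  rw [card_pairs]
  push_cast
  calc ∑ u ∈ J, ((J'.filter (R u)).card : ℝ) ≤ ∑ u ∈ J, t := Finset.sum_le_sum h
    _ = J.card * t := by simp

lemma card_pairs_le' {α β : Type} (J : Finset α) (J' : Finset β) (R : α → β → Prop)
    [∀ v, DecidablePred (fun u => R u v)] [DecidablePred fun p : α × β => R p.1 p.2] (t : ℝ)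
    (h : ∀ v ∈ J', ((J.filter (fun u => R u v)).card : ℝ) ≤ t) :
    (((J ×ˢ J').filter (fun p => R p.1 p.2)).card : ℝ) ≤ J'.card * t := by
  classical
  have h1 : ((J ×ˢ J').filter (fun p => R p.1 p.2)).card
      = ((J' ×ˢ J).filter (fun p => R p.2 p.1)).card := by
    apply Finset.card_bij (fun p _ => (p.2, p.1))
    · intro p hp
      simp only [mem_filter, mem_product] at hp ⊢
      exact ⟨⟨hp.1.2, hp.1.1⟩, hp.2⟩
    · intro p hp q hq hpq
      simp only [Prod.mk.injEq] at hpq
      exact Prod.ext hpq.2 hpq.1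
    · intro p hp
      simp only [mem_filter, mem_product] at hp
      exact ⟨(p.2, p.1), by simp only [mem_filter, mem_product]; exact ⟨⟨hp.1.2, hp.1.1⟩, hp.2⟩, rfl⟩
  rw [h1]
  refine card_pairs_le J' J (fun v u => R u v) t (fun v hv => ?_)
  convert h v hv

/-- averaging -/
lemma exists_le_avg {α : Type} (J : Finset α) (f : α → ℝ) (c : ℝ) (hJ : J.Nonempty)
    (h : ∑ u ∈ J, f u ≤ J.card * c) : ∃ u ∈ J, f u ≤ c := by
  by_contra hcon
  push Not at hcon
  have : ∑ u ∈ J, c < ∑ u ∈ J, f u := Finset.sum_lt_sum_of_nonempty hJ hcon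
  simp at this
  linarith

variable [Fintype V]

open Classical in
/-- Two double partners force a common pair. -/
theorem double_structure (X : PairSys V U P Pat) (Dmax : ℕ) (J : Finset V) (s : V → Pat)
    (hs : ∀ u ∈ J, X.adm u (s u))
    (hdom : ∀ u ∈ J, (X.dom (s u)).card ≤ Dmax)
    {θ t c3 : ℝ} (hθ : 0 < θ) (hθ1 : θ ≤ 1) (ht : 1 ≤ t)
    (hc3T : c3 ≤ t / θ)
    (hJ : 1000 * t / θ < J.card)
    (hK : ∀ u ∈ J, ((X.K u (s u) ∩ J).card : ℝ) ≤ t)
    (hS3 : ∀ Y : Finset U, Y.card ≤ 3 * Dmax →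
      (((univ : Finset V).filter (fun v => 3 ≤ (X.S v ∩ Y).card)).card : ℝ) ≤ c3)
    (hS4 : (J.card : ℝ) ^ 2 / 50 ≤
        ((J.offDiag.filter (fun p => X.elig p.1 (s p.1) p.2 (s p.2))).card : ℝ) →
        θ * (J.card : ℝ) ^ 2 / 400 ≤
          ((J.offDiag.filter (fun p => X.comp p.1 (s p.1) p.2 (s p.2))).card : ℝ)) :
    ∃ x y : P, X.unit x ≠ X.unit y ∧
      (9 / 10 : ℝ) * J.card ≤ ((J.filter (fun w => x ∈ X.inn (s w) ∧ y ∈ X.inn (s w))).card : ℝ) := by
  set n : ℝ := (J.card : ℝ) with hn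
  have hn1 : 1000 * t < n * θ := by
    rw [div_lt_iff₀ hθ] at hJ; exact hJ
  have hn2 : 1000 < n := by nlinarith
  have hnpos : 0 < n := by linarith
  have hc3n : 1000 * c3 ≤ n := by
    have : c3 * θ ≤ t := by rwa [le_div_iff₀ hθ] at hc3T
    have h2 : 1000 * c3 ≤ 1000 * t / θ := by
      rw [mul_div_assoc]; linarith
    linarith
  -- the number of compatible ordered pairs
  have hcomp : ((J.offDiag.filter (fun p => X.comp p.1 (s p.1) p.2 (s p.2))).card : ℝ)
      ≤ 2 * n * t := by
    have hsub : J.offDiag.filter (fun p => X.comp p.1 (s p.1) p.2 (s p.2)) ⊆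
        ((J ×ˢ J).filter (fun p => p.2 ∈ X.K p.1 (s p.1))) ∪
        ((J ×ˢ J).filter (fun p => p.1 ∈ X.K p.2 (s p.2))) := by
      intro p hp
      simp only [mem_filter, mem_offDiag, mem_union, mem_product] at hp ⊢
      obtain ⟨⟨h1, h2, h3⟩, h4⟩ := hp
      rcases X.kill _ _ _ _ h3 (hs _ h1) (hs _ h2) h4 with h5 | h5
      · left; exact ⟨⟨h1, h2⟩, h5⟩
      · right; exact ⟨⟨h1, h2⟩, h5⟩
    have h1 := Finset.card_le_card hsub
    have h2 := Finset.card_union_le ((J ×ˢ J).filter (fun p => p.2 ∈ X.K p.1 (s p.1)))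
        ((J ×ˢ J).filter (fun p => p.1 ∈ X.K p.2 (s p.2)))
    have hfil : ∀ u ∈ J, ((J.filter (fun v => v ∈ X.K u (s u))).card : ℝ) ≤ t := by
      intro u hu
      have : J.filter (fun v => v ∈ X.K u (s u)) = X.K u (s u) ∩ J := by
        ext v; simp only [mem_filter, mem_inter]; tauto
      rw [this]; exact hK u hu
    have h3 : (((J ×ˢ J).filter (fun p => p.2 ∈ X.K p.1 (s p.1))).card : ℝ) ≤ n * t :=
      card_pairs_le J J (fun u v => v ∈ X.K u (s u)) t (fun u hu => by convert hfil u hu)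
    have h4 : (((J ×ˢ J).filter (fun p => p.1 ∈ X.K p.2 (s p.2))).card : ℝ) ≤ n * t :=
      card_pairs_le' J J (fun u v => u ∈ X.K v (s v)) t (fun u hu => by convert hfil u hu)
    have h5 : ((J.offDiag.filter (fun p => X.comp p.1 (s p.1) p.2 (s p.2))).card : ℝ) ≤
        (((J ×ˢ J).filter (fun p => p.2 ∈ X.K p.1 (s p.1))).card : ℝ) +
        (((J ×ˢ J).filter (fun p => p.1 ∈ X.K p.2 (s p.2))).card : ℝ) := by
      exact_mod_cast h1.trans h2
    linarith
  -- few eligible pairs
  have helig : ((J.offDiag.filter (fun p => X.elig p.1 (s p.1) p.2 (s p.2))).card : ℝ)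
      < n ^ 2 / 50 := by
    by_contra hcon
    push Not at hcon
    have h1 := (hS4 hcon).trans hcomp
    have h2 : θ * n ^ 2 / 400 ≤ 2 * n * t := h1
    have h3 : θ * n ≤ 800 * t := by
      have : n * (θ * n) ≤ n * (800 * t) := by nlinarith
      exact le_of_mul_le_mul_left this hnpos
    nlinarith
  -- double pairs
  let D : V → V → Prop := fun u v => u ≠ v ∧ X.c1 u (s u) v (s v) ∧
    2 ≤ (X.inn (s u) ∩ X.inn (s v)).card
  have hexc : ∀ u ∈ J, ((J.filter (fun v => 3 ≤ (X.dom (s u) ∩ X.S v).card)).card : ℝ) ≤ c3 := by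
    intro u hu
    refine le_trans ?_ (hS3 (X.dom (s u)) (by have := hdom u hu; omega))
    have : J.filter (fun v => 3 ≤ (X.dom (s u) ∩ X.S v).card) ⊆
        (univ : Finset V).filter (fun v => 3 ≤ (X.S v ∩ X.dom (s u)).card) := by
      intro v hv
      simp only [mem_filter, mem_univ, true_and] at hv ⊢
      rw [inter_comm]; exact hv.2
    exact_mod_cast Finset.card_le_card this
  have hnotD : (((J ×ˢ J).filter (fun p => ¬ D p.1 p.2)).card : ℝ) ≤ (26 / 1000) * n ^ 2 := by
    have hsub : (J ×ˢ J).filter (fun p => ¬ D p.1 p.2) ⊆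
        (J.diag ∪ J.offDiag.filter (fun p => X.elig p.1 (s p.1) p.2 (s p.2))) ∪
        (((J ×ˢ J).filter (fun p => 3 ≤ (X.dom (s p.1) ∩ X.S p.2).card)) ∪
        ((J ×ˢ J).filter (fun p => 3 ≤ (X.dom (s p.2) ∩ X.S p.1).card))) := by
      intro p hp
      simp only [mem_filter, mem_product] at hp
      obtain ⟨⟨h1, h2⟩, h3⟩ := hp
      by_cases h4 : p.1 = p.2
      · simp only [mem_union]; left; left; rw [mem_diag]; exact ⟨h1, h4⟩
      by_cases h5 : 3 ≤ (X.dom (s p.1) ∩ X.S p.2).card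
      · simp only [mem_union, mem_filter, mem_product]; right; left; exact ⟨⟨h1, h2⟩, h5⟩
      by_cases h6 : 3 ≤ (X.dom (s p.2) ∩ X.S p.1).card
      · simp only [mem_union, mem_filter, mem_product]; right; right; exact ⟨⟨h1, h2⟩, h6⟩
      simp only [mem_union, mem_filter, mem_product, mem_offDiag]
      left; right
      refine ⟨⟨h1, h2, h4⟩, ?_⟩
      have hc : X.c1 p.1 (s p.1) p.2 (s p.2) := ⟨by omega, by omega⟩
      refine ⟨hc, ?_⟩
      by_contra h7
      exact h3 ⟨h4, hc, by omega⟩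
    have h1 := Finset.card_le_card hsub
    have h2 := (h1.trans (Finset.card_union_le _ _)).trans
      (Nat.add_le_add (Finset.card_union_le _ _) (Finset.card_union_le _ _))
    have h3 : (((J ×ˢ J).filter (fun p => 3 ≤ (X.dom (s p.1) ∩ X.S p.2).card)).card : ℝ)
        ≤ n * c3 := card_pairs_le J J (fun u v => 3 ≤ (X.dom (s u) ∩ X.S v).card) c3
          (fun u hu => by convert hexc u hu)
    have h4 : (((J ×ˢ J).filter (fun p => 3 ≤ (X.dom (s p.2) ∩ X.S p.1).card)).card : ℝ)
        ≤ n * c3 := card_pairs_le' J J (fun u v => 3 ≤ (X.dom (s v) ∩ X.S u).card) c3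
          (fun u hu => by convert hexc u hu)
    have h5 : (J.diag.card : ℝ) = n := by rw [diag_card]
    have h6 : (((J ×ˢ J).filter (fun p => ¬ D p.1 p.2)).card : ℝ) ≤
        ((J.diag.card : ℝ) +
          ((J.offDiag.filter (fun p => X.elig p.1 (s p.1) p.2 (s p.2))).card : ℝ)) +
        ((((J ×ˢ J).filter (fun p => 3 ≤ (X.dom (s p.1) ∩ X.S p.2).card)).card : ℝ) +
        (((J ×ˢ J).filter (fun p => 3 ≤ (X.dom (s p.2) ∩ X.S p.1).card)).card : ℝ)) := by
      exact_mod_cast h2
    nlinarith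
  have hJne : J.Nonempty := by
    rw [← Finset.card_pos]
    have : (0 : ℝ) < (J.card : ℝ) := hnpos
    exact_mod_cast this
  rw [card_pairs J J (fun u v => ¬ D u v)] at hnotD
  push_cast at hnotD
  obtain ⟨u, hu, hu'⟩ := exists_le_avg J (fun u => ((J.filter (fun v => ¬ D u v)).card : ℝ))
    (26 / 1000 * n) hJne (by nlinarith)
  -- partners of u
  have hNu : ((J.filter (fun v => D u v)).card : ℝ) + ((J.filter (fun v => ¬ D u v)).card : ℝ)
      = n := by
    have := Finset.card_filter_add_card_filter_not (s := J) (fun v => D u v)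
    rw [hn]
    exact_mod_cast this
  have hNu' : (974 / 1000) * n ≤ ((J.filter (fun v => D u v)).card : ℝ) := by linarith
  have hNne : (J.filter (fun v => D u v)).Nonempty := by
    rw [← Finset.card_pos]
    have : (0 : ℝ) < ((J.filter (fun v => D u v)).card : ℝ) := by nlinarith
    exact_mod_cast this
  obtain ⟨v, hv, hv'⟩ := exists_le_avg (J.filter (fun v => D u v))
    (fun v => ((J.filter (fun w => ¬ D v w)).card : ℝ)) (27 / 1000 * n) hNne (by
      have h1 : ∑ v ∈ J.filter (fun v => D u v), ((J.filter (fun w => ¬ D v w)).card : ℝ)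
          ≤ ∑ v ∈ J, ((J.filter (fun w => ¬ D v w)).card : ℝ) :=
        Finset.sum_le_sum_of_subset_of_nonneg (Finset.filter_subset _ _)
          (fun _ _ _ => by positivity)
      nlinarith)
  simp only [mem_filter] at hv
  obtain ⟨hvJ, hDuv⟩ := hv
  -- the pair
  have hcard_le : ∀ a b : V, X.c1 a (s a) b (s b) → b ∈ J → ∀ A : Finset P,
      A ⊆ X.inn (s a) → A ⊆ X.inn (s b) → A.card ≤ 2 := by
    intro a b hc hb A hA hB
    rw [← X.card_image_unit hA]
    refine le_trans (Finset.card_le_card ?_) hc.1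
    intro z hz
    rw [mem_image] at hz
    obtain ⟨x, hx, rfl⟩ := hz
    rw [mem_inter]
    exact ⟨X.inn_dom _ _ (hA hx), X.adm_dom _ _ (hs b hb) (X.inn_dom _ _ (hB hx))⟩
  have hE2 : (X.inn (s u) ∩ X.inn (s v)).card = 2 :=
    le_antisymm (hcard_le u v hDuv.2.1 hvJ _ inter_subset_left inter_subset_right) hDuv.2.2
  obtain ⟨x, y, hxy, hE⟩ := Finset.card_eq_two.mp hE2
  have hxu : x ∈ X.inn (s u) := by
    have : x ∈ X.inn (s u) ∩ X.inn (s v) := by rw [hE]; simp
    exact (mem_inter.mp this).1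
  have hyu : y ∈ X.inn (s u) := by
    have : y ∈ X.inn (s u) ∩ X.inn (s v) := by rw [hE]; simp
    exact (mem_inter.mp this).1
  refine ⟨x, y, fun h => hxy (X.inn_inj _ _ hxu _ hyu h), ?_⟩
  -- exceptional set
  set Y : Finset U := X.dom (s u) ∪ X.dom (s v) with hY
  have hYc : Y.card ≤ 3 * Dmax := by
    have := Finset.card_union_le (X.dom (s u)) (X.dom (s v))
    have h1 := hdom u hu
    have h2 := hdom v hvJ
    rw [← hY] at this
    omega
  have hExc := hS3 Y hYc
  have hcover : J ⊆ (J.filter (fun w => x ∈ X.inn (s w) ∧ y ∈ X.inn (s w))) ∪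
      ((J.filter (fun w => ¬ D u w)) ∪ ((J.filter (fun w => ¬ D v w)) ∪
      (univ : Finset V).filter (fun w => 3 ≤ (X.S w ∩ Y).card))) := by
    intro w hw
    by_cases h1 : D u w
    swap
    · simp only [mem_union, mem_filter]; right; left; exact ⟨hw, h1⟩
    by_cases h2 : D v w
    swap
    · simp only [mem_union, mem_filter]; right; right; left; exact ⟨hw, h2⟩
    by_cases h3 : 3 ≤ (X.S w ∩ Y).card
    · simp only [mem_union, mem_filter]; right; right; right; exact ⟨mem_univ _, h3⟩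
    simp only [mem_union, mem_filter]; left
    refine ⟨hw, ?_⟩
    -- e1 = e2 = e
    set e1 := X.inn (s u) ∩ X.inn (s w) with he1
    set e2 := X.inn (s v) ∩ X.inn (s w) with he2
    have hc1 : e1.card = 2 :=
      le_antisymm (hcard_le u w h1.2.1 hw _ inter_subset_left inter_subset_right) h1.2.2
    have hc2 : e2.card = 2 :=
      le_antisymm (hcard_le v w h2.2.1 hw _ inter_subset_left inter_subset_right) h2.2.2
    have hU : (e1 ∪ e2).card ≤ 2 := by
      have hsub : e1 ∪ e2 ⊆ X.inn (s w) :=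
        union_subset inter_subset_right inter_subset_right
      rw [← X.card_image_unit hsub]
      have : ((e1 ∪ e2).image X.unit) ⊆ X.S w ∩ Y := by
        intro z hz
        rw [mem_image] at hz
        obtain ⟨p, hp, rfl⟩ := hz
        rw [mem_inter]
        refine ⟨X.adm_dom _ _ (hs w hw) (X.inn_dom _ _ (hsub hp)), ?_⟩
        rw [hY, mem_union]
        rcases mem_union.mp hp with hp | hp
        · left; exact X.inn_dom _ _ (mem_inter.mp hp).1
        · right; exact X.inn_dom _ _ (mem_inter.mp hp).1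
      have := Finset.card_le_card this
      omega
    have heq1 : e1 = e1 ∪ e2 := Finset.eq_of_subset_of_card_le subset_union_left (by omega)
    have heq2 : e2 = e1 ∪ e2 := Finset.eq_of_subset_of_card_le subset_union_right (by omega)
    have heq : e1 = e2 := heq1.trans heq2.symm
    have hsubE : e1 ⊆ X.inn (s u) ∩ X.inn (s v) := by
      intro p hp
      rw [mem_inter]
      refine ⟨(mem_inter.mp hp).1, ?_⟩
      rw [heq] at hp
      exact (mem_inter.mp hp).1
    have heqE : e1 = X.inn (s u) ∩ X.inn (s v) :=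
      Finset.eq_of_subset_of_card_le hsubE (by omega)
    constructor
    · have : x ∈ e1 := by rw [heqE, hE]; simp
      exact (mem_inter.mp this).2
    · have : y ∈ e1 := by rw [heqE, hE]; simp
      exact (mem_inter.mp this).2
  have h1 := Finset.card_le_card hcover
  have h2 := (h1.trans (Finset.card_union_le _ _))
  have h3 := Finset.card_union_le (J.filter (fun w => ¬ D u w)) ((J.filter (fun w => ¬ D v w)) ∪
      (univ : Finset V).filter (fun w => 3 ≤ (X.S w ∩ Y).card))
  have h4 := Finset.card_union_le (J.filter (fun w => ¬ D v w))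
      ((univ : Finset V).filter (fun w => 3 ≤ (X.S w ∩ Y).card))
  have h5 : n ≤ ((J.filter (fun w => x ∈ X.inn (s w) ∧ y ∈ X.inn (s w))).card : ℝ) +
      (((J.filter (fun w => ¬ D u w)).card : ℝ) + (((J.filter (fun w => ¬ D v w)).card : ℝ) +
      (((univ : Finset V).filter (fun w => 3 ≤ (X.S w ∩ Y).card)).card : ℝ))) := by
    rw [hn]
    exact_mod_cast h2.trans (Nat.add_le_add_left (h3.trans (Nat.add_le_add_left h4 _)) _)
  nlinarith

open Classical in
/-- **Pair lemma** (Lemma 3). `W` a set of players, `t` the threshold. -/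
theorem pair_lemma (X : PairSys V U P Pat) (Dmax : ℕ) (W : Finset V)
    (x0 y0 : P) (hxy0 : X.unit x0 ≠ X.unit y0) (hDmax : 2 ≤ Dmax)
    {θ t c3 : ℝ} (hθ : 0 < θ) (hθ1 : θ ≤ 1) (ht : 1 ≤ t) (hc3T : c3 ≤ t / θ)
    (hS3 : ∀ Y : Finset U, Y.card ≤ 3 * Dmax →
      (((univ : Finset V).filter (fun v => 3 ≤ (X.S v ∩ Y).card)).card : ℝ) ≤ c3)
    (hS4a : ∀ (J : Finset V) (s : V → Pat), 300 * t / θ ≤ J.card →
      (∀ u ∈ J, X.adm u (s u) ∧ (X.dom (s u)).card ≤ Dmax) →
      (J.card : ℝ) ^ 2 / 50 ≤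
        ((J.offDiag.filter (fun p => X.elig p.1 (s p.1) p.2 (s p.2))).card : ℝ) →
        θ * (J.card : ℝ) ^ 2 / 400 ≤
          ((J.offDiag.filter (fun p => X.comp p.1 (s p.1) p.2 (s p.2))).card : ℝ))
    (hS4b : ∀ (J J' : Finset V) (s s' : V → Pat), 300 * t / θ ≤ J.card → 300 * t / θ ≤ J'.card →
      Disjoint J J' →
      (∀ u ∈ J, X.adm u (s u) ∧ (X.dom (s u)).card ≤ Dmax) →
      (∀ u ∈ J', X.adm u (s' u) ∧ (X.dom (s' u)).card ≤ Dmax) →
      (J.card : ℝ) * J'.card / 2 ≤
        (((J ×ˢ J').filter (fun p => X.elig p.1 (s p.1) p.2 (s' p.2))).card : ℝ) →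
        θ / 16 * ((J.card : ℝ) * J'.card) ≤
          (((J ×ˢ J').filter (fun p => X.comp p.1 (s p.1) p.2 (s' p.2))).card : ℝ)) :
    ∃ x y : P, X.unit x ≠ X.unit y ∧
      ((W.filter (fun u => ∃ s, X.adm u s ∧ (X.dom s).card ≤ Dmax ∧
        ¬ (x ∈ X.inn s ∧ y ∈ X.inn s) ∧ ((X.K u s ∩ W).card : ℝ) < t)).card : ℝ)
        ≤ 1000 * t / θ := by
  set W1 : Finset V := W.filter (fun u => ∃ s, X.adm u s ∧ (X.dom s).card ≤ Dmax ∧
    ((X.K u s ∩ W).card : ℝ) < t) with hW1
  set T : ℝ := 1000 * t / θ with hT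
  have hTθ : T * θ = 1000 * t := by rw [hT]; field_simp
  have hT1000 : 1000 ≤ T := by nlinarith
  have hc3T' : 1000 * c3 ≤ T := by
    rw [hT, mul_div_assoc]; linarith
  by_cases hsmall : (W1.card : ℝ) ≤ T
  · refine ⟨x0, y0, hxy0, le_trans ?_ hsmall⟩
    have : W.filter (fun u => ∃ s, X.adm u s ∧ (X.dom s).card ≤ Dmax ∧
        ¬ (x0 ∈ X.inn s ∧ y0 ∈ X.inn s) ∧ ((X.K u s ∩ W).card : ℝ) < t) ⊆ W1 := by
      intro u hu
      rw [hW1]
      simp only [mem_filter] at hu ⊢
      obtain ⟨h1, s, h2, h3, _, h5⟩ := hu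
      exact ⟨h1, s, h2, h3, h5⟩
    exact_mod_cast Finset.card_le_card this
  push Not at hsmall
  have hch : ∀ u, ∃ s, u ∈ W1 → (X.adm u s ∧ (X.dom s).card ≤ Dmax ∧
      ((X.K u s ∩ W).card : ℝ) < t) := by
    intro u
    by_cases hu : u ∈ W1
    · obtain ⟨s, hs⟩ := (mem_filter.mp hu).2
      exact ⟨s, fun _ => hs⟩
    · have : W1.Nonempty := by
        rw [← Finset.card_pos]
        have : (0 : ℝ) < (W1.card : ℝ) := by linarith
        exact_mod_cast this
      obtain ⟨v, hv⟩ := this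
      obtain ⟨s, _⟩ := (mem_filter.mp hv).2
      exact ⟨s, fun h => absurd h hu⟩
  choose s hs using hch
  have hW1W : W1 ⊆ W := Finset.filter_subset _ _
  have hT300 : 300 * t / θ ≤ T := by
    rw [hT]; apply div_le_div_of_nonneg_right _ hθ.le; linarith
  obtain ⟨x, y, hxy, hU⟩ := double_structure X Dmax W1 s (fun u hu => (hs u hu).1)
    (fun u hu => (hs u hu).2.1) hθ hθ1 ht hc3T hsmall
    (fun u hu => by
      refine le_trans ?_ (hs u hu).2.2.le
      exact_mod_cast Finset.card_le_card (Finset.inter_subset_inter_left hW1W))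
    hS3 (hS4a W1 s (hT300.trans hsmall.le) (fun u hu => ⟨(hs u hu).1, (hs u hu).2.1⟩))
  refine ⟨x, y, hxy, ?_⟩
  by_contra hbig
  rw [not_le] at hbig
  set W2 : Finset V := W.filter (fun u => ∃ s, X.adm u s ∧ (X.dom s).card ≤ Dmax ∧
        ¬ (x ∈ X.inn s ∧ y ∈ X.inn s) ∧ ((X.K u s ∩ W).card : ℝ) < t) with hW2
  have hch' : ∀ u, ∃ s, u ∈ W2 → (X.adm u s ∧ (X.dom s).card ≤ Dmax ∧
      ¬ (x ∈ X.inn s ∧ y ∈ X.inn s) ∧ ((X.K u s ∩ W).card : ℝ) < t) := by
    intro u
    by_cases hu : u ∈ W2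
    · obtain ⟨s, hs⟩ := (mem_filter.mp hu).2
      exact ⟨s, fun _ => hs⟩
    · exact ⟨s u, fun h => absurd h hu⟩
  choose s' hs' using hch'
  have hW2W : W2 ⊆ W := Finset.filter_subset _ _
  obtain ⟨x', y', hxy', hU'⟩ := double_structure X Dmax W2 s' (fun u hu => (hs' u hu).1)
    (fun u hu => (hs' u hu).2.1) hθ hθ1 ht hc3T hbig
    (fun u hu => by
      refine le_trans ?_ (hs' u hu).2.2.2.le
      exact_mod_cast Finset.card_le_card (Finset.inter_subset_inter_left hW2W))
    hS3 (hS4a W2 s' (hT300.trans hbig.le) (fun u hu => ⟨(hs' u hu).1, (hs' u hu).2.1⟩))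
  set A : Finset V := W1.filter (fun w => x ∈ X.inn (s w) ∧ y ∈ X.inn (s w)) with hA
  set A' : Finset V := W2.filter (fun w => x' ∈ X.inn (s' w) ∧ y' ∈ X.inn (s' w)) with hA'
  -- disjoint subsets of size at least T/3
  have hAT : T / 3 + 1 ≤ (A.card : ℝ) := by nlinarith
  obtain ⟨B, hBA, hBc⟩ := Finset.exists_subset_card_eq (s := A) (n := ⌈T / 3⌉₊) (by
    have h1 : (⌈T / 3⌉₊ : ℝ) < T / 3 + 1 := Nat.ceil_lt_add_one (by linarith)
    have h2 : (⌈T / 3⌉₊ : ℝ) ≤ (A.card : ℝ) := by linarith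
    exact_mod_cast h2)
  have hB1 : T / 3 ≤ (B.card : ℝ) := by rw [hBc]; exact Nat.le_ceil _
  have hB2 : (B.card : ℝ) ≤ T / 3 + 1 := by
    rw [hBc]; exact (Nat.ceil_lt_add_one (by linarith)).le
  set B' : Finset V := A' \ B with hB'
  have hB'1 : T / 3 ≤ (B'.card : ℝ) := by
    have h1 : A'.card ≤ B'.card + B.card := by
      rw [hB']
      have := Finset.card_le_card_sdiff_add_card (s := A') (t := B)
      omega
    have h2 : (A'.card : ℝ) ≤ (B'.card : ℝ) + B.card := by exact_mod_cast h1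
    nlinarith
  have hdisj : Disjoint B B' := by
    rw [hB']; exact Finset.disjoint_sdiff
  have hBW1 : ∀ w ∈ B, w ∈ W1 := fun w hw => (mem_filter.mp (hBA hw)).1
  have hBx : ∀ w ∈ B, x ∈ X.inn (s w) ∧ y ∈ X.inn (s w) := fun w hw => (mem_filter.mp (hBA hw)).2
  have hB'A' : ∀ w ∈ B', w ∈ A' := fun w hw => (mem_sdiff.mp hw).1
  have hB'W2 : ∀ w ∈ B', w ∈ W2 := fun w hw => (mem_filter.mp (hB'A' w hw)).1
  have hB'x : ∀ w ∈ B', x' ∈ X.inn (s' w) ∧ y' ∈ X.inn (s' w) :=
    fun w hw => (mem_filter.mp (hB'A' w hw)).2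
  have hBpos : 0 < (B.card : ℝ) := by linarith
  have hB'pos : 0 < (B'.card : ℝ) := by linarith
  -- the two pairs are different
  obtain ⟨w0, hw0⟩ : B'.Nonempty := by
    rw [← Finset.card_pos]; exact_mod_cast hB'pos
  have hne : ¬ (x ∈ ({x', y'} : Finset P) ∧ y ∈ ({x', y'} : Finset P)) := by
    rintro ⟨h1, h2⟩
    have h3 := (hs' w0 (hB'W2 w0 hw0)).2.2.1
    have h4 := hB'x w0 hw0
    apply h3
    simp only [mem_insert, mem_singleton] at h1 h2
    constructor
    · rcases h1 with h | h <;> rw [h]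
      exacts [h4.1, h4.2]
    · rcases h2 with h | h <;> rw [h]
      exacts [h4.1, h4.2]
  have hx'y' : x' ≠ y' := fun h => hxy' (by rw [h])
  have hxney : x ≠ y := fun h => hxy (by rw [h])
  -- non eligible pairs
  have hnon : (((B ×ˢ B').filter (fun p => ¬ X.elig p.1 (s p.1) p.2 (s' p.2))).card : ℝ)
      ≤ (B.card : ℝ) * (2 * c3) + (B'.card : ℝ) * (2 * c3) := by
    have hsub : (B ×ˢ B').filter (fun p => ¬ X.elig p.1 (s p.1) p.2 (s' p.2)) ⊆
        (((B ×ˢ B').filter (fun p => 3 ≤ (X.dom (s p.1) ∩ X.S p.2).card)) ∪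
         ((B ×ˢ B').filter (fun p => 3 ≤ (X.S p.2 ∩
            (X.dom (s p.1) ∪ {X.unit x', X.unit y'})).card))) ∪
        (((B ×ˢ B').filter (fun p => 3 ≤ (X.dom (s' p.2) ∩ X.S p.1).card)) ∪
         ((B ×ˢ B').filter (fun p => 3 ≤ (X.S p.1 ∩
            (({x, y, x', y'} : Finset P).image X.unit)).card))) := by
      intro p hp
      simp only [mem_filter, mem_product] at hp
      obtain ⟨⟨h1, h2⟩, h3⟩ := hp
      by_cases h5 : 3 ≤ (X.dom (s p.1) ∩ X.S p.2).card
      · simp only [mem_union, mem_filter, mem_product]; left; left; exact ⟨⟨h1, h2⟩, h5⟩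
      by_cases h6 : 3 ≤ (X.dom (s' p.2) ∩ X.S p.1).card
      · simp only [mem_union, mem_filter, mem_product]; right; left; exact ⟨⟨h1, h2⟩, h6⟩
      have hc : X.c1 p.1 (s p.1) p.2 (s' p.2) := ⟨by omega, by omega⟩
      have hF : 2 ≤ (X.inn (s p.1) ∩ X.inn (s' p.2)).card := by
        by_contra h7
        exact h3 ⟨hc, by omega⟩
      set F := X.inn (s p.1) ∩ X.inn (s' p.2) with hFdef
      have hadm1 := (hs p.1 (hBW1 _ h1)).1
      have hadm2 := (hs' p.2 (hB'W2 _ h2)).1
      have hx1 := hBx _ h1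
      have hx2 := hB'x _ h2
      by_cases hFe : F = {x', y'}
      · -- e' in IN(s_w)
        have hx'1 : x' ∈ X.inn (s p.1) := by
          have : x' ∈ F := by rw [hFe]; simp
          exact (mem_inter.mp this).1
        have hy'1 : y' ∈ X.inn (s p.1) := by
          have : y' ∈ F := by rw [hFe]; simp
          exact (mem_inter.mp this).1
        simp only [mem_union, mem_filter, mem_product]; right; right
        refine ⟨⟨h1, h2⟩, ?_⟩
        have hsub1 : ({x, y, x', y'} : Finset P) ⊆ X.inn (s p.1) := by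
          intro q hq
          simp only [mem_insert, mem_singleton] at hq
          rcases hq with rfl | rfl | rfl | rfl
          exacts [hx1.1, hx1.2, hx'1, hy'1]
        have hsub2 : (({x, y, x', y'} : Finset P).image X.unit) ⊆ X.S p.1 := by
          intro z hz
          rw [mem_image] at hz
          obtain ⟨q, hq, rfl⟩ := hz
          exact X.adm_dom _ _ hadm1 (X.inn_dom _ _ (hsub1 hq))
        rw [inter_eq_right.mpr hsub2, X.card_image_unit hsub1]
        -- card at least 3
        by_contra hlt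
        push Not at hlt
        have h8 : ({x', y'} : Finset P) = ({x, y, x', y'} : Finset P) := by
          apply Finset.eq_of_subset_of_card_le
          · intro q hq
            simp only [mem_insert, mem_singleton] at hq ⊢
            tauto
          · rw [Finset.card_pair hx'y']; omega
        apply hne
        constructor
        · rw [h8]; simp
        · rw [h8]; simp
      · simp only [mem_union, mem_filter, mem_product]; left; right
        refine ⟨⟨h1, h2⟩, ?_⟩
        have hsub1 : F ∪ {x', y'} ⊆ X.inn (s' p.2) := by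
          intro q hq
          rcases mem_union.mp hq with hq | hq
          · exact (mem_inter.mp hq).2
          · simp only [mem_insert, mem_singleton] at hq
            rcases hq with rfl | rfl
            exacts [hx2.1, hx2.2]
        have hcard3 : 3 ≤ (F ∪ {x', y'}).card := by
          by_contra hlt
          push Not at hlt
          have h8 : ({x', y'} : Finset P) = F ∪ {x', y'} := by
            apply Finset.eq_of_subset_of_card_le subset_union_right
            rw [Finset.card_pair hx'y']; omega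
          have h9 : F = F ∪ {x', y'} := by
            apply Finset.eq_of_subset_of_card_le subset_union_left
            omega
          exact hFe (h9.trans h8.symm)
        refine hcard3.trans ?_
        rw [← X.card_image_unit hsub1]
        apply Finset.card_le_card
        intro z hz
        rw [mem_image] at hz
        obtain ⟨q, hq, rfl⟩ := hz
        rw [mem_inter]
        refine ⟨X.adm_dom _ _ hadm2 (X.inn_dom _ _ (hsub1 hq)), ?_⟩
        rw [mem_union]
        rcases mem_union.mp hq with hq | hq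
        · left; exact X.inn_dom _ _ (mem_inter.mp hq).1
        · right
          simp only [mem_insert, mem_singleton] at hq ⊢
          rcases hq with rfl | rfl
          · left; rfl
          · right; rfl
    have h1 := Finset.card_le_card hsub
    have h2 := (h1.trans (Finset.card_union_le _ _)).trans
      (Nat.add_le_add (Finset.card_union_le _ _) (Finset.card_union_le _ _))
    have hlift : ∀ (C : Finset V) (Y : Finset U), Y.card ≤ 3 * Dmax →
        ((C.filter (fun v => 3 ≤ (X.S v ∩ Y).card)).card : ℝ) ≤ c3 := by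
      intro C Y hY
      refine le_trans ?_ (hS3 Y hY)
      exact_mod_cast Finset.card_le_card (Finset.filter_subset_filter _ (Finset.subset_univ _))
    have hlift' : ∀ (C : Finset V) (Y : Finset U), Y.card ≤ 3 * Dmax →
        ((C.filter (fun v => 3 ≤ (Y ∩ X.S v).card)).card : ℝ) ≤ c3 := by
      intro C Y hY
      have h := hlift C Y hY
      simp_rw [inter_comm _ Y] at h
      exact h
    have h3 : (((B ×ˢ B').filter (fun p => 3 ≤ (X.dom (s p.1) ∩ X.S p.2).card)).card : ℝ)
        ≤ B.card * c3 := card_pairs_le B B' (fun u v => 3 ≤ (X.dom (s u) ∩ X.S v).card) c3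
          (fun u hu => by
            have hd := (hs u (hBW1 u hu)).2.1
            exact hlift' B' (X.dom (s u)) (by omega))
    have h4 : (((B ×ˢ B').filter (fun p => 3 ≤ (X.S p.2 ∩
            (X.dom (s p.1) ∪ {X.unit x', X.unit y'})).card)).card : ℝ)
        ≤ B.card * c3 := card_pairs_le B B' (fun u v => 3 ≤ (X.S v ∩
            (X.dom (s u) ∪ {X.unit x', X.unit y'})).card) c3
          (fun u hu => by
            have hd := (hs u (hBW1 u hu)).2.1
            have h5 := Finset.card_union_le (X.dom (s u)) {X.unit x', X.unit y'}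
            have h6 := Finset.card_le_two (a := X.unit x') (b := X.unit y')
            exact hlift B' _ (by omega))
    have h5 : (((B ×ˢ B').filter (fun p => 3 ≤ (X.dom (s' p.2) ∩ X.S p.1).card)).card : ℝ)
        ≤ B'.card * c3 := card_pairs_le' B B' (fun u v => 3 ≤ (X.dom (s' v) ∩ X.S u).card) c3
          (fun v hv => by
            have hd := (hs' v (hB'W2 v hv)).2.1
            exact hlift' B (X.dom (s' v)) (by omega))
    have h6 : (((B ×ˢ B').filter (fun p => 3 ≤ (X.S p.1 ∩
            (({x, y, x', y'} : Finset P).image X.unit)).card)).card : ℝ)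
        ≤ B'.card * c3 := card_pairs_le' B B' (fun u _ => 3 ≤ (X.S u ∩
            (({x, y, x', y'} : Finset P).image X.unit)).card) c3
          (fun v hv => by
            have h7 : (({x, y, x', y'} : Finset P).image X.unit).card ≤ 4 :=
              Finset.card_image_le.trans Finset.card_le_four
            exact hlift B _ (by omega))
    have h7 : (((B ×ˢ B').filter (fun p => ¬ X.elig p.1 (s p.1) p.2 (s' p.2))).card : ℝ) ≤
        ((((B ×ˢ B').filter (fun p => 3 ≤ (X.dom (s p.1) ∩ X.S p.2).card)).card : ℝ) +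
         (((B ×ˢ B').filter (fun p => 3 ≤ (X.S p.2 ∩
            (X.dom (s p.1) ∪ {X.unit x', X.unit y'})).card)).card : ℝ)) +
        ((((B ×ˢ B').filter (fun p => 3 ≤ (X.dom (s' p.2) ∩ X.S p.1).card)).card : ℝ) +
         (((B ×ˢ B').filter (fun p => 3 ≤ (X.S p.1 ∩
            (({x, y, x', y'} : Finset P).image X.unit)).card)).card : ℝ)) := by
      exact_mod_cast h2
    linarith
  have htot : (((B ×ˢ B').filter (fun p => X.elig p.1 (s p.1) p.2 (s' p.2))).card : ℝ) +
      (((B ×ˢ B').filter (fun p => ¬ X.elig p.1 (s p.1) p.2 (s' p.2))).card : ℝ)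
      = (B.card : ℝ) * B'.card := by
    have := Finset.card_filter_add_card_filter_not (s := B ×ˢ B')
      (fun p => X.elig p.1 (s p.1) p.2 (s' p.2))
    rw [Finset.card_product] at this
    exact_mod_cast this
  have hhalf : (B.card : ℝ) * B'.card / 2 ≤
      (((B ×ˢ B').filter (fun p => X.elig p.1 (s p.1) p.2 (s' p.2))).card : ℝ) := by
    have h1 : 300 * c3 ≤ (B.card : ℝ) := by linarith
    have h2 : 300 * c3 ≤ (B'.card : ℝ) := by linarith
    have h3 : (B.card : ℝ) * (300 * c3) ≤ (B.card : ℝ) * B'.card :=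
      mul_le_mul_of_nonneg_left h2 hBpos.le
    have h4 : (B'.card : ℝ) * (300 * c3) ≤ (B'.card : ℝ) * B.card :=
      mul_le_mul_of_nonneg_left h1 hB'pos.le
    nlinarith
  have hT3 : 300 * t / θ ≤ T / 3 := by
    rw [hT, div_div, div_le_div_iff₀ hθ (by positivity)]
    nlinarith
  have hmany := hS4b B B' s s' (hT3.trans hB1) (hT3.trans hB'1) hdisj
    (fun u hu => ⟨(hs u (hBW1 u hu)).1, (hs u (hBW1 u hu)).2.1⟩)
    (fun u hu => ⟨(hs' u (hB'W2 u hu)).1, (hs' u (hB'W2 u hu)).2.1⟩) hhalf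
  have hfew : (((B ×ˢ B').filter (fun p => X.comp p.1 (s p.1) p.2 (s' p.2))).card : ℝ)
      ≤ (B.card : ℝ) * t + (B'.card : ℝ) * t := by
    have hsub : (B ×ˢ B').filter (fun p => X.comp p.1 (s p.1) p.2 (s' p.2)) ⊆
        ((B ×ˢ B').filter (fun p => p.2 ∈ X.K p.1 (s p.1) ∩ W)) ∪
        ((B ×ˢ B').filter (fun p => p.1 ∈ X.K p.2 (s' p.2) ∩ W)) := by
      intro p hp
      simp only [mem_filter, mem_product] at hp
      obtain ⟨⟨h1, h2⟩, h4⟩ := hp
      have h3 : p.1 ≠ p.2 := fun h => (Finset.disjoint_left.mp hdisj) h1 (h ▸ h2)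
      have h1W : p.1 ∈ W := hW1W (hBW1 _ h1)
      have h2W : p.2 ∈ W := hW2W (hB'W2 _ h2)
      simp only [mem_union, mem_filter, mem_product, mem_inter]
      rcases X.kill _ _ _ _ h3 (hs _ (hBW1 _ h1)).1 (hs' _ (hB'W2 _ h2)).1 h4 with h5 | h5
      · left; exact ⟨⟨h1, h2⟩, h5, h2W⟩
      · right; exact ⟨⟨h1, h2⟩, h5, h1W⟩
    have h1 := (Finset.card_le_card hsub).trans (Finset.card_union_le _ _)
    have h2 : (((B ×ˢ B').filter (fun p => p.2 ∈ X.K p.1 (s p.1) ∩ W)).card : ℝ) ≤ B.card * t :=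
      card_pairs_le B B' (fun u v => v ∈ X.K u (s u) ∩ W) t (fun u hu => by
        refine le_trans ?_ (hs u (hBW1 u hu)).2.2.le
        have : B'.filter (fun v => v ∈ X.K u (s u) ∩ W) ⊆ X.K u (s u) ∩ W := by
          intro v hv; exact (mem_filter.mp hv).2
        exact_mod_cast Finset.card_le_card this)
    have h3 : (((B ×ˢ B').filter (fun p => p.1 ∈ X.K p.2 (s' p.2) ∩ W)).card : ℝ) ≤ B'.card * t :=
      card_pairs_le' B B' (fun u v => u ∈ X.K v (s' v) ∩ W) t (fun v hv => by
        refine le_trans ?_ (hs' v (hB'W2 v hv)).2.2.2.le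
        have : B.filter (fun u => u ∈ X.K v (s' v) ∩ W) ⊆ X.K v (s' v) ∩ W := by
          intro u hu; exact (mem_filter.mp hu).2
        exact_mod_cast Finset.card_le_card this)
    have h4 : (((B ×ˢ B').filter (fun p => X.comp p.1 (s p.1) p.2 (s' p.2))).card : ℝ) ≤
        (((B ×ˢ B').filter (fun p => p.2 ∈ X.K p.1 (s p.1) ∩ W)).card : ℝ) +
        (((B ×ˢ B').filter (fun p => p.1 ∈ X.K p.2 (s' p.2) ∩ W)).card : ℝ) := by
      exact_mod_cast h1
    linarith
  -- contradiction
  have h1 : θ / 16 * ((B.card : ℝ) * B'.card) ≤ (B.card : ℝ) * t + (B'.card : ℝ) * t :=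
    hmany.trans hfew
  have h2 : t ≤ θ / 300 * (B'.card : ℝ) := by
    have : 300 * t ≤ (B'.card : ℝ) * θ := by
      rw [← div_le_iff₀ hθ]; exact hT3.trans hB'1
    linarith
  have h3 : t ≤ θ / 300 * (B.card : ℝ) := by
    have : 300 * t ≤ (B.card : ℝ) * θ := by
      rw [← div_le_iff₀ hθ]; exact hT3.trans hB1
    linarith
  have h4 : (B.card : ℝ) * t ≤ (B.card : ℝ) * (θ / 300 * B'.card) :=
    mul_le_mul_of_nonneg_left h2 hBpos.le
  have h5 : (B'.card : ℝ) * t ≤ (B'.card : ℝ) * (θ / 300 * B.card) :=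
    mul_le_mul_of_nonneg_left h3 hB'pos.le
  have h6 : 0 < θ * ((B.card : ℝ) * B'.card) := by positivity
  nlinarith

end Pool.LarPair
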