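import Pool.Agent.Larman.Kill
import Pool.Agent.Larman.Pair

/-!
# MP_a9ba8c (Larman, t = 1): the pair lemma for the model (Lemma 3) (helper1)
-/

set_option autoImplicit false

open scoped BigOperators Classical

noncomputable section

namespace Pool.Larman

/-- IN points of a pattern -/
def innF {g : ℕ} (s : Pat g) : Finset (Pp g) := Finset.univ.filter (fun p => InP s p)

theorem mem_innF {g : ℕ} (s : Pat g) (p : Pp g) : p ∈ innF s ↔ InP s p := by
  unfold innF; simp

/-- enough free tilted Q points outside four units -/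
theorem exists_y0 {g : ℕ} (hg : 2 ≤ g) (D : Dat g) (hL : D.Lab) {u v : Pl g} (huv : u ≠ v)
    (s s' : Pat g)
    (h1 : (s.dom ∩ D.S v).card ≤ 2) (h2 : (s'.dom ∩ D.S u).card ≤ 2) :
    ∃ y0 : Un g, y0.1 = 0 ∧ (y0, true) ∈ D.Q u v ∧ y0 ∉ s.dom ∧ y0 ∉ s'.dom := by
  by_contra hcon
  push Not at hcon
  have hsub : (D.Q u v).filter (fun p => p.1.1 = 0) ⊆
      ((s.dom ∩ D.S v) ∪ (s'.dom ∩ D.S u)) ×ˢ ({true} : Finset Bool) := by
    rintro ⟨y, i⟩ hp
    rw [Finset.mem_filter] at hp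
    have hr := isReal_of_mem_Q D hp.1
    have hZ := mem_Z_of_mem_Q D hp.1
    have hi : i = true := by
      rcases hr with h | h
      · simp only at h
        have := hp.2
        simp only at this
        rw [this] at h
        exact absurd h (by decide)
      · exact h
    subst hi
    rw [Finset.mem_product]
    refine ⟨?_, by simp⟩
    simp only [Finset.mem_union, Finset.mem_inter]
    have hZ' := Finset.mem_inter.mp hZ
    by_cases h3 : y ∈ s.dom
    · left; exact ⟨h3, hZ'.2⟩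
    · right; exact ⟨hcon y hp.2 hp.1 h3, hZ'.1⟩
  have h3 := Finset.card_le_card hsub
  rw [Finset.card_product, Finset.card_singleton, mul_one] at h3
  have h4 := Finset.card_union_le (s.dom ∩ D.S v) (s'.dom ∩ D.S u)
  have h5 : ((D.Q u v).filter (fun p => p.1.1 = 0)).card ≤ 4 := by omega
  have h6 := hL.l1m u v huv
  have h7 : (((D.Q u v).filter (fun p => p.1.1 = 0)).card : ℝ) ≤ 4 := by exact_mod_cast h5
  rw [abs_le] at h6
  have hg' : (2 : ℝ) ≤ g := by exact_mod_cast hg
  have h8 : (8 : ℝ) ≤ (g : ℝ) ^ 95 := by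
    calc (8 : ℝ) = 2 ^ 3 := by norm_num
      _ ≤ (g : ℝ) ^ 3 := pow_le_pow_left₀ (by norm_num) hg' 3
      _ ≤ (g : ℝ) ^ 95 := pow_le_pow_right₀ (by linarith) (by norm_num)
  have h9 : (g : ℝ) ^ 96 = (g : ℝ) ^ 95 * g := by ring
  nlinarith

/-- the abstract system of a class -/
def pairSys {g : ℕ} (hg : 2 ≤ g) (D : Dat g) (hL : D.Lab) (hTR : TRb D)
    (G : Finset (Finset (Pt g))) (hG : TwoInt G) :
    LarPair.PairSys (Pl g) (Un g) (Pp g) (Pat g) where
  S := D.S
  unit := Prod.fst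
  dom := Pat.dom
  inn := innF
  adm := D.PatOK
  K := D.K G
  comp := fun u s v s' => D.Compat u v s s' ∨ D.Compat v u s' s
  inn_dom := by
    intro s x hx
    rw [mem_innF] at hx
    exact hx.1
  inn_inj := by
    intro s x hx y hy h
    rw [mem_innF] at hx hy
    have h1 := hx.2.1
    have h2 := hy.2.1
    rw [h, h2] at h1
    exact Prod.ext h (Option.some.inj h1).symm
  adm_dom := fun u s h => h.1
  kill := by
    intro u s v s' huv hs hs' hc
    rcases hc with hc | hc
    · exact kill_lemma (by omega) D hTR huv G hG s s' hs.1 hs'.1 hc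
        (exists_y0 hg D hL huv s s' hc.1.1 hc.1.2.1)
    · exact (kill_lemma (by omega) D hTR huv.symm G hG s' s hs'.1 hs.1 hc
        (exists_y0 hg D hL huv.symm s' s hc.1.1 hc.1.2.1)).symm

theorem elig_iff {g : ℕ} (hg : 2 ≤ g) (D : Dat g) (hL : D.Lab) (hTR : TRb D)
    (G : Finset (Finset (Pt g))) (hG : TwoInt G) (u v : Pl g) (s s' : Pat g) :
    (pairSys hg D hL hTR G hG).elig u s v s' ↔ D.Elig u v s s' := by
  unfold LarPair.PairSys.elig LarPair.PairSys.c1 Dat.Elig
  show ((s.dom ∩ D.S v).card ≤ 2 ∧ (s'.dom ∩ D.S u).card ≤ 2) ∧ (innF s ∩ innF s').card ≤ 1 ↔ _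
  have : innF s ∩ innF s' = Finset.univ.filter (fun p : Pp g => InP s p ∧ InP s' p) := by
    unfold innF; rw [← Finset.filter_and]
  rw [this, and_assoc]

theorem Elig_symm {g : ℕ} (D : Dat g) (u v : Pl g) (s s' : Pat g) (h : D.Elig u v s s') :
    D.Elig v u s' s := by
  obtain ⟨h1, h2, h3⟩ := h
  refine ⟨h2, h1, ?_⟩
  have : (Finset.univ.filter (fun p : Pp g => InP s' p ∧ InP s p)) =
      Finset.univ.filter (fun p : Pp g => InP s p ∧ InP s' p) := by
    apply Finset.filter_congr; intro p _; exact and_comm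
  rw [this]; exact h3

/-- ordered pairs versus unordered pairs, symmetric relation -/
theorem card_offDiag_le_two_mul {α : Type} [LinearOrder α] (J : Finset α) (R : α → α → Prop)
    (hR : ∀ a b, R a b → R b a) :
    (J.offDiag.filter (fun p => R p.1 p.2)).card ≤
      2 * ((J ×ˢ J).filter (fun p => p.1 < p.2 ∧ R p.1 p.2)).card := by
  have hsub : J.offDiag.filter (fun p => R p.1 p.2) ⊆
      ((J ×ˢ J).filter (fun p => p.1 < p.2 ∧ R p.1 p.2)) ∪
      ((J ×ˢ J).filter (fun p => p.1 < p.2 ∧ R p.1 p.2)).image Prod.swap := by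
    intro p hp
    simp only [Finset.mem_filter, Finset.mem_offDiag] at hp
    obtain ⟨⟨h1, h2, h3⟩, h4⟩ := hp
    rw [Finset.mem_union]
    rcases lt_or_gt_of_ne h3 with h5 | h5
    · left; rw [Finset.mem_filter, Finset.mem_product]; exact ⟨⟨h1, h2⟩, h5, h4⟩
    · right
      rw [Finset.mem_image]
      exact ⟨(p.2, p.1), by rw [Finset.mem_filter, Finset.mem_product]; exact ⟨⟨h2, h1⟩, h5, hR _ _ h4⟩,
        rfl⟩
  have h1 := (Finset.card_le_card hsub).trans (Finset.card_union_le _ _)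
  have h2 : (((J ×ˢ J).filter (fun p => p.1 < p.2 ∧ R p.1 p.2)).image Prod.swap).card ≤
      ((J ×ˢ J).filter (fun p => p.1 < p.2 ∧ R p.1 p.2)).card := Finset.card_image_le
  omega

/-- ordered pairs of the symmetrised relation -/
theorem two_mul_card_le_offDiag {α : Type} [LinearOrder α] (J : Finset α) (R : α → α → Prop) :
    2 * ((J ×ˢ J).filter (fun p => p.1 < p.2 ∧ R p.1 p.2)).card ≤
      (J.offDiag.filter (fun p => R p.1 p.2 ∨ R p.2 p.1)).card := by
  set A := (J ×ˢ J).filter (fun p => p.1 < p.2 ∧ R p.1 p.2) with hA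
  have hinj : (A.image Prod.swap).card = A.card :=
    Finset.card_image_of_injective _ Prod.swap_injective
  have hd : Disjoint A (A.image Prod.swap) := by
    rw [Finset.disjoint_left]
    intro p hp hp'
    rw [Finset.mem_image] at hp'
    obtain ⟨r, hr, rfl⟩ := hp'
    rw [hA, Finset.mem_filter] at hp hr
    have h1 := hp.2.1
    have h2 := hr.2.1
    simp only [Prod.fst_swap, Prod.snd_swap] at h1
    exact absurd (h1.trans h2) (lt_irrefl _)
  have hsub : A ∪ A.image Prod.swap ⊆ J.offDiag.filter (fun p => R p.1 p.2 ∨ R p.2 p.1) := by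
    intro p hp
    rw [Finset.mem_filter, Finset.mem_offDiag]
    rcases Finset.mem_union.mp hp with hp | hp
    · rw [hA, Finset.mem_filter, Finset.mem_product] at hp
      exact ⟨⟨hp.1.1, hp.1.2, hp.2.1.ne⟩, Or.inl hp.2.2⟩
    · rw [Finset.mem_image] at hp
      obtain ⟨r, hr, rfl⟩ := hp
      rw [hA, Finset.mem_filter, Finset.mem_product] at hr
      exact ⟨⟨hr.1.2, hr.1.1, hr.2.1.ne'⟩, Or.inr hr.2.2⟩
  have h1 := Finset.card_le_card hsub
  rw [Finset.card_union_of_disjoint hd, hinj] at h1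
  omega

/-- **Lemma 3.** -/
theorem pair_model {g : ℕ} (hg : 1000 ≤ g) (D : Dat g) (hGeo : Geo D.S) (hL : D.Lab)
    (hTR : TRb D) (G : Finset (Finset (Pt g))) (hG : TwoInt G) (W : Finset (Pl g))
    (hW : (g : ℝ) ^ 9999 ≤ (W.card : ℝ)) :
    ∃ x y : Pp g, x.1 ≠ y.1 ∧
      (g : ℝ) * ((W.filter (fun u => ∃ s, D.PatOK u s ∧ ¬ (InP s x ∧ InP s y) ∧
        (g : ℝ) ^ 6 * ((D.K G u s ∩ W).card : ℝ) < (W.card : ℝ))).card : ℝ) ≤ (W.card : ℝ) := by
  have hg2 : 2 ≤ g := by omega
  have hg' : (1000 : ℝ) ≤ g := by exact_mod_cast hg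
  have hg1 : (1 : ℝ) ≤ g := by linarith
  have hgpos : (0 : ℝ) < g := by linarith
  set X := pairSys hg2 D hL hTR G hG with hX
  have hpow : ∀ {a b : ℕ}, a ≤ b → (g : ℝ) ^ a ≤ (g : ℝ) ^ b :=
    fun h => pow_le_pow_right₀ hg1 h
  set n : ℝ := (W.card : ℝ) with hn
  set θ : ℝ := ((g : ℝ) ^ 4)⁻¹ with hθ
  set t : ℝ := n / (g : ℝ) ^ 6 with ht
  have hθpos : 0 < θ := by positivity
  have htθ : t / θ = n / (g : ℝ) ^ 2 := by
    rw [ht, hθ]; field_simp
  have hbig : ∀ {a : ℕ}, a ≤ 9997 → (g : ℝ) ^ a ≤ n / (g : ℝ) ^ 2 := by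
    intro a ha
    rw [le_div_iff₀ (by positivity), ← pow_add]
    exact (hpow (by omega)).trans hW
  have hsize : ∀ (J : Finset (Pl g)), 300 * t / θ ≤ (J.card : ℝ) → (g : ℝ) ^ 200 ≤ (J.card : ℝ) := by
    intro J hJ
    rw [mul_div_assoc, htθ] at hJ
    have h1 := hbig (a := 200) (by norm_num)
    have h2 : 0 < n / (g : ℝ) ^ 2 := lt_of_lt_of_le (by positivity) h1
    linarith
  -- two tilted or other units with different positions
  have hs0 : 0 < sN g := by unfold sN; positivity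
  have hp0 : 0 < pN g := by unfold pN; positivity
  let x0 : Pp g := ((0, ⟨0, hs0⟩, ⟨0, hp0⟩), true)
  let y0 : Pp g := ((1, ⟨0, hs0⟩, ⟨0, hp0⟩), true)
  have hxy0 : X.unit x0 ≠ X.unit y0 := by
    show x0.1 ≠ y0.1
    intro h
    have := congrArg Prod.fst h
    simp [x0, y0] at this
  have hDm : ((g ^ 104 : ℕ) : ℝ) = (g : ℝ) ^ 104 := by push_cast; rfl
  have hpat : ∀ (u : Pl g) (s : Pat g), X.adm u s ∧ (X.dom s).card ≤ g ^ 104 ↔ D.PatOK u s := by
    intro u s
    constructor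
    · exact fun h => h.1
    · intro h
      refine ⟨h, ?_⟩
      have h1 := h.2.1
      rw [← hDm] at h1
      exact_mod_cast h1
  have ht1 : 1 ≤ t := by
    rw [ht, le_div_iff₀ (by positivity), one_mul]
    exact (hpow (by norm_num)).trans hW
  have hθ1 : θ ≤ 1 := by
    rw [hθ]; exact inv_le_one_of_one_le₀ (one_le_pow₀ hg1)
  obtain ⟨x, y, hxy, hmain⟩ := LarPair.pair_lemma X (g ^ 104) W x0 y0 hxy0
    (by calc 2 ≤ g := hg2
          _ = g ^ 1 := (pow_one g).symm
          _ ≤ g ^ 104 := Nat.pow_le_pow_right (by omega) (by norm_num))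
    (θ := θ) (t := t) (c3 := (g : ℝ) ^ 9500) hθpos hθ1 ht1
    (by rw [htθ]; exact hbig (by norm_num))
    (by
      intro Y hY
      have h1 : (Y.card : ℝ) ≤ 3 * (g : ℝ) ^ 104 := by
        rw [← hDm]; exact_mod_cast hY
      have h2 := hGeo.g3c Y h1
      unfold num at h2
      convert h2
      rfl)
    (by
      intro J s hJ hs hEl
      have hJ' := hsize J hJ
      have hs' : ∀ u ∈ J, D.PatOK u (s u) := fun u hu => (hs u hu).1
      have hel : (J.offDiag.filter (fun p => X.elig p.1 (s p.1) p.2 (s p.2))) =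
          J.offDiag.filter (fun p => D.Elig p.1 p.2 (s p.1) (s p.2)) := by
        apply Finset.filter_congr
        intro p _
        exact elig_iff hg2 D hL hTR G hG p.1 p.2 (s p.1) (s p.2)
      rw [hel] at hEl
      have h1 := card_offDiag_le_two_mul J (fun a b => D.Elig a b (s a) (s b))
        (fun a b h => Elig_symm D a b _ _ h)
      have h2 : (J.card : ℝ) ^ 2 / 100 ≤ (((J ×ˢ J).filter (fun p => p.1 < p.2 ∧
          D.Elig p.1 p.2 (s p.1) (s p.2))).card : ℝ) := by
        have h3 : ((J.offDiag.filter (fun p => D.Elig p.1 p.2 (s p.1) (s p.2))).card : ℝ) ≤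
            2 * (((J ×ˢ J).filter (fun p => p.1 < p.2 ∧
              D.Elig p.1 p.2 (s p.1) (s p.2))).card : ℝ) := by exact_mod_cast h1
        linarith
      have h4 := hL.l4a J s hJ' hs' h2
      have h5 := two_mul_card_le_offDiag J (fun a b => D.Compat a b (s a) (s b))
      have h6 : 2 * (((J ×ˢ J).filter (fun p => p.1 < p.2 ∧
          D.Compat p.1 p.2 (s p.1) (s p.2))).card : ℝ) ≤
          ((J.offDiag.filter (fun p => X.comp p.1 (s p.1) p.2 (s p.2))).card : ℝ) := by
        have : (J.offDiag.filter (fun p => X.comp p.1 (s p.1) p.2 (s p.2))) =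
            J.offDiag.filter (fun p => D.Compat p.1 p.2 (s p.1) (s p.2) ∨
              D.Compat p.2 p.1 (s p.2) (s p.1)) := by
          apply Finset.filter_congr
          intro p _
          exact Iff.rfl
        rw [this]
        exact_mod_cast h5
      refine le_trans ?_ h6
      rw [hθ]
      have h7 : ((g : ℝ) ^ 4)⁻¹ * (J.card : ℝ) ^ 2 / 400 =
          2 * (((g : ℝ) ^ 4)⁻¹ * ((J.card : ℝ) ^ 2 / 800)) := by ring
      rw [h7]
      apply mul_le_mul_of_nonneg_left _ (by norm_num)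
      rw [inv_mul_le_iff₀ (by positivity)]
      exact h4)
    (by
      intro J J' s s' hJ hJ' hd hs hs' hEl
      have hel : ((J ×ˢ J').filter (fun p => X.elig p.1 (s p.1) p.2 (s' p.2))) =
          (J ×ˢ J').filter (fun p => D.Elig p.1 p.2 (s p.1) (s' p.2)) := by
        apply Finset.filter_congr
        intro p _
        exact elig_iff hg2 D hL hTR G hG p.1 p.2 (s p.1) (s' p.2)
      rw [hel] at hEl
      have h4 := hL.l4b J J' s s' hd (hsize J hJ) (hsize J' hJ') (fun u hu => (hs u hu).1)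
        (fun u hu => (hs' u hu).1) hEl
      have h5 : (((J ×ˢ J').filter (fun p => D.Compat p.1 p.2 (s p.1) (s' p.2))).card : ℝ) ≤
          (((J ×ˢ J').filter (fun p => X.comp p.1 (s p.1) p.2 (s' p.2))).card : ℝ) := by
        have : (J ×ˢ J').filter (fun p => D.Compat p.1 p.2 (s p.1) (s' p.2)) ⊆
            (J ×ˢ J').filter (fun p => X.comp p.1 (s p.1) p.2 (s' p.2)) := by
          intro p hp
          rw [Finset.mem_filter] at hp ⊢
          exact ⟨hp.1, Or.inl hp.2⟩
        exact_mod_cast Finset.card_le_card this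
      refine le_trans ?_ h5
      rw [hθ]
      have h7 : ((g : ℝ) ^ 4)⁻¹ / 16 * ((J.card : ℝ) * J'.card) =
          ((g : ℝ) ^ 4)⁻¹ * ((J.card : ℝ) * J'.card / 16) := by ring
      rw [h7, inv_mul_le_iff₀ (by positivity)]
      exact h4)
  refine ⟨x, y, hxy, ?_⟩
  have hset : W.filter (fun u => ∃ s, D.PatOK u s ∧ ¬ (InP s x ∧ InP s y) ∧
        (g : ℝ) ^ 6 * ((D.K G u s ∩ W).card : ℝ) < n) ⊆
      W.filter (fun u => ∃ s, X.adm u s ∧ (X.dom s).card ≤ g ^ 104 ∧
        ¬ (x ∈ X.inn s ∧ y ∈ X.inn s) ∧ ((X.K u s ∩ W).card : ℝ) < t) := by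
    intro u hu
    rw [Finset.mem_filter] at hu ⊢
    obtain ⟨h1, s, h2, h3, h4⟩ := hu
    refine ⟨h1, s, h2, ((hpat u s).mpr h2).2, ?_, ?_⟩
    · rintro ⟨h5, h6⟩
      exact h3 ⟨(mem_innF s x).mp h5, (mem_innF s y).mp h6⟩
    · rw [ht, lt_div_iff₀ (by positivity), mul_comm]
      exact h4
  have h1 : ((W.filter (fun u => ∃ s, D.PatOK u s ∧ ¬ (InP s x ∧ InP s y) ∧
        (g : ℝ) ^ 6 * ((D.K G u s ∩ W).card : ℝ) < n)).card : ℝ) ≤ 1000 * t / θ :=
    le_trans (by exact_mod_cast Finset.card_le_card hset) hmain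
  rw [mul_div_assoc, htθ] at h1
  calc (g : ℝ) * _ ≤ g * (1000 * (n / (g : ℝ) ^ 2)) := mul_le_mul_of_nonneg_left h1 hgpos.le
    _ = 1000 / g * n := by field_simp
    _ ≤ 1 * n := by
        apply mul_le_mul_of_nonneg_right _ (by positivity)
        rw [div_le_one hgpos]; exact hg'
    _ = n := one_mul n

end Pool.Larman
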