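import Pool.Agent.Larman.Defs

/-!
# MP_a9ba8c (Larman, t = 1): properties of the random data, environment of a player, weights

Geo: properties of the supports. Lab: properties of the labels. Env: environment of the chosen player u.
BB: good slot vectors. WT: weights.
-/

set_option autoImplicit false

open scoped BigOperators Classical

noncomputable section

namespace Pool.Larman

/-- number of elements of a finite type with a property, as a real number -/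
def num {α : Type} [Fintype α] (P : α → Prop) : ℝ := ((Finset.univ.filter P).card : ℝ)

/-- units of kind b in a set -/
def kind {g : ℕ} (b : Fin 3) (Y : Finset (Un g)) : Finset (Un g) := Y.filter (fun y => y.1 = b)

/-- geometric properties of the supports -/
structure Geo {g : ℕ} (S : Pl g → Finset (Un g)) : Prop where
  g1 : ∀ u b, ((kind b (S u)).card : ℝ) = (g : ℝ) ^ 1050
  g1z : ∀ u v, u ≠ v → ∀ b, |((kind b (S u ∩ S v)).card : ℝ) - (g : ℝ) ^ 100| ≤ (g : ℝ) ^ 51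
  g2 : ∀ u v w, u ≠ v → u ≠ w → v ≠ w → (S u ∩ S v ∩ S w).card ≤ 50
  g3a : ∀ y, num (fun v => y ∈ S v) ≤ 3 * (g : ℝ) ^ 11050
  g3b : ∀ y y', y ≠ y' → num (fun v => y ∈ S v ∧ y' ∈ S v) ≤ 3 * (g : ℝ) ^ 10100
  g3c : ∀ Y : Finset (Un g), (Y.card : ℝ) ≤ 3 * (g : ℝ) ^ 104 →
    num (fun v => 3 ≤ (S v ∩ Y).card) ≤ (g : ℝ) ^ 9500
  g5 : ∀ a : Un g → ℝ, (∀ y, 0 ≤ a y ∧ a y ≤ 1) → num (fun y => a y ≠ 0) ≤ 3 * (g : ℝ) ^ 1050 →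
    num (fun w => 4 * (∑ y, a y) / (g : ℝ) ^ 950 + g < ∑ y ∈ S w, a y) ≤ (g : ℝ) ^ 4000
  g6 : ∀ G : Un g → Un g → ℝ, (∀ y y', 0 ≤ G y y' ∧ G y y' ≤ 1) → (∀ y, G y y = 0) →
    (∃ Y : Finset (Un g), (Y.card : ℝ) ≤ 3 * (g : ℝ) ^ 1050 ∧ ∀ y y', G y y' ≠ 0 → y ∈ Y ∧ y' ∈ Y) →
    (∀ y, ∑ y', G y y' ≤ 5 * (g : ℝ) ^ 100) → (∀ y', ∑ y, G y y' ≤ 5 * (g : ℝ) ^ 100) →
    num (fun w => (g : ℝ) ^ 30 < ∑ y ∈ S w, ∑ y' ∈ S w, G y y') ≤ (g : ℝ) ^ 4000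
  g7 : ∀ (Dn : Finset (Pl g)) (Y : Finset (Un g)), Dn.Nonempty → (Dn.card : ℝ) ≤ 2 * (g : ℝ) ^ 1033 →
    (Y.card : ℝ) ≤ (g : ℝ) ^ 5 * Dn.card → ∑ w ∈ Dn, ((S w ∩ Y).card : ℝ) ≤ (g : ℝ) ^ 100 * Dn.card / 2
  g8 : ∀ Gam : Finset (Un g × Un g), (∀ e ∈ Gam, e.1 ≠ e.2) → (Gam.card : ℝ) ≤ 8008 * (g : ℝ) ^ 2000 →
    num (fun u => (g : ℝ) ^ 101 < ((Gam.filter (fun e => e.1 ∈ S u ∧ e.2 ∈ S u)).card : ℝ)) ≤
      (g : ℝ) ^ 12000 / 200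

/-- |(1 + zeta^x)/2| -/
def cosq {g : ℕ} (x : ZMod (hM g)) : ℝ := ‖(1 + (ZMod.stdAddChar x : ℂ)) / 2‖

namespace Dat
variable {g : ℕ} (D : Dat g)

/-- coefficient of the bit of the block b in the congruence of the player w -/
def lc (u w : Pl g) (b : Un g) : ZMod (hM g) :=
  if b ∈ D.C u w then - D.r u w b
  else (if (b, true) ∈ D.Q u w then 1 else 0) - (if (b, false) ∈ D.Q u w then 1 else 0)

/-- admissible patterns of u -/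
def PatOK (u : Pl g) (s : Pat g) : Prop :=
  s.dom ⊆ D.S u ∧ (s.dom.card : ℝ) ≤ (g : ℝ) ^ 104 ∧ ∀ y, y ∉ s.dom → s.st y = none

/-- number of points of Q u w in units of X -/
def qX (u w : Pl g) (X : Finset (Un g)) : ℝ := (((D.Q u w).filter (fun p => p.1 ∈ X)).card : ℝ)

/-- X is a good cover for u -/
def Cov (u : Pl g) (Gam : Finset (Un g × Un g)) (X : Finset (Un g)) : Prop :=
  X ⊆ D.S u ∧ (X.card : ℝ) ≤ 3 * (g : ℝ) ^ 101 ∧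
  (∀ e ∈ Gam, e.1 ∈ D.S u → e.2 ∈ D.S u → e.1 ∈ X ∨ e.2 ∈ X) ∧
  ∀ w, w ≠ u → (g : ℝ) ^ 2 * D.qX u w X ≤ ((D.Q u w).card : ℝ)

/-- properties of the labels -/
structure Lab : Prop where
  l1c : ∀ u v, u ≠ v → (g : ℝ) ^ 8 / 2 ≤ ((D.C u v).card : ℝ) ∧ ((D.C u v).card : ℝ) ≤ 2 * (g : ℝ) ^ 8
  l1m : ∀ u v, u ≠ v →
    |(((D.Q u v).filter (fun p => p.1.1 = 0)).card : ℝ) - (g : ℝ) ^ 96| ≤ (g : ℝ) ^ 95
  l1q : ∀ u v, u ≠ v → |((D.Q u v).card : ℝ) - 4 * (g : ℝ) ^ 96| ≤ (g : ℝ) ^ 95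
  l3 : ∀ u b, num (fun w => w ≠ u ∧ b ∈ D.C u w) ≤ (g : ℝ) ^ 10959
  l4a : ∀ (J : Finset (Pl g)) (σ : Pl g → Pat g), (g : ℝ) ^ 200 ≤ (J.card : ℝ) →
    (∀ u ∈ J, D.PatOK u (σ u)) →
    (J.card : ℝ) ^ 2 / 100 ≤
      (((J ×ˢ J).filter (fun p => p.1 < p.2 ∧ D.Elig p.1 p.2 (σ p.1) (σ p.2))).card : ℝ) →
    (J.card : ℝ) ^ 2 / 800 ≤ (g : ℝ) ^ 4 *
      (((J ×ˢ J).filter (fun p => p.1 < p.2 ∧ D.Compat p.1 p.2 (σ p.1) (σ p.2))).card : ℝ)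
  l4b : ∀ (J J' : Finset (Pl g)) (σ σ' : Pl g → Pat g), Disjoint J J' → (g : ℝ) ^ 200 ≤ (J.card : ℝ) →
    (g : ℝ) ^ 200 ≤ (J'.card : ℝ) → (∀ u ∈ J, D.PatOK u (σ u)) → (∀ u ∈ J', D.PatOK u (σ' u)) →
    (J.card : ℝ) * J'.card / 2 ≤
      (((J ×ˢ J').filter (fun p => D.Elig p.1 p.2 (σ p.1) (σ' p.2))).card : ℝ) →
    (J.card : ℝ) * J'.card / 16 ≤ (g : ℝ) ^ 4 *
      (((J ×ˢ J').filter (fun p => D.Compat p.1 p.2 (σ p.1) (σ' p.2))).card : ℝ)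
  l7 : ∀ (u : Pl g) (Dn : Finset (Pl g)) (χ : Pl g → ZMod (hM g)) (E : Finset (Un g)), u ∉ Dn →
    Dn.Nonempty → (Dn.card : ℝ) ≤ 2 * (g : ℝ) ^ 1033 → (∀ w ∈ Dn, χ w ≠ 0) →
    (E.card : ℝ) ≤ 60 * (g : ℝ) ^ 3 * Dn.card →
    ∏ b ∈ (Dn.biUnion (fun w => D.C u w)) \ E, cosq (∑ w ∈ Dn, χ w * D.lc u w b) ≤
      (1 / 2 : ℝ) ^ (g ^ 4 * Dn.card)
  l8 : ∀ Gam : Finset (Un g × Un g), (∀ e ∈ Gam, e.1 ≠ e.2) → (Gam.card : ℝ) ≤ 8008 * (g : ℝ) ^ 2000 →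
    num (fun u => ¬ ∃ X, D.Cov u Gam X) ≤ (g : ℝ) ^ 12000 / 50

/-- the congruence part of tightness -/
def cong (u w : Pl g) (T : Tr g) : Prop :=
  ((cnt (D.Q u w) T : ℕ) : ZMod (hM g)) =
    (if u < w then ((D.lo0 u w : ℤ) : ZMod (hM g))
     else ((D.q u w + 1 - D.lo0 u w : ℤ) : ZMod (hM g)) - ∑ y ∈ D.C u w, D.r u w y) + D.hash u w T true

/-- the window part of tightness -/
def win (u w : Pl g) (T : Tr g) : Prop :=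
  D.lo u w ≤ (cnt (D.Q u w) T : ℤ) ∧ (cnt (D.Q u w) T : ℤ) ≤ D.hi u w

/-- h times the indicator of the congruence -/
def xi (u w : Pl g) (T : Tr g) : ℝ := if D.cong u w T then (hM g : ℝ) else 0

/-- free tilted units of u -/
def Mu (u : Pl g) (X : Finset (Un g)) : Finset (Un g) := kind 0 (D.S u) \ X

/-- free blocks of u -/
def Bu (u : Pl g) (X : Finset (Un g)) : Finset (Un g) := kind 1 (D.S u) \ X

/-- free neutral units of u -/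
def Nu (u : Pl g) (X : Finset (Un g)) : Finset (Un g) := kind 2 (D.S u) \ X

end Dat

/-- pattern which extends the pattern (empty on X) -/
def Over {g : ℕ} (X : Finset (Un g)) (s : Pat g) : Prop := X ⊆ s.dom ∧ ∀ y ∈ X, s.st y = none

/-- environment of a player: slots, their populations, hard slots, heavy zones, raise, pair weights -/
structure Env (g : ℕ) where
  M : ℕ
  W : Fin M → Finset (Pl g)
  hd : Fin M → Prop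
  H : Fin M → Finset (Un g)
  raise : Un g → ℝ
  G : Un g → Un g → ℝ

namespace Env
variable {g : ℕ} (E : Env g) (D : Dat g)

/-- probability that y lies in the support of the player of the slot k -/
def qq (k : Fin E.M) (y : Un g) : ℝ := (((E.W k).filter (fun w => y ∈ D.S w)).card : ℝ) / (E.W k).card

/-- the same for two units -/
def qq2 (k : Fin E.M) (y y' : Un g) : ℝ :=
  (((E.W k).filter (fun w => y ∈ D.S w ∧ y' ∈ D.S w)).card : ℝ) / (E.W k).card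

/-- total pair weight -/
def GG (A B : Finset (Un g)) : ℝ := ∑ y ∈ A, ∑ y' ∈ B, E.G y y'

/-- properties of the environment -/
structure OK (u : Pl g) (X : Finset (Un g)) : Prop where
  XS : X ⊆ D.S u
  Xcard : (X.card : ℝ) ≤ 3 * (g : ℝ) ^ 101
  Xq : ∀ w, w ≠ u → (g : ℝ) ^ 2 * D.qX u w X ≤ ((D.Q u w).card : ℝ)
  M_le : (E.M : ℝ) ≤ 2 * (g : ℝ) ^ 1033
  hd_card : num (fun k => E.hd k) ≤ (g : ℝ) ^ 986
  W_ne : ∀ k, ∀ w ∈ E.W k, w ≠ u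
  W_card : ∀ k, (g : ℝ) ^ 9900 ≤ ((E.W k).card : ℝ)
  W_C : ∀ k, ∀ w ∈ E.W k, Disjoint (D.C u w) X
  W_X : ∀ k, ∀ w ∈ E.W k, ((D.Z u w ∩ X).card : ℝ) ≤ g + 1
  r0 : ∀ y, 0 ≤ E.raise y ∧ E.raise y ≤ 8 / (g : ℝ) ^ 2
  r1 : num (fun y => E.raise y ≠ 0) ≤ (g : ℝ) ^ 152
  r2 : ∀ k, ∀ w ∈ E.W k, (((D.Z u w).filter (fun y => E.raise y ≠ 0)).card : ℝ) ≤ g + 1
  r3 : ∀ w, w ≠ u → ((D.Q u w).card : ℝ) ≤ 16 * (g : ℝ) ^ 43 * D.qX u w X →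
    ∀ y, y.1 = 0 → (y, true) ∈ D.Q u w → 8 * D.qX u w X / ((D.Q u w).card : ℝ) ≤ E.raise y
  H0 : ∀ k, ¬ E.hd k → E.H k = ∅
  H1 : ∀ k k', ∀ w ∈ E.W k, ((D.Z u w ∩ E.H k').card : ℝ) ≤ 5 * g
  q1 : ∀ k, ∀ y ∈ D.Mu u X, y ∉ E.H k → E.qq D k y ≤ 24 / (g : ℝ) ^ 950
  q2 : ∀ k, ¬ E.hd k → ∀ y ∈ D.Mu u X, ∀ y' ∈ D.Mu u X, y ≠ y' → E.qq2 D k y y' ≤ 12 / (g : ℝ) ^ 1900
  G0 : ∀ y y', 0 ≤ E.G y y'
  G1 : ∀ y ∈ D.Mu u X, ∀ y' ∈ D.Mu u X, y ≠ y' →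
    ∑ k, (if E.hd k ∧ y ∉ E.H k ∧ y' ∉ E.H k then E.qq2 D k y y' + 3 * E.qq D k y * E.qq D k y' else 0) ≤
      4 * E.G y y'
  G2 : ∀ k, ∀ w ∈ E.W k, E.GG (D.Z u w) (D.Z u w) ≤ (g : ℝ) ^ 67
  G3 : ∀ k l, ∀ w ∈ E.W k,
    (((E.W l).filter (fun w' => (g : ℝ) ^ 67 < E.GG (D.Z u w) (D.Z u w'))).card : ℝ) ≤ (g : ℝ) ^ 4000

/-- the class G has enough slots -/
def ClassOK (u : Pl g) (X : Finset (Un g)) (G : Finset (Finset (Pt g))) : Prop :=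
  ∃ (I : Finset (Fin E.M)) (a : ℝ), 0 < a ∧ a ≤ 1 ∧ 2 / 5 * (g : ℝ) ^ 3 ≤ a * I.card ∧
    ∀ k ∈ I, ∀ s, D.PatOK u s → Over X s →
      a * (E.W k).card ≤ ((D.K G u s ∩ E.W k).card : ℝ)

/-- weight of a slot vector -/
def slotWt (B : Fin E.M → Pl g) : ℝ := ∏ k, (if B k ∈ E.W k then 1 / ((E.W k).card : ℝ) else 0)

/-- centred incidence of the player w in the slot k at the unit y -/
def inc (k : Fin E.M) (w : Pl g) (y : Un g) : ℝ :=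
  if y ∈ E.H k then 0 else ind (y ∈ D.S w) - E.qq D k y

/-- centred number of slots before j whose player contains y -/
def Dp (B : Fin E.M → Pl g) (y : Un g) (j : ℕ) : ℝ :=
  ∑ k : Fin E.M, if k.val < j then E.inc D k (B k) y else 0

/-- bias of the coin of the tilted unit y -/
def beta (B : Fin E.M → Pl g) (y : Un g) : ℝ :=
  ((g : ℝ) ^ 43)⁻¹ + E.raise y - ((g : ℝ) ^ 43)⁻¹ * E.Dp D B y E.M

/-- good slot vectors -/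
structure BB (u : Pl g) (X : Finset (Un g)) (B : Fin E.M → Pl g) : Prop where
  mem : ∀ k, B k ∈ E.W k
  inj : Function.Injective B
  b1 : ∀ y ∈ D.Mu u X, ∀ j : ℕ, j ≤ E.M → |E.Dp D B y j| ≤ (g : ℝ) ^ 43 / 20
  b2 : ∀ w, w ≠ u →
    |∑ k, if B k = w then 0 else ∑ y ∈ (D.Mu u X).filter (fun y => (y, true) ∈ D.Q u w), E.inc D k (B k) y| ≤
      (g : ℝ) ^ 95 / 64
  b3 : |∑ k, ∑ y ∈ D.Mu u X, E.inc D k (B k) y| ≤ (g : ℝ) ^ 569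
  b4 : ∀ k l, E.GG (D.Z u (B k)) (D.Z u (B l)) ≤ (g : ℝ) ^ 67

end Env

/-- weight of a choice of twins: coins with biases β on Ms, fair coins elsewhere -/
def cw {g : ℕ} (Ms : Finset (Un g)) (β : Un g → ℝ) (t : Un g → Bool) : ℝ :=
  ∏ y, (1 / 2 + if y ∈ Ms then (if t y = true then β y else - β y) else 0)

namespace Dat
variable {g : ℕ} (D : Dat g)

/-- the random trace of u: the twins t on the free units, empty elsewhere -/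
def trA (u : Pl g) (X : Finset (Un g)) (t : Un g → Bool) : Tr g := fun y =>
  if y ∈ D.S u \ X then some (t y) else none

/-- weight of an event -/
def WT (E : Env g) (u : Pl g) (X : Finset (Un g)) (Ev : (Fin E.M → Pl g) → (Un g → Bool) → Prop) : ℝ :=
  ∑ B : Fin E.M → Pl g, E.slotWt B * ind (E.BB D u X B) *
    ∑ t, cw (D.Mu u X) (E.beta D B) t * ind (Ev B t) * ind ((real (D.trA u X t)).card = kk g) *
      ∏ k, D.xi u (B k) (D.trA u X t)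

end Dat

end Pool.Larman
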