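import Pool.Agent.Larman.Props
import Pool.Agent.LarH.ProbCol

/-!
# Random supports: law, and the geometric properties as separate propositions

Architect: helper90.  `wS g` is the law of one support (a uniform choice function), `wG g` the law
of the supports of all players (independent).
-/

set_option autoImplicit false

open scoped BigOperators Classical

noncomputable section

namespace Pool.Larman

open Pool.LarProb (IsP Ex Pr PW unif)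

/-- places -/
abbrev Pc (g : ℕ) := Fin 3 × Fin (sN g)

/-- law of one support -/
def wS (g : ℕ) : (Pc g → Fin (pN g)) → ℝ :=
  PW (I := Pc g) (A := fun _ => Fin (pN g)) (fun _ => unif (Fin (pN g)))

/-- law of all supports -/
def wG (g : ℕ) : (Pl g → Pc g → Fin (pN g)) → ℝ :=
  PW (I := Pl g) (A := fun _ => Pc g → Fin (pN g)) (fun _ => wS g)

theorem pN_pos {g : ℕ} (hg : 0 < g) : 0 < pN g := by unfold pN; exact pow_pos hg _
theorem sN_pos {g : ℕ} (hg : 0 < g) : 0 < sN g := by unfold sN; exact pow_pos hg _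
theorem mP_pos {g : ℕ} (hg : 0 < g) : 0 < mP g := by unfold mP; exact pow_pos hg _

theorem unifP_isP {g : ℕ} (hg : 0 < g) : IsP (unif (Fin (pN g))) := by
  have : Nonempty (Fin (pN g)) := ⟨⟨0, pN_pos hg⟩⟩
  exact LarProb.unif_isP

theorem wS_isP {g : ℕ} (hg : 0 < g) : IsP (wS g) :=
  LarProb.PW_isP (fun _ => unifP_isP hg)

theorem wG_isP {g : ℕ} (hg : 0 < g) : IsP (wG g) :=
  LarProb.PW_isP (fun _ => wS_isP hg)

/-- the supports of all players -/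
abbrev SS {g : ℕ} (σ : Pl g → Pc g → Fin (pN g)) : Pl g → Finset (Un g) := fun u => supp (σ u)

section Props1
variable {g : ℕ} (S : Pl g → Finset (Un g))

def PG1 : Prop := ∀ u b, ((kind b (S u)).card : ℝ) = (g : ℝ) ^ 1050

def PG1z : Prop := ∀ u v, u ≠ v → ∀ b,
  |((kind b (S u ∩ S v)).card : ℝ) - (g : ℝ) ^ 100| ≤ (g : ℝ) ^ 51

def PG2 : Prop := ∀ u v w, u ≠ v → u ≠ w → v ≠ w → (S u ∩ S v ∩ S w).card ≤ 50

def PG3a : Prop := ∀ y, num (fun v => y ∈ S v) ≤ 3 * (g : ℝ) ^ 11050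

def PG3b : Prop := ∀ y y', y ≠ y' → num (fun v => y ∈ S v ∧ y' ∈ S v) ≤ 3 * (g : ℝ) ^ 10100

def PG3c : Prop := ∀ Y : Finset (Un g), (Y.card : ℝ) ≤ 3 * (g : ℝ) ^ 104 →
  num (fun v => 3 ≤ (S v ∩ Y).card) ≤ (g : ℝ) ^ 9500

def PG5 : Prop := ∀ a : Un g → ℝ, (∀ y, 0 ≤ a y ∧ a y ≤ 1) →
  num (fun y => a y ≠ 0) ≤ 3 * (g : ℝ) ^ 1050 →
  num (fun w => 4 * (∑ y, a y) / (g : ℝ) ^ 950 + g < ∑ y ∈ S w, a y) ≤ (g : ℝ) ^ 4000

def PG6 : Prop := ∀ G : Un g → Un g → ℝ, (∀ y y', 0 ≤ G y y' ∧ G y y' ≤ 1) → (∀ y, G y y = 0) →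
  (∃ Y : Finset (Un g), (Y.card : ℝ) ≤ 3 * (g : ℝ) ^ 1050 ∧ ∀ y y', G y y' ≠ 0 → y ∈ Y ∧ y' ∈ Y) →
  (∀ y, ∑ y', G y y' ≤ 5 * (g : ℝ) ^ 100) → (∀ y', ∑ y, G y y' ≤ 5 * (g : ℝ) ^ 100) →
  num (fun w => (g : ℝ) ^ 30 < ∑ y ∈ S w, ∑ y' ∈ S w, G y y') ≤ (g : ℝ) ^ 4000

def PG7 : Prop := ∀ (Dn : Finset (Pl g)) (Y : Finset (Un g)), Dn.Nonempty →
  (Dn.card : ℝ) ≤ 2 * (g : ℝ) ^ 1033 → (Y.card : ℝ) ≤ (g : ℝ) ^ 5 * Dn.card →
  ∑ w ∈ Dn, ((S w ∩ Y).card : ℝ) ≤ (g : ℝ) ^ 100 * Dn.card / 2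

def PG8 : Prop := ∀ Gam : Finset (Un g × Un g), (∀ e ∈ Gam, e.1 ≠ e.2) →
  (Gam.card : ℝ) ≤ 8008 * (g : ℝ) ^ 2000 →
  num (fun u => (g : ℝ) ^ 101 < ((Gam.filter (fun e => e.1 ∈ S u ∧ e.2 ∈ S u)).card : ℝ)) ≤
    (g : ℝ) ^ 12000 / 200

end Props1

/-- all geometric properties -/
theorem Geo_of {g : ℕ} {S : Pl g → Finset (Un g)} (h1 : PG1 S) (h1z : PG1z S) (h2 : PG2 S)
    (h3a : PG3a S) (h3b : PG3b S) (h3c : PG3c S) (h5 : PG5 S) (h6 : PG6 S) (h7 : PG7 S)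
    (h8 : PG8 S) : Geo S :=
  ⟨h1, h1z, h2, h3a, h3b, h3c, h5, h6, h7, h8⟩

theorem num_eq_cnt {α : Type} [Fintype α] (P : α → Prop) :
    num P = LarProb.cnt Finset.univ P := by
  unfold num
  rw [LarProb.cnt_eq_card]

theorem mem_supp {g : ℕ} {f : Pc g → Fin (pN g)} {y : Un g} :
    y ∈ supp f ↔ f (y.1, y.2.1) = y.2.2 := by
  unfold supp
  simp

/-- sums over a support are sums over the places -/
theorem sum_supp {g : ℕ} (f : Pc g → Fin (pN g)) (a : Un g → ℝ) :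
    ∑ y ∈ supp f, a y = ∑ c : Pc g, a (c.1, c.2, f c) := by
  symm
  refine Finset.sum_bij (fun c _ => ((c.1, c.2, f c) : Un g)) ?_ ?_ ?_ ?_
  · intro c _
    rw [mem_supp]
  · intro c _ c' _ h
    simp only [Prod.mk.injEq] at h
    exact Prod.ext h.1 h.2.1
  · intro y hy
    rw [mem_supp] at hy
    exact ⟨(y.1, y.2.1), Finset.mem_univ _, by simp [hy]⟩
  · intro c _
    rfl

end Pool.Larman
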