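import Pool.Agent.Larman.R1Mem
import Pool.Agent.LarH.Num

/-!
# Sizes of supports and of common supports

Package LAR R1G1.

* `pg1`: the units of kind `b` of a support correspond to the places `(b, i)`, `i : Fin (sN g)`
  (for instance `Finset.card_bij` or the image of an injective function), `sN_cast`.
* `t1z`: fix `u ≠ v` and `b` (union bound over `Pl g × Pl g × Fin 3`, at most `3 g^24000` triples,
  `LarProb.Pr_exists_le_card_mul`).  Freeze the coordinate `u`
  (`LarProb.Pr_le_of_freeze` with `s = {u}`, or `LarProb.Pr_star_le` with `W = {v}`): it suffices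
  that for every choice function `x` (the support of `u`)
  `Pr (wS g) (fun f => g^51 < |#{i : f (b,i) = x (b,i)} - g^100|) ≤ 2 exp (-(g^2 / 4))`.
  This is `LarProb.tail_abs` for `wS g` (coordinates = places), `s` = the places `(b, i)`,
  `Y (b,i) a = ind (a = x (b,i)) - 1/pN`, `b = 1`, `V = g^100` (`E Y^2 ≤ 1/pN`, `sN / pN = g^100`),
  `t = g^51`: `t^2 / (4 V) = g^2 / 4`, and `b t ≤ 2 V`.  Note
  `kind b (supp f ∩ supp x)` corresponds to `{i : f (b,i) = x (b,i)}`.
  The total is `≤ 6 g^24000 exp (-(g^2/4)) ≤ 1/20` for large `g` (`LarProb.ev_exp_small`,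
  `g ≤ g^2`).
-/

set_option autoImplicit false

open scoped BigOperators Classical

noncomputable section

namespace Pool.Larman

open Pool.LarProb (IsP Ex Pr PW unif)

private theorem kind_inter_R1G1 {g : ℕ} (b : Fin 3) (f x : Pc g → Fin (pN g)) :
    (kind b (supp f ∩ supp x)).card =
      (Finset.univ.filter (fun i : Fin (sN g) => f (b, i) = x (b, i))).card := by
  symm
  refine Finset.card_bij (fun i _ => ((b, i, f (b, i)) : Un g)) ?_ ?_ ?_
  · intro i hi
    rw [Finset.mem_filter] at hi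
    rw [kind, Finset.mem_filter, Finset.mem_inter, mem_supp, mem_supp]
    exact ⟨⟨rfl, hi.2.symm⟩, rfl⟩
  · intro i _ j _ h
    simp only [Prod.mk.injEq] at h
    exact h.2.1
  · intro y hy
    rw [kind, Finset.mem_filter, Finset.mem_inter, mem_supp, mem_supp] at hy
    obtain ⟨⟨h1, h2⟩, h3⟩ := hy
    subst h3
    refine ⟨y.2.1, ?_, ?_⟩
    · rw [Finset.mem_filter]
      exact ⟨Finset.mem_univ _, h1.trans h2.symm⟩
    · exact Prod.ext rfl (Prod.ext rfl h1)

theorem pg1 {g : ℕ} (σ : Pl g → Pc g → Fin (pN g)) : PG1 (SS σ) := by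
  intro u b
  have h := kind_inter_R1G1 b (σ u) (σ u)
  rw [Finset.inter_self] at h
  show ((kind b (supp (σ u))).card : ℝ) = _
  rw [h, Finset.filter_true_of_mem (fun _ _ => rfl), Finset.card_univ, Fintype.card_fin, sN_cast]

private theorem Ex_ind_R1G1 {g : ℕ} (x : Fin (pN g)) :
    Ex (unif (Fin (pN g))) (fun a => LarProb.ind (a = x)) = 1 / (pN g : ℝ) := by
  unfold Ex
  rw [Finset.sum_eq_single x]
  · show unif (Fin (pN g)) x * LarProb.ind (x = x) = _
    rw [LarProb.ind_true rfl, mul_one]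
    unfold unif
    rw [Fintype.card_fin]
  · intro a _ ha
    show unif (Fin (pN g)) a * LarProb.ind (a = x) = _
    rw [LarProb.ind_false ha, mul_zero]
  · intro h
    exact absurd (Finset.mem_univ _) h

private theorem one_R1G1 {g : ℕ} (hg : 0 < g) (b : Fin 3) (x : Pc g → Fin (pN g)) :
    Pr (wS g) (fun f => (g : ℝ) ^ 51 <
      |((kind b (supp x ∩ supp f)).card : ℝ) - (g : ℝ) ^ 100|) ≤
      2 * Real.exp (-((g : ℝ) ^ 2 / 4)) := by
  have hg1 : (1 : ℝ) ≤ g := by exact_mod_cast hg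
  have hg0 : (0 : ℝ) < g := by linarith
  have hp : (0 : ℝ) < pN g := by exact_mod_cast pN_pos hg
  have hp1 : (1 : ℝ) ≤ pN g := by exact_mod_cast pN_pos hg
  have hinv : 1 / (pN g : ℝ) ≤ 1 := by rw [div_le_one hp]; exact hp1
  have hinv0 : 0 < 1 / (pN g : ℝ) := by positivity
  have hU := unifP_isP hg
  have hsp : (sN g : ℝ) * (1 / (pN g : ℝ)) = (g : ℝ) ^ 100 := by
    rw [mul_one_div, div_eq_iff hp.ne', sN_cast, pN_cast, ← pow_add]
  set s : Finset (Pc g) := (Finset.univ : Finset (Fin (sN g))).image (fun i => (b, i)) with hs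
  have hsum : ∀ F : Pc g → ℝ, ∑ c ∈ s, F c = ∑ i : Fin (sN g), F (b, i) := by
    intro F
    rw [hs, Finset.sum_image]
    intro i _ j _ h
    exact (Prod.mk.inj h).2
  set Y : Pc g → Fin (pN g) → ℝ := fun c a => LarProb.ind (a = x c) - 1 / (pN g : ℝ) with hY
  have h := LarProb.tail_abs (I := Pc g) (A := fun _ => Fin (pN g))
    (w := fun _ => unif (Fin (pN g))) (fun _ => hU) s Y (b := 1) (V := (g : ℝ) ^ 100)
    (t := (g : ℝ) ^ 51) ?_ ?_ ?_ (by positivity) (by positivity) ?_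
  · have h1 : ((g : ℝ) ^ 51) ^ 2 / (4 * (g : ℝ) ^ 100) = (g : ℝ) ^ 2 / 4 := by
      have h2 : ((g : ℝ) ^ 51) ^ 2 = (g : ℝ) ^ 2 * (g : ℝ) ^ 100 := by
        rw [← pow_mul, ← pow_add]
      rw [h2]
      field_simp
    rw [h1] at h
    refine (LarProb.Pr_mono (wS_isP hg) (fun f hf => ?_)).trans h
    have h3 : ∑ c ∈ s, Y c (f c) = ((kind b (supp x ∩ supp f)).card : ℝ) - (g : ℝ) ^ 100 := by
      rw [hsum]
      simp only [hY]
      rw [Finset.sum_sub_distrib, Finset.sum_const, Finset.card_univ, Fintype.card_fin,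
        nsmul_eq_mul, hsp, Finset.inter_comm, kind_inter_R1G1, Finset.card_filter]
      congr 1
      push_cast
      refine Finset.sum_congr rfl (fun i _ => ?_)
      by_cases h4 : f (b, i) = x (b, i)
      · rw [LarProb.ind_true h4, if_pos h4]
      · rw [LarProb.ind_false h4, if_neg h4]
    rw [h3]
    exact hf.le
  · intro c _ a
    rw [abs_le]
    have h1 := LarProb.ind_nonneg (a = x c)
    have h2 := LarProb.ind_le_one (a = x c)
    simp only [hY]
    constructor <;> linarith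
  · intro c _
    simp only [hY]
    rw [LarProb.Ex_sub, Ex_ind_R1G1, LarProb.Ex_const hU, sub_self]
  · rw [hsum]
    have h1 : ∀ i : Fin (sN g), Ex (unif (Fin (pN g))) (fun a => Y (b, i) a ^ 2) ≤
        1 / (pN g : ℝ) := by
      intro i
      have h2 : ∀ a, Y (b, i) a ^ 2 =
          (1 - 2 * (1 / (pN g : ℝ))) * LarProb.ind (a = x (b, i)) + (1 / (pN g : ℝ)) ^ 2 := by
        intro a
        have h3 := LarProb.ind_mul_self (a = x (b, i))
        simp only [hY]
        linear_combination h3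
      rw [LarProb.Ex_congr h2, LarProb.Ex_add, LarProb.Ex_mul_left, Ex_ind_R1G1,
        LarProb.Ex_const hU]
      nlinarith [sq_nonneg (1 / (pN g : ℝ))]
    calc ∑ i : Fin (sN g), Ex (unif (Fin (pN g))) (fun a => Y (b, i) a ^ 2)
        ≤ ∑ i : Fin (sN g), 1 / (pN g : ℝ) := Finset.sum_le_sum (fun i _ => h1 i)
      _ = (g : ℝ) ^ 100 := by
          rw [Finset.sum_const, Finset.card_univ, Fintype.card_fin, nsmul_eq_mul, hsp]
  · have h1 : (g : ℝ) ^ 51 ≤ (g : ℝ) ^ 100 := pow_le_pow_right₀ hg1 (by norm_num)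
    have h2 : 0 < (g : ℝ) ^ 100 := by positivity
    linarith

theorem t1z : ∀ᶠ g : ℕ in Filter.atTop, Pr (wG g) (fun σ => ¬ PG1z (SS σ)) ≤ 1 / 20 := by
  filter_upwards [LarProb.ev_exp_small 24000 (c := 1 / 4) (C := 6) (e := 1 / 20) (by norm_num)
    (by norm_num), Filter.eventually_ge_atTop 1] with g hgs hg
  have hg1 : (1 : ℝ) ≤ g := by exact_mod_cast hg
  have hg0 : 0 < g := hg
  set q : ℝ := 2 * Real.exp (-((g : ℝ) ^ 2 / 4)) with hq
  have hq0 : 0 ≤ q := by positivity
  -- the union bound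
  have hone : ∀ j : Pl g × Pl g × Fin 3, Pr (wG g) (fun σ => j.1 ≠ j.2.1 ∧ (g : ℝ) ^ 51 <
      |((kind j.2.2 (supp (σ j.1) ∩ supp (σ j.2.1))).card : ℝ) - (g : ℝ) ^ 100|) ≤ q := by
    rintro ⟨u, v, b⟩
    by_cases huv : u = v
    · rw [LarProb.Pr_false (fun σ h => h.1 huv)]
      exact hq0
    · have h := LarProb.Pr_star_le (I := Pl g) (A := fun _ => Pc g → Fin (pN g))
        (w := fun _ => wS g) (fun _ => wS_isP hg0) u {v}
        (fun h => huv (Finset.mem_singleton.1 h))
        (fun _ x y => (g : ℝ) ^ 51 < |((kind b (supp x ∩ supp y)).card : ℝ) - (g : ℝ) ^ 100|)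
        (q := q) (fun _ _ x => one_R1G1 hg0 b x)
      rw [Finset.card_singleton, pow_one] at h
      refine (LarProb.Pr_mono (wG_isP hg0) (fun σ hσ => ?_)).trans h
      intro w hw
      rw [Finset.mem_singleton] at hw
      subst hw
      exact hσ.2
  have hun := LarProb.Pr_exists_le_card_mul (wG_isP hg0)
    (Finset.univ : Finset (Pl g × Pl g × Fin 3))
    (fun j σ => j.1 ≠ j.2.1 ∧ (g : ℝ) ^ 51 <
      |((kind j.2.2 (supp (σ j.1) ∩ supp (σ j.2.1))).card : ℝ) - (g : ℝ) ^ 100|)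
    (q := q) (fun j _ => hone j)
  refine (LarProb.Pr_mono (wG_isP hg0) (fun σ hσ => ?_)).trans (hun.trans ?_)
  · unfold PG1z at hσ
    push Not at hσ
    obtain ⟨u, v, huv, b, hb⟩ := hσ
    exact ⟨(u, v, b), Finset.mem_univ _, huv, hb⟩
  · rw [Finset.card_univ, Fintype.card_prod, Fintype.card_prod, Fintype.card_fin, Fintype.card_fin]
    push_cast
    rw [mP_cast]
    have h1 : Real.exp (-((g : ℝ) ^ 2 / 4)) ≤ Real.exp (-(1 / 4 * (g : ℝ))) := by
      apply Real.exp_le_exp.2
      nlinarith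
    have h2 : (g : ℝ) ^ 12000 * ((g : ℝ) ^ 12000 * 3) * q =
        6 * (g : ℝ) ^ 24000 * Real.exp (-((g : ℝ) ^ 2 / 4)) := by
      rw [hq, show (24000 : ℕ) = 12000 + 12000 by norm_num, pow_add]
      ring
    rw [h2]
    have h3 : 0 ≤ 6 * (g : ℝ) ^ 24000 := by positivity
    exact (mul_le_mul_of_nonneg_left h1 h3).trans hgs

end Pool.Larman
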