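import Pool.Agent.Larman.R1Mem
import Pool.Agent.LarH.Num

/-!
# Three supports have at most 50 common units

Package LAR R1G2.  Union bound over `(u, v, w)` (at most `g^36000` triples) and over the sets `T` of
51 places (`(Finset.univ : Finset (Pc g)).powersetCard 51`, at most `(3 sN)^51 = (3 g^1050)^51`).
If `51 ≤ |S u ∩ S v ∩ S w|` then there is such a `T` with `σ v c = σ u c` and `σ w c = σ u c` for
all
`c ∈ T` (a support has exactly one unit at every place, so the common units are given by the places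
where the three choice functions agree; `Finset.exists_subset_card_eq`).
For fixed distinct `u, v, w` and `T`: `LarProb.Pr_star_le` with `W = {v, w}`,
`R _ x f = ∀ c ∈ T, f c = x c`, `q = (1 / g^950)^51` (`LarProb.Pr_forall_le` for `wS g`), so the
probability is `≤ q^2 = g^(-96900)`.
Total: `g^36000 * 3^51 * g^53550 * g^(-96900) = 3^51 g^(-7350) ≤ 1/20` for large `g`.
-/

set_option autoImplicit false

open scoped BigOperators Classical

noncomputable section

namespace Pool.Larman

open Pool.LarProb (IsP Ex Pr PW unif)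

private theorem card_inter_R1G2 {g : ℕ} (x y z : Pc g → Fin (pN g)) :
    (supp x ∩ supp y ∩ supp z).card ≤
      (Finset.univ.filter (fun c : Pc g => y c = x c ∧ z c = x c)).card := by
  refine Finset.card_le_card_of_injOn (fun t : Un g => ((t.1, t.2.1) : Pc g)) ?_ ?_
  · intro t ht
    have ht' : t ∈ supp x ∩ supp y ∩ supp z := ht
    rw [Finset.mem_inter, Finset.mem_inter, mem_supp, mem_supp, mem_supp] at ht'
    obtain ⟨⟨h1, h2⟩, h3⟩ := ht'
    show ((t.1, t.2.1) : Pc g) ∈
      (Finset.univ.filter (fun c : Pc g => y c = x c ∧ z c = x c) : Finset (Pc g))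
    rw [Finset.mem_filter]
    exact ⟨Finset.mem_univ _, h2.trans h1.symm, h3.trans h1.symm⟩
  · intro t ht t' ht' h
    have ht1 : t ∈ supp x ∩ supp y ∩ supp z := ht
    have ht2 : t' ∈ supp x ∩ supp y ∩ supp z := ht'
    rw [Finset.mem_inter, Finset.mem_inter, mem_supp, mem_supp, mem_supp] at ht1 ht2
    have h1 := ht1.1.1
    have h2 := ht2.1.1
    have h3 : ((t.1, t.2.1) : Pc g) = (t'.1, t'.2.1) := h
    rw [Prod.mk.injEq] at h3
    refine Prod.ext h3.1 (Prod.ext h3.2 ?_)
    rw [← h1, ← h2, h3.1, h3.2]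

private theorem Ex_ind_R1G2 {g : ℕ} (x : Fin (pN g)) :
    Pr (unif (Fin (pN g))) (fun a => a = x) = 1 / (pN g : ℝ) := by
  unfold Pr Ex
  rw [Finset.sum_eq_single x]
  · show unif (Fin (pN g)) x * LarProb.ind (x = x) = _
    rw [LarProb.ind_true rfl, mul_one]
    unfold unif
    rw [Fintype.card_fin]
  · intro a _ ha
    show unif (Fin (pN g)) a * LarProb.ind (a = x) = _
    rw [LarProb.ind_false ha, mul_zero]
  · intro h
    exact absurd (Finset.mem_univ _) h

private theorem one_R1G2 {g : ℕ} (hg : 0 < g) (T : Finset (Pc g)) (x : Pc g → Fin (pN g)) :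
    Pr (wS g) (fun f => ∀ c ∈ T, f c = x c) ≤ (1 / (g : ℝ) ^ 950) ^ T.card := by
  refine LarProb.Pr_forall_le (I := Pc g) (A := fun _ => Fin (pN g))
    (w := fun _ => unif (Fin (pN g))) (fun _ => unifP_isP hg) T (fun c a => a = x c) ?_
  intro c _
  rw [Ex_ind_R1G2, pN_cast]

theorem t2 : ∀ᶠ g : ℕ in Filter.atTop, Pr (wG g) (fun σ => ¬ PG2 (SS σ)) ≤ 1 / 20 := by
  filter_upwards [LarProb.ev_pow_le (C := 3 ^ 51) (c := 1 / 20) (by norm_num) 89550 96900
    (by norm_num), Filter.eventually_ge_atTop 1] with g hgs hg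
  have hg0 : 0 < g := hg
  have hg1 : (0 : ℝ) < g := by exact_mod_cast hg0
  set q0 : ℝ := 1 / (g : ℝ) ^ 950 with hq0
  have hq0n : 0 ≤ q0 := by positivity
  set q : ℝ := (q0 ^ 51) ^ 2 with hq
  have hqn : 0 ≤ q := by positivity
  set s : Finset ((Pl g × Pl g × Pl g) × Finset (Pc g)) :=
    (Finset.univ : Finset (Pl g × Pl g × Pl g)) ×ˢ
      (Finset.univ : Finset (Pc g)).powersetCard 51 with hs
  set Ev : (Pl g × Pl g × Pl g) × Finset (Pc g) → (Pl g → Pc g → Fin (pN g)) → Prop :=
    fun j σ => (j.1.1 ≠ j.1.2.1 ∧ j.1.1 ≠ j.1.2.2 ∧ j.1.2.1 ≠ j.1.2.2) ∧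
      ∀ c ∈ j.2, σ j.1.2.1 c = σ j.1.1 c ∧ σ j.1.2.2 c = σ j.1.1 c with hEv
  have hone : ∀ j ∈ s, Pr (wG g) (Ev j) ≤ q := by
    rintro ⟨⟨u, v, w⟩, T⟩ hj
    rw [hs, Finset.mem_product, Finset.mem_powersetCard] at hj
    have hT : T.card = 51 := hj.2.2
    by_cases hd : u ≠ v ∧ u ≠ w ∧ v ≠ w
    · obtain ⟨h1, h2, h3⟩ := hd
      have h := LarProb.Pr_star_le (I := Pl g) (A := fun _ => Pc g → Fin (pN g))
        (w := fun _ => wS g) (fun _ => wS_isP hg0) u {v, w}
        (fun h => by
          rw [Finset.mem_insert, Finset.mem_singleton] at h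
          rcases h with h | h
          · exact h1 h
          · exact h2 h)
        (fun _ x f => ∀ c ∈ T, f c = x c)
        (q := q0 ^ 51) (fun _ _ x => by
          have := one_R1G2 hg0 T x
          rw [hT] at this
          exact this)
      rw [Finset.card_pair h3] at h
      refine (LarProb.Pr_mono (wG_isP hg0) (fun σ hσ => ?_)).trans h
      intro t ht
      rw [Finset.mem_insert, Finset.mem_singleton] at ht
      rcases ht with rfl | rfl
      · exact fun c hc => (hσ.2 c hc).1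
      · exact fun c hc => (hσ.2 c hc).2
    · rw [LarProb.Pr_false (fun σ h => hd h.1)]
      exact hqn
  have hun := LarProb.Pr_exists_le_card_mul (wG_isP hg0) s Ev (q := q) hone
  refine (LarProb.Pr_mono (wG_isP hg0) (fun σ hσ => ?_)).trans (hun.trans ?_)
  · unfold PG2 at hσ
    push Not at hσ
    obtain ⟨u, v, w, h1, h2, h3, h4⟩ := hσ
    have h5 := card_inter_R1G2 (σ u) (σ v) (σ w)
    have h6 : 51 ≤ (Finset.univ.filter
        (fun c : Pc g => σ v c = σ u c ∧ σ w c = σ u c)).card := by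
      have h7 : 50 < (supp (σ u) ∩ supp (σ v) ∩ supp (σ w)).card := h4
      omega
    obtain ⟨T, hT1, hT2⟩ := Finset.exists_subset_card_eq h6
    refine ⟨((u, v, w), T), ?_, ⟨h1, h2, h3⟩, fun c hc => ?_⟩
    · rw [hs, Finset.mem_product, Finset.mem_powersetCard]
      exact ⟨Finset.mem_univ _, Finset.subset_univ _, hT2⟩
    · have h8 := hT1 hc
      rw [Finset.mem_filter] at h8
      exact h8.2
  · have hc1 : (s.card : ℝ) ≤ (g : ℝ) ^ 36000 * (3 * (g : ℝ) ^ 1050) ^ 51 := by
      rw [hs, Finset.card_product, Finset.card_powersetCard, Finset.card_univ, Finset.card_univ,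
        Fintype.card_prod, Fintype.card_prod, Fintype.card_fin, Fintype.card_prod,
        Fintype.card_fin, Fintype.card_fin]
      push_cast
      rw [mP_cast]
      have h1 : (((3 * sN g).choose 51 : ℕ) : ℝ) ≤ (3 * (g : ℝ) ^ 1050) ^ 51 := by
        have h2 : (3 * sN g).choose 51 ≤ (3 * sN g) ^ 51 := Nat.choose_le_pow _ _
        have h3 : (((3 * sN g).choose 51 : ℕ) : ℝ) ≤ (((3 * sN g) ^ 51 : ℕ) : ℝ) := by
          exact_mod_cast h2
        refine h3.trans (le_of_eq ?_)
        push_cast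
        rw [sN_cast]
      have h4 : (g : ℝ) ^ 12000 * ((g : ℝ) ^ 12000 * (g : ℝ) ^ 12000) = (g : ℝ) ^ 36000 := by
        rw [← pow_add, ← pow_add]
      rw [h4]
      exact mul_le_mul_of_nonneg_left h1 (by positivity)
    have hA : (g : ℝ) ^ 36000 * (3 * (g : ℝ) ^ 1050) ^ 51 = 3 ^ 51 * (g : ℝ) ^ 89550 := by
      rw [mul_pow, ← pow_mul, mul_left_comm, ← pow_add]
    have hB : q = 1 / (g : ℝ) ^ 96900 := by
      rw [hq, hq0, one_div, inv_pow, inv_pow, one_div, ← pow_mul, ← pow_mul]
    calc (s.card : ℝ) * q ≤ (3 ^ 51 * (g : ℝ) ^ 89550) * q := by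
          rw [← hA]
          exact mul_le_mul_of_nonneg_right hc1 hqn
      _ ≤ (1 / 20 * (g : ℝ) ^ 96900) * q := mul_le_mul_of_nonneg_right hgs hqn
      _ = 1 / 20 := by
          rw [hB]
          have : (g : ℝ) ^ 96900 ≠ 0 := pow_ne_zero _ hg1.ne'
          rw [mul_assoc, mul_one_div_cancel this, mul_one]

end Pool.Larman
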