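import Pool.Agent.Larman.R1Mem
import Pool.Agent.LarH.Num

/-!
# Degrees of units, of pairs of units; players with three units in a small set

Package LAR R1G3.  All three: `LarProb.count_coord` (coordinates = players, `s = univ`,
`s.card = mP g = g^12000`), `num_eq_cnt`, union bound `LarProb.Pr_exists_le_card_mul`.

* `t3a`: `R f = (y ∈ supp f)`, `p = 1/g^950` (`Pr_mem`), `t = (1/2) g^11050`:
  `2 p m + t = 2.5 g^11050`; if `3 g^11050 < num` then in particular `2 p m + t ≤ cnt`.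
  Union over the `3 g^2000` units: `3 g^2000 exp (- log 2 * g^11050 / 2) ≤ 1/20`.
* `t3b`: `R f = (y ∈ supp f ∧ y' ∈ supp f)`, `p = 1/g^1900` (`Pr_mem2`), `t = g^10100 / 2`.
  Union over `9 g^4000` pairs.
* `t3c`: `R f = (3 ≤ (supp f ∩ Y).card)`, `p = 27 g^312 / g^2850` (`Pr_three`), `t = g^9500 / 2`:
  `2 p m = 54 g^9462 ≤ g^9500 / 4`.  Union over the sets `Y` with at most `3 g^104` elements:
  `LarProb.card_small_subsets` gives at most `(3 g^2000 + 1)^(3 g^104)` of them (`k = 3 g^104` is a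
  natural number); `(3 g^2000 + 1)^(3 g^104) ≤ exp (3 g^104 * log (4 g^2000)) ≤ exp (g^106)`, against
  `exp (- log 2 * g^9500 / 2)`.
-/

set_option autoImplicit false

open scoped BigOperators Classical

noncomputable section

namespace Pool.Larman

open Pool.LarProb (IsP Ex Pr PW unif)

private theorem r1g3_num {N : ℝ} {K : ℕ} {T : ℝ} (hN : N ≤ (2 : ℝ) ^ K) (hT : (K : ℝ) + 5 ≤ T) :
    N * Real.exp (-(Real.log 2 * T)) ≤ 1 / 20 := by
  have hl : 0 < Real.log 2 := Real.log_pos (by norm_num)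
  have h1 : Real.exp (-(Real.log 2 * T)) ≤ Real.exp (-(Real.log 2 * ((K : ℝ) + 5))) := by
    apply Real.exp_le_exp.2
    have := mul_le_mul_of_nonneg_left hT hl.le
    linarith
  have h2 : Real.exp (-(Real.log 2 * ((K : ℝ) + 5))) = ((2 : ℝ) ^ (K + 5))⁻¹ := by
    rw [Real.exp_neg]
    congr 1
    have : Real.log 2 * ((K : ℝ) + 5) = ((K + 5 : ℕ) : ℝ) * Real.log 2 := by push_cast; ring
    rw [this, Real.exp_nat_mul, Real.exp_log (by norm_num)]
  have h3 : (0 : ℝ) < 2 ^ K := by positivity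
  calc N * Real.exp (-(Real.log 2 * T)) ≤ 2 ^ K * ((2 : ℝ) ^ (K + 5))⁻¹ := by
        rw [← h2]
        exact mul_le_mul hN h1 (Real.exp_pos _).le h3.le
    _ = 1 / 32 := by
        rw [pow_add, mul_inv, ← mul_assoc, mul_inv_cancel₀ h3.ne', one_mul]
        norm_num
    _ ≤ 1 / 20 := by norm_num

/-- number of players whose support has a property -/
private theorem r1g3_cnt {g : ℕ} (hg : 0 < g) (R : (Pc g → Fin (pN g)) → Prop) {p t B : ℝ}
    (hp : Pr (wS g) R ≤ p) (hB : 2 * p * (g : ℝ) ^ 12000 + t ≤ B) :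
    Pr (wG g) (fun σ => B < num (fun v => R (σ v))) ≤ Real.exp (-(Real.log 2 * t)) := by
  have h := LarProb.count_coord (w := fun _ : Pl g => wS g) (fun _ => wS_isP hg) Finset.univ
    (fun _ => R) (p := p) (t := t) (fun _ _ => hp)
  refine le_trans (LarProb.Pr_mono (wG_isP hg) ?_) h
  intro σ hσ
  rw [Finset.card_univ, Fintype.card_fin, mP_cast, ← num_eq_cnt]
  linarith

private theorem r1g3_Un (g : ℕ) : Fintype.card (Un g) = 3 * g ^ 2000 := by
  unfold Un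
  rw [Fintype.card_prod, Fintype.card_prod, Fintype.card_fin, Fintype.card_fin, Fintype.card_fin]
  unfold sN pN
  rw [← pow_add]

private theorem r1g3_Un_le {g : ℕ} (hg : 4 ≤ g) : 3 * g ^ 2000 + 1 ≤ 2 ^ (g * 2001) := by
  have hg0 : 0 < g := by omega
  calc 3 * g ^ 2000 + 1 ≤ 3 * g ^ 2000 + g ^ 2000 := by
        have : 0 < g ^ 2000 := pow_pos hg0 _
        omega
    _ = g ^ 2000 * 4 := by ring
    _ ≤ g ^ 2000 * g := Nat.mul_le_mul_left _ hg
    _ = g ^ 2001 := by rw [← pow_succ]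
    _ ≤ (2 ^ g) ^ 2001 := Nat.pow_le_pow_left Nat.lt_two_pow_self.le _
    _ = 2 ^ (g * 2001) := by rw [← pow_mul]

theorem t3c : ∀ᶠ g : ℕ in Filter.atTop, Pr (wG g) (fun σ => ¬ PG3c (SS σ)) ≤ 1 / 20 := by
  filter_upwards [Filter.eventually_ge_atTop 20000] with g hg
  have hg0 : 0 < g := by omega
  have hg' : (20000 : ℝ) ≤ g := by exact_mod_cast hg
  have hg1 : (1 : ℝ) ≤ g := by linarith
  let B : Finset (Finset (Un g)) := (Finset.univ : Finset (Finset (Un g))).filter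
    (fun Y => Y.card ≤ 3 * g ^ 104)
  have hmono : Pr (wG g) (fun σ => ¬ PG3c (SS σ)) ≤
      Pr (wG g) (fun σ => ∃ Y ∈ B, (g : ℝ) ^ 9500 < num (fun v => 3 ≤ (supp (σ v) ∩ Y).card)) := by
    apply LarProb.Pr_mono (wG_isP hg0)
    intro σ h
    unfold PG3c at h
    push Not at h
    obtain ⟨Y, hY, h⟩ := h
    refine ⟨Y, ?_, h⟩
    rw [Finset.mem_filter]
    exact ⟨Finset.mem_univ _, by exact_mod_cast hY⟩
  have hone : ∀ Y ∈ B, Pr (wG g) (fun σ => (g : ℝ) ^ 9500 < num (fun v =>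
      3 ≤ (supp (σ v) ∩ Y).card)) ≤ Real.exp (-(Real.log 2 * ((g : ℝ) ^ 9500 / 2))) := by
    intro Y hY
    have hYc : Y.card ≤ 3 * g ^ 104 := (Finset.mem_filter.mp hY).2
    have hYr : (Y.card : ℝ) ≤ 3 * (g : ℝ) ^ 104 := by exact_mod_cast hYc
    refine r1g3_cnt hg0 (fun f => 3 ≤ (supp f ∩ Y).card)
      (p := 27 * (g : ℝ) ^ 312 / (g : ℝ) ^ 2850) ?_ ?_
    · refine (Pr_three hg0 Y).trans ?_
      have h1 : (Y.card : ℝ) ^ 3 ≤ (3 * (g : ℝ) ^ 104) ^ 3 :=
        pow_le_pow_left₀ (by positivity) hYr 3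
      have h2 : (3 * (g : ℝ) ^ 104) ^ 3 = 27 * (g : ℝ) ^ 312 := by
        rw [mul_pow, ← pow_mul]; norm_num
      rw [h2] at h1
      exact div_le_div_of_nonneg_right h1 (by positivity)
    · have h1 : (g : ℝ) ^ 12000 = (g : ℝ) ^ 9150 * (g : ℝ) ^ 2850 := by rw [← pow_add]
      have h2 : 2 * (27 * (g : ℝ) ^ 312 / (g : ℝ) ^ 2850) * (g : ℝ) ^ 12000 =
          54 * ((g : ℝ) ^ 312 * (g : ℝ) ^ 9150) := by
        rw [h1]
        have h3 : (g : ℝ) ^ 2850 ≠ 0 := by positivity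
        generalize (g : ℝ) ^ 2850 = a at h3 ⊢
        generalize (g : ℝ) ^ 9150 = b
        generalize (g : ℝ) ^ 312 = c
        field_simp
        ring
      have h3 : (g : ℝ) ^ 312 * (g : ℝ) ^ 9150 * (g : ℝ) ≤ (g : ℝ) ^ 9500 := by
        have : (g : ℝ) ^ 312 * (g : ℝ) ^ 9150 * (g : ℝ) = (g : ℝ) ^ 9463 := by
          rw [← pow_add, ← pow_succ]
        rw [this]
        exact pow_le_pow_right₀ hg1 (by norm_num)
      rw [h2]
      have h4 : 0 ≤ (g : ℝ) ^ 312 * (g : ℝ) ^ 9150 := by positivity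
      generalize (g : ℝ) ^ 312 * (g : ℝ) ^ 9150 = b at h3 h4 ⊢
      generalize (g : ℝ) ^ 9500 = c at h3 ⊢
      nlinarith
  refine hmono.trans ((LarProb.Pr_exists_le_card_mul (wG_isP hg0) _ _ hone).trans ?_)
  refine r1g3_num (K := g * (2001 * (3 * g ^ 104))) ?_ ?_
  · have h := LarProb.card_small_subsets (Un g) (3 * g ^ 104)
    rw [r1g3_Un] at h
    have h2 : B.card ≤ 2 ^ (g * (2001 * (3 * g ^ 104))) := by
      calc B.card ≤ (3 * g ^ 2000 + 1) ^ (3 * g ^ 104) := by convert h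
        _ ≤ (2 ^ (g * 2001)) ^ (3 * g ^ 104) := Nat.pow_le_pow_left (r1g3_Un_le (by omega)) _
        _ = 2 ^ (g * (2001 * (3 * g ^ 104))) := by rw [← pow_mul, mul_assoc]
    exact_mod_cast h2
  · have h1 : (((g * (2001 * (3 * g ^ 104)) : ℕ)) : ℝ) = 6003 * (g : ℝ) ^ 105 := by
      push_cast
      ring
    rw [h1]
    have h2 : (g : ℝ) ^ 105 * g ≤ (g : ℝ) ^ 9500 := by
      rw [← pow_succ]
      exact pow_le_pow_right₀ hg1 (by norm_num)
    have h3 : (1 : ℝ) ≤ (g : ℝ) ^ 105 := one_le_pow₀ hg1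
    generalize (g : ℝ) ^ 105 = b at h2 h3 ⊢
    generalize (g : ℝ) ^ 9500 = c at h2 ⊢
    nlinarith

theorem t3a : ∀ᶠ g : ℕ in Filter.atTop, Pr (wG g) (fun σ => ¬ PG3a (SS σ)) ≤ 1 / 20 := by
  filter_upwards [Filter.eventually_ge_atTop 20000] with g hg
  have hg0 : 0 < g := by omega
  have hg' : (20000 : ℝ) ≤ g := by exact_mod_cast hg
  have hg1 : (1 : ℝ) ≤ g := by linarith
  have hmono : Pr (wG g) (fun σ => ¬ PG3a (SS σ)) ≤
      Pr (wG g) (fun σ => ∃ y ∈ (Finset.univ : Finset (Un g)),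
        3 * (g : ℝ) ^ 11050 < num (fun v => y ∈ supp (σ v))) := by
    apply LarProb.Pr_mono (wG_isP hg0)
    intro σ h
    unfold PG3a at h
    push Not at h
    obtain ⟨y, h⟩ := h
    exact ⟨y, Finset.mem_univ _, h⟩
  have hone : ∀ y ∈ (Finset.univ : Finset (Un g)), Pr (wG g) (fun σ =>
      3 * (g : ℝ) ^ 11050 < num (fun v => y ∈ supp (σ v))) ≤
      Real.exp (-(Real.log 2 * (g : ℝ) ^ 11050)) := by
    intro y _
    refine r1g3_cnt hg0 (fun f => y ∈ supp f) (p := 1 / (g : ℝ) ^ 950) (Pr_mem hg0 y).le ?_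
    have h1 : (g : ℝ) ^ 12000 = (g : ℝ) ^ 950 * (g : ℝ) ^ 11050 := by rw [← pow_add]
    rw [h1]
    have h3 : (g : ℝ) ^ 950 ≠ 0 := by positivity
    generalize (g : ℝ) ^ 950 = a at h3 ⊢
    generalize (g : ℝ) ^ 11050 = b
    have : 2 * (1 / a) * (a * b) = 2 * b := by field_simp
    linarith
  refine hmono.trans ((LarProb.Pr_exists_le_card_mul (wG_isP hg0) _ _ hone).trans ?_)
  refine r1g3_num (K := g * 2001) ?_ ?_
  · rw [Finset.card_univ, r1g3_Un]
    have h : 3 * g ^ 2000 ≤ 2 ^ (g * 2001) := le_trans (Nat.le_succ _) (r1g3_Un_le (by omega))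
    exact_mod_cast h
  · have h2 : (g : ℝ) ^ 2 ≤ (g : ℝ) ^ 11050 := pow_le_pow_right₀ hg1 (by norm_num)
    push_cast
    generalize (g : ℝ) ^ 11050 = c at h2 ⊢
    nlinarith

theorem t3b : ∀ᶠ g : ℕ in Filter.atTop, Pr (wG g) (fun σ => ¬ PG3b (SS σ)) ≤ 1 / 20 := by
  filter_upwards [Filter.eventually_ge_atTop 20000] with g hg
  have hg0 : 0 < g := by omega
  have hg' : (20000 : ℝ) ≤ g := by exact_mod_cast hg
  have hg1 : (1 : ℝ) ≤ g := by linarith
  let B : Finset (Un g × Un g) := Finset.univ.filter (fun p => p.1 ≠ p.2)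
  have hmono : Pr (wG g) (fun σ => ¬ PG3b (SS σ)) ≤
      Pr (wG g) (fun σ => ∃ p ∈ B,
        3 * (g : ℝ) ^ 10100 < num (fun v => p.1 ∈ supp (σ v) ∧ p.2 ∈ supp (σ v))) := by
    apply LarProb.Pr_mono (wG_isP hg0)
    intro σ h
    unfold PG3b at h
    push Not at h
    obtain ⟨y, y', hy, h⟩ := h
    exact ⟨(y, y'), Finset.mem_filter.mpr ⟨Finset.mem_univ _, hy⟩, h⟩
  have hone : ∀ p ∈ B, Pr (wG g) (fun σ =>
      3 * (g : ℝ) ^ 10100 < num (fun v => p.1 ∈ supp (σ v) ∧ p.2 ∈ supp (σ v))) ≤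
      Real.exp (-(Real.log 2 * (g : ℝ) ^ 10100)) := by
    intro p hp
    have hne : p.1 ≠ p.2 := (Finset.mem_filter.mp hp).2
    refine r1g3_cnt hg0 (fun f => p.1 ∈ supp f ∧ p.2 ∈ supp f) (p := 1 / (g : ℝ) ^ 1900)
      (Pr_mem2 hg0 _ _ hne) ?_
    have h1 : (g : ℝ) ^ 12000 = (g : ℝ) ^ 1900 * (g : ℝ) ^ 10100 := by rw [← pow_add]
    rw [h1]
    have h3 : (g : ℝ) ^ 1900 ≠ 0 := by positivity
    generalize (g : ℝ) ^ 1900 = a at h3 ⊢
    generalize (g : ℝ) ^ 10100 = b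
    have : 2 * (1 / a) * (a * b) = 2 * b := by field_simp
    linarith
  refine hmono.trans ((LarProb.Pr_exists_le_card_mul (wG_isP hg0) _ _ hone).trans ?_)
  refine r1g3_num (K := g * 2001 + g * 2001) ?_ ?_
  · have h0 : B.card ≤ (3 * g ^ 2000) * (3 * g ^ 2000) := by
      refine (Finset.card_filter_le _ _).trans ?_
      rw [Finset.card_univ, Fintype.card_prod, r1g3_Un]
    have h : B.card ≤ 2 ^ (g * 2001 + g * 2001) := by
      rw [pow_add]
      refine h0.trans (Nat.mul_le_mul ?_ ?_)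
      · exact le_trans (Nat.le_succ _) (r1g3_Un_le (by omega))
      · exact le_trans (Nat.le_succ _) (r1g3_Un_le (by omega))
    exact_mod_cast h
  · have h2 : (g : ℝ) ^ 2 ≤ (g : ℝ) ^ 10100 := pow_le_pow_right₀ hg1 (by norm_num)
    push_cast
    generalize (g : ℝ) ^ 10100 = c at h2 ⊢
    nlinarith

end Pool.Larman
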