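import Pool.Agent.Larman.R1Mem
import Pool.Agent.LarH.Num

/-!
# Linear forms: all but `g^4000` players

Package LAR R1G5.  Rounding: let `N' = 12 g^1051` (natural number) and for
`φ : Un g → Fin (N' + 1)` let `a_φ y = φ y / N'`.  Given `a` with `0 ≤ a ≤ 1` put
`φ y = ⌈N' a y⌉₊`; then `a y ≤ a_φ y ≤ a y + 1/N'`, so for every `w`
`∑_{y ∈ S w} a y ≤ ∑_{y ∈ S w} a_φ y` and
`4 (∑ a_φ) / g^950 ≤ 4 (∑ a) / g^950 + 4 * 3 g^2000 / (g^950 N') ≤ 4 (∑ a) / g^950 + 1` (there are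
`3 g^2000` units).  (The support hypothesis on `a` is not needed.)
So, if PG5 fails, there is a `φ` such that more than `g^4000` players `w` satisfy
`4 (∑ a_φ) / g^950 + (g - 1) ≤ ∑_{y ∈ S w} a_φ y`.
For fixed `φ`: `linS_tail` with `t = g - 1` gives probability `≤ q := exp (-(log 2 (g-1)))` for one
player, and `LarProb.Pr_many_le` with `k = g^4000` (players = coordinates) gives
`(m q)^(g^4000)`, `m = mP g = g^12000`.
Union over the `(N'+1)^(3 g^2000)` functions `φ`.  Numerics for large `g`: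
`m q ≤ exp (-g/2)` (`LarProb.ev_exp_small`), so `(m q)^(g^4000) ≤ exp (-(g^4001 / 2))`, and
`(N'+1)^(3 g^2000) ≤ exp (3 g^2000 log (13 g^1051)) ≤ exp (g^2002)`.
-/

set_option autoImplicit false

open scoped BigOperators Classical

noncomputable section

namespace Pool.Larman

open Pool.LarProb (IsP Ex Pr PW unif)

/-- rounding of the coefficients up to multiples of `1 / (12 K)` -/
private theorem g5_round {g K : ℕ} (hg : 0 < g) (hK : (K : ℝ) = (g : ℝ) ^ 1051)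
    (a : Un g → ℝ) (ha : ∀ y, 0 ≤ a y ∧ a y ≤ 1) :
    ∃ φ : Un g → Fin (12 * K + 1), (∀ y, a y ≤ ((φ y : ℕ) : ℝ) / (12 * K)) ∧
      (∀ y, ((φ y : ℕ) : ℝ) / (12 * K) ≤ 1) ∧
      4 * (∑ y, ((φ y : ℕ) : ℝ) / (12 * K)) / (g : ℝ) ^ 950 ≤
        4 * (∑ y, a y) / (g : ℝ) ^ 950 + 1 := by
  have hgr : (0 : ℝ) < g := by exact_mod_cast hg
  have hg1 : (1 : ℝ) ≤ g := by exact_mod_cast hg
  have hB : (0 : ℝ) < (g : ℝ) ^ 950 := pow_pos hgr _
  have hA : (0 : ℝ) < (g : ℝ) ^ 1050 := pow_pos hgr _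
  have hKpos : (0 : ℝ) < K := by rw [hK]; exact pow_pos hgr _
  have hN : (0 : ℝ) < 12 * K := by positivity
  have hle : ∀ y, ⌈12 * (K : ℝ) * a y⌉₊ < 12 * K + 1 := fun y => by
    refine Nat.lt_succ_of_le (Nat.ceil_le.mpr ?_)
    push_cast
    exact mul_le_of_le_one_right hN.le (ha y).2
  refine ⟨fun y => ⟨⌈12 * (K : ℝ) * a y⌉₊, hle y⟩, fun y => ?_, fun y => ?_, ?_⟩
  · rw [le_div_iff₀ hN, mul_comm]
    exact Nat.le_ceil _
  · rw [div_le_one hN]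
    have h := Nat.lt_succ_iff.mp (hle y)
    have h2 : ((⌈12 * (K : ℝ) * a y⌉₊ : ℕ) : ℝ) ≤ ((12 * K : ℕ) : ℝ) := Nat.cast_le.mpr h
    push_cast at h2
    exact h2
  · have h1 : ∀ y, ((⌈12 * (K : ℝ) * a y⌉₊ : ℕ) : ℝ) / (12 * K) ≤ a y + 1 / (12 * K) := by
      intro y
      rw [div_le_iff₀ hN, add_mul, div_mul_cancel₀ _ hN.ne']
      have h2 := Nat.ceil_lt_add_one (mul_nonneg hN.le (ha y).1)
      linarith
    have h2 : ∑ y : Un g, ((⌈12 * (K : ℝ) * a y⌉₊ : ℕ) : ℝ) / (12 * K) ≤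
        (∑ y, a y) + (Fintype.card (Un g) : ℝ) * (1 / (12 * K)) := by
      refine (Finset.sum_le_sum fun y _ => h1 y).trans (le_of_eq ?_)
      rw [Finset.sum_add_distrib, Finset.sum_const, nsmul_eq_mul, Finset.card_univ]
    have h3 : (Fintype.card (Un g) : ℝ) = 3 * ((g : ℝ) ^ 1050 * (g : ℝ) ^ 950) := by
      rw [Fintype.card_prod, Fintype.card_prod, Fintype.card_fin, Fintype.card_fin,
        Fintype.card_fin, Nat.cast_mul, Nat.cast_mul, sN_cast, pN_cast]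
      norm_num
    have h4 : (K : ℝ) = (g : ℝ) ^ 1050 * g := by rw [hK, ← pow_succ]
    have h5 : 4 * ((Fintype.card (Un g) : ℝ) * (1 / (12 * K))) ≤ (g : ℝ) ^ 950 := by
      have h6 : 4 * ((Fintype.card (Un g) : ℝ) * (1 / (12 * K))) =
          4 * (Fintype.card (Un g) : ℝ) / (12 * K) := by ring
      rw [h6, div_le_iff₀ hN, h3, h4]
      have h7 : (g : ℝ) ^ 1050 * (g : ℝ) ^ 950 ≤ (g : ℝ) ^ 1050 * (g : ℝ) ^ 950 * g :=
        le_mul_of_one_le_right (by positivity) hg1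
      have h8 : (g : ℝ) ^ 950 * (12 * ((g : ℝ) ^ 1050 * g)) =
          12 * ((g : ℝ) ^ 1050 * (g : ℝ) ^ 950 * g) := by ring
      rw [h8]
      linarith
    rw [div_add_one hB.ne', div_le_div_iff_of_pos_right hB]
    show 4 * (∑ y : Un g, ((⌈12 * (K : ℝ) * a y⌉₊ : ℕ) : ℝ) / (12 * K)) ≤ _
    linarith

private theorem g5_num {g u k K : ℕ} (hg : 6350 ≤ g) (hu : (u : ℝ) = 3 * (g : ℝ) ^ 2000)
    (hk : (k : ℝ) = (g : ℝ) ^ 2000 * (g : ℝ) ^ 2000) (hK : (K : ℝ) = (g : ℝ) ^ 1051) {r : ℝ}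
    (hr0 : 0 ≤ r) (hr : r ≤ Real.exp (-((1 / 2) * g))) :
    (12 * (K : ℝ) + 1) ^ u * r ^ k ≤ 1 / 20 := by
  have hgr : (6350 : ℝ) ≤ g := by exact_mod_cast hg
  have hg1 : (1 : ℝ) ≤ g := by linarith
  have hX : (g : ℝ) ≤ (g : ℝ) ^ 2000 := le_self_pow₀ hg1 (by norm_num)
  have h1 : 12 * (K : ℝ) + 1 ≤ Real.exp (1052 * g) := by
    have h2 : (1 : ℝ) ≤ (g : ℝ) ^ 1051 := one_le_pow₀ hg1
    have h3 : 12 * (K : ℝ) + 1 ≤ (g : ℝ) ^ 1052 := by
      rw [hK, pow_succ (g : ℝ) 1051]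
      have h4 : (g : ℝ) ^ 1051 * 13 ≤ (g : ℝ) ^ 1051 * g :=
        mul_le_mul_of_nonneg_left (by linarith) (by positivity)
      linarith
    have h5 : (g : ℝ) ≤ Real.exp g := by
      have := Real.add_one_le_exp (g : ℝ)
      linarith
    have h6 : (g : ℝ) ^ 1052 ≤ Real.exp g ^ 1052 := pow_le_pow_left₀ (by linarith) h5 _
    have h7 : Real.exp (1052 * g) = Real.exp g ^ 1052 := by
      rw [← Real.exp_nat_mul]
      norm_num
    rw [h7]
    exact h3.trans h6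
  have h2 : (12 * (K : ℝ) + 1) ^ u ≤ Real.exp (u * (1052 * g)) := by
    rw [Real.exp_nat_mul]
    exact pow_le_pow_left₀ (by positivity) h1 _
  have h3 : r ^ k ≤ Real.exp (k * (-((1 / 2) * g))) := by
    rw [Real.exp_nat_mul]
    exact pow_le_pow_left₀ hr0 hr _
  have h4 : (12 * (K : ℝ) + 1) ^ u * r ^ k ≤
      Real.exp (u * (1052 * g)) * Real.exp (k * (-((1 / 2) * g))) :=
    mul_le_mul h2 h3 (pow_nonneg hr0 _) (Real.exp_pos _).le
  rw [← Real.exp_add, hu, hk] at h4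
  set X : ℝ := (g : ℝ) ^ 2000 with hXd
  have h5 : 3 * X * (1052 * g) + X * X * (-((1 / 2) * g)) ≤ -19 := by
    have h6 : 3 * X * (1052 * g) + X * X * (-((1 / 2) * g)) = -(X * g * (X / 2 - 3156)) := by
      ring
    rw [h6]
    have h7 : (19 : ℝ) ≤ X / 2 - 3156 := by linarith
    have h8 : (1 : ℝ) ≤ X * g := by
      have : (1 : ℝ) * 1 ≤ X * g := mul_le_mul (by linarith) hg1 zero_le_one (by linarith)
      linarith
    have h9 : (1 : ℝ) * 19 ≤ X * g * (X / 2 - 3156) :=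
      mul_le_mul h8 h7 (by norm_num) (by linarith)
    linarith
  have h6 : Real.exp (-19) ≤ 1 / 20 := by
    rw [Real.exp_neg, ← one_div]
    have h7 := Real.add_one_le_exp (19 : ℝ)
    exact one_div_le_one_div_of_le (by norm_num) (by linarith)
  exact h4.trans ((Real.exp_le_exp.mpr h5).trans h6)

theorem t5 : ∀ᶠ g : ℕ in Filter.atTop, Pr (wG g) (fun σ => ¬ PG5 (SS σ)) ≤ 1 / 20 := by
  have hlog : (1 / 2 : ℝ) < Real.log 2 := by
    have := Real.log_two_gt_d9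
    linarith
  filter_upwards [LarProb.ev_exp_small 12000 (C := 2) (sub_pos.mpr hlog) one_pos,
    Filter.eventually_ge_atTop 6350] with g hsmall hg
  have hg0 : 0 < g := by omega
  obtain ⟨K, hK⟩ : ∃ K : ℕ, (K : ℝ) = (g : ℝ) ^ 1051 := ⟨g ^ 1051, Nat.cast_pow _ _⟩
  obtain ⟨k, hk⟩ : ∃ k : ℕ, (k : ℝ) = (g : ℝ) ^ 4000 := ⟨g ^ 4000, Nat.cast_pow _ _⟩
  have hKpos : (0 : ℝ) < K := by
    rw [hK]
    exact pow_pos (by exact_mod_cast hg0) _
  set q : ℝ := Real.exp (-(Real.log 2 * ((g : ℝ) - 1))) with hq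
  -- the event for the rounded coefficients
  have hφ : ∀ φ ∈ (Finset.univ : Finset (Un g → Fin (12 * K + 1))), Pr (wG g) (fun σ =>
      (k : ℝ) ≤ LarProb.cnt Finset.univ (fun w : Pl g =>
        4 * (∑ y, ((φ y : ℕ) : ℝ) / (12 * K)) / (g : ℝ) ^ 950 + ((g : ℝ) - 1) ≤
          ∑ y ∈ supp (σ w), ((φ y : ℕ) : ℝ) / (12 * K))) ≤
      ((Fintype.card (Pl g) : ℝ) * q) ^ k := by
    intro φ _
    refine LarProb.Pr_many_le (I := Pl g) (A := fun _ => Pc g → Fin (pN g))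
      (w := fun _ => wS g) (fun _ => wS_isP hg0)
      (fun _ f => 4 * (∑ y, ((φ y : ℕ) : ℝ) / (12 * K)) / (g : ℝ) ^ 950 + ((g : ℝ) - 1) ≤
          ∑ y ∈ supp f, ((φ y : ℕ) : ℝ) / (12 * K)) (fun _ => ?_) k
    refine linS_tail hg0 _ (fun y => ⟨by positivity, ?_⟩) _
    rw [div_le_one (by positivity)]
    have h := Nat.lt_succ_iff.mp (φ y).2
    have h2 : (((φ y : ℕ)) : ℝ) ≤ ((12 * K : ℕ) : ℝ) := Nat.cast_le.mpr h
    push_cast at h2
    exact h2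
  have hunion := LarProb.Pr_exists_le_card_mul (wG_isP hg0)
    (Finset.univ : Finset (Un g → Fin (12 * K + 1))) _ hφ
  have hsub : Pr (wG g) (fun σ => ¬ PG5 (SS σ)) ≤ Pr (wG g) (fun σ =>
      ∃ φ ∈ (Finset.univ : Finset (Un g → Fin (12 * K + 1))),
      (k : ℝ) ≤ LarProb.cnt Finset.univ (fun w : Pl g =>
        4 * (∑ y, ((φ y : ℕ) : ℝ) / (12 * K)) / (g : ℝ) ^ 950 + ((g : ℝ) - 1) ≤
          ∑ y ∈ supp (σ w), ((φ y : ℕ) : ℝ) / (12 * K))) := by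
    refine LarProb.Pr_mono (wG_isP hg0) fun σ hσ => ?_
    unfold PG5 at hσ
    push Not at hσ
    obtain ⟨a, ha, -, hbig⟩ := hσ
    obtain ⟨φ, h1, -, h3⟩ := g5_round hg0 hK a ha
    refine ⟨φ, Finset.mem_univ _, ?_⟩
    rw [hk]
    refine hbig.le.trans ?_
    rw [← num_eq_cnt]
    unfold num
    refine Nat.cast_le.mpr (Finset.card_le_card fun w hw => ?_)
    rw [Finset.mem_filter] at hw ⊢
    refine ⟨Finset.mem_univ _, ?_⟩
    have h4 : ∑ y ∈ supp (σ w), a y ≤ ∑ y ∈ supp (σ w), ((φ y : ℕ) : ℝ) / (12 * K) :=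
      Finset.sum_le_sum fun y _ => h1 y
    have h5 := hw.2
    have h6 : ∑ y ∈ SS σ w, a y = ∑ y ∈ supp (σ w), a y := rfl
    linarith
  refine hsub.trans (hunion.trans ?_)
  have hcard : (((Finset.univ : Finset (Un g → Fin (12 * K + 1))).card : ℕ) : ℝ) =
      (12 * (K : ℝ) + 1) ^ (Fintype.card (Un g)) := by
    rw [Finset.card_univ, Fintype.card_fun, Fintype.card_fin, Nat.cast_pow, Nat.cast_add,
      Nat.cast_mul, Nat.cast_one]
    norm_num
  rw [hcard]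
  have hgr : (0 : ℝ) < g := by exact_mod_cast hg0
  refine g5_num hg ?_ ?_ hK (by positivity) ?_
  · rw [Fintype.card_prod, Fintype.card_prod, Fintype.card_fin, Fintype.card_fin,
      Fintype.card_fin, Nat.cast_mul, Nat.cast_mul, sN_cast, pN_cast, ← pow_add]
    norm_num
  · rw [hk, ← pow_add]
  · rw [Fintype.card_fin, mP_cast, hq]
    have h1 : -(Real.log 2 * ((g : ℝ) - 1)) =
        Real.log 2 + (-((Real.log 2 - 1 / 2) * g) + -((1 / 2) * g)) := by ring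
    rw [h1, Real.exp_add, Real.exp_add, Real.exp_log two_pos]
    have h2 : (g : ℝ) ^ 12000 * (2 * (Real.exp (-((Real.log 2 - 1 / 2) * g)) *
        Real.exp (-((1 / 2) * g)))) = (2 * (g : ℝ) ^ 12000 *
        Real.exp (-((Real.log 2 - 1 / 2) * g))) * Real.exp (-((1 / 2) * g)) := by ring
    rw [h2]
    exact mul_le_of_le_one_left (Real.exp_pos _).le hsmall

end Pool.Larman
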