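import Pool.Agent.Larman.R1Quad
import Pool.Agent.LarH.ProbMore

/-!
# Quadratic forms: all but `g^4000` players

Package LAR R1G6.  Rounding: `N' = 3 g^1050` (natural number), and for
`φ : Un g × Un g → Fin (N' + 1)` put `G_φ y y' = φ (y, y') / N'`.  Given `G` as in PG6 put
`φ (y,y') = ⌈N' G y y'⌉₊`: then `G ≤ G_φ ≤ 1`, `G_φ y y' = 0` iff `G y y' = 0` (so the diagonal is
zero and the support condition holds with the same `Y`), and the row sums and column sums are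
`≤ 5 g^100 + |Y| / N' ≤ 5 g^100 + 1 ≤ 6 g^100` (at most `|Y| ≤ 3 g^1050` nonzero entries in a row,
each increased by `≤ 1/N'`).
If `g^30 < ∑_{y ∈ S w} ∑_{y' ∈ S w} G y y'` then `g^29 ≤ ∑ ∑ G_φ`.
So if PG6 fails there is a `φ` satisfying the hypotheses of `quadS_tail` such that at least `g^4000`
players have `g^29 ≤ ∑ ∑ G_φ`.  For fixed `φ`: `quadS_tail` and `LarProb.Pr_many_le` with
`k = g^4000`: probability `≤ (m exp (-g))^(g^4000)`, `m = g^12000`, `≤ exp (-(g^4001 / 2))`.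
(For a `φ` which does not satisfy the hypotheses the event is defined to be empty; or take the union
only over the finset of the good `φ`.)
Number of `φ`: `(N'+1)^(9 g^4000) ≤ exp (9 g^4000 log (4 g^1050))`, and
`9 g^4000 log (4 g^1050) ≤ g^4001 / 4` for large `g` (`LarProb.ev_pow_log`, `ev_pow_le`).
-/

set_option autoImplicit false

open scoped BigOperators Classical

noncomputable section

namespace Pool.Larman

open Pool.LarProb (IsP Ex Pr PW unif)

/-- the rounded matrix -/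
private def g6G {g N : ℕ} (φ : Un g × Un g → Fin (N + 1)) (y y' : Un g) : ℝ :=
  ((φ (y, y') : ℕ) : ℝ) / (N : ℝ)

/-- the hypotheses of `quadS_tail` -/
private def g6Good {g N : ℕ} (φ : Un g × Un g → Fin (N + 1)) : Prop :=
  (∀ y, g6G φ y y = 0) ∧
    (∃ Y : Finset (Un g), (Y.card : ℝ) ≤ 3 * (g : ℝ) ^ 1050 ∧
      ∀ y y', g6G φ y y' ≠ 0 → y ∈ Y ∧ y' ∈ Y) ∧
    (∀ y, ∑ y', g6G φ y y' ≤ 6 * (g : ℝ) ^ 100) ∧ (∀ y', ∑ y, g6G φ y y' ≤ 6 * (g : ℝ) ^ 100)

private theorem g6_nonneg {g N : ℕ} (φ : Un g × Un g → Fin (N + 1)) (y y' : Un g) :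
    0 ≤ g6G φ y y' := by
  unfold g6G
  positivity

private theorem g6_le_one {g N : ℕ} (hN : 0 < N) (φ : Un g × Un g → Fin (N + 1)) (y y' : Un g) :
    g6G φ y y' ≤ 1 := by
  unfold g6G
  have hN' : (0 : ℝ) < N := by exact_mod_cast hN
  rw [div_le_one hN']
  have h := (φ (y, y')).isLt
  exact_mod_cast Nat.lt_succ_iff.mp h

/-- rounding up -/
private theorem g6_round {g N : ℕ} (hN : 0 < N) (G : Un g → Un g → ℝ)
    (h01 : ∀ y y', 0 ≤ G y y' ∧ G y y' ≤ 1) :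
    ∃ φ : Un g × Un g → Fin (N + 1), ∀ y y', G y y' ≤ g6G φ y y' ∧
      g6G φ y y' ≤ G y y' + 1 / N ∧ (G y y' = 0 → g6G φ y y' = 0) := by
  have hN' : (0 : ℝ) < N := by exact_mod_cast hN
  have hc : ∀ p : Un g × Un g, ⌈(N : ℝ) * G p.1 p.2⌉₊ < N + 1 := by
    intro p
    rw [Nat.lt_succ_iff, Nat.ceil_le]
    calc (N : ℝ) * G p.1 p.2 ≤ N * 1 := by
          gcongr
          exact (h01 _ _).2
      _ = N := mul_one _
  refine ⟨fun p => ⟨⌈(N : ℝ) * G p.1 p.2⌉₊, hc p⟩, fun y y' => ⟨?_, ?_, ?_⟩⟩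
  · show G y y' ≤ ((⌈(N : ℝ) * G y y'⌉₊ : ℕ) : ℝ) / N
    rw [le_div_iff₀ hN', mul_comm]
    exact Nat.le_ceil _
  · show ((⌈(N : ℝ) * G y y'⌉₊ : ℕ) : ℝ) / N ≤ G y y' + 1 / N
    rw [div_le_iff₀ hN', add_mul, one_div, inv_mul_cancel₀ hN'.ne', mul_comm (G y y')]
    exact (Nat.ceil_lt_add_one (mul_nonneg hN'.le (h01 y y').1)).le
  · intro h
    show ((⌈(N : ℝ) * G y y'⌉₊ : ℕ) : ℝ) / N = 0
    rw [h, mul_zero, Nat.ceil_zero, Nat.cast_zero, zero_div]

/-- row sums after rounding -/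
private theorem g6_sum {g N : ℕ} (hN : 0 < N) {a b : Un g → ℝ} {Y : Finset (Un g)} {c : ℝ}
    (hY : (Y.card : ℝ) ≤ N) (h1 : ∀ y, b y ≤ a y + 1 / N) (h2 : ∀ y, y ∉ Y → b y ≤ a y)
    (hc : ∑ y, a y ≤ c) : ∑ y, b y ≤ c + 1 := by
  have hN' : (0 : ℝ) < N := by exact_mod_cast hN
  calc ∑ y, b y ≤ ∑ y, (a y + if y ∈ Y then 1 / (N : ℝ) else 0) := by
        refine Finset.sum_le_sum fun y _ => ?_
        by_cases hy : y ∈ Y
        · rw [if_pos hy]
          exact h1 y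
        · rw [if_neg hy, add_zero]
          exact h2 y hy
    _ = ∑ y, a y + (Y.card : ℝ) * (1 / N) := by
        rw [Finset.sum_add_distrib, Finset.sum_ite_mem, Finset.univ_inter, Finset.sum_const,
          nsmul_eq_mul]
    _ ≤ c + 1 := by
        refine add_le_add hc ?_
        rw [mul_one_div, div_le_one hN']
        exact hY

/-- the event -/
private def g6Ev {g N : ℕ} (φ : Un g × Un g → Fin (N + 1)) (f : Pc g → Fin (pN g)) : Prop :=
  (g : ℝ) ^ 29 ≤ ∑ y ∈ supp f, ∑ y' ∈ supp f, g6G φ y y'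

private theorem g6_incl {g N : ℕ} (hg : 1 ≤ g) (hN : (N : ℝ) = 3 * (g : ℝ) ^ 1050)
    (σ : Pl g → Pc g → Fin (pN g)) (h : ¬ PG6 (SS σ)) :
    ∃ φ ∈ (Finset.univ : Finset (Un g × Un g → Fin (N + 1))).filter (fun φ => g6Good φ),
      ((g ^ 4000 : ℕ) : ℝ) ≤ LarProb.cnt Finset.univ (fun w => g6Ev φ (σ w)) := by
  have hgr : (1 : ℝ) ≤ g := by exact_mod_cast hg
  have hg0 : (0 : ℝ) < g := by linarith
  have hN0 : (0 : ℝ) < N := by
    rw [hN]
    exact mul_pos (by norm_num) (pow_pos hg0 _)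
  have hN1 : 0 < N := by exact_mod_cast hN0
  unfold PG6 at h
  rw [not_forall] at h
  obtain ⟨G, h⟩ := h
  rw [Classical.not_imp] at h
  obtain ⟨h01, h⟩ := h
  rw [Classical.not_imp] at h
  obtain ⟨hdiag, h⟩ := h
  rw [Classical.not_imp] at h
  obtain ⟨⟨Y, hYc, hY⟩, h⟩ := h
  rw [Classical.not_imp] at h
  obtain ⟨hrow, h⟩ := h
  rw [Classical.not_imp] at h
  obtain ⟨hcol, h⟩ := h
  rw [not_le] at h
  obtain ⟨φ, hφ⟩ := g6_round hN1 G h01
  have h100 : (1 : ℝ) ≤ (g : ℝ) ^ 100 := one_le_pow₀ hgr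
  refine ⟨φ, Finset.mem_filter.2 ⟨Finset.mem_univ _, ?_, ⟨Y, hYc, ?_⟩, ?_, ?_⟩, ?_⟩
  · exact fun y => (hφ y y).2.2 (hdiag y)
  · intro y y' hne
    exact hY y y' fun h0 => hne ((hφ y y').2.2 h0)
  · intro y
    have h1 := g6_sum (a := fun y' => G y y') (b := fun y' => g6G φ y y') hN1
      (Y := Y) (c := 5 * (g : ℝ) ^ 100) (hN ▸ hYc) (fun y' => (hφ y y').2.1) (by
        intro y' hy'
        have h0 : G y y' = 0 := by
          by_contra hne
          exact hy' (hY y y' hne).2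
        show g6G φ y y' ≤ G y y'
        rw [(hφ y y').2.2 h0, h0]) (hrow y)
    linarith
  · intro y'
    have h1 := g6_sum (a := fun y => G y y') (b := fun y => g6G φ y y') hN1
      (Y := Y) (c := 5 * (g : ℝ) ^ 100) (hN ▸ hYc) (fun y => (hφ y y').2.1) (by
        intro y hy
        have h0 : G y y' = 0 := by
          by_contra hne
          exact hy (hY y y' hne).1
        show g6G φ y y' ≤ G y y'
        rw [(hφ y y').2.2 h0, h0]) (hcol y')
    linarith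
  · have h2 : (((g ^ 4000 : ℕ)) : ℝ) = (g : ℝ) ^ 4000 := Nat.cast_pow g 4000
    rw [h2]
    refine h.le.trans ?_
    rw [num_eq_cnt]
    refine Finset.sum_le_sum fun w _ => LarProb.ind_mono fun hw => ?_
    have h3 : (g : ℝ) ^ 29 ≤ (g : ℝ) ^ 30 := pow_le_pow_right₀ hgr (by norm_num)
    refine h3.trans (hw.le.trans ?_)
    refine Finset.sum_le_sum fun y _ => Finset.sum_le_sum fun y' _ => (hφ y y').1

private theorem g6_card (g N : ℕ) :
    (((Finset.univ : Finset (Un g × Un g → Fin (N + 1))).card : ℕ) : ℝ) =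
      ((N : ℝ) + 1) ^ (Fintype.card (Un g × Un g)) := by
  rw [Finset.card_univ, Fintype.card_fun, Fintype.card_fin]
  push_cast
  rfl

private theorem g6_cardU (g : ℕ) :
    ((Fintype.card (Un g × Un g) : ℕ) : ℝ) = 9 * (g : ℝ) ^ 4000 := by
  have h1 : Fintype.card (Un g × Un g) = (3 * (sN g * pN g)) * (3 * (sN g * pN g)) := by
    simp only [Fintype.card_prod, Fintype.card_fin]
  rw [h1]
  push_cast
  rw [sN_cast, pN_cast]
  have h2 : (g : ℝ) ^ 4000 =
      ((g : ℝ) ^ 1050 * (g : ℝ) ^ 950) * ((g : ℝ) ^ 1050 * (g : ℝ) ^ 950) := by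
    rw [← pow_add, ← pow_add]
  rw [h2]
  ring

theorem t6 : ∀ᶠ g : ℕ in Filter.atTop, Pr (wG g) (fun σ => ¬ PG6 (SS σ)) ≤ 1 / 20 := by
  filter_upwards [quadS_tail, LarProb.ev_log (C := 21459) (c := 1 / 2) (by norm_num),
    LarProb.ev_exp_small 0 (c := 1 / 2) (C := 1) (e := 1 / 20) (by norm_num) (by norm_num),
    Filter.eventually_ge_atTop 4] with g hq hlog hexp hg
  have hg0 : 0 < g := by omega
  have hgr : (4 : ℝ) ≤ g := by exact_mod_cast hg
  obtain ⟨N, hN⟩ : ∃ N : ℕ, (N : ℝ) = 3 * (g : ℝ) ^ 1050 :=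
    ⟨3 * g ^ 1050, by rw [Nat.cast_mul, Nat.cast_pow]; rfl⟩
  have hN0 : (0 : ℝ) < N := by
    rw [hN]
    exact mul_pos (by norm_num) (pow_pos (by linarith) _)
  have hN1 : 0 < N := by exact_mod_cast hN0
  have hstep : Pr (wG g) (fun σ => ¬ PG6 (SS σ)) ≤
      (((Finset.univ : Finset (Un g × Un g → Fin (N + 1))).filter
        (fun φ => g6Good φ)).card : ℝ) *
        ((Fintype.card (Pl g) : ℝ) * Real.exp (-(g : ℝ))) ^ (g ^ 4000) := by
    refine (LarProb.Pr_mono (wG_isP hg0) (fun σ h => g6_incl (N := N) (by omega) hN σ h)).trans ?_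
    refine LarProb.Pr_exists_le_card_mul (wG_isP hg0) _
      (fun φ σ => ((g ^ 4000 : ℕ) : ℝ) ≤ LarProb.cnt Finset.univ (fun w => g6Ev φ (σ w))) ?_
    intro φ hφ
    obtain ⟨-, hd, hY, hr, hc⟩ := Finset.mem_filter.1 hφ
    exact LarProb.Pr_many_le (fun _ => wS_isP hg0) (fun _ f => g6Ev φ f)
      (fun _ => hq (g6G φ) (fun y y' => ⟨g6_nonneg φ y y', g6_le_one hN1 φ y y'⟩) hd hY hr hc)
      (g ^ 4000)
  refine hstep.trans ?_
  have hcard : (((Finset.univ : Finset (Un g × Un g → Fin (N + 1))).filter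
        (fun φ => g6Good φ)).card : ℝ) ≤ ((N : ℝ) + 1) ^ (Fintype.card (Un g × Un g)) := by
    rw [← g6_card]
    exact_mod_cast Finset.card_le_card (Finset.filter_subset _ _)
  have hL0 : 0 ≤ Real.log g := Real.log_nonneg (by linarith)
  have hNlog : (N : ℝ) + 1 ≤ Real.exp (1051 * Real.log g) := by
    have h1 : Real.exp (1051 * Real.log g) = (g : ℝ) ^ 1050 * g := by
      rw [← pow_succ, mul_comm, Real.exp_mul, Real.exp_log (by linarith)]
      exact_mod_cast Real.rpow_natCast (g : ℝ) 1051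
    have h2 : (1 : ℝ) ≤ (g : ℝ) ^ 1050 := one_le_pow₀ (by linarith)
    rw [h1, hN]
    nlinarith
  obtain ⟨n, hn⟩ : ∃ n : ℕ, n = Fintype.card (Un g × Un g) := ⟨_, rfl⟩
  obtain ⟨k, hk⟩ : ∃ k : ℕ, k = g ^ 4000 := ⟨_, rfl⟩
  have hkr : (k : ℝ) = (g : ℝ) ^ 4000 := by rw [hk, Nat.cast_pow]
  have hnr : (n : ℝ) = 9 * (k : ℝ) := by rw [hn, g6_cardU, hkr]
  have hk1 : (1 : ℝ) ≤ k := by
    rw [hkr]
    exact one_le_pow₀ (by linarith)
  rw [← hn] at hcard
  rw [← hk]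
  have hA : ((N : ℝ) + 1) ^ n ≤ Real.exp (n * (1051 * Real.log g)) := by
    rw [Real.exp_nat_mul]
    exact pow_le_pow_left₀ (by linarith) hNlog _
  have hB : ((Fintype.card (Pl g) : ℝ) * Real.exp (-(g : ℝ))) ^ k ≤
      Real.exp (k * (12000 * Real.log g - g)) := by
    rw [Real.exp_nat_mul]
    refine pow_le_pow_left₀ (by positivity) (le_of_eq ?_) _
    rw [Fintype.card_fin, mP_cast, sub_eq_add_neg, Real.exp_add]
    congr 1
    rw [mul_comm, Real.exp_mul, Real.exp_log (by linarith)]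
    exact_mod_cast (Real.rpow_natCast (g : ℝ) 12000).symm
  have hB0 : 0 ≤ ((Fintype.card (Pl g) : ℝ) * Real.exp (-(g : ℝ))) ^ k := by positivity
  calc _ ≤ Real.exp (n * (1051 * Real.log g)) * Real.exp (k * (12000 * Real.log g - g)) :=
        mul_le_mul (hcard.trans hA) hB hB0 (Real.exp_pos _).le
    _ = Real.exp (k * (21459 * Real.log g - g)) := by
        rw [← Real.exp_add, hnr]
        congr 1
        ring
    _ ≤ Real.exp (-(1 / 2 * (g : ℝ))) := by
        rw [Real.exp_le_exp]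
        nlinarith
    _ ≤ 1 / 20 := by
        have := hexp
        rwa [pow_zero, mul_one, one_mul] at this

end Pool.Larman
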