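import Pool.Agent.Larman.R1Mem
import Pool.Agent.LarH.Num

/-!
# Small sets meet few common supports

Package LAR R1G7.  If PG7 fails there are a nonempty `Dn`, `d = |Dn| ≤ 2 g^1033`, and `Y` with
`|Y| ≤ g^5 d` and `g^100 d / 2 < ∑_{w ∈ Dn} |S w ∩ Y|`.
For fixed `Dn, Y`: exponential Markov (`LarProb.exp_markov` for `wG g`) with
`F σ = log 2 * ∑_{w ∈ Dn} ∑_{y ∈ supp (σ w)} 1_Y y`; `LarProb.Ex_prod` over the players in `Dn` and
`Ex_two_lin` (with `a = 1_Y`) give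
`Pr ≤ exp (d |Y| / g^950 - log 2 * g^100 d / 2) ≤ exp (- g^100 d / 4)`
because `|Y| / g^950 ≤ g^5 * 2 g^1033 / g^950 = 2 g^88` and `log 2 / 2 ≥ 0.34`.
Union over `Y` for fixed `Dn`: at most `(3 g^2000 + 1)^(g^5 d)` sets (`LarProb.card_small_subsets`
with `k = g^5 d`).  So for fixed `Dn` the probability is
`≤ ((3 g^2000 + 1)^(g^5) exp (-(g^100/4)))^d =: x^d`, `x ≤ exp (-(g^100 / 8))` for large `g`
(`g^5 log (4 g^2000) ≤ g^100 / 8`).  Union over `Dn`: `LarProb.Pr_exists_subset_le` with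
`α = Pl g`: total `≤ 2 g^12000 x ≤ 1/20`.
-/

set_option autoImplicit false

open scoped BigOperators Classical

noncomputable section

namespace Pool.Larman

open Pool.LarProb (IsP Ex Pr PW unif)

private theorem fixed_r1g7 {g : ℕ} (hg : 0 < g) (Dn : Finset (Pl g)) (Y : Finset (Un g)) (c : ℝ)
    (hc : (Y.card : ℝ) / (g : ℝ) ^ 950 - Real.log 2 * ((g : ℝ) ^ 100 / 2) ≤ -c) :
    Pr (wG g) (fun σ => (g : ℝ) ^ 100 * Dn.card / 2 < ∑ w ∈ Dn, ((SS σ w ∩ Y).card : ℝ))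
      ≤ Real.exp (-c) ^ Dn.card := by
  set a : Un g → ℝ := fun y => if y ∈ Y then 1 else 0 with ha
  have ha01 : ∀ y, 0 ≤ a y ∧ a y ≤ 1 := fun y => by
    rw [ha]
    by_cases h : y ∈ Y
    · simp [h]
    · simp [h]
  have hsuma : ∑ y, a y = (Y.card : ℝ) := by
    rw [ha, Finset.sum_ite_mem, Finset.univ_inter, Finset.sum_const, nsmul_eq_mul, mul_one]
  have hcard : ∀ f : Pc g → Fin (pN g), ((supp f ∩ Y).card : ℝ) = ∑ y ∈ supp f, a y := fun f => by
    rw [ha, Finset.sum_ite_mem, Finset.sum_const, nsmul_eq_mul, mul_one]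
  have hlog : 0 < Real.log 2 := Real.log_pos one_lt_two
  have hp := wG_isP hg
  have hM := LarProb.exp_markov hp
    (fun σ => ∑ w ∈ Dn, Real.log 2 * ∑ y ∈ supp (σ w), a y)
    (Real.log 2 * ((g : ℝ) ^ 100 * Dn.card / 2))
  have hEx : Ex (wG g) (fun σ => Real.exp (∑ w ∈ Dn, Real.log 2 * ∑ y ∈ supp (σ w), a y))
      ≤ Real.exp ((Y.card : ℝ) / (g : ℝ) ^ 950) ^ Dn.card := by
    have h1 : Ex (wG g) (fun σ => Real.exp (∑ w ∈ Dn, Real.log 2 * ∑ y ∈ supp (σ w), a y))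
        = Ex (wG g) (fun σ => ∏ w ∈ Dn,
            (fun (_ : Pl g) (f : Pc g → Fin (pN g)) =>
              Real.exp (Real.log 2 * ∑ y ∈ supp f, a y)) w (σ w)) :=
      LarProb.Ex_congr (fun σ => Real.exp_sum _ _)
    have h2 := LarProb.Ex_prod (w := fun _ : Pl g => wS g) (fun _ => wS_isP hg) Dn
      (fun (_ : Pl g) (f : Pc g → Fin (pN g)) => Real.exp (Real.log 2 * ∑ y ∈ supp f, a y))
    have h3 := Ex_two_lin hg a ha01
    rw [hsuma] at h3
    rw [h1]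
    unfold wG
    rw [h2, Finset.prod_const]
    exact pow_le_pow_left₀ (LarProb.Ex_nonneg (wS_isP hg) (fun _ => (Real.exp_pos _).le)) h3 _
  have hmono : Pr (wG g)
      (fun σ => (g : ℝ) ^ 100 * Dn.card / 2 < ∑ w ∈ Dn, ((SS σ w ∩ Y).card : ℝ))
      ≤ Pr (wG g) (fun σ => Real.log 2 * ((g : ℝ) ^ 100 * Dn.card / 2)
        ≤ ∑ w ∈ Dn, Real.log 2 * ∑ y ∈ supp (σ w), a y) := by
    refine LarProb.Pr_mono hp (fun σ hσ => ?_)
    rw [← Finset.mul_sum]
    refine mul_le_mul_of_nonneg_left ?_ hlog.le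
    refine hσ.le.trans (le_of_eq ?_)
    exact Finset.sum_congr rfl (fun w _ => hcard (σ w))
  refine hmono.trans (hM.trans ?_)
  refine (mul_le_mul_of_nonneg_left hEx (Real.exp_pos _).le).trans ?_
  have h4 : Real.exp (-(Real.log 2 * ((g : ℝ) ^ 100 * Dn.card / 2)))
      = Real.exp (-(Real.log 2 * ((g : ℝ) ^ 100 / 2))) ^ Dn.card := by
    rw [← Real.exp_nat_mul]
    congr 1
    ring
  rw [h4, ← mul_pow, ← Real.exp_add]
  refine pow_le_pow_left₀ (Real.exp_pos _).le (Real.exp_le_exp.2 ?_) _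
  linarith

private theorem cardUn_r1g7 (g : ℕ) : Fintype.card (Un g) = 3 * (sN g * pN g) := by
  simp only [Fintype.card_prod, Fintype.card_fin]

private theorem xsmall_r1g7 : ∀ᶠ g : ℕ in Filter.atTop,
    ((Fintype.card (Un g) : ℝ) + 1) ^ (g ^ 5) * Real.exp (-((g : ℝ) ^ 100 / 4))
      ≤ Real.exp (-((g : ℝ) ^ 100 / 8)) := by
  filter_upwards [LarProb.ev_pow_log (C := 2001) (c := 1 / 8) (by norm_num) 5 100 (by norm_num),
    Filter.eventually_ge_atTop 4] with g hlog hg4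
  have hg : (4 : ℝ) ≤ g := by exact_mod_cast hg4
  have hg0 : (0 : ℝ) < g := by linarith
  have h2000 : (1 : ℝ) ≤ (g : ℝ) ^ 2000 := one_le_pow₀ (by linarith)
  have hcard : (Fintype.card (Un g) : ℝ) + 1 ≤ 4 * (g : ℝ) ^ 2000 := by
    rw [cardUn_r1g7]
    push_cast
    rw [sN_cast, pN_cast]
    have : (g : ℝ) ^ 1050 * (g : ℝ) ^ 950 = (g : ℝ) ^ 2000 := by rw [← pow_add]
    rw [this]
    linarith
  have hexp : 4 * (g : ℝ) ^ 2000 ≤ Real.exp (2001 * Real.log g) := by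
    have h1 : Real.exp (2001 * Real.log g) = (g : ℝ) * (g : ℝ) ^ 2000 := by
      have h2 : (2001 : ℝ) * Real.log g = Real.log g + ((2000 : ℕ) : ℝ) * Real.log g := by
        push_cast
        ring
      rw [h2, Real.exp_add, Real.exp_nat_mul, Real.exp_log hg0]
    rw [h1]
    exact mul_le_mul_of_nonneg_right hg (by linarith)
  have h3 : ((Fintype.card (Un g) : ℝ) + 1) ^ (g ^ 5)
      ≤ Real.exp ((g : ℝ) ^ 100 / 8) := by
    calc ((Fintype.card (Un g) : ℝ) + 1) ^ (g ^ 5)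
        ≤ Real.exp (2001 * Real.log g) ^ (g ^ 5) :=
          pow_le_pow_left₀ (by positivity) (hcard.trans hexp) _
      _ = Real.exp (((g ^ 5 : ℕ) : ℝ) * (2001 * Real.log g)) := by rw [← Real.exp_nat_mul]
      _ ≤ Real.exp ((g : ℝ) ^ 100 / 8) := by
          refine Real.exp_le_exp.2 ?_
          rw [Nat.cast_pow]
          linarith
  calc ((Fintype.card (Un g) : ℝ) + 1) ^ (g ^ 5) * Real.exp (-((g : ℝ) ^ 100 / 4))
      ≤ Real.exp ((g : ℝ) ^ 100 / 8) * Real.exp (-((g : ℝ) ^ 100 / 4)) :=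
        mul_le_mul_of_nonneg_right h3 (Real.exp_pos _).le
    _ = Real.exp (-((g : ℝ) ^ 100 / 8)) := by
        rw [← Real.exp_add]
        congr 1
        ring

private theorem final_r1g7 : ∀ᶠ g : ℕ in Filter.atTop,
    (Fintype.card (Pl g) : ℝ) *
      (((Fintype.card (Un g) : ℝ) + 1) ^ (g ^ 5) * Real.exp (-((g : ℝ) ^ 100 / 4))) ≤ 1 / 40 := by
  filter_upwards [xsmall_r1g7,
    LarProb.ev_exp_small 12000 (c := 1 / 8) (C := 1) (e := 1 / 40) (by norm_num) (by norm_num),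
    Filter.eventually_ge_atTop 1] with g hx hsm hg1
  have hg : (1 : ℝ) ≤ g := by exact_mod_cast hg1
  have hcard : (Fintype.card (Pl g) : ℝ) = (g : ℝ) ^ 12000 := by
    rw [Fintype.card_fin, mP_cast]
  have hP : (0 : ℝ) ≤ (g : ℝ) ^ 12000 := pow_nonneg (by linarith) _
  rw [hcard]
  refine (mul_le_mul_of_nonneg_left hx hP).trans ?_
  have h1 : Real.exp (-((g : ℝ) ^ 100 / 8)) ≤ Real.exp (-(1 / 8 * (g : ℝ))) := by
    refine Real.exp_le_exp.2 ?_
    have h2 : (g : ℝ) ≤ (g : ℝ) ^ 100 := by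
      calc (g : ℝ) = (g : ℝ) ^ 1 := (pow_one _).symm
        _ ≤ (g : ℝ) ^ 100 := pow_le_pow_right₀ hg (by norm_num)
    linarith
  refine (mul_le_mul_of_nonneg_left h1 hP).trans ?_
  rw [one_mul] at hsm
  exact hsm

theorem t7g : ∀ᶠ g : ℕ in Filter.atTop, Pr (wG g) (fun σ => ¬ PG7 (SS σ)) ≤ 1 / 20 := by
  filter_upwards [final_r1g7,
    LarProb.ev_pow_le (C := 2) (c := 1 / 20) (by norm_num) 88 100 (by norm_num),
    Filter.eventually_ge_atTop 1] with g hfin hpow hg1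
  have hg : 0 < g := hg1
  have hgr : (1 : ℝ) ≤ g := by exact_mod_cast hg1
  have hg0 : (0 : ℝ) < g := by linarith
  have hp := wG_isP hg
  set x : ℝ := ((Fintype.card (Un g) : ℝ) + 1) ^ (g ^ 5) * Real.exp (-((g : ℝ) ^ 100 / 4)) with hx
  have hx0 : 0 ≤ x := by
    rw [hx]
    exact mul_nonneg (pow_nonneg (by positivity) _) (Real.exp_pos _).le
  have hlog2 : (0.69 : ℝ) < Real.log 2 := lt_trans (by norm_num) Real.log_two_gt_d9
  have h100 : (0 : ℝ) ≤ (g : ℝ) ^ 100 := pow_nonneg hg0.le _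
  have hS : ∀ J : Finset (Pl g), J.Nonempty →
      Pr (wG g) (fun σ => (J.card : ℝ) ≤ 2 * (g : ℝ) ^ 1033 ∧
        ∃ Y : Finset (Un g), (Y.card : ℝ) ≤ (g : ℝ) ^ 5 * J.card ∧
          (g : ℝ) ^ 100 * J.card / 2 < ∑ w ∈ J, ((SS σ w ∩ Y).card : ℝ)) ≤ x ^ J.card := by
    intro J _
    by_cases hJ : (J.card : ℝ) ≤ 2 * (g : ℝ) ^ 1033
    · have hfix : ∀ Y ∈ (Finset.univ : Finset (Finset (Un g))).filter
          (fun Y => Y.card ≤ g ^ 5 * J.card),
          Pr (wG g) (fun σ => (g : ℝ) ^ 100 * J.card / 2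
            < ∑ w ∈ J, ((SS σ w ∩ Y).card : ℝ))
            ≤ Real.exp (-((g : ℝ) ^ 100 / 4)) ^ J.card := by
        intro Y hY
        have hYc : (Y.card : ℝ) ≤ (g : ℝ) ^ 5 * J.card := by
          have h1 : Y.card ≤ g ^ 5 * J.card := (Finset.mem_filter.1 hY).2
          have h2 : (Y.card : ℝ) ≤ ((g ^ 5 * J.card : ℕ) : ℝ) := by exact_mod_cast h1
          rwa [Nat.cast_mul, Nat.cast_pow] at h2
        refine fixed_r1g7 hg J Y _ ?_
        have h3 : (Y.card : ℝ) / (g : ℝ) ^ 950 ≤ 2 * (g : ℝ) ^ 88 := by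
          rw [div_le_iff₀ (pow_pos hg0 _)]
          calc (Y.card : ℝ) ≤ (g : ℝ) ^ 5 * J.card := hYc
            _ ≤ (g : ℝ) ^ 5 * (2 * (g : ℝ) ^ 1033) :=
              mul_le_mul_of_nonneg_left hJ (pow_nonneg hg0.le _)
            _ = 2 * ((g : ℝ) ^ 5 * (g : ℝ) ^ 1033) := by ring
            _ = 2 * ((g : ℝ) ^ 88 * (g : ℝ) ^ 950) := by rw [← pow_add, ← pow_add]
            _ = 2 * (g : ℝ) ^ 88 * (g : ℝ) ^ 950 := by ring
        have h4 : (0.69 : ℝ) * ((g : ℝ) ^ 100 / 2) ≤ Real.log 2 * ((g : ℝ) ^ 100 / 2) :=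
          mul_le_mul_of_nonneg_right hlog2.le (by linarith)
        linarith
      have hun := LarProb.Pr_exists_le_card_mul hp
        ((Finset.univ : Finset (Finset (Un g))).filter (fun Y => Y.card ≤ g ^ 5 * J.card))
        (fun Y σ => (g : ℝ) ^ 100 * J.card / 2 < ∑ w ∈ J, ((SS σ w ∩ Y).card : ℝ)) hfix
      have hcount : ((((Finset.univ : Finset (Finset (Un g))).filter
          (fun Y => Y.card ≤ g ^ 5 * J.card)).card : ℕ) : ℝ)
          ≤ (((Fintype.card (Un g) : ℝ) + 1) ^ (g ^ 5)) ^ J.card := by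
        have h5 := LarProb.card_small_subsets (Un g) (g ^ 5 * J.card)
        have h6 : ((((Finset.univ : Finset (Finset (Un g))).filter
          (fun Y => Y.card ≤ g ^ 5 * J.card)).card : ℕ) : ℝ)
          ≤ (((Fintype.card (Un g) + 1) ^ (g ^ 5 * J.card) : ℕ) : ℝ) := by exact_mod_cast h5
        refine h6.trans (le_of_eq ?_)
        rw [← pow_mul, Nat.cast_pow, Nat.cast_add, Nat.cast_one]
      have hmono : Pr (wG g) (fun σ => (J.card : ℝ) ≤ 2 * (g : ℝ) ^ 1033 ∧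
          ∃ Y : Finset (Un g), (Y.card : ℝ) ≤ (g : ℝ) ^ 5 * J.card ∧
            (g : ℝ) ^ 100 * J.card / 2 < ∑ w ∈ J, ((SS σ w ∩ Y).card : ℝ))
          ≤ Pr (wG g) (fun σ => ∃ Y ∈ (Finset.univ : Finset (Finset (Un g))).filter
            (fun Y => Y.card ≤ g ^ 5 * J.card),
            (g : ℝ) ^ 100 * J.card / 2 < ∑ w ∈ J, ((SS σ w ∩ Y).card : ℝ)) := by
        refine LarProb.Pr_mono hp ?_
        rintro σ ⟨_, Y, hY, hlt⟩
        refine ⟨Y, ?_, hlt⟩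
        rw [Finset.mem_filter]
        refine ⟨Finset.mem_univ _, ?_⟩
        have h7 : (Y.card : ℝ) ≤ ((g ^ 5 * J.card : ℕ) : ℝ) := by
          rw [Nat.cast_mul, Nat.cast_pow]
          exact hY
        exact_mod_cast h7
      refine hmono.trans (hun.trans ?_)
      rw [hx, mul_pow]
      exact mul_le_mul_of_nonneg_right hcount (pow_nonneg (Real.exp_pos _).le _)
    · refine le_trans (le_of_eq ?_) (pow_nonneg hx0 _)
      exact LarProb.Pr_false (fun σ h => hJ h.1)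
  have hmain := LarProb.Pr_exists_subset_le hp (Pl g)
    (fun (J : Finset (Pl g)) σ => (J.card : ℝ) ≤ 2 * (g : ℝ) ^ 1033 ∧
        ∃ Y : Finset (Un g), (Y.card : ℝ) ≤ (g : ℝ) ^ 5 * J.card ∧
          (g : ℝ) ^ 100 * J.card / 2 < ∑ w ∈ J, ((SS σ w ∩ Y).card : ℝ)) hx0
    (hfin.trans (by norm_num)) hS
  refine le_trans (LarProb.Pr_mono hp ?_) (hmain.trans ?_)
  · intro σ hσ
    unfold PG7 at hσ
    push Not at hσ
    obtain ⟨Dn, Y, hne, hcd, hY, hlt⟩ := hσ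
    exact ⟨Dn, hne, hcd, Y, hY, hlt⟩
  · linarith

end Pool.Larman
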