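import Pool.Agent.Larman.R1Mem
import Pool.Agent.LarH.Num

/-!
# Few players contain many of a given family of pairs

Package LAR R1G8.  Fix `Gam` (pairs of distinct units, at most `8008 g^2000` of them).  For one player
the expected number of `e ∈ Gam` with both units in the support is `≤ 8008 g^2000 / g^1900`
(`Pr_mem2`), so by `LarProb.markov` the probability of `g^101 < number` is `≤ p := 8008 / g`.
`LarProb.count_coord` with `s = univ`, `t = g^12000 / 400`: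
`2 p m + t = 16016 g^12000 / g + g^12000 / 400 ≤ g^12000 / 200` for `g ≥ 16016 * 400`, so
`Pr (g^12000 / 200 < num ...) ≤ exp (- log 2 * g^12000 / 400)`.
Union over `Gam`: `LarProb.card_small_subsets` with `α = Un g × Un g` (`9 g^4000` elements) and
`k = 8008 g^2000`: `(9 g^4000 + 1)^(8008 g^2000) ≤ exp (8008 g^2000 log (10 g^4000)) ≤ exp (g^2002)`.
-/

set_option autoImplicit false

open scoped BigOperators Classical

noncomputable section

namespace Pool.Larman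

open Pool.LarProb (IsP Ex Pr PW unif)

/-- one player: Markov -/
private theorem g8_one {g : ℕ} (hg : 0 < g) (Gam : Finset (Un g × Un g))
    (hd : ∀ e ∈ Gam, e.1 ≠ e.2) (hc : (Gam.card : ℝ) ≤ 8008 * (g : ℝ) ^ 2000) :
    Pr (wS g) (fun f => (g : ℝ) ^ 101 <
      ((Gam.filter (fun e => e.1 ∈ supp f ∧ e.2 ∈ supp f)).card : ℝ)) ≤ 8008 / g := by
  have hgr : (0 : ℝ) < g := by exact_mod_cast hg
  have h0 : ∀ f : Pc g → Fin (pN g),
      ((Gam.filter (fun e => e.1 ∈ supp f ∧ e.2 ∈ supp f)).card : ℝ) =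
        ∑ e ∈ Gam, LarProb.ind (e.1 ∈ supp f ∧ e.2 ∈ supp f) := by
    intro f
    have h := LarProb.cnt_eq_card Gam (fun e => e.1 ∈ supp f ∧ e.2 ∈ supp f)
    refine Eq.trans ?_ h.symm
    congr!
  have h1 : Ex (wS g) (fun f => ∑ e ∈ Gam, LarProb.ind (e.1 ∈ supp f ∧ e.2 ∈ supp f)) ≤
      (Gam.card : ℝ) * (1 / (g : ℝ) ^ 1900) := by
    rw [LarProb.Ex_sum]
    refine (Finset.sum_le_sum (fun e he => Pr_mem2 hg e.1 e.2 (hd e he))).trans (le_of_eq ?_)
    rw [Finset.sum_const, nsmul_eq_mul]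
  have hA : (0 : ℝ) < (g : ℝ) ^ 1900 := pow_pos hgr _
  have hB : (0 : ℝ) < (g : ℝ) ^ 100 := pow_pos hgr _
  have hX : (g : ℝ) ^ 2000 = (g : ℝ) ^ 1900 * (g : ℝ) ^ 100 := by rw [← pow_add]
  have hY : (g : ℝ) ^ 101 = (g : ℝ) ^ 100 * g := pow_succ _ _
  have h2 : (Gam.card : ℝ) * (1 / (g : ℝ) ^ 1900) ≤ 8008 * (g : ℝ) ^ 100 := by
    rw [mul_one_div, div_le_iff₀ hA]
    refine hc.trans (le_of_eq ?_)
    rw [hX]
    ring
  have h3 := LarProb.markov (wS_isP hg)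
    (F := fun f => ∑ e ∈ Gam, LarProb.ind (e.1 ∈ supp f ∧ e.2 ∈ supp f))
    (fun f => Finset.sum_nonneg (fun e _ => LarProb.ind_nonneg _)) (pow_pos hgr 101)
  refine (LarProb.Pr_mono (wS_isP hg) (fun f h => ?_)).trans (h3.trans ?_)
  · rw [h0 f] at h
    exact h.le
  · rw [div_le_div_iff₀ (pow_pos hgr 101) hgr, hY]
    have h4 := mul_le_mul_of_nonneg_right (h1.trans h2) hgr.le
    refine h4.trans (le_of_eq ?_)
    ring

/-- all players -/
private theorem g8_all {g : ℕ} (hg : 6406400 ≤ g) (Gam : Finset (Un g × Un g))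
    (hd : ∀ e ∈ Gam, e.1 ≠ e.2) (hc : (Gam.card : ℝ) ≤ 8008 * (g : ℝ) ^ 2000) :
    Pr (wG g) (fun σ => (g : ℝ) ^ 12000 / 200 < num (fun u => (g : ℝ) ^ 101 <
      ((Gam.filter (fun e => e.1 ∈ SS σ u ∧ e.2 ∈ SS σ u)).card : ℝ))) ≤
      Real.exp (-(Real.log 2 * ((g : ℝ) ^ 12000 / 400))) := by
  have hg0 : 0 < g := by omega
  have hgr : (0 : ℝ) < g := by exact_mod_cast hg0
  have hgb : (6406400 : ℝ) ≤ g := by exact_mod_cast hg
  have h := LarProb.count_coord (I := Pl g) (A := fun _ => Pc g → Fin (pN g))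
    (w := fun _ => wS g) (fun _ => wS_isP hg0) Finset.univ
    (fun _ f => (g : ℝ) ^ 101 <
      ((Gam.filter (fun e => e.1 ∈ supp f ∧ e.2 ∈ supp f)).card : ℝ))
    (p := 8008 / g) (t := (g : ℝ) ^ 12000 / 400) (fun _ _ => g8_one hg0 Gam hd hc)
  refine (LarProb.Pr_mono (wG_isP hg0) (fun σ hσ => ?_)).trans h
  have hcard : ((Finset.univ : Finset (Pl g)).card : ℝ) = (g : ℝ) ^ 12000 := by
    rw [Finset.card_univ, Fintype.card_fin, mP_cast]
  rw [hcard]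
  rw [num_eq_cnt] at hσ
  refine le_trans ?_ hσ.le
  have hM : (0 : ℝ) < (g : ℝ) ^ 12000 := pow_pos hgr _
  set M : ℝ := (g : ℝ) ^ 12000
  have h1 : (8008 : ℝ) / g ≤ 1 / 800 := by
    rw [div_le_div_iff₀ hgr (by norm_num)]
    linarith
  have h2 : 2 * (8008 / (g : ℝ)) * M ≤ 2 * (1 / 800) * M :=
    mul_le_mul_of_nonneg_right (by linarith) hM.le
  linarith

private theorem g8_num {g k : ℕ} (hg : 30000000000 ≤ g) (hk : (k : ℝ) = 8008 * (g : ℝ) ^ 2000) :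
    ((9 * ((g : ℝ) ^ 2000 * (g : ℝ) ^ 2000) + 1) ^ k) *
      Real.exp (-(Real.log 2 * ((g : ℝ) ^ 12000 / 400))) ≤ 1 / 20 := by
  have hgr : (30000000000 : ℝ) ≤ g := by exact_mod_cast hg
  have hg1 : (1 : ℝ) ≤ g := by linarith
  have hg0 : (0 : ℝ) ≤ g := by linarith
  have hX1 : (1 : ℝ) ≤ (g : ℝ) ^ 2000 := one_le_pow₀ hg1
  have h1 : 9 * ((g : ℝ) ^ 2000 * (g : ℝ) ^ 2000) + 1 ≤ Real.exp (4001 * g) := by
    have h3 : 9 * ((g : ℝ) ^ 2000 * (g : ℝ) ^ 2000) + 1 ≤ (g : ℝ) ^ 4001 := by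
      have h4 : (g : ℝ) ^ 4001 = (g : ℝ) ^ 2000 * (g : ℝ) ^ 2000 * g := by
        rw [pow_succ (g : ℝ) 4000, ← pow_add]
      rw [h4]
      have h5 : (1 : ℝ) ≤ (g : ℝ) ^ 2000 * (g : ℝ) ^ 2000 := one_le_mul_of_one_le_of_one_le hX1 hX1
      have h6 : (g : ℝ) ^ 2000 * (g : ℝ) ^ 2000 * 10 ≤ (g : ℝ) ^ 2000 * (g : ℝ) ^ 2000 * g :=
        mul_le_mul_of_nonneg_left (by linarith) (by linarith)
      linarith
    have h5 : (g : ℝ) ≤ Real.exp g := by
      have := Real.add_one_le_exp (g : ℝ)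
      linarith
    have h6 : (g : ℝ) ^ 4001 ≤ Real.exp g ^ 4001 := pow_le_pow_left₀ hg0 h5 _
    have h7 : Real.exp (4001 * g) = Real.exp g ^ 4001 := by
      rw [← Real.exp_nat_mul]
      norm_num
    rw [h7]
    exact h3.trans h6
  have h2 : (9 * ((g : ℝ) ^ 2000 * (g : ℝ) ^ 2000) + 1) ^ k ≤ Real.exp (k * (4001 * g)) := by
    rw [Real.exp_nat_mul]
    exact pow_le_pow_left₀ (by positivity) h1 _
  refine (mul_le_mul_of_nonneg_right h2 (Real.exp_pos _).le).trans ?_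
  rw [← Real.exp_add, hk]
  have h3 : (g : ℝ) ^ 2000 * g * g ≤ (g : ℝ) ^ 12000 := by
    have h4 : (g : ℝ) ^ 2000 * g * g = (g : ℝ) ^ 2002 := by
      rw [← pow_succ, ← pow_succ]
    rw [h4]
    exact pow_le_pow_right₀ hg1 (by norm_num)
  have hlog : (1 / 2 : ℝ) < Real.log 2 := by
    have := Real.log_two_gt_d9
    linarith
  set X : ℝ := (g : ℝ) ^ 2000
  set M : ℝ := (g : ℝ) ^ 12000
  have hM0 : 0 ≤ M := by
    have : 0 ≤ X * g * g := by positivity
    linarith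
  have h4 : 8008 * X * (4001 * g) + -(Real.log 2 * (M / 400)) ≤ -19 := by
    have h5 : 1 / 2 * (M / 400) ≤ Real.log 2 * (M / 400) :=
      mul_le_mul_of_nonneg_right hlog.le (by positivity)
    have hXg : 1 ≤ X * g := one_le_mul_of_one_le_of_one_le hX1 hg1
    have h6 : X * g * 30000000000 ≤ X * g * g :=
      mul_le_mul_of_nonneg_left hgr (by linarith)
    linarith
  have h6 : Real.exp (-19) ≤ 1 / 20 := by
    rw [Real.exp_neg, ← one_div]
    have h7 := Real.add_one_le_exp (19 : ℝ)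
    exact one_div_le_one_div_of_le (by norm_num) (by linarith)
  exact (Real.exp_le_exp.mpr h4).trans h6

theorem t8 : ∀ᶠ g : ℕ in Filter.atTop, Pr (wG g) (fun σ => ¬ PG8 (SS σ)) ≤ 1 / 20 := by
  filter_upwards [Filter.eventually_ge_atTop 30000000000] with g hg
  have hg0 : 0 < g := by omega
  obtain ⟨k, hk⟩ : ∃ k : ℕ, (k : ℝ) = 8008 * (g : ℝ) ^ 2000 :=
    ⟨8008 * g ^ 2000, by rw [Nat.cast_mul, Nat.cast_pow]; rfl⟩
  set q : ℝ := Real.exp (-(Real.log 2 * ((g : ℝ) ^ 12000 / 400))) with hq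
  set s : Finset (Finset (Un g × Un g)) :=
    (Finset.univ : Finset (Finset (Un g × Un g))).filter (fun Y => Y.card ≤ k) with hs
  have h1 := LarProb.Pr_exists_le_card_mul (wG_isP hg0) s
    (fun (Gam : Finset (Un g × Un g)) (σ : Pl g → Pc g → Fin (pN g)) =>
      (∀ e ∈ Gam, e.1 ≠ e.2) ∧ (g : ℝ) ^ 12000 / 200 < num (fun u => (g : ℝ) ^ 101 <
      ((Gam.filter (fun e => e.1 ∈ SS σ u ∧ e.2 ∈ SS σ u)).card : ℝ))) (q := q) (by
      intro Gam hGam
      by_cases hd : ∀ e ∈ Gam, e.1 ≠ e.2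
      · refine (LarProb.Pr_mono (wG_isP hg0) (fun σ hσ => hσ.2)).trans
          (g8_all (le_trans (by norm_num) hg) Gam hd ?_)
        have h2 : Gam.card ≤ k := (Finset.mem_filter.1 hGam).2
        rw [← hk]
        exact_mod_cast h2
      · rw [LarProb.Pr_false (fun σ hσ => hd hσ.1)]
        exact (Real.exp_pos _).le)
  have h2 : Pr (wG g) (fun σ => ¬ PG8 (SS σ)) ≤ Pr (wG g) (fun σ => ∃ Gam ∈ s,
      (∀ e ∈ Gam, e.1 ≠ e.2) ∧ (g : ℝ) ^ 12000 / 200 < num (fun u => (g : ℝ) ^ 101 <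
      ((Gam.filter (fun e => e.1 ∈ SS σ u ∧ e.2 ∈ SS σ u)).card : ℝ))) := by
    refine LarProb.Pr_mono (wG_isP hg0) (fun σ hσ => ?_)
    unfold PG8 at hσ
    push Not at hσ
    obtain ⟨Gam, hd, hc, hn⟩ := hσ
    refine ⟨Gam, ?_, hd, hn⟩
    rw [hs, Finset.mem_filter]
    refine ⟨Finset.mem_univ _, ?_⟩
    rw [← hk] at hc
    exact_mod_cast hc
  refine h2.trans (h1.trans ?_)
  have h3 : (s.card : ℝ) ≤ (9 * ((g : ℝ) ^ 2000 * (g : ℝ) ^ 2000) + 1) ^ k := by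
    have h4 : s.card ≤ (Fintype.card (Un g × Un g) + 1) ^ k := by
      have h5 := LarProb.card_small_subsets (Un g × Un g) k
      convert h5
    have h5 : (s.card : ℝ) ≤ ((Fintype.card (Un g × Un g) : ℝ) + 1) ^ k := by exact_mod_cast h4
    have h6 : (Fintype.card (Un g) : ℝ) = 3 * (g : ℝ) ^ 2000 := by
      rw [Fintype.card_prod, Fintype.card_prod, Fintype.card_fin, Fintype.card_fin,
        Fintype.card_fin, Nat.cast_mul, Nat.cast_mul, sN_cast, pN_cast, ← pow_add]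
      norm_num
    have h7 : (Fintype.card (Un g × Un g) : ℝ) = 9 * ((g : ℝ) ^ 2000 * (g : ℝ) ^ 2000) := by
      rw [Fintype.card_prod, Nat.cast_mul, h6]
      ring
    rw [h7] at h5
    exact h5
  exact (mul_le_mul_of_nonneg_right h3 (Real.exp_pos _).le).trans (g8_num hg hk)

end Pool.Larman
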