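import Pool.Agent.Larman.R1G1
import Pool.Agent.Larman.R1G2
import Pool.Agent.Larman.R1G3
import Pool.Agent.Larman.R1G5
import Pool.Agent.Larman.R1G6
import Pool.Agent.Larman.R1G7
import Pool.Agent.Larman.R1G8

/-!
# Existence of good supports (T1)
-/

set_option autoImplicit false

open scoped BigOperators Classical

noncomputable section

namespace Pool.Larman

open Pool.LarProb (IsP Ex Pr PW unif)

/-- **T1**: for all large `g` there are supports with all geometric properties -/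
theorem exists_geo : ∀ᶠ g : ℕ in Filter.atTop,
    ∃ σ : Pl g → Fin 3 × Fin (sN g) → Fin (pN g), Geo (fun u => supp (σ u)) := by
  filter_upwards [t1z, t2, t3a, t3b, t3c, t5, t6, t7g, t8, Filter.eventually_gt_atTop 0] with g
    h1 h2 h3 h4 h5 h6 h7 h8 h9 hg
  have hP := wG_isP hg
  set P : Fin 9 → (Pl g → Pc g → Fin (pN g)) → Prop := fun j σ =>
    (![PG1z (SS σ), PG2 (SS σ), PG3a (SS σ), PG3b (SS σ), PG3c (SS σ), PG5 (SS σ), PG6 (SS σ),
      PG7 (SS σ), PG8 (SS σ)] : Fin 9 → Prop) j with hPd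
  have hq : ∀ j ∈ (Finset.univ : Finset (Fin 9)), Pr (wG g) (fun σ => ¬ P j σ) ≤ 1 / 20 := by
    intro j _
    fin_cases j
    · exact h1
    · exact h2
    · exact h3
    · exact h4
    · exact h5
    · exact h6
    · exact h7
    · exact h8
    · exact h9
  have hu := LarProb.Pr_exists_le_card_mul hP (Finset.univ : Finset (Fin 9))
    (fun j σ => ¬ P j σ) hq
  rw [Finset.card_univ, Fintype.card_fin] at hu
  obtain ⟨σ, hσ⟩ := LarProb.exists_not_of_Pr_lt_one hP
    (S := fun σ => ∃ j ∈ (Finset.univ : Finset (Fin 9)), ¬ P j σ) (by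
      refine lt_of_le_of_lt hu ?_
      norm_num)
  push Not at hσ
  exact ⟨σ, Geo_of (pg1 σ) (hσ 0 (Finset.mem_univ _)) (hσ 1 (Finset.mem_univ _))
    (hσ 2 (Finset.mem_univ _)) (hσ 3 (Finset.mem_univ _)) (hσ 4 (Finset.mem_univ _))
    (hσ 5 (Finset.mem_univ _)) (hσ 6 (Finset.mem_univ _)) (hσ 7 (Finset.mem_univ _))
    (hσ 8 (Finset.mem_univ _))⟩

end Pool.Larman
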