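import Pool.Agent.Larman.R1Base
import Pool.Agent.LarH.ProbMore

/-!
# One random support: points, pairs, triples, linear forms

Package LAR R1Mem.  `wS g` is a product weight: independent uniform values at the places `Pc g`.

* `Pr_mem`: `y ∈ supp f` iff `f (y.1, y.2.1) = y.2.2` (`mem_supp`); use `LarProb.Pr_coord` and the
  fact that a uniform variable on `Fin (pN g)` takes a given value with probability `1 / pN g`,
  `pN_cast`.
* `Pr_mem2`: if the places of `y` and `y'` are equal the event is empty (`y ≠ y'`), otherwise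
  `LarProb.Ex_prod` over the two places gives `(1 / pN)^2`.
* `Pr_three`: if `3 ≤ |supp f ∩ Y|` then there are three distinct `y1, y2, y3 ∈ Y` in `supp f`
  (`Finset.two_lt_card`); they sit at three different places (a support has one unit per place), so
  the probability is `(1 / pN)^3`; union bound over `Y ×ˢ Y ×ˢ Y` (`LarProb.Pr_exists_le_card_mul`).
* `Ex_two_lin`: by `sum_supp` the exponent is a sum over the places, `Real.exp_sum`,
  `LarProb.Ex_prod` over all places; at one place `c`: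
  `E exp(log 2 * a(c, x)) ≤ E (1 + a(c,x)) = 1 + (∑_x a(c,x)) / pN ≤ exp ((∑_x a(c,x)) / pN)`
  by `LarProb.exp_log_two_mul_le`.  The sum over the places and `x` is the sum over the units.
* `linS_tail`: `LarProb.exp_markov` for `F f = log 2 * ∑_{y ∈ supp f} a y` and `Ex_two_lin`;
  `exp (mu - log 2 * (4 mu + t)) ≤ exp (- log 2 * t)` since `mu ≥ 0`, `log 2 ≥ 1/4`
  (`Real.log_two_gt_d9`).
-/

set_option autoImplicit false

open scoped BigOperators Classical

noncomputable section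

namespace Pool.Larman

open Pool.LarProb (IsP Ex Pr PW unif)

private theorem R1Mem_unif {g : ℕ} (_hg : 0 < g) (z : Fin (pN g)) :
    Pr (unif (Fin (pN g))) (fun a => a = z) = 1 / (g : ℝ) ^ 950 := by
  have h1 : ∀ a : Fin (pN g), unif (Fin (pN g)) a * LarProb.ind (a = z) =
      if a = z then 1 / (pN g : ℝ) else 0 := by
    intro a
    unfold unif
    rw [Fintype.card_fin]
    by_cases h : a = z
    · rw [LarProb.ind_true h, if_pos h, mul_one]
    · rw [LarProb.ind_false h, if_neg h, mul_zero]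
  unfold Pr Ex
  rw [Finset.sum_congr rfl (fun a _ => h1 a), Finset.sum_ite_eq' Finset.univ z,
    if_pos (Finset.mem_univ z), pN_cast]

private theorem R1Mem_all {g : ℕ} (hg : 0 < g) (T : Finset (Un g)) :
    Pr (wS g) (fun f => ∀ y ∈ T, y ∈ supp f) ≤ (1 / (g : ℝ) ^ 950) ^ T.card := by
  have hq : (0 : ℝ) ≤ (1 / (g : ℝ) ^ 950) ^ T.card := by positivity
  set pl : Un g → Pc g := fun y => (y.1, y.2.1) with hpl
  by_cases hinj : Set.InjOn pl (T : Set (Un g))
  · have hc : (T.image pl).card = T.card := Finset.card_image_of_injOn hinj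
    rw [← hc]
    have h1 : ∀ f : Pc g → Fin (pN g), (∀ y ∈ T, y ∈ supp f) →
        ∀ c ∈ T.image pl, ∀ y ∈ T, pl y = c → f c = y.2.2 := by
      intro f hf c _ y hy hyc
      rw [← hyc]
      exact mem_supp.1 (hf y hy)
    refine (LarProb.Pr_mono (wS_isP hg) h1).trans ?_
    refine LarProb.Pr_forall_le (w := fun _ : Pc g => unif (Fin (pN g)))
      (fun _ => unifP_isP hg) (T.image pl)
      (fun c a => ∀ y ∈ T, pl y = c → a = y.2.2) ?_
    intro c hc
    obtain ⟨y, hy, hyc⟩ := Finset.mem_image.1 hc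
    refine (LarProb.Pr_mono (unifP_isP hg) (T := fun a => a = y.2.2) ?_).trans
      (R1Mem_unif hg _).le
    intro a ha
    exact ha y hy hyc
  · rw [LarProb.Pr_false]
    · exact hq
    · intro f hf
      apply hinj
      intro y hy y' hy' he
      have h1 := mem_supp.1 (hf y hy)
      have h2 := mem_supp.1 (hf y' hy')
      have he' : (y.1, y.2.1) = (y'.1, y'.2.1) := he
      rw [he', h2] at h1
      rw [Prod.mk.injEq] at he'
      exact Prod.ext he'.1 (Prod.ext he'.2 h1.symm)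

theorem Pr_mem {g : ℕ} (hg : 0 < g) (y : Un g) :
    Pr (wS g) (fun f => y ∈ supp f) = 1 / (g : ℝ) ^ 950 := by
  rw [LarProb.Pr_congr (fun f => mem_supp (f := f) (y := y))]
  exact (LarProb.Pr_coord (w := fun _ : Pc g => unif (Fin (pN g)))
    (fun _ => unifP_isP hg) (y.1, y.2.1) (fun a => a = y.2.2)).trans (R1Mem_unif hg _)

theorem Pr_mem2 {g : ℕ} (hg : 0 < g) (y y' : Un g) (h : y ≠ y') :
    Pr (wS g) (fun f => y ∈ supp f ∧ y' ∈ supp f) ≤ 1 / (g : ℝ) ^ 1900 := by
  have h1 := R1Mem_all hg ({y, y'} : Finset (Un g))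
  rw [Finset.card_pair h, one_div, ← inv_pow, ← pow_mul, inv_pow, ← one_div] at h1
  refine le_trans (LarProb.Pr_mono (wS_isP hg) ?_) h1
  intro f hf z hz
  rw [Finset.mem_insert, Finset.mem_singleton] at hz
  rcases hz with rfl | rfl
  · exact hf.1
  · exact hf.2

theorem Pr_three {g : ℕ} (hg : 0 < g) (Y : Finset (Un g)) :
    Pr (wS g) (fun f => 3 ≤ (supp f ∩ Y).card) ≤ (Y.card : ℝ) ^ 3 / (g : ℝ) ^ 2850 := by
  have hq : (0 : ℝ) ≤ 1 / (g : ℝ) ^ 2850 := by positivity
  have h1 : ∀ f : Pc g → Fin (pN g), 3 ≤ (supp f ∩ Y).card →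
      ∃ j ∈ Y ×ˢ (Y ×ˢ Y), (j.1 ≠ j.2.1 ∧ j.1 ≠ j.2.2 ∧ j.2.1 ≠ j.2.2) ∧
        ∀ y ∈ ({j.1, j.2.1, j.2.2} : Finset (Un g)), y ∈ supp f := by
    intro f hf
    obtain ⟨a, b, c, ha, hb, hc, hab, hac, hbc⟩ := Finset.two_lt_card_iff.1 hf
    rw [Finset.mem_inter] at ha hb hc
    refine ⟨(a, b, c), ?_, ⟨hab, hac, hbc⟩, ?_⟩
    · simp only [Finset.mem_product]
      exact ⟨ha.2, hb.2, hc.2⟩
    · intro y hy
      simp only [Finset.mem_insert, Finset.mem_singleton] at hy
      rcases hy with rfl | rfl | rfl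
      · exact ha.1
      · exact hb.1
      · exact hc.1
  refine (LarProb.Pr_mono (wS_isP hg) h1).trans ?_
  refine (LarProb.Pr_exists_le_card_mul (wS_isP hg) (Y ×ˢ (Y ×ˢ Y)) _
    (q := 1 / (g : ℝ) ^ 2850) ?_).trans (le_of_eq ?_)
  · intro j _
    by_cases hj : j.1 ≠ j.2.1 ∧ j.1 ≠ j.2.2 ∧ j.2.1 ≠ j.2.2
    · have h2 := R1Mem_all hg ({j.1, j.2.1, j.2.2} : Finset (Un g))
      rw [Finset.card_eq_three.2 ⟨j.1, j.2.1, j.2.2, hj.1, hj.2.1, hj.2.2, rfl⟩,
        one_div, ← inv_pow, ← pow_mul, inv_pow, ← one_div] at h2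
      exact le_trans (LarProb.Pr_mono (wS_isP hg) (fun f hf => hf.2)) h2
    · rw [LarProb.Pr_false (fun f hf => hj hf.1)]
      exact hq
  · rw [Finset.card_product, Finset.card_product]
    push_cast
    ring

theorem Ex_two_lin {g : ℕ} (hg : 0 < g) (a : Un g → ℝ) (ha : ∀ y, 0 ≤ a y ∧ a y ≤ 1) :
    Ex (wS g) (fun f => Real.exp (Real.log 2 * ∑ y ∈ supp f, a y))
      ≤ Real.exp ((∑ y, a y) / (g : ℝ) ^ 950) := by
  have h1 : ∀ f : Pc g → Fin (pN g), Real.exp (Real.log 2 * ∑ y ∈ supp f, a y) =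
      ∏ c : Pc g, Real.exp (Real.log 2 * a (c.1, c.2, f c)) := by
    intro f
    rw [sum_supp, Finset.mul_sum, Real.exp_sum]
  rw [LarProb.Ex_congr h1]
  have h2 := LarProb.Ex_prod_univ (fun _ : Pc g => unif (Fin (pN g)))
    (fun c x => Real.exp (Real.log 2 * a (c.1, c.2, x)))
  refine (le_of_eq h2).trans ?_
  have h3 : ∀ c : Pc g, Ex (unif (Fin (pN g)))
      (fun x => Real.exp (Real.log 2 * a (c.1, c.2, x))) ≤
      Real.exp ((∑ x, a (c.1, c.2, x)) / (g : ℝ) ^ 950) := by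
    intro c
    refine (LarProb.Ex_mono (unifP_isP hg) (G := fun x => 1 + a (c.1, c.2, x))
      (fun x => LarProb.exp_log_two_mul_le (ha _).1 (ha _).2)).trans ?_
    rw [LarProb.Ex_add, LarProb.Ex_const (unifP_isP hg)]
    have h4 : Ex (unif (Fin (pN g))) (fun x => a (c.1, c.2, x)) =
        (∑ x, a (c.1, c.2, x)) / (g : ℝ) ^ 950 := by
      unfold Ex unif
      rw [← Finset.mul_sum, Fintype.card_fin, pN_cast]
      ring
    rw [h4]
    have := Real.add_one_le_exp ((∑ x, a (c.1, c.2, x)) / (g : ℝ) ^ 950)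
    linarith
  refine (Finset.prod_le_prod (fun c _ => LarProb.Ex_nonneg (unifP_isP hg)
    (fun x => (Real.exp_pos _).le)) (fun c _ => h3 c)).trans (le_of_eq ?_)
  rw [← Real.exp_sum, ← Finset.sum_div]
  congr 2
  rw [Fintype.sum_prod_type (f := fun y : Un g => a y), Fintype.sum_prod_type]
  refine Finset.sum_congr rfl (fun i _ => ?_)
  exact (Fintype.sum_prod_type (fun y : Fin (sN g) × Fin (pN g) => a (i, y))).symm

theorem linS_tail {g : ℕ} (hg : 0 < g) (a : Un g → ℝ) (ha : ∀ y, 0 ≤ a y ∧ a y ≤ 1) (t : ℝ) :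
    Pr (wS g) (fun f => 4 * (∑ y, a y) / (g : ℝ) ^ 950 + t ≤ ∑ y ∈ supp f, a y)
      ≤ Real.exp (- (Real.log 2 * t)) := by
  have hl : (1 : ℝ) ≤ 4 * Real.log 2 := by
    have := Real.log_two_gt_d9
    linarith
  have hl0 : 0 ≤ Real.log 2 := by linarith
  set mu : ℝ := (∑ y, a y) / (g : ℝ) ^ 950 with hmu
  have hmu0 : 0 ≤ mu := div_nonneg (Finset.sum_nonneg (fun y _ => (ha y).1)) (by positivity)
  have h0 : 4 * (∑ y, a y) / (g : ℝ) ^ 950 = 4 * mu := by rw [hmu, mul_div_assoc]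
  rw [h0]
  refine (LarProb.Pr_mono (wS_isP hg) (T := fun f => Real.log 2 * (4 * mu + t) ≤
    Real.log 2 * ∑ y ∈ supp f, a y) (fun f hf => mul_le_mul_of_nonneg_left hf hl0)).trans ?_
  refine (LarProb.exp_markov (wS_isP hg) _ _).trans ?_
  refine (mul_le_mul_of_nonneg_left (Ex_two_lin hg a ha) (Real.exp_pos _).le).trans ?_
  rw [← Real.exp_add]
  refine Real.exp_le_exp.2 ?_
  nlinarith [mul_nonneg hmu0 (sub_nonneg.2 hl)]

end Pool.Larman
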