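import Pool.Agent.Larman.R1Base
import Pool.Agent.LarH.ProbQuad
import Pool.Agent.LarH.Num

/-!
# One random support: quadratic forms

Package LAR R1Quad.  Apply `LarProb.bil_tail` with `I = Pc g`, `A c = Fin (pN g)`, all weights
uniform, `F c c' x a = G (c.1, c.2, x) (c'.1, c'.2, a)` (first coordinate, second coordinate),
`X c x = LarProb.ind ((c.1, c.2, x) ∈ Y)`, `rho = 6 g^100 / g^950`, `B = T = g^2`, `K0 = g^102`,
`Mx = 3 g^100`, `Nx = 3 g^2000`.

Checks. `hcol`: `∑_c E_x F c t x a = (1 / pN) ∑_y G y (t, a)`, which is `≤ rho`, and is `0` if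
`(t, a) ∉ Y` (then all `G y (t,a) = 0`), so `≤ rho * X t a`; `hrow` is the same with the rows.
`hdiag`: `G y y = 0`.  `hN`: `∑_c pN = 3 sN pN = 3 g^2000` (`sN_cast`, `pN_cast`).
`hMx`: `∑_c E X = |Y| / pN ≤ 3 g^100`.  The double sum over the support is the double sum over the
places by `sum_supp` (twice; mind the order of the two sums, `Finset.sum_comm`).
Finally `2 (B T) = 2 g^4 ≤ g^29`, `rho K0 / B ≤ 1`, and for all large `g`
`2 (3 g^2000 exp (1 - log 2 g^2) + exp (3 g^100 - log 2 g^102) + exp (1 - log 2 g^2)) ≤ exp (-g)`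
(`LarProb.ev_exp_small`, `LarProb.ev_pow_le`; `log 2 ≥ 0.69`; e.g. `log 2 * g^2 ≥ 3 g`).
-/

set_option autoImplicit false

open scoped BigOperators Classical

noncomputable section

namespace Pool.Larman

open Pool.LarProb (IsP Ex Pr PW unif)

/-- the final numerical estimate -/
private theorem num_R1Quad {g P X e1 e3 L : ℝ} (hg : 20 ≤ g) (hL : 0.69 ≤ L) (hX : 1 ≤ X)
    (he1 : e1 ≤ 1) (he3 : e3 ≤ 1) (hP0 : 0 ≤ P)
    (hP : 18 * P * Real.exp (-(1 * g)) ≤ 1 / 3) :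
    2 * (3 * P * Real.exp (e1 - L * g ^ 2) + Real.exp (3 * X - L * (X * g ^ 2))
      + Real.exp (e3 - L * g ^ 2)) ≤ Real.exp (-g) := by
  have hLg : 2 * g + 3 ≤ L * g ^ 2 := by
    have h1 : 0.69 * g ^ 2 ≤ L * g ^ 2 := mul_le_mul_of_nonneg_right hL (sq_nonneg g)
    nlinarith
  have h1 : e1 - L * g ^ 2 ≤ -g + -g := by linarith
  have h3 : e3 - L * g ^ 2 ≤ -g + -g := by linarith
  have h2 : 3 * X - L * (X * g ^ 2) ≤ -g + -g := by
    have h4 : 3 * X - L * (X * g ^ 2) = -(X * (L * g ^ 2 - 3)) := by ring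
    rw [h4]
    have h5 : 1 * (2 * g) ≤ X * (L * g ^ 2 - 3) :=
      mul_le_mul hX (by linarith) (by linarith) (by linarith)
    linarith
  have e : Real.exp (-g + -g) = Real.exp (-g) * Real.exp (-g) := Real.exp_add _ _
  have k1 := Real.exp_le_exp.mpr h1
  have k2 := Real.exp_le_exp.mpr h2
  have k3 := Real.exp_le_exp.mpr h3
  rw [e] at k1 k2 k3
  have hE : Real.exp (-g) ≤ 1 / 21 := by
    rw [Real.exp_neg, ← one_div]
    have h7 := Real.add_one_le_exp g
    exact one_div_le_one_div_of_le (by norm_num) (by linarith)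
  have hE0 : 0 < Real.exp (-g) := Real.exp_pos _
  rw [one_mul] at hP
  have k4 : 3 * P * Real.exp (e1 - L * g ^ 2) ≤ 3 * P * (Real.exp (-g) * Real.exp (-g)) :=
    mul_le_mul_of_nonneg_left k1 (by positivity)
  have k5 : 3 * P * (Real.exp (-g) * Real.exp (-g)) ≤ (1 / 18) * Real.exp (-g) := by
    have h8 : 3 * P * (Real.exp (-g) * Real.exp (-g)) =
        (3 * P * Real.exp (-g)) * Real.exp (-g) := by ring
    rw [h8]
    exact mul_le_mul_of_nonneg_right (by linarith) hE0.le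
  have k6 : Real.exp (-g) * Real.exp (-g) ≤ (1 / 21) * Real.exp (-g) :=
    mul_le_mul_of_nonneg_right hE hE0.le
  linarith

/-- sums over the units are double sums over the places and the choices -/
private theorem sumUn_R1Quad {g : ℕ} (f : Un g → ℝ) :
    ∑ c : Pc g, ∑ x : Fin (pN g), f (c.1, c.2, x) = ∑ y : Un g, f y := by
  simp only [Fintype.sum_prod_type]

private theorem sumEx_R1Quad {g : ℕ} (f : Un g → ℝ) :
    ∑ c : Pc g, Ex (unif (Fin (pN g))) (fun x => f (c.1, c.2, x))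
      = (1 / (g : ℝ) ^ 950) * ∑ y : Un g, f y := by
  rw [← sumUn_R1Quad f, Finset.mul_sum]
  refine Finset.sum_congr rfl (fun c _ => ?_)
  unfold LarProb.Ex LarProb.unif
  rw [Finset.mul_sum, Fintype.card_fin, pN_cast]

theorem quadS_tail : ∀ᶠ g : ℕ in Filter.atTop, ∀ G : Un g → Un g → ℝ,
    (∀ y y', 0 ≤ G y y' ∧ G y y' ≤ 1) → (∀ y, G y y = 0) →
    (∃ Y : Finset (Un g), (Y.card : ℝ) ≤ 3 * (g : ℝ) ^ 1050 ∧
      ∀ y y', G y y' ≠ 0 → y ∈ Y ∧ y' ∈ Y) →
    (∀ y, ∑ y', G y y' ≤ 6 * (g : ℝ) ^ 100) → (∀ y', ∑ y, G y y' ≤ 6 * (g : ℝ) ^ 100) →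
    Pr (wS g) (fun f => (g : ℝ) ^ 29 ≤ ∑ y ∈ supp f, ∑ y' ∈ supp f, G y y')
      ≤ Real.exp (-(g : ℝ)) := by
  have hlog : (0.69 : ℝ) ≤ Real.log 2 := by
    have := Real.log_two_gt_d9
    linarith
  filter_upwards [LarProb.ev_exp_small 2000 (C := 18) (e := 1 / 3) one_pos (by norm_num),
    Filter.eventually_ge_atTop 20] with g hsmall hg
  intro G hG01 hG0 hY hrow hcol
  obtain ⟨Y, hYc, hYs⟩ := hY
  have hgr : (20 : ℝ) ≤ g := by exact_mod_cast hg
  have hg1 : (1 : ℝ) ≤ g := by linarith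
  have hg0 : 0 < g := by omega
  have hgp : (0 : ℝ) < g := by linarith
  have p100 : (1 : ℝ) ≤ (g : ℝ) ^ 100 := one_le_pow₀ hg1
  have p950 : (0 : ℝ) < (g : ℝ) ^ 950 := pow_pos hgp _
  set rho : ℝ := 6 * (g : ℝ) ^ 100 / (g : ℝ) ^ 950 with hrho
  have hrho0 : 0 ≤ rho := by positivity
  have hX01 : ∀ (i : Pc g) (a : Fin (pN g)), 0 ≤ LarProb.ind ((i.1, i.2, a) ∈ Y) ∧
      LarProb.ind ((i.1, i.2, a) ∈ Y) ≤ 1 :=
    fun i a => ⟨LarProb.ind_nonneg _, LarProb.ind_le_one _⟩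
  have key := LarProb.bil_tail (I := Pc g) (A := fun _ => Fin (pN g))
    (w := fun _ => unif (Fin (pN g))) (fun _ => unifP_isP hg0)
    (fun c c' x a => G (c.1, c.2, x) (c'.1, c'.2, a))
    (fun c x => LarProb.ind ((c.1, c.2, x) ∈ Y))
    (rho := rho) (B := (g : ℝ) ^ 2) (T := (g : ℝ) ^ 2) (K0 := (g : ℝ) ^ 102)
    (Mx := 3 * (g : ℝ) ^ 100) (Nx := 3 * (g : ℝ) ^ 2000)
    (fun _ _ _ _ => (hG01 _ _).1) (fun _ _ _ _ => (hG01 _ _).2)
    (fun i a => (hX01 i a).1) (fun i a => (hX01 i a).2)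
    (by
      intro t a
      rw [sumEx_R1Quad (fun y => G y (t.1, t.2, a))]
      by_cases h : ((t.1, t.2, a) : Un g) ∈ Y
      · rw [LarProb.ind_true h, mul_one, hrho]
        have h1 := hcol (t.1, t.2, a)
        rw [one_div, inv_mul_eq_div]
        exact div_le_div_of_nonneg_right h1 p950.le
      · rw [LarProb.ind_false h, mul_zero]
        have h1 : ∑ y : Un g, G y (t.1, t.2, a) = 0 := by
          refine Finset.sum_eq_zero (fun y _ => ?_)
          by_contra hne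
          exact h (hYs _ _ hne).2
        rw [h1, mul_zero])
    (by
      intro t a
      rw [sumEx_R1Quad (fun y => G (t.1, t.2, a) y)]
      by_cases h : ((t.1, t.2, a) : Un g) ∈ Y
      · rw [LarProb.ind_true h, mul_one, hrho]
        have h1 := hrow (t.1, t.2, a)
        rw [one_div, inv_mul_eq_div]
        exact div_le_div_of_nonneg_right h1 p950.le
      · rw [LarProb.ind_false h, mul_zero]
        have h1 : ∑ y : Un g, G (t.1, t.2, a) y = 0 := by
          refine Finset.sum_eq_zero (fun y _ => ?_)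
          by_contra hne
          exact h (hYs _ _ hne).1
        rw [h1, mul_zero])
    (fun y x => hG0 _)
    (by
      rw [Finset.sum_const, Finset.card_univ, nsmul_eq_mul, Fintype.card_prod, Fintype.card_fin,
        Fintype.card_fin, Fintype.card_fin, Nat.cast_mul, sN_cast, pN_cast]
      have h1 : (g : ℝ) ^ 2000 = (g : ℝ) ^ 1050 * (g : ℝ) ^ 950 := by rw [← pow_add]
      rw [h1]
      push_cast
      exact le_of_eq (by ring))
    (pow_pos hgp 2)
    (by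
      rw [sumEx_R1Quad (fun y => LarProb.ind (y ∈ Y))]
      have h1 : ∑ y : Un g, LarProb.ind (y ∈ Y) = (Y.card : ℝ) := by
        have h2 := LarProb.sum_unifOn Y (fun _ => (1 : ℝ))
        simp only [mul_one, Finset.sum_const, nsmul_eq_mul] at h2
        exact h2
      rw [h1, one_div, inv_mul_eq_div, div_le_iff₀ p950]
      have h3 : (g : ℝ) ^ 1050 = (g : ℝ) ^ 100 * (g : ℝ) ^ 950 := by rw [← pow_add]
      rw [h3] at hYc
      linarith)
    hrho0
  have hmono : Pr (wS g) (fun f => (g : ℝ) ^ 29 ≤ ∑ y ∈ supp f, ∑ y' ∈ supp f, G y y')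
      ≤ Pr (PW (I := Pc g) (A := fun _ => Fin (pN g)) (fun _ => unif (Fin (pN g))))
        (fun ω => 2 * ((g : ℝ) ^ 2 * (g : ℝ) ^ 2) ≤
          ∑ t : Pc g, ∑ y : Pc g, G (y.1, y.2, ω y) (t.1, t.2, ω t)) := by
    refine LarProb.Pr_mono (wS_isP hg0) (fun f h => ?_)
    rw [sum_supp f (fun y => ∑ y' ∈ supp f, G y y')] at h
    simp only [sum_supp f] at h
    rw [Finset.sum_comm] at h
    refine le_trans ?_ h
    have h1 : (g : ℝ) ^ 5 ≤ (g : ℝ) ^ 29 := pow_le_pow_right₀ hg1 (by norm_num)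
    have h2 : 2 * ((g : ℝ) ^ 2 * (g : ℝ) ^ 2) ≤ (g : ℝ) ^ 5 := by
      have h3 : (g : ℝ) ^ 5 = g * ((g : ℝ) ^ 2 * (g : ℝ) ^ 2) := by ring
      rw [h3]
      exact mul_le_mul_of_nonneg_right (by linarith) (by positivity)
    linarith
  refine hmono.trans (key.trans ?_)
  have hlarge : 6 * ((g : ℝ) ^ 100 * (g : ℝ) ^ 100) ≤ (g : ℝ) ^ 950 := by
    have h1 : (g : ℝ) ^ 950 = (g : ℝ) ^ 100 * (g : ℝ) ^ 100 * (g : ℝ) ^ 750 := by
      rw [← pow_add, ← pow_add]
    have h2 : (g : ℝ) ≤ (g : ℝ) ^ 750 := le_self_pow₀ hg1 (by norm_num)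
    rw [h1]
    have h3 : (g : ℝ) ^ 100 * (g : ℝ) ^ 100 * 6 ≤
        (g : ℝ) ^ 100 * (g : ℝ) ^ 100 * (g : ℝ) ^ 750 :=
      mul_le_mul_of_nonneg_left (by linarith) (by positivity)
    linarith
  have he1 : rho ≤ 1 := by
    rw [hrho, div_le_one p950]
    have h1 : (g : ℝ) ^ 100 * 1 ≤ (g : ℝ) ^ 100 * (g : ℝ) ^ 100 :=
      mul_le_mul_of_nonneg_left p100 (by positivity)
    linarith
  have h102 : (g : ℝ) ^ 102 = (g : ℝ) ^ 100 * (g : ℝ) ^ 2 := by rw [← pow_add]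
  have he3 : rho * (g : ℝ) ^ 102 / (g : ℝ) ^ 2 ≤ 1 := by
    rw [h102, ← mul_assoc, mul_div_assoc, div_self (pow_pos hgp 2).ne', mul_one, hrho,
      div_mul_eq_mul_div, div_le_one p950]
    linarith
  rw [h102] at he3 ⊢
  exact num_R1Quad hgr hlog p100 he1 he3 (by positivity) hsmall

end Pool.Larman
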