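import Pool.Agent.Larman.R1Base
import Pool.Agent.LarH.ProbMore
import Pool.Agent.LarH.Num

/-!
# Random labels: law, data built from labels, the label properties as separate propositions

Architect: helper90.  Two independent stages: `ω : Kc g → Lq` (C labels and Q labels) and
`ρ : Kc g → ZMod (hM g)` (hash coefficients).
-/

set_option autoImplicit false

open scoped BigOperators Classical

noncomputable section

namespace Pool.Larman

open Pool.LarProb (IsP Ex Pr PW unif)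

/-- coordinates of the labels -/
abbrev Kc (g : ℕ) := Pl g × Pl g × Un g
/-- C label and Q labels of the two twins -/
abbrev Lq := Bool × (Bool → Bool)

/-- law of one label: C with probability `g^-92`, every twin Q with probability `g^-4` -/
def wL (g : ℕ) : Lq → ℝ := fun x =>
  (if x.1 = true then 1 / (g : ℝ) ^ 92 else 1 - 1 / (g : ℝ) ^ 92) *
    ∏ i, (if x.2 i = true then 1 / (g : ℝ) ^ 4 else 1 - 1 / (g : ℝ) ^ 4)

/-- law of all C and Q labels -/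
def wQ (g : ℕ) : (Kc g → Lq) → ℝ := PW (I := Kc g) (A := fun _ => Lq) (fun _ => wL g)

/-- law of all hash coefficients -/
def wR (g : ℕ) : (Kc g → ZMod (hM g)) → ℝ :=
  PW (I := Kc g) (A := fun _ => ZMod (hM g)) (fun _ => unif (ZMod (hM g)))

/-- summation over the possible labels -/
theorem sum_Lq (F : Lq → ℝ) : ∑ x, F x = ∑ c : Bool, ∑ a : Bool, ∑ b : Bool,
    F (c, fun i => if i = true then a else b) := by
  rw [Fintype.sum_prod_type]
  refine Finset.sum_congr rfl (fun c _ => ?_)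
  rw [← Fintype.sum_prod_type']
  refine Fintype.sum_equiv
    ⟨fun f => (f true, f false), fun p => fun i => if i = true then p.1 else p.2, ?_, ?_⟩ _ _ ?_
  · intro f
    funext i
    cases i <;> simp
  · intro p
    simp
  · intro f
    simp only [Equiv.coe_fn_mk]
    congr 2
    funext i
    cases i <;> simp

theorem wL_isP {g : ℕ} (hg : 0 < g) : IsP (wL g) where
  nonneg := fun x => by
    have hg1 : (1 : ℝ) ≤ g := by exact_mod_cast hg
    have h1 : 1 / (g : ℝ) ^ 92 ≤ 1 := by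
      rw [div_le_one (by positivity)]; exact one_le_pow₀ hg1
    have h2 : 1 / (g : ℝ) ^ 4 ≤ 1 := by
      rw [div_le_one (by positivity)]; exact one_le_pow₀ hg1
    unfold wL
    refine mul_nonneg ?_ (Finset.prod_nonneg (fun i _ => ?_))
    · split_ifs
      · positivity
      · linarith
    · split_ifs
      · positivity
      · linarith
  sum_one := by
    rw [sum_Lq]
    simp only [wL, Fintype.prod_bool, Fintype.sum_bool]
    simp
    ring

theorem wQ_isP {g : ℕ} (hg : 0 < g) : IsP (wQ g) := LarProb.PW_isP (fun _ => wL_isP hg)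

theorem wR_isP {g : ℕ} : IsP (wR g) := LarProb.PW_isP (fun _ => LarProb.unif_isP)

/-- the coordinate of the unordered pair `{u, v}` at the unit `y` -/
def key {g : ℕ} (u v : Pl g) (y : Un g) : Kc g := if u < v then (u, v, y) else (v, u, y)

theorem key_comm {g : ℕ} (u v : Pl g) (y : Un g) (h : u ≠ v) : key u v y = key v u y := by
  unfold key
  rcases lt_or_gt_of_ne h with h1 | h1
  · rw [if_pos h1, if_neg (not_lt.2 h1.le)]
  · rw [if_neg (not_lt.2 h1.le), if_pos h1]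

theorem key_inj_unit {g : ℕ} {u v : Pl g} {y y' : Un g} (h : key u v y = key u v y') :
    y = y' := by
  unfold key at h
  split_ifs at h
  · simpa using h
  · simpa using h

/-- equality of coordinates: the units are equal and the unordered pairs are equal -/
theorem key_eq_iff {g : ℕ} {u v u' v' : Pl g} {y y' : Un g} (h : u ≠ v) (h' : u' ≠ v') :
    key u v y = key u' v' y' ↔ y = y' ∧ ((u = u' ∧ v = v') ∨ (u = v' ∧ v = u')) := by
  unfold key
  rcases lt_or_gt_of_ne h with h1 | h1 <;> rcases lt_or_gt_of_ne h' with h2 | h2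
  · rw [if_pos h1, if_pos h2]
    simp only [Prod.mk.injEq]
    constructor
    · rintro ⟨a, b, c⟩; exact ⟨c, Or.inl ⟨a, b⟩⟩
    · rintro ⟨c, ⟨a, b⟩ | ⟨a, b⟩⟩
      · exact ⟨a, b, c⟩
      · subst a; subst b; exact absurd h1 (not_lt.2 h2.le)
  · rw [if_pos h1, if_neg (not_lt.2 h2.le)]
    simp only [Prod.mk.injEq]
    constructor
    · rintro ⟨a, b, c⟩; exact ⟨c, Or.inr ⟨a, b⟩⟩
    · rintro ⟨c, ⟨a, b⟩ | ⟨a, b⟩⟩
      · subst a; subst b; exact absurd h1 (not_lt.2 h2.le)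
      · exact ⟨a, b, c⟩
  · rw [if_neg (not_lt.2 h1.le), if_pos h2]
    simp only [Prod.mk.injEq]
    constructor
    · rintro ⟨a, b, c⟩; exact ⟨c, Or.inr ⟨b, a⟩⟩
    · rintro ⟨c, ⟨a, b⟩ | ⟨a, b⟩⟩
      · subst a; subst b; exact absurd h1 (not_lt.2 h2.le)
      · exact ⟨b, a, c⟩
  · rw [if_neg (not_lt.2 h1.le), if_neg (not_lt.2 h2.le)]
    simp only [Prod.mk.injEq]
    constructor
    · rintro ⟨a, b, c⟩; exact ⟨c, Or.inl ⟨b, a⟩⟩
    · rintro ⟨c, ⟨a, b⟩ | ⟨a, b⟩⟩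
      · exact ⟨b, a, c⟩
      · subst a; subst b; exact absurd h1 (not_lt.2 h2.le)

/-- the data with given supports and labels -/
def mkD {g : ℕ} (σ : Pl g → Pc g → Fin (pN g)) (ω : Kc g → Lq) (ρ : Kc g → ZMod (hM g)) :
    Dat g :=
  ⟨σ, fun u v y => ((ω (u, v, y)).1, ρ (u, v, y), (ω (u, v, y)).2)⟩

section mk
variable {g : ℕ} (σ : Pl g → Pc g → Fin (pN g)) (ω : Kc g → Lq) (ρ : Kc g → ZMod (hM g))

theorem mkD_S (u : Pl g) : (mkD σ ω ρ).S u = supp (σ u) := rfl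

theorem mkD_L (u v : Pl g) (y : Un g) :
    (mkD σ ω ρ).L u v y = ((ω (key u v y)).1, ρ (key u v y), (ω (key u v y)).2) := by
  unfold Dat.L key mkD
  split_ifs <;> rfl

theorem mkD_r (u v : Pl g) (y : Un g) : (mkD σ ω ρ).r u v y = ρ (key u v y) := by
  unfold Dat.r
  rw [mkD_L]

theorem mem_Z_mkD {u v : Pl g} {y : Un g} :
    y ∈ (mkD σ ω ρ).Z u v ↔ y ∈ supp (σ u) ∧ y ∈ supp (σ v) := by
  unfold Dat.Z
  rw [Finset.mem_inter, mkD_S, mkD_S]

theorem mem_C_mkD {u v : Pl g} {y : Un g} :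
    y ∈ (mkD σ ω ρ).C u v ↔
      (y ∈ supp (σ u) ∧ y ∈ supp (σ v)) ∧ y.1 = 1 ∧ (ω (key u v y)).1 = true := by
  unfold Dat.C
  rw [Finset.mem_filter, mem_Z_mkD, mkD_L]

theorem mem_Q_mkD {u v : Pl g} {p : Pp g} :
    p ∈ (mkD σ ω ρ).Q u v ↔
      (p.1 ∈ supp (σ u) ∧ p.1 ∈ supp (σ v)) ∧ ¬ (p.1.1 = 1 ∧ (ω (key u v p.1)).1 = true) ∧
        isReal p ∧ (ω (key u v p.1)).2 p.2 = true := by
  unfold Dat.Q
  rw [Finset.mem_filter, mem_C_mkD, mem_Z_mkD, mkD_L]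
  constructor
  · rintro ⟨_, h1, h2, h3, h4⟩
    exact ⟨h1, fun h => h2 ⟨h1, h⟩, h3, h4⟩
  · rintro ⟨h1, h2, h3, h4⟩
    exact ⟨Finset.mem_univ _, h1, fun h => h2 h.2, h3, h4⟩

theorem mkD_C_indep (ρ' : Kc g → ZMod (hM g)) : (mkD σ ω ρ).C = (mkD σ ω ρ').C := by
  funext u v
  ext y
  rw [mem_C_mkD, mem_C_mkD]

theorem mkD_Q_indep (ρ' : Kc g → ZMod (hM g)) : (mkD σ ω ρ).Q = (mkD σ ω ρ').Q := by
  funext u v
  ext y
  rw [mem_Q_mkD, mem_Q_mkD]

end mk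

section Props2
variable {g : ℕ} (D : Dat g)

def PL1c : Prop := ∀ u v, u ≠ v →
  (g : ℝ) ^ 8 / 2 ≤ ((D.C u v).card : ℝ) ∧ ((D.C u v).card : ℝ) ≤ 2 * (g : ℝ) ^ 8

def PL1m : Prop := ∀ u v, u ≠ v →
  |(((D.Q u v).filter (fun p => p.1.1 = 0)).card : ℝ) - (g : ℝ) ^ 96| ≤ (g : ℝ) ^ 95

def PL1q : Prop := ∀ u v, u ≠ v → |((D.Q u v).card : ℝ) - 4 * (g : ℝ) ^ 96| ≤ (g : ℝ) ^ 95

def PL3 : Prop := ∀ u b, num (fun w => w ≠ u ∧ b ∈ D.C u w) ≤ (g : ℝ) ^ 10959

def PL4a : Prop := ∀ (J : Finset (Pl g)) (σ : Pl g → Pat g), (g : ℝ) ^ 200 ≤ (J.card : ℝ) →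
  (∀ u ∈ J, D.PatOK u (σ u)) →
  (J.card : ℝ) ^ 2 / 100 ≤
    (((J ×ˢ J).filter (fun p => p.1 < p.2 ∧ D.Elig p.1 p.2 (σ p.1) (σ p.2))).card : ℝ) →
  (J.card : ℝ) ^ 2 / 800 ≤ (g : ℝ) ^ 4 *
    (((J ×ˢ J).filter (fun p => p.1 < p.2 ∧ D.Compat p.1 p.2 (σ p.1) (σ p.2))).card : ℝ)

def PL4b : Prop := ∀ (J J' : Finset (Pl g)) (σ σ' : Pl g → Pat g), Disjoint J J' →
  (g : ℝ) ^ 200 ≤ (J.card : ℝ) →
  (g : ℝ) ^ 200 ≤ (J'.card : ℝ) → (∀ u ∈ J, D.PatOK u (σ u)) → (∀ u ∈ J', D.PatOK u (σ' u)) →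
  (J.card : ℝ) * J'.card / 2 ≤
    (((J ×ˢ J').filter (fun p => D.Elig p.1 p.2 (σ p.1) (σ' p.2))).card : ℝ) →
  (J.card : ℝ) * J'.card / 16 ≤ (g : ℝ) ^ 4 *
    (((J ×ˢ J').filter (fun p => D.Compat p.1 p.2 (σ p.1) (σ' p.2))).card : ℝ)

/-- the C blocks of a set of players form a large set -/
def PL7c : Prop := ∀ (u : Pl g) (Dn : Finset (Pl g)), u ∉ Dn → Dn.Nonempty →
  (Dn.card : ℝ) ≤ 2 * (g : ℝ) ^ 1033 →
  (g : ℝ) ^ 5 * Dn.card ≤ ((Dn.biUnion (fun w => D.C u w)).card : ℝ)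

def PL7 : Prop := ∀ (u : Pl g) (Dn : Finset (Pl g)) (χ : Pl g → ZMod (hM g)) (E : Finset (Un g)),
  u ∉ Dn → Dn.Nonempty → (Dn.card : ℝ) ≤ 2 * (g : ℝ) ^ 1033 → (∀ w ∈ Dn, χ w ≠ 0) →
  (E.card : ℝ) ≤ 60 * (g : ℝ) ^ 3 * Dn.card →
  ∏ b ∈ (Dn.biUnion (fun w => D.C u w)) \ E, cosq (∑ w ∈ Dn, χ w * D.lc u w b) ≤
    (1 / 2 : ℝ) ^ (g ^ 4 * Dn.card)

def PL8 : Prop := ∀ Gam : Finset (Un g × Un g), (∀ e ∈ Gam, e.1 ≠ e.2) →
  (Gam.card : ℝ) ≤ 8008 * (g : ℝ) ^ 2000 →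
  num (fun u => ¬ ∃ X, D.Cov u Gam X) ≤ (g : ℝ) ^ 12000 / 50

/-- all properties which do not involve the hash coefficients -/
structure LabQ : Prop where
  l1c : PL1c D
  l1m : PL1m D
  l1q : PL1q D
  l3 : PL3 D
  l4a : PL4a D
  l4b : PL4b D
  l7c : PL7c D
  l8 : PL8 D

theorem Lab_of (h : LabQ D) (h7 : PL7 D) : D.Lab :=
  ⟨h.l1c, h.l1m, h.l1q, h.l3, h.l4a, h.l4b, h7, h.l8⟩

/-- `LabQ` depends only on the supports and on the sets C and Q -/
theorem LabQ_congr {D D' : Dat g} (hS : D.S = D'.S) (hC : D.C = D'.C) (hQ : D.Q = D'.Q)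
    (h : LabQ D) : LabQ D' := by
  have hE : ∀ u v s s', D.Elig u v s s' ↔ D'.Elig u v s s' := fun u v s s' => by
    unfold Dat.Elig; rw [hS]
  have hCo : ∀ u v s s', D.Compat u v s s' ↔ D'.Compat u v s s' := fun u v s s' => by
    unfold Dat.Compat; rw [hE, hS, hC, hQ]
  have hP : ∀ u s, D.PatOK u s ↔ D'.PatOK u s := fun u s => by
    unfold Dat.PatOK; rw [hS]
  have hCov : ∀ u G X, D.Cov u G X ↔ D'.Cov u G X := fun u G X => by
    unfold Dat.Cov Dat.qX; rw [hS, hQ]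
  refine ⟨?_, ?_, ?_, ?_, ?_, ?_, ?_, ?_⟩
  · have := h.l1c; unfold PL1c at *; rwa [hC] at this
  · have := h.l1m; unfold PL1m at *; rwa [hQ] at this
  · have := h.l1q; unfold PL1q at *; rwa [hQ] at this
  · have := h.l3; unfold PL3 at *; rwa [hC] at this
  · have := h.l4a
    unfold PL4a at *
    simp only [hE, hCo, hP] at this
    exact this
  · have := h.l4b
    unfold PL4b at *
    simp only [hE, hCo, hP] at this
    exact this
  · have := h.l7c; unfold PL7c at *; rwa [hC] at this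
  · have := h.l8
    unfold PL8 at *
    simp only [hCov] at this
    exact this

end Props2

/-! ### expectations of one label -/

theorem Pr_C {g : ℕ} : Pr (wL g) (fun x => x.1 = true) = 1 / (g : ℝ) ^ 92 := by
  unfold Pr Ex
  rw [sum_Lq]
  simp only [wL, Fintype.prod_bool, Fintype.sum_bool, LarProb.ind]
  simp
  ring

theorem Pr_Q {g : ℕ} (i : Bool) : Pr (wL g) (fun x => x.2 i = true) = 1 / (g : ℝ) ^ 4 := by
  unfold Pr Ex
  rw [sum_Lq]
  cases i <;>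
  · simp only [wL, Fintype.prod_bool, Fintype.sum_bool, LarProb.ind]
    simp
    ring

theorem Pr_notC_Q {g : ℕ} (i : Bool) : Pr (wL g) (fun x => ¬ x.1 = true ∧ x.2 i = true)
    = (1 - 1 / (g : ℝ) ^ 92) * (1 / (g : ℝ) ^ 4) := by
  unfold Pr Ex
  rw [sum_Lq]
  cases i <;>
  · simp only [wL, Fintype.prod_bool, Fintype.sum_bool, LarProb.ind]
    simp
    ring

/-- probability of one exactly prescribed label -/
theorem Pr_exact {g : ℕ} (q : Bool → Bool) : Pr (wL g) (fun x => x.1 = false ∧ x.2 = q)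
    = (1 - 1 / (g : ℝ) ^ 92) *
      ∏ i, (if q i = true then 1 / (g : ℝ) ^ 4 else 1 - 1 / (g : ℝ) ^ 4) := by
  unfold Pr Ex
  rw [Finset.sum_eq_single (false, q)]
  · show wL g (false, q) * LarProb.ind (((false, q) : Lq).1 = false ∧
      ((false, q) : Lq).2 = q) = _
    rw [LarProb.ind_true (by simp), mul_one]
    unfold wL
    simp
  · intro x _ hx
    show wL g x * LarProb.ind (x.1 = false ∧ x.2 = q) = 0
    rw [LarProb.ind_false, mul_zero]
    rintro ⟨h1, h2⟩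
    exact hx (Prod.ext h1 h2)
  · intro h
    exact absurd (Finset.mem_univ _) h

end Pool.Larman
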