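import Pool.Agent.Larman.R2Base
import Pool.Agent.LarH.ProbLow

/-!
# A sufficient label condition for compatibility, and its probability

Package LAR R2Comp.

* `compat_of_goodL`.  `Elig` is given.  Disjointness: `y ∈ C u v ∩ s.dom` would be in `relH`, but its
  C label is false (`mem_C_mkD`).  Clause 4: if `(y, !i) ∈ Q` then `y` is common, so in `relH`, and the
  Q label of `!i` is true, so `InP s (y, !i)`, in particular `s.st y = some (!i)`: contradiction.
  Clause 5: `y ∈ s.dom ∩ s'.dom` is common by `PatOK` (`s.dom ⊆ S u`, `s'.dom ⊆ S v`), its label is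
  not C, `InP s (y,i)` and `InP s' (y,i)` hold, so `(y,i) ∈ Q` (`mem_Q_mkD`).  Clauses 6, 7: take
  `i = true`: the Q label is false as `s.st y = none`.
* `Pr_goodL`: `LarProb.Ex_prod_inj` with `k y = key u v y` over `y ∈ relH` (`ind_forall`, `Pr_exact`):
  the probability is `∏_{y ∈ relH} (1 - g^-92) ∏_i (if both IN at (y,i) then g^-4 else 1 - g^-4)`.
  `|relH| ≤ 4` (`relH ⊆ (s.dom ∩ S v) ∪ (s'.dom ∩ S u)`, first two clauses of `Elig`) and at most one
  `(y,i)` is IN for both (third clause), so it is `≥ (1 - g^-92)^4 (1 - g^-4)^8 g^-4 ≥ g^-4 / 2`.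
* `goodL_dep`: `GoodL` only looks at the coordinates `key u v y`.
* `blk_disjoint`: `key_eq_iff`.
-/

set_option autoImplicit false

open scoped BigOperators Classical

noncomputable section

namespace Pool.Larman

open Pool.LarProb (IsP Ex Pr PW unif)

section
variable {g : ℕ} (σ : Pl g → Pc g → Fin (pN g))

/-- common units in one of the two domains -/
def relH (u v : Pl g) (s s' : Pat g) : Finset (Un g) :=
  (s.dom ∪ s'.dom).filter (fun y => y ∈ supp (σ u) ∧ y ∈ supp (σ v))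

/-- exact prescription of the labels: not C, and Q exactly at the common IN points -/
def GoodL (u v : Pl g) (s s' : Pat g) (ω : Kc g → Lq) : Prop :=
  ∀ y ∈ relH σ u v s s', (ω (key u v y)).1 = false ∧
    (ω (key u v y)).2 = fun i => if InP s (y, i) ∧ InP s' (y, i) then true else false

/-- the coordinates of a pair of players -/
def blk (u v : Pl g) : Finset (Kc g) := Finset.univ.image (fun y => key u v y)

theorem compat_of_goodL (ω : Kc g → Lq) (ρ : Kc g → ZMod (hM g)) {u v : Pl g} (huv : u ≠ v)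
    {s s' : Pat g} (hs : (mkD σ ω ρ).PatOK u s) (hs' : (mkD σ ω ρ).PatOK v s')
    (hE : (mkD σ ω ρ).Elig u v s s') (h : GoodL σ u v s s' ω) :
    (mkD σ ω ρ).Compat u v s s' := by
  have _ := huv
  have hrel : ∀ y, (y ∈ s.dom ∨ y ∈ s'.dom) → y ∈ supp (σ u) → y ∈ supp (σ v) →
      y ∈ relH σ u v s s' := by
    intro y h1 h2 h3
    unfold relH
    rw [Finset.mem_filter, Finset.mem_union]
    exact ⟨h1, h2, h3⟩
  have hQ : ∀ y, (y ∈ s.dom ∨ y ∈ s'.dom) → ∀ i, (y, i) ∈ (mkD σ ω ρ).Q u v →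
      InP s (y, i) ∧ InP s' (y, i) := by
    intro y h1 i hi
    rw [mem_Q_mkD] at hi
    have h2 := h y (hrel y h1 hi.1.1 hi.1.2)
    have h3 := hi.2.2.2
    rw [h2.2] at h3
    by_contra hc
    simp only [if_neg hc] at h3
    exact Bool.false_ne_true h3
  refine ⟨hE, ?_, ?_, ?_, ?_, ?_, ?_⟩
  · rw [Finset.disjoint_left]
    intro y hy hd
    rw [mem_C_mkD] at hy
    have h2 := h y (hrel y (Or.inl hd) hy.1.1 hy.1.2)
    rw [h2.1] at hy
    exact Bool.false_ne_true hy.2.2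
  · rw [Finset.disjoint_left]
    intro y hy hd
    rw [mem_C_mkD] at hy
    have h2 := h y (hrel y (Or.inr hd) hy.1.1 hy.1.2)
    rw [h2.1] at hy
    exact Bool.false_ne_true hy.2.2
  · intro y hy i h1 _ hq
    rw [Finset.mem_inter] at hy
    have h3 := (hQ y (Or.inl hy.1) _ hq).1.2.1
    rcases h1 with h1 | h1
    · rw [h1] at h3
      simp at h3
    · rw [h1] at h3
      simp at h3
  · intro y hy i h1 h2 hr
    rw [Finset.mem_inter] at hy
    have hu : y ∈ supp (σ u) := hs.1 hy.1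
    have hv : y ∈ supp (σ v) := hs'.1 hy.2
    have h3 := h y (hrel y (Or.inl hy.1) hu hv)
    rw [mem_Q_mkD]
    refine ⟨⟨hu, hv⟩, ?_, hr, ?_⟩
    · rw [h3.1]
      rintro ⟨_, h4⟩
      exact Bool.false_ne_true h4
    · rw [h3.2]
      have h4 : InP s (y, i) ∧ InP s' (y, i) := ⟨⟨hy.1, h1, hr⟩, ⟨hy.2, h2, hr⟩⟩
      simp only [if_pos h4]
  · intro y hy _ h1
    rw [Finset.mem_inter] at hy
    refine ⟨true, fun hq => ?_⟩
    have h3 := (hQ y (Or.inl hy.1) _ hq).1.2.1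
    rw [h1] at h3
    simp at h3
  · intro y hy _ h1
    rw [Finset.mem_inter] at hy
    refine ⟨true, fun hq => ?_⟩
    have h3 := (hQ y (Or.inr hy.1) _ hq).2.2.1
    rw [h1] at h3
    simp at h3

theorem goodL_dep (u v : Pl g) (s s' : Pat g) :
    LarProb.DepOn (A := fun _ : Kc g => Lq) (blk u v) (GoodL σ u v s s') := by
  intro a b hab
  have h : ∀ y, a (key u v y) = b (key u v y) := fun y =>
    hab _ (Finset.mem_image_of_mem _ (Finset.mem_univ _))
  unfold GoodL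
  simp only [h]

theorem blk_disjoint {u v u' v' : Pl g} (h : u ≠ v) (h' : u' ≠ v')
    (hne : ¬ ((u = u' ∧ v = v') ∨ (u = v' ∧ v = u'))) : Disjoint (blk u v) (blk u' v') := by
  rw [Finset.disjoint_left]
  intro k h1 h2
  unfold blk at h1 h2
  rw [Finset.mem_image] at h1 h2
  obtain ⟨y, -, h3⟩ := h1
  obtain ⟨y', -, h4⟩ := h2
  exact hne ((key_eq_iff h h').1 (h3.trans h4.symm)).2

end

theorem Pr_goodL_eq {g : ℕ} (hg : 0 < g) (σ : Pl g → Pc g → Fin (pN g)) (u v : Pl g)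
    (s s' : Pat g) : Pr (wQ g) (GoodL σ u v s s') = ∏ y ∈ relH σ u v s s',
      ((1 - 1 / (g : ℝ) ^ 92) * ∏ i : Bool, (if (InP s (y, i) ∧ InP s' (y, i)) then
        1 / (g : ℝ) ^ 4 else 1 - 1 / (g : ℝ) ^ 4)) := by
  have h1 : Pr (wQ g) (GoodL σ u v s s') = Ex (wQ g) (fun ω => ∏ y ∈ relH σ u v s s',
      LarProb.ind ((ω (key u v y)).1 = false ∧ (ω (key u v y)).2 =
        fun i => if InP s (y, i) ∧ InP s' (y, i) then true else false)) := by
    unfold Pr
    refine LarProb.Ex_congr (fun ω => ?_)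
    rw [← LarProb.ind_forall]
    rfl
  rw [h1]
  have h2 := LarProb.Ex_prod_inj (I := Kc g) (B := Lq) (wL_isP hg) (relH σ u v s s')
    (fun y => key u v y) (fun y _ y' _ h => key_inj_unit h)
    (fun y x => LarProb.ind (x.1 = false ∧ x.2 =
        fun i => if InP s (y, i) ∧ InP s' (y, i) then true else false))
  unfold wQ
  rw [h2]
  refine Finset.prod_congr rfl (fun y _ => ?_)
  have h3 := Pr_exact (g := g) (fun i => if InP s (y, i) ∧ InP s' (y, i) then true else false)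
  unfold Pr at h3
  rw [h3]
  congr 1
  refine Finset.prod_congr rfl (fun i _ => ?_)
  by_cases h4 : InP s (y, i) ∧ InP s' (y, i)
  · simp [h4]
  · simp only [if_neg h4, Bool.false_eq_true, if_false]

theorem Pr_goodL : ∀ᶠ g : ℕ in Filter.atTop, ∀ (σ : Pl g → Pc g → Fin (pN g)) (ω0 : Kc g → Lq)
    (u v : Pl g) (s s' : Pat g), u ≠ v → (mkD σ ω0 0).PatOK u s → (mkD σ ω0 0).PatOK v s' →
    (mkD σ ω0 0).Elig u v s s' → 1 / (2 * (g : ℝ) ^ 4) ≤ Pr (wQ g) (GoodL σ u v s s') := by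
  filter_upwards [Filter.eventually_ge_atTop 24] with g hg σ ω0 u v s s' _ _ _ hE
  have hg' : (24 : ℝ) ≤ g := by exact_mod_cast hg
  rw [Pr_goodL_eq (by omega) σ u v s s']
  have hinv : (g : ℝ)⁻¹ ≤ 1 / 24 := by
    rw [one_div]
    exact inv_anti₀ (by norm_num) hg'
  have hinv0 : 0 ≤ (g : ℝ)⁻¹ := by positivity
  have ha : 1 - (g : ℝ)⁻¹ ≤ 1 - 1 / (g : ℝ) ^ 92 := by
    have h1 : 1 / (g : ℝ) ^ 92 ≤ (g : ℝ)⁻¹ := by
      rw [one_div]
      exact inv_anti₀ (by linarith) (le_self_pow₀ (by linarith) (by norm_num))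
    linarith
  have hb : 1 - (g : ℝ)⁻¹ ≤ 1 - 1 / (g : ℝ) ^ 4 := by
    have h1 : 1 / (g : ℝ) ^ 4 ≤ (g : ℝ)⁻¹ := by
      rw [one_div]
      exact inv_anti₀ (by linarith) (le_self_pow₀ (by linarith) (by norm_num))
    linarith
  have ha1 : 1 - 1 / (g : ℝ) ^ 92 ≤ 1 := by
    have : 0 ≤ 1 / (g : ℝ) ^ 92 := by positivity
    linarith
  have hb1 : 1 - 1 / (g : ℝ) ^ 4 ≤ 1 := by
    have : 0 ≤ 1 / (g : ℝ) ^ 4 := by positivity
    linarith
  have hc0 : 0 ≤ 1 / (g : ℝ) ^ 4 := by positivity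
  have hc1 : 1 / (g : ℝ) ^ 4 ≤ 1 := by linarith [hb]
  set a := 1 - 1 / (g : ℝ) ^ 92 with haD
  set b := 1 - 1 / (g : ℝ) ^ 4 with hbD
  set c := 1 / (g : ℝ) ^ 4 with hcD
  have h0 : 0 ≤ 1 - (g : ℝ)⁻¹ := by linarith
  have hH : (relH σ u v s s').card ≤ 4 := by
    have h1 : relH σ u v s s' ⊆ (s.dom ∩ (mkD σ ω0 0).S v) ∪ (s'.dom ∩ (mkD σ ω0 0).S u) := by
      intro y hy
      unfold relH at hy
      rw [Finset.mem_filter, Finset.mem_union] at hy
      rw [Finset.mem_union, Finset.mem_inter, Finset.mem_inter, mkD_S, mkD_S]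
      rcases hy.1 with h | h
      · exact Or.inl ⟨h, hy.2.2⟩
      · exact Or.inr ⟨h, hy.2.1⟩
    calc (relH σ u v s s').card ≤ _ := Finset.card_le_card h1
      _ ≤ (s.dom ∩ (mkD σ ω0 0).S v).card + (s'.dom ∩ (mkD σ ω0 0).S u).card :=
        Finset.card_union_le _ _
      _ ≤ 4 := by
        have := hE.1
        have := hE.2.1
        omega
  rw [Finset.prod_mul_distrib, Finset.prod_const, ← Finset.prod_product', Finset.prod_ite,
    Finset.prod_const, Finset.prod_const]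
  have hn1 : (((relH σ u v s s') ×ˢ (Finset.univ : Finset Bool)).filter
      (fun p => InP s (p.1, p.2) ∧ InP s' (p.1, p.2))).card ≤ 1 :=
    (Finset.card_le_card (Finset.filter_subset_filter _ (Finset.subset_univ _))).trans hE.2.2
  have hn0 : (((relH σ u v s s') ×ˢ (Finset.univ : Finset Bool)).filter
      (fun p => ¬ (InP s (p.1, p.2) ∧ InP s' (p.1, p.2)))).card ≤ 8 := by
    refine (Finset.card_le_card (Finset.filter_subset _ _)).trans ?_
    rw [Finset.card_product, Finset.card_univ, Fintype.card_bool]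
    omega
  have e1 : (1 - (g : ℝ)⁻¹) ^ 4 ≤ a ^ (relH σ u v s s').card :=
    (pow_le_pow_left₀ h0 ha 4).trans (pow_le_pow_of_le_one (h0.trans ha) ha1 hH)
  have e2 : c ≤ c ^ (((relH σ u v s s') ×ˢ (Finset.univ : Finset Bool)).filter
      (fun p => InP s (p.1, p.2) ∧ InP s' (p.1, p.2))).card := by
    calc c = c ^ 1 := (pow_one c).symm
      _ ≤ _ := pow_le_pow_of_le_one hc0 hc1 hn1
  have e3 : (1 - (g : ℝ)⁻¹) ^ 8 ≤ b ^ (((relH σ u v s s') ×ˢ (Finset.univ : Finset Bool)).filter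
      (fun p => ¬ (InP s (p.1, p.2) ∧ InP s' (p.1, p.2)))).card :=
    (pow_le_pow_left₀ h0 hb 8).trans (pow_le_pow_of_le_one (h0.trans hb) hb1 hn0)
  have e4 : (1 / 2 : ℝ) ≤ (1 - (g : ℝ)⁻¹) ^ 12 := by
    have := one_add_mul_le_pow (a := - (g : ℝ)⁻¹) (by linarith) 12
    push_cast at this
    have e : (1 + -(g : ℝ)⁻¹) = 1 - (g : ℝ)⁻¹ := by ring
    rw [e] at this
    linarith
  calc 1 / (2 * (g : ℝ) ^ 4) = 1 / 2 * c := by
        rw [hcD]
        field_simp
    _ ≤ (1 - (g : ℝ)⁻¹) ^ 12 * c := mul_le_mul_of_nonneg_right e4 hc0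
    _ = (1 - (g : ℝ)⁻¹) ^ 4 * (c * (1 - (g : ℝ)⁻¹) ^ 8) := by ring
    _ ≤ _ := by
        refine mul_le_mul e1 (mul_le_mul e2 e3 (pow_nonneg h0 _) (pow_nonneg hc0 _))
          (mul_nonneg hc0 (pow_nonneg h0 _)) (pow_nonneg (h0.trans ha) _)

end Pool.Larman
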