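import Pool.Agent.Larman.R2Base

/-!
# Construction of the cover: definitions and deterministic part

Package LAR R2Cov (cov_det), R2Hv is a separate file.
`S` supports, `u` a player, `Gam` a set of pairs of distinct units.

`cov_det`.  Let `X = XX S u Gam ω`.
* `X ⊆ S u`: clear (`Xh ⊆ S u`; ends of edges of `eLow ⊆ eIn` are in `S u`).
* `|X| ≤ |Xh| + |eLow| ≤ 2 g^92 + g^101 ≤ 3 g^101`, where `|Xh| g^9 ≤ ∑_y dg y ≤ 2 |eIn| ≤ 2 g^101`
  (double counting).
* covering: `e ∈ Gam` with both ends in `S u` is in `eIn`; if no end is in `Xh` then `e ∈ eLow` and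
  `chE e ∈ {e.1, e.2}` is in `X`.
* for `w ≠ u`: every point of `Q u w` in `X` is a point of a unit `y ∈ X`, two points per unit, `y` is a
  common unit and `(ω (key u w y)).2 i = true` for some `i` (`mem_Q_mkD`), i.e. `tch u ω w y`.
  - `w ∉ Hv`: `qX ≤ 2 |Xh| + 2 |S w ∩ Yn| ≤ 4 g^92 + 2 g^92`.
  - `w ∈ Hv`: the `y ∈ X \ Xh` are `y = chE e`, `e ∈ eLow`, `y ∈ Yn`, `y ∈ S w`, `tch u ω w y`, so
    `y ∈ U0`.  By definition of `chE` this forces `e.1, e.2 ∈ U0` and `y = e.1`, so the edge `e`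
    contributes `1` to `cn` (first indicator).  Different `y` come from different `e`, so
    `qX ≤ 2 |Xh| + 2 cn ≤ 4 g^92 + g^94`.
  In both cases `g^2 qX ≤ 4 g^94 + g^96 ≤ 3 g^96 ≤ |Q u w|` by `PL1q` (`|Q| ≥ 4 g^96 - g^95`).
-/

set_option autoImplicit false

open scoped BigOperators Classical

noncomputable section

namespace Pool.Larman

section
variable {g : ℕ} (S : Pl g → Finset (Un g)) (u : Pl g) (Gam : Finset (Un g × Un g))

/-- edges inside the support of `u` -/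
def eIn : Finset (Un g × Un g) := Gam.filter (fun e => e.1 ∈ S u ∧ e.2 ∈ S u)

/-- degree of a unit -/
def dg (y : Un g) : ℕ := ((eIn S u Gam).filter (fun e => e.1 = y ∨ e.2 = y)).card

/-- units of high degree -/
def Xh : Finset (Un g) := (S u).filter (fun y => (g : ℝ) ^ 9 ≤ (dg S u Gam y : ℝ))

/-- the remaining edges -/
def eLow : Finset (Un g × Un g) :=
  (eIn S u Gam).filter (fun e => e.1 ∉ Xh S u Gam ∧ e.2 ∉ Xh S u Gam)

/-- the ends of the remaining edges -/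
def Yn : Finset (Un g) := (eLow S u Gam).image Prod.fst ∪ (eLow S u Gam).image Prod.snd

/-- heavy players -/
def Hv : Finset (Pl g) :=
  Finset.univ.filter (fun w => w ≠ u ∧ (g : ℝ) ^ 92 ≤ ((S w ∩ Yn S u Gam).card : ℝ))

/-- the unit `y` touches the player `w` -/
def tch (ω : Kc g → Lq) (w : Pl g) (y : Un g) : Prop := ∃ i, (ω (key u w y)).2 i = true

/-- units of `Yn` touching a heavy player -/
def U0 (ω : Kc g → Lq) : Finset (Un g) :=
  (Yn S u Gam).filter (fun y => ∃ w ∈ Hv S u Gam, y ∈ S w ∧ tch u ω w y)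

/-- the chosen end of an edge -/
def chE (ω : Kc g → Lq) (e : Un g × Un g) : Un g :=
  if e.1 ∉ U0 S u Gam ω then e.1 else if e.2 ∉ U0 S u Gam ω then e.2 else e.1

/-- the cover -/
def XX (ω : Kc g → Lq) : Finset (Un g) := Xh S u Gam ∪ (eLow S u Gam).image (chE S u Gam ω)

/-- number of (heavy player, edge, end): the end touches the player, the other end is in `U0` -/
def cn (ω : Kc g → Lq) : ℝ := ∑ w ∈ Hv S u Gam, ∑ e ∈ eLow S u Gam,
  (LarProb.ind (e.1 ∈ S w ∧ tch u ω w e.1 ∧ e.2 ∈ U0 S u Gam ω) +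
    LarProb.ind (e.2 ∈ S w ∧ tch u ω w e.2 ∧ e.1 ∈ U0 S u Gam ω))

end

section aux
variable {g : ℕ} (S : Pl g → Finset (Un g)) (u : Pl g) (Gam : Finset (Un g × Un g))

private theorem Xh_card_R2Cov (hE : ((eIn S u Gam).card : ℝ) ≤ (g : ℝ) ^ 101) (hg : 0 < g) :
    ((Xh S u Gam).card : ℝ) ≤ 2 * (g : ℝ) ^ 92 := by
  have hg0 : (0 : ℝ) < (g : ℝ) := by exact_mod_cast hg
  have h1 : ((Xh S u Gam).card : ℝ) * (g : ℝ) ^ 9 ≤ ∑ y ∈ Xh S u Gam, (dg S u Gam y : ℝ) := by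
    rw [← nsmul_eq_mul]
    refine Finset.card_nsmul_le_sum _ _ _ (fun y hy => ?_)
    exact (Finset.mem_filter.1 hy).2
  have h2 : ∑ y ∈ Xh S u Gam, dg S u Gam y ≤ ∑ e ∈ eIn S u Gam, 2 := by
    unfold dg
    simp_rw [Finset.card_filter]
    rw [Finset.sum_comm]
    refine Finset.sum_le_sum (fun e _ => ?_)
    rw [← Finset.card_filter]
    calc ((Xh S u Gam).filter (fun y => e.1 = y ∨ e.2 = y)).card
        ≤ ({e.1, e.2} : Finset (Un g)).card := by
          refine Finset.card_le_card (fun y hy => ?_)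
          rcases (Finset.mem_filter.1 hy).2 with h | h
          · rw [← h]; simp
          · rw [← h]; simp
      _ ≤ 2 := Finset.card_le_two
  have h3 : ∑ y ∈ Xh S u Gam, (dg S u Gam y : ℝ) ≤ 2 * (g : ℝ) ^ 101 := by
    have : (∑ y ∈ Xh S u Gam, (dg S u Gam y : ℝ)) ≤ ((eIn S u Gam).card : ℝ) * 2 := by
      have h4 := h2
      rw [Finset.sum_const, smul_eq_mul] at h4
      exact_mod_cast h4
    linarith
  have h4 : ((Xh S u Gam).card : ℝ) * (g : ℝ) ^ 9 ≤ (2 * (g : ℝ) ^ 92) * (g : ℝ) ^ 9 := by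
    calc _ ≤ _ := h1
      _ ≤ _ := h3
      _ = _ := by rw [mul_assoc, ← pow_add]
  exact le_of_mul_le_mul_right h4 (pow_pos hg0 9)

private theorem eLow_end_R2Cov {e : Un g × Un g} (he : e ∈ eLow S u Gam) :
    e.1 ∈ S u ∧ e.2 ∈ S u ∧ e.1 ∈ Yn S u Gam ∧ e.2 ∈ Yn S u Gam := by
  have h1 := (Finset.mem_filter.1 he).1
  have h2 := (Finset.mem_filter.1 h1).2
  refine ⟨h2.1, h2.2, ?_, ?_⟩
  · exact Finset.mem_union_left _ (Finset.mem_image_of_mem _ he)
  · exact Finset.mem_union_right _ (Finset.mem_image_of_mem _ he)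

private theorem chE_or_R2Cov (ω : Kc g → Lq) (e : Un g × Un g) :
    chE S u Gam ω e = e.1 ∨ chE S u Gam ω e = e.2 := by
  unfold chE
  split_ifs
  · exact Or.inl rfl
  · exact Or.inr rfl
  · exact Or.inl rfl

private theorem chE_U0_R2Cov (ω : Kc g → Lq) (e : Un g × Un g)
    (h : chE S u Gam ω e ∈ U0 S u Gam ω) :
    chE S u Gam ω e = e.1 ∧ e.2 ∈ U0 S u Gam ω := by
  by_cases h1 : e.1 ∈ U0 S u Gam ω
  · by_cases h2 : e.2 ∈ U0 S u Gam ω
    · refine ⟨?_, h2⟩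
      unfold chE
      rw [if_neg (not_not.2 h1), if_neg (not_not.2 h2)]
    · unfold chE at h
      rw [if_neg (not_not.2 h1), if_pos h2] at h
      exact absurd h h2
  · unfold chE at h
    rw [if_pos h1] at h
    exact absurd h h1

private theorem chE_mem_R2Cov (ω : Kc g → Lq) {e : Un g × Un g} (he : e ∈ eLow S u Gam) :
    chE S u Gam ω e ∈ S u ∧ chE S u Gam ω e ∈ Yn S u Gam := by
  obtain ⟨a, b, c, d⟩ := eLow_end_R2Cov S u Gam he
  rcases chE_or_R2Cov S u Gam ω e with h | h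
  · rw [h]; exact ⟨a, c⟩
  · rw [h]; exact ⟨b, d⟩

private theorem XX_sub_R2Cov (ω : Kc g → Lq) : XX S u Gam ω ⊆ S u := by
  intro y hy
  rcases Finset.mem_union.1 hy with h | h
  · exact (Finset.mem_filter.1 h).1
  · obtain ⟨e, he, rfl⟩ := Finset.mem_image.1 h
    exact (chE_mem_R2Cov S u Gam ω he).1

private theorem XX_card_R2Cov (ω : Kc g → Lq) (hE : ((eIn S u Gam).card : ℝ) ≤ (g : ℝ) ^ 101)
    (hg : 0 < g) : ((XX S u Gam ω).card : ℝ) ≤ 2 * (g : ℝ) ^ 92 + (g : ℝ) ^ 101 := by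
  have h1 := Xh_card_R2Cov S u Gam hE hg
  have h2 : (XX S u Gam ω).card ≤ (Xh S u Gam).card + (eLow S u Gam).card :=
    (Finset.card_union_le _ _).trans (Nat.add_le_add_left Finset.card_image_le _)
  have h3 : (eLow S u Gam).card ≤ (eIn S u Gam).card := Finset.card_filter_le _ _
  have h4 : ((XX S u Gam ω).card : ℝ) ≤ ((Xh S u Gam).card : ℝ) + ((eIn S u Gam).card : ℝ) := by
    exact_mod_cast h2.trans (Nat.add_le_add_left h3 _)
  linarith

private theorem XX_cov_R2Cov (ω : Kc g → Lq) (e : Un g × Un g) (he : e ∈ Gam) (h1 : e.1 ∈ S u)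
    (h2 : e.2 ∈ S u) : e.1 ∈ XX S u Gam ω ∨ e.2 ∈ XX S u Gam ω := by
  have hin : e ∈ eIn S u Gam := Finset.mem_filter.2 ⟨he, h1, h2⟩
  by_cases ha : e.1 ∈ Xh S u Gam
  · exact Or.inl (Finset.mem_union_left _ ha)
  by_cases hb : e.2 ∈ Xh S u Gam
  · exact Or.inr (Finset.mem_union_left _ hb)
  have hl : e ∈ eLow S u Gam := Finset.mem_filter.2 ⟨hin, ha, hb⟩
  have hm : chE S u Gam ω e ∈ XX S u Gam ω :=
    Finset.mem_union_right _ (Finset.mem_image_of_mem _ hl)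
  rcases chE_or_R2Cov S u Gam ω e with h | h
  · left; rw [h] at hm; exact hm
  · right; rw [h] at hm; exact hm

/-- number of edges whose chosen end is counted for the heavy player `w` -/
private theorem cn_ge_R2Cov (ω : Kc g → Lq) (w : Pl g) (hw : w ∈ Hv S u Gam) :
    (((eLow S u Gam).filter (fun e => e.1 ∈ S w ∧ tch u ω w e.1 ∧ e.2 ∈ U0 S u Gam ω)).card : ℝ)
      ≤ cn S u Gam ω := by
  have hnn : ∀ p : Prop, 0 ≤ LarProb.ind p := fun p => by
    unfold LarProb.ind; split_ifs <;> norm_num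
  have h1 : (((eLow S u Gam).filter
      (fun e => e.1 ∈ S w ∧ tch u ω w e.1 ∧ e.2 ∈ U0 S u Gam ω)).card : ℝ) =
      ∑ e ∈ eLow S u Gam, LarProb.ind (e.1 ∈ S w ∧ tch u ω w e.1 ∧ e.2 ∈ U0 S u Gam ω) := by
    rw [Finset.card_filter]
    push_cast
    refine Finset.sum_congr rfl (fun e _ => ?_)
    unfold LarProb.ind
    congr
  rw [h1]
  unfold cn
  refine le_trans ?_ (Finset.single_le_sum (f := fun w => ∑ e ∈ eLow S u Gam,
    (LarProb.ind (e.1 ∈ S w ∧ tch u ω w e.1 ∧ e.2 ∈ U0 S u Gam ω) +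
      LarProb.ind (e.2 ∈ S w ∧ tch u ω w e.2 ∧ e.1 ∈ U0 S u Gam ω))) ?_ hw)
  · refine Finset.sum_le_sum (fun e _ => ?_)
    have := hnn (e.2 ∈ S w ∧ tch u ω w e.2 ∧ e.1 ∈ U0 S u Gam ω)
    linarith
  · intro w' _
    exact Finset.sum_nonneg (fun e _ => add_nonneg (hnn _) (hnn _))

end aux

private theorem qX_le_R2Cov {g : ℕ} (D : Dat g) (u w : Pl g) (X Y : Finset (Un g))
    (h : ∀ p ∈ D.Q u w, p.1 ∈ X → p.1 ∈ Y) : D.qX u w X ≤ 2 * (Y.card : ℝ) := by
  unfold Dat.qX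
  have h1 : ((D.Q u w).filter (fun p => p.1 ∈ X)).card ≤ (Y ×ˢ (Finset.univ : Finset Bool)).card := by
    refine Finset.card_le_card (fun p hp => ?_)
    have h2 := Finset.mem_filter.1 hp
    exact Finset.mem_product.2 ⟨h p h2.1 h2.2, Finset.mem_univ _⟩
  rw [Finset.card_product] at h1
  have h3 : (Finset.univ : Finset Bool).card = 2 := by simp
  rw [h3] at h1
  have h4 : (((D.Q u w).filter (fun p => p.1 ∈ X)).card : ℝ) ≤ ((Y.card * 2 : ℕ) : ℝ) := by
    exact_mod_cast h1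
  push_cast at h4
  linarith

theorem cov_det : ∀ᶠ g : ℕ in Filter.atTop, ∀ (σ : Pl g → Pc g → Fin (pN g)) (ω : Kc g → Lq)
    (u : Pl g) (Gam : Finset (Un g × Un g)), PL1q (mkD σ ω 0) →
    ((eIn (SS σ) u Gam).card : ℝ) ≤ (g : ℝ) ^ 101 →
    cn (SS σ) u Gam ω ≤ (g : ℝ) ^ 94 / 2 → (mkD σ ω 0).Cov u Gam (XX (SS σ) u Gam ω) := by
  filter_upwards [Filter.eventually_ge_atTop 4] with g hg4 σ ω u Gam hQ hE hcn
  have hg : 0 < g := by omega
  have hgr : (4 : ℝ) ≤ (g : ℝ) := by exact_mod_cast hg4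
  have hX := Xh_card_R2Cov (SS σ) u Gam hE hg
  have e92 : (g : ℝ) ^ 2 * (g : ℝ) ^ 92 = (g : ℝ) ^ 94 := by rw [← pow_add]
  have e94 : (g : ℝ) ^ 2 * (g : ℝ) ^ 94 = (g : ℝ) ^ 96 := by rw [← pow_add]
  have e95 : (g : ℝ) * (g : ℝ) ^ 95 = (g : ℝ) ^ 96 := by rw [← pow_succ']
  have p94 : (0 : ℝ) ≤ (g : ℝ) ^ 94 := by positivity
  have p95 : (0 : ℝ) ≤ (g : ℝ) ^ 95 := by positivity
  have h96 : 4 * (g : ℝ) ^ 95 ≤ (g : ℝ) ^ 96 := by
    rw [← e95]; exact mul_le_mul_of_nonneg_right hgr p95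
  have h964 : 16 * (g : ℝ) ^ 94 ≤ (g : ℝ) ^ 96 := by
    rw [← e94]
    refine mul_le_mul_of_nonneg_right ?_ p94
    nlinarith
  have hpt : ∀ w, w ≠ u → ∀ p ∈ (mkD σ ω 0).Q u w, p.1 ∈ SS σ w ∧ tch u ω w p.1 := by
    intro w _ p hp
    have h1 := mem_Q_mkD σ ω 0 |>.1 hp
    exact ⟨h1.1.2, ⟨p.2, h1.2.2.2⟩⟩
  refine ⟨XX_sub_R2Cov (SS σ) u Gam ω, ?_, fun e he h1 h2 => XX_cov_R2Cov (SS σ) u Gam ω e he h1 h2,
    ?_⟩
  · have h1 := XX_card_R2Cov (SS σ) u Gam ω hE hg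
    have h2 : (g : ℝ) ^ 92 ≤ (g : ℝ) ^ 101 := pow_le_pow_right₀ (by linarith) (by norm_num)
    linarith
  · intro w hw
    have hq := (abs_le.1 (hQ u w (Ne.symm hw))).1
    have hmain : (mkD σ ω 0).qX u w (XX (SS σ) u Gam ω) ≤ 6 * (g : ℝ) ^ 92 ∨
        (mkD σ ω 0).qX u w (XX (SS σ) u Gam ω) ≤ 4 * (g : ℝ) ^ 92 + (g : ℝ) ^ 94 := by
      by_cases hv : w ∈ Hv (SS σ) u Gam
      · right
        have h1 := qX_le_R2Cov (mkD σ ω 0) u w (XX (SS σ) u Gam ω)
          (Xh (SS σ) u Gam ∪ (((eLow (SS σ) u Gam).filter (fun e => e.1 ∈ SS σ w ∧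
            tch u ω w e.1 ∧ e.2 ∈ U0 (SS σ) u Gam ω)).image Prod.fst)) ?_
        · have h2 := cn_ge_R2Cov (SS σ) u Gam ω w hv
          have h3 : ((Xh (SS σ) u Gam ∪ (((eLow (SS σ) u Gam).filter (fun e => e.1 ∈ SS σ w ∧
            tch u ω w e.1 ∧ e.2 ∈ U0 (SS σ) u Gam ω)).image Prod.fst)).card : ℝ) ≤
              ((Xh (SS σ) u Gam).card : ℝ) + (((eLow (SS σ) u Gam).filter
                (fun e => e.1 ∈ SS σ w ∧ tch u ω w e.1 ∧ e.2 ∈ U0 (SS σ) u Gam ω)).card : ℝ) := by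
            exact_mod_cast (Finset.card_union_le _ _).trans
              (Nat.add_le_add_left Finset.card_image_le _)
          linarith
        · intro p hp hpX
          obtain ⟨hw1, hw2⟩ := hpt w hw p hp
          rcases Finset.mem_union.1 hpX with h | h
          · exact Finset.mem_union_left _ h
          · obtain ⟨e, he, hep⟩ := Finset.mem_image.1 h
            have hm := chE_mem_R2Cov (SS σ) u Gam ω he
            have hU : chE (SS σ) u Gam ω e ∈ U0 (SS σ) u Gam ω := by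
              refine Finset.mem_filter.2 ⟨hm.2, w, hv, ?_, ?_⟩
              · rw [hep]; exact hw1
              · rw [hep]; exact hw2
            obtain ⟨ha, hb⟩ := chE_U0_R2Cov (SS σ) u Gam ω e hU
            have hp1 : e.1 = p.1 := ha.symm.trans hep
            refine Finset.mem_union_right _ (Finset.mem_image.2 ⟨e, ?_, hp1⟩)
            refine Finset.mem_filter.2 ⟨he, ?_, ?_, hb⟩
            · rw [hp1]; exact hw1
            · rw [hp1]; exact hw2
      · left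
        have h1 := qX_le_R2Cov (mkD σ ω 0) u w (XX (SS σ) u Gam ω)
          (Xh (SS σ) u Gam ∪ (SS σ w ∩ Yn (SS σ) u Gam)) ?_
        · have h2 : ((SS σ w ∩ Yn (SS σ) u Gam).card : ℝ) ≤ (g : ℝ) ^ 92 := by
            by_contra hc
            exact hv (Finset.mem_filter.2 ⟨Finset.mem_univ _, hw, (not_le.1 hc).le⟩)
          have h3 : ((Xh (SS σ) u Gam ∪ (SS σ w ∩ Yn (SS σ) u Gam)).card : ℝ) ≤
              ((Xh (SS σ) u Gam).card : ℝ) + ((SS σ w ∩ Yn (SS σ) u Gam).card : ℝ) := by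
            exact_mod_cast Finset.card_union_le _ _
          linarith
        · intro p hp hpX
          obtain ⟨hw1, hw2⟩ := hpt w hw p hp
          rcases Finset.mem_union.1 hpX with h | h
          · exact Finset.mem_union_left _ h
          · obtain ⟨e, he, hep⟩ := Finset.mem_image.1 h
            have hm := chE_mem_R2Cov (SS σ) u Gam ω he
            rw [hep] at hm
            exact Finset.mem_union_right _ (Finset.mem_inter.2 ⟨hw1, hm.2⟩)
    have p2 : (0 : ℝ) ≤ (g : ℝ) ^ 2 := by positivity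
    rcases hmain with h | h
    · have h5 := mul_le_mul_of_nonneg_left h p2
      have h6 : (g : ℝ) ^ 2 * (6 * (g : ℝ) ^ 92) = 6 * (g : ℝ) ^ 94 := by
        rw [← e92]; ring
      rw [h6] at h5
      linarith
    · have h5 := mul_le_mul_of_nonneg_left h p2
      have h6 : (g : ℝ) ^ 2 * (4 * (g : ℝ) ^ 92 + (g : ℝ) ^ 94) =
          4 * (g : ℝ) ^ 94 + (g : ℝ) ^ 96 := by
        rw [← e92, ← e94, mul_add]; ring
      rw [h6] at h5
      linarith

end Pool.Larman
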