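import Pool.Agent.Larman.R2Cov
import Pool.Agent.LarH.ProbLow

/-!
# Construction of the cover: probability for one player

Package LAR R2CovP.  Hypotheses: `Geo (SS σ)`, pairs of distinct units, few edges inside `S u`.

* `Hv_card`: suppose `|Hv| > g^10` and take `H' ⊆ Hv` with exactly `g^10` elements.
  `∑_{w ∈ H'} |S w ∩ Yn| ≥ g^102`.  For every `y`, `#{w ∈ H' : y ∈ S w} ≤ 1 + #{pairs w ≠ w' in H' with
  y ∈ S w ∩ S w'}`, so the sum is `≤ |Yn| + ∑_{w ≠ w'} |S u ∩ S w ∩ S w'| ≤ 2 g^101 + 50 g^20`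
  (`Yn ⊆ S u`, `|Yn| ≤ 2 |eLow| ≤ 2 g^101`, `Geo.g2`, `w, w' ≠ u`): contradiction for large `g`.
* `cn_mean`: for `e ∈ eLow`, `w ∈ Hv`: `{e.1 ∈ S w, tch w e.1, e.2 ∈ U0}` is contained in the union
  over `w' ∈ Hv` with `e.2 ∈ S w'` of `{tch w e.1 ∧ tch w' e.2}`, whose probability is
  `≤ (2 g^-4)^2` (different units, so different coordinates `key u w e.1`, `key u w' e.2`,
  `key_inj_unit`-type argument via `key_eq_iff`; `Pr_Q`, union over the two twins).  With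
  `hh y = #{w ∈ Hv : y ∈ S w}`: `E cn ≤ 2 * 4 g^-8 * ∑_{e ∈ eLow} hh e.1 * hh e.2`.
  The edges with `hh ≤ 1` at both ends contribute `≤ |eLow| ≤ g^101`.  The units `y ∈ Yn` with
  `hh y ≥ 2` lie in some `S u ∩ S w ∩ S w'`, `w ≠ w'` in `Hv`: at most `50 g^20` units, each in
  `≤ g^9` edges of `eLow` (not in `Xh`), each product `≤ g^20`: total `≤ 50 g^49 ≤ g^101 / 4`.
  So `E cn ≤ 8 g^-8 * (5/4) g^101 = 10 g^93`.
* `cn_tail`: `LarProb.markov` (`cn ≥ 0`).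
* `cn_dep`: `cn` only looks at `ω (key u w y)`, `w ∈ Hv`.
-/

set_option autoImplicit false

open scoped BigOperators Classical

noncomputable section

namespace Pool.Larman

open Pool.LarProb (IsP Ex Pr PW unif)

/-- the coordinates used by the cover of `u` -/
def blkU {g : ℕ} (S : Pl g → Finset (Un g)) (u : Pl g) (Gam : Finset (Un g × Un g)) :
    Finset (Kc g) :=
  (Hv S u Gam ×ˢ (Finset.univ : Finset (Un g))).image (fun p => key u p.1 p.2)

/-! ### counting -/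

private theorem R2CovP_one_add {α : Type} [DecidableEq α] (H : Finset α) (P : α → Prop)
    [DecidablePred P] :
    (H.filter P).card ≤ 1 + (H.offDiag.filter (fun p => P p.1 ∧ P p.2)).card := by
  have h1 : (H.filter P).offDiag ⊆ H.offDiag.filter (fun p => P p.1 ∧ P p.2) := by
    intro p hp
    rw [Finset.mem_offDiag] at hp
    have h2 := Finset.mem_filter.1 hp.1
    have h3 := Finset.mem_filter.1 hp.2.1
    rw [Finset.mem_filter, Finset.mem_offDiag]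
    exact ⟨⟨h2.1, h3.1, hp.2.2⟩, h2.2, h3.2⟩
  have h2 := Finset.card_le_card h1
  rw [Finset.offDiag_card] at h2
  rcases Nat.eq_zero_or_pos (H.filter P).card with h3 | h3
  · omega
  · obtain ⟨m, hm⟩ : ∃ m, (H.filter P).card = m + 1 := ⟨(H.filter P).card - 1, by omega⟩
    rw [hm] at h2 ⊢
    have h4 : (m + 1) * (m + 1) - (m + 1) = m * m + m := by
      have : (m + 1) * (m + 1) = m * m + m + (m + 1) := by ring
      omega
    rw [h4] at h2
    have h5 : 0 ≤ m * m := Nat.zero_le _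
    omega

private theorem R2CovP_two {α : Type} [DecidableEq α] (H : Finset α) (P : α → Prop)
    [DecidablePred P]
    (h : 2 ≤ (H.filter P).card) :
    1 ≤ (H.offDiag.filter (fun p => P p.1 ∧ P p.2)).card := by
  have := R2CovP_one_add H P
  omega

private theorem R2CovP_swap {α β : Type} (J : Finset α) (Y : Finset β) (R : α → β → Prop)
    [∀ a b, Decidable (R a b)] :
    ∑ y ∈ Y, (J.filter (fun j => R j y)).card = ∑ j ∈ J, (Y.filter (fun y => R j y)).card := by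
  simp_rw [Finset.card_filter]
  rw [Finset.sum_comm]

section
variable {g : ℕ} {S : Pl g → Finset (Un g)} {u : Pl g} {Gam : Finset (Un g × Un g)}

private theorem R2CovP_eLow {e : Un g × Un g} (he : e ∈ eLow S u Gam) :
    (e ∈ Gam ∧ e.1 ∈ S u ∧ e.2 ∈ S u) ∧ e.1 ∉ Xh S u Gam ∧ e.2 ∉ Xh S u Gam := by
  unfold eLow at he
  have h1 := Finset.mem_filter.1 he
  have h2 := h1.1
  unfold eIn at h2
  have h3 := Finset.mem_filter.1 h2
  exact ⟨⟨h3.1, h3.2⟩, h1.2⟩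

private theorem R2CovP_Yn {y : Un g} (hy : y ∈ Yn S u Gam) : y ∈ S u ∧ y ∉ Xh S u Gam := by
  unfold Yn at hy
  rcases Finset.mem_union.1 hy with h | h
  · obtain ⟨e, he, rfl⟩ := Finset.mem_image.1 h
    have := R2CovP_eLow he
    exact ⟨this.1.2.1, this.2.1⟩
  · obtain ⟨e, he, rfl⟩ := Finset.mem_image.1 h
    have := R2CovP_eLow he
    exact ⟨this.1.2.2, this.2.2⟩

private theorem R2CovP_card_eLow : (eLow S u Gam).card ≤ (eIn S u Gam).card :=
  Finset.card_le_card (Finset.filter_subset _ _)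

private theorem R2CovP_card_Yn : (Yn S u Gam).card ≤ 2 * (eIn S u Gam).card := by
  unfold Yn
  have h1 := Finset.card_union_le ((eLow S u Gam).image Prod.fst) ((eLow S u Gam).image Prod.snd)
  have h2 : ((eLow S u Gam).image Prod.fst).card ≤ (eLow S u Gam).card := Finset.card_image_le
  have h3 : ((eLow S u Gam).image Prod.snd).card ≤ (eLow S u Gam).card := Finset.card_image_le
  have h4 : (eLow S u Gam).card ≤ (eIn S u Gam).card := R2CovP_card_eLow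
  omega

/-- at most 50 units of Yn for every pair of players -/
private theorem R2CovP_pairs (hG : Geo S) (H : Finset (Pl g)) (hH : ∀ w ∈ H, w ≠ u) :
    ∑ y ∈ Yn S u Gam, (H.offDiag.filter (fun p => y ∈ S p.1 ∧ y ∈ S p.2)).card ≤
      50 * (H.card * H.card) := by
  rw [R2CovP_swap H.offDiag (Yn S u Gam) (fun p y => y ∈ S p.1 ∧ y ∈ S p.2)]
  have h1 : ∀ p ∈ H.offDiag, ((Yn S u Gam).filter (fun y => y ∈ S p.1 ∧ y ∈ S p.2)).card ≤ 50 := by
    intro p hp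
    rw [Finset.mem_offDiag] at hp
    refine (Finset.card_le_card ?_).trans
      (hG.g2 u p.1 p.2 (hH _ hp.1).symm (hH _ hp.2.1).symm hp.2.2)
    intro y hy
    have h2 := Finset.mem_filter.1 hy
    rw [Finset.mem_inter, Finset.mem_inter]
    exact ⟨⟨(R2CovP_Yn h2.1).1, h2.2.1⟩, h2.2.2⟩
  calc ∑ p ∈ H.offDiag, ((Yn S u Gam).filter (fun y => y ∈ S p.1 ∧ y ∈ S p.2)).card
      ≤ ∑ _p ∈ H.offDiag, 50 := Finset.sum_le_sum h1
    _ = H.offDiag.card * 50 := by rw [Finset.sum_const, smul_eq_mul]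
    _ ≤ 50 * (H.card * H.card) := by
        rw [Finset.offDiag_card, mul_comm]
        exact Nat.mul_le_mul_left 50 (Nat.sub_le _ _)

private theorem R2CovP_Hv {w : Pl g} (hw : w ∈ Hv S u Gam) :
    w ≠ u ∧ (g : ℝ) ^ 92 ≤ ((S w ∩ Yn S u Gam).card : ℝ) := by
  unfold Hv at hw
  exact (Finset.mem_filter.1 hw).2

/-- number of heavy players at a unit -/
private def R2CovP_hh (S : Pl g → Finset (Un g)) (u : Pl g) (Gam : Finset (Un g × Un g))
    (y : Un g) : ℕ := ((Hv S u Gam).filter (fun w => y ∈ S w)).card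

private theorem R2CovP_deg {y : Un g} (hy : y ∈ Yn S u Gam) :
    (((eLow S u Gam).filter (fun e => e.1 = y ∨ e.2 = y)).card : ℝ) ≤ (g : ℝ) ^ 9 := by
  have h1 := R2CovP_Yn hy
  have h2 : (dg S u Gam y : ℝ) < (g : ℝ) ^ 9 := by
    by_contra hc
    exact h1.2 (Finset.mem_filter.2 ⟨h1.1, not_lt.1 hc⟩)
  have h3 : ((eLow S u Gam).filter (fun e => e.1 = y ∨ e.2 = y)).card ≤ dg S u Gam y := by
    unfold dg
    refine Finset.card_le_card (fun e he => ?_)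
    have h4 := Finset.mem_filter.1 he
    exact Finset.mem_filter.2 ⟨(Finset.mem_filter.1 h4.1).1, h4.2⟩
  have h3' : (((eLow S u Gam).filter (fun e => e.1 = y ∨ e.2 = y)).card : ℝ) ≤
      (dg S u Gam y : ℝ) := by exact_mod_cast h3
  linarith

/-- the sum of the products of the numbers of heavy players at the two ends -/
private theorem R2CovP_prod (hG : Geo S) (hH : (Hv S u Gam).card ≤ g ^ 10) :
    ∑ e ∈ eLow S u Gam, (R2CovP_hh S u Gam e.1 : ℝ) * (R2CovP_hh S u Gam e.2 : ℝ) ≤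
      ((eLow S u Gam).card : ℝ) + 50 * (g : ℝ) ^ 49 := by
  set Y2 := (Yn S u Gam).filter (fun y => 2 ≤ R2CovP_hh S u Gam y) with hY2
  have hb : ∀ y, (R2CovP_hh S u Gam y : ℝ) ≤ (g : ℝ) ^ 10 := by
    intro y
    have h1 : R2CovP_hh S u Gam y ≤ g ^ 10 :=
      (Finset.card_le_card (Finset.filter_subset _ _)).trans hH
    exact_mod_cast h1
  have h0 : ∀ y, (0 : ℝ) ≤ (R2CovP_hh S u Gam y : ℝ) := fun y => Nat.cast_nonneg _
  have hcard : (Y2.card : ℝ) ≤ 50 * (g : ℝ) ^ 20 := by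
    have h1 : Y2.card ≤ 50 * ((Hv S u Gam).card * (Hv S u Gam).card) := by
      refine le_trans ?_ (R2CovP_pairs (u := u) (Gam := Gam) hG (Hv S u Gam)
        (fun w hw => (R2CovP_Hv hw).1))
      calc Y2.card = ∑ _y ∈ Y2, 1 := by rw [Finset.sum_const, smul_eq_mul, mul_one]
        _ ≤ ∑ y ∈ Y2, ((Hv S u Gam).offDiag.filter (fun p => y ∈ S p.1 ∧ y ∈ S p.2)).card :=
            Finset.sum_le_sum (fun y hy =>
              R2CovP_two (Hv S u Gam) (fun w => y ∈ S w) (Finset.mem_filter.1 hy).2)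
        _ ≤ _ := Finset.sum_le_sum_of_subset (Finset.filter_subset _ _)
    have h2 : Y2.card ≤ 50 * g ^ 20 := by
      refine h1.trans (Nat.mul_le_mul_left 50 ?_)
      calc (Hv S u Gam).card * (Hv S u Gam).card ≤ g ^ 10 * g ^ 10 := Nat.mul_le_mul hH hH
        _ = g ^ 20 := by ring
    exact_mod_cast h2
  have hterm : ∀ e ∈ eLow S u Gam,
      (R2CovP_hh S u Gam e.1 : ℝ) * (R2CovP_hh S u Gam e.2 : ℝ) ≤
      1 + ∑ y ∈ Y2, (if e.1 = y ∨ e.2 = y then (g : ℝ) ^ 20 else 0) := by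
    intro e he
    have hs0 : ∀ y ∈ Y2, (0 : ℝ) ≤ (if e.1 = y ∨ e.2 = y then (g : ℝ) ^ 20 else 0) := by
      intro y _
      split_ifs
      · positivity
      · exact le_refl _
    have hbig : (R2CovP_hh S u Gam e.1 : ℝ) * (R2CovP_hh S u Gam e.2 : ℝ) ≤ (g : ℝ) ^ 20 := by
      calc (R2CovP_hh S u Gam e.1 : ℝ) * (R2CovP_hh S u Gam e.2 : ℝ)
          ≤ (g : ℝ) ^ 10 * (g : ℝ) ^ 10 := mul_le_mul (hb _) (hb _) (h0 _) (by positivity)
        _ = (g : ℝ) ^ 20 := by ring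
    have hin1 : e.1 ∈ Yn S u Gam := Finset.mem_union_left _ (Finset.mem_image_of_mem _ he)
    have hin2 : e.2 ∈ Yn S u Gam := Finset.mem_union_right _ (Finset.mem_image_of_mem _ he)
    by_cases h1 : 2 ≤ R2CovP_hh S u Gam e.1
    · have h2 := Finset.single_le_sum hs0 (Finset.mem_filter.2 ⟨hin1, h1⟩)
      rw [if_pos (Or.inl rfl)] at h2
      linarith
    by_cases h2 : 2 ≤ R2CovP_hh S u Gam e.2
    · have h3 := Finset.single_le_sum hs0 (Finset.mem_filter.2 ⟨hin2, h2⟩)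
      rw [if_pos (Or.inr rfl)] at h3
      linarith
    · have h3 : (R2CovP_hh S u Gam e.1 : ℝ) ≤ 1 := by
        have : R2CovP_hh S u Gam e.1 ≤ 1 := by omega
        exact_mod_cast this
      have h4 : (R2CovP_hh S u Gam e.2 : ℝ) ≤ 1 := by
        have : R2CovP_hh S u Gam e.2 ≤ 1 := by omega
        exact_mod_cast this
      have h5 := Finset.sum_nonneg hs0
      nlinarith [h0 e.1, h0 e.2]
  calc ∑ e ∈ eLow S u Gam, (R2CovP_hh S u Gam e.1 : ℝ) * (R2CovP_hh S u Gam e.2 : ℝ)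
      ≤ ∑ e ∈ eLow S u Gam,
        (1 + ∑ y ∈ Y2, (if e.1 = y ∨ e.2 = y then (g : ℝ) ^ 20 else 0)) :=
        Finset.sum_le_sum hterm
    _ = ((eLow S u Gam).card : ℝ) +
        ∑ y ∈ Y2, ∑ e ∈ eLow S u Gam, (if e.1 = y ∨ e.2 = y then (g : ℝ) ^ 20 else 0) := by
        rw [Finset.sum_add_distrib, Finset.sum_comm, Finset.sum_const, nsmul_eq_mul, mul_one]
    _ ≤ ((eLow S u Gam).card : ℝ) + ∑ _y ∈ Y2, (g : ℝ) ^ 29 := by
        refine add_le_add_right (Finset.sum_le_sum (fun y hy => ?_)) _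
        have h1 := R2CovP_deg (Finset.mem_filter.1 hy).1
        rw [← Finset.sum_filter, Finset.sum_const, nsmul_eq_mul]
        calc (((eLow S u Gam).filter (fun e => e.1 = y ∨ e.2 = y)).card : ℝ) * (g : ℝ) ^ 20
            ≤ (g : ℝ) ^ 9 * (g : ℝ) ^ 20 := mul_le_mul_of_nonneg_right h1 (by positivity)
          _ = (g : ℝ) ^ 29 := by ring
    _ = ((eLow S u Gam).card : ℝ) + (Y2.card : ℝ) * (g : ℝ) ^ 29 := by
        rw [Finset.sum_const, nsmul_eq_mul]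
    _ ≤ _ := by
        have h1 : (Y2.card : ℝ) * (g : ℝ) ^ 29 ≤ 50 * (g : ℝ) ^ 20 * (g : ℝ) ^ 29 :=
          mul_le_mul_of_nonneg_right hcard (by positivity)
        have h2 : 50 * (g : ℝ) ^ 20 * (g : ℝ) ^ 29 = 50 * (g : ℝ) ^ 49 := by ring
        linarith

/-! ### probabilities -/

private theorem R2CovP_depT (w : Pl g) (y : Un g) :
    LarProb.DepOn (A := fun _ : Kc g => Lq) {key u w y}
      (fun ω => tch u ω w y) := by
  intro a b h
  show (∃ i, (a (key u w y)).2 i = true) = (∃ i, (b (key u w y)).2 i = true)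
  rw [h _ (Finset.mem_singleton_self _)]

private theorem R2CovP_PrT (hg : 0 < g) (w : Pl g) (y : Un g) :
    Pr (wQ g) (fun ω => tch u ω w y) ≤ 2 / (g : ℝ) ^ 4 := by
  have h1 : Pr (wQ g) (fun ω => tch u ω w y) = Pr (wL g) (fun x => ∃ i, x.2 i = true) :=
    LarProb.Pr_coord (A := fun _ : Kc g => Lq) (w := fun _ => wL g) (fun _ => wL_isP hg)
      (key u w y) (fun x => ∃ i, x.2 i = true)
  rw [h1]
  have h2 := LarProb.Pr_exists_le (wL_isP hg) (Finset.univ : Finset Bool)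
    (fun i (x : Lq) => x.2 i = true)
  have h3 : Pr (wL g) (fun x => ∃ i, x.2 i = true) =
      Pr (wL g) (fun x => ∃ i ∈ (Finset.univ : Finset Bool), x.2 i = true) :=
    LarProb.Pr_congr (fun x => by simp)
  rw [h3]
  refine h2.trans ?_
  rw [Finset.sum_congr rfl (fun i _ => Pr_Q i), Finset.sum_const, Finset.card_univ,
    Fintype.card_bool, nsmul_eq_mul]
  apply le_of_eq
  push_cast
  ring

private theorem R2CovP_PrTT (hg : 0 < g) {w w' : Pl g} (hw : w ≠ u) (hw' : w' ≠ u)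
    {y y' : Un g} (hy : y ≠ y') :
    Pr (wQ g) (fun ω => tch u ω w y ∧ tch u ω w' y') ≤ 4 / (g : ℝ) ^ 8 := by
  have hk : key u w y ≠ key u w' y' := by
    intro h
    exact hy ((key_eq_iff hw.symm hw'.symm).1 h).1
  have hdis : Disjoint ({key u w y} : Finset (Kc g)) {key u w' y'} := by
    rw [Finset.disjoint_singleton]
    exact hk
  have h1 : Pr (wQ g) (fun ω => tch u ω w y ∧ tch u ω w' y') =
      Pr (wQ g) (fun ω => tch u ω w y) * Pr (wQ g) (fun ω => tch u ω w' y') := by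
    have h2 := LarProb.Ex_mul_indep (A := fun _ : Kc g => Lq) (w := fun _ => wL g)
      (fun _ => wL_isP hg) hdis (R2CovP_depT (u := u) w y).ind (R2CovP_depT (u := u) w' y').ind
    unfold Pr
    rw [wQ, ← h2]
    refine LarProb.Ex_congr (fun ω => ?_)
    exact LarProb.ind_and _ _
  rw [h1]
  have h3 := R2CovP_PrT (u := u) hg w y
  have h4 := R2CovP_PrT (u := u) hg w' y'
  have h5 := LarProb.Pr_nonneg (wQ_isP hg) (fun ω => tch u ω w' y')
  calc Pr (wQ g) (fun ω => tch u ω w y) * Pr (wQ g) (fun ω => tch u ω w' y')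
      ≤ (2 / (g : ℝ) ^ 4) * (2 / (g : ℝ) ^ 4) := mul_le_mul h3 h4 h5 (by positivity)
    _ = 4 / (g : ℝ) ^ 8 := by
        rw [div_mul_div_comm, ← pow_add]
        norm_num

private theorem R2CovP_term (hg : 0 < g) {w : Pl g} (hw : w ∈ Hv S u Gam) {y y' : Un g}
    (hy : y ≠ y') :
    Ex (wQ g) (fun ω => LarProb.ind (y ∈ S w ∧ tch u ω w y ∧ y' ∈ U0 S u Gam ω)) ≤
      LarProb.ind (y ∈ S w) * ((R2CovP_hh S u Gam y' : ℝ) * (4 / (g : ℝ) ^ 8)) := by
  have hP := wQ_isP hg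
  by_cases h1 : y ∈ S w
  · rw [LarProb.ind_true h1, one_mul]
    have h2 : Ex (wQ g) (fun ω => LarProb.ind (y ∈ S w ∧ tch u ω w y ∧ y' ∈ U0 S u Gam ω)) ≤
        Pr (wQ g) (fun ω => ∃ w' ∈ (Hv S u Gam).filter (fun w => y' ∈ S w),
          (tch u ω w y ∧ tch u ω w' y')) := by
      refine LarProb.Ex_mono hP (fun ω => LarProb.ind_mono ?_)
      rintro ⟨_, ht, hU⟩
      unfold U0 at hU
      obtain ⟨w', hw', hS, ht'⟩ := (Finset.mem_filter.1 hU).2
      exact ⟨w', Finset.mem_filter.2 ⟨hw', hS⟩, ht, ht'⟩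
    refine h2.trans ?_
    refine LarProb.Pr_exists_le_card_mul hP _ _ (fun w' hw' => ?_)
    exact R2CovP_PrTT hg (R2CovP_Hv hw).1 (R2CovP_Hv (Finset.mem_filter.1 hw').1).1 hy
  · rw [LarProb.ind_false h1, zero_mul]
    have h2 : Ex (wQ g) (fun ω => LarProb.ind (y ∈ S w ∧ tch u ω w y ∧ y' ∈ U0 S u Gam ω)) = 0 := by
      rw [LarProb.Ex_congr (G := fun _ => (0 : ℝ))
        (fun ω => LarProb.ind_false (fun h => h1 h.1)), LarProb.Ex_zero]
    rw [h2]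

private theorem R2CovP_sum_ind (y : Un g) :
    ∑ w ∈ Hv S u Gam, LarProb.ind (y ∈ S w) = (R2CovP_hh S u Gam y : ℝ) := by
  unfold R2CovP_hh
  rw [Finset.card_filter]
  push_cast
  refine Finset.sum_congr rfl (fun w _ => ?_)
  by_cases h : y ∈ S w
  · rw [LarProb.ind_true h, if_pos h]
  · rw [LarProb.ind_false h, if_neg h]

private theorem R2CovP_cn_nonneg (ω : Kc g → Lq) : 0 ≤ cn S u Gam ω := by
  unfold cn
  exact Finset.sum_nonneg (fun w _ => Finset.sum_nonneg (fun e _ =>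
    add_nonneg (LarProb.ind_nonneg _) (LarProb.ind_nonneg _)))

private theorem R2CovP_mean (hg : 0 < g) (hGam : ∀ e ∈ Gam, e.1 ≠ e.2) :
    Ex (wQ g) (cn S u Gam) ≤ 8 / (g : ℝ) ^ 8 *
      ∑ e ∈ eLow S u Gam, (R2CovP_hh S u Gam e.1 : ℝ) * (R2CovP_hh S u Gam e.2 : ℝ) := by
  have h1 : Ex (wQ g) (cn S u Gam) = ∑ w ∈ Hv S u Gam, ∑ e ∈ eLow S u Gam,
      (Ex (wQ g) (fun ω => LarProb.ind (e.1 ∈ S w ∧ tch u ω w e.1 ∧ e.2 ∈ U0 S u Gam ω)) +
       Ex (wQ g) (fun ω => LarProb.ind (e.2 ∈ S w ∧ tch u ω w e.2 ∧ e.1 ∈ U0 S u Gam ω))) := by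
    have h2 : Ex (wQ g) (cn S u Gam) = Ex (wQ g) (fun ω => ∑ w ∈ Hv S u Gam,
        ∑ e ∈ eLow S u Gam,
        (LarProb.ind (e.1 ∈ S w ∧ tch u ω w e.1 ∧ e.2 ∈ U0 S u Gam ω) +
          LarProb.ind (e.2 ∈ S w ∧ tch u ω w e.2 ∧ e.1 ∈ U0 S u Gam ω))) := rfl
    rw [h2, LarProb.Ex_sum]
    refine Finset.sum_congr rfl (fun w _ => ?_)
    rw [LarProb.Ex_sum]
    refine Finset.sum_congr rfl (fun e _ => ?_)
    rw [LarProb.Ex_add]
  rw [h1]
  calc ∑ w ∈ Hv S u Gam, ∑ e ∈ eLow S u Gam,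
      (Ex (wQ g) (fun ω => LarProb.ind (e.1 ∈ S w ∧ tch u ω w e.1 ∧ e.2 ∈ U0 S u Gam ω)) +
       Ex (wQ g) (fun ω => LarProb.ind (e.2 ∈ S w ∧ tch u ω w e.2 ∧ e.1 ∈ U0 S u Gam ω)))
      ≤ ∑ w ∈ Hv S u Gam, ∑ e ∈ eLow S u Gam,
        (LarProb.ind (e.1 ∈ S w) * ((R2CovP_hh S u Gam e.2 : ℝ) * (4 / (g : ℝ) ^ 8)) +
         LarProb.ind (e.2 ∈ S w) * ((R2CovP_hh S u Gam e.1 : ℝ) * (4 / (g : ℝ) ^ 8))) := by
        refine Finset.sum_le_sum (fun w hw => Finset.sum_le_sum (fun e he => ?_))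
        have hne := hGam e (R2CovP_eLow he).1.1
        exact add_le_add (R2CovP_term hg hw hne) (R2CovP_term hg hw hne.symm)
    _ = ∑ e ∈ eLow S u Gam,
        ((R2CovP_hh S u Gam e.1 : ℝ) * ((R2CovP_hh S u Gam e.2 : ℝ) * (4 / (g : ℝ) ^ 8)) +
         (R2CovP_hh S u Gam e.2 : ℝ) * ((R2CovP_hh S u Gam e.1 : ℝ) * (4 / (g : ℝ) ^ 8))) := by
        rw [Finset.sum_comm]
        refine Finset.sum_congr rfl (fun e _ => ?_)
        rw [Finset.sum_add_distrib, ← Finset.sum_mul, ← Finset.sum_mul, R2CovP_sum_ind,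
          R2CovP_sum_ind]
    _ = _ := by
        rw [Finset.mul_sum]
        refine Finset.sum_congr rfl (fun e _ => ?_)
        ring

end

theorem cn_dep {g : ℕ} (S : Pl g → Finset (Un g)) (u : Pl g) (Gam : Finset (Un g × Un g)) :
    LarProb.DepOn (A := fun _ : Kc g => Lq) (blkU S u Gam) (cn S u Gam) := by
  intro a b h
  have ht : ∀ w ∈ Hv S u Gam, ∀ y, tch u a w y ↔ tch u b w y := by
    intro w hw y
    unfold tch
    rw [h (key u w y) (Finset.mem_image.2 ⟨(w, y),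
      Finset.mem_product.2 ⟨hw, Finset.mem_univ _⟩, rfl⟩)]
  have hU : U0 S u Gam a = U0 S u Gam b := by
    unfold U0
    refine Finset.filter_congr (fun y _ => ?_)
    constructor
    · rintro ⟨w, hw, h1, h2⟩
      exact ⟨w, hw, h1, (ht w hw y).1 h2⟩
    · rintro ⟨w, hw, h1, h2⟩
      exact ⟨w, hw, h1, (ht w hw y).2 h2⟩
  unfold cn
  refine Finset.sum_congr rfl (fun w hw => Finset.sum_congr rfl (fun e _ => ?_))
  rw [hU]
  congr 1
  · exact LarProb.ind_congr (and_congr_right (fun _ => and_congr_left (fun _ => ht w hw e.1)))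
  · exact LarProb.ind_congr (and_congr_right (fun _ => and_congr_left (fun _ => ht w hw e.2)))

theorem Hv_card : ∀ᶠ g : ℕ in Filter.atTop, ∀ (σ : Pl g → Pc g → Fin (pN g)), Geo (SS σ) →
    ∀ (u : Pl g) (Gam : Finset (Un g × Un g)),
    ((eIn (SS σ) u Gam).card : ℝ) ≤ (g : ℝ) ^ 101 → (Hv (SS σ) u Gam).card ≤ g ^ 10 := by
  filter_upwards [Filter.eventually_ge_atTop 100] with g hg σ hG u Gam hE
  have hg1 : (100 : ℝ) ≤ g := by exact_mod_cast hg
  by_contra hc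
  push Not at hc
  obtain ⟨H, hHs, hHc⟩ := Finset.exists_subset_card_eq hc.le
  have h1 : ∑ w ∈ H, ((SS σ) w ∩ Yn (SS σ) u Gam).card ≤
      (Yn (SS σ) u Gam).card + 50 * (H.card * H.card) := by
    have e1 : ∑ w ∈ H, ((SS σ) w ∩ Yn (SS σ) u Gam).card =
        ∑ y ∈ Yn (SS σ) u Gam, (H.filter (fun w => y ∈ (SS σ) w)).card := by
      rw [R2CovP_swap H (Yn (SS σ) u Gam) (fun w y => y ∈ (SS σ) w)]
      refine Finset.sum_congr rfl (fun w _ => ?_)
      congr 1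
      ext y
      rw [Finset.mem_inter, Finset.mem_filter]
      exact and_comm
    rw [e1]
    calc ∑ y ∈ Yn (SS σ) u Gam, (H.filter (fun w => y ∈ (SS σ) w)).card
        ≤ ∑ y ∈ Yn (SS σ) u Gam, (1 +
          (H.offDiag.filter (fun p => y ∈ (SS σ) p.1 ∧ y ∈ (SS σ) p.2)).card) :=
          Finset.sum_le_sum (fun y _ => R2CovP_one_add H (fun w => y ∈ (SS σ) w))
      _ = (Yn (SS σ) u Gam).card + ∑ y ∈ Yn (SS σ) u Gam,
          (H.offDiag.filter (fun p => y ∈ (SS σ) p.1 ∧ y ∈ (SS σ) p.2)).card := by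
          rw [Finset.sum_add_distrib, Finset.sum_const, smul_eq_mul, mul_one]
      _ ≤ _ := Nat.add_le_add_left (R2CovP_pairs hG H
          (fun w hw => (R2CovP_Hv (hHs hw)).1)) _
  have h2 : (g : ℝ) ^ 10 * (g : ℝ) ^ 92 ≤
      ((∑ w ∈ H, ((SS σ) w ∩ Yn (SS σ) u Gam).card : ℕ) : ℝ) := by
    push_cast
    calc (g : ℝ) ^ 10 * (g : ℝ) ^ 92 = ∑ _w ∈ H, (g : ℝ) ^ 92 := by
          rw [Finset.sum_const, nsmul_eq_mul, hHc]
          push_cast
          rfl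
      _ ≤ _ := Finset.sum_le_sum (fun w hw => (R2CovP_Hv (hHs hw)).2)
  have h3 : ((∑ w ∈ H, ((SS σ) w ∩ Yn (SS σ) u Gam).card : ℕ) : ℝ) ≤
      (((Yn (SS σ) u Gam).card + 50 * (H.card * H.card) : ℕ) : ℝ) := by exact_mod_cast h1
  have h4 : (((Yn (SS σ) u Gam).card + 50 * (H.card * H.card) : ℕ) : ℝ) ≤
      2 * (g : ℝ) ^ 101 + 50 * ((g : ℝ) ^ 10 * (g : ℝ) ^ 10) := by
    have h5 : ((Yn (SS σ) u Gam).card : ℝ) ≤ 2 * ((eIn (SS σ) u Gam).card : ℝ) := by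
      exact_mod_cast R2CovP_card_Yn (S := SS σ) (u := u) (Gam := Gam)
    rw [hHc]
    push_cast
    linarith
  have h5 : (g : ℝ) ^ 10 * (g : ℝ) ^ 92 = g * (g : ℝ) ^ 101 := by ring
  have h6 : (g : ℝ) ^ 10 * (g : ℝ) ^ 10 ≤ (g : ℝ) ^ 101 := by
    rw [← pow_add]
    exact pow_le_pow_right₀ (by linarith) (by norm_num)
  have h7 : (0 : ℝ) < (g : ℝ) ^ 101 := by positivity
  nlinarith

theorem cn_mean : ∀ᶠ g : ℕ in Filter.atTop, ∀ (σ : Pl g → Pc g → Fin (pN g)), Geo (SS σ) →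
    ∀ (u : Pl g) (Gam : Finset (Un g × Un g)), (∀ e ∈ Gam, e.1 ≠ e.2) →
    ((eIn (SS σ) u Gam).card : ℝ) ≤ (g : ℝ) ^ 101 →
    Ex (wQ g) (cn (SS σ) u Gam) ≤ 10 * (g : ℝ) ^ 93 := by
  filter_upwards [Hv_card, Filter.eventually_ge_atTop 1000] with g hHv hg σ hG u Gam hGam hE
  have hg1 : (1000 : ℝ) ≤ g := by exact_mod_cast hg
  have hg0 : (0 : ℝ) < g := by linarith
  have h1 := R2CovP_mean (S := SS σ) (u := u) (by omega : 0 < g) hGam
  have h2 := R2CovP_prod (u := u) (Gam := Gam) hG (hHv σ hG u Gam hE)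
  have h3 : ((eLow (SS σ) u Gam).card : ℝ) ≤ ((eIn (SS σ) u Gam).card : ℝ) := by
    exact_mod_cast R2CovP_card_eLow (S := SS σ) (u := u) (Gam := Gam)
  have h4 : 50 * (g : ℝ) ^ 49 ≤ (g : ℝ) ^ 101 / 4 := by
    have e1 : (g : ℝ) ^ 50 ≤ (g : ℝ) ^ 101 := pow_le_pow_right₀ (by linarith) (by norm_num)
    have e2 : (g : ℝ) ^ 50 = g * (g : ℝ) ^ 49 := by ring
    have e3 : (0 : ℝ) < (g : ℝ) ^ 49 := by positivity
    nlinarith
  calc Ex (wQ g) (cn (SS σ) u Gam) ≤ 8 / (g : ℝ) ^ 8 *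
      ∑ e ∈ eLow (SS σ) u Gam,
        (R2CovP_hh (SS σ) u Gam e.1 : ℝ) * (R2CovP_hh (SS σ) u Gam e.2 : ℝ) := h1
    _ ≤ 8 / (g : ℝ) ^ 8 * (5 / 4 * (g : ℝ) ^ 101) :=
        mul_le_mul_of_nonneg_left (by linarith) (by positivity)
    _ = 10 * (g : ℝ) ^ 93 := by
        rw [div_mul_eq_mul_div, div_eq_iff (by positivity)]
        ring

theorem cn_tail : ∀ᶠ g : ℕ in Filter.atTop, ∀ (σ : Pl g → Pc g → Fin (pN g)), Geo (SS σ) →
    ∀ (u : Pl g) (Gam : Finset (Un g × Un g)), (∀ e ∈ Gam, e.1 ≠ e.2) →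
    ((eIn (SS σ) u Gam).card : ℝ) ≤ (g : ℝ) ^ 101 →
    Pr (wQ g) (fun ω => (g : ℝ) ^ 94 / 2 < cn (SS σ) u Gam ω) ≤ 20 / g := by
  filter_upwards [cn_mean, Filter.eventually_ge_atTop 1] with g hm hg σ hG u Gam hGam hE
  have hg0 : (0 : ℝ) < g := by exact_mod_cast hg
  have hP := wQ_isP (g := g) (by omega)
  have ht : (0 : ℝ) < (g : ℝ) ^ 94 / 2 := by positivity
  have h1 := LarProb.markov hP (F := cn (SS σ) u Gam) (fun ω => R2CovP_cn_nonneg ω) ht
  have h2 : Pr (wQ g) (fun ω => (g : ℝ) ^ 94 / 2 < cn (SS σ) u Gam ω) ≤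
      Pr (wQ g) (fun ω => (g : ℝ) ^ 94 / 2 ≤ cn (SS σ) u Gam ω) :=
    LarProb.Pr_mono hP (fun ω h => h.le)
  refine h2.trans (h1.trans ?_)
  rw [div_le_iff₀ ht]
  refine (hm σ hG u Gam hGam hE).trans (le_of_eq ?_)
  rw [div_mul_eq_mul_div, eq_div_iff hg0.ne']
  ring

end Pool.Larman
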