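import Pool.Agent.Larman.R2Base
import Pool.Agent.LarH.ProbLow

/-!
# Sizes of C and Q

Package LAR R2L1.  Tool: `LarProb.tail_abs_inj` for `wQ g` (coordinates `Kc g`, `v = wL g`), for fixed
`u ≠ v`, `J` = units, `s` = a set of common units, `k y = key u v y` (injective, `key_inj_unit`);
union bound over the pairs `(u, v)` (at most `g^24000`), `LarProb.Pr_exists_le_card_mul`; all
failure probabilities are `≤ 2 exp (-g)` for large `g` (`LarProb.ev_exp_small`).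
By `Geo` (`g1z`) the number of common units of every kind is `g^100 ± g^51`.

* `t1c`: `C u v` = common blocks `y` with `(ω (key u v y)).1 = true` (`mem_C_mkD`).
  `Y y x = ind (x.1 = true) - 1/g^92` (`Pr_C`), `b = 1`, `V = 2 g^8`, `t = g^8 / 4`:
  `t^2/(4V) = g^8 / 128`.  The mean number is `(g^100 ± g^51)/g^92 = g^8 ± 1`.
* `t1m`: points of `Q u v` of kind 0 = `(y, true)`, `y` a common unit of kind 0 with
  `(ω (key u v y)).2 true = true` (`mem_Q_mkD`, `isReal`).  `Pr_Q`.  `V = 2 g^96`, `t = g^95 / 2`,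
  mean `g^96 ± g^47`.
* `t1q`: the same for all points; per unit the number of points of `Q` is a function of the label:
  kind 0 and 2: `ind (x.2 true = true)`, kind 1: `∑ i, ind (¬ x.1 = true ∧ x.2 i = true)`
  (`Pr_notC_Q`), values in `[0,2]`, means `g^-4` resp. `2 (1 - g^-92) g^-4`; total mean
  `4 g^96 ± 4 g^47 ± 4 g^4`; `b = 3`, `V = 40 g^96`, `t = g^95 / 2`.
-/

set_option autoImplicit false

open scoped BigOperators Classical

noncomputable section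

namespace Pool.Larman

open Pool.LarProb (IsP Ex Pr PW unif)

/-- number of points of Q in a common unit, as a function of the label -/
private def fQ {g : ℕ} (y : Un g) (x : Lq) : ℝ :=
  ∑ i : Bool, LarProb.ind ((¬ (y.1 = 1 ∧ x.1 = true)) ∧ isReal ((y, i) : Pp g) ∧ x.2 i = true)

private theorem fQ_nonneg {g : ℕ} (y : Un g) (x : Lq) : 0 ≤ fQ y x :=
  Finset.sum_nonneg fun _ _ => LarProb.ind_nonneg _

private theorem fQ_le {g : ℕ} (y : Un g) (x : Lq) : fQ y x ≤ 2 := by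
  unfold fQ
  rw [Fintype.sum_bool]
  have h1 := LarProb.ind_le_one
    ((¬ (y.1 = 1 ∧ x.1 = true)) ∧ isReal ((y, true) : Pp g) ∧ x.2 true = true)
  have h2 := LarProb.ind_le_one
    ((¬ (y.1 = 1 ∧ x.1 = true)) ∧ isReal ((y, false) : Pp g) ∧ x.2 false = true)
  linarith

private theorem Ex_fQ_one {g : ℕ} {y : Un g} (hy : y.1 = 1) :
    Ex (wL g) (fQ y) = 2 * ((1 - 1 / (g : ℝ) ^ 92) * (1 / (g : ℝ) ^ 4)) := by
  have h1 : fQ y = fun x => LarProb.ind (¬ x.1 = true ∧ x.2 true = true) +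
      LarProb.ind (¬ x.1 = true ∧ x.2 false = true) := by
    funext x
    unfold fQ
    rw [Fintype.sum_bool]
    congr 1
    · refine LarProb.ind_congr ?_
      simp [isReal, hy]
    · refine LarProb.ind_congr ?_
      simp [isReal, hy]
  rw [h1, LarProb.Ex_add]
  have h2 := Pr_notC_Q (g := g) true
  have h3 := Pr_notC_Q (g := g) false
  unfold Pr at h2 h3
  rw [h2, h3]
  ring

private theorem Ex_fQ_ne {g : ℕ} {y : Un g} (hy : y.1 ≠ 1) :
    Ex (wL g) (fQ y) = 1 / (g : ℝ) ^ 4 := by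
  have h1 : fQ y = fun x => LarProb.ind (x.2 true = true) := by
    funext x
    unfold fQ
    rw [Fintype.sum_bool]
    have h2 : LarProb.ind ((¬ (y.1 = 1 ∧ x.1 = true)) ∧ isReal ((y, false) : Pp g) ∧
        x.2 false = true) = 0 := by
      refine LarProb.ind_false ?_
      simp [isReal, hy]
    rw [h2, add_zero]
    refine LarProb.ind_congr ?_
    simp [isReal, hy]
  rw [h1]
  exact Pr_Q true

private theorem card_Q_eq {g : ℕ} (σ : Pl g → Pc g → Fin (pN g)) (ω : Kc g → Lq) (u v : Pl g)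
    (R : Un g → Prop) :
    ((((mkD σ ω 0).Q u v).filter (fun p => R p.1)).card : ℝ) =
      ∑ y ∈ (supp (σ u) ∩ supp (σ v)).filter R, fQ y (ω (key u v y)) := by
  have h1 : ((mkD σ ω 0).Q u v).filter (fun p => R p.1) =
      Finset.univ.filter (fun p : Pp g => (p.1 ∈ (supp (σ u) ∩ supp (σ v)).filter R) ∧
        ((¬ (p.1.1 = 1 ∧ (ω (key u v p.1)).1 = true)) ∧ isReal p ∧
          (ω (key u v p.1)).2 p.2 = true)) := by
    ext p
    rw [Finset.mem_filter, mem_Q_mkD, Finset.mem_filter, Finset.mem_filter, Finset.mem_inter]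
    simp only [Finset.mem_univ, true_and]
    tauto
  rw [h1, ← Finset.sum_boole, Fintype.sum_prod_type,
    ← Finset.univ_inter ((supp (σ u) ∩ supp (σ v)).filter R), ← Finset.sum_ite_mem]
  refine Finset.sum_congr rfl fun y _ => ?_
  rw [Finset.univ_inter]
  by_cases hy : y ∈ (supp (σ u) ∩ supp (σ v)).filter R
  · rw [if_pos hy]
    unfold fQ
    refine Finset.sum_congr rfl fun i _ => ?_
    unfold LarProb.ind
    simp only [hy, true_and]
    congr!
  · rw [if_neg hy]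
    refine Finset.sum_eq_zero fun i _ => ?_
    rw [if_neg]
    exact fun h => hy h.1

private theorem card_C_eq {g : ℕ} (σ : Pl g → Pc g → Fin (pN g)) (ω : Kc g → Lq) (u v : Pl g) :
    (((mkD σ ω 0).C u v).card : ℝ) =
      ∑ y ∈ kind 1 (supp (σ u) ∩ supp (σ v)),
        LarProb.ind ((ω (key u v y)).1 = true) := by
  have h1 : (mkD σ ω 0).C u v = (kind 1 (supp (σ u) ∩ supp (σ v))).filter
      (fun y => (ω (key u v y)).1 = true) := by
    ext y
    unfold kind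
    rw [mem_C_mkD, Finset.mem_filter, Finset.mem_filter, Finset.mem_inter]
    tauto
  rw [h1, ← Finset.sum_boole]
  refine Finset.sum_congr rfl fun y _ => ?_
  unfold LarProb.ind
  congr!

/-- concentration around the mean -/
private theorem l1_conc {g : ℕ} (hg : 0 < g) (u v : Pl g) (s : Finset (Un g))
    (F : Un g → Lq → ℝ) {c V t : ℝ} (h0 : ∀ y x, 0 ≤ F y x) (hc : ∀ y x, F y x ≤ c)
    (hV : c * ∑ y ∈ s, Ex (wL g) (F y) ≤ V) (hV0 : 0 < V) (ht : 0 ≤ t) (hbt : c * t ≤ 2 * V) :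
    Pr (wQ g) (fun ω => t ≤ |∑ y ∈ s, F y (ω (key u v y)) - ∑ y ∈ s, Ex (wL g) (F y)|) ≤
      2 * Real.exp (-(t ^ 2 / (4 * V))) := by
  have hv := wL_isP hg
  have hm0 : ∀ y, 0 ≤ Ex (wL g) (F y) := fun y => LarProb.Ex_nonneg hv (h0 y)
  have hmc : ∀ y, Ex (wL g) (F y) ≤ c := fun y => LarProb.Ex_le_const hv (hc y)
  have h := LarProb.tail_abs_inj (I := Kc g) hv s (key u v)
    (fun y _ y' _ hyy => key_inj_unit hyy) (fun y a => F y a - Ex (wL g) (F y))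
    (b := c) (V := V) (t := t) (fun y _ a => ?_) (fun y _ => ?_) ?_ hV0 ht hbt
  · refine le_trans (le_of_eq ?_) h
    refine LarProb.Pr_congr fun ω => ?_
    rw [Finset.sum_sub_distrib]
  · rw [abs_le]
    constructor
    · linarith [h0 y a, hmc y]
    · linarith [hc y a, hm0 y]
  · rw [LarProb.Ex_sub, LarProb.Ex_const hv, sub_self]
  · refine le_trans ?_ hV
    rw [Finset.mul_sum]
    refine Finset.sum_le_sum fun y _ => ?_
    have h1 : Ex (wL g) (fun a => (F y a - Ex (wL g) (F y)) ^ 2) ≤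
        Ex (wL g) (fun a => (c - 2 * Ex (wL g) (F y)) * F y a + Ex (wL g) (F y) ^ 2) := by
      refine LarProb.Ex_mono hv fun a => ?_
      nlinarith [h0 y a, hc y a, mul_nonneg (h0 y a) (sub_nonneg.2 (hc y a))]
    rw [LarProb.Ex_add, LarProb.Ex_mul_left, LarProb.Ex_const hv] at h1
    nlinarith [sq_nonneg (Ex (wL g) (F y))]

/-- union bound over the pairs of players -/
private theorem l1_union {g : ℕ} (hg : 0 < g) (T : (Kc g → Lq) → Prop)
    (B : Pl g → Pl g → (Kc g → Lq) → Prop) {q : ℝ} (hq : 0 ≤ q)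
    (h1 : ∀ ω, T ω → ∃ u v, u ≠ v ∧ B u v ω)
    (h2 : ∀ u v, u ≠ v → Pr (wQ g) (B u v) ≤ q) : Pr (wQ g) T ≤ (g : ℝ) ^ 24000 * q := by
  have hp := wQ_isP hg
  have h3 := LarProb.Pr_exists_le_card_mul hp
    (Finset.univ.filter fun p : Pl g × Pl g => p.1 ≠ p.2) (fun p ω => B p.1 p.2 ω) (q := q)
    (fun p hp' => h2 p.1 p.2 (Finset.mem_filter.1 hp').2)
  have h4 : Pr (wQ g) T ≤ Pr (wQ g) (fun ω =>
      ∃ p ∈ Finset.univ.filter (fun p : Pl g × Pl g => p.1 ≠ p.2), B p.1 p.2 ω) := by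
    refine LarProb.Pr_mono hp fun ω hω => ?_
    obtain ⟨u, v, huv, hB⟩ := h1 ω hω
    exact ⟨(u, v), Finset.mem_filter.2 ⟨Finset.mem_univ _, huv⟩, hB⟩
  refine (h4.trans h3).trans (mul_le_mul_of_nonneg_right ?_ hq)
  have h5 : (Finset.univ.filter fun p : Pl g × Pl g => p.1 ≠ p.2).card ≤ mP g * mP g := by
    refine (Finset.card_filter_le _ _).trans ?_
    rw [Finset.card_univ, Fintype.card_prod, Fintype.card_fin]
  calc ((Finset.univ.filter fun p : Pl g × Pl g => p.1 ≠ p.2).card : ℝ) ≤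
        ((mP g * mP g : ℕ) : ℝ) := by exact_mod_cast h5
    _ = (g : ℝ) ^ 24000 := by
      rw [Nat.cast_mul, mP_cast, ← pow_add]

theorem t1c : ∀ᶠ g : ℕ in Filter.atTop, ∀ σ : Pl g → Pc g → Fin (pN g), Geo (SS σ) →
    Pr (wQ g) (fun ω => ¬ PL1c (mkD σ ω 0)) ≤ 1 / 20 := by
  filter_upwards [LarProb.ev_exp_small 24000 (c := 1) (C := 2) (e := 1 / 20) one_pos (by norm_num),
    Filter.eventually_ge_atTop 128] with g he hg
  intro σ hgeo
  have hg1 : (128 : ℝ) ≤ g := by exact_mod_cast hg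
  have hg0 : 0 < g := by omega
  have hgp : (0 : ℝ) < g := by linarith
  have h1g : (1 : ℝ) ≤ g := by linarith
  have key8 : (g : ℝ) ≤ (g : ℝ) ^ 8 / 128 := by
    rw [le_div_iff₀ (by norm_num)]
    calc (g : ℝ) * 128 ≤ (g : ℝ) * (g : ℝ) ^ 7 := by
          refine mul_le_mul_of_nonneg_left (hg1.trans ?_) hgp.le
          exact le_self_pow₀ h1g (by norm_num)
      _ = (g : ℝ) ^ 8 := by ring
  have hP8 : (0 : ℝ) < (g : ℝ) ^ 8 := by positivity
  refine le_trans (l1_union hg0 _ (fun u v ω => (g : ℝ) ^ 8 / 4 ≤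
    |∑ y ∈ kind 1 (supp (σ u) ∩ supp (σ v)), LarProb.ind ((ω (key u v y)).1 = true) -
      ∑ y ∈ kind 1 (supp (σ u) ∩ supp (σ v)), Ex (wL g) (fun x => LarProb.ind (x.1 = true))|)
    (q := 2 * Real.exp (-(1 * (g : ℝ)))) (by positivity) (fun ω hω => ?_)
    (fun u v huv => ?_)) ?_
  · -- deterministic part
    unfold PL1c at hω
    push Not at hω
    obtain ⟨u, v, huv, hω⟩ := hω
    refine ⟨u, v, huv, ?_⟩
    by_contra hcon
    rw [← card_C_eq σ ω u v] at hcon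
    have hPC : Ex (wL g) (fun x => LarProb.ind (x.1 = true)) = 1 / (g : ℝ) ^ 92 := Pr_C
    rw [Finset.sum_const, nsmul_eq_mul, hPC] at hcon
    have h2 := abs_le.1 (hgeo.g1z u v huv 1)
    have h3 : (g : ℝ) ^ 51 ≤ (g : ℝ) ^ 92 := pow_le_pow_right₀ h1g (by norm_num)
    have h4 : (g : ℝ) ^ 100 = (g : ℝ) ^ 8 * (g : ℝ) ^ 92 := by rw [← pow_add]
    have hP92 : (0 : ℝ) < (g : ℝ) ^ 92 := by positivity
    have h5 := abs_lt.1 (not_le.1 hcon)
    have h6 : ((kind 1 (supp (σ u) ∩ supp (σ v))).card : ℝ) * (1 / (g : ℝ) ^ 92) ≤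
        (g : ℝ) ^ 8 + 1 := by
      rw [mul_one_div, div_le_iff₀ hP92]
      have := h2.2
      simp only [SS] at this
      nlinarith
    have h7 : (g : ℝ) ^ 8 - 1 ≤
        ((kind 1 (supp (σ u) ∩ supp (σ v))).card : ℝ) * (1 / (g : ℝ) ^ 92) := by
      rw [mul_one_div, le_div_iff₀ hP92]
      have := h2.1
      simp only [SS] at this
      nlinarith
    have h8 : (128 : ℝ) ≤ (g : ℝ) ^ 8 := by linarith
    have h9 := hω (by linarith [h5.1])
    linarith [h5.2]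
  · -- probability of one event
    have h2 := abs_le.1 (hgeo.g1z u v huv 1)
    have hPC : Ex (wL g) (fun x => LarProb.ind (x.1 = true)) = 1 / (g : ℝ) ^ 92 := Pr_C
    have h := l1_conc hg0 u v (kind 1 (supp (σ u) ∩ supp (σ v)))
      (fun _ x => LarProb.ind (x.1 = true)) (c := 1) (V := 2 * (g : ℝ) ^ 8)
      (t := (g : ℝ) ^ 8 / 4) (fun _ _ => LarProb.ind_nonneg _) (fun _ _ => LarProb.ind_le_one _)
      (by
        rw [Finset.sum_const, nsmul_eq_mul, hPC, one_mul]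
        have h3 : (g : ℝ) ^ 51 ≤ (g : ℝ) ^ 100 := pow_le_pow_right₀ h1g (by norm_num)
        have h4 : (g : ℝ) ^ 100 = (g : ℝ) ^ 8 * (g : ℝ) ^ 92 := by rw [← pow_add]
        have hP92 : (0 : ℝ) < (g : ℝ) ^ 92 := by positivity
        rw [mul_one_div, div_le_iff₀ hP92]
        have := h2.2
        simp only [SS] at this
        nlinarith) (by positivity) (by positivity) (by linarith)
    refine h.trans ?_
    refine mul_le_mul_of_nonneg_left (Real.exp_le_exp.2 ?_) (by norm_num)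
    have h5 : ((g : ℝ) ^ 8 / 4) ^ 2 / (4 * (2 * (g : ℝ) ^ 8)) = (g : ℝ) ^ 8 / 128 := by
      field_simp
      norm_num
    rw [h5]
    linarith
  · calc (g : ℝ) ^ 24000 * (2 * Real.exp (-(1 * (g : ℝ)))) =
        2 * (g : ℝ) ^ 24000 * Real.exp (-(1 * (g : ℝ))) := by ring
      _ ≤ 1 / 20 := he

private theorem num94 {g : ℝ} (hg : 320 ≤ g) : g ≤ g ^ 94 / 320 := by
  have h1 : (1 : ℝ) ≤ g := by linarith
  rw [le_div_iff₀ (by norm_num)]
  calc g * 320 ≤ g * g ^ 93 := by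
        refine mul_le_mul_of_nonneg_left (hg.trans ?_) (by linarith)
        exact le_self_pow₀ h1 (by norm_num)
    _ = g ^ 94 := by ring

/-- The tail for a part of the points of Q. -/
private theorem l1_Q {g : ℕ} (hg : 320 ≤ g) (u v : Pl g) (s : Finset (Un g))
    (hs : ∑ y ∈ s, Ex (wL g) (fQ y) ≤ 10 * (g : ℝ) ^ 96) :
    Pr (wQ g) (fun ω => (g : ℝ) ^ 95 / 2 ≤
      |∑ y ∈ s, fQ y (ω (key u v y)) - ∑ y ∈ s, Ex (wL g) (fQ y)|) ≤
      2 * Real.exp (-(1 * (g : ℝ))) := by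
  have hg1 : (320 : ℝ) ≤ g := by exact_mod_cast hg
  have hg0 : 0 < g := by omega
  have hgp : (0 : ℝ) < g := by linarith
  have h1g : (1 : ℝ) ≤ g := by linarith
  have h1 : (g : ℝ) ^ 95 ≤ (g : ℝ) ^ 96 := pow_le_pow_right₀ h1g (by norm_num)
  have hP : (0 : ℝ) < (g : ℝ) ^ 95 := by positivity
  have hP94 : (0 : ℝ) < (g : ℝ) ^ 94 := by positivity
  have h := l1_conc hg0 u v s (fun y x => fQ y x) (c := 2) (V := 20 * (g : ℝ) ^ 96)
    (t := (g : ℝ) ^ 95 / 2) (fun y x => fQ_nonneg y x) (fun y x => fQ_le y x)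
    (by linarith) (by positivity) (by positivity) (by linarith)
  refine h.trans ?_
  refine mul_le_mul_of_nonneg_left (Real.exp_le_exp.2 ?_) (by norm_num)
  have h5 : ((g : ℝ) ^ 95 / 2) ^ 2 / (4 * (20 * (g : ℝ) ^ 96)) = (g : ℝ) ^ 94 / 320 := by
    have h6 : (g : ℝ) ^ 95 = g * (g : ℝ) ^ 94 := by ring
    have h7 : (g : ℝ) ^ 96 = g ^ 2 * (g : ℝ) ^ 94 := by ring
    rw [h6, h7]
    generalize (g : ℝ) ^ 94 = P at hP94
    field_simp
    norm_num
  rw [h5]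
  linarith [num94 hg1]

theorem t1m : ∀ᶠ g : ℕ in Filter.atTop, ∀ σ : Pl g → Pc g → Fin (pN g), Geo (SS σ) →
    Pr (wQ g) (fun ω => ¬ PL1m (mkD σ ω 0)) ≤ 1 / 20 := by
  filter_upwards [LarProb.ev_exp_small 24000 (c := 1) (C := 2) (e := 1 / 20) one_pos (by norm_num),
    Filter.eventually_ge_atTop 320] with g he hg
  intro σ hgeo
  have hg1 : (320 : ℝ) ≤ g := by exact_mod_cast hg
  have hg0 : 0 < g := by omega
  have hgp : (0 : ℝ) < g := by linarith
  have h1g : (1 : ℝ) ≤ g := by linarith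
  have hP4 : (0 : ℝ) < (g : ℝ) ^ 4 := by positivity
  have hP47 : (0 : ℝ) < (g : ℝ) ^ 47 := by positivity
  have e100 : (g : ℝ) ^ 100 = (g : ℝ) ^ 96 * (g : ℝ) ^ 4 := by rw [← pow_add]
  have e51 : (g : ℝ) ^ 51 = (g : ℝ) ^ 47 * (g : ℝ) ^ 4 := by rw [← pow_add]
  have e95 : (g : ℝ) ^ 47 ≤ (g : ℝ) ^ 94 := pow_le_pow_right₀ h1g (by norm_num)
  have e95' : (g : ℝ) ^ 95 = g * (g : ℝ) ^ 94 := by ring
  have e96 : (g : ℝ) ^ 96 = g ^ 2 * (g : ℝ) ^ 94 := by ring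
  have hP94 : (0 : ℝ) < (g : ℝ) ^ 94 := by positivity
  -- the mean
  have hmean : ∀ u v, u ≠ v →
      |∑ y ∈ kind 0 (supp (σ u) ∩ supp (σ v)), Ex (wL g) (fQ y) - (g : ℝ) ^ 96| ≤
        (g : ℝ) ^ 47 := by
    intro u v huv
    have h1 : ∑ y ∈ kind 0 (supp (σ u) ∩ supp (σ v)), Ex (wL g) (fQ y) =
        ((kind 0 (supp (σ u) ∩ supp (σ v))).card : ℝ) * (1 / (g : ℝ) ^ 4) := by
      rw [← nsmul_eq_mul, ← Finset.sum_const]
      refine Finset.sum_congr rfl fun y hy => Ex_fQ_ne ?_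
      unfold kind at hy
      rw [(Finset.mem_filter.1 hy).2]
      decide
    have h2 := abs_le.1 (hgeo.g1z u v huv 0)
    simp only [SS] at h2
    rw [h1, mul_one_div, abs_le]
    generalize ((kind 0 (supp (σ u) ∩ supp (σ v))).card : ℝ) = N at h2
    constructor
    · rw [neg_le_sub_iff_le_add, ← sub_le_iff_le_add, le_div_iff₀ hP4]
      nlinarith [h2.1]
    · rw [sub_le_iff_le_add, div_le_iff₀ hP4]
      nlinarith [h2.2]
  refine le_trans (l1_union hg0 _ (fun u v ω => (g : ℝ) ^ 95 / 2 ≤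
    |∑ y ∈ kind 0 (supp (σ u) ∩ supp (σ v)), fQ y (ω (key u v y)) -
      ∑ y ∈ kind 0 (supp (σ u) ∩ supp (σ v)), Ex (wL g) (fQ y)|)
    (q := 2 * Real.exp (-(1 * (g : ℝ)))) (by positivity) (fun ω hω => ?_)
    (fun u v huv => ?_)) ?_
  · unfold PL1m at hω
    push Not at hω
    obtain ⟨u, v, huv, hω⟩ := hω
    refine ⟨u, v, huv, ?_⟩
    by_contra hcon
    have h1 := card_Q_eq σ ω u v (fun y => y.1 = 0)
    have h2 : (((((mkD σ ω 0).Q u v).filter (fun p => p.1.1 = 0)).card : ℝ)) =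
        ∑ y ∈ kind 0 (supp (σ u) ∩ supp (σ v)), fQ y (ω (key u v y)) := by
      refine Eq.trans ?_ (h1.trans ?_)
      · congr!
      · refine Finset.sum_congr ?_ fun _ _ => rfl
        unfold kind
        congr!
    rw [← h2] at hcon
    have h3 := abs_lt.1 (not_le.1 hcon)
    have h4 := abs_le.1 (hmean u v huv)
    refine absurd hω (not_lt.2 (abs_le.2 ⟨?_, ?_⟩))
    · nlinarith [h3.1, h4.1]
    · nlinarith [h3.2, h4.2]
  · refine l1_Q hg u v _ ?_
    have h4 := abs_le.1 (hmean u v huv)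
    have h5 : (g : ℝ) ^ 47 ≤ (g : ℝ) ^ 96 := pow_le_pow_right₀ h1g (by norm_num)
    have h6 : (0 : ℝ) < (g : ℝ) ^ 96 := by positivity
    linarith [h4.2]
  · calc (g : ℝ) ^ 24000 * (2 * Real.exp (-(1 * (g : ℝ)))) =
        2 * (g : ℝ) ^ 24000 * Real.exp (-(1 * (g : ℝ))) := by ring
      _ ≤ 1 / 20 := he

theorem t1q : ∀ᶠ g : ℕ in Filter.atTop, ∀ σ : Pl g → Pc g → Fin (pN g), Geo (SS σ) →
    Pr (wQ g) (fun ω => ¬ PL1q (mkD σ ω 0)) ≤ 1 / 20 := by
  filter_upwards [LarProb.ev_exp_small 24000 (c := 1) (C := 2) (e := 1 / 20) one_pos (by norm_num),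
    Filter.eventually_ge_atTop 320] with g he hg
  intro σ hgeo
  have hg1 : (320 : ℝ) ≤ g := by exact_mod_cast hg
  have hg0 : 0 < g := by omega
  have hgp : (0 : ℝ) < g := by linarith
  have h1g : (1 : ℝ) ≤ g := by linarith
  have hP4 : (0 : ℝ) < (g : ℝ) ^ 4 := by positivity
  have hP47 : (0 : ℝ) < (g : ℝ) ^ 47 := by positivity
  have hP92 : (0 : ℝ) < (g : ℝ) ^ 92 := by positivity
  have e100 : (g : ℝ) ^ 100 = (g : ℝ) ^ 96 * (g : ℝ) ^ 4 := by rw [← pow_add]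
  have e51 : (g : ℝ) ^ 51 = (g : ℝ) ^ 47 * (g : ℝ) ^ 4 := by rw [← pow_add]
  have e95 : (g : ℝ) ^ 47 ≤ (g : ℝ) ^ 94 := pow_le_pow_right₀ h1g (by norm_num)
  have e95' : (g : ℝ) ^ 95 = g * (g : ℝ) ^ 94 := by ring
  have e96 : (g : ℝ) ^ 96 = g ^ 2 * (g : ℝ) ^ 94 := by ring
  have e96' : (g : ℝ) ^ 96 = (g : ℝ) ^ 4 * (g : ℝ) ^ 92 := by rw [← pow_add]
  have e4 : (g : ℝ) ^ 4 ≤ (g : ℝ) ^ 47 := pow_le_pow_right₀ h1g (by norm_num)
  have hP94 : (0 : ℝ) < (g : ℝ) ^ 94 := by positivity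
  -- the mean
  have hmean : ∀ u v, u ≠ v →
      |∑ y ∈ supp (σ u) ∩ supp (σ v), Ex (wL g) (fQ y) - 4 * (g : ℝ) ^ 96| ≤
        8 * (g : ℝ) ^ 47 := by
    intro u v huv
    obtain ⟨Z, hZ⟩ : ∃ Z, Z = supp (σ u) ∩ supp (σ v) := ⟨_, rfl⟩
    rw [← hZ]
    have hsplit : ∑ y ∈ Z, Ex (wL g) (fQ y) = ∑ y ∈ kind 0 Z, Ex (wL g) (fQ y) +
        ∑ y ∈ kind 1 Z, Ex (wL g) (fQ y) + ∑ y ∈ kind 2 Z, Ex (wL g) (fQ y) := by
      have h1 := Finset.sum_fiberwise_of_maps_to (s := Z) (t := (Finset.univ : Finset (Fin 3)))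
        (g := fun y : Un g => y.1) (fun _ _ => Finset.mem_univ _) (fun y => Ex (wL g) (fQ y))
      rw [← h1, Fin.sum_univ_three]
      rfl
    have h0 : ∑ y ∈ kind 0 Z, Ex (wL g) (fQ y) =
        ((kind 0 Z).card : ℝ) * (1 / (g : ℝ) ^ 4) := by
      rw [← nsmul_eq_mul, ← Finset.sum_const]
      refine Finset.sum_congr rfl fun y hy => Ex_fQ_ne ?_
      unfold kind at hy
      rw [(Finset.mem_filter.1 hy).2]
      decide
    have h2 : ∑ y ∈ kind 2 Z, Ex (wL g) (fQ y) =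
        ((kind 2 Z).card : ℝ) * (1 / (g : ℝ) ^ 4) := by
      rw [← nsmul_eq_mul, ← Finset.sum_const]
      refine Finset.sum_congr rfl fun y hy => Ex_fQ_ne ?_
      unfold kind at hy
      rw [(Finset.mem_filter.1 hy).2]
      decide
    have h1 : ∑ y ∈ kind 1 Z, Ex (wL g) (fQ y) =
        ((kind 1 Z).card : ℝ) * (2 * ((1 - 1 / (g : ℝ) ^ 92) * (1 / (g : ℝ) ^ 4))) := by
      rw [← nsmul_eq_mul, ← Finset.sum_const]
      refine Finset.sum_congr rfl fun y hy => Ex_fQ_one ?_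
      unfold kind at hy
      exact (Finset.mem_filter.1 hy).2
    have k0 := abs_le.1 (hgeo.g1z u v huv 0)
    have k1 := abs_le.1 (hgeo.g1z u v huv 1)
    have k2 := abs_le.1 (hgeo.g1z u v huv 2)
    simp only [SS] at k0 k1 k2
    rw [← hZ] at k0 k1 k2
    have hb : ∀ N : ℝ, (g : ℝ) ^ 100 - (g : ℝ) ^ 51 ≤ N → N ≤ (g : ℝ) ^ 100 + (g : ℝ) ^ 51 →
        (g : ℝ) ^ 96 - (g : ℝ) ^ 47 ≤ N * (1 / (g : ℝ) ^ 4) ∧
          N * (1 / (g : ℝ) ^ 4) ≤ (g : ℝ) ^ 96 + (g : ℝ) ^ 47 := by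
      intro N hN1 hN2
      rw [mul_one_div]
      constructor
      · rw [le_div_iff₀ hP4]
        nlinarith
      · rw [div_le_iff₀ hP4]
        nlinarith
    have b0 := hb ((kind 0 Z).card : ℝ) (by linarith [k0.1]) (by linarith [k0.2])
    have b1 := hb ((kind 1 Z).card : ℝ) (by linarith [k1.1]) (by linarith [k1.2])
    have b2 := hb ((kind 2 Z).card : ℝ) (by linarith [k2.1]) (by linarith [k2.2])
    have c1 : ((kind 1 Z).card : ℝ) * (2 * ((1 - 1 / (g : ℝ) ^ 92) * (1 / (g : ℝ) ^ 4))) =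
        2 * (((kind 1 Z).card : ℝ) * (1 / (g : ℝ) ^ 4)) -
          2 * ((((kind 1 Z).card : ℝ) * (1 / (g : ℝ) ^ 4)) / (g : ℝ) ^ 92) := by ring
    rw [hsplit, h0, h1, h2, c1]
    generalize ((kind 0 Z).card : ℝ) * (1 / (g : ℝ) ^ 4) = n0 at b0
    generalize ((kind 1 Z).card : ℝ) * (1 / (g : ℝ) ^ 4) = n1 at b1
    generalize ((kind 2 Z).card : ℝ) * (1 / (g : ℝ) ^ 4) = n2 at b2
    have h47 : (g : ℝ) ^ 47 ≤ (g : ℝ) ^ 96 := pow_le_pow_right₀ h1g (by norm_num)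
    have d1 : n1 / (g : ℝ) ^ 92 ≤ 2 * (g : ℝ) ^ 4 := by
      rw [div_le_iff₀ hP92]
      nlinarith [b1.2]
    have d2 : 0 ≤ n1 / (g : ℝ) ^ 92 := by
      refine div_nonneg ?_ hP92.le
      linarith [b1.1]
    rw [abs_le]
    constructor
    · linarith [b0.1, b1.1, b2.1]
    · linarith [b0.2, b1.2, b2.2]
  refine le_trans (l1_union hg0 _ (fun u v ω => (g : ℝ) ^ 95 / 2 ≤
    |∑ y ∈ supp (σ u) ∩ supp (σ v), fQ y (ω (key u v y)) -
      ∑ y ∈ supp (σ u) ∩ supp (σ v), Ex (wL g) (fQ y)|)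
    (q := 2 * Real.exp (-(1 * (g : ℝ)))) (by positivity) (fun ω hω => ?_)
    (fun u v huv => ?_)) ?_
  · unfold PL1q at hω
    push Not at hω
    obtain ⟨u, v, huv, hω⟩ := hω
    refine ⟨u, v, huv, ?_⟩
    by_contra hcon
    have h1 := card_Q_eq σ ω u v (fun _ => True)
    simp only [Finset.filter_true] at h1
    rw [← h1] at hcon
    have h3 := abs_lt.1 (not_le.1 hcon)
    have h4 := abs_le.1 (hmean u v huv)
    refine absurd hω (not_lt.2 (abs_le.2 ⟨?_, ?_⟩))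
    · nlinarith [h3.1, h4.1]
    · nlinarith [h3.2, h4.2]
  · refine l1_Q hg u v _ ?_
    have h4 := abs_le.1 (hmean u v huv)
    have h5 : 8 * (g : ℝ) ^ 47 ≤ (g : ℝ) ^ 96 := by
      rw [e96]
      have h7 : (8 : ℝ) ≤ (g : ℝ) ^ 2 := by nlinarith
      exact mul_le_mul h7 e95 hP47.le (by positivity)
    have h6 : (0 : ℝ) < (g : ℝ) ^ 96 := by positivity
    linarith [h4.2]
  · calc (g : ℝ) ^ 24000 * (2 * Real.exp (-(1 * (g : ℝ)))) =
        2 * (g : ℝ) ^ 24000 * Real.exp (-(1 * (g : ℝ))) := by ring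
      _ ≤ 1 / 20 := he

end Pool.Larman
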