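import Pool.Agent.Larman.R2Base
import Pool.Agent.LarH.ProbLow

/-!
# The second moment of the product of cosines (random hash coefficients)

Package LAR R2L7b.

* `cosq_avg`: `|(1 + z)/2|^2 = (1 + Re z)/2` for `|z| = 1`, and
  `∑_r stdAddChar (c + χ r) = stdAddChar c * ∑_r stdAddChar (χ r) = 0` because `χ ≠ 0`
  (`AddChar.sum_mulShift`, `ZMod.isPrimitive_stdAddChar` or similar; `stdAddChar` is primitive).
* `cos_prod`: fixed `u, Dn, χ, E`.  Let `U = (⋃ C u w) \ E` and choose for every `b ∈ U` a player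
  `w b ∈ Dn` with `b ∈ C u (w b)`; `k b = key u (w b) b` is injective on `U`.  Both sides of
  `∏ cosq ≤ (1/2)^n` are nonnegative, so it is equivalent to `∏ cosq^2 ≤ (1/4)^n`; by
  `LarProb.markov` the failure probability is `≤ 4^n E ∏_{b ∈ U} cosq(...)^2`.
  Freeze all coordinates outside `T = U.image k` (`LarProb.Ex_le_of_freeze` with `s = Tᶜ`, or
  `LarProb.Ex_piecewise`).  For frozen `a` and `b ∈ U`:
  `∑_{w ∈ Dn} χ w * lc u w b = c_b + (- χ (w b)) * ρ (k b)` where `c_b` depends only on `a`: for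
  `w ≠ w b` the number `lc u w b` involves at most `ρ (key u w b)` (`mkD_r`), and
  `key u w b ∉ T` (`key_eq_iff`: `key u w b = key u (w b') b'` implies `b = b'` and `w = w b'`, as
  `u ∉ Dn`); for `w = w b` it is `- ρ (k b)` as `b ∈ C u (w b)`.  `C` and `Q` do not depend on `ρ`
  (`mkD_C_indep`, `mkD_Q_indep`).  Then `LarProb.Ex_prod_inj` and `cosq_avg` give `(1/2)^|U|`.
-/

set_option autoImplicit false

open scoped BigOperators Classical

noncomputable section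

namespace Pool.Larman

open Pool.LarProb (IsP Ex Pr PW unif)

theorem cosq_avg {g : ℕ} (c χ : ZMod (hM g)) (h : χ ≠ 0) :
    Ex (unif (ZMod (hM g))) (fun r => cosq (c + χ * r) ^ 2) = 1 / 2 := by
  have hz : ∀ x : ZMod (hM g), cosq x ^ 2 = (1 + (ZMod.stdAddChar x : ℂ).re) / 2 := by
    intro x
    have h1 : ‖(ZMod.stdAddChar x : ℂ)‖ = 1 := AddChar.norm_apply _ _
    have h2 : Complex.normSq (ZMod.stdAddChar x : ℂ) = 1 := by
      rw [Complex.normSq_eq_norm_sq, h1]; norm_num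
    unfold cosq
    rw [← Complex.normSq_eq_norm_sq]
    rw [Complex.normSq_apply] at h2 ⊢
    have e1 : ((1 + (ZMod.stdAddChar x : ℂ)) / 2).re = (1 + (ZMod.stdAddChar x : ℂ).re) / 2 := by
      simp
    have e2 : ((1 + (ZMod.stdAddChar x : ℂ)) / 2).im = (ZMod.stdAddChar x : ℂ).im / 2 := by
      simp
    rw [e1, e2]
    nlinarith
  have hs : ∑ r : ZMod (hM g), (ZMod.stdAddChar (c + χ * r) : ℂ) = 0 := by
    have e1 : ∀ r : ZMod (hM g), (ZMod.stdAddChar (c + χ * r) : ℂ) =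
        ZMod.stdAddChar c * ZMod.stdAddChar (r * χ) := by
      intro r
      rw [AddChar.map_add_eq_mul, mul_comm χ r]
    rw [Finset.sum_congr rfl (fun r _ => e1 r), ← Finset.mul_sum,
      AddChar.sum_mulShift χ (ZMod.isPrimitive_stdAddChar (hM g)), if_neg h]
    simp
  have hr : ∑ r : ZMod (hM g), (ZMod.stdAddChar (c + χ * r) : ℂ).re = 0 := by
    rw [← Complex.re_sum, hs]; rfl
  unfold Ex unif
  rw [← Finset.mul_sum, Finset.sum_congr rfl (fun r _ => hz (c + χ * r)), ← Finset.sum_div,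
    Finset.sum_add_distrib, hr, Finset.sum_const, Finset.card_univ, nsmul_eq_mul]
  have hc : (Fintype.card (ZMod (hM g)) : ℝ) ≠ 0 := by
    exact_mod_cast Fintype.card_ne_zero
  field_simp
  ring

theorem cos_prod {g : ℕ} (σ : Pl g → Pc g → Fin (pN g)) (ω : Kc g → Lq) (u : Pl g)
    (Dn : Finset (Pl g)) (χ : Pl g → ZMod (hM g)) (E : Finset (Un g)) (n : ℕ) (hu : u ∉ Dn)
    (hχ : ∀ w ∈ Dn, χ w ≠ 0) :
    Pr (wR g) (fun ρ => ¬ (∏ b ∈ (Dn.biUnion (fun w => (mkD σ ω ρ).C u w)) \ E,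
        cosq (∑ w ∈ Dn, χ w * (mkD σ ω ρ).lc u w b) ≤ (1 / 2 : ℝ) ^ n))
      ≤ 4 ^ n * (1 / 2) ^ ((Dn.biUnion (fun w => (mkD σ ω 0).C u w)) \ E).card := by
  have hC : ∀ ρ : Kc g → ZMod (hM g), (mkD σ ω ρ).C = (mkD σ ω 0).C :=
    fun ρ => mkD_C_indep σ ω ρ 0
  have hQ : ∀ ρ : Kc g → ZMod (hM g), (mkD σ ω ρ).Q = (mkD σ ω 0).Q :=
    fun ρ => mkD_Q_indep σ ω ρ 0
  set U : Finset (Un g) := (Dn.biUnion (fun w => (mkD σ ω 0).C u w)) \ E with hU
  set q : Pl g → Un g → ZMod (hM g) := fun w b =>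
    (if (b, true) ∈ (mkD σ ω 0).Q u w then 1 else 0) -
      (if (b, false) ∈ (mkD σ ω 0).Q u w then 1 else 0) with hq
  have hlc : ∀ (ρ : Kc g → ZMod (hM g)) (w : Pl g) (b : Un g), (mkD σ ω ρ).lc u w b =
      if b ∈ (mkD σ ω 0).C u w then - ρ (key u w b) else q w b := by
    intro ρ w b
    unfold Dat.lc
    rw [hC ρ, hQ ρ, mkD_r]
  have hex : ∀ b : Un g, ∃ w : Pl g, b ∈ U → w ∈ Dn ∧ b ∈ (mkD σ ω 0).C u w := by
    intro b
    by_cases hb : b ∈ U
    · have h1 := (Finset.mem_sdiff.1 hb).1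
      obtain ⟨w, hw, hbw⟩ := Finset.mem_biUnion.1 h1
      exact ⟨w, fun _ => ⟨hw, hbw⟩⟩
    · exact ⟨u, fun h => absurd h hb⟩
  choose w hw using hex
  set k : Un g → Kc g := fun b => key u (w b) b with hk
  have hkinj : ∀ b ∈ U, ∀ b' ∈ U, k b = k b' → b = b' := by
    intro b hb b' hb' h
    have n1 : u ≠ w b := fun h1 => hu (h1 ▸ (hw b hb).1)
    have n2 : u ≠ w b' := fun h1 => hu (h1 ▸ (hw b' hb').1)
    exact ((key_eq_iff n1 n2).1 h).1
  set P : (Kc g → ZMod (hM g)) → ℝ := fun ρ =>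
    ∏ b ∈ U, cosq (∑ v ∈ Dn, χ v * (mkD σ ω ρ).lc u v b) with hP
  set P2 : (Kc g → ZMod (hM g)) → ℝ := fun ρ =>
    ∏ b ∈ U, cosq (∑ v ∈ Dn, χ v * (mkD σ ω ρ).lc u v b) ^ 2 with hP2
  have hcos : ∀ x : ZMod (hM g), 0 ≤ cosq x := fun x => norm_nonneg _
  have hPP : ∀ ρ, P2 ρ = P ρ ^ 2 := fun ρ => Finset.prod_pow _ _ _
  have hP0 : ∀ ρ, 0 ≤ P2 ρ := fun ρ => by rw [hPP]; positivity
  have step1 : Pr (wR g) (fun ρ => ¬ (∏ b ∈ (Dn.biUnion (fun w => (mkD σ ω ρ).C u w)) \ E,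
        cosq (∑ w ∈ Dn, χ w * (mkD σ ω ρ).lc u w b) ≤ (1 / 2 : ℝ) ^ n)) ≤
      Pr (wR g) (fun ρ => (1 / 4 : ℝ) ^ n ≤ P2 ρ) := by
    refine LarProb.Pr_mono wR_isP (fun ρ h => ?_)
    rw [hC ρ] at h
    have h1 : (1 / 2 : ℝ) ^ n < P ρ := not_le.1 h
    rw [hPP]
    have h2 : (1 / 4 : ℝ) ^ n = ((1 / 2 : ℝ) ^ n) ^ 2 := by
      rw [← pow_mul, mul_comm n 2, pow_mul]; norm_num
    rw [h2]
    exact pow_le_pow_left₀ (by positivity) h1.le 2
  refine step1.trans ((LarProb.markov wR_isP hP0 (by positivity)).trans ?_)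
  have step2 : Ex (wR g) P2 ≤ (1 / 2 : ℝ) ^ U.card := by
    unfold wR
    refine LarProb.Ex_le_of_freeze (fun _ => LarProb.unif_isP) (U.image k)ᶜ (fun a => ?_)
    set cc : Un g → ZMod (hM g) := fun b => ∑ v ∈ Dn.erase (w b),
      χ v * (if b ∈ (mkD σ ω 0).C u v then - a (key u v b) else q v b) with hcc
    set f : Un g → ZMod (hM g) → ℝ := fun b r => cosq (cc b + (- χ (w b)) * r) ^ 2 with hf
    have e1 : ∀ ρ : Kc g → ZMod (hM g), P2 ((U.image k)ᶜ.piecewise a ρ) =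
        ∏ b ∈ U, f b (ρ (k b)) := by
      intro ρ
      refine Finset.prod_congr rfl (fun b hb => ?_)
      have n1 : u ≠ w b := fun h1 => hu (h1 ▸ (hw b hb).1)
      have e2 : ∑ v ∈ Dn, χ v * (mkD σ ω ((U.image k)ᶜ.piecewise a ρ)).lc u v b =
          cc b + (- χ (w b)) * ρ (k b) := by
        rw [← Finset.sum_erase_add Dn _ (hw b hb).1]
        have t1 : χ (w b) * (mkD σ ω ((U.image k)ᶜ.piecewise a ρ)).lc u (w b) b =
            (- χ (w b)) * ρ (k b) := by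
          rw [hlc, if_pos (hw b hb).2, Finset.piecewise_eq_of_notMem]
          · ring
          · rw [Finset.mem_compl, not_not]
            exact Finset.mem_image_of_mem k hb
        rw [t1, hcc]
        congr 1
        refine Finset.sum_congr rfl (fun v hv => ?_)
        rw [hlc]
        by_cases hbC : b ∈ (mkD σ ω 0).C u v
        · rw [if_pos hbC, if_pos hbC, Finset.piecewise_eq_of_mem]
          rw [Finset.mem_compl]
          intro hmem
          obtain ⟨b', hb', he⟩ := Finset.mem_image.1 hmem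
          have hvD := (Finset.mem_erase.1 hv).2
          have hvne := (Finset.mem_erase.1 hv).1
          have n2 : u ≠ w b' := fun h1 => hu (h1 ▸ (hw b' hb').1)
          have n3 : u ≠ v := fun h1 => hu (h1 ▸ hvD)
          have h5 := (key_eq_iff n2 n3).1 he
          obtain ⟨h6, h7⟩ := h5
          rcases h7 with ⟨-, h8⟩ | ⟨h8, -⟩
          · apply hvne
            rw [← h8, h6]
          · exact n3 h8
        · rw [if_neg hbC, if_neg hbC]
      rw [e2]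
    rw [LarProb.Ex_congr e1]
    refine le_trans (le_of_eq (LarProb.Ex_prod_inj LarProb.unif_isP U k hkinj f)) (le_of_eq ?_)
    rw [Finset.prod_congr rfl (fun b hb => cosq_avg (cc b) (- χ (w b))
      (neg_ne_zero.2 (hχ _ (hw b hb).1))), Finset.prod_const]
  rw [div_le_iff₀ (by positivity)]
  refine step2.trans (le_of_eq ?_)
  have h4 : (4 : ℝ) ^ n * (1 / 4 : ℝ) ^ n = 1 := by
    rw [← mul_pow]; norm_num
  calc (1 / 2 : ℝ) ^ U.card = ((4 : ℝ) ^ n * (1 / 4 : ℝ) ^ n) * (1 / 2 : ℝ) ^ U.card := by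
        rw [h4, one_mul]
    _ = 4 ^ n * (1 / 2) ^ U.card * (1 / 4) ^ n := by ring

end Pool.Larman
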