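import Pool.Agent.Larman.Greedy

set_option autoImplicit false

namespace Pool.Agent.Larman

open Finset

variable {n : ℕ}

/-- all members contain a common point, or the family has no common point -/
theorem star_or (F : Finset (Finset (Fin n))) :
    (∃ c : Fin n, ∀ A ∈ F, c ∈ A) ∨ ∀ t : Fin n, ∃ C ∈ F, t ∉ C := by
  by_cases h : ∃ c : Fin n, ∀ A ∈ F, c ∈ A
  · exact Or.inl h
  · right
    push Not at h
    exact h

/-- the trivial range `k ≤ 1` -/
theorem cover_small {F : Finset (Finset (Fin n))} {k : ℕ} (hk1 : k ≤ 1)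
    (hk : ∀ A ∈ F, A.card = k)
    (hF : ∀ A ∈ F, ∀ B ∈ F, (A ∩ B).Nonempty) : 
    ∀ A ∈ F, ∀ B ∈ F, A = B := by
  intro A hA B hB
  obtain ⟨x, hx⟩ := hF A hA B hB
  rw [mem_inter] at hx
  have h1 : A = {x} := by
    have hA1 : A.card ≤ 1 := (hk A hA).le.trans hk1
    exact (eq_of_subset_of_card_le (singleton_subset_iff.2 hx.1) (by simpa using hA1)).symm
  have h2 : B = {x} := by
    have hB1 : B.card ≤ 1 := (hk B hB).le.trans hk1
    exact (eq_of_subset_of_card_le (singleton_subset_iff.2 hx.2) (by simpa using hB1)).symm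
  rw [h1, h2]

/-- the groups `{3i, 3i+1, 3i+2}` -/
theorem cover_turan {F : Finset (Finset (Fin n))} {k : ℕ} (hnk : n + 3 ≤ 3 * k)
    (hk : ∀ A ∈ F, A.card = k) :
    ∃ G : Fin n → Finset (Finset (Fin n)),
      (∀ i, G i ⊆ F) ∧
      (∀ i, ∀ A ∈ G i, ∀ B ∈ G i, A ≠ B → 2 ≤ (A ∩ B).card) ∧
      (∀ A ∈ F, ∃ i, A ∈ G i) := by
  classical
  let nxt : ℕ → ℕ := fun x => if x % 3 = 2 then x - 2 else x + 1
  have hnxt : ∀ x, nxt x ≠ x := by
    intro x
    simp only [nxt]
    split_ifs <;> omega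
  refine ⟨fun i => F.filter (fun A => i ∈ A ∧ ∃ y ∈ A, (y : ℕ) = nxt i), ?_, ?_, ?_⟩
  · intro i
    exact filter_subset _ _
  · intro i A hA B hB _
    rw [mem_filter] at hA hB
    obtain ⟨_, hiA, y, hyA, hy⟩ := hA
    obtain ⟨_, hiB, z, hzB, hz⟩ := hB
    have hyz : y = z := Fin.ext (hy.trans hz.symm)
    subst hyz
    have hne : i ≠ y := by
      rintro rfl
      exact hnxt _ hy.symm
    rw [← card_pair hne]
    apply card_le_card
    intro w hw
    rw [mem_insert, mem_singleton] at hw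
    rcases hw with rfl | rfl
    · exact mem_inter.2 ⟨hiA, hiB⟩
    · exact mem_inter.2 ⟨hyA, hzB⟩
  · intro A hA
    have hpig : ∃ x ∈ A, ∃ y ∈ A, x ≠ y ∧ (x : ℕ) / 3 = (y : ℕ) / 3 := by
      apply exists_ne_map_eq_of_card_lt_of_maps_to (t := range (k - 1))
      · rw [card_range, hk A hA]
        omega
      · intro x _
        rw [coe_range, Set.mem_Iio]
        have := x.2
        show (x : ℕ) / 3 < k - 1
        omega
    obtain ⟨x, hx, y, hy, hxy, h3⟩ := hpig
    have hxy' : (x : ℕ) ≠ (y : ℕ) := fun h => hxy (Fin.ext h)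
    have : (y : ℕ) = nxt x ∨ (x : ℕ) = nxt y := by
      simp only [nxt]
      split_ifs <;> omega
    rcases this with h | h
    · exact ⟨x, mem_filter.2 ⟨hA, hx, y, hy, h⟩⟩
    · exact ⟨y, mem_filter.2 ⟨hA, hy, x, hx, h⟩⟩

/-- the range `n ≥ k² - 2k + 3` -/
theorem cover_large {F : Finset (Finset (Fin n))} {k : ℕ} (h2k : 2 ≤ k)
    (hnk : k ^ 2 + 3 ≤ n + 2 * k)
    (hk : ∀ A ∈ F, A.card = k)
    (hF : ∀ A ∈ F, ∀ B ∈ F, (A ∩ B).Nonempty) :
    ∃ G : Fin n → Finset (Finset (Fin n)),
      (∀ i, G i ⊆ F) ∧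
      (∀ i, ∀ A ∈ G i, ∀ B ∈ G i, A ≠ B → 2 ≤ (A ∩ B).card) ∧
      (∀ A ∈ F, ∃ i, A ∈ G i) := by
  classical
  rcases star_or F with ⟨c, hc⟩ | hns
  · obtain ⟨P, hP, hPc⟩ := pairCover_star (fun A hA => (hk A hA).symm ▸ h2k) c hc
    exact cover_of_pairCover hP (by omega)
  · rcases F.eq_empty_or_nonempty with rfl | hne
    · exact ⟨fun _ => ∅, by simp, by simp, by simp⟩
    obtain ⟨m, hm⟩ : ∃ m, k = m + 2 := ⟨k - 2, by omega⟩
    by_cases hτ : ∃ T : Finset (Fin n), T.card < k ∧ Hits F T
    · obtain ⟨T, hTk, hT⟩ := hτ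
      obtain ⟨P, hP, hPc⟩ := pairCover_hits hk hF hns hT
      refine cover_of_pairCover hP (hPc.trans ?_)
      have h1 : T.card * (k - 1) ≤ (k - 1) * (k - 1) := Nat.mul_le_mul_right _ (by omega)
      subst hm
      have e1 : m + 2 - 1 = m + 1 := by omega
      rw [e1] at h1 ⊢
      nlinarith
    · push Not at hτ
      by_cases hint : ∃ A ∈ F, ∃ B ∈ F, A ≠ B ∧ 2 ≤ (A ∩ B).card
      · obtain ⟨A, hA, B, hB, hAB, hr⟩ := hint
        have hAhit : Hits F A := fun C hC => hF C hC A hA
        have hAmin : ∀ T', T' ⊂ A → ¬ Hits F T' := by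
          intro T' hT'
          apply hτ
          rw [← hk A hA]
          exact card_lt_card hT'
        have hrk : (A ∩ B).card < k := by
          rw [← hk A hA]
          apply card_lt_card
          refine ⟨inter_subset_left, fun h => hAB ?_⟩
          have hsub : A ⊆ B := fun x hx => (mem_inter.1 (h hx)).2
          exact eq_of_subset_of_card_le hsub (by rw [hk A hA, hk B hB])
        obtain ⟨E, hER, hEc, P, hP, hPc⟩ := greedy hk hF hns hAhit hAmin
          (inter_subset_left : A ∩ B ⊆ A) ((A ∩ B).card - 1) (by omega)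
        have hE : E = A ∩ B := eq_of_subset_of_card_le hER (by omega)
        subst hE
        obtain ⟨Q, hQ, hQc⟩ := extend hF hB (hk B hB) hP (A \ B) (Subset.refl _)
        have hAA : (A \ B) ∪ (A ∩ B) = A := sdiff_union_inter A B
        rw [hAA] at hQ
        have hcov : PairCover F Q :=
          ⟨hQ.1, fun C hC => hQ.2 C (mem_filter.2 ⟨hC, hF C hC A hA⟩)⟩
        refine cover_of_pairCover hcov (hQc.trans ?_)
        have hsd : (A \ B).card = k - (A ∩ B).card := by
          have := card_sdiff_add_card_inter A B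
          rw [hk A hA] at this
          omega
        rw [hsd]
        obtain ⟨r, hr'⟩ : ∃ r, (A ∩ B).card = r + 2 := ⟨(A ∩ B).card - 2, by omega⟩
        obtain ⟨s, hs⟩ : ∃ s, k = r + 2 + (s + 1) := ⟨k - (r + 3), by omega⟩
        rw [hr'] at hPc ⊢
        have e0 : r + 2 - 1 + 1 = r + 2 := by omega
        have e1 : k - 1 = r + s + 2 := by omega
        have e2 : k - (r + 2) = s + 1 := by omega
        rw [e0, e1] at hPc
        rw [e2]
        have e3 : n + 2 * (r + 2 + (s + 1)) ≥ (r + 2 + (s + 1)) ^ 2 + 3 := by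
          rw [← hs]
          omega
        nlinarith [Nat.zero_le (r * s)]
      · push Not at hint
        have h1 : ∀ A ∈ F, ∀ B ∈ F, A ≠ B → (A ∩ B).card = 1 := by
          intro A hA B hB hAB
          have h3 := hint A hA B hB hAB
          have h4 := card_pos.2 (hF A hA B hB)
          omega
        have hkn : k < n := by
          subst hm
          nlinarith
        have hcard := fisher_one hk hns hkn h1
        refine cover_of_classes (F.image (fun A => {A})) (card_image_le.trans hcard) ?_ ?_ ?_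
        · intro G hG
          obtain ⟨A, hA, rfl⟩ := mem_image.1 hG
          exact singleton_subset_iff.2 hA
        · intro G hG A hA B hB hAB
          obtain ⟨C, hC, rfl⟩ := mem_image.1 hG
          rw [mem_singleton] at hA hB
          exact absurd (hA.trans hB.symm) hAB
        · intro A hA
          exact ⟨{A}, mem_image_of_mem _ hA, mem_singleton_self A⟩

end Pool.Agent.Larman
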