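import Pool.Agent.Larman.IncBasic

/-!
# Tail bounds for sums over the slots (helper46)
-/

set_option autoImplicit false

open scoped BigOperators Classical

noncomputable section

namespace Pool.Larman

open Pool.LarProb (Ex Pr IsP PW unifOn Ex_mono Ex_add Ex_sub Ex_const Ex_unifOn unifOn_isP PW_isP
  tail_abs)

variable {g : ℕ} {D : Dat g} {E : Env g} {u : Pl g} {X : Finset (Un g)}

/-- the law of the slot vector -/
def sP (E : Env g) : (Fin E.M → Pl g) → ℝ :=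
  PW (A := fun _ : Fin E.M => Pl g) (fun k => unifOn (E.W k))

theorem sP_isP (hW : (k : Fin E.M) → (E.W k).Nonempty) : IsP (sP E) :=
  PW_isP (fun k => unifOn_isP (hW k))

theorem sP_zero {B : Fin E.M → Pl g} (h : ¬ ∀ k, B k ∈ E.W k) : sP E B = 0 := by
  push Not at h
  obtain ⟨k, hk⟩ := h
  unfold sP PW
  refine Finset.prod_eq_zero (Finset.mem_univ k) ?_
  show Pool.LarProb.ind (B k ∈ E.W k) / ((E.W k).card : ℝ) = 0
  rw [Pool.LarProb.ind_false hk, zero_div]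

/-- events which agree on the slot vectors in the populations have the same probability -/
theorem Pr_le_mem (hW : (k : Fin E.M) → (E.W k).Nonempty) {P P' : (Fin E.M → Pl g) → Prop}
    (h : ∀ B, (∀ k, B k ∈ E.W k) → P B → P' B) : Pr (sP E) P ≤ Pr (sP E) P' := by
  unfold Pr Ex
  refine Finset.sum_le_sum (fun B _ => ?_)
  by_cases hB : ∀ k, B k ∈ E.W k
  · refine mul_le_mul_of_nonneg_left ?_ ((sP_isP hW).nonneg B)
    exact Pool.LarProb.ind_mono (h B hB)
  · rw [sP_zero hB, zero_mul, zero_mul]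

theorem Pr_not_mem (hW : (k : Fin E.M) → (E.W k).Nonempty) :
    Pr (sP E) (fun B => ¬ ∀ k, B k ∈ E.W k) = 0 := by
  refine le_antisymm ?_ (Pool.LarProb.Pr_nonneg (sP_isP hW) _)
  refine (Pr_le_mem hW (P' := fun _ => False) (fun B hB h => h hB)).trans (le_of_eq ?_)
  exact Pool.LarProb.Pr_false (fun _ h => h)

/-- union bound over a finset of events -/
theorem Pr_union (hW : (k : Fin E.M) → (E.W k).Nonempty) {J : Type*} (s : Finset J)
    (P : (Fin E.M → Pl g) → Prop) (S : J → (Fin E.M → Pl g) → Prop) {q : ℝ}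
    (h : ∀ B, (∀ k, B k ∈ E.W k) → P B → ∃ j ∈ s, S j B) (hq : ∀ j ∈ s, Pr (sP E) (S j) ≤ q) :
    Pr (sP E) P ≤ s.card * q :=
  (Pr_le_mem hW h).trans (Pool.LarProb.Pr_exists_le_card_mul (sP_isP hW) s S hq)

/-- two sided tail bound, the bounds are needed on the populations only; nonzero means allowed -/
theorem tail_mem (hW : (k : Fin E.M) → (E.W k).Nonempty) (s : Finset (Fin E.M))
    (Y : Fin E.M → Pl g → ℝ) {b V t m : ℝ} (hb : ∀ k ∈ s, ∀ w ∈ E.W k, |Y k w| ≤ b)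
    (hm : |∑ k ∈ s, Ex (unifOn (E.W k)) (Y k)| ≤ m)
    (hV : ∑ k ∈ s, Ex (unifOn (E.W k)) (fun w => Y k w ^ 2) ≤ V) (hV0 : 0 < V) (ht : 0 ≤ t)
    (hbt : b * t ≤ V) :
    Pr (sP E) (fun B => t + m ≤ |∑ k ∈ s, Y k (B k)|) ≤ 2 * Real.exp (- (t ^ 2 / (4 * V))) := by
  set μ : Fin E.M → ℝ := fun k => Ex (unifOn (E.W k)) (Y k) with hμ
  have hP : ∀ k, IsP (unifOn (E.W k)) := fun k => unifOn_isP (hW k)
  have hμb : ∀ k ∈ s, |μ k| ≤ b := by
    intro k hk
    simp only [hμ]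
    rw [Ex_unifOn, abs_div, Nat.abs_cast]
    have h0 : (0 : ℝ) < ((E.W k).card : ℝ) := by exact_mod_cast Finset.card_pos.2 (hW k)
    rw [div_le_iff₀ h0]
    refine (Finset.abs_sum_le_sum_abs _ _).trans ?_
    refine (Finset.sum_le_sum (fun w hw => hb k hk w hw)).trans (le_of_eq ?_)
    rw [Finset.sum_const, nsmul_eq_mul, mul_comm]
  set Y' : Fin E.M → Pl g → ℝ := fun k w => if w ∈ E.W k then Y k w - μ k else 0 with hY'
  have e1 : ∀ k (F : ℝ → ℝ), Ex (unifOn (E.W k)) (fun w => F (Y' k w))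
      = Ex (unifOn (E.W k)) (fun w => F (Y k w - μ k)) := by
    intro k F
    rw [Ex_unifOn, Ex_unifOn]
    congr 1
    refine Finset.sum_congr rfl (fun w hw => ?_)
    simp only [hY', if_pos hw]
  have h := tail_abs (A := fun _ : Fin E.M => Pl g) hP s Y' (b := 2 * b) (V := V) (t := t)
    ?_ ?_ ?_ hV0 ht (by linarith)
  · refine le_trans (Pr_le_mem hW (fun B hB hBt => ?_)) h
    have h2 : ∑ k ∈ s, Y' k (B k) = ∑ k ∈ s, Y k (B k) - ∑ k ∈ s, μ k := by
      rw [← Finset.sum_sub_distrib]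
      refine Finset.sum_congr rfl (fun k _ => ?_)
      simp only [hY', if_pos (hB k)]
    rw [h2]
    have h3 : |∑ k ∈ s, Y k (B k)| ≤ |∑ k ∈ s, Y k (B k) - ∑ k ∈ s, μ k| + |∑ k ∈ s, μ k| := by
      have := abs_add_le (∑ k ∈ s, Y k (B k) - ∑ k ∈ s, μ k) (∑ k ∈ s, μ k)
      rwa [sub_add_cancel] at this
    have h4 : |∑ k ∈ s, μ k| ≤ m := hm
    linarith
  · intro k hk w
    simp only [hY']
    by_cases hw : w ∈ E.W k
    · rw [if_pos hw]
      refine (abs_sub _ _).trans ?_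
      linarith [hb k hk w hw, hμb k hk]
    · rw [if_neg hw, abs_zero]
      have := abs_nonneg (μ k)
      linarith [hμb k hk]
  · intro k hk
    have := e1 k (fun x => x)
    rw [show Ex (unifOn (E.W k)) (Y' k) = Ex (unifOn (E.W k)) (fun w => Y' k w) from rfl, this,
      Ex_sub, Ex_const (hP k)]
    exact sub_self _
  · refine le_trans (Finset.sum_le_sum (fun k hk => ?_)) hV
    rw [e1 k (fun x => x ^ 2)]
    have h5 : ∀ w, (Y k w - μ k) ^ 2 = Y k w ^ 2 - (2 * μ k) * Y k w + μ k ^ 2 := fun w => by ring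
    rw [Pool.LarProb.Ex_congr h5, Ex_add, Ex_sub, Pool.LarProb.Ex_mul_left, Ex_const (hP k)]
    have h6 : Ex (unifOn (E.W k)) (fun w => Y k w) = μ k := rfl
    rw [h6]
    nlinarith [sq_nonneg (μ k)]

/-- the case of mean zero -/
theorem tail_mem0 (hW : (k : Fin E.M) → (E.W k).Nonempty) (s : Finset (Fin E.M))
    (Y : Fin E.M → Pl g → ℝ) {b V t : ℝ} (hb : ∀ k ∈ s, ∀ w ∈ E.W k, |Y k w| ≤ b)
    (hE : ∀ k ∈ s, Ex (unifOn (E.W k)) (Y k) = 0)
    (hV : ∑ k ∈ s, Ex (unifOn (E.W k)) (fun w => Y k w ^ 2) ≤ V) (hV0 : 0 < V) (ht : 0 ≤ t)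
    (hbt : b * t ≤ V) :
    Pr (sP E) (fun B => t ≤ |∑ k ∈ s, Y k (B k)|) ≤ 2 * Real.exp (- (t ^ 2 / (4 * V))) := by
  have h := tail_mem hW s Y (m := 0) hb (by rw [Finset.sum_eq_zero hE, abs_zero]) hV hV0 ht hbt
  simpa using h

end Pool.Larman
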