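import Pool.Agent.Larman.Sel
import Pool.Agent.Larman.R1Main

set_option autoImplicit false

open scoped BigOperators Classical

namespace Pool.Larman

/-- T1: supports with the geometric properties exist (owner helper90) -/
theorem T1 : ∀ᶠ (g : ℕ) in Filter.atTop, ∃ σ : Pl g → Fin 3 × Fin (sN g) → Fin (pN g),
    Geo (fun u => supp (σ u)) := exists_geo

end Pool.Larman
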