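import Mathlib

/-!
# Intersecting families with a transitive group of automorphisms
-/

set_option autoImplicit false

namespace Pool.Agent.Larman

/-- **Jordan's theorem**: a transitive group of permutations of at least two points contains a
permutation without fixed points. -/
theorem exists_derangement {n : ℕ} (hn : 2 ≤ n) (H : Subgroup (Equiv.Perm (Fin n)))
    (hH : ∀ x y : Fin n, ∃ g ∈ H, g x = y) : ∃ g ∈ H, ∀ x, g x ≠ x := by
  classical
  by_contra hcon
  push Not at hcon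
  haveI : MulAction.IsPretransitive H (Fin n) :=
    ⟨fun x y => by
      obtain ⟨g, hg, hgx⟩ := hH x y
      exact ⟨⟨g, hg⟩, hgx⟩⟩
  have h1 := MulAction.sum_card_fixedBy_eq_card_orbits_mul_card_group H (Fin n)
  have h2 : Fintype.card (Quotient (MulAction.orbitRel H (Fin n))) = 1 := by
    haveI : Nonempty (Fin n) := ⟨⟨0, by omega⟩⟩
    rw [Fintype.card_eq_one_iff]
    refine ⟨Quotient.mk _ ⟨0, by omega⟩, fun q => ?_⟩
    induction q using Quotient.inductionOn with
    | h x =>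
      apply Quotient.sound
      exact MulAction.exists_smul_eq H _ x
  rw [h2, one_mul] at h1
  have h3 : ∀ g : H, 1 ≤ Fintype.card (MulAction.fixedBy (Fin n) g) := by
    intro g
    obtain ⟨x, hx⟩ := hcon g g.2
    exact Fintype.card_pos_iff.2 ⟨⟨x, hx⟩⟩
  have h4 : 1 < Fintype.card (MulAction.fixedBy (Fin n) (1 : H)) := by
    have h5 : Fintype.card (MulAction.fixedBy (Fin n) (1 : H)) = Fintype.card (Fin n) :=
      Fintype.card_congr (Equiv.subtypeUnivEquiv fun x => by
        change (1 : H) • x = x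
        exact one_smul _ x)
    rw [h5, Fintype.card_fin]
    omega
  have h6 : ∑ _g : H, 1 < ∑ g : H, Fintype.card (MulAction.fixedBy (Fin n) g) :=
    Finset.sum_lt_sum (fun g _ => h3 g) ⟨1, Finset.mem_univ _, h4⟩
  rw [h1, Finset.sum_const, Finset.card_univ, smul_eq_mul, mul_one] at h6
  exact lt_irrefl _ h6

/-- If `σ` preserves the intersecting family `M`, then every member of `M` contains a pair
`x, σ x`. -/
theorem exists_pair {n : ℕ} {M : Finset (Finset (Fin n))}
    (hM : ∀ A ∈ M, ∀ B ∈ M, (A ∩ B).Nonempty) {σ : Equiv.Perm (Fin n)}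
    (hσ : ∀ A ∈ M, A.map σ.toEmbedding ∈ M) {A : Finset (Fin n)} (hA : A ∈ M) :
    ∃ x ∈ A, σ x ∈ A := by
  obtain ⟨y, hy⟩ := hM A hA _ (hσ A hA)
  rw [Finset.mem_inter, Finset.mem_map] at hy
  obtain ⟨hyA, x, hx, rfl⟩ := hy
  exact ⟨x, hx, hyA⟩

/-- The classes of the sets which contain `x` and `τ x`. -/
theorem cover_of_pairs {n : ℕ} {F : Finset (Finset (Fin n))} {τ : Equiv.Perm (Fin n)}
    (hτ : ∀ x, τ x ≠ x) (h : ∀ A ∈ F, ∃ x ∈ A, τ x ∈ A) :
    ∃ G : Fin n → Finset (Finset (Fin n)),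
      (∀ i, G i ⊆ F) ∧
      (∀ i, ∀ A ∈ G i, ∀ B ∈ G i, A ≠ B → 2 ≤ (A ∩ B).card) ∧
      (∀ A ∈ F, ∃ i, A ∈ G i) := by
  refine ⟨fun i => F.filter fun A => i ∈ A ∧ τ i ∈ A, fun i => Finset.filter_subset _ _, ?_, ?_⟩
  · intro i A hA B hB _
    rw [Finset.mem_filter] at hA hB
    have h1 : ({i, τ i} : Finset (Fin n)) ⊆ A ∩ B := by
      intro z hz
      rw [Finset.mem_insert, Finset.mem_singleton] at hz
      rw [Finset.mem_inter]
      rcases hz with rfl | rfl
      · exact ⟨hA.2.1, hB.2.1⟩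
      · exact ⟨hA.2.2, hB.2.2⟩
    have h2 : ({i, τ i} : Finset (Fin n)).card = 2 := Finset.card_pair (hτ i).symm
    rw [← h2]
    exact Finset.card_le_card h1
  · intro A hA
    obtain ⟨x, hx, hx'⟩ := h A hA
    exact ⟨x, Finset.mem_filter.2 ⟨hA, hx, hx'⟩⟩

end Pool.Agent.Larman
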